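import Pool.Agent.Cm.Core

/-!
# Mirror inequality: the inequality of the Betti numbers from the end points
-/

set_option autoImplicit false
set_option linter.unusedSectionVars false
set_option linter.unusedVariables false

open scoped ComplexConjugate InnerProductSpace
open Filter Topology

namespace Cm

open Singer
open Npc (Cof St vd vd_nonneg vd_le_card Orb)

variable {H G : Type*} [Group G] [MulAction G H] {S : Hyp H G}

section zero
variable {A : Type*} [MulAction G A]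

/-- the zero matrix -/
def zeroK (G A : Type*) [Group G] [MulAction G A] : Kern G A A where
  d _ _ := 0
  smul _ _ _ := rfl
  M := 0
  row a := by simp
  col a := by simp
  le a b := by simp

lemma zeroK_D (F : Type*) [AddCommGroup F] (f : L2 (Cell S F A)) : (zeroK G A).D S F f = 0 := by
  ext y
  rw [Kern.D_apply]
  refine Finset.sum_eq_zero fun a _ => ?_
  show ((0 : ℤ) : ℂ) * _ = 0
  rw [Int.cast_zero, zero_mul]

lemma Cyc_zeroK (X : TSet H G A) (F : Type*) [AddCommGroup F] [Fintype F] (s : AddChar F ℂ → St) :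
    X.Cyc (zeroK G A) S F s = X.Ch S F s := by
  refine le_antisymm inf_le_left fun f hf => ⟨hf, ?_⟩
  exact zeroK_D F f

end zero

namespace ES
variable {P : Type*} {E : ℕ → Type*} [MulAction G P] [∀ j, MulAction G (E j)] (X : ES S P E) [∀ j, Cof G (E j)]
variable {τ : Type*} [Fintype τ] (x : τ → P)

/-- the alternating partial sums of a sequence -/
def alt (b : ℕ → ℝ) : ℕ → ℝ
  | 0 => b 0
  | i + 1 => b (i + 1) - alt b i

lemma alt_zero (b : ℕ → ℝ) : alt b 0 = b 0 := rfl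

lemma alt_succ (b : ℕ → ℝ) (i : ℕ) : alt b (i + 1) = b (i + 1) - alt b i := rfl

/-- the alternating partial sums of the Betti numbers, in terms of chains and cycles -/
lemma alt_eq {b c z : ℕ → ℝ} (h0 : b 0 = c 0 - (c 1 - z 0)) (h1 : ∀ i, b (i + 1) = z i - (c (i + 2) - z (i + 1)))
    (i : ℕ) : alt b i = z i - alt c (i + 1) := by
  induction i with
  | zero =>
    rw [alt_zero, h0, alt_succ, alt_zero]
    ring
  | succ i ih =>
    rw [alt_succ, ih, h1, alt_succ c (i + 1)]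
    ring

lemma alt_eq_sum (b : ℕ → ℝ) (i : ℕ) : alt b i = ∑ k ∈ Finset.range (i + 1), (-1) ^ (i + k) * b k := by
  induction i with
  | zero => simp [alt_zero]
  | succ i ih =>
    rw [alt_succ, ih, Finset.sum_range_succ _ (i + 1)]
    have h1 : ((-1 : ℝ)) ^ (i + 1 + (i + 1)) = 1 := by
      rw [← two_mul, pow_mul]
      norm_num
    have h2 : ∑ k ∈ Finset.range (i + 1), (-1 : ℝ) ^ (i + 1 + k) * b k =
        -∑ k ∈ Finset.range (i + 1), (-1) ^ (i + k) * b k := by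
      rw [← Finset.sum_neg_distrib]
      refine Finset.sum_congr rfl fun k _ => ?_
      rw [show i + 1 + k = (i + k) + 1 by ring, pow_succ]
      ring
    rw [h1, h2]
    ring

lemma alt_sum {τ : Type*} [Fintype τ] (b : τ → ℕ → ℝ) (i : ℕ) : ∑ q, alt (b q) i = alt (fun k => ∑ q, b q k) i := by
  induction i with
  | zero => rfl
  | succ i ih =>
    rw [alt_succ, ← ih, ← Finset.sum_sub_distrib]
    rfl

/-- **the inequality**, from the end points -/
theorem bE_le_of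
    (h6 : ∀ (N : ℕ) [NeZero N] j, vd (Gh S (ZMod N)) ((X.ts (j + 1)).Cyc (X.kn j) S (ZMod N) glu) = X.zE j)
    (h6' : ∀ (N : ℕ) [NeZero N] j, vd (Gh S (ZMod N)) ((X.ts j).Ch S (ZMod N) glu) = X.cE j)
    (h7 : ∀ (N : ℕ) [NeZero N] j, vd (Gh S (ZMod N)) ((X.ts (j + 1)).Cyc (X.kn j) S (ZMod N) mir) =
      ∑ q, X.zx (x q) j)
    (h7' : ∀ (N : ℕ) [NeZero N] j, vd (Gh S (ZMod N)) ((X.ts j).Ch S (ZMod N) mir) = ∑ q, X.cx (x q) j)
    (h8 : ∀ j, vd (Gh S (ZMod 1)) ((X.ts j).Ch S (ZMod 1) mir) ≤ vd (Gh S (ZMod 1)) ((X.ts j).Ch S (ZMod 1) glu))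
    (i : ℕ) : X.bE i ≤ ∑ q, X.bx (x q) i := by
  have z : ∀ j, X.zE j ≤ ∑ q, X.zx (x q) j := fun j =>
    TSet.core (S := S) (X.ts (j + 1)) (X.kn j) (fun N _ => h6 N j) fun N _ => h7 N j
  have c1 : ∀ j, X.cE j ≤ ∑ q, X.cx (x q) j := fun j =>
    TSet.core (S := S) (X.ts j) (zeroK G (X.Cn j)) (fun N _ => by rw [Cyc_zeroK]; exact h6' N j) fun N _ => by
      rw [Cyc_zeroK]
      exact h7' N j
  have c2 : ∀ j, ∑ q, X.cx (x q) j ≤ X.cE j := fun j => by
    rw [← h6' 1 j, ← h7' 1 j]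
    exact h8 j
  cases i with
  | zero =>
    have h : ∑ q, X.bx (x q) 0 = ∑ q, X.cx (x q) 0 -
        (∑ q, X.cx (x q) 1 - ∑ q, X.zx (x q) 0) := by
      rw [← Finset.sum_sub_distrib, ← Finset.sum_sub_distrib]
      rfl
    have h' : X.bE 0 = X.cE 0 - (X.cE 1 - X.zE 0) := rfl
    rw [h, h']
    linarith [c1 0, c2 1, z 0]
  | succ i =>
    have h : ∑ q, X.bx (x q) (i + 1) = ∑ q, X.zx (x q) i -
        (∑ q, X.cx (x q) (i + 2) - ∑ q, X.zx (x q) (i + 1)) := by
      rw [← Finset.sum_sub_distrib, ← Finset.sum_sub_distrib]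
      rfl
    have h' : X.bE (i + 1) = X.zE i - (X.cE (i + 2) - X.zE (i + 1)) := rfl
    rw [h, h']
    linarith [c2 (i + 2), z i, z (i + 1)]

/-- **the strong inequalities**, from the end points -/
theorem alt_le_of
    (h6 : ∀ (N : ℕ) [NeZero N] j, vd (Gh S (ZMod N)) ((X.ts (j + 1)).Cyc (X.kn j) S (ZMod N) glu) = X.zE j)
    (h6' : ∀ (N : ℕ) [NeZero N] j, vd (Gh S (ZMod N)) ((X.ts j).Ch S (ZMod N) glu) = X.cE j)
    (h7 : ∀ (N : ℕ) [NeZero N] j, vd (Gh S (ZMod N)) ((X.ts (j + 1)).Cyc (X.kn j) S (ZMod N) mir) =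
      ∑ q, X.zx (x q) j)
    (h7' : ∀ (N : ℕ) [NeZero N] j, vd (Gh S (ZMod N)) ((X.ts j).Ch S (ZMod N) mir) = ∑ q, X.cx (x q) j)
    (h8 : ∀ j, vd (Gh S (ZMod 1)) ((X.ts j).Ch S (ZMod 1) mir) ≤ vd (Gh S (ZMod 1)) ((X.ts j).Ch S (ZMod 1) glu))
    (i : ℕ) : alt X.bE i ≤ ∑ q, alt (X.bx (x q)) i := by
  have z : ∀ j, X.zE j ≤ ∑ q, X.zx (x q) j := fun j =>
    TSet.core (S := S) (X.ts (j + 1)) (X.kn j) (fun N _ => h6 N j) fun N _ => h7 N j
  have c1 : ∀ j, X.cE j ≤ ∑ q, X.cx (x q) j := fun j =>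
    TSet.core (S := S) (X.ts j) (zeroK G (X.Cn j)) (fun N _ => by rw [Cyc_zeroK]; exact h6' N j) fun N _ => by
      rw [Cyc_zeroK]
      exact h7' N j
  have c2 : ∀ j, ∑ q, X.cx (x q) j ≤ X.cE j := fun j => by
    rw [← h6' 1 j, ← h7' 1 j]
    exact h8 j
  have c : ∀ j, ∑ q, X.cx (x q) j = X.cE j := fun j => le_antisymm (c2 j) (c1 j)
  have e1 : alt X.bE i = X.zE i - alt X.cE (i + 1) := alt_eq rfl (fun _ => rfl) i
  have e2 : ∑ q, alt (X.bx (x q)) i = ∑ q, X.zx (x q) i - alt X.cE (i + 1) := by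
    have h : ∀ q, alt (X.bx (x q)) i = X.zx (x q) i - alt (X.cx (x q)) (i + 1) := fun q =>
      alt_eq rfl (fun _ => rfl) i
    rw [Finset.sum_congr rfl fun q _ => h q, Finset.sum_sub_distrib, alt_sum]
    congr 2
    exact funext c
  rw [e1, e2]
  linarith [z i]

end ES

end Cm
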