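import Pool.Agent.SQ.HH.L2Dual
import Pool.Agent.Singer.FinBetti

/-!
# Poincare duality for the `ℓ²`-Betti numbers

`betti_dual` : for a Poincare duality group of dimension `n = i + j` the `ℓ²`-Betti numbers in the degrees `i` and `j` are
equal.
-/

set_option autoImplicit false
set_option linter.unusedSectionVars false
set_option linter.unusedVariables false

open scoped Matrix ComplexConjugate InnerProductSpace
open Filter Topology

namespace Cm.B

open Singer hiding ac_mul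
open SQ

section gen
variable {Γ : Type} [Group Γ] {ι κ : Type} [Fintype ι] [Fintype κ]

/-- an operator which maps `V` into `A` and does not map elements outside of `V₀` into `B` -/
theorem vdim_sub_le {V V₀ : Submodule ℂ (E Γ ι)} {A B : Submodule ℂ (E Γ κ)} (hV : Mdl V) (hV₀ : Mdl V₀)
    (hB : Mdl B) (hle : V₀ ≤ V) (hBA : B ≤ A) (T : E Γ ι →L[ℂ] E Γ κ) (hT : Equi T) (h1 : ∀ v ∈ V, T v ∈ A)
    (h2 : ∀ v ∈ V, T v ∈ B → v ∈ V₀) : vdim V - vdim V₀ ≤ vdim A - vdim B := by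
  have e1 := vdim_add_diff hV₀.cl hle
  have e2 := vdim_add_diff hB.cl hBA
  have hBc : B.topologicalClosure = B := hB.cl.submodule_topologicalClosure_eq
  let W : Submodule ℂ (E Γ ι) := V ⊓ V₀ᗮ
  have hW : Mdl W := hV.inf (Mdl.orthogonal hV₀.inv)
  let T' : E Γ ι →L[ℂ] E Γ κ := T - (prj B).comp T
  have hT' : Equi T' := fun g f => by
    show T (lam g f) - prj B (T (lam g f)) = lam g (T f - prj B (T f))
    rw [hT, equi_prj hB.inv, map_sub]
  have e3 := vdim_map_add hT' hW.inv hW.cl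
  have hk : W ⊓ LinearMap.ker (T' : E Γ ι →ₗ[ℂ] E Γ κ) = ⊥ := by
    rw [eq_bot_iff]
    rintro v ⟨⟨hv, hv0⟩, hv1⟩
    have h3 : T v - prj B (T v) = 0 := hv1
    have h4 : T v ∈ B := by
      have h5 := prj_mem B (T v)
      rw [hBc, ← sub_eq_zero.1 h3] at h5
      exact h5
    have h6 := h2 v hv h4
    have h7 : ⟪v, v⟫_ℂ = 0 := (Submodule.mem_orthogonal _ _).1 hv0 v h6
    exact (Submodule.mem_bot ℂ).2 (inner_self_eq_zero.1 h7)
  rw [hk, vdim_bot, add_zero] at e3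
  have hm : W.map (T' : E Γ ι →ₗ[ℂ] E Γ κ) ≤ A ⊓ Bᗮ := by
    rintro _ ⟨v, ⟨hv, -⟩, rfl⟩
    have h3 : prj B (T v) ∈ B := by
      have h5 := prj_mem B (T v)
      rwa [hBc] at h5
    exact ⟨A.sub_mem (h1 v hv) (hBA h3), sub_prj_mem B (T v)⟩
  have e4 := vdim_mono hm
  have e5 : vdim W = vdim (V ⊓ V₀ᗮ) := rfl
  linarith

/-- the range of an operator -/
noncomputable abbrev rg (T : E Γ ι →L[ℂ] E Γ κ) : Submodule ℂ (E Γ κ) := LinearMap.range (T : E Γ ι →ₗ[ℂ] E Γ κ)

/-- the kernel of an operator -/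
noncomputable abbrev kr (T : E Γ ι →L[ℂ] E Γ κ) : Submodule ℂ (E Γ ι) := LinearMap.ker (T : E Γ ι →ₗ[ℂ] E Γ κ)

lemma equi_hat (M : Matrix ι κ (ZG Γ)) : Equi (hat M) := (mat_hat M).equi

lemma equi_ac (M : Matrix ι κ (ZG Γ)) : Equi (ac M) := (mat_hat (twx 1 M)).equi

lemma mdl_rg {T : E Γ ι →L[ℂ] E Γ κ} (hT : Equi T) : Mdl (rg T).topologicalClosure := by
  refine Mdl.closure ?_
  have h1 : rg T = (⊤ : Submodule ℂ (E Γ ι)).map (T : E Γ ι →ₗ[ℂ] E Γ κ) := (Submodule.map_top _).symm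
  rw [h1]
  exact inv_top.map hT

lemma kr_ac (M : Matrix ι κ (ZG Γ)) : kr (ac M) = (rg (hat M))ᗮ := by
  ext h
  rw [Submodule.mem_orthogonal]
  constructor
  · rintro hh _ ⟨f, rfl⟩
    have h1 : ac M h = 0 := hh
    show ⟪hat M f, h⟫_ℂ = 0
    rw [inner_hat, h1, inner_zero_right]
  · intro hh
    show ac M h = 0
    refine ext_inner_left ℂ fun f => ?_
    rw [← inner_hat, inner_zero_right]
    exact hh _ ⟨f, rfl⟩

lemma kr_hat (M : Matrix ι κ (ZG Γ)) : kr (hat M) = (rg (ac M))ᗮ := by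
  ext h
  rw [Submodule.mem_orthogonal]
  constructor
  · rintro hh _ ⟨f, rfl⟩
    have h1 : hat M h = 0 := hh
    show ⟪ac M f, h⟫_ℂ = 0
    rw [← inner_conj_symm, ← inner_hat, h1, inner_zero_left, map_zero]
  · intro hh
    show hat M h = 0
    refine ext_inner_right ℂ fun f => ?_
    rw [inner_hat, ← inner_conj_symm, inner_zero_left]
    have h1 : ⟪ac M f, h⟫_ℂ = 0 := hh _ ⟨f, rfl⟩
    rw [h1, map_zero]

/-- the twist preserves the dimensions -/
lemma vdim_tw (χ : Γ →* ℤˣ) {V W : Submodule ℂ (E Γ ι)} (h : ∀ f, f ∈ W ↔ tw χ f ∈ V) : vdim W = vdim V := by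
  have hcl : ∀ {V W : Submodule ℂ (E Γ ι)}, (∀ f, f ∈ W → tw χ f ∈ V) → ∀ f ∈ W.topologicalClosure,
      tw χ f ∈ V.topologicalClosure := by
    intro V W h f hf
    have h1 : W.topologicalClosure ≤ V.topologicalClosure.comap (tw (ι := ι) χ).toLinearMap := by
      refine W.topologicalClosure_minimal (fun x hx => V.le_topologicalClosure (h x hx)) ?_
      exact (Submodule.isClosed_topologicalClosure V).preimage (tw χ).continuous
    exact h1 hf
  have h1 : ∀ f, prj W f = tw χ (prj V (tw χ f)) := by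
    intro f
    refine prj_unique (hcl (fun f hf => (h _).2 (by rwa [tw_tw])) _ (prj_mem V _)) ?_
    rw [Submodule.mem_orthogonal]
    intro u hu
    have h2 : f - tw χ (prj V (tw χ f)) = tw χ (tw χ f - prj V (tw χ f)) := by
      rw [map_sub, tw_tw]
    rw [h2, ← inner_tw_left]
    exact (Submodule.mem_orthogonal _ _).1 (sub_prj_mem V _) _ ((h u).1 hu)
  have hn : ∀ f : E Γ ι, ‖tw χ f‖ = ‖f‖ := by
    intro f
    have h2 := inner_tw_tw χ f f
    rw [inner_self_eq_norm_sq_to_K, inner_self_eq_norm_sq_to_K] at h2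
    have h3 : ‖tw χ f‖ ^ 2 = ‖f‖ ^ 2 := by exact_mod_cast h2
    exact (sq_eq_sq₀ (norm_nonneg _) (norm_nonneg _)).1 h3
  unfold vdim
  refine Finset.sum_congr rfl fun j _ => ?_
  rw [h1, hn, tw_del]

lemma vdim_kr_twx (χ : Γ →* ℤ) (M : Matrix ι κ (ZG Γ)) : vdim (kr (ac (twx χ M))) = vdim (kr (hat M)) :=
  (vdim_tw (uch χ) fun f => (hat_eq_zero_iff χ M f).symm).symm

lemma vdim_rg_twx (χ : Γ →* ℤ) (M : Matrix ι κ (ZG Γ)) : vdim (rg (ac (twx χ M))) = vdim (rg (hat M)) := by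
  refine (vdim_tw (uch χ) fun f => ?_).symm
  constructor
  · rintro ⟨x, rfl⟩
    exact ⟨tw (uch χ) x, ac_twx χ M x⟩
  · rintro ⟨x, hx⟩
    refine ⟨tw (uch χ) x, ?_⟩
    have h1 := ac_twx χ M (tw (uch χ) x)
    rw [tw_tw] at h1
    have h2 : ac (twx χ M) x = tw (uch χ) f := hx
    have h3 := congrArg (tw (uch χ)) (h1.symm.trans h2)
    rw [tw_tw, tw_tw] at h3
    exact h3

end gen

section low
variable {Γ : Type} [Group Γ] {κ ι : ℕ → Type} [∀ i, Fintype (κ i)] [∀ i, Fintype (ι i)]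
  [∀ i, DecidableEq (κ i)] [∀ i, DecidableEq (ι i)]
  {c : ∀ i, Matrix (κ (i + 1)) (κ i) (ZG Γ)} {D : ∀ j, Matrix (ι j) (ι (j + 1)) (ZG Γ)} {n : ℕ}

/-- the maps in both directions, below the top degree -/
theorem low_eq (cc : ∀ i, c (i + 1) * c i = 0) (DD : ∀ j, D j * D (j + 1) = 0) {i j : ℕ}
    (exc : ∀ x : κ (i + 1) → ZG Γ, c (i + 1) *ᵥ x = 0 → ∃ z, c i *ᵥ z = x)
    (exD : ∀ x : ι (j + 1) → ZG Γ, D j *ᵥ x = 0 → ∃ z, D (j + 1) *ᵥ z = x)
    (base : ∃ (f : Matrix (ι (j + 1)) (κ (i + 1)) (ZG Γ)) (g : Matrix (κ (i + 1)) (ι (j + 1)) (ZG Γ))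
      (h : Matrix (κ (i + 1)) (κ (i + 2)) (ZG Γ))
      (f' : Matrix (ι j) (κ (i + 2)) (ZG Γ)) (g' : Matrix (κ (i + 2)) (ι j) (ZG Γ)) (k : Matrix (ι (j + 1)) (ι j) (ZG Γ)),
      D j * f = f' * c (i + 1) ∧ c (i + 1) * g = g' * D j ∧ c (i + 1) * (1 - g * f - h * c (i + 1)) = 0 ∧
        D j * (1 - f * g - k * D j) = 0) :
    vdim (kr (ac (c (i + 1)))) - vdim (rg (ac (c i))) = vdim (kr (ac (D j))) - vdim (rg (ac (D (j + 1)))) := by
  obtain ⟨f, g, h, f', g', k, h1, h2, h3, h4⟩ := base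
  obtain ⟨G, hG⟩ : ∃ G : Matrix (κ i) (ι (j + 2)) (ZG Γ), c i * G = g * D (j + 1) := by
    refine exists_mul_of_col fun k => exc _ (col_of_mul_eq_zero (M := c (i + 1)) (Q := g * D (j + 1)) ?_ k)
    rw [← Matrix.mul_assoc, h2, Matrix.mul_assoc, DD, Matrix.mul_zero]
  obtain ⟨S, hS⟩ : ∃ S : Matrix (κ i) (κ (i + 1)) (ZG Γ), c i * S = 1 - g * f - h * c (i + 1) :=
    exists_mul_of_col fun k => exc _ (col_of_mul_eq_zero (M := c (i + 1)) h3 k)
  obtain ⟨F, hF⟩ : ∃ F : Matrix (ι (j + 2)) (κ i) (ZG Γ), D (j + 1) * F = f * c i := by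
    refine exists_mul_of_col fun k => exD _ (col_of_mul_eq_zero (M := D j) (Q := f * c i) ?_ k)
    rw [← Matrix.mul_assoc, h1, Matrix.mul_assoc, cc, Matrix.mul_zero]
  obtain ⟨K, hK⟩ : ∃ K : Matrix (ι (j + 2)) (ι (j + 1)) (ZG Γ), D (j + 1) * K = 1 - f * g - k * D j :=
    exists_mul_of_col fun l => exD _ (col_of_mul_eq_zero (M := D j) h4 l)
  have hc0 : (rg (ac (c i))).topologicalClosure ≤ kr (ac (c (i + 1))) := by
    refine Submodule.topologicalClosure_minimal _ ?_ (mdl_ker (equi_ac _)).cl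
    rintro _ ⟨x, rfl⟩
    show ac (c (i + 1)) (ac (c i) x) = 0
    rw [← ac_mul, cc, ac_zero]
  have hD0 : (rg (ac (D (j + 1)))).topologicalClosure ≤ kr (ac (D j)) := by
    refine Submodule.topologicalClosure_minimal _ ?_ (mdl_ker (equi_ac _)).cl
    rintro _ ⟨x, rfl⟩
    show ac (D j) (ac (D (j + 1)) x) = 0
    rw [← ac_mul, DD, ac_zero]
  have e1 := vdim_sub_le (mdl_ker (equi_ac (c (i + 1)))) (mdl_rg (equi_ac (c i))) (mdl_rg (equi_ac (D (j + 1))))
    hc0 hD0 (ac f) (equi_ac f) (fun v hv => by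
      show ac (D j) (ac f v) = 0
      rw [← ac_mul, h1, ac_mul, show ac (c (i + 1)) v = 0 from hv, map_zero]) (fun y hy hz => by
      have hy' : ac (c (i + 1)) y = 0 := hy
      have h5 := mem_closure_of_comp (S := ac (D (j + 1))) (T := ac (c i)) (g := ac g) (G := ac G)
        (fun x => by rw [← ac_mul, ← ac_mul, hG]) hz (ac S y)
      have h6 : ac g (ac f y) + ac (c i) (ac S y) = y := by
        rw [← ac_mul, ← ac_mul, hS, ac_sub, ac_sub, ac_one, ac_mul h, hy', map_zero, sub_zero, add_sub_cancel]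
      rw [h6] at h5
      exact h5)
  have e2 := vdim_sub_le (mdl_ker (equi_ac (D j))) (mdl_rg (equi_ac (D (j + 1)))) (mdl_rg (equi_ac (c i)))
    hD0 hc0 (ac g) (equi_ac g) (fun v hv => by
      show ac (c (i + 1)) (ac g v) = 0
      rw [← ac_mul, h2, ac_mul, show ac (D j) v = 0 from hv, map_zero]) (fun x hx hz => by
      have hx' : ac (D j) x = 0 := hx
      have h5 := mem_closure_of_comp (S := ac (c i)) (T := ac (D (j + 1))) (g := ac f) (G := ac F)
        (fun x => by rw [← ac_mul, ← ac_mul, hF]) hz (ac K x)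
      have h6 : ac f (ac g x) + ac (D (j + 1)) (ac K x) = x := by
        rw [← ac_mul, ← ac_mul, hK, ac_sub, ac_sub, ac_one, ac_mul k, hx', map_zero, sub_zero, add_sub_cancel]
      rw [h6] at h5
      exact h5)
  rw [vdim_closure, vdim_closure] at e1 e2
  exact le_antisymm e1 e2

/-- the maps in both directions, in the top degree -/
theorem top_eq (cc : ∀ i, c (i + 1) * c i = 0)
    {u : Matrix (κ (n + 1)) (κ (n + 2)) (ZG Γ)}
    (base : ∃ (f : Matrix (ι 1) (κ n) (ZG Γ)) (g : Matrix (κ n) (ι 1) (ZG Γ)) (h : Matrix (κ n) (κ (n + 1)) (ZG Γ))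
      (f' : Matrix (ι 0) (κ (n + 1)) (ZG Γ)) (g' : Matrix (κ (n + 1)) (ι 0) (ZG Γ)) (k : Matrix (ι 1) (ι 0) (ZG Γ)),
      D 0 * f = f' * c n ∧ c n * g = g' * D 0 ∧
        c n * h = (1 - u * c (n + 1)) - g' * f' * (1 - u * c (n + 1)) ∧ D 0 * k = 1 - f' * g' ∧ c (n + 1) * g' = 0) :
    vdim (kr (ac (c (n + 1)))) - vdim (rg (ac (c n))) = (Fintype.card (ι 0) : ℝ) - vdim (rg (ac (D 0))) := by
  obtain ⟨f, g, h, f', g', k, h1, h2, h3, h4, h5⟩ := base
  have hc0 : (rg (ac (c n))).topologicalClosure ≤ kr (ac (c (n + 1))) := by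
    refine Submodule.topologicalClosure_minimal _ ?_ (mdl_ker (equi_ac _)).cl
    rintro _ ⟨x, rfl⟩
    show ac (c (n + 1)) (ac (c n) x) = 0
    rw [← ac_mul, cc, ac_zero]
  have htop : Mdl (⊤ : Submodule ℂ (E Γ (ι 0))) := ⟨inv_top, isClosed_univ⟩
  have e1 := vdim_sub_le (mdl_ker (equi_ac (c (n + 1)))) (mdl_rg (equi_ac (c n))) (mdl_rg (equi_ac (D 0)))
    hc0 (le_top (a := (rg (ac (D 0))).topologicalClosure)) (ac f') (equi_ac f') (fun v hv => trivial) (fun y hy hz => by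
      have hy' : ac (c (n + 1)) y = 0 := hy
      have h6 := mem_closure_of_comp (S := ac (D 0)) (T := ac (c n)) (g := ac g') (G := ac g)
        (fun x => by rw [← ac_mul, ← ac_mul, h2]) hz (ac h y)
      have h7 : ac g' (ac f' y) + ac (c n) (ac h y) = y := by
        have hey : ac ((1 : Matrix (κ (n + 1)) (κ (n + 1)) (ZG Γ)) - u * c (n + 1)) y = y := by
          rw [ac_sub, ac_one, ac_mul, hy', map_zero, sub_zero]
        rw [← ac_mul (c n), h3, ac_sub, ac_mul (g' * f'), hey, ac_mul g' f', add_sub_cancel]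
      rw [h7] at h6
      exact h6)
  have e2 := vdim_sub_le htop (mdl_rg (equi_ac (D 0))) (mdl_rg (equi_ac (c n)))
    le_top hc0 (ac g') (equi_ac g') (fun v _ => by
      show ac (c (n + 1)) (ac g' v) = 0
      rw [← ac_mul, h5, ac_zero]) (fun x _ hz => by
      have h6 := mem_closure_of_comp (S := ac (c n)) (T := ac (D 0)) (g := ac f') (G := ac f)
        (fun x => by rw [← ac_mul, ← ac_mul, h1]) hz (ac k x)
      have h7 : ac f' (ac g' x) + ac (D 0) (ac k x) = x := by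
        rw [← ac_mul, ← ac_mul, h4, ac_sub, ac_one, add_sub_cancel]
      rw [h7] at h6
      exact h6)
  rw [vdim_closure, vdim_closure, vdim_top] at e1 e2
  exact le_antisymm e1 e2

end low

section fin
variable {Γ : Type} [Group Γ] (R : FinRes Γ)

/-- the Betti numbers from the cohomology -/
theorem betti_co (i : ℕ) : R.betti i = vdim (kr (ac (cm R (i + 1)))) - vdim (rg (ac (cm R i))) := by
  have h1 : vdim (kr (ac (cm R (i + 1)))) = Fintype.card (R.ι i) - vdim (rg (hat (cm R (i + 1)))) := by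
    rw [kr_ac, vdim_orthogonal]
    rfl
  have h2 : vdim (kr (hat (cm R i))) = Fintype.card (R.ι i) - vdim (rg (ac (cm R i))) := by
    rw [kr_hat, vdim_orthogonal]
    rfl
  have h3 : R.betti i = vdim (kr (hat (cm R i))) - vdim (rg (hat (cm R (i + 1)))) := by
    rw [FinRes.betti_eq]
    unfold HC.h
    rw [PreRes.toHC_Z, PreRes.toHC_B]
    congr 1
    · show vdim (R.toRes.Z i) = _
      congr 1
      cases i with
      | zero =>
        ext f
        refine ⟨fun _ => ?_, fun _ => trivial⟩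
        show hat (cm R 0) f = 0
        ext ⟨g, e⟩
        exact Empty.elim e
      | succ i => exact top_inf_eq _
    · show vdim (((⊤ : Submodule ℂ (E Γ (R.ι (i + 1)))).map
        (hat (R.d i) : E Γ (R.ι (i + 1)) →ₗ[ℂ] E Γ (R.ι i)) : Submodule ℂ (E Γ (R.ι i))).topologicalClosure) = _
      rw [vdim_closure, Submodule.map_top]
      rfl
  rw [h3]
  linarith

/-- the Betti number in degree `0`, from the homology -/
theorem betti_zero' : R.betti 0 = (Fintype.card (R.ι 0) : ℝ) - vdim (rg (hat (R.d 0))) := by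
  rw [FinRes.betti_eq]
  unfold HC.h
  rw [PreRes.toHC_Z, PreRes.toHC_B]
  congr 1
  · exact vdim_top
  · show vdim (((⊤ : Submodule ℂ (E Γ (R.ι 1))).map
      (hat (R.d 0) : E Γ (R.ι 1) →ₗ[ℂ] E Γ (R.ι 0)) : Submodule ℂ (E Γ (R.ι 0))).topologicalClosure) = _
    rw [vdim_closure, Submodule.map_top]

/-- the Betti numbers in the positive degrees, from the homology -/
theorem betti_succ' (j : ℕ) : R.betti (j + 1) = vdim (kr (hat (R.d j))) - vdim (rg (hat (R.d (j + 1)))) := by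
  rw [FinRes.betti_eq]
  unfold HC.h
  rw [PreRes.toHC_Z, PreRes.toHC_B]
  congr 1
  · show vdim (R.toRes.Z (j + 1)) = _
    congr 1
    exact top_inf_eq _
  · show vdim (((⊤ : Submodule ℂ (E Γ (R.ι (j + 2)))).map
      (hat (R.d (j + 1)) : E Γ (R.ι (j + 2)) →ₗ[ℂ] E Γ (R.ι (j + 1))) :
        Submodule ℂ (E Γ (R.ι (j + 1)))).topologicalClosure) = _
    rw [vdim_closure, Submodule.map_top]

/-- **Poincare duality** for the `ℓ²`-Betti numbers -/
theorem betti_dual {n i j : ℕ} (hPD : IsPD n Γ) (hij : i + j = n) : R.betti i = R.betti j := by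
  classical
  obtain ⟨χ, u, X, ε, r, η, t, hDD, hexD, hex, hreg, hu, hεX, hr, hεex, hηX, hη1, ht', hker⟩ := pd_setup hPD R
  obtain ⟨hbase, -, -⟩ := pd_top.{0, 0, 0} (κ := kap R) (ι := R.ι) (c := cm R) (D := fun j => twx χ (R.d j)) (n := n) (cm_cm R) hu
    ε hεX hr hεex η hηX hη1 ht' hker
  have hraw := pd_top_raw (κ := kap R) (ι := R.ι) (c := cm R)
    (D := fun j => twx χ (R.d j)) (n := n) (cm_cm R) hu ε hεX hr hεex η hηX hη1 ht' hker
  have hstep := pd_step (κ := kap R) (ι := R.ι) (c := cm R) (D := fun j => twx χ (R.d j)) (n := n) (cm_cm R) hDD hexD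
    (fun i hi x hx => hex i (by omega) x hx) hbase
  rw [betti_co]
  cases j with
  | zero =>
    have hi' : i = n := by omega
    subst hi'
    have h1 := top_eq (κ := kap R) (ι := R.ι) (c := cm R) (D := fun j => twx χ (R.d j)) (n := i) (cm_cm R) (u := u) hraw
    rw [h1, betti_zero', vdim_rg_twx]
  | succ j =>
    have h1 := low_eq (κ := kap R) (ι := R.ι) (c := cm R) (D := fun j => twx χ (R.d j)) (cm_cm R) hDD
      (fun x hx => hex i (by omega) x hx) (hexD j) (hstep j (i + 1) (by omega))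
    rw [h1, betti_succ', vdim_rg_twx, vdim_kr_twx]

end fin

end Cm.B
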