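import Pool.Agent.Cm.BetG
import Pool.Agent.Cm.DualB
import Pool.Agent.SQ.V.Main

/-!
# The bounds of `ℓ²`-Betti numbers

* `Bet.h_le`, `Bet.betti_le` : if `Bet i Γ c` then the `ℓ²`-Betti number of `Γ` in degree `i` is at most `c`;
* `singer` : the Singer conjecture for the Poincare duality groups of dimension `n` with `Bet i Γ 0` for `n / 2 < i ≤ n`.
-/

set_option autoImplicit false
set_option linter.unusedSectionVars false
set_option linter.unusedVariables false

namespace Cm.B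

open Singer CubeComplex

/-- the number of basis elements is a bound -/
theorem betti_le_card {Γ : Type} [Group Γ] (R : FinRes Γ) (i : ℕ) : R.betti i ≤ Fintype.card (R.ι i) := by
  rw [FinRes.betti_eq]
  unfold HC.h
  rw [PreRes.toHC_Z, PreRes.toHC_B]
  have h1 : vdim (R.toRes.Z i) ≤ Fintype.card (R.ι i) := by
    have h2 : vdim (R.toRes.Z i) ≤ vdim (⊤ : Submodule ℂ (E Γ (R.ι i))) := vdim_mono le_top
    rwa [vdim_top] at h2
  have h3 : 0 ≤ vdim (R.toRes.B i) := vdim_nonneg _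
  show vdim (R.toRes.Z i) - vdim (R.toRes.B i) ≤ Fintype.card (R.ι i)
  linarith

theorem h_eq_betti {Γ : Type} [Group Γ] (S : Res.{0} Γ) (R : FinRes Γ) (i : ℕ) : S.toPreRes.toHC.h i = R.betti i := by
  rw [FinRes.betti_eq]
  exact Res.h_eq _ _ i

theorem h_eq_zero_of {Γ : Type} [Group Γ] (S : Res.{0} Γ) {i : ℕ} (h : S.Z i ≤ S.B i) : S.toPreRes.toHC.h i = 0 := by
  rw [HC.h_eq_zero_iff, PreRes.toHC_Z]
  exact h

/-- **the bounds hold** -/
theorem Bet.h_le {i : ℕ} {Γ : Type} [Group Γ] {c : ℝ} (h : Bet i Γ c) (S : Res.{0} Γ) :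
    S.toPreRes.toHC.h i ≤ c := by
  induction h with
  | @rank i Γ _ R =>
    rw [h_eq_betti S R]
    exact betti_le_card R i
  | @zero Γ _ hΓ => exact (h_eq_zero_of S (SQ.V.van_zero S)).le
  | @amen i Γ _ R hA =>
    rw [h_eq_betti S R, FinRes.betti_eq]
    exact (SQ.V.van_amen hA R i).le
  | @top n i Γ _ hPD hi =>
    obtain ⟨R⟩ := SQ.exists_finRes_of_isPD hPD
    exact (h_eq_zero_of S (SQ.V.van_of_vanE R ((SQ.l2_dual R hPD).2 i hi) S)).le
  | @sub n i P _ K R hP hK hi => exact (h_eq_zero_of S ((SQ.V.Van.sub K R hP hK hi).van S)).le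
  | mono hc _ ih => exact (ih S).trans hc
  | lim _ ih => exact le_of_forall_pos_le_add fun ε hε => ih ε hε S
  | @sup i Γ H _ _ c j hj hf _ ih =>
    obtain ⟨T, hT⟩ := exists_trv_index j hj hf
    have h1 := ih (T.res S)
    rw [T.h_res S i, hT] at h1
    have h2 : 0 < (j.range.index : ℝ) := by
      have h3 : j.range.index ≠ 0 := Subgroup.FiniteIndex.index_ne_zero
      exact_mod_cast Nat.pos_of_ne_zero h3
    rw [le_div_iff₀ h2, mul_comm]
    exact h1
  | @inf i Γ H _ _ c j R hj hf _ ih =>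
    obtain ⟨T, hT⟩ := exists_trv_index j hj hf
    have h1 := ih R.toRes
    rw [Res.h_eq S (T.res R.toRes), T.h_res R.toRes i, hT]
    exact mul_le_mul_of_nonneg_left h1 (Nat.cast_nonneg _)
  | @dual i j Γ _ c hPD _ ih =>
    obtain ⟨R⟩ := SQ.exists_finRes_of_isPD hPD
    rw [h_eq_betti S R, ← betti_dual R hPD rfl, FinRes.betti_eq]
    exact ih R.toRes
  | @cells i m Γ K _ _ G x c hS hc _ ih => exact hS.cells_le hc (fun j q hq R => ih j q hq R) S
  | @cell n q m Γ K _ _ G x c c₀ j₀ hS hc hn _ _ _ ih0 ih1 ih2 =>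
    exact hS.cell_le hc hn (fun R => ih0 R) (fun j r h1 h2 R => ih1 j r h1 h2 R) (fun j r h1 h2 R => ih2 j r h1 h2 R) S
  | @mirror i m Γ X _ _ M x c hM hx hc _ ih =>
    obtain ⟨I, SM, h1⟩ := cm_le hM x hx
    refine (h1 S i).trans ?_
    refine (Finset.sum_le_sum fun j _ => ih j.1 (SM j)).trans ?_
    rw [Finset.sum_coe_sort I c]
    exact Finset.sum_le_sum_of_subset_of_nonneg (Finset.subset_univ _) fun j _ _ => hc j

/-- the bounds for the resolutions by finitely generated free modules -/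
theorem Bet.betti_le {i : ℕ} {Γ : Type} [Group Γ] {c : ℝ} (h : Bet i Γ c) (R : FinRes Γ) : R.betti i ≤ c := by
  rw [FinRes.betti_eq]
  exact h.h_le R.toRes

/-- **the Singer conjecture** for the Poincare duality groups of dimension `n` with the bound `0` for `n / 2 < i ≤ n` -/
theorem singer {n : ℕ} {Γ : Type} [Group Γ] (hn : IsPD n Γ) (h : ∀ i, n < 2 * i → i ≤ n → Bet i Γ 0) :
    Nonempty (FinRes Γ) ∧ ∀ (R : FinRes Γ) (i : ℕ), 2 * i ≠ n → R.betti i = 0 := by
  refine ⟨SQ.exists_finRes_of_isPD hn, fun R i hi => le_antisymm ?_ (FinRes.betti_nonneg R i)⟩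
  rcases lt_or_gt_of_ne hi with h1 | h1
  · rw [betti_dual R hn (show i + (n - i) = n by omega)]
    exact (h (n - i) (by omega) (by omega)).betti_le R
  · rcases le_or_gt i n with h2 | h2
    · exact (h i h1 h2).betti_le R
    · exact (Bet.top hn h2).betti_le R

end Cm.B
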