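import Pool.Agent.Cm.Stmt
import Pool.Agent.Singer.BettiStmt
import Pool.Agent.SQ.V.Stmt

/-!
# Rules for upper bounds of `ℓ²`-Betti numbers

* `GComplex Γ K` : complexes with a basis `K` which is permuted by `Γ` up to signs;
* `ComplexAction S x` : the complex `S` is acyclic, the cells `x 0, ..., x (m - 1)` meet all orbits, and the stabilizers are of
  type `FP_∞`;
* `Bet i Γ c` : the bound `b_i(Γ) ≤ c` can be deduced from the rules.
-/

set_option autoImplicit false

namespace Cm.B

open Singer CubeComplex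
open SQ.V (InClass Amenable)

/-- a complex of signed permutation modules: the elements of `K` are the cells, `bd x` is the boundary of the cell `x`, an
integral combination of cells, and `sg g x` is the sign with which `g` maps the cell `x` to the cell `g • x` -/
structure GComplex (Γ K : Type) [Group Γ] [MulAction Γ K] where
  dim : K → ℕ
  bd : K → K →₀ ℤ
  sg : Γ → K → ℤ
  dim_smul : ∀ (g : Γ) (x : K), dim (g • x) = dim x
  bd_dim : ∀ x y, bd x y ≠ 0 → dim y + 1 = dim x
  bd_bd : ∀ x z, ((bd x).sum fun y k => k * bd y z) = 0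
  sg_sq : ∀ (g : Γ) (x : K), sg g x * sg g x = 1
  sg_mul : ∀ (g h : Γ) (x : K), sg (g * h) x = sg g (h • x) * sg h x
  bd_smul : ∀ (g : Γ) (x y : K), sg g x * bd (g • x) (g • y) = sg g y * bd x y

/-- the complex is a resolution of the trivial module, with complex coefficients: the vertices have the augmentation `1`; a
chain `z` with finite support is a boundary if it is a cycle (a chain of vertices: if the sum of its coefficients is zero) -/
structure GComplex.Acyclic {Γ K : Type} [Group Γ] [MulAction Γ K] (S : GComplex Γ K) : Prop where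
  vertex : ∃ x, S.dim x = 0
  sg_vertex : ∀ (g : Γ) (x : K), S.dim x = 0 → S.sg g x = 1
  aug : ∀ x, S.dim x = 1 → ((S.bd x).sum fun _ k => k) = 0
  exact_zero : ∀ z : K →₀ ℂ, (∀ x, z x ≠ 0 → S.dim x = 0) → (z.sum fun _ a => a) = 0 →
    ∃ y : K →₀ ℂ, (∀ x, y x ≠ 0 → S.dim x = 1) ∧ ∀ k, (y.sum fun x a => S.bd x k * a) = z k
  exact_succ : ∀ (p : ℕ) (z : K →₀ ℂ), (∀ x, z x ≠ 0 → S.dim x = p + 1) →
    (∀ k, (z.sum fun x a => S.bd x k * a) = 0) →
    ∃ y : K →₀ ℂ, (∀ x, y x ≠ 0 → S.dim x = p + 2) ∧ ∀ k, (y.sum fun x a => S.bd x k * a) = z k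

/-- the complex `S` is acyclic, the cells `x 0, ..., x (m - 1)` meet all orbits, and the stabilizers are of type `FP_∞` -/
structure ComplexAction {Γ K : Type} [Group Γ] [MulAction Γ K] (S : GComplex Γ K) {m : ℕ} (x : Fin m → K) : Prop where
  acyclic : S.Acyclic
  orbit : ∀ k, ∃ (j : Fin m) (g : Γ), g • x j = k
  fin : ∀ k : K, Nonempty (FinRes (MulAction.stabilizer Γ k))

/-- Rules for upper bounds of `ℓ²`-Betti numbers: `Bet i Γ c` means that the bound `b_i(Γ) ≤ c` can be deduced from the
following rules.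
* `rank`: the number of basis elements in degree `i` of a resolution by finitely generated free modules.
* `zero`, `amen`, `top`: the bound `0`, for infinite groups in degree `0`, for amenable groups of type `FP_∞` in positive
  degrees, and for Poincare duality groups of dimension `n` in the degrees `i > n`.
* `sub`: the bound `0` in the degrees `i > n / 2` for the subgroups `K` of type `FP_∞`, of any index, of the `n`-dimensional
  Poincare duality groups, if `K` is in `InClass`.
* `mono`, `lim`: larger bounds, and limits of bounds.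
* `sup`, `inf`: the bounds are divided, multiplied with the index for groups which contain `H`, which are contained in `H`
  with finite index.
* `dual`: Poincare duality.
* `cells`: if `Γ` acts on an acyclic complex then the bounds in degree `i - p` for the stabilizers of the cells of dimension
  `p` are added.
* `cell`: if `Γ` acts on an acyclic complex then the stabilizer of a cell of dimension `p` has in degree `q` the sum of the
  bounds for `Γ` in degree `n = p + q`, for the stabilizers of the cells of dimension `r < p` in degree `n - 1 - r`, and for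
  those of dimension `r > p` in degree `n + 1 - r`.
* `mirror`: if `Γ` acts on a `CAT(0)` cube complex then the bounds for the mirrored groups of the vertices are added. -/
inductive Bet : ℕ → ∀ (Γ : Type) [Group Γ], ℝ → Prop
  | rank {i : ℕ} {Γ : Type} [Group Γ] (R : FinRes Γ) : Bet i Γ (Fintype.card (R.ι i))
  | zero {Γ : Type} [Group Γ] : Infinite Γ → Bet 0 Γ 0
  | amen {i : ℕ} {Γ : Type} [Group Γ] (R : FinRes Γ) : Amenable Γ → Bet (i + 1) Γ 0
  | top {n i : ℕ} {Γ : Type} [Group Γ] : IsPD n Γ → n < i → Bet i Γ 0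
  | sub {n i : ℕ} {P : Type} [Group P] (K : Subgroup P) (R : FinRes K) : IsPD n P → InClass K → n < 2 * i → Bet i K 0
  | mono {i : ℕ} {Γ : Type} [Group Γ] {c c' : ℝ} : c ≤ c' → Bet i Γ c → Bet i Γ c'
  | lim {i : ℕ} {Γ : Type} [Group Γ] {c : ℝ} : (∀ ε, 0 < ε → Bet i Γ (c + ε)) → Bet i Γ c
  | sup {i : ℕ} {Γ H : Type} [Group Γ] [Group H] {c : ℝ} (j : H →* Γ) :
      Function.Injective j → j.range.FiniteIndex → Bet i H c → Bet i Γ (c / j.range.index)
  | inf {i : ℕ} {Γ H : Type} [Group Γ] [Group H] {c : ℝ} (j : Γ →* H) (R : FinRes H) :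
      Function.Injective j → j.range.FiniteIndex → Bet i H c → Bet i Γ (j.range.index * c)
  | dual {i j : ℕ} {Γ : Type} [Group Γ] {c : ℝ} : IsPD (i + j) Γ → Bet i Γ c → Bet j Γ c
  | cells {i m : ℕ} {Γ K : Type} [Group Γ] [MulAction Γ K] (S : GComplex Γ K) (x : Fin m → K) (c : Fin m → ℝ) :
      ComplexAction S x → (∀ j, 0 ≤ c j) →
      (∀ (j : Fin m) (q : ℕ), q + S.dim (x j) = i → Bet q (MulAction.stabilizer Γ (x j)) (c j)) → Bet i Γ (∑ j, c j)
  | cell {n q m : ℕ} {Γ K : Type} [Group Γ] [MulAction Γ K] (S : GComplex Γ K) (x : Fin m → K) (c : Fin m → ℝ) (c₀ : ℝ)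
      (j₀ : Fin m) : ComplexAction S x → (∀ j, 0 ≤ c j) → q + S.dim (x j₀) = n → Bet n Γ c₀ →
      (∀ (j : Fin m) (r : ℕ), S.dim (x j) < S.dim (x j₀) → r + S.dim (x j) + 1 = n →
        Bet r (MulAction.stabilizer Γ (x j)) (c j)) →
      (∀ (j : Fin m) (r : ℕ), S.dim (x j₀) < S.dim (x j) → r + S.dim (x j) = n + 1 →
        Bet r (MulAction.stabilizer Γ (x j)) (c j)) →
      Bet q (MulAction.stabilizer Γ (x j₀)) (c₀ + ∑ j, c j)
  | mirror {i m : ℕ} {Γ X : Type} [Group Γ] [MulAction Γ X] (M : SimpleGraph X) (x : Fin m → X) (c : Fin m → ℝ) :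
      CubicalAction Γ M → (∀ v, ∃ (j : Fin m) (g : Γ), g • x j = v) → (∀ j, 0 ≤ c j) →
      (∀ j, Bet i (MirGroup Γ M (x j)) (c j)) → Bet i Γ (∑ j, c j)

end Cm.B
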