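import Pool.Agent.Cm.Kx

/-!
# The complex of the cubes of a median graph is acyclic
-/

set_option autoImplicit false
set_option linter.unusedSectionVars false
set_option linter.unusedVariables false

open scoped Pointwise

namespace Cm

open Npc (Median GraphAct)
open Singer

variable {G P : Type*} [Group G] [MulAction G P] {X : SimpleGraph P} [hA : GraphAct G X]

/-- the complex of the cubes is acyclic -/
theorem acyK_cub (hX : Median X) : AcyK (cubSK hX : SK G (Cub X)) where
  sg0 := sg_dim_zero
  ne := by
    obtain ⟨x0⟩ := hX.conn.nonempty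
    exact ⟨cell (vx hX x0), cdim_cell _⟩
  aug C hC := by
    have h1 : ∀ C', (Finsupp.single C (1 : ℤ) : Cub X →₀ ℤ) C' ≠ 0 → cdim hX C' = 1 := by
      classical
      intro C' h
      rw [Finsupp.single_apply] at h
      by_cases h2 : C = C'
      · rw [← h2]
        exact hC
      · rw [if_neg h2] at h
        exact absurd rfl h
    have h2 := eps_bd (hX := hX) (Finsupp.single C (1 : ℤ)) h1
    rw [eps_eq (cdim_lin (j := 0) h1), lin_single, ms_one] at h2
    exact h2
  zero z hz h0 := cub_ex_zero z hz (by rw [eps_eq hz]; exact h0)
  succ j z hz h0 := cub_ex_succ z hz h0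

end Cm
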