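import Pool.Agent.Cm.CubLoc
import Pool.Agent.Npc.Stmt

/-!
# Mirror inequality: the cubes are the cubes; links

* `cub_isCube` : the induced subgraph of a cube is the graph of a cube;
* `lkIso` : the link of a vertex is the crossing graph of the hyperplanes adjacent to it.
-/

set_option autoImplicit false
set_option linter.unusedSectionVars false
set_option linter.unusedVariables false

open scoped Pointwise

namespace Cm

open Npc (Median hs mem_hs dirSet mk_mem_dirSet flip_mk square_of_cross cross_of_square GraphAct)

section cube
variable {P : Type*} {X : SimpleGraph P}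

/-- the vertex of a cube which is separated from the corner by the given letters -/
lemma exists_corner {hX : Median X} {n : ℕ} (y : SCell (medSq hX) n) (a : Fin n → Bool) :
    ∃ x ∈ cell y, ∀ i, Sep (y.τ i) y.k x ↔ a i = true := by
  classical
  obtain ⟨x, hx, hx2⟩ := exists_sep_eq hX (lts_cross y) ((Finset.univ.filter fun i => a i = true).image y.τ) (by
    intro t ht
    obtain ⟨i, -, rfl⟩ := Finset.mem_image.1 ht
    exact mem_lts.2 ⟨i, rfl⟩)
  refine ⟨x, hx, fun i => ?_⟩
  rw [hx2, Finset.mem_image]
  constructor
  · rintro ⟨i', h1, h2⟩
    rw [← y.inj h2]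
    exact (Finset.mem_filter.1 h1).2
  · intro h
    exact ⟨i, Finset.mem_filter.2 ⟨Finset.mem_univ _, h⟩, rfl⟩

/-- **the induced subgraph of a cube is the graph of a cube** -/
theorem cub_isCube (hX : Median X) {n : ℕ} (C : Cub X) (hn : cdim hX C = n) :
    ∃ f : (Fin n → Bool) → P, Function.Injective f ∧
    Set.range f = C.1 ∧ ∀ a b, X.Adj (f a) (f b) ↔ ∃ k, ∀ l, a l ≠ b l ↔ l = k := by
  classical
  obtain ⟨y, hyC⟩ : ∃ y : SCell (medSq hX) n, cell y = C := ⟨base hX C hn, cell_base hn⟩
  subst hyC
  choose f hf hf2 using exists_corner y
  have key : ∀ a b i, Sep (y.τ i) (f a) (f b) ↔ a i ≠ b i := by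
    intro a b i
    rw [sep_xor hX (y := y.k), sep_symm hX (x := f a) (y := y.k), hf2, hf2]
    cases a i <;> cases b i <;> simp
  have hsep : ∀ a b t, Sep t (f a) (f b) → ∃ i, y.τ i = t := by
    intro a b t ht
    exact mem_lts.1 (mem_of_sep hX (hf a) (hf b) ht)
  have huniq : ∀ x z, x ∈ cell y → z ∈ cell y → (∀ i, ¬ Sep (y.τ i) x z) → x = z := by
    intro x z hx hz h
    refine eq_of_not_sep hX fun t ht => ?_
    obtain ⟨i, rfl⟩ := mem_lts.1 (mem_of_sep hX hx hz ht)
    exact h i ht
  refine ⟨f, ?_, ?_, ?_⟩
  · intro a b hab
    funext i
    by_contra h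
    have h1 := (key a b i).2 h
    rw [hab] at h1
    exact not_sep_self hX _ _ h1
  · ext x
    constructor
    · rintro ⟨a, rfl⟩
      exact hf a
    · intro hx
      refine ⟨fun i => decide (Sep (y.τ i) y.k x), ?_⟩
      refine huniq _ _ (hf _) hx fun i => ?_
      rw [sep_xor hX (y := y.k), sep_symm hX (y := y.k), hf2, decide_eq_true_iff]
      tauto
  · intro a b
    constructor
    · intro hab
      obtain ⟨k, hk⟩ := hsep a b (Npc.Hyp.mk hab) ((sep_adj hX hab).2 rfl)
      refine ⟨k, fun l => ?_⟩
      rw [← key, sep_adj hX hab, ← hk]
      exact ⟨fun h => y.inj h, fun h => by rw [h]⟩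
    · rintro ⟨k, hk⟩
      have h1 : y.τ k ∈ dirSet X (f a) := by
        have h2 := Cub.cross hX (hf a)
        rw [hy_cell] at h2
        exact h2.dir _ (mem_lts.2 ⟨k, rfl⟩)
      have h2 : Npc.flip (y.τ k) (f a) = f b := by
        refine huniq _ _ ?_ (hf b) fun i => ?_
        · refine flip_mem hX (hf a) ?_
          rw [hy_cell]
          exact mem_lts.2 ⟨k, rfl⟩
        · rw [sep_xor hX (y := f a), sep_symm hX (y := f a), sep_flip hX h1, key, hk]
          rw [y.inj.eq_iff]
          tauto
      obtain ⟨h3, -⟩ := Npc.flip_spec h1
      rw [h2] at h3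
      exact h3

/-- **a set of vertices which is the graph of a cube is a cube** -/
theorem exists_cub (hX : Median X) {n : ℕ} {C : Set P} (h : ∃ f : (Fin n → Bool) → P, Function.Injective f ∧
    Set.range f = C ∧ ∀ a b, X.Adj (f a) (f b) ↔ ∃ k, ∀ l, a l ≠ b l ↔ l = k) :
    ∃ C' : Cub X, C'.1 = C ∧ cdim hX C' = n := by
  classical
  obtain ⟨f, hf, hC, hadj⟩ := h
  set z : Fin n → Bool := fun _ => false with hz
  have hsw : ∀ (a : Fin n → Bool) (i : Fin n) (b c : Bool), b ≠ c →
      X.Adj (f (Function.update a i b)) (f (Function.update a i c)) := by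
    intro a i b c hbc
    rw [hadj]
    refine ⟨i, fun l => ?_⟩
    by_cases hl : l = i
    · subst hl
      simp [hbc]
    · simp [hl]
  have he : ∀ i, X.Adj (f z) (f (Function.update z i true)) := by
    intro i
    have h1 := hsw z i false true (by simp)
    rwa [Function.update_eq_self_iff.2 rfl] at h1
  have hcr : ∀ i j, i ≠ j → Npc.Hyp.Cross (Npc.Hyp.mk (he i)) (Npc.Hyp.mk (he j)) := by
    intro i j hij
    refine cross_of_square hX (he i) (he j) ?_ (m := f (Function.update (Function.update z i true) j true)) ?_ ?_ ?_
    · intro h
      have h1 := congrFun (hf h) i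
      rw [Function.update_self, Function.update_of_ne hij] at h1
      simp [hz] at h1
    · intro h
      have h1 := congrFun (hf h) j
      rw [Function.update_self] at h1
      simp [hz] at h1
    · have h1 := hsw (Function.update z i true) j false true (by simp)
      rwa [Function.update_eq_self_iff.2 (by rw [Function.update_of_ne (Ne.symm hij)])] at h1
    · have h1 := hsw (Function.update z j true) i false true (by simp)
      rw [Function.update_eq_self_iff.2 (by rw [Function.update_of_ne hij])] at h1
      rwa [Function.update_comm hij]
  let y : SCell (medSq hX) n := ⟨f z, fun i => Npc.Hyp.mk (he i), fun i => mk_mem_dirSet (he i),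
    fun i j hij => hcr i j hij⟩
  have hyτ : ∀ i, y.τ i = Npc.Hyp.mk (he i) := fun i => rfl
  -- the separating hyperplanes
  have key : ∀ (m : ℕ) (a : Fin n → Bool), (Finset.univ.filter fun i => a i = true).card = m →
      ∀ t, Sep t (f z) (f a) ↔ ∃ i, a i = true ∧ y.τ i = t := by
    intro m
    induction m using Nat.strong_induction_on with
    | _ m ih =>
      intro a ha t
      by_cases h0 : ∃ j, a j = true
      · obtain ⟨j, hj⟩ := h0
        by_cases h1 : ∃ i, i ≠ j ∧ a i = true
        · obtain ⟨i, hij, hi⟩ := h1
          have c1 : ∀ k, a k = true → (Finset.univ.filter fun i => Function.update a k false i = true).card < m := by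
            intro k hk
            rw [← ha]
            refine Finset.card_lt_card ⟨?_, ?_⟩
            · intro l hl
              rw [Finset.mem_filter] at hl ⊢
              refine ⟨hl.1, ?_⟩
              by_cases hlk : l = k
              · rw [hlk, Function.update_self] at hl
                simp at hl
              · rw [Function.update_of_ne hlk] at hl
                exact hl.2
            · intro h
              have h2 := h (Finset.mem_filter.2 ⟨Finset.mem_univ k, hk⟩)
              rw [Finset.mem_filter, Function.update_self] at h2
              simp at h2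
          have ea : Function.update a j true = a := Function.update_eq_self_iff.2 hj.symm
          have ea' : Function.update a i true = a := Function.update_eq_self_iff.2 hi.symm
          set b := Function.update a j false with hb
          set c := Function.update a i false with hc
          set d := Function.update b i false with hd
          have hbi : b i = true := by rw [hb, Function.update_of_ne hij, hi]
          have hcj : c j = true := by rw [hc, Function.update_of_ne (Ne.symm hij), hj]
          have hdc : d = Function.update c j false := by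
            rw [hd, hb, hc, Function.update_comm hij]
          have c2 : (Finset.univ.filter fun i => d i = true).card < m := by
            refine lt_of_le_of_lt (Finset.card_le_card ?_) (c1 j hj)
            intro l hl
            rw [Finset.mem_filter] at hl ⊢
            refine ⟨hl.1, ?_⟩
            by_cases hli : l = i
            · rw [hli, hd, Function.update_self] at hl
              simp at hl
            · rw [hd, Function.update_of_ne hli] at hl
              exact hl.2
          have a1 : X.Adj (f b) (f a) := by
            have h2 := hsw a j false true (by simp)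
            rwa [ea] at h2
          have a2 : X.Adj (f c) (f a) := by
            have h2 := hsw a i false true (by simp)
            rwa [ea'] at h2
          have a3 : X.Adj (f d) (f b) := by
            have h2 := hsw b i false true (by simp)
            have e3 : Function.update b i true = b := Function.update_eq_self_iff.2 hbi.symm
            rwa [e3] at h2
          have a4 : X.Adj (f d) (f c) := by
            have h2 := hsw c j false true (by simp)
            have e3 : Function.update c j true = c := Function.update_eq_self_iff.2 hcj.symm
            rwa [e3, ← hdc] at h2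
          have n1 : f a ≠ f d := by
            intro h
            have h2 := congrFun (hf h) i
            rw [hd, Function.update_self, hi] at h2
            simp at h2
          have n2 : f b ≠ f c := by
            intro h
            have h2 := congrFun (hf h) i
            rw [hbi, hc, Function.update_self] at h2
            simp at h2
          have h3 : hs X (f d) (f c) = hs X (f b) (f a) := hX.hs_square a3 a4 n1 a1 a2 n2
          have h4 : Npc.Hyp.mk a4 = Npc.Hyp.mk a1 := (Npc.Hyp.mk_eq hX a4 a1).2 (Or.inl h3)
          have h5 : Sep t (f b) (f a) ↔ Sep t (f d) (f c) := by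
            rw [sep_adj hX a1, sep_adj hX a4, h4]
          rw [sep_xor hX (y := f b), h5, sep_xor hX (x := f d) (y := f z), sep_symm hX (x := f d) (y := f z),
            ih _ (c1 j hj) b rfl t, ih _ c2 d rfl t, ih _ (c1 i hi) c rfl t]
          have h6 : ∀ g : Fin n → Bool, (∃ k, g k = true ∧ y.τ k = t) ↔ (∃ k, y.τ k = t ∧ g k = true) := fun g =>
            ⟨fun ⟨k, h1, h2⟩ => ⟨k, h2, h1⟩, fun ⟨k, h1, h2⟩ => ⟨k, h2, h1⟩⟩
          simp only [h6]
          by_cases ht : ∃ k, y.τ k = t
          · obtain ⟨k, rfl⟩ := ht
            have h7 : ∀ g : Fin n → Bool, (∃ k', y.τ k' = y.τ k ∧ g k' = true) ↔ g k = true := fun g =>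
              ⟨fun ⟨k', h1, h2⟩ => by rwa [← y.inj h1], fun h => ⟨k, rfl, h⟩⟩
            rw [h7, h7, h7, h7]
            by_cases hkj : k = j
            · subst hkj
              have e1 : b k = false := Function.update_self _ _ _
              have e2 : d k = false := by rw [hdc, Function.update_self]
              rw [e1, e2, hcj, hj]
              simp
            · have e1 : b k = a k := Function.update_of_ne hkj _ _
              have e2 : d k = c k := by rw [hdc, Function.update_of_ne hkj]
              rw [e1, e2]
              tauto
          · have h7 : ∀ g : Fin n → Bool, ¬ ∃ k, y.τ k = t ∧ g k = true := fun g ⟨k, h, _⟩ => ht ⟨k, h⟩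
            have h8 := h7 a
            have h9 := h7 b
            have h10 := h7 c
            have h11 := h7 d
            tauto
        · have h2 : a = Function.update z j true := by
            funext l
            by_cases hl : l = j
            · rw [hl, Function.update_self, hj]
            · rw [Function.update_of_ne hl]
              by_contra h3
              refine h1 ⟨l, hl, ?_⟩
              simpa [hz] using h3
          rw [h2, sep_adj hX (he j)]
          constructor
          · rintro rfl
            exact ⟨j, Function.update_self _ _ _, rfl⟩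
          · rintro ⟨i, h3, rfl⟩
            by_cases hij : i = j
            · rw [hij]
            · rw [Function.update_of_ne hij] at h3
              simp [hz] at h3
      · have h2 : a = z := by
          funext l
          by_contra h3
          refine h0 ⟨l, ?_⟩
          simpa [hz] using h3
        rw [h2]
        constructor
        · intro h3
          exact absurd h3 (not_sep_self hX _ _)
        · rintro ⟨i, h3, -⟩
          simp [hz] at h3
  refine ⟨cell y, ?_, cdim_cell y⟩
  rw [← hC]
  ext x
  constructor
  · intro hx
    have hx' : x ∈ cub (f z) (lts y) := hx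
    refine ⟨fun i => decide (Sep (y.τ i) (f z) x), ?_⟩
    refine eq_of_not_sep hX fun t ht => ?_
    rw [sep_xor hX (y := f z), sep_symm hX (y := f z), key _ _ rfl] at ht
    have ht2 : t ∈ lts y := by
      by_cases h1 : Sep t (f z) x
      · exact hx' t h1
      · have h2 : ∃ i, decide (Sep (y.τ i) (f z) x) = true ∧ y.τ i = t := by tauto
        obtain ⟨i, -, h3⟩ := h2
        exact mem_lts.2 ⟨i, h3⟩
    obtain ⟨i, rfl⟩ := mem_lts.1 ht2
    apply ht
    constructor
    · rintro ⟨i', h1, h2⟩
      rw [← h2]
      exact decide_eq_true_iff.1 h1
    · intro h1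
      exact ⟨i, decide_eq_true_iff.2 h1, rfl⟩
  · rintro ⟨a, rfl⟩
    intro t ht
    obtain ⟨i, -, h1⟩ := (key _ a rfl t).1 ht
    exact mem_lts.2 ⟨i, h1⟩

end cube

section link
variable {P : Type} {X : SimpleGraph P}

/-- the link of the vertex `x` is the crossing graph of the hyperplanes adjacent to `x` -/
noncomputable def lkIso (hX : Median X) (x : P) : CubeComplex.link X x ≃g Lk hX x where
  toEquiv := Equiv.ofBijective (fun a => (⟨Npc.Hyp.mk a.2, mk_mem_dirSet a.2⟩ : dirSet X x)) (by
    constructor
    · rintro ⟨a, ha⟩ ⟨b, hb⟩ h
      exact Subtype.ext (Npc.Hyp.unique hX ha hb (congrArg Subtype.val h))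
    · rintro ⟨t, a, ha, rfl⟩
      exact ⟨⟨a, ha⟩, rfl⟩)
  map_rel_iff' := by
    rintro ⟨a, ha⟩ ⟨b, hb⟩
    constructor
    · intro h
      obtain ⟨h1, m, h2, h3, h4⟩ := square_of_cross hX ha hb h
      exact ⟨fun h5 => h1 (congrArg Subtype.val h5), m, h2, h3, h4⟩
    · rintro ⟨h1, m, h2, h3, h4⟩
      exact cross_of_square hX ha hb (fun h5 => h1 (Subtype.ext h5)) h2 h3 h4

lemma lkIso_val (hX : Median X) (x : P) (a : X.neighborSet x) : (lkIso hX x a).1 = Npc.Hyp.mk a.2 := rfl

lemma lkIso_symm_val (hX : Median X) (x : P) (t : dirSet X x) : ((lkIso hX x).symm t : P) = Npc.flip t.1 x := by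
  obtain ⟨a, rfl⟩ := (lkIso hX x).surjective t
  rw [RelIso.symm_apply_apply, lkIso_val, flip_mk hX]

/-- the isomorphism is equivariant -/
lemma lkIso_smul {G : Type*} [Group G] [MulAction G P] [hA : GraphAct G X] (hX : Median X) (x : P) (g : G)
    (hg : g • x = x) (a : X.neighborSet x) (ha : X.Adj x (g • (a : P))) :
    (lkIso hX x ⟨g • (a : P), ha⟩).1 = g • (lkIso hX x a).1 := by
  rw [lkIso_val, lkIso_val, Npc.smul_mk]
  have h : ∀ (z w : P) (hz : z = x) (h1 : X.Adj z w) (h2 : X.Adj x w), Npc.Hyp.mk h2 = Npc.Hyp.mk h1 := by
    rintro z w rfl h1 h2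
    rfl
  exact h _ _ hg _ _

end link

/-- median graphs -/
theorem median_of {P : Type} {X : SimpleGraph P} (h : CubeComplex.IsMedian X) : Median X := ⟨h.conn, h.med⟩

end Cm
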