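import Pool.Agent.Singer.Index
import Pool.Agent.Singer.FinBetti
import Pool.Agent.Singer.Gen.Defs

/-!
# Restriction of resolutions to subgroups of finite index, and the Betti numbers

* `Trv.h_res` : the Betti numbers are multiplied with the index;
* `Res.exists_iso` : transport along isomorphisms.
-/

set_option autoImplicit false
set_option linter.unusedSectionVars false
set_option linter.unusedVariables false

open scoped ComplexConjugate InnerProductSpace
open Filter Topology

namespace Singer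

universe u v

namespace Trv
variable {H Γ : Type*} [Group H] [Group Γ] {j : H →* Γ} (T : Trv j) {ι κ μ : Type*}

/-- the isometry -/
noncomputable def tiI (ι : Type*) : E H (Fin T.n × ι) →ₗᵢ[ℂ] E Γ ι := ⟨T.ti.toLinearMap, T.norm_ti⟩

lemma inner_ti (f g : E H (Fin T.n × ι)) : ⟪T.ti f, T.ti g⟫_ℂ = ⟪f, g⟫_ℂ := (T.tiI ι).inner_map_map f g

lemma ti_del (g : H) (k : Fin T.n) (l : ι) : T.ti (del g (k, l)) = del (T.e.symm (g, k)) l := by
  ext x
  rw [ti_apply, p_symm_apply]
  by_cases h : x = (T.e.symm (g, k), l)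
  · subst h
    rw [del_apply_self]
    show (del g (k, l) : E H (Fin T.n × ι)) ((T.e (T.e.symm (g, k))).1, ((T.e (T.e.symm (g, k))).2, l)) = 1
    rw [Equiv.apply_symm_apply]
    exact del_apply_self _ _
  · rw [del_apply_ne h, del_apply_ne]
    intro h1
    apply h
    obtain ⟨h2, h3⟩ := Prod.ext_iff.1 h1
    obtain ⟨h4, h5⟩ := Prod.ext_iff.1 h3
    refine Prod.ext ?_ h5
    show x.1 = T.e.symm (g, k)
    rw [Equiv.eq_symm_apply]
    exact Prod.ext h2 h4

lemma closure_comap {V : Submodule ℂ (E Γ ι)} {V' : Submodule ℂ (E H (Fin T.n × ι))}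
    (h : ∀ f, f ∈ V' ↔ T.ti f ∈ V) (f : E H (Fin T.n × ι)) :
    f ∈ V'.topologicalClosure ↔ T.ti f ∈ V.topologicalClosure := by
  constructor
  · intro hf
    have h1 : V'.topologicalClosure ≤ V.topologicalClosure.comap (T.ti (ι := ι)).toLinearMap := by
      refine V'.topologicalClosure_minimal (fun x hx => V.le_topologicalClosure ((h x).1 hx)) ?_
      exact (Submodule.isClosed_topologicalClosure V).preimage T.ti.continuous
    exact h1 hf
  · intro hf
    have h1 : V.topologicalClosure ≤ V'.topologicalClosure.comap (T.tr (ι := ι)).toLinearMap := by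
      refine V.topologicalClosure_minimal (fun x hx => V'.le_topologicalClosure ((h _).2 ?_)) ?_
      · show T.ti (T.tr x) ∈ V
        rw [ti_tr]
        exact hx
      · exact (Submodule.isClosed_topologicalClosure V').preimage T.tr.continuous
    have h2 := h1 hf
    have h3 : T.tr (T.ti f) ∈ V'.topologicalClosure := h2
    rwa [tr_ti] at h3

lemma ti_prj {V : Submodule ℂ (E Γ ι)} {V' : Submodule ℂ (E H (Fin T.n × ι))} (h : ∀ f, f ∈ V' ↔ T.ti f ∈ V)
    (f : E H (Fin T.n × ι)) : T.ti (prj V' f) = prj V (T.ti f) := by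
  refine (prj_unique ((T.closure_comap h _).1 (prj_mem V' f)) ?_).symm
  rw [← map_sub, Submodule.mem_orthogonal]
  intro u hu
  have h1 := T.inner_ti (T.tr u) (f - prj V' f)
  rw [ti_tr] at h1
  rw [h1]
  refine (Submodule.mem_orthogonal _ _).1 (sub_prj_mem V' f) _ ((h _).2 ?_)
  rw [ti_tr]
  exact hu

lemma norm_prj_del {V : Submodule ℂ (E Γ ι)} (hV : Inv V) (g : Γ) (l : ι) :
    ‖prj V (del g l)‖ = ‖prj V (del 1 l)‖ := by
  have h1 : (del g l : E Γ ι) = lam g (del 1 l) := by
    ext x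
    rw [lam_apply]
    by_cases h : x = (g, l)
    · subst h
      rw [del_apply_self]
      show (1 : ℂ) = (del 1 l : E Γ ι) (g⁻¹ * g, l)
      rw [inv_mul_cancel, del_apply_self]
    · rw [del_apply_ne h, del_apply_ne]
      intro h1
      apply h
      obtain ⟨h2, h3⟩ := Prod.ext_iff.1 h1
      refine Prod.ext ?_ h3
      have h4 : g⁻¹ * x.1 = 1 := h2
      exact (inv_mul_eq_one.1 h4).symm
  rw [h1, (equi_prj hV) g, norm_lam]

variable [Fintype ι]

lemma vdim_comap {V : Submodule ℂ (E Γ ι)} (hV : Inv V) {V' : Submodule ℂ (E H (Fin T.n × ι))}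
    (h : ∀ f, f ∈ V' ↔ T.ti f ∈ V) : vdim V' = T.n * vdim V := by
  unfold vdim
  rw [Fintype.sum_prod_type]
  have h1 : ∀ (k : Fin T.n) (l : ι), ‖prj V' (del 1 (k, l))‖ ^ 2 = ‖prj V (del 1 l)‖ ^ 2 := by
    intro k l
    rw [← T.norm_ti, T.ti_prj h, ti_del, norm_prj_del hV]
  simp only [h1]
  rw [Finset.sum_const, Finset.card_univ, Fintype.card_fin, nsmul_eq_mul]

end Trv

/-- the cycles are invariant -/
lemma Res.inv_Z {Γ : Type*} [Group Γ] (R : Res.{0} Γ) (i : ℕ) : Inv (R.Z i) := by
  cases i with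
  | zero => exact R.inv_P 0
  | succ i => exact ((R.mdl_P (i + 1)).inf (mdl_ker (R.mat_d i).equi)).inv

/-- the boundaries are invariant -/
lemma Res.inv_B {Γ : Type*} [Group Γ] (R : Res.{0} Γ) (i : ℕ) : Inv (R.B i) :=
  (Mdl.closure ((R.inv_P (i + 1)).map (R.mat_d i).equi)).inv

namespace Trv
variable {H Γ : Type*} [Group H] [Group Γ] {j : H →* Γ} (T : Trv j)

/-- **the Betti numbers are multiplied with the index** -/
theorem h_res (R : Res.{0} Γ) (i : ℕ) : (T.res R).toPreRes.toHC.h i = T.n * R.toPreRes.toHC.h i := by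
  unfold HC.h
  rw [PreRes.toHC_Z, PreRes.toHC_Z, PreRes.toHC_B, PreRes.toHC_B, mul_sub]
  congr 1
  · exact T.vdim_comap (R.inv_Z i) (T.mem_Z R i)
  · exact T.vdim_comap (R.inv_B i) (T.mem_B R i)

end Trv

/-- the transversal of an isomorphism -/
def trvIso {H Γ : Type*} [Group H] [Group Γ] (e : H ≃* Γ) : Trv e.toMonoidHom where
  n := 1
  e := e.symm.toEquiv.trans (Equiv.prodUnique H (Fin 1)).symm
  e_mul h g := by
    show ((e.symm (e h * g), default) : H × Fin 1) = (h * e.symm g, default)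
    rw [map_mul, MulEquiv.symm_apply_apply]

/-- transport along isomorphisms -/
theorem Res.exists_iso {H Γ : Type*} [Group H] [Group Γ] (e : H ≃* Γ) (R : Res.{0} Γ) :
    ∃ R' : Res.{0} H, ∀ i, R'.toPreRes.toHC.h i = R.toPreRes.toHC.h i :=
  ⟨(trvIso e).res R, fun i => by
    rw [(trvIso e).h_res R i]
    show ((1 : ℕ) : ℝ) * _ = _
    rw [Nat.cast_one, one_mul]⟩

end Singer
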