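import Pool.Agent.Singer.L2
import Pool.Agent.Singer.Racg

/-!
# Mirror inequality: hyperplanes, the group, cells, moves

* `Hyp H G` : the crossing graph of the set `H` of hyperplanes, invariant under `G`;
* `NN S F` = `RACG S.C × (H → F)`, `Gh S F` = `NN S F ⋊ G`;
* `Cell S F R` : pairs of an element of `NN S F` and an element of the `G`-set `R`;
* `Ltr S R` : every element of the `G`-set `R` has a letter (a hyperplane) and a flip along the letter;
* the moves `tl`, `mi`, `gl` of the cells, and the left translation `lt`.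
-/

set_option autoImplicit false
set_option linter.unusedSectionVars false
set_option linter.unusedVariables false

namespace Cm

open Singer

/-- the crossing graph -/
structure Hyp (H G : Type*) [Group G] [MulAction G H] where
  /-- the crossing graph -/
  C : SimpleGraph H
  adj : ∀ (g : G) t u, C.Adj (g • t) (g • u) ↔ C.Adj t u

variable {H G : Type*} [Group G] [MulAction G H]

/-! ### the groups -/

/-- the normal subgroup: the right-angled Coxeter group of the crossing graph, and the labels -/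
def NN (S : Hyp H G) (F : Type*) : Type _ := RACG S.C × Multiplicative (H → F)

section grp
variable (S : Hyp H G) (F : Type*) [AddCommGroup F]

noncomputable instance : Group (NN S F) := inferInstanceAs (Group (RACG S.C × Multiplicative (H → F)))

variable {S F}

/-- the generator of a hyperplane -/
noncomputable def sW (t : H) : NN S F := ((Racg.gen S.C t, 1) : RACG S.C × Multiplicative (H → F))

open Classical in
/-- the label translation -/
noncomputable def eA (t : H) (x : F) : NN S F :=
  ((1, Multiplicative.ofAdd (Pi.single t x)) : RACG S.C × Multiplicative (H → F))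

/-- the label coordinate -/
def ch (n : NN S F) (t : H) : F := Multiplicative.toAdd (show RACG S.C × Multiplicative (H → F) from n).2 t

/-- the component in the right-angled Coxeter group -/
def pw (n : NN S F) : RACG S.C := (show RACG S.C × Multiplicative (H → F) from n).1

lemma nn_ext {n m : NN S F} (h1 : pw n = pw m) (h2 : ∀ t, ch n t = ch m t) : n = m :=
  Prod.ext h1 (Multiplicative.toAdd.injective (funext h2))

@[simp] lemma pw_mul (n m : NN S F) : pw (n * m) = pw n * pw m := rfl
@[simp] lemma pw_one : pw (1 : NN S F) = 1 := rfl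
@[simp] lemma pw_inv (n : NN S F) : pw n⁻¹ = (pw n)⁻¹ := rfl
@[simp] lemma ch_mul (n m : NN S F) (t : H) : ch (n * m) t = ch n t + ch m t := rfl
@[simp] lemma ch_one (t : H) : ch (1 : NN S F) t = 0 := rfl
@[simp] lemma ch_inv (n : NN S F) (t : H) : ch n⁻¹ t = -ch n t := rfl
@[simp] lemma pw_sW (t : H) : pw (sW t : NN S F) = Racg.gen S.C t := rfl
@[simp] lemma ch_sW (t u : H) : ch (sW t : NN S F) u = 0 := rfl
@[simp] lemma pw_eA (t : H) (x : F) : pw (eA t x : NN S F) = 1 := rfl
lemma ch_eA_self (t : H) (x : F) : ch (eA t x : NN S F) t = x := by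
  classical
  show (Pi.single t x : H → F) t = x
  simp
lemma ch_eA_ne {t u : H} (h : u ≠ t) (x : F) : ch (eA t x : NN S F) u = 0 := by
  classical
  show (Pi.single t x : H → F) u = 0
  simp [h]

@[simp] lemma sW_sW (t : H) : (sW t : NN S F) * sW t = 1 := nn_ext (by simp) (by simp)

lemma sW_comm {t u : H} (h : S.C.Adj t u) : (sW t : NN S F) * sW u = sW u * sW t :=
  nn_ext (by simp [Racg.gen_comm h]) (by simp)

lemma eA_add (t : H) (x y : F) : (eA t (x + y) : NN S F) = eA t x * eA t y := by
  refine nn_ext (by simp) fun u => ?_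
  by_cases h : u = t
  · subst h
    rw [ch_mul, ch_eA_self, ch_eA_self, ch_eA_self]
  · rw [ch_mul, ch_eA_ne h, ch_eA_ne h, ch_eA_ne h, add_zero]

@[simp] lemma eA_zero (t : H) : (eA t (0 : F) : NN S F) = 1 := by
  refine nn_ext (by simp) fun u => ?_
  by_cases h : u = t
  · subst h
    rw [ch_eA_self, ch_one]
  · rw [ch_eA_ne h, ch_one]

/-- the labels are central -/
lemma eA_comm (t : H) (x : F) (n : NN S F) : eA t x * n = n * eA t x :=
  nn_ext (by simp) fun u => by rw [ch_mul, ch_mul, add_comm]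

/-- the action of `G` -/
noncomputable instance : MulDistribMulAction G (NN S F) where
  smul g n := ((Racg.map (fun t => g • t) (fun u v h => (S.adj g u v).2 h) (pw n),
    Multiplicative.ofAdd fun t => ch n (g⁻¹ • t)) : RACG S.C × Multiplicative (H → F))
  one_smul n := by
    refine nn_ext ?_ fun t => ?_
    · show Racg.map (fun t => (1 : G) • t) _ (pw n) = pw n
      have h : Racg.map (G := S.C) (G' := S.C) (fun t => (1 : G) • t) (fun u v h => (S.adj 1 u v).2 h) =
          MonoidHom.id _ := Racg.hom_ext fun v => by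
        rw [Racg.map_gen, one_smul, MonoidHom.id_apply]
      rw [h, MonoidHom.id_apply]
    · show ch n ((1 : G)⁻¹ • t) = ch n t
      rw [inv_one, one_smul]
  mul_smul g g' n := by
    refine nn_ext ?_ fun t => ?_
    · show Racg.map (fun t => (g * g') • t) _ (pw n) =
        Racg.map (fun t => g • t) _ (Racg.map (fun t => g' • t) _ (pw n))
      have h : Racg.map (G := S.C) (G' := S.C) (fun t => (g * g') • t) (fun u v h => (S.adj (g * g') u v).2 h) =
          (Racg.map (G := S.C) (G' := S.C) (fun t => g • t) (fun u v h => (S.adj g u v).2 h)).comp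
            (Racg.map (G := S.C) (G' := S.C) (fun t => g' • t) (fun u v h => (S.adj g' u v).2 h)) :=
        Racg.hom_ext fun v => by
          rw [MonoidHom.comp_apply, Racg.map_gen, Racg.map_gen, Racg.map_gen, mul_smul]
      rw [h, MonoidHom.comp_apply]
    · show ch n ((g * g')⁻¹ • t) = ch n (g'⁻¹ • g⁻¹ • t)
      rw [mul_inv_rev, mul_smul]
  smul_mul g n m := by
    refine nn_ext ?_ fun t => ?_
    · exact map_mul _ _ _
    · rfl
  smul_one g := by
    refine nn_ext ?_ fun t => ?_
    · exact map_one _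
    · rfl

lemma pw_smul (g : G) (n : NN S F) :
    pw (g • n) = Racg.map (fun t => g • t) (fun u v h => (S.adj g u v).2 h) (pw n) := rfl

lemma ch_smul (g : G) (n : NN S F) (t : H) : ch (g • n) (g • t) = ch n t := by
  show ch n (g⁻¹ • g • t) = ch n t
  rw [inv_smul_smul]

lemma smul_sW (g : G) (t : H) : g • (sW t : NN S F) = sW (g • t) := by
  refine nn_ext ?_ fun u => rfl
  rw [pw_smul, pw_sW, Racg.map_gen, pw_sW]

lemma smul_eA (g : G) (t : H) (x : F) : g • (eA t x : NN S F) = eA (g • t) x := by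
  refine nn_ext ?_ fun u => ?_
  · rw [pw_smul, pw_eA, map_one, pw_eA]
  · obtain ⟨v, rfl⟩ : ∃ v, u = g • v := ⟨g⁻¹ • u, (smul_inv_smul g u).symm⟩
    rw [ch_smul]
    by_cases h : v = t
    · subst h
      rw [ch_eA_self, ch_eA_self]
    · rw [ch_eA_ne h, ch_eA_ne fun h' => h (smul_left_cancel g h')]

end grp

/-- the group -/
abbrev Gh (S : Hyp H G) (F : Type*) [AddCommGroup F] : Type _ :=
  NN S F ⋊[MulDistribMulAction.toMulAut G (NN S F)] G

/-! ### cells -/

/-- cells: an element of the normal subgroup and an element of the `G`-set `R` -/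
@[ext] structure Cell (S : Hyp H G) (F R : Type*) where
  n : NN S F
  r : R

/-- a letter and a flip for every element of `R` -/
structure Ltr (H G R : Type*) [Group G] [MulAction G H] [MulAction G R] where
  /-- the letter -/
  ℓ : R → H
  /-- the flip -/
  mv : R → R
  ℓ_smul : ∀ (g : G) r, ℓ (g • r) = g • ℓ r
  mv_smul : ∀ (g : G) r, mv (g • r) = g • mv r
  mv_mv : ∀ r, mv (mv r) = r
  ℓ_mv : ∀ r, ℓ (mv r) = ℓ r

namespace Cell
variable {S : Hyp H G} {F : Type*} [AddCommGroup F] {R : Type*} [MulAction G R]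

noncomputable instance : MulAction (Gh S F) (Cell S F R) where
  smul x y := ⟨x.left * x.right • y.n, x.right • y.r⟩
  one_smul y := by
    refine Cell.ext ?_ ?_
    · show (1 : Gh S F).left * (1 : Gh S F).right • y.n = y.n
      rw [SemidirectProduct.one_left, SemidirectProduct.one_right, one_mul, one_smul]
    · exact one_smul _ _
  mul_smul x x' y := by
    refine Cell.ext ?_ ?_
    · show (x * x').left * (x * x').right • y.n = x.left * x.right • (x'.left * x'.right • y.n)
      rw [SemidirectProduct.mul_left, SemidirectProduct.mul_right, smul_mul', mul_smul, mul_assoc]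
      rfl
    · exact mul_smul _ _ _

lemma smul_n (x : Gh S F) (y : Cell S F R) : (x • y).n = x.left * x.right • y.n := rfl
lemma smul_r (x : Gh S F) (y : Cell S F R) : (x • y).r = x.right • y.r := rfl

variable (L : Ltr H G R)

/-- translation of the label of the letter -/
noncomputable def tl (x : F) (y : Cell S F R) : Cell S F R := ⟨y.n * eA (L.ℓ y.r) x, y.r⟩

/-- the mirror move -/
noncomputable def mi (y : Cell S F R) : Cell S F R := ⟨y.n * sW (L.ℓ y.r), y.r⟩

/-- the glue move -/
noncomputable def gl (y : Cell S F R) : Cell S F R := ⟨y.n * sW (L.ℓ y.r), L.mv y.r⟩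

/-- left translation of the label of `t` -/
noncomputable def lt (t : H) (x : F) (y : Cell S F R) : Cell S F R := ⟨eA t x * y.n, y.r⟩

lemma smul_tl (g : Gh S F) (x : F) (y : Cell S F R) : tl L x (g • y) = g • tl L x y := by
  refine Cell.ext ?_ rfl
  show g.left * g.right • y.n * eA (L.ℓ (g.right • y.r)) x = g.left * g.right • (y.n * eA (L.ℓ y.r) x)
  rw [smul_mul', smul_eA, mul_assoc, L.ℓ_smul]

lemma smul_mi (g : Gh S F) (y : Cell S F R) : mi L (g • y) = g • mi L y := by
  refine Cell.ext ?_ rfl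
  show g.left * g.right • y.n * sW (L.ℓ (g.right • y.r)) = g.left * g.right • (y.n * sW (L.ℓ y.r))
  rw [smul_mul', smul_sW, mul_assoc, L.ℓ_smul]

lemma smul_gl (g : Gh S F) (y : Cell S F R) : gl L (g • y) = g • gl L y := by
  refine Cell.ext ?_ ?_
  · show g.left * g.right • y.n * sW (L.ℓ (g.right • y.r)) = g.left * g.right • (y.n * sW (L.ℓ y.r))
    rw [smul_mul', smul_sW, mul_assoc, L.ℓ_smul]
  · exact L.mv_smul _ _

lemma tl_tl (x x' : F) (y : Cell S F R) : tl L x (tl L x' y) = tl L (x + x') y := by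
  refine Cell.ext ?_ rfl
  show y.n * eA (L.ℓ y.r) x' * eA (L.ℓ y.r) x = y.n * eA (L.ℓ y.r) (x + x')
  rw [mul_assoc, ← eA_add, add_comm]

@[simp] lemma tl_zero (y : Cell S F R) : tl L 0 y = y := by
  refine Cell.ext ?_ rfl
  show y.n * eA (L.ℓ y.r) 0 = y.n
  rw [eA_zero, mul_one]

lemma mi_mi (y : Cell S F R) : mi L (mi L y) = y := by
  refine Cell.ext ?_ rfl
  show y.n * sW (L.ℓ y.r) * sW (L.ℓ y.r) = y.n
  rw [mul_assoc, sW_sW, mul_one]

lemma gl_gl (y : Cell S F R) : gl L (gl L y) = y := by
  refine Cell.ext ?_ ?_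
  · show y.n * sW (L.ℓ y.r) * sW (L.ℓ (L.mv y.r)) = y.n
    rw [L.ℓ_mv, mul_assoc, sW_sW, mul_one]
  · exact L.mv_mv _

lemma tl_mi (x : F) (y : Cell S F R) : tl L x (mi L y) = mi L (tl L x y) := by
  refine Cell.ext ?_ rfl
  show y.n * sW (L.ℓ y.r) * eA (L.ℓ y.r) x = y.n * eA (L.ℓ y.r) x * sW (L.ℓ y.r)
  rw [mul_assoc, mul_assoc, eA_comm]

lemma tl_gl (x : F) (y : Cell S F R) : tl L x (gl L y) = gl L (tl L x y) := by
  refine Cell.ext ?_ rfl
  show y.n * sW (L.ℓ y.r) * eA (L.ℓ (L.mv y.r)) x = y.n * eA (L.ℓ y.r) x * sW (L.ℓ y.r)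
  rw [L.ℓ_mv, mul_assoc, mul_assoc, eA_comm]

/-- moves for two letters -/
lemma tl_tl' (L' : Ltr H G R) (x x' : F) (y : Cell S F R) : tl L x (tl L' x' y) = tl L' x' (tl L x y) := by
  refine Cell.ext ?_ rfl
  show y.n * eA (L'.ℓ y.r) x' * eA (L.ℓ y.r) x = y.n * eA (L.ℓ y.r) x * eA (L'.ℓ y.r) x'
  rw [mul_assoc, mul_assoc, eA_comm]

lemma tl_mi' (L' : Ltr H G R) (x : F) (y : Cell S F R) : tl L x (mi L' y) = mi L' (tl L x y) := by
  refine Cell.ext ?_ rfl
  show y.n * sW (L'.ℓ y.r) * eA (L.ℓ y.r) x = y.n * eA (L.ℓ y.r) x * sW (L'.ℓ y.r)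
  rw [mul_assoc, mul_assoc, eA_comm]

lemma tl_gl' (L' : Ltr H G R) (h : ∀ r, L.ℓ (L'.mv r) = L.ℓ r) (x : F) (y : Cell S F R) :
    tl L x (gl L' y) = gl L' (tl L x y) := by
  refine Cell.ext ?_ rfl
  show y.n * sW (L'.ℓ y.r) * eA (L.ℓ (L'.mv y.r)) x = y.n * eA (L.ℓ y.r) x * sW (L'.ℓ y.r)
  rw [h, mul_assoc, mul_assoc, eA_comm]

lemma lt_lt (t : H) (x x' : F) (y : Cell S F R) : lt t x (lt t x' y) = lt t (x + x') y := by
  refine Cell.ext ?_ rfl
  show eA t x * (eA t x' * y.n) = eA t (x + x') * y.n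
  rw [eA_add, mul_assoc]

@[simp] lemma lt_zero (t : H) (y : Cell S F R) : lt t (0 : F) y = y := by
  refine Cell.ext ?_ rfl
  show eA t 0 * y.n = y.n
  rw [eA_zero, one_mul]

/-- on the cells with the letter `t`, the two translations of the label agree -/
lemma tl_eq_lt (x : F) (y : Cell S F R) : tl L x y = lt (L.ℓ y.r) x y := by
  refine Cell.ext ?_ rfl
  show y.n * eA (L.ℓ y.r) x = eA (L.ℓ y.r) x * y.n
  rw [eA_comm]

end Cell

end Cm
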