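import Pool.Agent.Cm.Stmt
import Pool.Agent.Cm.Grp

/-!
# The mirrored group of a vertex: presentation and semidirect product
-/

set_option autoImplicit false
set_option linter.unusedSectionVars false
set_option linter.unusedVariables false

namespace Cm

open Singer CubeComplex

section pres
variable {Γ X : Type} [Group Γ] [MulAction Γ X] (M : SimpleGraph X) (x : X)

/-- the generator of an element of the stabilizer -/
def mEl : MulAction.stabilizer Γ x →* MirGroup Γ M x :=
  MonoidHom.mk' (fun g => PresentedGroup.of (Sum.inl g)) fun g h => by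
    have h1 : (PresentedGroup.mk (mirRel (Γ := Γ) M x)) (FreeGroup.of (Sum.inl g) * FreeGroup.of (Sum.inl h) *
        (FreeGroup.of (Sum.inl (g * h)))⁻¹) = 1 :=
      PresentedGroup.mk_eq_one_iff.2 (Subgroup.subset_normalClosure (Or.inl ⟨g, h, rfl⟩))
    rw [map_mul, map_mul, map_inv, mul_inv_eq_one] at h1
    exact h1.symm

/-- the reflection of a neighbour -/
def mRf (a : M.neighborSet x) : MirGroup Γ M x := PresentedGroup.of (Sum.inr a)

lemma mRf_mul (a : M.neighborSet x) : (mRf M x a : MirGroup Γ M x) * mRf M x a = 1 := by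
  have h1 : (PresentedGroup.mk (mirRel (Γ := Γ) M x)) (FreeGroup.of (Sum.inr a) * FreeGroup.of (Sum.inr a)) = 1 :=
    PresentedGroup.mk_eq_one_iff.2 (Subgroup.subset_normalClosure (Or.inr (Or.inl ⟨a, rfl⟩)))
  rwa [map_mul] at h1

lemma mRf_comm {a b : M.neighborSet x} (h : (link M x).Adj a b) :
    (mRf M x a : MirGroup Γ M x) * mRf M x b = mRf M x b * mRf M x a := by
  have h1 : (PresentedGroup.mk (mirRel (Γ := Γ) M x)) (FreeGroup.of (Sum.inr a) * FreeGroup.of (Sum.inr b) *
      (FreeGroup.of (Sum.inr a))⁻¹ * (FreeGroup.of (Sum.inr b))⁻¹) = 1 :=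
    PresentedGroup.mk_eq_one_iff.2 (Subgroup.subset_normalClosure (Or.inr (Or.inr (Or.inl ⟨a, b, h, rfl⟩))))
  rw [map_mul, map_mul, map_mul, map_inv, map_inv, mul_inv_eq_one, mul_inv_eq_iff_eq_mul] at h1
  exact h1

lemma m_conj (g : MulAction.stabilizer Γ x) (a b : M.neighborSet x) (h : g • (a : X) = b) :
    mEl M x g * mRf M x a * (mEl M x g)⁻¹ = (mRf M x b : MirGroup Γ M x) := by
  have h1 : (PresentedGroup.mk (mirRel (Γ := Γ) M x)) (FreeGroup.of (Sum.inl g) * FreeGroup.of (Sum.inr a) *
      (FreeGroup.of (Sum.inl g))⁻¹ * (FreeGroup.of (Sum.inr b))⁻¹) = 1 :=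
    PresentedGroup.mk_eq_one_iff.2 (Subgroup.subset_normalClosure (Or.inr (Or.inr (Or.inr ⟨g, a, b, h, rfl⟩))))
  rw [map_mul, map_mul, map_mul, map_inv, map_inv, mul_inv_eq_one] at h1
  exact h1

variable {H : Type*} [MulAction (MulAction.stabilizer Γ x) H] (S : Hyp H (MulAction.stabilizer Γ x))
variable (φ : M.neighborSet x ≃ H) (hφ : ∀ a b, (link M x).Adj a b ↔ S.C.Adj (φ a) (φ b))
variable (hs : ∀ (g : MulAction.stabilizer Γ x) (a : M.neighborSet x), g • (a : X) = (φ.symm (g • φ a) : X))

/-- the forward map -/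
noncomputable def mTo : MirGroup Γ M x →* Gh S Unit :=
  PresentedGroup.toGroup (f := fun y => match y with
    | Sum.inl g => SemidirectProduct.inr g
    | Sum.inr a => SemidirectProduct.inl (sW (φ a))) (by
    rintro w (⟨g, h, rfl⟩ | ⟨a, rfl⟩ | ⟨a, b, hab, rfl⟩ | ⟨g, a, b, hab, rfl⟩)
    · rw [map_mul, map_mul, map_inv, FreeGroup.lift_apply_of, FreeGroup.lift_apply_of, FreeGroup.lift_apply_of,
        mul_inv_eq_one]
      exact (map_mul SemidirectProduct.inr g h).symm
    · rw [map_mul, FreeGroup.lift_apply_of, ← map_mul, sW_sW, map_one]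
    · rw [map_mul, map_mul, map_mul, map_inv, map_inv, FreeGroup.lift_apply_of, FreeGroup.lift_apply_of,
        mul_inv_eq_one, mul_inv_eq_iff_eq_mul, ← map_mul, ← map_mul, sW_comm ((hφ a b).1 hab)]
    · rw [map_mul, map_mul, map_mul, map_inv, map_inv, FreeGroup.lift_apply_of, FreeGroup.lift_apply_of,
        FreeGroup.lift_apply_of, mul_inv_eq_one]
      have h1 : φ b = g • φ a := by
        have h2 : b = φ.symm (g • φ a) := Subtype.ext (hab.symm.trans (hs g a))
        rw [h2, Equiv.apply_symm_apply]
      have h2 := SemidirectProduct.inl_aut (φ := MulDistribMulAction.toMulAut (MulAction.stabilizer Γ x) (NN S Unit)) g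
        (sW (φ a))
      have h3 : MulDistribMulAction.toMulAut (MulAction.stabilizer Γ x) (NN S Unit) g (sW (φ a)) = sW (φ b) := by
        rw [h1]
        exact smul_sW g (φ a)
      rw [h3] at h2
      show SemidirectProduct.inr g * SemidirectProduct.inl (sW (φ a)) * (SemidirectProduct.inr g)⁻¹ =
        (SemidirectProduct.inl (sW (φ b)) : Gh S Unit)
      rw [h2, map_inv])

lemma mTo_el (g : MulAction.stabilizer Γ x) : mTo M x S φ hφ hs (mEl M x g) = SemidirectProduct.inr g :=
  PresentedGroup.toGroup.of _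

lemma mTo_rf (a : M.neighborSet x) : mTo M x S φ hφ hs (mRf M x a) = SemidirectProduct.inl (sW (φ a)) :=
  PresentedGroup.toGroup.of _

/-- the backward map on the right-angled Coxeter group -/
noncomputable def mRac : RACG S.C →* MirGroup Γ M x :=
  Racg.lift (fun t => mRf M x (φ.symm t)) (fun t => mRf_mul M x _) fun t u h => mRf_comm M x (by
    rw [hφ, Equiv.apply_symm_apply, Equiv.apply_symm_apply]
    exact h)

/-- the component in the right-angled Coxeter group, as a homomorphism -/
noncomputable def pwH : NN S Unit →* RACG S.C := MonoidHom.mk' pw pw_mul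

/-- the backward map -/
noncomputable def mFrom : Gh S Unit →* MirGroup Γ M x :=
  SemidirectProduct.lift ((mRac M x S φ hφ).comp (pwH x S)) (mEl M x) fun g => by
    have h1 : (mRac M x S φ hφ).comp (Racg.map (fun t => g • t) (fun u v h => (S.adj g u v).2 h)) =
        (MulAut.conj (mEl M x g)).toMonoidHom.comp (mRac M x S φ hφ) := Racg.hom_ext fun t => by
      rw [MonoidHom.comp_apply, MonoidHom.comp_apply, Racg.map_gen]
      unfold mRac
      rw [Racg.lift_gen, Racg.lift_gen]
      show _ = mEl M x g * mRf M x (φ.symm t) * (mEl M x g)⁻¹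
      refine (m_conj M x g _ _ ?_).symm
      rw [hs, Equiv.apply_symm_apply]
    ext n
    exact DFunLike.congr_fun h1 (pw n)

lemma mFrom_inr (g : MulAction.stabilizer Γ x) : mFrom M x S φ hφ hs (SemidirectProduct.inr g) = mEl M x g :=
  SemidirectProduct.lift_inr _ _ _ _

lemma mFrom_inl (n : NN S Unit) : mFrom M x S φ hφ hs (SemidirectProduct.inl n) = mRac M x S φ hφ (pw n) :=
  SemidirectProduct.lift_inl _ _ _ _

/-- **the mirrored group is the semidirect product** -/
noncomputable def mEquiv : MirGroup Γ M x ≃* Gh S Unit :=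
  MonoidHom.toMulEquiv (mTo M x S φ hφ hs) (mFrom M x S φ hφ hs)
    (PresentedGroup.ext fun y => by
      rcases y with g | a
      · show mFrom M x S φ hφ hs (mTo M x S φ hφ hs (mEl M x g)) = mEl M x g
        rw [mTo_el, mFrom_inr]
      · show mFrom M x S φ hφ hs (mTo M x S φ hφ hs (mRf M x a)) = mRf M x a
        rw [mTo_rf, mFrom_inl, pw_sW]
        unfold mRac
        rw [Racg.lift_gen, Equiv.symm_apply_apply])
    (SemidirectProduct.hom_ext
      (by
        refine MonoidHom.ext fun n => ?_
        show mTo M x S φ hφ hs (mFrom M x S φ hφ hs (SemidirectProduct.inl n)) = SemidirectProduct.inl n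
        rw [mFrom_inl]
        have h1 : (mTo M x S φ hφ hs).comp (mRac M x S φ hφ) =
            (SemidirectProduct.inl : NN S Unit →* Gh S Unit).comp
              (MonoidHom.mk' (fun w : RACG S.C => (((w, 1) : RACG S.C × Multiplicative (H → Unit)) : NN S Unit))
                fun a b => nn_ext rfl fun _ => rfl) := Racg.hom_ext fun t => by
          rw [MonoidHom.comp_apply, MonoidHom.comp_apply]
          unfold mRac
          rw [Racg.lift_gen, mTo_rf, Equiv.apply_symm_apply]
          rfl
        have h2 := DFunLike.congr_fun h1 (pw n)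
        refine h2.trans ?_
        show SemidirectProduct.inl _ = SemidirectProduct.inl n
        congr 1)
      (by
        refine MonoidHom.ext fun g => ?_
        show mTo M x S φ hφ hs (mFrom M x S φ hφ hs (SemidirectProduct.inr g)) = SemidirectProduct.inr g
        rw [mFrom_inr, mTo_el]))

end pres

end Cm
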