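import Pool.Agent.Cm.WallEx
import Pool.Agent.Npc.Dim

/-!
# The Wall construction, part 4: the cell system

* `EJ S P j` : the cells of degree `j`, a free `Γ`-set with finitely many orbits; `cbJ` : the cell of `K` below a cell;
* `incJ S P D e` : the boundary of the cell `e`;
* `exJ_succ`, `exJ_zero`, `augJ_bd`, `augJ_surj` : exactness with coefficients in torsion-free groups, over a locally closed
  set of cells of `K`, from exactness for `K`;
* `exists_bound` : bounds for the incidence numbers.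
-/

set_option autoImplicit false
set_option linter.unusedSectionVars false
set_option linter.unusedVariables false

open scoped Matrix

namespace Cm

open Singer

variable {Γ K : Type*} [Group Γ] [MulAction Γ K] (S : SK Γ K) (P : Rps Γ K)

/-- the cells of degree `j` -/
def EJ (j : ℕ) : Type _ := {e : P.E // P.deg S e.2 = j}

instance (j : ℕ) : MulAction Γ (EJ S P j) where
  smul g e := ⟨P.sm g e.1, e.2⟩
  one_smul e := Subtype.ext (Prod.ext (one_mul _) rfl)
  mul_smul g h e := Subtype.ext (Prod.ext (mul_assoc _ _ _) rfl)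

variable {S P}

lemma EJ.smul_val {j : ℕ} (g : Γ) (e : EJ S P j) : (g • e).1 = P.sm g e.1 := rfl

/-- the underlying cell -/
def vJ {j : ℕ} (e : EJ S P j) : P.E := e.1

lemma vJ_inj {j : ℕ} : Function.Injective (vJ : EJ S P j → P.E) := Subtype.val_injective

/-- the cell of `K` below a cell -/
def cbJ {j : ℕ} (e : EJ S P j) : K := P.cb e.1

lemma cbJ_smul {j : ℕ} (g : Γ) (e : EJ S P j) : cbJ (g • e) = g • cbJ e := P.cb_sm g e.1

lemma finite_I (j : ℕ) : Finite {i : P.I // P.deg S i = j} := by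
  classical
  let f : {i : P.I // P.deg S i = j} → Σ a : P.A, Σ q : Fin (j + 1), (P.R a).ι q := fun i =>
    ⟨i.1.1, ⟨i.1.2.1, by have := i.2; unfold Rps.deg at this; omega⟩, i.1.2.2⟩
  refine Finite.of_injective f ?_
  rintro ⟨⟨a, q, i⟩, hi⟩ ⟨⟨b, r, l⟩, hl⟩ h
  have h1 : a = b := (Sigma.mk.inj h).1
  subst h1
  have h2 := eq_of_heq (Sigma.mk.inj h).2
  have h3 : q = r := congrArg (fun x : Σ q : Fin (j + 1), (P.R a).ι q => (x.1 : ℕ)) h2
  subst h3
  have h4 : i = l := eq_of_heq (Sigma.mk.inj h2).2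
  subst h4
  rfl

instance (j : ℕ) : Npc.Cof Γ (EJ S P j) where
  free g e h := by
    have h1 : g * e.1.1 = e.1.1 := congrArg (fun x : EJ S P j => x.1.1) h
    exact mul_eq_right.1 h1
  fin := by
    have := finite_I (S := S) (P := P) j
    refine Finite.of_surjective (fun i : {i : P.I // P.deg S i = j} =>
      (Quotient.mk'' (⟨(1, i.1), i.2⟩ : EJ S P j) : MulAction.orbitRel.Quotient Γ (EJ S P j))) ?_
    intro q
    induction q using Quotient.inductionOn' with | h e => ?_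
    refine ⟨⟨e.1.2, e.2⟩, Quotient.sound' ⟨e.1.1⁻¹, ?_⟩⟩
    exact Subtype.ext (Prod.ext (inv_mul_cancel _) rfl)

variable (D : P.I → (P.E →₀ ℤ))

/-- the boundary of a cell -/
noncomputable def incJ {j : ℕ} (e : EJ S P (j + 1)) : EJ S P j →₀ ℤ :=
  (P.ext D e.1).comapDomain vJ vJ_inj.injOn

variable {D}

lemma incJ_apply {j : ℕ} (e : EJ S P (j + 1)) (e' : EJ S P j) : incJ D e e' = P.ext D e.1 e'.1 := rfl

lemma incJ_smul {j : ℕ} (g : Γ) (e : EJ S P (j + 1)) (e' : EJ S P j) : incJ D (g • e) (g • e') = incJ D e e' := by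
  rw [incJ_apply, incJ_apply, P.ext_apply, P.ext_apply]
  have h : (g • e).1.1⁻¹ * (g • e').1.1 = e.1.1⁻¹ * e'.1.1 := by
    show (g * e.1.1)⁻¹ * (g * e'.1.1) = _
    group
  rw [h]
  rfl

section lift
variable {M : Type*} [AddCommGroup M]

/-- a chain of degree `j` as a chain -/
noncomputable def upJ {j : ℕ} (f : EJ S P j →₀ M) : P.E →₀ M := f.mapDomain vJ

lemma upJ_val {j : ℕ} (f : EJ S P j →₀ M) (e : EJ S P j) : upJ f e.1 = f e :=
  Finsupp.mapDomain_apply vJ_inj f e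

lemma upJ_ne {j : ℕ} {f : EJ S P j →₀ M} {e : P.E} (h : upJ f e ≠ 0) : P.deg S e.2 = j := by
  by_contra h1
  refine h (Finsupp.mapDomain_of_notMem_range _ _ ?_)
  rintro ⟨x, rfl⟩
  exact h1 x.2

/-- the part of degree `j` of a chain -/
noncomputable def dnJ (S : SK Γ K) (P : Rps Γ K) (j : ℕ) (f : P.E →₀ M) : EJ S P j →₀ M :=
  f.comapDomain vJ vJ_inj.injOn

lemma dnJ_apply {j : ℕ} (f : P.E →₀ M) (e : EJ S P j) : dnJ S P j f e = f e.1 := rfl

lemma lin_incJ {j : ℕ} (f : EJ S P (j + 1) →₀ M) (e : EJ S P j) : lin (incJ D) f e = lin (P.ext D) (upJ f) e.1 := by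
  unfold upJ
  rw [lin_mapDomain, lin_apply, lin_apply]
  rfl

lemma lin_incJ_dn {j : ℕ} {f : P.E →₀ M} (hf : ∀ e, f e ≠ 0 → P.deg S e.2 = j + 1) (e : EJ S P j) :
    lin (incJ D) (dnJ S P (j + 1) f) e = lin (P.ext D) f e.1 := by
  rw [lin_incJ]
  congr 2
  ext x
  by_cases h : P.deg S x.2 = j + 1
  · exact upJ_val (dnJ S P (j + 1) f) ⟨x, h⟩
  · have h1 : f x = 0 := by
      by_contra h2
      exact h (hf x h2)
    rw [h1]
    by_contra h2
    exact h (upJ_ne h2)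

variable {n : ℕ} (hG : Good S P D n) (hn : ∀ x, S.dim x < n) (C : Cf S M)

/-- chains of degree `j` with coefficients -/
def OnJ {j : ℕ} (f : EJ S P j →₀ M) : Prop := ∀ e, f e ≠ 0 → cbJ e ∈ C.O ∧ f e ∈ C.V (cbJ e)

variable {C}

lemma OnJ.up {j : ℕ} {f : EJ S P j →₀ M} (h : OnJ C f) : OnE C P (upJ f) := by
  intro e he
  have h1 := upJ_ne he
  have h2 := upJ_val f ⟨e, h1⟩
  change upJ f e = f ⟨e, h1⟩ at h2
  rw [h2] at he ⊢
  exact h _ he

lemma OnE.dn {j : ℕ} {f : P.E →₀ M} (h : OnE C P f) : OnJ C (dnJ S P j f) := fun e he => h e.1 he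

/-! ### the augmentation -/

/-- the values of the augmentation on the cells of degree `0` -/
noncomputable def wJ (e : EJ S P 0) : ℤ := P.pr S e.1 (P.cb e.1)

lemma wJ_smul (h0 : ∀ (g : Γ) x, S.dim x = 0 → S.sg g x = 1) (g : Γ) (e : EJ S P 0) : wJ (g • e) = wJ e := by
  obtain ⟨⟨h, a, q, i⟩, he⟩ := e
  have h1 : S.dim (P.rep a) + q = 0 := he
  have h2 : q = 0 := by omega
  subst h2
  show P.pr S (g * h, ⟨a, 0, i⟩) ((g * h) • P.rep a) = P.pr S (h, ⟨a, 0, i⟩) (h • P.rep a)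
  rw [P.pr_zero, P.pr_zero, Finsupp.single_eq_same, Finsupp.single_eq_same, h0 _ _ h1, h0 _ _ h1]

lemma sum_wJ (f : EJ S P 0 →₀ M) : (f.sum fun e m => wJ e • m) = (lin (P.pr S) (upJ f)).sum fun _ m => m := by
  induction f using Finsupp.induction_linear with
  | zero =>
    unfold upJ
    rw [Finsupp.mapDomain_zero, map_zero, Finsupp.sum_zero_index, Finsupp.sum_zero_index]
  | add f g hf hg =>
    have h1 : upJ (f + g) = upJ f + upJ g := Finsupp.mapDomain_add
    rw [h1, map_add, Finsupp.sum_add_index' (fun e => smul_zero _) fun e a b => smul_add _ _ _,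
      Finsupp.sum_add_index' (fun _ => rfl) fun _ _ _ => rfl, hf, hg]
  | single e m =>
    unfold upJ
    have h0 : ((Finsupp.single e m).sum fun e m => wJ e • m) = wJ e • m := Finsupp.sum_single_index (smul_zero _)
    rw [Finsupp.mapDomain_single, lin_single, h0]
    obtain ⟨⟨h, a, q, i⟩, he⟩ := e
    have h1 : S.dim (P.rep a) + q = 0 := he
    have h2 : q = 0 := by omega
    subst h2
    show P.pr S (h, ⟨a, 0, i⟩) (h • P.rep a) • m = (ms m (P.pr S (h, ⟨a, 0, i⟩))).sum fun _ m => m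
    rw [P.pr_zero, Finsupp.single_eq_same, ms_single, Finsupp.sum_single_index rfl]

/-! ### exactness -/

section ex
variable [IsAddTorsionFree M]

include hG hn

lemma allE (f : P.E →₀ M) : ∀ e, f e ≠ 0 → S.dim (P.cb e) < n := fun e _ => hn _

/-- the projection of a chain with coefficients -/
lemma onK_pr {f : P.E →₀ M} (hf : OnE C P f) : OnK C (lin (P.pr S) f) := by
  intro x hx
  obtain ⟨e, he, h1⟩ := exists_of_lin_ne hx
  obtain ⟨h2, _⟩ := P.pr_ne S h1
  subst h2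
  refine ⟨(hf e he).1, lin_mem fun e' he' h3 => ?_⟩
  obtain ⟨h4, _⟩ := P.pr_ne S h3
  rw [← h4]
  exact (hf e' he').2

lemma dim_pr {j : ℕ} {f : P.E →₀ M} (hf : ∀ e, f e ≠ 0 → P.deg S e.2 = j) {x : K} (hx : lin (P.pr S) f x ≠ 0) :
    S.dim x = j := by
  obtain ⟨e, he, h1⟩ := exists_of_lin_ne hx
  obtain ⟨h2, h3⟩ := P.pr_ne S h1
  have h4 := hf e he
  have h5 : S.dim (P.rep e.2.1) + e.2.2.1 = j := h4
  rw [← h2, dim_cb, ← h5, h3, add_zero]

/-- the lift of a chain of `K` whose boundary is the projection of a chain -/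
lemma exJ_aux {j : ℕ} {f : EJ S P j →₀ M} (hf : OnJ C f) (h0 : rsE C P (lin (P.ext D) (upJ f)) = 0) {z : K →₀ M}
    (hz : OnK C z) (hzd : ∀ x, z x ≠ 0 → S.dim x = j + 1) (h1 : ∀ x ∈ C.O, lin S.bd z x = lin (P.pr S) (upJ f) x) :
    ∃ b : EJ S P (j + 1) →₀ M, OnJ C b ∧ ∀ e, cbJ e ∈ C.O → lin (incJ D) b e = f e := by
  have h2 : lin (P.pr S) (upJ f) = rsK C (lin S.bd z) := by
    ext x
    by_cases hx : x ∈ C.O
    · rw [rsK_mem hx, h1 x hx]
    · rw [rsK_notMem hx]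
      by_contra h3
      exact hx (onK_pr hG hn hf.up x h3).1
  obtain ⟨b, c1, c2, c3, _⟩ := qi hG (j + 1) (upJ f) z hf.up (fun e he => ⟨by rw [upJ_ne he], hn _⟩) hz
    (fun x hx => ⟨hzd x hx, hn x⟩) h0 h2
  refine ⟨dnJ S P (j + 1) b, c1.dn, fun e he => ?_⟩
  rw [lin_incJ_dn fun e he => (c2 e he).1, ← upJ_val f e, ← c3, rsE_mem he]

/-- **exactness in positive degrees** -/
theorem exJ_succ {j : ℕ}
    (hK : ∀ z : K →₀ M, (∀ x, z x ≠ 0 → S.dim x = j + 1) → OnK C z → (∀ x ∈ C.O, lin S.bd z x = 0) →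
      ∃ y : K →₀ M, (∀ x, y x ≠ 0 → S.dim x = j + 2) ∧ OnK C y ∧ ∀ x ∈ C.O, lin S.bd y x = z x)
    (f : EJ S P (j + 1) →₀ M) (hf : OnJ C f) (h0 : ∀ e, cbJ e ∈ C.O → lin (incJ D) f e = 0) :
    ∃ b : EJ S P (j + 2) →₀ M, OnJ C b ∧ ∀ e, cbJ e ∈ C.O → lin (incJ D) b e = f e := by
  have h1 : rsE C P (lin (P.ext D) (upJ f)) = 0 := by
    ext e
    rw [Finsupp.zero_apply]
    by_cases he : P.cb e ∈ C.O
    · rw [rsE_mem he]
      by_contra h2
      obtain ⟨e', he', h3⟩ := exists_of_lin_ne h2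
      have h4 := hG.degE (hn _) h3
      rw [upJ_ne he'] at h4
      have h5 : P.deg S e.2 = j := by omega
      have h6 := h0 ⟨e, h5⟩ he
      rw [lin_incJ] at h6
      exact h2 h6
    · exact rsE_notMem he
  obtain ⟨y, y1, y2, y3⟩ := hK (lin (P.pr S) (upJ f)) (fun x hx => dim_pr hG hn (fun e he => upJ_ne he) hx)
    (onK_pr hG hn hf.up) (fun x hx => by
      rw [← hG.piE _ (allE hG hn _), ← rsK_mem hx, ← pr_rsE, h1, map_zero]
      rfl)
  exact exJ_aux hG hn hf h1 y2 y1 y3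

/-- **exactness in degree zero** -/
theorem exJ_zero {N : Type*} [AddCommGroup N] (θ : M →+ N)
    (hK : ∀ z : K →₀ M, (∀ x, z x ≠ 0 → S.dim x = 0) → OnK C z → θ (z.sum fun _ m => m) = 0 →
      ∃ y : K →₀ M, (∀ x, y x ≠ 0 → S.dim x = 1) ∧ OnK C y ∧ ∀ x ∈ C.O, lin S.bd y x = z x)
    (f : EJ S P 0 →₀ M) (hf : OnJ C f) (h0 : θ (f.sum fun e m => wJ e • m) = 0) :
    ∃ b : EJ S P 1 →₀ M, OnJ C b ∧ ∀ e, cbJ e ∈ C.O → lin (incJ D) b e = f e := by
  have h1 : rsE C P (lin (P.ext D) (upJ f)) = 0 := by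
    ext e
    rw [Finsupp.zero_apply]
    by_contra h2
    obtain ⟨e', he', h3⟩ := exists_of_lin_ne (rsE_ne h2).2
    have h4 := hG.degE (hn _) h3
    rw [upJ_ne he'] at h4
    omega
  rw [sum_wJ] at h0
  obtain ⟨y, y1, y2, y3⟩ := hK (lin (P.pr S) (upJ f)) (fun x hx => dim_pr hG hn (fun e he => upJ_ne he) hx)
    (onK_pr hG hn hf.up) h0
  exact exJ_aux hG hn hf h1 y2 y1 y3

/-- the augmentation of a boundary -/
theorem augJ_bd {N : Type*} [AddCommGroup N] (θ : M →+ N)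
    (hK : ∀ z : K →₀ M, (∀ x, z x ≠ 0 → S.dim x = 1) → OnK C z → θ ((rsK C (lin S.bd z)).sum fun _ m => m) = 0)
    (b : EJ S P 1 →₀ M) (hb : OnJ C b) (f : EJ S P 0 →₀ M) (hf : OnJ C f)
    (h : ∀ e, cbJ e ∈ C.O → lin (incJ D) b e = f e) : θ (f.sum fun e m => wJ e • m) = 0 := by
  have h1 : upJ f = rsE C P (lin (P.ext D) (upJ b)) := by
    ext e
    by_cases he : P.cb e ∈ C.O
    · rw [rsE_mem he]
      by_cases h2 : P.deg S e.2 = 0
      · have h3 := h ⟨e, h2⟩ he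
        rw [lin_incJ] at h3
        rw [h3]
        exact upJ_val f ⟨e, h2⟩
      · have h3 : upJ f e = 0 := by
          by_contra h4
          exact h2 (upJ_ne h4)
        rw [h3]
        by_contra h4
        obtain ⟨e', he', h5⟩ := exists_of_lin_ne (Ne.symm h4)
        have h6 := hG.degE (hn _) h5
        rw [upJ_ne he'] at h6
        omega
    · rw [rsE_notMem he]
      by_contra h4
      have h5 := hf.up e h4
      exact he h5.1
  rw [sum_wJ, h1, pr_rsE, hG.piE _ (allE hG hn _)]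
  exact hK _ (fun x hx => dim_pr hG hn (fun e he => upJ_ne he) hx) (onK_pr hG hn hb.up)

/-- the chains of the vertices lift -/
theorem augJ_surj (z : K →₀ M) (hz : OnK C z) (hzd : ∀ x, z x ≠ 0 → S.dim x = 0) :
    ∃ f : EJ S P 0 →₀ M, OnJ C f ∧ (f.sum fun e m => wJ e • m) = z.sum fun _ m => m := by
  obtain ⟨b, c1, c2, c3, c4⟩ := qi_low (P := P) hz hzd
  refine ⟨dnJ S P 0 b, c1.dn, ?_⟩
  rw [sum_wJ, ← c3]
  congr 2
  ext x
  by_cases h : P.deg S x.2 = 0
  · exact upJ_val (dnJ S P 0 b) ⟨x, h⟩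
  · have h1 : b x = 0 := by
      by_contra h2
      exact h (c2 x h2).1
    rw [h1]
    by_contra h2
    exact h (upJ_ne h2)

omit [IsAddTorsionFree M]

/-- the boundary of the boundary -/
theorem incJ_incJ {j : ℕ} (e : EJ S P (j + 2)) : lin (incJ D) (incJ D e) = 0 := by
  ext e''
  rw [lin_incJ, Finsupp.zero_apply]
  have h1 : upJ (incJ D e) = P.ext D e.1 := by
    ext x
    by_cases h : P.deg S x.2 = j + 1
    · exact upJ_val (incJ D e) ⟨x, h⟩
    · have h2 : P.ext D e.1 x = 0 := by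
        by_contra h3
        have h4 := hG.degE (hn _) h3
        have h5 := e.2
        omega
      rw [h2]
      by_contra h3
      exact h (upJ_ne h3)
  have h2 : P.ext D e.1 = lin (P.ext D) (Finsupp.single e.1 (1 : ℤ)) := by rw [lin_single, ms_one]
  rw [h1, h2, hG.ddE _ (fun e _ => hn _)]
  rfl

/-- the incidence numbers vanish besides the faces -/
theorem incJ_le {j : ℕ} {e : EJ S P (j + 1)} {e' : EJ S P j} (h : incJ D e e' ≠ 0) : S.le (cbJ e') (cbJ e) :=
  hG.leE (hn _) h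

end ex

end lift

/-! ### bounds -/

/-- bounds for the incidence numbers -/
theorem exists_bound (j : ℕ) : ∃ M : ℕ,
    (∀ e : EJ S P (j + 1), {e' : EJ S P j | incJ D e e' ≠ 0}.Finite ∧ {e' : EJ S P j | incJ D e e' ≠ 0}.ncard ≤ M) ∧
    (∀ e' : EJ S P j, {e : EJ S P (j + 1) | incJ D e e' ≠ 0}.Finite ∧
      {e : EJ S P (j + 1) | incJ D e e' ≠ 0}.ncard ≤ M) ∧
    ∀ (e : EJ S P (j + 1)) (e' : EJ S P j), ‖(incJ D e e' : ℂ)‖ ≤ M := by
  classical
  have := finite_I (S := S) (P := P) (j + 1)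
  let _ := Fintype.ofFinite {i : P.I // P.deg S i = j + 1}
  let N1 : ℕ := ∑ i : {i : P.I // P.deg S i = j + 1}, (D i.1).support.card
  let N2 : ℕ := ∑ i : {i : P.I // P.deg S i = j + 1}, ∑ x ∈ (D i.1).support, (D i.1 x).natAbs
  have hle1 : ∀ i : {i : P.I // P.deg S i = j + 1}, (D i.1).support.card ≤ N1 := fun i =>
    Finset.single_le_sum (f := fun i : {i : P.I // P.deg S i = j + 1} => (D i.1).support.card) (fun _ _ => Nat.zero_le _)
      (Finset.mem_univ i)
  refine ⟨N1 + N2, fun e => ?_, fun e' => ?_, fun e e' => ?_⟩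
  · have h1 : Set.InjOn (fun e' : EJ S P j => (e.1.1⁻¹ * e'.1.1, e'.1.2)) {e' : EJ S P j | incJ D e e' ≠ 0} := by
      intro x _ y _ h
      obtain ⟨h2, h3⟩ := Prod.ext_iff.1 h
      exact Subtype.ext (Prod.ext (mul_left_cancel h2) h3)
    have h2 : Set.MapsTo (fun e' : EJ S P j => (e.1.1⁻¹ * e'.1.1, e'.1.2)) {e' : EJ S P j | incJ D e e' ≠ 0}
        ((D e.1.2).support : Set P.E) := by
      intro x hx
      have hx' : incJ D e x ≠ 0 := hx
      rw [incJ_apply, P.ext_apply] at hx'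
      exact Finsupp.mem_support_iff.2 hx'
    refine ⟨Set.Finite.of_injOn h2 h1 (Finset.finite_toSet _), ?_⟩
    refine (Set.ncard_le_ncard_of_injOn _ h2 h1 (Finset.finite_toSet _)).trans ?_
    rw [Set.ncard_coe_finset]
    exact (hle1 ⟨e.1.2, e.2⟩).trans (Nat.le_add_right _ _)
  · let T : Finset (Σ i : {i : P.I // P.deg S i = j + 1}, P.E) := Finset.univ.sigma fun i => (D i.1).support
    have hT : T.card = N1 := Finset.card_sigma _ _
    have h1 : Set.InjOn (fun e : EJ S P (j + 1) =>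
        (⟨⟨e.1.2, e.2⟩, (e.1.1⁻¹ * e'.1.1, e'.1.2)⟩ : Σ i : {i : P.I // P.deg S i = j + 1}, P.E))
        {e : EJ S P (j + 1) | incJ D e e' ≠ 0} := by
      intro x _ y _ h
      obtain ⟨h2, h3⟩ := Sigma.mk.inj h
      have h4 : x.1.2 = y.1.2 := congrArg Subtype.val h2
      obtain ⟨h5, _⟩ := Prod.ext_iff.1 (eq_of_heq h3)
      exact Subtype.ext (Prod.ext (inv_injective (mul_right_cancel h5)) h4)
    have h2 : Set.MapsTo (fun e : EJ S P (j + 1) =>
        (⟨⟨e.1.2, e.2⟩, (e.1.1⁻¹ * e'.1.1, e'.1.2)⟩ : Σ i : {i : P.I // P.deg S i = j + 1}, P.E))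
        {e : EJ S P (j + 1) | incJ D e e' ≠ 0} (T : Set _) := by
      intro x hx
      have hx' : incJ D x e' ≠ 0 := hx
      rw [incJ_apply, P.ext_apply] at hx'
      exact Finset.mem_coe.2 (Finset.mem_sigma.2 ⟨Finset.mem_univ _, Finsupp.mem_support_iff.2 hx'⟩)
    refine ⟨Set.Finite.of_injOn h2 h1 (Finset.finite_toSet _), ?_⟩
    refine (Set.ncard_le_ncard_of_injOn _ h2 h1 (Finset.finite_toSet _)).trans ?_
    rw [Set.ncard_coe_finset, hT]
    exact Nat.le_add_right _ _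
  · rw [incJ_apply, P.ext_apply]
    set x := (e.1.1⁻¹ * e'.1.1, e'.1.2) with hx
    have h1 : (D e.1.2 x).natAbs ≤ N2 := by
      by_cases h0 : D e.1.2 x = 0
      · rw [h0]
        exact Nat.zero_le _
      · have h2 : (D e.1.2 x).natAbs ≤ ∑ x ∈ (D e.1.2).support, (D e.1.2 x).natAbs :=
          Finset.single_le_sum (f := fun x => (D e.1.2 x).natAbs) (fun _ _ => Nat.zero_le _)
            (Finsupp.mem_support_iff.2 h0)
        refine h2.trans ?_
        exact Finset.single_le_sum (f := fun i : {i : P.I // P.deg S i = j + 1} =>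
          ∑ x ∈ (D i.1).support, (D i.1 x).natAbs) (fun _ _ => Nat.zero_le _) (Finset.mem_univ ⟨e.1.2, e.2⟩)
    have h3 : ‖((D e.1.2 x : ℤ) : ℂ)‖ = ((D e.1.2 x).natAbs : ℝ) := by
      rw [Complex.norm_intCast, Nat.cast_natAbs, Int.cast_abs]
    rw [h3]
    exact_mod_cast h1.trans (Nat.le_add_left _ _)

end Cm
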