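import Pool.Agent.Cm.Qi

/-!
# The Wall construction, part 3: existence

`exists_good` : for every `n` there is a boundary operator `D` on the cells over the cells of `K` of dimension `< n`,
with `Good S P D n`.
-/

set_option autoImplicit false
set_option linter.unusedSectionVars false
set_option linter.unusedVariables false

open scoped Matrix

namespace Cm

open Singer

variable {Γ K : Type*} [Group Γ] [MulAction Γ K]

lemma exists_seq' {X : ℕ → Type*} (good : ∀ i, X i → Prop) (rel : ∀ i, X i → X (i + 1) → Prop)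
    (h0 : ∃ x, good 0 x) (hs : ∀ i x, good i x → ∃ y, good (i + 1) y ∧ rel i x y) :
    ∃ x : ∀ i, X i, (∀ i, good i (x i)) ∧ ∀ i, rel i (x i) (x (i + 1)) := by
  classical
  let F : ∀ i, {x : X i // good i x} := fun i => Nat.rec ⟨h0.choose, h0.choose_spec⟩
    (fun i x => ⟨(hs i x.1 x.2).choose, (hs i x.1 x.2).choose_spec.1⟩) i
  exact ⟨fun i => (F i).1, fun i => (F i).2, fun i => (hs i (F i).1 (F i).2).choose_spec.2⟩

/-- the proper faces of `x₀`, with all coefficients -/
def lowCf (S : SK Γ K) (x₀ : K) (M : Type*) [AddCommGroup M] : Cf S M where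
  O := {x | S.le x x₀ ∧ x ≠ x₀}
  V := fun _ => ⊤
  mono := fun _ _ _ _ _ => le_refl _
  lc := by
    rintro x y z ⟨hx1, hx2⟩ ⟨hz1, hz2⟩ hzy hyx
    refine ⟨S.le_trans _ _ _ hyx hx1, fun h => ?_⟩
    have h1 := S.dim_lt _ _ hx1 hx2
    by_cases h2 : y = x
    · exact hx2 (h2.symm.trans h)
    · have h3 := S.dim_lt _ _ hyx h2
      rw [h] at h3
      exact absurd h1 h3.not_gt

section W
variable (S : SK Γ K) (P : Rps Γ K) {M : Type*} [AddCommGroup M]

/-- the equivariant extension, twisted by the signs -/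
noncomputable def W (a : P.A) {q : ℕ} (v : (P.R a).ι q → (P.E →₀ ℤ)) (x : Γ × (P.R a).ι q) : P.E →₀ ℤ :=
  S.sg x.1 (P.rep a) • (v x.2).mapDomain (P.sm x.1)

variable {S P}

lemma W_mul (a : P.A) {q : ℕ} (v : (P.R a).ι q → (P.E →₀ ℤ)) (g : Γ) {y : Γ × (P.R a).ι q}
    (hy : y.1 ∈ MulAction.stabilizer Γ (P.rep a)) :
    S.sg g (P.rep a) • (W S P a v y).mapDomain (P.sm g) = W S P a v (g * y.1, y.2) := by
  unfold W
  rw [Finsupp.mapDomain_smul, ← Finsupp.mapDomain_comp, smul_smul, S.sg_mul]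
  have h1 : y.1 • P.rep a = P.rep a := hy
  rw [h1]
  congr 2
  funext e
  exact Prod.ext (mul_assoc _ _ _).symm rfl

/-- the equivariance of the extension -/
lemma W_mx (a : P.A) {q r : ℕ} (v : (P.R a).ι q → (P.E →₀ ℤ))
    (A : Matrix ((P.R a).ι r) ((P.R a).ι q) (MonoidAlgebra ℤ (MulAction.stabilizer Γ (P.rep a)))) (g : Γ)
    (l : (P.R a).ι r) :
    S.sg g (P.rep a) • (lin (W S P a v) (mxI A (1, l))).mapDomain (P.sm g) = lin (W S P a v) (mxI A (g, l)) := by
  have h1 : mxI A (g, l) = (mxI A (1, l)).mapDomain fun y => (g * y.1, y.2) := by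
    rw [← mxI_mul, mul_one]
  rw [h1, lin_mapDomain, mapDomain_lin]
  have h2 : ∀ (k : ℤ) (u : Γ × (P.R a).ι q →₀ ℤ) (β : Γ × (P.R a).ι q → (P.E →₀ ℤ)),
      k • lin β u = lin (fun γ => k • β γ) u := by
    intro k u β
    induction u using Finsupp.induction_linear with
    | zero => simp
    | add f g hf hg => rw [map_add, smul_add, hf, hg, map_add]
    | single e m => rw [lin_single, lin_single, ms_smul]
  rw [h2]
  refine lin_congr fun y hy => ?_
  obtain ⟨γ, hγ⟩ := mxI_supp (Finsupp.mem_support_iff.1 hy)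
  exact W_mul a v g (by rw [hγ, one_mul]; exact γ.2)

end W

section step
variable {S : SK Γ K} {P : Rps Γ K} {D : P.I → (P.E →₀ ℤ)} {n : ℕ}

/-- chains over the proper faces of a cell -/
def Low (S : SK Γ K) (P : Rps Γ K) (x₀ : K) (f : P.E →₀ ℤ) : Prop :=
  ∀ e, f e ≠ 0 → S.le (P.cb e) x₀ ∧ P.cb e ≠ x₀

lemma Low.onE {x₀ : K} {f : P.E →₀ ℤ} (h : Low S P x₀ f) : OnE (lowCf S x₀ ℤ) P f :=
  fun e he => ⟨h e he, AddSubgroup.mem_top _⟩

lemma Low.of_onE {x₀ : K} {f : P.E →₀ ℤ} (h : OnE (lowCf S x₀ ℤ) P f) : Low S P x₀ f :=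
  fun e he => (h e he).1

lemma Low.dim {x₀ : K} {f : P.E →₀ ℤ} (h : Low S P x₀ f) (hx : S.dim x₀ = n) :
    ∀ e, f e ≠ 0 → S.dim (P.cb e) < n := fun e he => by
  rw [← hx]
  exact S.dim_lt _ _ (h e he).1 (h e he).2

lemma Low.rs {x₀ : K} {f : P.E →₀ ℤ} (hG : Good S P D n) (h : Low S P x₀ f) (hx : S.dim x₀ = n) :
    rsE (lowCf S x₀ ℤ) P (lin (P.ext D) f) = lin (P.ext D) f := by
  ext e
  by_cases h1 : lin (P.ext D) f e = 0
  · by_cases h2 : P.cb e ∈ (lowCf S x₀ ℤ).O
    · exact rsE_mem h2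
    · rw [rsE_notMem h2, h1]
  · refine rsE_mem ?_
    obtain ⟨e', he', h2⟩ := exists_of_lin_ne h1
    obtain ⟨h3, h4⟩ := h e' he'
    have h5 := hG.leE (h.dim hx e' he') h2
    refine ⟨S.le_trans _ _ _ h5 h3, fun h6 => ?_⟩
    have h7 := S.dim_lt _ _ h3 h4
    by_cases h8 : P.cb e = P.cb e'
    · exact h4 (h8.symm.trans h6)
    · have h9 := S.dim_lt _ _ h5 h8
      rw [h6] at h9
      exact absurd h7 h9.not_gt

/-- the step of the construction -/
lemma exists_phi (hG : Good S P D n) (a : P.A) (ha : S.dim (P.rep a) = n) :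
    ∃ φ : ∀ q, (P.R a).ι q → (P.E →₀ ℤ),
      (∀ q i, Low S P (P.rep a) (φ q i)) ∧ (∀ q i e, φ q i e ≠ 0 → P.deg S e.2 + 1 = n + q) ∧
      (∀ i, lin (P.ext D) (φ 0 i) = 0) ∧ (∀ i, lin (P.pr S) (φ 0 i) = (P.R a).w i • S.bd (P.rep a)) ∧
      (∀ q i, lin (P.pr S) (φ (q + 1) i) = 0) ∧
      (∀ q i, lin (P.ext D) (φ (q + 1) i) = -lin (W S P a (φ q)) (mxI ((P.R a).d q) (1, i))) := by
  classical
  have main := exists_seq' (X := fun q => (P.R a).ι q → (P.E →₀ ℤ))
    (fun q u => (∀ i, Low S P (P.rep a) (u i)) ∧ (∀ i e, u i e ≠ 0 → P.deg S e.2 + 1 = n + q) ∧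
      (q = 0 → ∀ i, lin (P.ext D) (u i) = 0) ∧
      (∀ h : q = 0, ∀ i : (P.R a).ι q, lin (P.pr S) (u i) = (P.R a).w (h ▸ i) • S.bd (P.rep a)) ∧
      (q ≠ 0 → ∀ i, lin (P.pr S) (u i) = 0) ∧
      (∀ i, lin (P.ext D) (lin (W S P a u) (mxI ((P.R a).d q) (1, i))) = 0) ∧
      (∀ i, lin (P.pr S) (lin (W S P a u) (mxI ((P.R a).d q) (1, i))) = 0))
    (fun q u u' => ∀ i, lin (P.ext D) (u' i) = -lin (W S P a u) (mxI ((P.R a).d q) (1, i))) ?_ ?_
  · obtain ⟨φ, h1, h2⟩ := main
    exact ⟨φ, fun q => (h1 q).1, fun q => (h1 q).2.1, (h1 0).2.2.1 rfl, fun i => (h1 0).2.2.2.1 rfl i,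
      fun q => (h1 (q + 1)).2.2.2.2.1 (Nat.succ_ne_zero q), h2⟩
  · -- degree `0`
    have h0 : ∀ i : (P.R a).ι 0, ∃ b : P.E →₀ ℤ, Low S P (P.rep a) b ∧ (∀ e, b e ≠ 0 → P.deg S e.2 + 1 = n + 0) ∧
        lin (P.ext D) b = 0 ∧ lin (P.pr S) b = (P.R a).w i • S.bd (P.rep a) := by
      intro i
      cases n with
      | zero =>
        have hbd : S.bd (P.rep a) = 0 := by
          ext x
          by_contra h
          have := (S.bd_le _ _ h).2
          omega
        exact ⟨0, fun e he => absurd rfl he, fun e he => absurd rfl he, map_zero _, by rw [map_zero, hbd, smul_zero]⟩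
      | succ n =>
        have hz : ∀ x, ((P.R a).w i • S.bd (P.rep a)) x ≠ 0 → S.le x (P.rep a) ∧ S.dim x + 1 = S.dim (P.rep a) := by
          intro x hx
          refine S.bd_le _ _ fun h => hx ?_
          rw [Finsupp.smul_apply, h, smul_zero]
        obtain ⟨b, c1, c2, c3, c4⟩ := qi (M := ℤ) (C := lowCf S (P.rep a) ℤ) hG n 0 ((P.R a).w i • S.bd (P.rep a))
          (fun e he => absurd rfl he) (fun e he => absurd rfl he)
          (fun x hx => ⟨⟨(hz x hx).1, fun h => by have := (hz x hx).2; rw [h] at this; omega⟩, AddSubgroup.mem_top _⟩)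
          (fun x hx => by have := (hz x hx).2; omega) (by rw [map_zero, rsE_zero])
          (by rw [map_zero, map_zsmul, S.bd_bd, smul_zero, rsK_zero])
        have c1' := Low.of_onE c1
        refine ⟨b, c1', fun e he => by have := (c2 e he).1; omega, ?_, c4⟩
        rw [← c1'.rs hG ha]
        exact c3
    choose b hb using h0
    refine ⟨b, fun i => (hb i).1, fun i => (hb i).2.1, fun _ i => (hb i).2.2.1, fun _ i => (hb i).2.2.2,
      fun h => absurd rfl h, fun i => ?_, fun i => ?_⟩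
    · rw [lin_lin]
      refine lin_zero_of fun x _ => ?_
      unfold W
      rw [map_zsmul, P.lin_ext_sm, (hb x.2).2.2.1, Finsupp.mapDomain_zero, smul_zero]
    · have h1 : ∀ x : Γ × (P.R a).ι 0, lin (P.pr S) (W S P a b x) =
          lin S.bd (Finsupp.single (x.1 • P.rep a) ((P.R a).w x.2)) := by
        intro x
        unfold W
        rw [map_zsmul, P.lin_pr_sm, (hb x.2).2.2.2, map_zsmul, lin_single, smul_comm]
        have h2 := S.bd_smul x.1 (P.rep a)
        have h3 : S.sg x.1 (P.rep a) • lin (S.tr x.1) (S.bd (P.rep a)) = S.bd (x.1 • P.rep a) := by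
          show S.sg x.1 (P.rep a) • lin (fun y => Finsupp.single (x.1 • y) (S.sg x.1 y)) (S.bd (P.rep a)) = _
          rw [← h2, smul_smul, S.sg_sq, one_smul]
        rw [h3]
        ext y
        rw [ms_apply, Finsupp.smul_apply, smul_eq_mul, smul_eq_mul, mul_comm]
      rw [lin_lin, lin_congr fun x _ => h1 x]
      have h4 : lin (fun x : Γ × (P.R a).ι 0 => lin S.bd (Finsupp.single (x.1 • P.rep a) ((P.R a).w x.2)))
          (mxI ((P.R a).d 0) (1, i)) = lin S.bd ((lin (amI (MulAction.stabilizer Γ (P.rep a)) (P.R a).w)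
            (mxI ((P.R a).d 0) (1, i))).mapDomain (P.qk a)) := by
        rw [mapDomain_lin, lin_lin]
        refine lin_congr fun x _ => ?_
        unfold amI
        rw [Finsupp.mapDomain_single, P.qk_mk]
      have h5 : lin (amI (MulAction.stabilizer Γ (P.rep a)) (P.R a).w) (mxI ((P.R a).d 0) (1, i)) = 0 := by
        have h6 := amI_mxI (M := ℤ) (H := MulAction.stabilizer Γ (P.rep a)) (w := (P.R a).w) (B := (P.R a).d 0)
          (fun y => ((P.R a).exact_zero _).2 ⟨y, rfl⟩) (Finsupp.single (1, i) 1)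
        rw [lin_single, ms_one] at h6
        exact h6
      rw [h4, h5, Finsupp.mapDomain_zero, map_zero]
  · -- the step
    rintro q u ⟨u1, u2, u3, u4, u5, u6, u7⟩
    have h0 : ∀ i : (P.R a).ι (q + 1), ∃ b : P.E →₀ ℤ, Low S P (P.rep a) b ∧
        (∀ e, b e ≠ 0 → P.deg S e.2 + 1 = n + (q + 1)) ∧
        lin (P.ext D) b = -lin (W S P a u) (mxI ((P.R a).d q) (1, i)) ∧ lin (P.pr S) b = 0 := by
      intro i
      set f : P.E →₀ ℤ := -lin (W S P a u) (mxI ((P.R a).d q) (1, i)) with hf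
      have hfe : ∀ e, f e ≠ 0 → ∃ g : Γ, g • P.rep a = P.rep a ∧ ∃ l, u l (P.sm g⁻¹ e) ≠ 0 := by
        intro e he
        rw [hf, Finsupp.neg_apply, neg_ne_zero] at he
        obtain ⟨x, hx, h1⟩ := exists_of_lin_ne he
        obtain ⟨γ, hγ⟩ := mxI_supp hx
        have h2 : x.1 • P.rep a = P.rep a := by
          rw [hγ, one_mul]
          exact γ.2
        refine ⟨x.1, h2, x.2, fun h3 => h1 ?_⟩
        unfold W
        rw [Finsupp.smul_apply]
        have h4 : e = P.sm x.1 (P.sm x.1⁻¹ e) := Prod.ext (mul_inv_cancel_left _ _).symm rfl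
        conv_lhs => rw [h4]
        rw [Finsupp.mapDomain_apply (P.sm_inj x.1), h3, smul_zero]
      have hlow : Low S P (P.rep a) f := by
        intro e he
        obtain ⟨g, hg, l, hl⟩ := hfe e he
        obtain ⟨h1, h2⟩ := u1 l _ hl
        rw [P.cb_sm] at h1 h2
        have h3 := S.le_smul g _ _ h1
        rw [smul_inv_smul, hg] at h3
        refine ⟨h3, fun h4 => h2 ?_⟩
        rw [h4, inv_smul_eq_iff, hg]
      have hdeg : ∀ e, f e ≠ 0 → P.deg S e.2 + 1 = n + q := by
        intro e he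
        obtain ⟨g, hg, l, hl⟩ := hfe e he
        have h1 := u2 l _ hl
        exact h1
      obtain ⟨b, c1, c2, c3, c4⟩ := qi (M := ℤ) (C := lowCf S (P.rep a) ℤ) hG (n + q) f 0 hlow.onE
        (fun e he => ⟨hdeg e he, hlow.dim ha e he⟩) (fun x hx => absurd rfl hx) (fun x hx => absurd rfl hx)
        (by rw [hlow.rs hG ha, hf, map_neg, u6, neg_zero]) (by rw [hf, map_neg, u7, neg_zero, map_zero, rsK_zero])
      have c1' := Low.of_onE c1
      refine ⟨b, c1', fun e he => by have := (c2 e he).1; omega, ?_, c4⟩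
      rw [← c1'.rs hG ha]
      exact c3
    choose b hb using h0
    have hW : ∀ x : Γ × (P.R a).ι (q + 1), lin (P.ext D) (W S P a b x) = -lin (W S P a u) (mxI ((P.R a).d q) x) := by
      rintro ⟨g, l⟩
      show lin (P.ext D) (S.sg g (P.rep a) • (b l).mapDomain (P.sm g)) = _
      have h1 : ∀ u : P.E →₀ ℤ, (-u).mapDomain (P.sm g) = -u.mapDomain (P.sm g) := fun u =>
        map_neg (Finsupp.mapDomain.addMonoidHom (P.sm g)) u
      rw [map_zsmul, P.lin_ext_sm, (hb l).2.2.1, h1, smul_neg, W_mx]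
    refine ⟨b, ⟨fun i => (hb i).1, fun i => (hb i).2.1, fun h => absurd h (Nat.succ_ne_zero q),
      fun h => absurd h (Nat.succ_ne_zero q), fun _ i => (hb i).2.2.2, fun i => ?_, fun i => ?_⟩,
      fun i => (hb i).2.2.1⟩
    · rw [lin_lin, lin_congr fun x _ => hW x, lin_neg, ← lin_lin]
      have h6 := mxI_mxI (M := ℤ) (H := MulAction.stabilizer Γ (P.rep a)) (A := (P.R a).d q) (B := (P.R a).d (q + 1))
        (fun y => ((P.R a).exact_succ q _).2 ⟨y, rfl⟩) (Finsupp.single (1, i) 1)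
      rw [lin_single, ms_one] at h6
      rw [h6, map_zero, neg_zero]
    · rw [lin_lin]
      refine lin_zero_of fun x _ => ?_
      unfold W
      rw [map_zsmul, P.lin_pr_sm, (hb x.2).2.2.2, map_zero, smul_zero]

/-- the boundary of the resolution as the image of a basis element -/
lemma top_succ (a : P.A) (q : ℕ) (i : (P.R a).ι (q + 1)) :
    P.top S ⟨a, q + 1, i⟩ = lin (P.twJ S a q) (mxI ((P.R a).d q) (1, i)) := by
  have h1 := P.lin_top_twJ S (M := ℤ) a q (Finsupp.single (1, i) 1)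
  rw [lin_single, lin_single, ms_one, ms_one, P.twJ_eq, lin_single] at h1
  have h2 : S.sg (((1 : Γ), i) : Γ × (P.R a).ι (q + 1)).1 (P.rep a) = 1 := S.sg_one _
  rw [h2, ms_one] at h1
  rw [← h1]
  exact (P.ext_one _ _).symm

open Classical in
/-- the new boundary operator -/
noncomputable def newD (S : SK Γ K) (P : Rps Γ K) (D : P.I → (P.E →₀ ℤ)) (n : ℕ)
    (φ : ∀ a q, (P.R a).ι q → (P.E →₀ ℤ)) (i : P.I) : P.E →₀ ℤ :=
  if S.dim (P.rep i.1) = n then P.top S i + φ i.1 i.2.1 i.2.2 else D i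

/-- **the step of the Wall construction** -/
theorem exists_step (hG : Good S P D n) : ∃ D', Good S P D' (n + 1) := by
  classical
  have h0 : ∀ a : P.A, ∃ φ : ∀ q, (P.R a).ι q → (P.E →₀ ℤ), S.dim (P.rep a) = n →
      (∀ q i, Low S P (P.rep a) (φ q i)) ∧ (∀ q i e, φ q i e ≠ 0 → P.deg S e.2 + 1 = n + q) ∧
      (∀ i, lin (P.ext D) (φ 0 i) = 0) ∧ (∀ i, lin (P.pr S) (φ 0 i) = (P.R a).w i • S.bd (P.rep a)) ∧
      (∀ q i, lin (P.pr S) (φ (q + 1) i) = 0) ∧
      (∀ q i, lin (P.ext D) (φ (q + 1) i) = -lin (W S P a (φ q)) (mxI ((P.R a).d q) (1, i))) := by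
    intro a
    by_cases ha : S.dim (P.rep a) = n
    · obtain ⟨φ, h⟩ := exists_phi hG a ha
      exact ⟨φ, fun _ => h⟩
    · exact ⟨fun _ _ => 0, fun h => absurd h ha⟩
  choose φ hφ using h0
  set D' : P.I → (P.E →₀ ℤ) := newD S P D n φ with hD'
  have e1 : ∀ i : P.I, S.dim (P.rep i.1) < n → D' i = D i := fun i hi => if_neg hi.ne
  have e2 : ∀ i : P.I, S.dim (P.rep i.1) = n → D' i = P.top S i + φ i.1 i.2.1 i.2.2 := fun i hi => if_pos hi
  have e3 : ∀ f : P.E →₀ ℤ, (∀ e, f e ≠ 0 → S.dim (P.cb e) < n) → lin (P.ext D') f = lin (P.ext D) f := by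
    intro f hf
    refine lin_congr fun e he => ?_
    have h1 := hf e (Finsupp.mem_support_iff.1 he)
    rw [dim_cb] at h1
    unfold Rps.ext
    rw [e1 _ h1]
  have cases : ∀ i : P.I, S.dim (P.rep i.1) < n + 1 → S.dim (P.rep i.1) < n ∨ S.dim (P.rep i.1) = n := fun i hi => by
    omega
  refine ⟨D', ?_, ?_, ?_, ?_⟩
  · intro i hi e he
    rcases cases i hi with h | h
    · rw [e1 i h] at he
      exact hG.low i h e he
    · rw [e2 i h, add_sub_cancel_left] at he
      exact (hφ i.1 h).1 _ _ e he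
  · intro i hi e he
    rcases cases i hi with h | h
    · rw [e1 i h] at he
      exact hG.deg i h e he
    · rw [e2 i h, Finsupp.add_apply] at he
      by_cases h1 : P.top S i e = 0
      · rw [h1, zero_add] at he
        have h2 := (hφ i.1 h).2.1 _ _ e he
        rw [h2, ← h]
        rfl
      · obtain ⟨_, h2, h3⟩ := top_supp h1
        have h4 : S.dim (P.rep e.2.1) = S.dim (P.rep i.1) := by rw [h2]
        show S.dim (P.rep e.2.1) + e.2.2.1 + 1 = S.dim (P.rep i.1) + i.2.1
        rw [h4, add_assoc, h3]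
  · intro i hi
    rcases cases i hi with h | h
    · rw [e1 i h, e3, hG.dd i h]
      intro e he
      rw [← P.ext_one D i] at he
      have h1 : S.dim (P.cb ((1, i) : P.E)) < n := by rw [dim_cb]; exact h
      have h2 := hG.leE h1 he
      by_cases h3 : P.cb e = P.cb ((1, i) : P.E)
      · rw [h3]
        exact h1
      · exact (S.dim_lt _ _ h2 h3).trans h1
    · rw [e2 i h, map_add]
      obtain ⟨a, q, i⟩ := i
      have h' : S.dim (P.rep a) = n := h
      obtain ⟨g1, g2, g3, g4, g5, g6⟩ := hφ a h'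
      rw [e3 _ ((g1 _ _).dim h')]
      cases q with
      | zero =>
        show lin (P.ext D') 0 + lin (P.ext D) (φ a 0 i) = 0
        rw [map_zero, g3, zero_add]
      | succ q =>
        show _ + lin (P.ext D) (φ a (q + 1) i) = 0
        rw [g6, top_succ, lin_lin]
        have h1 : ∀ x : Γ × (P.R a).ι q, lin (P.ext D') (P.twJ S a q x) =
            lin (P.ext (P.top S)) (P.twJ S a q x) + W S P a (φ a q) x := by
          intro x
          rw [P.twJ_eq, lin_single, lin_single]
          have h2 : P.ext D' (P.J a q x) = P.ext (P.top S) (P.J a q x) + (φ a q x.2).mapDomain (P.sm x.1) := by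
            unfold Rps.ext
            rw [e2 _ (show S.dim (P.rep (P.J a q x).2.1) = n from h'), Finsupp.mapDomain_add]
            rfl
          rw [h2, ms_add_right]
          congr 1
          ext y
          unfold W
          rw [ms_apply, Finsupp.smul_apply, smul_eq_mul, smul_eq_mul, mul_comm]
        rw [lin_congr fun x _ => h1 x, lin_add, ← lin_lin]
        have h3 : lin (P.ext (P.top S)) (lin (P.twJ S a q) (mxI ((P.R a).d q) (1, i))) = 0 := by
          cases q with
          | zero => exact P.lin_top_twJ0 S a _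
          | succ q =>
            rw [P.lin_top_twJ]
            have h6 := mxI_mxI (M := ℤ) (H := MulAction.stabilizer Γ (P.rep a)) (A := (P.R a).d q)
              (B := (P.R a).d (q + 1)) (fun y => ((P.R a).exact_succ q _).2 ⟨y, rfl⟩) (Finsupp.single (1, i) 1)
            rw [lin_single, ms_one] at h6
            rw [h6, map_zero]
        rw [h3, zero_add, add_neg_cancel]
  · intro i hi
    rcases cases i hi with h | h
    · rw [e1 i h, hG.pi i h]
    · rw [e2 i h, map_add]
      obtain ⟨a, q, i⟩ := i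
      have h' : S.dim (P.rep a) = n := h
      obtain ⟨g1, g2, g3, g4, g5, g6⟩ := hφ a h'
      cases q with
      | zero =>
        show lin (P.pr S) 0 + lin (P.pr S) (φ a 0 i) = lin S.bd (Finsupp.single (P.rep a) ((P.R a).w i))
        rw [map_zero, zero_add, g4, lin_single]
        ext y
        rw [ms_apply, Finsupp.smul_apply, smul_eq_mul, smul_eq_mul, mul_comm]
      | succ q =>
        show _ + lin (P.pr S) (φ a (q + 1) i) = lin S.bd 0
        rw [g5, add_zero, map_zero, top_succ]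
        cases q with
        | zero =>
          rw [P.lin_pr_twJ]
          have h6 := amI_mxI (M := ℤ) (H := MulAction.stabilizer Γ (P.rep a)) (w := (P.R a).w) (B := (P.R a).d 0)
            (fun y => ((P.R a).exact_zero _).2 ⟨y, rfl⟩) (Finsupp.single (1, i) 1)
          rw [lin_single, ms_one] at h6
          rw [h6, Finsupp.mapDomain_zero]
        | succ q => exact P.lin_pr_twJ_succ S a q _

/-- **the Wall construction** -/
theorem exists_good (S : SK Γ K) (P : Rps Γ K) (n : ℕ) : ∃ D, Good S P D n := by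
  induction n with
  | zero =>
    exact ⟨fun _ => 0, fun i hi => absurd hi (Nat.not_lt_zero _), fun i hi => absurd hi (Nat.not_lt_zero _),
      fun i hi => absurd hi (Nat.not_lt_zero _), fun i hi => absurd hi (Nat.not_lt_zero _)⟩
  | succ n ih =>
    obtain ⟨D, hD⟩ := ih
    exact exists_step hD

/-- the boundary operator on all cells -/
theorem exists_all (S : SK Γ K) (P : Rps Γ K) : ∃ (D : P.I → (P.E →₀ ℤ)) (n : ℕ), Good S P D n ∧ ∀ x, S.dim x < n := by
  classical
  let n : ℕ := Finset.univ.sup (fun a => S.dim (P.rep a)) + 1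
  obtain ⟨D, hD⟩ := exists_good S P n
  refine ⟨D, n, hD, fun x => ?_⟩
  obtain ⟨a, g, rfl⟩ := P.ex x
  rw [S.dim_smul]
  exact Nat.lt_succ_of_le (Finset.le_sup (f := fun a => S.dim (P.rep a)) (Finset.mem_univ a))

end step

end Cm
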