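import Pool.Agent.Cm.CubLoc
import Pool.Agent.Cm.WallEx

/-!
# Mirror inequality: the cubes as a signed complex; exactness of the cells

* `cubSK hX` : the cubes of a median graph as a structure `SK G (Cub X)`;
* `allCf`, `locCf` : all coefficients; the antisymmetric coefficients over the cubes which contain `x`;
* `all_ex_succ`, `all_ex_zero`, `loc_exE_succ`, `loc_exE_zero` : exactness of the complexes of the cells.
-/

set_option autoImplicit false
set_option linter.unusedSectionVars false
set_option linter.unusedVariables false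

open scoped Pointwise

namespace Cm

open Npc (Median hs mem_hs dirSet mk_mem_dirSet flip_mk square_of_cross cross_of_square GraphAct)
open Singer

variable {P : Type*} {X : SimpleGraph P} {G : Type*} [Group G] [MulAction G P] [hA : GraphAct G X]

/-- the cubes of a median graph as a signed complex -/
noncomputable def cubSK (hX : Median X) : SK G (Cub X) where
  dim := cdim hX
  dim_smul g C := cdim_smul hX g C
  le C' C := C'.1 ⊆ C.1
  le_refl C := Set.Subset.refl C.1
  le_trans _ _ _ h h' := Set.Subset.trans h h'
  le_smul g C C' h := Set.smul_set_subset_smul_set_iff.2 h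
  dim_lt C C' h hne := cdim_lt hX h hne
  bd := bdK hX
  bd_le C C' h := inc_ne h
  bd_bd C := bdK_bdK C
  sg := sgc hX
  sg_sq g C := sgc_sq g C
  sg_mul g h C := sgc_mul g h C
  bd_smul g C := by
    classical
    ext C'
    obtain ⟨C'', rfl⟩ : ∃ C'', C' = g • C'' := ⟨g⁻¹ • C', (smul_inv_smul g C').symm⟩
    rw [Finsupp.smul_apply, lin_apply, bdK_apply, smul_eq_mul, inc_smul]
    by_cases h : inc hX C C'' = 0
    · rw [h, mul_zero, Finsupp.sum, Finset.sum_eq_zero]
      intro D hD
      show (Finsupp.single (g • D) (sgc hX g D)) (g • C'') • bdK hX C D = 0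
      rw [Finsupp.single_apply]
      by_cases h1 : g • D = g • C''
      · have h2 : D = C'' := smul_left_cancel g h1
        rw [h2, bdK_apply, h, smul_zero]
      · rw [if_neg h1, zero_smul]
    · rw [Finsupp.sum, Finset.sum_eq_single C'']
      · rw [Finsupp.single_eq_same, bdK_apply, smul_eq_mul]
      · intro D hD hne
        rw [Finsupp.single_apply, if_neg, zero_smul]
        intro h1
        exact hne (smul_left_cancel g h1)
      · intro h1
        rw [Finsupp.notMem_support_iff, bdK_apply] at h1
        exact absurd h1 h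

variable {hX : Median X} {M : Type*} [AddCommGroup M]

@[simp] lemma cubSK_dim (C : Cub X) : (cubSK hX : SK G (Cub X)).dim C = cdim hX C := rfl
@[simp] lemma cubSK_bd : (cubSK hX : SK G (Cub X)).bd = bdK hX := rfl
@[simp] lemma cubSK_le (C C' : Cub X) : (cubSK hX : SK G (Cub X)).le C' C ↔ C'.1 ⊆ C.1 := Iff.rfl
@[simp] lemma cubSK_sg : (cubSK hX : SK G (Cub X)).sg = sgc hX := rfl

/-- all coefficients -/
def allCf (S : SK G (Cub X)) (M : Type*) [AddCommGroup M] : Cf S M where
  O := Set.univ
  V _ := ⊤
  mono _ _ _ _ _ := le_refl _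
  lc _ _ _ _ _ _ _ := trivial

/-- the antisymmetric coefficients over the cubes which contain `x` -/
def locCf (hX : Median X) (x : P) (M : Type*) [AddCommGroup M] :
    Cf (cubSK hX : SK G (Cub X)) (RACG (Lk hX x) →₀ M) where
  O := {C | x ∈ C}
  V C := VK hX x M C
  mono _ _ _ _ h := VK_mono h
  lc _ _ _ _ hz h1 h2 := h1 hz

end Cm
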