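import Pool.Agent.Cm.ResE
import Pool.Agent.Cm.Cells
import Pool.Agent.Cm.CubSK

/-!
# Mirror inequality: the cell system over the cubes of a median graph is exact

* `exactOf` : `ES.Exact` for a cell system whose incidence numbers are the numbers `incJ D`.
-/

set_option autoImplicit false
set_option linter.unusedSectionVars false
set_option linter.unusedVariables false

open scoped Pointwise

namespace Cm

open Npc (Median GraphAct)
open Singer

/-- sums over the cells -/
lemma lin_finsum {E F : Type*} (β : E → F →₀ ℤ) (f : E →₀ ℤ) (y : F) : ∑ᶠ e, f e * β e y = lin β f y := by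
  rw [lin_apply, finsum_eq_sum_of_support_subset (s := f.support)]
  · exact Finset.sum_congr rfl fun e _ => (mul_comm _ _).trans (smul_eq_mul _ _).symm
  · intro e he
    rw [Finset.mem_coe, Finsupp.mem_support_iff]
    intro h
    exact he (by
      show f e * β e y = 0
      rw [h, zero_mul])

section ex
variable {H G P : Type*} [Group G] [MulAction G H] {S : Hyp H G} [MulAction G P] {X : SimpleGraph P}
  [hA : GraphAct G X] {hX : Median X} {R : Rps G (Cub X)} {D : R.I → (R.E →₀ ℤ)} {n : ℕ}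

/-- the sign on the vertices is trivial -/
lemma sg_dim_zero (g : G) (C : Cub X) (h : (cubSK hX : SK G (Cub X)).dim C = 0) :
    (cubSK hX : SK G (Cub X)).sg g C = 1 := by
  obtain ⟨y, hy⟩ : ∃ y : SCell (medSq hX) 0, cell y = C := ⟨base hX C h, cell_base h⟩
  show sgc hX g C = 1
  rw [← hy, sgc_eq, ori_zero, ori_zero, one_mul]

lemma rsK_all {M : Type*} [AddCommGroup M] (g : Cub X →₀ M) :
    rsK (allCf (cubSK hX : SK G (Cub X)) M) g = g := by
  ext e
  exact rsK_mem trivial

lemma onJ_all {M : Type*} [AddCommGroup M] {j : ℕ} (f : EJ (cubSK hX : SK G (Cub X)) R j →₀ M) :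
    OnJ (allCf (cubSK hX : SK G (Cub X)) M) f := fun _ _ => ⟨trivial, trivial⟩

lemma aug_incJ (hG : Good (cubSK hX) R D n) (hn : ∀ C : Cub X, cdim hX C < n)
    (e : EJ (cubSK hX : SK G (Cub X)) R 1) : ((incJ D e).sum fun e' m => wJ e' • m) = 0 := by
  refine augJ_bd (M := ℤ) (C := allCf (cubSK hX) ℤ) hG hn (AddMonoidHom.id ℤ) (fun z hz _ => ?_)
    (Finsupp.single e 1) (onJ_all _) (incJ D e) (onJ_all _) fun e' _ => ?_
  · rw [rsK_all]
    have h1 : ∀ C, lin (bdK hX) z C ≠ 0 → cdim hX C = 0 := cdim_lin (j := 0) hz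
    show ((lin (bdK hX) z).sum fun _ m => m) = 0
    rw [← eps_eq h1]
    exact eps_bd z hz
  · rw [lin_single, ms_one]

/-- **the cell system is exact** -/
noncomputable def exactOf (Y : ES S P (EJ (cubSK hX : SK G (Cub X)) R))
    (hinc : ∀ {j} (e : EJ (cubSK hX : SK G (Cub X)) R (j + 1)) (e' : EJ (cubSK hX : SK G (Cub X)) R j),
      Y.inc e e' = incJ D e e')
    (hG : Good (cubSK hX) R D n) (hn : ∀ C : Cub X, cdim hX C < n) : Y.Exact where
  w e := (wJ e : ℂ)
  w_smul g e := by rw [wJ_smul sg_dim_zero]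
  inc_inc j e e'' := by
    have h1 := DFunLike.congr_fun (incJ_incJ hG hn e) e''
    rw [← lin_finsum] at h1
    refine Eq.trans (finsum_congr fun e' => ?_) h1
    rw [hinc, hinc]
  inc_w e := by
    have h1 := aug_incJ hG hn e
    rw [finsum_eq_sum_of_support_subset (s := (incJ D e).support)]
    · have h2 : (((incJ D e).sum fun e' m => wJ e' • m : ℤ) : ℂ) = 0 := by rw [h1, Int.cast_zero]
      rw [← h2]
      unfold Finsupp.sum
      rw [Int.cast_sum]
      refine Finset.sum_congr rfl fun e' _ => ?_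
      show (Y.inc e e' : ℂ) * (wJ e' : ℂ) = ((wJ e' * incJ D e e' : ℤ) : ℂ)
      rw [hinc, Int.cast_mul, mul_comm]
    · intro e' he'
      rw [Finset.mem_coe, Finsupp.mem_support_iff]
      intro h
      exact he' (by
        show (Y.inc e e' : ℂ) * (wJ e' : ℂ) = 0
        rw [hinc, h, Int.cast_zero, zero_mul])
  surj := by
    classical
    obtain ⟨x0⟩ := hX.conn.nonempty
    have hd : ∀ C, (Finsupp.single (cell (vx hX x0)) (1 : ℂ) : Cub X →₀ ℂ) C ≠ 0 →
        (cubSK hX : SK G (Cub X)).dim C = 0 := by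
      intro C h
      rw [Finsupp.single_apply] at h
      by_cases h1 : cell (vx hX x0) = C
      · rw [← h1]
        exact cdim_cell _
      · rw [if_neg h1] at h
        exact absurd rfl h
    obtain ⟨f, _, hf⟩ := augJ_surj (P := R) (C := allCf (cubSK hX : SK G (Cub X)) ℂ) hG hn
      (Finsupp.single (cell (vx hX x0)) (1 : ℂ)) (fun _ _ => ⟨trivial, trivial⟩) hd
    refine ⟨f, ?_⟩
    rw [Finsupp.sum_single_index rfl] at hf
    rw [← hf]
    refine Finset.sum_congr rfl fun e _ => ?_
    exact (zsmul_eq_mul _ _).symm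
  ex_zero f h0 := by
    have h1 : (f.sum fun e m => wJ e • m) = 0 := by
      rw [← h0]
      refine Finset.sum_congr rfl fun e _ => ?_
      exact zsmul_eq_mul _ _
    obtain ⟨b, _, hb⟩ := exJ_zero (C := allCf (cubSK hX : SK G (Cub X)) ℂ) hG hn (AddMonoidHom.id ℂ)
      (fun z hz _ h2 => by
        obtain ⟨y, hy1, hy2⟩ := cub_ex_zero (hX := hX) z hz (by rw [eps_eq hz]; exact h2)
        exact ⟨y, hy1, fun _ _ => ⟨trivial, trivial⟩, fun x _ => by
          show lin (bdK hX) y x = z x
          rw [hy2]⟩) f (onJ_all f) h1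
    refine ⟨b, fun e => ?_⟩
    rw [← hb e trivial, lin_apply]
    refine Finset.sum_congr rfl fun a _ => ?_
    show (Y.inc a e : ℂ) * b a = incJ D a e • b a
    rw [hinc, zsmul_eq_mul]
  ex_succ j f h0 := by
    have h1 : ∀ e, cbJ e ∈ (allCf (cubSK hX : SK G (Cub X)) ℂ).O → lin (incJ D) f e = 0 := by
      intro e _
      rw [← h0 e, lin_apply]
      refine Finset.sum_congr rfl fun a _ => ?_
      show incJ D a e • f a = (Y.inc a e : ℂ) * f a
      rw [hinc, zsmul_eq_mul]
    obtain ⟨b, _, hb⟩ := exJ_succ (C := allCf (cubSK hX : SK G (Cub X)) ℂ) hG hn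
      (fun z hz _ h2 => by
        obtain ⟨y, hy1, hy2⟩ := cub_ex_succ (hX := hX) z hz (Finsupp.ext fun x => h2 x trivial)
        exact ⟨y, hy1, fun _ _ => ⟨trivial, trivial⟩, fun x _ => by
          show lin (bdK hX) y x = z x
          rw [hy2]⟩) f (onJ_all f) h1
    refine ⟨b, fun e => ?_⟩
    rw [← hb e trivial, lin_apply]
    refine Finset.sum_congr rfl fun a _ => ?_
    show (Y.inc a e : ℂ) * b a = incJ D a e • b a
    rw [hinc, zsmul_eq_mul]

end ex

end Cm
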