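import Pool.Agent.Cm.ResM

/-!
# Mirror inequality: exactness at a vertex, with coefficients in the functions on the group of the link

`X.OkM f` : `f : E j →₀ (RACG (X.Sx x).C →₀ ℂ)` is supported on the cells at `x` and antisymmetric for the letters of the
cells; `X.bdM f` : the boundary; `X.augM w f` : the augmentation; `ES.ExactM X x` : exactness of these complexes;
`ES.ExactM.exists_res` : the resolution for the mirrored group of the vertex `x`.
-/

set_option autoImplicit false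
set_option linter.unusedSectionVars false
set_option linter.unusedVariables false

namespace Cm

open Singer (L2 RACG)
open Npc (Cof Orb vd)

variable {H G : Type*} [Group G] [MulAction G H] {S : Hyp H G} {P : Type*} {E : ℕ → Type*} [MulAction G P]
  [∀ j, MulAction G (E j)] (X : ES S P E)

namespace ES

/-- chains with finite support over the cells at `x`, antisymmetric for the letters of the cells -/
structure OkM (x : P) {j : ℕ} (f : E j →₀ (RACG (X.Sx x).C →₀ ℂ)) : Prop where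
  mem : ∀ e, f e ≠ 0 → x ∈ X.V e
  asy : ∀ e (t : X.dr x), (t : H) ∈ X.T e → ∀ w, f e (w * Singer.Racg.gen (X.Sx x).C t) = -f e w

/-- the boundary -/
noncomputable def bdM {M : Type*} [AddCommGroup M] {j : ℕ} (f : E (j + 1) →₀ M) (e' : E j) : M :=
  f.sum fun e m => X.inc e e' • m

/-- the augmentation -/
noncomputable def augM {W : Type*} (w : E 0 → ℂ) (f : E 0 →₀ (W →₀ ℂ)) : ℂ := f.sum fun e m => w e * m.sum fun _ c => c

/-- exactness at the vertex `x` -/
structure ExactM (x : P) where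
  w : E 0 → ℂ
  w_smul : ∀ (g : G) e, w (g • e) = w e
  inc_inc : ∀ j (e : E (j + 2)) (e'' : E j), ∑ᶠ e' : E (j + 1), X.inc e e' * X.inc e' e'' = 0
  aug : ∀ (f : E 1 →₀ (RACG (X.Sx x).C →₀ ℂ)) (f0 : E 0 →₀ (RACG (X.Sx x).C →₀ ℂ)), X.OkM x f → X.OkM x f0 →
    (∀ e', x ∈ X.V e' → X.bdM f e' = f0 e') → augM w f0 = 0
  surj : ∃ f : E 0 →₀ (RACG (X.Sx x).C →₀ ℂ), X.OkM x f ∧ augM w f = 1
  ex_zero : ∀ f : E 0 →₀ (RACG (X.Sx x).C →₀ ℂ), X.OkM x f → augM w f = 0 →
    ∃ g : E 1 →₀ (RACG (X.Sx x).C →₀ ℂ), X.OkM x g ∧ ∀ e', x ∈ X.V e' → X.bdM g e' = f e'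
  ex_succ : ∀ (j : ℕ) (f : E (j + 1) →₀ (RACG (X.Sx x).C →₀ ℂ)), X.OkM x f →
    (∀ e', x ∈ X.V e' → X.bdM f e' = 0) →
    ∃ g : E (j + 2) →₀ (RACG (X.Sx x).C →₀ ℂ), X.OkM x g ∧ ∀ e', x ∈ X.V e' → X.bdM g e' = f e'

variable {x : P} {j : ℕ}

/-- an element of the group of the link, without labels -/
noncomputable def nn (w : RACG (X.Sx x).C) : NN (X.Sx x) Unit := (w, 1)

lemma pw_nn (w : RACG (X.Sx x).C) : pw (X.nn w) = w := rfl

lemma nn_pw (n : NN (X.Sx x) Unit) : X.nn (pw n) = n := nn_ext rfl fun _ => Subsingleton.elim _ _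

/-- the function on the cells -/
noncomputable def toF (f : E j →₀ (RACG (X.Sx x).C →₀ ℂ)) (y : Cell (X.Sx x) Unit (X.Ex x j)) : ℂ := f y.r.e (pw y.n)

lemma toF_as {f : E j →₀ (RACG (X.Sx x).C →₀ ℂ)} (hf : X.OkM x f) : X.AS (X.toF f) where
  fin := by
    classical
    have h1 : Function.support (X.toF f) ⊆ ⋃ e ∈ f.support, ⋃ w ∈ (f e).support,
        {y : Cell (X.Sx x) Unit (X.Ex x j) | y.r.e = e ∧ pw y.n = w} := by
      intro y hy
      have h2 : f y.r.e (pw y.n) ≠ 0 := hy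
      rw [Set.mem_iUnion₂]
      refine ⟨y.r.e, Finsupp.mem_support_iff.2 fun h => h2 (by rw [h, Finsupp.coe_zero, Pi.zero_apply]), ?_⟩
      rw [Set.mem_iUnion₂]
      exact ⟨pw y.n, Finsupp.mem_support_iff.2 h2, rfl, rfl⟩
    refine (Set.Finite.biUnion (Finset.finite_toSet _) fun e _ => Set.Finite.biUnion (Finset.finite_toSet _)
      fun w _ => ?_).subset h1
    refine Set.Subsingleton.finite ?_
    rintro y ⟨h2, h3⟩ y' ⟨h2', h3'⟩
    exact Cell.ext (nn_ext (h3.trans h3'.symm) fun t => Subsingleton.elim _ _) (Ex.ext (h2.trans h2'.symm))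
  asy n e t ht := by
    show f e.e (pw (n * sW t)) = -f e.e (pw n)
    rw [pw_mul, pw_sW]
    exact hf.asy e.e t (X.mem_tT.1 ht) _

lemma exists_toF {F : Cell (X.Sx x) Unit (X.Ex x j) → ℂ} (hF : X.AS F) :
    ∃ f : E j →₀ (RACG (X.Sx x).C →₀ ℂ), X.OkM x f ∧ X.toF f = F := by
  classical
  let f : E j →₀ (RACG (X.Sx x).C →₀ ℂ) :=
    ∑ y ∈ hF.fin.toFinset, Finsupp.single y.r.e (Finsupp.single (pw y.n) (F y))
  have h1 : ∀ (e : X.Ex x j) (w : RACG (X.Sx x).C), f e.e w = F ⟨X.nn w, e⟩ := by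
    intro e w
    show (∑ y ∈ hF.fin.toFinset, Finsupp.single y.r.e (Finsupp.single (pw y.n) (F y)) : E j →₀ _) e.e w = _
    rw [Finsupp.finsetSum_apply, Finsupp.finsetSum_apply]
    have h2 : ∀ y : Cell (X.Sx x) Unit (X.Ex x j), y ≠ ⟨X.nn w, e⟩ →
        (Finsupp.single y.r.e (Finsupp.single (pw y.n) (F y)) : E j →₀ (RACG (X.Sx x).C →₀ ℂ)) e.e w = 0 := by
      intro y hy
      rw [Finsupp.single_apply]
      by_cases h3 : y.r.e = e.e
      · rw [if_pos h3, Finsupp.single_apply, if_neg]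
        intro h4
        refine hy (Cell.ext (nn_ext ?_ fun t => Subsingleton.elim _ _) (Ex.ext h3))
        rw [h4, X.pw_nn]
      · rw [if_neg h3]
        rfl
    by_cases h3 : (⟨X.nn w, e⟩ : Cell (X.Sx x) Unit (X.Ex x j)) ∈ hF.fin.toFinset
    · rw [Finset.sum_eq_single_of_mem _ h3 fun y _ hy => h2 y hy]
      show (Finsupp.single e.e (Finsupp.single (pw (X.nn w)) (F _)) : E j →₀ (RACG (X.Sx x).C →₀ ℂ)) e.e w = _
      rw [Finsupp.single_eq_same, X.pw_nn, Finsupp.single_eq_same]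
    · rw [Finset.sum_eq_zero fun y hy => h2 y fun h => h3 (h ▸ hy)]
      have h4 : F ⟨X.nn w, e⟩ = 0 := by
        by_contra h
        exact h3 (hF.fin.mem_toFinset.2 h)
      exact h4.symm
  have h2 : ∀ e, f e ≠ 0 → x ∈ X.V e := by
    intro e he
    have h3 : (∑ y ∈ hF.fin.toFinset, (Finsupp.single y.r.e (Finsupp.single (pw y.n) (F y)) :
        E j →₀ (RACG (X.Sx x).C →₀ ℂ)) e) ≠ 0 := by
      rw [← Finsupp.finsetSum_apply]
      exact he
    obtain ⟨y, _, hy⟩ := Finset.exists_ne_zero_of_sum_ne_zero h3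
    rw [Finsupp.single_apply] at hy
    by_cases h4 : y.r.e = e
    · rw [← h4]
      exact y.r.h
    · rw [if_neg h4] at hy
      exact absurd rfl hy
  refine ⟨f, ⟨h2, fun e t ht w => ?_⟩, ?_⟩
  · by_cases h3 : x ∈ X.V e
    · rw [h1 ⟨e, h3⟩, h1 ⟨e, h3⟩]
      have h4 := hF.asy (X.nn w) ⟨e, h3⟩ t (X.mem_tT.2 ht)
      rw [← h4]
      congr 2
    · have h4 : f e = 0 := by
        by_contra h
        exact h3 (h2 e h)
      rw [h4, Finsupp.coe_zero, Pi.zero_apply, Pi.zero_apply, neg_zero]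
  · funext y
    show f y.r.e (pw y.n) = F y
    rw [h1, X.nn_pw]

/-- the boundary of the function on the cells -/
lemma dM_toF {f : E (j + 1) →₀ (RACG (X.Sx x).C →₀ ℂ)} (hf : X.OkM x f) (y : Cell (X.Sx x) Unit (X.Ex x j)) :
    X.dM (X.toF f) y = X.bdM f y.r.e (pw y.n) := by
  classical
  unfold dM bdM
  rw [Finsupp.sum, Finsupp.finsetSum_apply]
  refine Finset.sum_bij_ne_zero (fun e _ _ => e.e) ?_ ?_ ?_ ?_
  · intro e he hne
    rw [Finsupp.mem_support_iff]
    intro h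
    refine hne ?_
    show (X.inc e.e y.r.e : ℂ) * f e.e (pw y.n) = 0
    rw [h, Finsupp.coe_zero, Pi.zero_apply, mul_zero]
  · intro e _ _ e' _ _ h
    exact Ex.ext h
  · intro e he hne
    have h1 : x ∈ X.V e := hf.mem e (Finsupp.mem_support_iff.1 he)
    have h2 : X.inc e y.r.e ≠ 0 := by
      intro h
      refine hne ?_
      rw [h, zero_smul]
      rfl
    refine ⟨⟨e, h1⟩, (X.kx x j).mem_cl.2 h2, ?_, rfl⟩
    intro h
    refine hne ?_
    rw [Finsupp.smul_apply, zsmul_eq_mul]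
    exact h
  · intro e he hne
    rw [Finsupp.smul_apply, zsmul_eq_mul]
    rfl

/-- the augmentation of the function on the cells -/
lemma aug_toF (w : E 0 → ℂ) {f : E 0 →₀ (RACG (X.Sx x).C →₀ ℂ)} (hf : X.OkM x f) :
    ∑ᶠ y : Cell (X.Sx x) Unit (X.Ex x 0), w y.r.e * X.toF f y = augM w f := by
  classical
  have hfin := (X.toF_as hf).fin
  rw [finsum_eq_sum_of_support_subset (s := hfin.toFinset) _ (by
    intro y hy
    rw [Finset.mem_coe, hfin.mem_toFinset]
    exact right_ne_zero_of_mul hy)]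
  unfold augM
  rw [Finsupp.sum]
  have h1 : ∀ e ∈ f.support, w e * ((f e).sum fun _ c => c) =
      ∑ y ∈ hfin.toFinset.filter (fun y => y.r.e = e), w y.r.e * X.toF f y := by
    intro e he
    rw [Finsupp.sum, Finset.mul_sum]
    have hx : x ∈ X.V e := hf.mem e (Finsupp.mem_support_iff.1 he)
    symm
    refine Finset.sum_bij' (fun y _ => pw y.n) (fun v _ => (⟨X.nn v, ⟨e, hx⟩⟩ : Cell (X.Sx x) Unit (X.Ex x 0))) ?_ ?_ ?_ ?_ ?_
    · intro y hy
      obtain ⟨h2, rfl⟩ := Finset.mem_filter.1 hy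
      exact Finsupp.mem_support_iff.2 (hfin.mem_toFinset.1 h2)
    · intro v hv
      refine Finset.mem_filter.2 ⟨hfin.mem_toFinset.2 ?_, rfl⟩
      exact Finsupp.mem_support_iff.1 hv
    · intro y hy
      obtain ⟨h2, rfl⟩ := Finset.mem_filter.1 hy
      exact Cell.ext (X.nn_pw _) rfl
    · intro v hv
      rfl
    · intro y hy
      obtain ⟨h2, rfl⟩ := Finset.mem_filter.1 hy
      rfl
  rw [Finset.sum_congr rfl h1]
  refine (Finset.sum_fiberwise_of_maps_to (fun y hy => ?_) _).symm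
  rw [Finsupp.mem_support_iff]
  intro h
  refine (hfin.mem_toFinset.1 hy) ?_
  show f y.r.e (pw y.n) = 0
  rw [h]
  rfl

variable [∀ j, Cof G (E j)]

/-- the resolution for the mirrored group of the vertex `x` -/
theorem ExactM.exists_res (h : X.ExactM x) :
    ∃ R : Singer.Res.{0} (Gh (X.Sx x) Unit), ∀ i, R.toPreRes.toHC.h i = X.bx x i := by
  refine X.exists_resM x h.inc_inc h.w h.w_smul ?_ ?_ ?_ ?_
  · intro F hF
    obtain ⟨f, hf, rfl⟩ := X.exists_toF hF
    have h1 : X.AS (X.dM (X.toF f)) := by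
      refine ⟨?_, X.dM_asy hF.asy⟩
      have h2 : Function.support (X.dM (X.toF f)) ⊆ ⋃ z ∈ Function.support (X.toF f),
          (fun e => (⟨z.n, e⟩ : Cell (X.Sx x) Unit (X.Ex x 0))) '' {e | (X.kx x 0).d z.r e ≠ 0} := by
        intro y hy
        obtain ⟨e, he, hne⟩ := Finset.exists_ne_zero_of_sum_ne_zero hy
        rw [Set.mem_iUnion₂]
        exact ⟨⟨y.n, e⟩, right_ne_zero_of_mul hne, y.r, (X.kx x 0).mem_cl.1 he, rfl⟩
      exact (Set.Finite.biUnion hF.fin fun z _ => ((X.kx x 0).row z.r).1.image _).subset h2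
    obtain ⟨f0, hf0, h2⟩ := X.exists_toF h1
    have h3 := h.aug f f0 hf hf0 fun e' he' => by
      ext v
      have h4 := congrFun h2 ⟨X.nn v, ⟨e', he'⟩⟩
      rw [X.dM_toF hf] at h4
      exact h4.symm
    rw [← h3, ← X.aug_toF h.w hf0, h2]
  · obtain ⟨f, hf, hf1⟩ := h.surj
    exact ⟨X.toF f, X.toF_as hf, by rw [X.aug_toF h.w hf, hf1]⟩
  · intro F hF h0
    obtain ⟨f, hf, rfl⟩ := X.exists_toF hF
    rw [X.aug_toF h.w hf] at h0
    obtain ⟨g, hg, hgf⟩ := h.ex_zero f hf h0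
    refine ⟨X.toF g, X.toF_as hg, ?_⟩
    funext y
    rw [X.dM_toF hg, hgf _ y.r.h]
    rfl
  · intro j F hF h0
    obtain ⟨f, hf, rfl⟩ := X.exists_toF hF
    obtain ⟨g, hg, hgf⟩ := h.ex_succ j f hf fun e' he' => by
      ext v
      have h4 := congrFun h0 ⟨X.nn v, ⟨e', he'⟩⟩
      rw [X.dM_toF hf] at h4
      exact h4
    refine ⟨X.toF g, X.toF_as hg, ?_⟩
    funext y
    rw [X.dM_toF hg, hgf _ y.r.h]
    rfl

end ES

end Cm
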