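import Pool.Agent.Cm.CubES
import Pool.Agent.Cm.ResE2
import Pool.Agent.Cm.ResM2

/-!
# Mirror inequality: the resolutions of the vertex groups for the cubes of a median graph

* `cubExactM` : exactness at the vertex `x` of the cell system over the cubes of a median graph;
* `cub_exists_resM` : the resolution for the mirrored group of the vertex `x`.
-/

set_option autoImplicit false
set_option linter.unusedSectionVars false
set_option linter.unusedVariables false

namespace Cm

open Npc (Median GraphAct)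
open Singer (RACG)

variable {P : Type*} {X : SimpleGraph P} {G : Type*} [Group G] [MulAction G P] [hA : GraphAct G X]
variable {hX : Median X}
variable {R : Rps G (Cub X)} {D : R.I → (R.E →₀ ℤ)} {n : ℕ}
variable (hG : Good (cubSK hX) R D n) (hn : ∀ C : Cub X, cdim hX C < n) {x : P} {j : ℕ}

lemma okM_iff {f : EJ (cubSK hX) R j →₀ (RACG (Lk hX x) →₀ ℂ)} : (cubES hG hn).OkM x f ↔ LocJ x f := by
  constructor
  · intro h
    exact ⟨fun e he => (mem_cubES_V hG hn).1 (h.mem e he), fun e t ht w => h.asy e t ht w⟩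
  · intro h
    exact ⟨fun e he => (mem_cubES_V hG hn).2 (h.mem e he), fun e t ht w => h.anti e t ht w⟩

lemma bdM_eq (f : EJ (cubSK hX) R (j + 1) →₀ (RACG (Lk hX x) →₀ ℂ)) (e : EJ (cubSK hX) R j) :
    (cubES hG hn).bdM f e = lin (incJ D) f e := (lin_apply _ _ _).symm

lemma augM_eq (f : EJ (cubSK hX) R 0 →₀ (RACG (Lk hX x) →₀ ℂ)) :
    ES.augM (fun e : EJ (cubSK hX) R 0 => (wJ e : ℂ)) f = sumW _ ℂ (f.sum fun e m => wJ e • m) := by
  unfold ES.augM Finsupp.sum
  rw [map_sum]
  refine Finset.sum_congr rfl fun e _ => ?_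
  rw [map_zsmul, zsmul_eq_mul]
  rfl

/-- **exactness at the vertex `x`** -/
noncomputable def cubExactM (x : P) : (cubES hG hn).ExactM x where
  w e := (wJ e : ℂ)
  w_smul g e := by rw [cub_wJ_smul]
  inc_inc j e e'' := by
    have h1 := DFunLike.congr_fun (incJ_incJ hG hn e) e''
    rw [← lin_finsum] at h1
    exact h1
  aug f f0 hf hf0 h := by
    have h1 := locJ_bd (M := ℂ) hG hn f ((okM_iff hG hn).1 hf) f0 ((okM_iff hG hn).1 hf0) fun e he =>
      (bdM_eq hG hn f e).symm.trans (h e ((mem_cubES_V hG hn).2 he))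
    exact (augM_eq f0).trans h1
  surj := by
    obtain ⟨f, hf, h1⟩ := locJ_surj (M := ℂ) (x := x) hG hn 1
    exact ⟨f, (okM_iff hG hn).2 hf, (augM_eq f).trans h1⟩
  ex_zero f hf h0 := by
    obtain ⟨b, hb, h1⟩ := locJ_zero (M := ℂ) hG hn f ((okM_iff hG hn).1 hf) ((augM_eq f).symm.trans h0)
    exact ⟨b, (okM_iff hG hn).2 hb, fun e he => (bdM_eq hG hn b e).trans (h1 e ((mem_cubES_V hG hn).1 he))⟩
  ex_succ j f hf h0 := by
    obtain ⟨b, hb, h1⟩ := locJ_succ (M := ℂ) hG hn f ((okM_iff hG hn).1 hf) fun e he =>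
      (bdM_eq hG hn f e).symm.trans (h0 e ((mem_cubES_V hG hn).2 he))
    exact ⟨b, (okM_iff hG hn).2 hb, fun e he => (bdM_eq hG hn b e).trans (h1 e ((mem_cubES_V hG hn).1 he))⟩

/-- **the resolution for the mirrored group of the vertex `x`** -/
theorem cub_exists_resM (x : P) :
    ∃ Q : Singer.Res.{0} (Gh ((cubES hG hn).Sx x) Unit), ∀ i, Q.toPreRes.toHC.h i = (cubES hG hn).bx x i :=
  (cubExactM hG hn x).exists_res

end Cm
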