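import Pool.Agent.Cm.Fin
import Pool.Agent.Cm.ResM3
import Pool.Agent.Cm.IsCube
import Pool.Agent.Cm.Iso
import Pool.Agent.Cm.Pres

/-!
# Mirror inequality: cocompact actions on `CAT(0)` cube complexes

* `CubicalAction.fin_orb`, `CubicalAction.exists_rps` : representatives of the orbits of cubes;
* `cm_le` : the inequality `b_i(Γ) ≤ ∑_x b_i(M(x))` for resolutions.
-/

set_option autoImplicit false
set_option linter.unusedSectionVars false
set_option linter.unusedVariables false

open scoped Pointwise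

namespace Cm

open Npc (Median dirSet GraphAct Orb Cof)
open Singer CubeComplex

section act
variable {Γ X : Type} [Group Γ] [MulAction Γ X] {M : SimpleGraph X}

theorem graphAct_of (h : CubicalAction Γ M) : GraphAct Γ M :=
  ⟨fun g x y => ⟨fun h1 => by
    have h2 := h.act g⁻¹ _ _ h1
    rwa [inv_smul_smul, inv_smul_smul] at h2, h.act g x y⟩⟩

variable [hA : GraphAct Γ M]

/-- finitely many orbits of cubes -/
theorem fin_orb (hX : Median M) (h : CubicalAction Γ M) : Finite (Orb Γ (Cub M)) := by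
  classical
  obtain ⟨F, hF, h1⟩ := h.cocompact
  have h2 : ∀ C : Cub M, ∃ D ∈ F, ∃ g : Γ, g • D = C.1 := fun C => h1 _ C.1 (cub_isCube hX C rfl)
  have h3 : ∀ q : Orb Γ (Cub M), ∃ D : F, ∃ g : Γ, g • D.1 = q.out.1 := fun q => by
    obtain ⟨D, hD, hg⟩ := h2 q.out
    exact ⟨⟨D, hD⟩, hg⟩
  choose d hd using h3
  have : Finite F := hF.to_subtype
  refine Finite.of_injective d fun q q' hqq => ?_
  obtain ⟨g, hg⟩ := hd q
  obtain ⟨g', hg'⟩ := hd q'
  rw [← hqq] at hg'
  have h4 : (g * g'⁻¹) • q'.out = q.out := by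
    refine Cub.ext' ?_
    show (g * g'⁻¹) • q'.out.1 = q.out.1
    rw [← hg', mul_smul, inv_smul_smul, hg]
  rw [← Quotient.out_eq' q, ← Quotient.out_eq' q']
  exact Quotient.sound' ⟨_, h4⟩

/-- the stabilizers of the cubes -/
theorem stab_eq (C : Cub M) : MulAction.stabilizer Γ C = MulAction.stabilizer Γ C.1 := by
  ext g
  rw [MulAction.mem_stabilizer_iff, MulAction.mem_stabilizer_iff]
  exact ⟨fun h => congrArg Subtype.val h, fun h => Cub.ext' h⟩

theorem exists_rps_cub (hX : Median M) (h : CubicalAction Γ M) : Nonempty (Rps Γ (Cub M)) := by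
  refine exists_rps (fin_orb hX h) fun C => ?_
  rw [stab_eq]
  exact h.fin _ C.1 (cub_isCube hX C rfl)

/-- the mirrored group of a vertex is the semidirect product -/
theorem exists_mEquiv {hX : Median M} {R : Rps Γ (Cub M)} {D : R.I → (R.E →₀ ℤ)} {n : ℕ}
    (hG : Good (cubSK hX) R D n) (hn : ∀ C : Cub M, cdim hX C < n) (x : X) :
    Nonempty (MirGroup Γ M x ≃* Gh ((cubES hG hn).Sx x) Unit) := by
  refine ⟨mEquiv M x ((cubES hG hn).Sx x) (lkIso hX x).toEquiv (fun a b => ?_) fun g a => ?_⟩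
  · exact ((lkIso hX x).map_rel_iff' (a := a) (b := b)).symm
  · have hg : (g : Γ) • x = x := g.2
    have ha : M.Adj x ((g : Γ) • (a : X)) := by
      have h1 := (hA.adj (g : Γ) x a).2 a.2
      rwa [hg] at h1
    have h1 := lkIso_smul hX x (g : Γ) hg a ha
    have h2 : lkIso hX x ⟨(g : Γ) • (a : X), ha⟩ = g • (show (cubES hG hn).dr x from lkIso hX x a) :=
      Subtype.ext h1
    have h3 : (lkIso hX x).toEquiv.symm (g • (show (cubES hG hn).dr x from lkIso hX x a)) =
        ⟨(g : Γ) • (a : X), ha⟩ := by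
      rw [← h2]
      exact (lkIso hX x).toEquiv.symm_apply_apply _
    exact (congrArg Subtype.val h3).symm

end act

section main
variable {Γ X : Type} [Group Γ] [MulAction Γ X] {M : SimpleGraph X}

/-- the inequalities for representatives of the orbits of vertices; `ES.alt b i` is the alternating sum
`b i - b (i - 1) + ...` -/
theorem cm_strong (h : CubicalAction Γ M) {τ : Type*} [Fintype τ] (x : τ → X)
    (hx : ∀ k : X, ∃! q : τ, ∃ g : Γ, g • x q = k) :
    ∃ SM : ∀ q, Res.{0} (MirGroup Γ M (x q)), ∀ (S : Res.{0} Γ) (i : ℕ),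
      S.toHC.h i ≤ ∑ q, (SM q).toHC.h i ∧ ES.alt S.toHC.h i ≤ ∑ q, ES.alt (SM q).toHC.h i := by
  classical
  have hA : GraphAct Γ M := graphAct_of h
  have hX : Median M := median_of h.median
  obtain ⟨R⟩ := exists_rps_cub hX h
  obtain ⟨D, n, hG, hn⟩ := exists_all (cubSK hX) R
  have hn' : ∀ C : Cub M, cdim hX C < n := hn
  have h1 : ∀ q, ∃ S : Res.{0} (MirGroup Γ M (x q)), ∀ i, S.toHC.h i = (cubES hG hn').bx (x q) i := by
    intro q
    obtain ⟨T, hT⟩ := cub_exists_resM hG hn' (x q)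
    obtain ⟨e⟩ := exists_mEquiv hG hn' (x q)
    obtain ⟨T', hT'⟩ := Res.exists_iso e T
    exact ⟨T', fun i => (hT' i).trans (hT i)⟩
  choose SM hSM using h1
  refine ⟨SM, fun S i => ⟨(h_le_bx hG hn' hx S i).trans (le_of_eq ?_), (h_alt_le_bx hG hn' hx S i).trans (le_of_eq ?_)⟩⟩
  · exact Finset.sum_congr rfl fun q _ => (hSM q i).symm
  · refine Finset.sum_congr rfl fun q _ => ?_
    rw [show (SM q).toHC.h = (cubES hG hn').bx (x q) from funext (hSM q)]

/-- the inequality for representatives of the orbits of vertices -/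
theorem cm_repr (h : CubicalAction Γ M) {τ : Type*} [Fintype τ] (x : τ → X)
    (hx : ∀ k : X, ∃! q : τ, ∃ g : Γ, g • x q = k) :
    ∃ SM : ∀ q, Res.{0} (MirGroup Γ M (x q)), ∀ (S : Res.{0} Γ) (i : ℕ),
      S.toHC.h i ≤ ∑ q, (SM q).toHC.h i := by
  obtain ⟨SM, h1⟩ := cm_strong h x hx
  exact ⟨SM, fun S i => (h1 S i).1⟩

/-- representatives of the orbits in a family of vertices which meets all orbits -/
theorem exists_repr {J : Type*} [Fintype J] (x : J → X) (hx : ∀ v, ∃ (j : J) (g : Γ), g • x j = v) :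
    ∃ I : Finset J, ∀ k : X, ∃! q : I, ∃ g : Γ, g • x q.1 = k := by
  classical
  have h1 : ∀ q : Orb Γ X, ∃ j : J, (Quotient.mk'' (x j) : Orb Γ X) = q := by
    intro q
    obtain ⟨j, g, hg⟩ := hx q.out
    refine ⟨j, ?_⟩
    rw [← Quotient.out_eq' q]
    exact Quotient.sound' ⟨g⁻¹, by
      show g⁻¹ • q.out = x j
      rw [← hg, inv_smul_smul]⟩
  choose c hc using h1
  refine ⟨Finset.univ.filter fun j => c (Quotient.mk'' (x j)) = j, fun k => ?_⟩
  have h2 : ∀ j, (∃ g : Γ, g • x j = k) ↔ (Quotient.mk'' (x j) : Orb Γ X) = Quotient.mk'' k := by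
    intro j
    constructor
    · rintro ⟨g, hg⟩
      exact (Quotient.sound' (s₁ := MulAction.orbitRel Γ X) ⟨g, hg⟩).symm
    · intro h
      obtain ⟨g, hg⟩ : ∃ g : Γ, g • x j = k := Quotient.exact' h.symm
      exact ⟨g, hg⟩
  refine ⟨⟨c (Quotient.mk'' k), Finset.mem_filter.2 ⟨Finset.mem_univ _, by rw [hc]⟩⟩, (h2 _).2 (hc _), ?_⟩
  rintro ⟨j, hj⟩ h
  have h3 := (h2 j).1 h
  refine Subtype.ext ?_
  show j = c (Quotient.mk'' k)
  rw [← (Finset.mem_filter.1 hj).2, h3]

/-- **the mirror inequality**, for resolutions: the right hand side is a sum over representatives of the orbits in the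
given family of vertices -/
theorem cm_le (h : CubicalAction Γ M) {J : Type*} [Fintype J] (x : J → X)
    (hx : ∀ v, ∃ (j : J) (g : Γ), g • x j = v) :
    ∃ (I : Finset J) (SM : ∀ j : I, Res.{0} (MirGroup Γ M (x j.1))), ∀ (S : Res.{0} Γ) (i : ℕ),
      S.toHC.h i ≤ ∑ j : I, (SM j).toHC.h i := by
  obtain ⟨I, hI⟩ := exists_repr x hx
  obtain ⟨SM, h1⟩ := cm_repr h (fun q : I => x q.1) hI
  exact ⟨I, SM, h1⟩

end main

end Cm
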