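import Pool.Agent.Cm.Special
import Pool.Agent.Cm.CubK
import Pool.Agent.Cm.Main
import Pool.Agent.Cm.BetStmt

/-!
# The groups in the classes `Van i` have the bound `0`

* `ofSK` : complexes of signed permutation modules, for the structure of the statement;
* `complexAction_cub` : actions on `CAT(0)` cube complexes are actions on acyclic complexes;
* `bet_cub` : the sum of the bounds for the stabilizers of the cubes;
* `bet_of`, `bet_of_van` : `Van i Γ → Bet i Γ 0`.
-/

set_option autoImplicit false
set_option linter.unusedSectionVars false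
set_option linter.unusedVariables false

open scoped Pointwise

namespace Cm.B

open Singer CubeComplex Cm
open Npc (Median GraphAct Orb)

section sk
variable {Γ K : Type} [Group Γ] [MulAction Γ K]

/-- complexes of signed permutation modules -/
noncomputable def ofSK (S : SK Γ K) : GComplex Γ K where
  dim := S.dim
  bd := S.bd
  sg := S.sg
  dim_smul := S.dim_smul
  bd_dim x y h := (S.bd_le x y h).2
  bd_bd x z := by
    have h1 := DFunLike.congr_fun (S.bd_bd x) z
    rw [lin_apply, Finsupp.zero_apply] at h1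
    rw [← h1]
    refine Finset.sum_congr rfl fun y _ => ?_
    show S.bd x y * S.bd y z = S.bd y z • S.bd x y
    rw [smul_eq_mul, mul_comm]
  sg_sq := S.sg_sq
  sg_mul := S.sg_mul
  bd_smul g x y := by
    classical
    have h1 := DFunLike.congr_fun (S.bd_smul g x) (g • y)
    rw [Finsupp.smul_apply, smul_eq_mul, lin_apply, Finsupp.sum_eq_single y] at h1
    · rw [h1, Finsupp.single_eq_same, smul_eq_mul]
    · intro b _ hb
      rw [Finsupp.single_apply, if_neg (fun h => hb (smul_left_cancel g h)), zero_smul]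
    · intro _
      exact smul_zero _

theorem ofSK_acyclic {S : SK Γ K} (h : AcyK S) : (ofSK S).Acyclic where
  vertex := h.ne
  sg_vertex := h.sg0
  aug := h.aug
  exact_zero z hz h0 := by
    obtain ⟨y, hy, h1⟩ := h.zero z hz h0
    refine ⟨y, hy, fun k => ?_⟩
    rw [← h1, lin_apply]
    refine Finset.sum_congr rfl fun x _ => ?_
    show (S.bd x k : ℂ) * y x = S.bd x k • y x
    rw [zsmul_eq_mul]
  exact_succ p z hz h0 := by
    obtain ⟨y, hy, h1⟩ := h.succ p z hz (by
      ext k
      rw [lin_apply, Finsupp.zero_apply, ← h0 k]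
      refine Finset.sum_congr rfl fun x _ => ?_
      show S.bd x k • z x = (S.bd x k : ℂ) * z x
      rw [zsmul_eq_mul])
    refine ⟨y, hy, fun k => ?_⟩
    rw [← h1, lin_apply]
    refine Finset.sum_congr rfl fun x _ => ?_
    show (S.bd x k : ℂ) * y x = S.bd x k • y x
    rw [zsmul_eq_mul]

end sk

section cub
variable {Γ X : Type} [Group Γ] [MulAction Γ X] {M : SimpleGraph X} [hA : GraphAct Γ M]

/-- **actions on `CAT(0)` cube complexes are actions on acyclic complexes**; the given cube is the first one in the list -/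
theorem complexAction_cub (h : CubicalAction Γ M) (hX : Median M) (C : Cub M) : ∃ (m : ℕ) (x : Fin (m + 1) → Cub M),
    ComplexAction (ofSK (cubSK hX : SK Γ (Cub M))) x ∧ x 0 = C := by
  classical
  obtain ⟨P⟩ := exists_rps_cub hX h
  let e : P.A ≃ Fin (Fintype.card P.A) := Fintype.equivFin P.A
  refine ⟨Fintype.card P.A, Fin.cons C fun a => P.rep (e.symm a), ⟨ofSK_acyclic (acyK_cub hX), fun k => ?_, fun k => ?_⟩,
    rfl⟩
  · obtain ⟨a, g, hg⟩ := P.ex k
    refine ⟨(e a).succ, g, ?_⟩
    rw [Fin.cons_succ, Equiv.symm_apply_apply]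
    exact hg
  · rw [stab_eq]
    exact h.fin _ k.1 (cub_isCube hX k rfl)

end cub

/-- the bounds are invariant under isomorphisms -/
theorem Bet.iso {i : ℕ} {Γ H : Type} [Group Γ] [Group H] {c : ℝ} (e : H ≃* Γ) (h : Bet i H c) : Bet i Γ c := by
  have h1 : e.toMonoidHom.range = ⊤ := MonoidHom.range_eq_top.2 e.surjective
  have h2 : e.toMonoidHom.range.FiniteIndex := by
    rw [h1]
    infer_instance
  have h3 := Bet.sup e.toMonoidHom e.injective h2 h
  rwa [h1, Subgroup.index_top, Nat.cast_one, div_one] at h3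

section cub
variable {Γ X : Type} [Group Γ] [MulAction Γ X] {M : SimpleGraph X}

/-- the bound `0` from the stabilizers of the cubes -/
theorem bet_cub {i : ℕ} (h : CubicalAction Γ M)
    (hb : ∀ j n, j + n = i → ∀ C, IsCube M n C → Bet j (MulAction.stabilizer Γ C) 0) : Bet i Γ 0 := by
  have hA : GraphAct Γ M := graphAct_of h
  have hX : Median M := median_of h.median
  obtain ⟨x0⟩ := hX.conn.nonempty
  obtain ⟨m, x, hx, -⟩ := complexAction_cub h hX (cell (vx hX x0))
  have h1 := Bet.cells (i := i) _ x (fun _ => 0) hx (fun _ => le_refl _) fun j q hq => by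
    rw [stab_eq]
    exact hb q _ hq _ (cub_isCube hX (x j) rfl)
  rwa [Finset.sum_const_zero] at h1

/-- vertices are cubes -/
lemma exists_cub_zero (hX : Median M) (w : X) : ∃ C : Cub M, C.1 = {w} ∧ cdim hX C = 0 := by
  refine exists_cub hX ⟨fun _ => w, fun a b _ => Subsingleton.elim a b, Set.range_const, fun a b => ?_⟩
  exact ⟨fun h => absurd h (M.irrefl), fun ⟨k, _⟩ => k.elim0⟩

/-- the bound `0` from the mirrored groups -/
theorem bet_mirror {i : ℕ} (h : CubicalAction Γ M) (hb : ∀ x, Bet i (MirGroup Γ M x) 0) : Bet i Γ 0 := by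
  classical
  have hA : GraphAct Γ M := graphAct_of h
  have hX : Median M := median_of h.median
  obtain ⟨P⟩ := exists_rps_cub hX h
  let e : P.A ≃ Fin (Fintype.card P.A) := Fintype.equivFin P.A
  have h0 : ∀ C : Cub M, ∃ v : X, v ∈ C := by
    intro C
    obtain ⟨f, -, hf, -⟩ := cub_isCube hX C rfl
    refine ⟨f fun _ => false, ?_⟩
    show f (fun _ => false) ∈ C.1
    rw [← hf]
    exact ⟨_, rfl⟩
  choose v hv using h0
  have h1 := Bet.mirror (i := i) M (fun a => v (P.rep (e.symm a))) (fun _ => 0) h (fun w => by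
    obtain ⟨C, hC, -⟩ := exists_cub_zero hX w
    obtain ⟨a, g, hg⟩ := P.ex C
    refine ⟨e a, g, ?_⟩
    rw [Equiv.symm_apply_apply]
    have h2 : g • v (P.rep a) ∈ (g • P.rep a).1 := Set.smul_mem_smul_set (hv _)
    rw [hg, hC] at h2
    exact h2) (fun _ => le_refl _) fun j => hb _
  rwa [Finset.sum_const_zero] at h1

end cub

section tree
open SQ.V (TreeAction)
variable {Γ V : Type} [Group Γ] [MulAction Γ V] {T : SimpleGraph V} {F : Finset V}

/-- the bound `0` for the stabilizers of the vertices of a tree -/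
theorem bet_vertex {i : ℕ} (v : V) (h : TreeAction Γ T F) (h0 : Bet i Γ 0)
    (hb : ∀ v w, T.Adj v w → Bet i (MulAction.stabilizer Γ v ⊓ MulAction.stabilizer Γ w : Subgroup Γ) 0) :
    Bet i (MulAction.stabilizer Γ v) 0 := by
  have hc := CubicalAction.of_tree h.tree h.act h.inv h.vert h.edge h.finV h.finE
  have hA : GraphAct Γ T := graphAct_of hc
  have hX : Median T := median_of hc.median
  obtain ⟨C, hC, hC0⟩ := exists_cub_zero hX v
  obtain ⟨m, x, hx, h1⟩ := complexAction_cub hc hX C
  have hd : (ofSK (cubSK hX : SK Γ (Cub T))).dim (x 0) = 0 := by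
    rw [h1]
    exact hC0
  have h2 := Bet.cell (n := i) (q := i) _ x (fun _ => 0) 0 0 hx (fun _ => le_refl _) (by rw [hd, add_zero]) h0
    (fun j r hj _ => absurd hj (by rw [hd]; exact Nat.not_lt_zero _)) fun j r hj hr => by
    rw [hd] at hj
    rw [stab_eq]
    have hcube : IsCube T _ (x j).1 := cub_isCube hX (x j) rfl
    rcases tree_cube h.tree hcube with ⟨h3, -⟩ | ⟨h3, v', w', hvw, h4⟩
    · exact absurd h3 (Nat.pos_iff_ne_zero.1 hj)
    · have h5 : (ofSK (cubSK hX : SK Γ (Cub T))).dim (x j) = 1 := h3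
      rw [h4, stab_edge h.inv hvw, show r = i by omega]
      exact hb v' w' hvw
  rw [Finset.sum_const_zero, add_zero, stab_eq, h1, hC, stab_vertex] at h2
  exact h2

/-- the bound `0` for the stabilizers of the edges of a tree -/
theorem bet_edge {i : ℕ} (v w : V) (h : TreeAction Γ T F) (h0 : Bet (i + 1) Γ 0)
    (hb : ∀ x ∈ F, Bet i (MulAction.stabilizer Γ x) 0) (hvw : T.Adj v w) :
    Bet i (MulAction.stabilizer Γ v ⊓ MulAction.stabilizer Γ w : Subgroup Γ) 0 := by
  have hc := CubicalAction.of_tree h.tree h.act h.inv h.vert h.edge h.finV h.finE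
  have hA : GraphAct Γ T := graphAct_of hc
  have hX : Median T := median_of hc.median
  obtain ⟨C, hC, hC0⟩ : ∃ C : Cub T, C.1 = {v, w} ∧ cdim hX C = 1 := by
    classical
    refine exists_cub hX ⟨fun a => if a 0 then v else w, fun a b hab => ?_, ?_, fun a b => ?_⟩
    · funext k
      have hk : k = 0 := Subsingleton.elim _ _
      subst hk
      cases h1 : a 0 <;> cases h2 : b 0 <;> simp only [h1, h2] at hab ⊢
      · exact absurd hab.symm hvw.ne
      · exact absurd hab hvw.ne
    · ext z
      constructor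
      · rintro ⟨a, rfl⟩
        cases h1 : a 0
        · right
          simp [h1]
        · left
          simp [h1]
      · rintro (rfl | rfl)
        · exact ⟨fun _ => true, rfl⟩
        · exact ⟨fun _ => false, rfl⟩
    · have e1 : (∃ k : Fin 1, ∀ l, a l ≠ b l ↔ l = k) ↔ a 0 ≠ b 0 := by
        constructor
        · rintro ⟨k, hk⟩
          exact (hk 0).2 (Subsingleton.elim _ _)
        · intro h1
          refine ⟨0, fun l => ?_⟩
          have hl : l = 0 := Subsingleton.elim _ _
          subst hl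
          exact ⟨fun _ => rfl, fun _ => h1⟩
      rw [e1]
      show T.Adj (if a 0 = true then v else w) (if b 0 = true then v else w) ↔ a 0 ≠ b 0
      cases a 0 <;> cases b 0
      · exact ⟨fun h1 => absurd h1 T.irrefl, fun h1 => absurd rfl h1⟩
      · exact ⟨fun _ h1 => absurd h1 (by decide), fun _ => hvw.symm⟩
      · exact ⟨fun _ h1 => absurd h1 (by decide), fun _ => hvw⟩
      · exact ⟨fun h1 => absurd h1 T.irrefl, fun h1 => absurd rfl h1⟩
  obtain ⟨m, x, hx, h1⟩ := complexAction_cub hc hX C
  have hd : (ofSK (cubSK hX : SK Γ (Cub T))).dim (x 0) = 1 := by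
    rw [h1]
    exact hC0
  have h2 := Bet.cell (n := i + 1) (q := i) _ x (fun _ => 0) 0 0 hx (fun _ => le_refl _) (by rw [hd]) h0
    (fun j r hj hr => by
      rw [hd] at hj
      rw [stab_eq]
      have hcube : IsCube T _ (x j).1 := cub_isCube hX (x j) rfl
      have h5 : (ofSK (cubSK hX : SK Γ (Cub T))).dim (x j) = cdim hX (x j) := rfl
      rcases tree_cube h.tree hcube with ⟨h3, v', h4⟩ | ⟨h3, -⟩
      · rw [h4, stab_vertex, show r = i by omega]
        obtain ⟨y, hy, g, rfl⟩ := h.vert v'
        exact (hb y hy).iso (MulAction.stabilizerEquivStabilizer rfl)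
      · omega)
    (fun j r hj hr => by
      rw [hd] at hj
      have hcube : IsCube T _ (x j).1 := cub_isCube hX (x j) rfl
      have h5 : (ofSK (cubSK hX : SK Γ (Cub T))).dim (x j) = cdim hX (x j) := rfl
      rcases tree_cube h.tree hcube with ⟨h3, -⟩ | ⟨h3, -⟩
      · omega
      · omega)
  rw [Finset.sum_const_zero, add_zero, stab_eq, h1, hC, stab_edge h.inv hvw] at h2
  exact h2

end tree

/-- **the classes `Cm.V.Van i`** -/
theorem bet_of_van {i : ℕ} {Γ : Type} [Group Γ] (h : Cm.V.Van i Γ) : Bet i Γ 0 := by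
  induction h with
  | sub K R h1 h2 h3 => exact Bet.sub K R h1 h2 h3
  | @dim i Γ _ R h =>
    have h1 := Bet.rank (i := i) R
    rwa [Fintype.card_eq_zero_iff.2 h, Nat.cast_zero] at h1
  | zero h => exact Bet.zero h
  | amen R h => exact Bet.amen R h
  | supergroup j h1 h2 h3 ih =>
    have h4 := Bet.sup j h1 h2 ih
    rwa [zero_div] at h4
  | subgroup j R h1 h2 h3 ih =>
    have h4 := Bet.inf j R h1 h2 ih
    rwa [mul_zero] at h4
  | dual h1 h2 ih => exact Bet.dual h1 ih
  | mirror M h h1 ih => exact bet_mirror h ih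
  | cells M h h1 ih => exact bet_cub h ih
  | vertex T F v hA h1 h2 ih1 ih2 => exact bet_vertex v hA ih1 ih2
  | edge T F v w hA h1 h2 h3 ih1 ih2 => exact bet_edge v w hA ih1 ih2 h3

/-- **the classes `SQ.V.Van i`** -/
theorem bet_of {i : ℕ} {Γ : Type} [Group Γ] (h : SQ.V.Van i Γ) : Bet i Γ 0 := bet_of_van (Cm.V.van_of h)

end Cm.B
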