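import Pool.Agent.Cm.Bet
import Pool.Agent.Cm.BetOf
import Pool.Agent.SQ.V.Ex

/-!
# Actions on cube complexes: stabilizers of the cubes, finite stabilizers

* `bet_cubes` : the bounds from the stabilizers of the cubes;
* `bet_mir` : if the stabilizer of the vertex `x` is finite then the right-angled Coxeter group of the link has finite index
  in the mirrored group;
* `bet_proper` : proper actions;
* `bet_proper_sphere` : proper actions with flag homology spheres as links.
-/

set_option autoImplicit false
set_option linter.unusedSectionVars false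
set_option linter.unusedVariables false

open scoped Pointwise

namespace Cm.B

open Singer CubeComplex Cm
open Npc (Median GraphAct Orb)

/-- the index of the normal subgroup of a semidirect product -/
lemma index_inl {N G W : Type} [Group N] [Group G] [Group W] (φ : G →* MulAut N) (ι : W →* N)
    (hι : Function.Surjective ι) : ((SemidirectProduct.inl : N →* N ⋊[φ] G).comp ι).range.index = Nat.card G := by
  have h1 : ((SemidirectProduct.inl : N →* N ⋊[φ] G).comp ι).range = (SemidirectProduct.rightHom : N ⋊[φ] G →* G).ker := by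
    rw [← SemidirectProduct.range_inl_eq_ker_rightHom]
    ext y
    constructor
    · rintro ⟨w, rfl⟩
      exact ⟨ι w, rfl⟩
    · rintro ⟨n, rfl⟩
      obtain ⟨w, rfl⟩ := hι n
      exact ⟨w, rfl⟩
  rw [h1, Subgroup.index_ker, MonoidHom.range_eq_top.2 SemidirectProduct.rightHom_surjective, Subgroup.card_top]

lemma injective_inl {N G W : Type} [Group N] [Group G] [Group W] (φ : G →* MulAut N) (ι : W →* N)
    (hι : Function.Injective ι) : Function.Injective ((SemidirectProduct.inl : N →* N ⋊[φ] G).comp ι) :=
  SemidirectProduct.inl_injective.comp hι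

/-- **groups with a normal subgroup which has a finite complement** -/
theorem bet_semi {N G W : Type} [Group N] [Group G] [Group W] [Finite G] (φ : G →* MulAut N) (ι : W →* N)
    (hι : Function.Bijective ι) {i : ℕ} {c : ℝ} (hb : Bet i W c) : Bet i (N ⋊[φ] G) (c / Nat.card G) := by
  have hi := index_inl φ ι hι.2
  have h1 := Bet.sup ((SemidirectProduct.inl : N →* N ⋊[φ] G).comp ι) (injective_inl φ ι hι.1)
    ⟨by rw [hi]; exact Nat.card_pos.ne'⟩ hb
  rwa [hi] at h1

section hyp
variable {H G : Type} [Group G] [MulAction G H]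

/-- the right-angled Coxeter group as the normal subgroup, without labels -/
noncomputable def toNN (S : Hyp H G) : RACG S.C →* NN S Unit :=
  MonoidHom.mk' (fun w : RACG S.C => (((w, 1) : RACG S.C × Multiplicative (H → Unit)) : NN S Unit))
    fun a b => nn_ext rfl fun _ => rfl

lemma pw_toNN (S : Hyp H G) (w : RACG S.C) : pw (toNN S w) = w := rfl

lemma toNN_bijective (S : Hyp H G) : Function.Bijective (toNN S) := by
  constructor
  · intro a b hab
    rw [← pw_toNN S a, hab, pw_toNN]
  · intro n
    refine ⟨pw n, nn_ext (pw_toNN S _) fun t => ?_⟩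
    exact Subsingleton.elim (α := Unit) _ _

theorem bet_gh (S : Hyp H G) [Finite G] {i : ℕ} {c : ℝ} (hb : Bet i (RACG S.C) c) :
    Bet i (Gh S Unit) (c / Nat.card G) := bet_semi _ (toNN S) (toNN_bijective S) hb

end hyp

section cub
variable {Γ X : Type} [Group Γ] [MulAction Γ X] {M : SimpleGraph X}

/-- **the bounds from the stabilizers of the cubes**; the cubes `C j` of dimension `d j` meet all orbits of cubes -/
theorem bet_cubes (h : CubicalAction Γ M) {i m : ℕ} (d : Fin m → ℕ) (C : Fin m → Set X) (c : Fin m → ℝ)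
    (hC : ∀ j, IsCube M (d j) (C j)) (ho : ∀ n D, IsCube M n D → ∃ (j : Fin m) (g : Γ), g • C j = D)
    (hc : ∀ j, 0 ≤ c j) (hb : ∀ (j : Fin m) (q : ℕ), q + d j = i → Bet q (MulAction.stabilizer Γ (C j)) (c j)) :
    Bet i Γ (∑ j, c j) := by
  have hA : GraphAct Γ M := graphAct_of h
  have hX : Median M := median_of h.median
  have h1 : ∀ j, ∃ C' : Cub M, C'.1 = C j ∧ cdim hX C' = d j := fun j => exists_cub hX (hC j)
  choose x hx hd using h1
  refine Bet.cells (ofSK (cubSK hX : SK Γ (Cub M))) x c ⟨ofSK_acyclic (acyK_cub hX), fun k => ?_, fun k => ?_⟩ hc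
    fun j q hq => ?_
  · obtain ⟨j, g, hg⟩ := ho _ k.1 (cub_isCube hX k rfl)
    refine ⟨j, g, Cub.ext' ?_⟩
    show g • (x j).1 = k.1
    rw [hx, hg]
  · rw [stab_eq]
    exact h.fin _ k.1 (cub_isCube hX k rfl)
  · rw [stab_eq, hx]
    refine hb j q ?_
    rw [← hd j]
    exact hq

/-- the action of the stabilizer on the neighbours -/
@[instance_reducible] def nbAct (hact : ∀ (g : Γ) (x y : X), M.Adj x y → M.Adj (g • x) (g • y)) (x : X) :
    MulAction (MulAction.stabilizer Γ x) (M.neighborSet x) where
  smul g a := ⟨(g : Γ) • (a : X), by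
    have h1 := hact g x a a.2
    have h2 : (g : Γ) • x = x := g.2
    rwa [h2] at h1⟩
  one_smul a := Subtype.ext (one_smul Γ (a : X))
  mul_smul g g' a := Subtype.ext (mul_smul (g : Γ) (g' : Γ) (a : X))

/-- **finite stabilizers**: the right-angled Coxeter group of the link has finite index in the mirrored group -/
theorem bet_mir (hact : ∀ (g : Γ) (x y : X), M.Adj x y → M.Adj (g • x) (g • y)) (x : X)
    (hfin : Finite (MulAction.stabilizer Γ x)) {i : ℕ} {c : ℝ} (hb : Bet i (RACG (link M x)) c) :
    Bet i (MirGroup Γ M x) (c / Nat.card (MulAction.stabilizer Γ x)) := by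
  classical
  let _ : MulAction (MulAction.stabilizer Γ x) (M.neighborSet x) := nbAct hact x
  have hl : ∀ (g : MulAction.stabilizer Γ x) (a b : M.neighborSet x), (link M x).Adj a b →
      (link M x).Adj (g • a) (g • b) := by
    intro g a b hab
    obtain ⟨h1, m, h2, h3, h4⟩ := hab
    refine ⟨fun h5 => h1 (MulAction.injective g h5), (g : Γ) • m, fun h5 => ?_, hact g _ _ h3, hact g _ _ h4⟩
    have h6 : (g : Γ) • x = x := g.2
    exact h2 (MulAction.injective (g : Γ) (h5.trans h6.symm))
  let S : Hyp (M.neighborSet x) (MulAction.stabilizer Γ x) :=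
    ⟨link M x, fun g a b => ⟨fun h => by
      have h1 := hl g⁻¹ _ _ h
      rwa [inv_smul_smul, inv_smul_smul] at h1, hl g a b⟩⟩
  let e : MirGroup Γ M x ≃* Gh S Unit := mEquiv M x S (Equiv.refl _) (fun _ _ => Iff.rfl) fun _ _ => rfl
  exact (bet_gh S hb).iso e.symm

/-- **proper actions**; the vertices `x j` meet all orbits of vertices -/
theorem bet_proper (h : CubicalAction Γ M) {i m : ℕ} (x : Fin m → X) (c : Fin m → ℝ)
    (hx : ∀ v, ∃ (j : Fin m) (g : Γ), g • x j = v) (hfin : ∀ j, Finite (MulAction.stabilizer Γ (x j)))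
    (hc : ∀ j, 0 ≤ c j) (hb : ∀ j, Bet i (RACG (link M (x j))) (c j)) :
    Bet i Γ (∑ j, c j / Nat.card (MulAction.stabilizer Γ (x j))) :=
  Bet.mirror M x _ h hx (fun j => div_nonneg (hc j) (Nat.cast_nonneg _)) fun j => bet_mir h.act (x j) (hfin j) (hb j)

/-- **proper actions with flag homology spheres as links** -/
theorem bet_proper_sphere (h : CubicalAction Γ M) {i m : ℕ} (x : Fin m → X)
    (hx : ∀ v, ∃ (j : Fin m) (g : Γ), g • x j = v) (hfin : ∀ j, Finite (MulAction.stabilizer Γ (x j)))
    (hL : ∀ j, ∃ n, 2 * i ≠ n ∧ SingerCube.HSphere n (link M (x j))) : Bet i Γ 0 := by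
  have h1 := bet_proper h x (fun _ => 0) hx hfin (fun _ => le_refl _) fun j => by
    obtain ⟨n, hn, hS⟩ := hL j
    exact bet_of (SQ.V.van_racg hS hn)
  simp only [zero_div] at h1
  rwa [Finset.sum_const_zero] at h1

end cub

end Cm.B
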