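import Pool.Agent.Cm.Kx
import Pool.Agent.Cm.BetStmt
import Pool.Agent.Cm.Main

/-!
# Actions on acyclic complexes, for the structures of the statement

* `GComplex.toSK`, `GComplex.Acyclic.acyK`;
* `ComplexAction.cells_le`, `ComplexAction.cell_le` : the inequalities for the Betti numbers.
-/

set_option autoImplicit false
set_option linter.unusedSectionVars false
set_option linter.unusedVariables false

namespace Cm.B

open Singer CubeComplex

variable {Γ K : Type} [Group Γ] [MulAction Γ K]

namespace GComplex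
variable (S : GComplex Γ K)

/-- the complex -/
def toSK : SK Γ K where
  dim := S.dim
  dim_smul := S.dim_smul
  le y x := Relation.ReflTransGen (fun a b => S.bd b a ≠ 0) y x
  le_refl _ := Relation.ReflTransGen.refl
  le_trans _ _ _ h h' := h.trans h'
  le_smul g x y h := by
    refine Relation.ReflTransGen.lift (fun a => g • a) (fun a b hab => ?_) _ _ h
    intro h1
    have h2 := S.bd_smul g b a
    rw [h1, mul_zero] at h2
    have h3 : S.sg g a * (S.sg g a * S.bd b a) = S.bd b a := by
      rw [← mul_assoc, S.sg_sq, one_mul]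
    rw [← h2, mul_zero] at h3
    exact hab h3.symm
  dim_lt x y h hne := by
    have h1 : y = x ∨ S.dim y < S.dim x := by
      induction h with
      | refl => exact Or.inl rfl
      | @tail b c _ hbc ih =>
        have h2 := S.bd_dim c b hbc
        right
        by_cases hb : y = b
        · rw [hb]
          omega
        · have h3 : S.dim y < S.dim b := by
            rcases ih hb with h | h
            · exact absurd h hb
            · exact h
          omega
    exact h1.resolve_left hne
  bd := S.bd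
  bd_le x y h := ⟨Relation.ReflTransGen.single h, S.bd_dim x y h⟩
  bd_bd x := by
    ext z
    rw [lin_apply, Finsupp.zero_apply, ← S.bd_bd x z]
    refine Finset.sum_congr rfl fun y _ => ?_
    show S.bd y z • S.bd x y = S.bd x y * S.bd y z
    rw [smul_eq_mul, mul_comm]
  sg := S.sg
  sg_sq := S.sg_sq
  sg_mul := S.sg_mul
  bd_smul g x := by
    classical
    ext z
    obtain ⟨y, rfl⟩ : ∃ y, z = g • y := ⟨g⁻¹ • z, by rw [smul_inv_smul]⟩
    rw [Finsupp.smul_apply, smul_eq_mul, S.bd_smul, lin_apply]
    rw [Finsupp.sum_eq_single y]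
    · rw [Finsupp.single_eq_same, smul_eq_mul]
    · intro b _ hb
      rw [Finsupp.single_apply, if_neg (fun h => hb (smul_left_cancel g h)), zero_smul]
    · intro _
      exact smul_zero _

end GComplex

theorem GComplex.Acyclic.acyK {S : GComplex Γ K} (h : S.Acyclic) : AcyK S.toSK where
  sg0 := h.sg_vertex
  ne := h.vertex
  aug := h.aug
  zero z hz h0 := by
    obtain ⟨y, hy, h1⟩ := h.exact_zero z hz h0
    refine ⟨y, hy, Finsupp.ext fun k => ?_⟩
    rw [← h1 k, lin_apply]
    refine Finset.sum_congr rfl fun x _ => ?_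
    show S.bd x k • y x = (S.bd x k : ℂ) * y x
    rw [zsmul_eq_mul]
  succ p z hz h0 := by
    obtain ⟨y, hy, h1⟩ := h.exact_succ p z hz fun k => by
      have h2 := DFunLike.congr_fun h0 k
      rw [lin_apply, Finsupp.zero_apply] at h2
      rw [← h2]
      refine Finset.sum_congr rfl fun x _ => ?_
      show (S.bd x k : ℂ) * z x = S.bd x k • z x
      rw [zsmul_eq_mul]
    refine ⟨y, hy, Finsupp.ext fun k => ?_⟩
    rw [← h1 k, lin_apply]
    refine Finset.sum_congr rfl fun x _ => ?_
    show S.bd x k • y x = (S.bd x k : ℂ) * y x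
    rw [zsmul_eq_mul]

/-- the transversal has the index as its number of elements -/
theorem exists_trv_index {H Γ : Type} [Group H] [Group Γ] (j : H →* Γ) (hj : Function.Injective j)
    (hf : j.range.FiniteIndex) : ∃ T : Trv j, T.n = j.range.index := by
  classical
  obtain ⟨T, hT, -⟩ := j.range.exists_isComplement_right 1
  have h1 : Nat.card T = j.range.index := hT.card_right
  have hfin : Finite T := by
    have h2 : j.range.index ≠ 0 := Subgroup.FiniteIndex.index_ne_zero
    exact Nat.finite_of_card_ne_zero (by rw [h1]; exact h2)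
  have e' : T ≃ Fin (Nat.card T) := Finite.equivFin T
  let k : H ≃* j.range := MonoidHom.ofInjective hj
  refine ⟨⟨Nat.card T, (hT.equiv.trans ((Equiv.refl j.range).prodCongr e')).trans
    (k.symm.toEquiv.prodCongr (Equiv.refl _)), fun h g => ?_⟩, h1⟩
  have h2 := hT.equiv_mul_left (k h) g
  have h3 : ((k h : j.range) : Γ) = j h := rfl
  rw [h3] at h2
  show (k.symm.toEquiv.prodCongr (Equiv.refl _)) (((Equiv.refl j.range).prodCongr e') (hT.equiv (j h * g))) = _
  rw [h2]
  show (k.symm (k h * (hT.equiv g).1), e' (hT.equiv g).2) = (h * k.symm (hT.equiv g).1, e' (hT.equiv g).2)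
  rw [map_mul, MulEquiv.symm_apply_apply]

namespace ComplexAction
variable {S : GComplex Γ K} {m : ℕ} {x : Fin m → K}

/-- representatives of the orbits among the given cells -/
theorem exists_rps (h : ComplexAction S x) : ∃ (P : Rps Γ K) (r : P.A → Fin m),
    Function.Injective r ∧ ∀ a, P.rep a = x (r a) := by
  obtain ⟨I, hI⟩ := exists_repr x h.orbit
  refine ⟨⟨I, inferInstance, fun a => x a.1, fun k => ?_, fun a b g hg => ?_, fun a => (h.fin _).some⟩,
    fun a => a.1, Subtype.val_injective, fun a => rfl⟩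
  · obtain ⟨a, ha, -⟩ := hI k
    exact ⟨a, ha⟩
  · obtain ⟨c, hc, hu⟩ := hI (x b.1)
    rw [hu a ⟨g, hg⟩, hu b ⟨1, one_smul _ _⟩]

/-- the inequality for `Γ` -/
theorem cells_le (h : ComplexAction S x) {i : ℕ} {c : Fin m → ℝ} (hc : ∀ j, 0 ≤ c j)
    (hb : ∀ (j : Fin m) (q : ℕ), q + S.dim (x j) = i →
      ∀ R : Res.{0} (MulAction.stabilizer Γ (x j)), R.toPreRes.toHC.h q ≤ c j) (R : Res.{0} Γ) :
    R.toPreRes.toHC.h i ≤ ∑ j, c j := by
  classical
  obtain ⟨P, r, hr, hrep⟩ := h.exists_rps
  refine (Cm.cells_le h.acyclic.acyK P R i).trans ?_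
  have h1 : ∀ a : P.A, bj S.toSK P a i ≤ c (r a) := by
    intro a
    unfold bj
    split_ifs with h2
    · have h3 := hb (r a) (i - S.dim (P.rep a)) (by
        rw [← hrep a]
        exact Nat.sub_add_cancel h2)
      rw [← hrep a] at h3
      show (P.R a).betti (i - S.dim (P.rep a)) ≤ c (r a)
      rw [FinRes.betti_eq]
      exact h3 _
    · exact hc _
  refine (Finset.sum_le_sum fun a _ => h1 a).trans ?_
  rw [← Finset.sum_image (s := Finset.univ) (g := r) (f := c) fun a _ b _ hab => hr hab]
  exact Finset.sum_le_sum_of_subset_of_nonneg (Finset.subset_univ _) fun j _ _ => hc j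

/-- the inequality for the stabilizer of a cell -/
theorem cell_le (h : ComplexAction S x) {n q : ℕ} {c : Fin m → ℝ} {c₀ : ℝ} {j₀ : Fin m} (hc : ∀ j, 0 ≤ c j)
    (hn : q + S.dim (x j₀) = n) (h0 : ∀ R : Res.{0} Γ, R.toPreRes.toHC.h n ≤ c₀)
    (hlow : ∀ (j : Fin m) (r : ℕ), S.dim (x j) < S.dim (x j₀) → r + S.dim (x j) + 1 = n →
      ∀ R : Res.{0} (MulAction.stabilizer Γ (x j)), R.toPreRes.toHC.h r ≤ c j)
    (hup : ∀ (j : Fin m) (r : ℕ), S.dim (x j₀) < S.dim (x j) → r + S.dim (x j) = n + 1 →
      ∀ R : Res.{0} (MulAction.stabilizer Γ (x j)), R.toPreRes.toHC.h r ≤ c j)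
    (R : Res.{0} (MulAction.stabilizer Γ (x j₀))) : R.toPreRes.toHC.h q ≤ c₀ + ∑ j, c j := by
  classical
  obtain ⟨P, r, hr, hrep⟩ := h.exists_rps
  obtain ⟨a₀, g, hg⟩ := P.ex (x j₀)
  have hA := h.acyclic.acyK
  -- the stabilizer of the representative
  have hq : R.toPreRes.toHC.h q = (P.R a₀).betti q := by
    obtain ⟨R', hR'⟩ := Res.exists_iso (MulAction.stabilizerEquivStabilizer hg.symm).symm (P.R a₀).toRes
    rw [Res.h_eq R R' q, hR', FinRes.betti_eq]
  have hd : S.dim (P.rep a₀) = S.dim (x j₀) := by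
    rw [← hg, S.dim_smul]
  -- a resolution of the group
  obtain ⟨D, N, hG, hN⟩ := exists_all S.toSK P
  have RG : Res.{0} Γ := (exact0 hG hN hA).data.res
  have hlow' : ∀ (a : P.A) (k : ℕ), S.dim (P.rep a) < S.dim (P.rep a₀) → k + 1 = n → bj S.toSK P a k ≤ c (r a) := by
    intro a k h1 h2
    unfold bj
    split_ifs with h3
    · have h4 := hlow (r a) (k - S.dim (P.rep a)) (by rw [← hrep a, ← hd]; exact h1) (by
        rw [← hrep a, ← h2, Nat.sub_add_cancel (by exact h3)])
      rw [← hrep a] at h4
      show (P.R a).betti (k - S.dim (P.rep a)) ≤ c (r a)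
      rw [FinRes.betti_eq]
      exact h4 _
    · exact hc _
  have hup' : ∀ (a : P.A), S.dim (P.rep a₀) < S.dim (P.rep a) → bj S.toSK P a (n + 1) ≤ c (r a) := by
    intro a h1
    unfold bj
    split_ifs with h3
    · have h4 := hup (r a) (n + 1 - S.dim (P.rep a)) (by rw [← hrep a, ← hd]; exact h1) (by
        rw [← hrep a]
        exact Nat.sub_add_cancel h3)
      rw [← hrep a] at h4
      show (P.R a).betti (n + 1 - S.dim (P.rep a)) ≤ c (r a)
      rw [FinRes.betti_eq]
      exact h4 _
    · exact hc _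
  have hsum : ∑ a, c (r a) ≤ ∑ j, c j := by
    rw [← Finset.sum_image (s := Finset.univ) (g := r) (f := c) fun a _ b _ hab => hr hab]
    exact Finset.sum_le_sum_of_subset_of_nonneg (Finset.subset_univ _) fun j _ _ => hc j
  rw [hq]
  obtain rfl | ⟨k, rfl⟩ : n = 0 ∨ ∃ k, n = k + 1 := by
    cases n with
    | zero => exact Or.inl rfl
    | succ k => exact Or.inr ⟨k, rfl⟩
  · have hq0 : q = 0 := by omega
    subst hq0
    have h1 := cell_le_zero hA P RG a₀ (by show S.dim (P.rep a₀) = 0; omega)
    refine h1.trans (add_le_add (h0 RG) (le_trans (Finset.sum_le_sum fun a _ => ?_) hsum))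
    show (if S.dim (P.rep a₀) < S.dim (P.rep a) then _ else _) ≤ _
    split_ifs with h2
    · exact hup' a h2
    · exact hc _
  · have h1 := cell_le_succ hA P RG a₀ q k (by show S.dim (P.rep a₀) + q = k + 1; omega)
    refine h1.trans ?_
    rw [add_assoc, ← Finset.sum_add_distrib]
    refine add_le_add (h0 RG) (le_trans (Finset.sum_le_sum fun a _ => ?_) hsum)
    show (if S.dim (P.rep a) < S.dim (P.rep a₀) then _ else _) +
      (if S.dim (P.rep a₀) < S.dim (P.rep a) then _ else _) ≤ _
    split_ifs with h2 h3 h3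
    · exact absurd h3 (lt_asymm h2)
    · rw [add_zero]
      exact hlow' a k h2 rfl
    · rw [zero_add]
      exact hup' a h3
    · rw [add_zero]
      exact hc _

end ComplexAction

end Cm.B
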