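import Pool.Agent.Singer.Ord.DimCh
import Pool.Agent.Singer.Bet
import Pool.Agent.Npc.Sph

/-!
# The Euler characteristic of the Davis complex, and the inequality of Charney and Davis

* `bet_euler` : the alternating sum of the `ℓ²`-Betti numbers of a right-angled Coxeter group is `∑ (-1/2)^|σ|`, the sum over
  the cliques `σ` of its graph, the empty one included;
* `charneyDavis` : the inequality of Charney and Davis for flag homology spheres.
-/

set_option autoImplicit false

namespace Cm.CD

open Singer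

variable {V : Type} [Fintype V] [DecidableEq V] (G : SimpleGraph V)

/-- the dimension of the chains -/
noncomputable def ch (i : ℕ) : ℝ := vdim (Ch G (Racg.gen G) Finset.univ i)

/-- the dimension of the cycles -/
noncomputable def cy (i : ℕ) : ℝ := vdim (Cy rk G (Racg.gen G) Finset.univ i)

lemma bet_eq (i : ℕ) : bet G i = cy G i - (ch G (i + 1) - cy G (i + 1)) := by
  unfold bet bn cy ch
  rw [vdim_Bd]

lemma cy_zero : cy G 0 = ch G 0 := by
  unfold cy ch
  rw [Cy_zero]

lemma sum_aux (N : ℕ) : ∑ i ∈ Finset.range (N + 1), (-1 : ℝ) ^ i * bet G i =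
    ∑ i ∈ Finset.range (N + 2), (-1 : ℝ) ^ i * ch G i + (-1) ^ N * cy G (N + 1) := by
  induction N with
  | zero =>
    have e1 : ∀ f : ℕ → ℝ, ∑ k ∈ Finset.range (0 + 1), f k = f 0 := fun f => Finset.sum_range_one f
    have e2 : ∀ f : ℕ → ℝ, ∑ k ∈ Finset.range (0 + 2), f k = f 0 + f 1 := fun f => by
      rw [Finset.sum_range_succ, Finset.sum_range_one]
    rw [e1, e2, bet_eq, cy_zero]
    ring
  | succ N ih =>
    rw [Finset.sum_range_succ, ih, Finset.sum_range_succ _ (N + 2), bet_eq, pow_succ, pow_succ]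
    ring

open Classical in
lemma ch_eq (i : ℕ) : ch G i =
    (Finset.univ.filter (fun S : Finset V => G.IsClique S ∧ S.card = i)).card * (1 / 2 : ℝ) ^ i := Ord.vdim_Ch_eq G i

open Classical in
lemma ch_eq_zero {i : ℕ} (hi : Fintype.card V < i) : ch G i = 0 := by
  rw [ch_eq, Finset.filter_eq_empty_iff.2, Finset.card_empty, Nat.cast_zero, zero_mul]
  rintro S - ⟨-, h⟩
  have := Finset.card_le_univ S
  omega

lemma cy_eq_zero {i : ℕ} (hi : Fintype.card V < i) : cy G i = 0 := by
  refine le_antisymm ?_ (vdim_nonneg _)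
  rw [← ch_eq_zero G hi]
  exact vdim_mono inf_le_left

open Classical in
/-- the alternating sum of the `ℓ²`-Betti numbers -/
theorem bet_euler : ∑ i ∈ Finset.range (Fintype.card V + 1), (-1 : ℝ) ^ i * bet G i =
    ∑ S ∈ Finset.univ.filter (fun S : Finset V => G.IsClique (S : Set V)), (-1 / 2 : ℝ) ^ S.card := by
  rw [sum_aux, cy_eq_zero G (Nat.lt_succ_self _), mul_zero, add_zero,
    Finset.sum_range_succ _ (Fintype.card V + 1), ch_eq_zero G (Nat.lt_succ_self _), mul_zero, add_zero]
  have h1 : ∀ S ∈ Finset.univ.filter (fun S : Finset V => G.IsClique S), S.card ∈ Finset.range (Fintype.card V + 1) :=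
    fun S _ => Finset.mem_range.2 (Nat.lt_succ_of_le (Finset.card_le_univ S))
  rw [← Finset.sum_fiberwise_of_maps_to h1]
  refine Finset.sum_congr rfl fun i _ => ?_
  rw [ch_eq, Finset.sum_congr rfl (g := fun _ => (-1 / 2 : ℝ) ^ i) fun S hS => by
    rw [(Finset.mem_filter.1 hS).2], Finset.sum_const, Finset.filter_filter, nsmul_eq_mul]
  have h2 : (-1 / 2 : ℝ) ^ i = (-1) ^ i * (1 / 2) ^ i := by
    rw [← mul_pow]
    norm_num
  rw [h2]
  ring

/-- the `ℓ²`-Betti numbers are nonnegative -/
lemma bet_nonneg' (i : ℕ) : 0 ≤ bet G i := bn_nonneg rk G (Racg.gen G) rk_inj _ _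

lemma finite_of_hsphere {n : ℕ} {V : Type} {G : SimpleGraph V} (h : SingerCube.HSphere n G) : Finite V := by
  cases n with
  | zero =>
    have h0 : IsEmpty V := h
    infer_instance
  | succ n => exact h.1

open Classical in
/-- the middle number -/
theorem bet_middle {m : ℕ} (h : SingerCube.HSphere (2 * m) G) :
    bet G m = (-1 : ℝ) ^ m * ∑ S ∈ Finset.univ.filter (fun S : Finset V => G.IsClique (S : Set V)), (-1 / 2 : ℝ) ^ S.card := by
  have hb : ∀ i, i ≠ m → bet G i = 0 := fun i hi => Npc.bet_of_hsphere h (by omega)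
  have h1 := bet_euler G
  by_cases hm : m ∈ Finset.range (Fintype.card V + 1)
  · rw [Finset.sum_eq_single m (fun k _ hk => by rw [hb k hk, mul_zero]) (fun h' => absurd hm h')] at h1
    rw [← h1, ← mul_assoc, ← pow_add, Even.neg_one_pow ⟨m, rfl⟩, one_mul]
  · rw [Finset.sum_eq_zero fun k hk => by
      rw [hb k (fun hkm => hm (hkm ▸ hk)), mul_zero]] at h1
    rw [← h1, mul_zero]
    have h2 : Fintype.card V < m := by
      rw [Finset.mem_range] at hm
      omega
    rw [bet_eq, cy_eq_zero G h2, ch_eq_zero G (by omega), cy_eq_zero G (by omega)]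
    ring

open Classical in
/-- **the inequality of Charney and Davis** for flag homology spheres of dimension `2 * m - 1` -/
theorem charneyDavis {m : ℕ} (h : SingerCube.HSphere (2 * m) G) :
    0 ≤ (-1 : ℝ) ^ m * ∑ S ∈ Finset.univ.filter (fun S : Finset V => G.IsClique (S : Set V)), (-1 / 2 : ℝ) ^ S.card := by
  rw [← bet_middle G h]
  exact bet_nonneg' G m

end Cm.CD
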