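import Pool.Agent.Cm.Ops
import Pool.Agent.Npc.Chain
import Pool.Agent.Npc.Cofs

/-!
# Mirror inequality: chains

* `Ep L ψ` : the letter has the label `ψ`; `El t ψ` : the hyperplane `t` has the label `ψ`;
* `Rl L ψ σ f = 0` : the relation of the letter with label `ψ` in the state `σ`;
* `X.Ch s` : the chains in the state `s`; `X.Xm s` : the marked chains; `X.Chh s h` : the chains which do not cross `h`;
* `X.Km K s` : the marked chains whose boundaries (over every hyperplane `h`) are limits of boundaries of chains which do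
  not cross `h`; `X.Cyc K s` : the cycles.
-/

set_option autoImplicit false
set_option linter.unusedSectionVars false
set_option linter.unusedVariables false

open scoped ComplexConjugate InnerProductSpace
open Filter Topology

namespace Cm

open Singer
open Npc (plf plf_apply psf psf_apply psf_pull Fibre ind ind_apply ind_mem ind_notMem ind_ind ind_add ind_pull ind_psf
  Cof act Equi equi_pull equi_mul St av av_apply av_comm T_av av_av_self av_av_ne sum_av FAct equi_one Mdl mdl_ker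
  equi_av)

variable {H G : Type*} [Group G] [MulAction G H]

section ep
variable (S : Hyp H G) (F : Type*) [AddCommGroup F] [Fintype F] {R : Type*} [MulAction G R] (L : Ltr H G R)

/-- the letter has the label `ψ` -/
noncomputable def Ep (ψ : AddChar F ℂ) : L2 (Cell S F R) →L[ℂ] L2 (Cell S F R) := av (Tl S F L) ψ

variable (R) in
/-- the hyperplane `t` has the label `ψ` -/
noncomputable def El (t : H) (ψ : AddChar F ℂ) : L2 (Cell S F R) →L[ℂ] L2 (Cell S F R) := av (La S F R t) ψ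

/-- the relation of the letter with the label `ψ` in the state `σ` -/
noncomputable def Rl (ψ : AddChar F ℂ) : St → (L2 (Cell S F R) →L[ℂ] L2 (Cell S F R))
  | St.g => (1 - Gl S F L).comp (Ep S F L ψ)
  | St.c => Ep S F L ψ
  | St.m => (1 + Mi S F L).comp (Ep S F L ψ)

variable {S F}

lemma fact_Tl : FAct (Tl S F L) := ⟨Tl_zero L, fun x x' f => Tl_Tl L x x' f⟩

lemma fact_La (t : H) : FAct (La S F R t) := ⟨La_zero t, fun x x' f => La_La t x x' f⟩

@[simp] lemma Ep_Ep (ψ : AddChar F ℂ) (f : L2 (Cell S F R)) : Ep S F L ψ (Ep S F L ψ f) = Ep S F L ψ f :=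
  av_av_self (fact_Tl L) ψ f

lemma Ep_Ep_ne {ψ χ : AddChar F ℂ} (h : ψ ≠ χ) (f : L2 (Cell S F R)) :
    Ep S F L ψ (Ep S F L χ f) = 0 := av_av_ne (fact_Tl L) h f

lemma sum_Ep (f : L2 (Cell S F R)) : ∑ ψ, Ep S F L ψ f = f := sum_av (fact_Tl L) f

/-- on the cells with letter `t`, the two projections agree -/
lemma Ep_eq_El (ψ : AddChar F ℂ) (f : L2 (Cell S F R)) (y : Cell S F R) :
    Ep S F L ψ f y = El S F R (L.ℓ y.r) ψ f y := by
  unfold Ep El
  rw [av_apply, av_apply, lp.coeFn_smul, lp.coeFn_smul, Pi.smul_apply, Pi.smul_apply, lp.coeFn_sum, lp.coeFn_sum,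
    Finset.sum_apply, Finset.sum_apply]
  congr 1
  refine Finset.sum_congr rfl fun x _ => ?_
  rw [lp.coeFn_smul, lp.coeFn_smul, Pi.smul_apply, Pi.smul_apply, Tl_apply, La_apply, Cell.tl_eq_lt]

lemma equi_Ep (ψ : AddChar F ℂ) : Equi (Gh S F) (Ep S F L ψ) := equi_av (equi_Tl L) ψ

lemma equi_Rl (ψ : AddChar F ℂ) (σ : St) : Equi (Gh S F) (Rl S F L ψ σ) := by
  cases σ with
  | g => exact (equi_one.sub (equi_Gl L)).comp (equi_Ep L ψ)
  | c => exact equi_Ep L ψ
  | m => exact (equi_one.add (equi_Mi L)).comp (equi_Ep L ψ)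

/-- a relation holds if the letter does not have the label -/
lemma rl_of_ep {ψ : AddChar F ℂ} {f : L2 (Cell S F R)} (h : Ep S F L ψ f = 0) (σ : St) : Rl S F L ψ σ f = 0 := by
  cases σ with
  | g =>
    show Ep S F L ψ f - Gl S F L (Ep S F L ψ f) = 0
    rw [h, map_zero, sub_zero]
  | c => exact h
  | m =>
    show Ep S F L ψ f + Mi S F L (Ep S F L ψ f) = 0
    rw [h, map_zero, add_zero]

lemma rl_g {ψ : AddChar F ℂ} {f : L2 (Cell S F R)} :
    Rl S F L ψ St.g f = Ep S F L ψ f - Gl S F L (Ep S F L ψ f) := rfl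

lemma rl_m {ψ : AddChar F ℂ} {f : L2 (Cell S F R)} :
    Rl S F L ψ St.m f = Ep S F L ψ f + Mi S F L (Ep S F L ψ f) := rfl

/-- an operator which maps the letter of `L` to the letter of `L'` -/
structure Itw {R' : Type*} [MulAction G R'] (L : Ltr H G R) (L' : Ltr H G R')
    (B : L2 (Cell S F R) →L[ℂ] L2 (Cell S F R')) : Prop where
  tl : ∀ x f, B (Tl S F L x f) = Tl S F L' x (B f)
  mi : ∀ f, B (Mi S F L f) = Mi S F L' (B f)
  gl : ∀ f, B (Gl S F L f) = Gl S F L' (B f)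

namespace Itw
variable {L} {R' : Type*} [MulAction G R'] {L' : Ltr H G R'} {B B' : L2 (Cell S F R) →L[ℂ] L2 (Cell S F R')}

lemma ep (hB : Itw L L' B) (ψ : AddChar F ℂ) (f : L2 (Cell S F R)) : B (Ep S F L ψ f) = Ep S F L' ψ (B f) :=
  av_comm hB.tl ψ f

lemma rl (hB : Itw L L' B) (ψ : AddChar F ℂ) (σ : St) (f : L2 (Cell S F R)) :
    B (Rl S F L ψ σ f) = Rl S F L' ψ σ (B f) := by
  cases σ with
  | g =>
    show B (Ep S F L ψ f - Gl S F L (Ep S F L ψ f)) = Ep S F L' ψ (B f) - Gl S F L' (Ep S F L' ψ (B f))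
    rw [map_sub, hB.gl, hB.ep]
  | c => exact hB.ep ψ f
  | m =>
    show B (Ep S F L ψ f + Mi S F L (Ep S F L ψ f)) = Ep S F L' ψ (B f) + Mi S F L' (Ep S F L' ψ (B f))
    rw [map_add, hB.mi, hB.ep]

lemma add (hB : Itw L L' B) (hB' : Itw L L' B') : Itw L L' (B + B') :=
  ⟨fun x f => by simp [hB.tl, hB'.tl], fun f => by simp [hB.mi, hB'.mi], fun f => by simp [hB.gl, hB'.gl]⟩

lemma smul (c : ℂ) (hB : Itw L L' B) : Itw L L' (c • B) :=
  ⟨fun x f => by simp [hB.tl], fun f => by simp [hB.mi], fun f => by simp [hB.gl]⟩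

lemma sum {α : Type*} {s : Finset α} {B : α → L2 (Cell S F R) →L[ℂ] L2 (Cell S F R')} (h : ∀ a ∈ s, Itw L L' (B a)) :
    Itw L L' (∑ a ∈ s, B a) := by
  classical
  induction s using Finset.induction_on with
  | empty => exact ⟨fun x f => by simp, fun f => by simp, fun f => by simp⟩
  | insert a s ha ih =>
    rw [Finset.sum_insert ha]
    exact (h a (Finset.mem_insert_self _ _)).add (ih fun b hb => h b (Finset.mem_insert_of_mem hb))

end Itw

variable {L}

lemma itw_La (t : H) (x : F) : Itw L L (La S F R t x) :=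
  ⟨fun x' f => by
      ext y
      refine congrArg (f : Cell S F R → ℂ) (Cell.ext ?_ rfl)
      show eA t x * y.n * eA (L.ℓ y.r) x' = eA t x * (y.n * eA (L.ℓ y.r) x')
      rw [mul_assoc],
    fun f => by
      ext y
      refine congrArg (f : Cell S F R → ℂ) (Cell.ext ?_ rfl)
      show eA t x * y.n * sW (L.ℓ y.r) = eA t x * (y.n * sW (L.ℓ y.r))
      rw [mul_assoc],
    fun f => by
      ext y
      refine congrArg (f : Cell S F R → ℂ) (Cell.ext ?_ rfl)
      show eA t x * y.n * sW (L.ℓ y.r) = eA t x * (y.n * sW (L.ℓ y.r))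
      rw [mul_assoc]⟩

lemma itw_El (t : H) (ψ : AddChar F ℂ) : Itw L L (El S F R t ψ) := (Itw.sum fun x _ => (itw_La t x).smul _).smul _

/-- the labels of another letter -/
lemma itw_Tl {L' : Ltr H G R} (h : ∀ r, L'.ℓ (L.mv r) = L'.ℓ r) (x : F) : Itw L L (Tl S F L' x) :=
  ⟨fun x' f => by
      ext y
      rw [Tl_apply, Tl_apply, Tl_apply, Tl_apply, Cell.tl_tl'],
    fun f => by
      ext y
      rw [Tl_apply, Mi_apply, Mi_apply, Tl_apply, Cell.tl_mi'],
    fun f => by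
      ext y
      rw [Tl_apply, Gl_apply, Gl_apply, Tl_apply, Cell.tl_gl' L' L h]⟩

lemma itw_Ep {L' : Ltr H G R} (h : ∀ r, L'.ℓ (L.mv r) = L'.ℓ r) (ψ : AddChar F ℂ) : Itw L L (Ep S F L' ψ) :=
  (Itw.sum fun x _ => (itw_Tl h x).smul _).smul _

/-- multiplication by the indicator function of a set invariant under the moves of the letter -/
lemma itw_ind {A : Set (Cell S F R)} (h1 : ∀ x y, y.tl L x ∈ A ↔ y ∈ A) (h2 : ∀ y, y.mi L ∈ A ↔ y ∈ A)
    (h3 : ∀ y, y.gl L ∈ A ↔ y ∈ A) : Itw L L (ind A) :=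
  ⟨fun x f => by
      classical
      ext y
      rw [ind_apply, Tl_apply, Tl_apply, ind_apply]
      simp only [h1],
    fun f => by
      classical
      ext y
      rw [ind_apply, Mi_apply, Mi_apply, ind_apply]
      simp only [h2],
    fun f => by
      classical
      ext y
      rw [ind_apply, Gl_apply, Gl_apply, ind_apply]
      simp only [h3]⟩

section maps
variable {R' : Type*} [MulAction G R'] {L' : Ltr H G R'} {φ : R' → R} {M : ℕ}

/-- composition with a map compatible with the letters -/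
lemma itw_plf (h : Fibre (cm φ : Cell S F R' → Cell S F R) M) (h1 : ∀ r, L.ℓ (φ r) = L'.ℓ r)
    (h2 : ∀ r, L.mv (φ r) = φ (L'.mv r)) : Itw L L' (plf h) :=
  ⟨fun x f => by
      ext y
      refine congrArg (f : Cell S F R → ℂ) (Cell.ext ?_ rfl)
      show y.n * eA (L.ℓ (φ y.r)) x = y.n * eA (L'.ℓ y.r) x
      rw [h1],
    fun f => by
      ext y
      refine congrArg (f : Cell S F R → ℂ) (Cell.ext ?_ rfl)
      show y.n * sW (L.ℓ (φ y.r)) = y.n * sW (L'.ℓ y.r)
      rw [h1],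
    fun f => by
      ext y
      refine congrArg (f : Cell S F R → ℂ) (Cell.ext ?_ ?_)
      · show y.n * sW (L.ℓ (φ y.r)) = y.n * sW (L'.ℓ y.r)
        rw [h1]
      · exact h2 _⟩

/-- sums over the fibres of a map compatible with the letters -/
lemma itw_psf (h : Fibre (cm φ : Cell S F R' → Cell S F R) M) (h1 : ∀ r, L.ℓ (φ r) = L'.ℓ r)
    (h2 : ∀ r, L.mv (φ r) = φ (L'.mv r)) : Itw L' L (psf h) :=
  ⟨fun x f => psf_pull h (p := Cell.tl L' x) (q := Cell.tl L' (-x)) (p' := Cell.tl L x) (q' := Cell.tl L (-x))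
      (fun y => by rw [Cell.tl_tl, add_neg_cancel, Cell.tl_zero])
      (fun y => by rw [Cell.tl_tl, neg_add_cancel, Cell.tl_zero])
      (fun y => by rw [Cell.tl_tl, add_neg_cancel, Cell.tl_zero])
      (fun y => by rw [Cell.tl_tl, neg_add_cancel, Cell.tl_zero]) (fun y => by
        refine Cell.ext ?_ rfl
        show y.n * eA (L'.ℓ y.r) x = y.n * eA (L.ℓ (φ y.r)) x
        rw [h1]) f,
    fun f => psf_pull h (p := Cell.mi L') (q := Cell.mi L') (p' := Cell.mi L) (q' := Cell.mi L)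
      (Cell.mi_mi _) (Cell.mi_mi _) (Cell.mi_mi _) (Cell.mi_mi _) (fun y => by
        refine Cell.ext ?_ rfl
        show y.n * sW (L'.ℓ y.r) = y.n * sW (L.ℓ (φ y.r))
        rw [h1]) f,
    fun f => psf_pull h (p := Cell.gl L') (q := Cell.gl L') (p' := Cell.gl L) (q' := Cell.gl L)
      (Cell.gl_gl _) (Cell.gl_gl _) (Cell.gl_gl _) (Cell.gl_gl _) (fun y => by
        refine Cell.ext ?_ ?_
        · show y.n * sW (L'.ℓ y.r) = y.n * sW (L.ℓ (φ y.r))
          rw [h1]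
        · exact (h2 _).symm) f⟩

end maps

end ep

/-! ### chains -/

namespace TSet

variable {A B : Type*} [MulAction G A] [MulAction G B] (X : TSet H G A) (K : Kern G A B)
variable (S : Hyp H G) (F : Type*) [AddCommGroup F] [Fintype F]

/-- a function on the cells as a function on the marked cells -/
noncomputable def hat : L2 (Cell S F A) →L[ℂ] L2 (Cell S F X.Mk) := plf (fib_cm (S := S) (F := F) X.fg_fib)

/-- a function on the marked cells as a function on the doubly marked cells -/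
noncomputable def hat1 : L2 (Cell S F X.Mk) →L[ℂ] L2 (Cell S F X.Mk2) := plf (fib_cm (S := S) (F := F) X.f1_fib)

/-- a function on the marked cells as a function on the doubly marked cells, with the second marker -/
noncomputable def hat2 : L2 (Cell S F X.Mk) →L[ℂ] L2 (Cell S F X.Mk2) := plf (fib_cm (S := S) (F := F) X.f2_fib)

/-- the sum over the markers -/
noncomputable def up : L2 (Cell S F X.Mk) →L[ℂ] L2 (Cell S F A) := psf (fib_cm (S := S) (F := F) X.fg_fib)

/-- the sum over the first marker -/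
noncomputable def up2 : L2 (Cell S F X.Mk2) →L[ℂ] L2 (Cell S F X.Mk) := psf (fib_cm (S := S) (F := F) X.f2_fib)

/-- the chains -/
noncomputable def Ch (s : AddChar F ℂ → St) : Submodule ℂ (L2 (Cell S F A)) :=
  ⨅ ψ, LinearMap.ker (((Rl S F X.L ψ (s ψ)).comp (X.hat S F) : L2 (Cell S F A) →L[ℂ] L2 (Cell S F X.Mk)) :
    L2 (Cell S F A) →ₗ[ℂ] L2 (Cell S F X.Mk))

/-- the marked chains -/
noncomputable def Xm (s : AddChar F ℂ → St) : Submodule ℂ (L2 (Cell S F X.Mk)) :=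
  ⨅ ψ, LinearMap.ker (((Rl S F X.L2' ψ (s ψ)).comp (X.hat1 S F) : L2 (Cell S F X.Mk) →L[ℂ] L2 (Cell S F X.Mk2)) :
    L2 (Cell S F X.Mk) →ₗ[ℂ] L2 (Cell S F X.Mk2))

/-- the cells which do not cross `h` -/
def offS (h : H) : Set (Cell S F A) := {y | h ∉ X.T y.r}

/-- the cells with marker `h` -/
def onS (h : H) : Set (Cell S F X.Mk) := {y | y.r.1.2 = h}

/-- the chains which do not cross `h` -/
noncomputable def Chh (s : AddChar F ℂ → St) (h : H) : Submodule ℂ (L2 (Cell S F A)) :=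
  X.Ch S F s ⊓ LinearMap.ker ((1 - ind (X.offS S F h) : L2 (Cell S F A) →L[ℂ] L2 (Cell S F A)) :
    L2 (Cell S F A) →ₗ[ℂ] L2 (Cell S F A))

/-- the closure of the boundaries of the chains which do not cross `h` -/
noncomputable def Bdh (s : AddChar F ℂ → St) (h : H) : Submodule ℂ (L2 (Cell S F B)) :=
  ((X.Chh S F s h).map (K.D S F : L2 (Cell S F A) →ₗ[ℂ] L2 (Cell S F B))).topologicalClosure

/-- the boundary of the part over `h` -/
noncomputable def Dh (h : H) : L2 (Cell S F X.Mk) →L[ℂ] L2 (Cell S F B) :=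
  (K.D S F).comp ((X.up S F).comp (ind (X.onS S F h)))

/-- the cycles -/
noncomputable def Cyc (s : AddChar F ℂ → St) : Submodule ℂ (L2 (Cell S F A)) :=
  X.Ch S F s ⊓ LinearMap.ker (K.D S F : L2 (Cell S F A) →ₗ[ℂ] L2 (Cell S F B))

/-- the marked chains with boundaries which are limits of boundaries of chains which do not cross the marker -/
noncomputable def Km (s : AddChar F ℂ → St) : Submodule ℂ (L2 (Cell S F X.Mk)) :=
  X.Xm S F s ⊓ ⨅ h : H, (X.Bdh K S F s h).comap (X.Dh K S F h : L2 (Cell S F X.Mk) →ₗ[ℂ] L2 (Cell S F B))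

/-- the symmetric part for the glue move of the marker -/
noncomputable def syG : Submodule ℂ (L2 (Cell S F X.Mk)) :=
  LinearMap.ker ((1 - Gl S F X.L : L2 (Cell S F X.Mk) →L[ℂ] L2 (Cell S F X.Mk)) :
    L2 (Cell S F X.Mk) →ₗ[ℂ] L2 (Cell S F X.Mk))

/-- the antisymmetric part for the glue move of the marker -/
noncomputable def asG : Submodule ℂ (L2 (Cell S F X.Mk)) :=
  LinearMap.ker ((1 + Gl S F X.L : L2 (Cell S F X.Mk) →L[ℂ] L2 (Cell S F X.Mk)) :
    L2 (Cell S F X.Mk) →ₗ[ℂ] L2 (Cell S F X.Mk))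

/-- the antisymmetric part for the mirror move of the marker -/
noncomputable def asM : Submodule ℂ (L2 (Cell S F X.Mk)) :=
  LinearMap.ker ((1 + Mi S F X.L : L2 (Cell S F X.Mk) →L[ℂ] L2 (Cell S F X.Mk)) :
    L2 (Cell S F X.Mk) →ₗ[ℂ] L2 (Cell S F X.Mk))

/-- the marker has the label `ψ` -/
noncomputable def ran (ψ : AddChar F ℂ) : Submodule ℂ (L2 (Cell S F X.Mk)) :=
  LinearMap.ker ((1 - Ep S F X.L ψ : L2 (Cell S F X.Mk) →L[ℂ] L2 (Cell S F X.Mk)) :
    L2 (Cell S F X.Mk) →ₗ[ℂ] L2 (Cell S F X.Mk))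

variable {X K S F} {s : AddChar F ℂ → St}

@[simp] lemma hat_apply (f : L2 (Cell S F A)) (y : Cell S F X.Mk) : X.hat S F f y = f ⟨y.n, y.r.1.1⟩ := rfl
@[simp] lemma hat1_apply (f : L2 (Cell S F X.Mk)) (y : Cell S F X.Mk2) : X.hat1 S F f y = f ⟨y.n, X.f1 y.r⟩ := rfl
@[simp] lemma hat2_apply (f : L2 (Cell S F X.Mk)) (y : Cell S F X.Mk2) : X.hat2 S F f y = f ⟨y.n, X.f2 y.r⟩ := rfl

lemma mem_Ch {f : L2 (Cell S F A)} : f ∈ X.Ch S F s ↔ ∀ ψ, Rl S F X.L ψ (s ψ) (X.hat S F f) = 0 := by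
  unfold Ch
  rw [Submodule.mem_iInf]
  exact Iff.rfl

lemma mem_Xm {f : L2 (Cell S F X.Mk)} : f ∈ X.Xm S F s ↔ ∀ ψ, Rl S F X.L2' ψ (s ψ) (X.hat1 S F f) = 0 := by
  unfold Xm
  rw [Submodule.mem_iInf]
  exact Iff.rfl

lemma mem_Chh {h : H} {f : L2 (Cell S F A)} : f ∈ X.Chh S F s h ↔ f ∈ X.Ch S F s ∧ ind (X.offS S F h) f = f := by
  refine and_congr Iff.rfl ?_
  show f - ind (X.offS S F h) f = 0 ↔ _
  rw [sub_eq_zero, eq_comm]

lemma mem_Cyc {f : L2 (Cell S F A)} : f ∈ X.Cyc K S F s ↔ f ∈ X.Ch S F s ∧ K.D S F f = 0 := Iff.rfl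

lemma mem_Km {f : L2 (Cell S F X.Mk)} : f ∈ X.Km K S F s ↔ f ∈ X.Xm S F s ∧
    ∀ h, K.D S F (X.up S F (ind (X.onS S F h) f)) ∈ X.Bdh K S F s h := by
  unfold Km
  rw [Submodule.mem_inf, Submodule.mem_iInf]
  exact Iff.rfl

lemma mem_syG {f : L2 (Cell S F X.Mk)} : f ∈ X.syG S F ↔ Gl S F X.L f = f := by
  show f - Gl S F X.L f = 0 ↔ _
  rw [sub_eq_zero, eq_comm]

lemma mem_asG {f : L2 (Cell S F X.Mk)} : f ∈ X.asG S F ↔ Gl S F X.L f = -f := by
  show f + Gl S F X.L f = 0 ↔ _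
  rw [add_comm f, add_eq_zero_iff_eq_neg]

lemma mem_asM {f : L2 (Cell S F X.Mk)} : f ∈ X.asM S F ↔ Mi S F X.L f = -f := by
  show f + Mi S F X.L f = 0 ↔ _
  rw [add_comm f, add_eq_zero_iff_eq_neg]

lemma mem_ran {ψ : AddChar F ℂ} {f : L2 (Cell S F X.Mk)} : f ∈ X.ran S F ψ ↔ Ep S F X.L ψ f = f := by
  show f - Ep S F X.L ψ f = 0 ↔ _
  rw [sub_eq_zero, eq_comm]

/-! ### the letters -/

lemma itw_hat1 : Itw X.L X.L1 (X.hat1 S F) := itw_plf _ (fun _ => rfl) fun _ => rfl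

lemma itw_hat2 : Itw X.L X.L2' (X.hat2 S F) := itw_plf _ (fun _ => rfl) fun _ => rfl

lemma itw_up2 : Itw X.L2' X.L (X.up2 S F) := itw_psf _ (fun _ => rfl) fun _ => rfl

lemma hat1_hat (f : L2 (Cell S F A)) : X.hat1 S F (X.hat S F f) = X.hat2 S F (X.hat S F f) := rfl

lemma up_apply (f : L2 (Cell S F X.Mk)) (y : Cell S F A) :
    X.up S F f y = ∑ t ∈ (X.T y.r).attach, f ⟨y.n, ⟨(y.r, t.1), t.2⟩⟩ := by
  have h : X.up S F f y = ∑ z ∈ ((fib_cm (S := S) (F := F) X.fg_fib).fin y).toFinset, f z := psf_apply _ f y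
  rw [h]
  refine Finset.sum_bij' (fun z hz => (⟨z.r.1.2, by
      have hz' : cm X.fg z = y := ((fib_cm (S := S) (F := F) X.fg_fib).fin y).mem_toFinset.1 hz
      rw [← hz']
      exact z.r.2⟩ : {t // t ∈ X.T y.r}))
    (fun t _ => (⟨y.n, ⟨(y.r, t.1), t.2⟩⟩ : Cell S F X.Mk)) ?_ ?_ ?_ ?_ ?_
  · intro z hz
    exact Finset.mem_attach _ _
  · intro t ht
    rw [Set.Finite.mem_toFinset]
    rfl
  · intro z hz
    have hz' : cm X.fg z = y := ((fib_cm (S := S) (F := F) X.fg_fib).fin y).mem_toFinset.1 hz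
    subst hz'
    rfl
  · intro t ht
    rfl
  · intro z hz
    have hz' : cm X.fg z = y := ((fib_cm (S := S) (F := F) X.fg_fib).fin y).mem_toFinset.1 hz
    subst hz'
    rfl

/-- the part over `h` of a function on the cells -/
lemma up_on_hat (h : H) (f : L2 (Cell S F A)) :
    X.up S F (ind (X.onS S F h) (X.hat S F f)) = f - ind (X.offS S F h) f := by
  classical
  ext y
  rw [up_apply, lp.coeFn_sub, Pi.sub_apply, ind_apply]
  have h1 : ∀ t : {t // t ∈ X.T y.r}, ind (X.onS S F h) (X.hat S F f) ⟨y.n, ⟨(y.r, t.1), t.2⟩⟩ =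
      if t.1 = h then f y else 0 := by
    intro t
    rw [ind_apply]
    rfl
  rw [Finset.sum_congr rfl fun t _ => h1 t]
  by_cases hy : h ∈ X.T y.r
  · have h2 : y ∉ X.offS S F h := fun h' => h' hy
    rw [if_neg h2, sub_zero, Finset.sum_eq_single ⟨h, hy⟩]
    · rw [if_pos rfl]
    · intro t _ ht
      rw [if_neg fun h' => ht (Subtype.ext h')]
    · intro h'
      exact absurd (Finset.mem_attach _ _) h'
  · have h2 : y ∈ X.offS S F h := hy
    rw [if_pos h2, sub_self]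
    refine Finset.sum_eq_zero fun t _ => ?_
    rw [if_neg]
    rintro h'
    exact hy (h' ▸ t.2)

/-- the marked part of the sum over the markers -/
lemma hat_up (u : L2 (Cell S F X.Mk)) : X.hat S F (X.up S F u) = u + X.up2 S F (X.hat1 S F u) := by
  classical
  ext y
  rw [hat_apply, up_apply, lp.coeFn_add, Pi.add_apply]
  have h : X.up2 S F (X.hat1 S F u) y = ∑ z ∈ ((fib_cm (S := S) (F := F) X.f2_fib).fin y).toFinset,
      X.hat1 S F u z := psf_apply _ _ y
  rw [h, ← Finset.add_sum_erase _ _ (Finset.mem_attach _ (⟨y.r.1.2, y.r.2⟩ : {t // t ∈ X.T y.r.1.1}))]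
  congr 1
  symm
  refine Finset.sum_bij' (fun z hz => (⟨z.r.1.2.1, by
      have hz' : cm X.f2 z = y := ((fib_cm (S := S) (F := F) X.f2_fib).fin y).mem_toFinset.1 hz
      rw [← hz']
      exact z.r.2.1⟩ : {t // t ∈ X.T y.r.1.1}))
    (fun t ht => (⟨y.n, ⟨(y.r.1.1, t.1, y.r.1.2), t.2, y.r.2, fun h' =>
      (Finset.mem_erase.1 ht).1 (Subtype.ext h')⟩⟩ : Cell S F X.Mk2)) ?_ ?_ ?_ ?_ ?_
  · intro z hz
    have hz' : cm X.f2 z = y := ((fib_cm (S := S) (F := F) X.f2_fib).fin y).mem_toFinset.1 hz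
    rw [Finset.mem_erase]
    refine ⟨fun h' => ?_, Finset.mem_attach _ _⟩
    have h1 : z.r.1.2.1 = y.r.1.2 := congrArg Subtype.val h'
    rw [← hz'] at h1
    exact z.r.2.2.2 h1
  · intro t ht
    rw [Set.Finite.mem_toFinset]
    rfl
  · intro z hz
    have hz' : cm X.f2 z = y := ((fib_cm (S := S) (F := F) X.f2_fib).fin y).mem_toFinset.1 hz
    subst hz'
    rfl
  · intro t ht
    rfl
  · intro z hz
    have hz' : cm X.f2 z = y := ((fib_cm (S := S) (F := F) X.f2_fib).fin y).mem_toFinset.1 hz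
    subst hz'
    rfl

/-! ### equivariance -/

lemma equi_hat : Equi (Gh S F) (X.hat S F) := equi_plf _ fun g y => cm_smul (fun _ _ => rfl) g y
lemma equi_hat1 : Equi (Gh S F) (X.hat1 S F) := equi_plf _ fun g y => cm_smul (fun _ _ => rfl) g y
lemma equi_up : Equi (Gh S F) (X.up S F) := equi_psf _ fun g y => cm_smul (fun _ _ => rfl) g y

lemma mdl_Ch : Mdl (Gh S F) (X.Ch S F s) := Mdl.iInf fun ψ => mdl_ker ((equi_Rl X.L ψ (s ψ)).comp equi_hat)

lemma mdl_Xm : Mdl (Gh S F) (X.Xm S F s) := Mdl.iInf fun ψ => mdl_ker ((equi_Rl X.L2' ψ (s ψ)).comp equi_hat1)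

lemma mdl_Cyc : Mdl (Gh S F) (X.Cyc K S F s) := mdl_Ch.inf (mdl_ker K.equi_D)

lemma mdl_syG : Mdl (Gh S F) (X.syG S F) := mdl_ker (equi_one.sub (equi_Gl X.L))

lemma mdl_asG : Mdl (Gh S F) (X.asG S F) := mdl_ker (equi_one.add (equi_Gl X.L))

lemma mdl_asM : Mdl (Gh S F) (X.asM S F) := mdl_ker (equi_one.add (equi_Mi X.L))

lemma mdl_ran (ψ : AddChar F ℂ) : Mdl (Gh S F) (X.ran S F ψ) := mdl_ker (equi_one.sub (equi_Ep X.L ψ))

end TSet

end Cm
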