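import Pool.Agent.Cm.Es

/-!
# Mirror inequality: finiteness of the numbers of orbits; statements of the end points
-/

set_option autoImplicit false
set_option linter.unusedSectionVars false
set_option linter.unusedVariables false

open scoped ComplexConjugate InnerProductSpace
open Filter Topology

namespace Cm

open Singer
open Npc (Cof Orb vd vd_nonneg vd_top)

section gen
variable {Γ : Type*} [Group Γ] {Y Z : Type*} [MulAction Γ Y] [MulAction Γ Z]

/-- free actions with finitely many orbits, pulled back by an equivariant map with finite fibres -/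
theorem cof_of_fib [Cof Γ Y] (φ : Z → Y) (h1 : ∀ (g : Γ) z, φ (g • z) = g • φ z) (h2 : ∀ y, {z | φ z = y}.Finite) :
    Cof Γ Z where
  free g z h := Cof.free g (φ z) (by rw [← h1, h])
  fin := by
    have h3 : Finite {z : Z // ∃ q : Orb Γ Y, φ z = q.out} := by
      have h4 : {z : Z | ∃ q : Orb Γ Y, φ z = q.out} = ⋃ q : Orb Γ Y, {z | φ z = q.out} := by
        ext z
        simp
      have h5 : {z : Z | ∃ q : Orb Γ Y, φ z = q.out}.Finite := by
        rw [h4]
        exact Set.finite_iUnion fun q => h2 _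
      exact h5.to_subtype
    refine Finite.of_surjective (fun z : {z : Z // ∃ q : Orb Γ Y, φ z = q.out} => (Quotient.mk'' z.1 : Orb Γ Z)) ?_
    intro q
    induction q using Quotient.inductionOn' with | h z => ?_
    obtain ⟨g, hg⟩ : ∃ g : Γ, g • φ z = (Quotient.mk'' (φ z) : Orb Γ Y).out :=
      Quotient.mk_out (s := MulAction.orbitRel Γ Y) (φ z)
    refine ⟨⟨g • z, Quotient.mk'' (φ z), ?_⟩, Quotient.sound' ⟨g, rfl⟩⟩
    rw [h1, hg]

end gen

variable {H G : Type*} [Group G] [MulAction G H]

section cell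
variable (S : Hyp H G) (F : Type*) [AddCommGroup F] (R : Type*) [MulAction G R] [Cof G R]

instance cof_Cell : Cof (Gh S F) (Cell S F R) where
  free x y h := by
    have h1 : x.right = 1 := Cof.free _ _ (congrArg Cell.r h)
    have h2 : x.left * x.right • y.n = y.n := congrArg Cell.n h
    rw [h1, one_smul] at h2
    exact SemidirectProduct.ext (mul_eq_right.1 h2) h1
  fin := by
    refine Finite.of_surjective (fun q : Orb G R => (Quotient.mk'' (⟨1, q.out⟩ : Cell S F R) :
      Orb (Gh S F) (Cell S F R))) ?_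
    intro q
    induction q using Quotient.inductionOn' with | h y => ?_
    obtain ⟨g, hg⟩ : ∃ g : G, g • y.r = (Quotient.mk'' y.r : Orb G R).out :=
      Quotient.mk_out (s := MulAction.orbitRel G R) y.r
    refine ⟨Quotient.mk'' y.r, Quotient.sound' ⟨⟨(g • y.n)⁻¹, g⟩, ?_⟩⟩
    refine Cell.ext ?_ ?_
    · show (g • y.n)⁻¹ * g • y.n = 1
      rw [inv_mul_cancel]
    · exact hg

/-- the number of the orbits of the cells does not depend on the labels -/
theorem card_orb_le : Fintype.card (Orb (Gh S F) (Cell S F R)) ≤ Fintype.card (Orb G R) := by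
  refine Fintype.card_le_of_surjective
    (fun q : Orb G R => (Quotient.mk'' (⟨1, q.out⟩ : Cell S F R) : Orb (Gh S F) (Cell S F R))) ?_
  intro q
  induction q using Quotient.inductionOn' with | h y => ?_
  obtain ⟨g, hg⟩ : ∃ g : G, g • y.r = (Quotient.mk'' y.r : Orb G R).out :=
    Quotient.mk_out (s := MulAction.orbitRel G R) y.r
  refine ⟨Quotient.mk'' y.r, Quotient.sound' ⟨⟨(g • y.n)⁻¹, g⟩, ?_⟩⟩
  refine Cell.ext ?_ ?_
  · show (g • y.n)⁻¹ * g • y.n = 1
    rw [inv_mul_cancel]
  · exact hg

end cell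

section ts
variable {A : Type*} [MulAction G A] (X : TSet H G A) [Cof G A]

instance cof_Mk : Cof G X.Mk := cof_of_fib X.fg (fun _ _ => rfl) fun a => (X.fg_fib a).1

end ts

namespace ES
variable {S : Hyp H G} {P : Type*} {E : ℕ → Type*} [MulAction G P] [∀ j, MulAction G (E j)] (X : ES S P E)

instance cof_Cn (j : ℕ) [Cof G (E j)] : Cof G (X.Cn j) := by
  refine cof_of_fib (fun p : X.Cn j => p.e) (fun _ _ => rfl) fun e => ?_
  have h1 : Set.InjOn (fun p : X.Cn j => p.k) {p : X.Cn j | p.e = e} := by
    rintro p hp q hq h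
    exact Cn.ext h ((show p.e = e from hp).trans (show q.e = e from hq).symm)
  have h2 : Set.MapsTo (fun p : X.Cn j => p.k) {p : X.Cn j | p.e = e} (X.V e : Set P) := by
    rintro p rfl
    exact p.h
  exact Set.Finite.of_injOn h2 h1 (Finset.finite_toSet _)

instance cof_Ex (x : P) (j : ℕ) [Cof G (E j)] : Cof (MulAction.stabilizer G x) (X.Ex x j) where
  free g e h := Subtype.ext (Cof.free (g : G) e.e (congrArg Ex.e h))
  fin := by
    -- the orbits of the stabilizer on the cells at `x` inject into the orbits of the corners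
    refine Finite.of_injective (β := Orb G (X.Cn j)) (Quotient.lift (fun e : X.Ex x j =>
      (Quotient.mk'' (⟨x, e.e, e.h⟩ : X.Cn j) : Orb G (X.Cn j))) ?_) ?_
    · rintro e e' ⟨g, hg⟩
      refine Quotient.sound' ⟨(g : G), ?_⟩
      refine Cn.ext g.2 ?_
      have h1 : (g • e').e = e.e := congrArg Ex.e hg
      exact h1
    · intro q q' h
      induction q using Quotient.inductionOn' with | h e => ?_
      induction q' using Quotient.inductionOn' with | h e' => ?_
      obtain ⟨g, hg⟩ : ∃ g : G, g • (⟨x, e'.e, e'.h⟩ : X.Cn j) = ⟨x, e.e, e.h⟩ := Quotient.exact' h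
      have h1 : g • x = x := congrArg Cn.k hg
      have h2 : g • e'.e = e.e := congrArg Cn.e hg
      exact Quotient.sound' ⟨⟨g, h1⟩, Ex.ext h2⟩

/-! ### Betti numbers -/

section betti
variable [∀ j, Cof G (E j)]

/-- the dimension of the cycles of degree `j + 1` -/
noncomputable def zE (j : ℕ) : ℝ := vd G (LinearMap.ker ((X.kE j).op : L2 (E (j + 1)) →ₗ[ℂ] L2 (E j)))

/-- the dimension of the chains of degree `j` -/
noncomputable def cE (X : ES S P E) (j : ℕ) : ℝ := vd G (⊤ : Submodule ℂ (L2 (E j)))

/-- the Betti numbers -/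
noncomputable def bE : ℕ → ℝ
  | 0 => X.cE 0 - (X.cE 1 - X.zE 0)
  | i + 1 => X.zE i - (X.cE (i + 2) - X.zE (i + 1))

/-- the dimension of the mirrored cycles of degree `j + 1` at the vertex `x` -/
noncomputable def zx (x : P) (j : ℕ) : ℝ :=
  vd (Gh (X.Sx x) Unit) ((X.tx x (j + 1)).Cyc (X.kx x j) (X.Sx x) Unit mir)

/-- the dimension of the mirrored chains of degree `j` at the vertex `x` -/
noncomputable def cx (x : P) (j : ℕ) : ℝ := vd (Gh (X.Sx x) Unit) ((X.tx x j).Ch (X.Sx x) Unit mir)

/-- the mirrored Betti numbers at the vertex `x` -/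
noncomputable def bx (x : P) : ℕ → ℝ
  | 0 => X.cx x 0 - (X.cx x 1 - X.zx x 0)
  | i + 1 => X.zx x i - (X.cx x (i + 2) - X.zx x (i + 1))

end betti

end ES

end Cm
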