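import Pool.Agent.Cm.Hsp
import Pool.Agent.Npc.Core

/-!
# Mirror inequality: the telescoping argument

`core` : for an equivariant matrix `K` from a `G`-set `A` with letters and flips, the dimension of the glued cycles is at
most the dimension of the mirrored cycles.
-/

set_option autoImplicit false
set_option linter.unusedSectionVars false
set_option linter.unusedVariables false

open scoped ComplexConjugate InnerProductSpace
open Filter Topology

namespace Cm

open Singer
open Npc (Cof St vd vd_nonneg vd_le_card Orb Tel le_of_tel stt stt_zero stt_top stt_g stt_c stt_update_c stt_update_m)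

namespace TSet
variable {H G : Type*} [Group G] [MulAction G H] {S : Hyp H G}
variable {A B : Type*} [MulAction G A] [MulAction G B] [Cof G A] [Cof G B]

/-- the telescoping argument, for a finite group of labels -/
theorem core_tel (X : TSet H G A) (K : Kern G A B) {N : ℕ} (F : Type*) [AddCommGroup F] [Fintype F]
    (hN : Fintype.card F = N) (e : AddChar F ℂ ≃ Fin N) :
    Tel N (Fintype.card (Orb G X.Mk))
      (fun p q => vd (Gh S F) (X.Cyc K S F (stt e p q))) (fun p q => vd (Gh S F) (X.Km K S F (stt e p q) ⊓ X.syG S F)) where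
  cut p q hpq hq := by
    have h := cut_step (X := X) (K := K) (S := S) (F := F) (s := stt e p q) (q := e.symm ⟨q, hq⟩) (stt_g e hpq hq)
    rw [stt_update_c e hpq hq, km_labG, hN] at h
    exact h
  mir p q hpq hq := by
    have hp : p < N := by omega
    have h := mir_step (X := X) (K := K) (S := S) (F := F) (s := stt e p q) (p := e.symm ⟨p, hp⟩) (stt_c e hpq hp)
    rw [stt_update_m e hp, km_labM, hN] at h
    exact (div_le_div_of_nonneg_right km_le (Nat.cast_nonneg _)).trans h
  nonneg p q _ _ := vd_nonneg _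
  le p q _ _ := (vd_le_card _).trans (by exact_mod_cast card_orb_le S F X.Mk)

/-- **the comparison of the cycles** -/
theorem core (X : TSet H G A) (K : Kern G A B) {a b : ℝ}
    (ha : ∀ (N : ℕ) [NeZero N], vd (Gh S (ZMod N)) (X.Cyc K S (ZMod N) ES.glu) = a)
    (hb : ∀ (N : ℕ) [NeZero N], vd (Gh S (ZMod N)) (X.Cyc K S (ZMod N) ES.mir) = b) : a ≤ b := by
  refine le_of_tel (C := Fintype.card (Orb G X.Mk)) fun N₀ => ⟨N₀ + 1, Nat.le_succ _, ?_⟩
  have hcard : Fintype.card (AddChar (ZMod (N₀ + 1)) ℂ) = N₀ + 1 := by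
    rw [AddChar.card_eq, ZMod.card]
  have e : AddChar (ZMod (N₀ + 1)) ℂ ≃ Fin (N₀ + 1) := Fintype.equivFinOfCardEq hcard
  refine ⟨_, _, core_tel (S := S) X K (ZMod (N₀ + 1)) (ZMod.card _) e, ?_, ?_⟩
  · show vd _ (X.Cyc K S (ZMod (N₀ + 1)) (stt e 0 0)) = a
    rw [stt_zero]
    exact ha _
  · show vd _ (X.Cyc K S (ZMod (N₀ + 1)) (stt e (N₀ + 1) (N₀ + 1))) = b
    rw [stt_top]
    exact hb _

end TSet

end Cm
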