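import Pool.Agent.Cm.Sq
import Pool.Agent.Singer.Desc

/-!
# The square system of a right-angled Coxeter group

`coxSq L` : the vertices are the elements of `RACG L`, the flip across the letter `t` is the right multiplication by the
generator `t`; `coxLn` : the word length, for any number of generators; `coxSq_hgt` : it is a height function.
-/

set_option autoImplicit false
set_option linter.unusedSectionVars false
set_option linter.unusedVariables false

namespace Cm

open Singer Singer.Racg

section cox
variable {V : Type*} (L : SimpleGraph V)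

/-- the square system of a right-angled Coxeter group -/
def coxSq : Sq V (RACG L) where
  C := L
  dir _ := Set.univ
  fl t w := w * gen L t
  dir_self _ _ _ := trivial
  fl_fl t k _ := by rw [mul_assoc, gen_mul_gen, mul_one]
  dir_adj _ _ _ _ _ _ := trivial
  fl_comm t u k h _ _ := by rw [mul_assoc, mul_assoc, gen_comm h]

variable {L}

/-- the number of the walls of type `s` between `1` and `w` -/
noncomputable def lns (w : RACG L) (s : V) : ℕ := (act w⁻¹ (x0 : St L s)).2.1.length

lemma lns_mul_ne {s t : V} (h : s ≠ t) (w : RACG L) : lns (w * gen L t) s = lns w s := by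
  unfold lns
  rw [mul_inv_rev, gen_inv, act_mul_ne h.symm]
  rfl

lemma lns_mul {s : V} {w : RACG L} (h : ¬ Rd s w) : lns (w * gen L s) s = lns w s + 1 := by
  unfold lns
  rw [mul_inv_rev, gen_inv]
  have h2 := length_actA (act w⁻¹ (x0 : St L s))
  rw [act_mul_self]
  have h3 : ¬ Hd (act w⁻¹ (x0 : St L s)) := h
  rw [if_neg h3, if_neg h3] at h2
  exact h2

lemma lns_one (s : V) : lns (1 : RACG L) s = 0 := by
  unfold lns
  rw [inv_one, map_one]
  rfl

lemma lns_fin (w : RACG L) : (Function.support (lns w)).Finite := by
  have key : ∀ w : RACG L, (Function.support (lns w⁻¹)).Finite := by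
    intro w
    induction w using Racg.induction with
    | h1 =>
      rw [inv_one]
      have h : Function.support (lns (1 : RACG L)) = ∅ := by
        ext s
        simp [lns_one]
      rw [h]
      exact Set.finite_empty
    | hm v w ih =>
      rw [mul_inv_rev, gen_inv]
      refine (ih.union (Set.finite_singleton v)).subset ?_
      intro s hs
      by_cases h : s = v
      · exact Or.inr h
      · refine Or.inl ?_
        rw [Function.mem_support, lns_mul_ne h] at hs
        exact hs
  have h := key w⁻¹
  rwa [inv_inv] at h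

/-- the word length -/
noncomputable def coxLn (w : RACG L) : ℕ := ∑ᶠ s, lns w s

lemma coxLn_one : coxLn (1 : RACG L) = 0 := by
  unfold coxLn
  rw [← finsum_zero (α := V)]
  exact finsum_congr fun s => lns_one s

lemma coxLn_mul {s : V} {w : RACG L} (h : ¬ Rd s w) : coxLn (w * gen L s) = coxLn w + 1 := by
  classical
  have h1 : ∀ w' : RACG L, coxLn w' = ∑ t ∈ (insert s ((lns_fin w).toFinset ∪ (lns_fin w').toFinset)), lns w' t := by
    intro w'
    refine finsum_eq_sum_of_support_subset _ ?_
    intro t ht
    rw [Finset.mem_coe, Finset.mem_insert, Finset.mem_union]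
    exact Or.inr (Or.inr ((lns_fin w').mem_toFinset.2 ht))
  have h2 : coxLn w = ∑ t ∈ (insert s ((lns_fin w).toFinset ∪ (lns_fin (w * gen L s)).toFinset)), lns w t := by
    refine finsum_eq_sum_of_support_subset _ ?_
    intro t ht
    rw [Finset.mem_coe, Finset.mem_insert, Finset.mem_union]
    exact Or.inr (Or.inl ((lns_fin w).mem_toFinset.2 ht))
  rw [h1 (w * gen L s), h2, ← Finset.add_sum_erase _ _ (Finset.mem_insert_self _ _),
    ← Finset.add_sum_erase _ (lns w) (Finset.mem_insert_self _ _), lns_mul h]
  have h3 : ∑ t ∈ (insert s ((lns_fin w).toFinset ∪ (lns_fin (w * gen L s)).toFinset)).erase s, lns (w * gen L s) t =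
      ∑ t ∈ (insert s ((lns_fin w).toFinset ∪ (lns_fin (w * gen L s)).toFinset)).erase s, lns w t :=
    Finset.sum_congr rfl fun t ht => lns_mul_ne (Finset.ne_of_mem_erase ht) w
  rw [h3]
  omega

lemma coxLn_mul' {s : V} {w : RACG L} (h : Rd s w) : coxLn (w * gen L s) + 1 = coxLn w := by
  have h1 := coxLn_mul (w := w * gen L s) (s := s) (by rw [rd_self]; exact fun h2 => h2 h)
  rw [mul_assoc, gen_mul_gen, mul_one] at h1
  exact h1.symm

lemma coxLn_lt_iff {s : V} {w : RACG L} : coxLn (w * gen L s) < coxLn w ↔ Rd s w := by
  by_cases h : Rd s w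
  · have := coxLn_mul' h
    exact ⟨fun _ => h, fun _ => by omega⟩
  · have := coxLn_mul h
    exact ⟨fun _ => by omega, fun h' => absurd h' h⟩

/-- the word length is a height function -/
theorem coxSq_hgt (L : SimpleGraph V) : Hgt (coxSq L) (1 : RACG L) coxLn where
  zero := coxLn_one
  step t k _ := by
    show coxLn (k * gen L t) = coxLn k + 1 ∨ coxLn k = coxLn (k * gen L t) + 1
    by_cases h : Rd t k
    · exact Or.inr (coxLn_mul' h).symm
    · exact Or.inl (coxLn_mul h)
  desc k hk := by
    obtain ⟨s, hs⟩ := exists_rd hk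
    exact ⟨s, trivial, coxLn_lt_iff.2 hs⟩
  adj t u k _ _ hne h1 h2 := rd_clique hne (coxLn_lt_iff.1 h1) (coxLn_lt_iff.1 h2)
  inv t u k h _ _ := by
    show coxLn (k * gen L t * gen L u) < coxLn (k * gen L t) ↔ coxLn (k * gen L u) < coxLn k
    rw [coxLn_lt_iff, coxLn_lt_iff]
    exact rd_adj h.symm k

end cox

end Cm
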