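import Pool.Agent.Cm.CubSK
import Pool.Agent.Cm.Cells
import Pool.Agent.Cm.Cof

/-!
# Mirror inequality: the cell system of a median graph

* `cubHyp hX G` : the crossing graph of the hyperplanes;
* `cubES hX hG hn` : the cell system over the cubes of a median graph;
* `allJ_succ`, `allJ_zero`, `allJ_bd`, `allJ_surj`, `locJ_succ`, `locJ_zero`, `locJ_surj` : exactness;
* `finite_orb`, `exists_rps` : finiteness.
-/

set_option autoImplicit false
set_option linter.unusedSectionVars false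
set_option linter.unusedVariables false

open scoped Pointwise

namespace Cm

open Npc (Median hs mem_hs dirSet mk_mem_dirSet flip_mk square_of_cross cross_of_square GraphAct Orb Cof)
open Singer

variable {P : Type*} {X : SimpleGraph P} {G : Type*} [Group G] [MulAction G P] [hA : GraphAct G X]

/-- the crossing graph of the hyperplanes of a median graph -/
def cubHyp (hX : Median X) (G : Type*) [Group G] [MulAction G P] [hA : GraphAct G X] : Hyp (Npc.Hyp X) G where
  C := hX.crossG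
  adj g t u := Npc.cross_smul g t u

/-- the flips of a cube act transitively on its vertices -/
lemma cub_tr {hX : Median X} (C : Cub X) {k k' : P} (h : k ∈ C) (h' : k' ∈ C) :
    Relation.ReflTransGen (fun a b => ∃ t ∈ hy hX C, b = Npc.flip t a) k k' := by
  refine cub_induction hX (Cub.cross hX h)
    (p := fun x => Relation.ReflTransGen (fun a b => ∃ t ∈ hy hX C, b = Npc.flip t a) k x)
    Relation.ReflTransGen.refl ?_ ?_
  · intro x hx hxc ih t ht
    exact ih.tail ⟨t, ht, rfl⟩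
  · have h1 : k' ∈ C.1 := h'
    rw [Cub.eq_cub hX h] at h1
    exact h1

variable {hX : Median X}
variable {R : Rps G (Cub X)} {D : R.I → (R.E →₀ ℤ)} {n : ℕ}

open Classical in
/-- the cell system over the cubes of a median graph -/
noncomputable def cubES (hG : Good (cubSK hX) R D n) (hn : ∀ C : Cub X, cdim hX C < n) :
    ES (cubHyp hX G) P (EJ (cubSK hX) R) where
  fl := Npc.flip
  dr := dirSet X
  T e := hy hX (cbJ e)
  V e := (Cub.finite hX (cbJ e)).toFinset
  inc e e' := incJ D e e'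
  fl_smul g t k := flip_smul hX g t k
  dr_smul g t k := Npc.smul_mem_dirSet g t k
  T_smul g t e := by
    rw [cbJ_smul]
    exact mem_hy_smul hX g _ t
  V_smul g k e := by
    rw [Set.Finite.mem_toFinset, Set.Finite.mem_toFinset, cbJ_smul]
    exact Cub.smul_mem g _ k
  V_ne e := by
    obtain ⟨k, hk⟩ := Cub.nonempty hX (cbJ e)
    exact ⟨k, (Cub.finite hX (cbJ e)).mem_toFinset.2 hk⟩
  T_dr e t k ht hk := (Cub.cross hX ((Cub.finite hX (cbJ e)).mem_toFinset.1 hk)).dir t ht
  T_adj e t u ht hu htu := by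
    obtain ⟨k, hk⟩ := Cub.nonempty hX (cbJ e)
    exact (Cub.cross hX hk).cross t ht u hu htu
  fl_V e t k ht hk := by
    rw [Set.Finite.mem_toFinset] at hk ⊢
    exact flip_mem hX hk ht
  fl_fl e t k ht hk := flip_flip hX ((Cub.cross hX ((Cub.finite hX (cbJ e)).mem_toFinset.1 hk)).dir t ht)
  tr e k k' hk hk' := cub_tr (cbJ e) ((Cub.finite hX (cbJ e)).mem_toFinset.1 hk)
    ((Cub.finite hX (cbJ e)).mem_toFinset.1 hk')
  inc_smul g e e' := incJ_smul g e e'
  inc_T e e' h := hy_mono hX (incJ_le hG hn h)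
  inc_V e e' h := by
    intro k hk
    rw [Set.Finite.mem_toFinset] at hk ⊢
    exact (incJ_le hG hn h) hk
  bd := 2 ^ n
  card_T e := (hn (cbJ e)).le.trans (Nat.lt_two_pow_self).le
  card_V e := by
    have h1 := ncard_Cub hX (cbJ e)
    rw [Set.ncard_eq_toFinset_card _ (Cub.finite hX (cbJ e))] at h1
    rw [h1]
    exact Nat.pow_le_pow_right (by norm_num) (hn (cbJ e)).le
  M j := (exists_bound (S := cubSK hX) (P := R) (D := D) j).choose
  row {j} := (exists_bound (S := cubSK hX) (P := R) (D := D) j).choose_spec.1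
  col {j} := (exists_bound (S := cubSK hX) (P := R) (D := D) j).choose_spec.2.1
  le {j} := (exists_bound (S := cubSK hX) (P := R) (D := D) j).choose_spec.2.2

section fields
variable (hG : Good (cubSK hX) R D n) (hn : ∀ C : Cub X, cdim hX C < n) {j : ℕ}

@[simp] lemma cubES_fl : (cubES hG hn).fl = Npc.flip := rfl
@[simp] lemma cubES_dr : (cubES hG hn).dr = dirSet X := rfl
@[simp] lemma cubES_T (e : EJ (cubSK hX) R j) : (cubES hG hn).T e = hy hX (cbJ e) := rfl
lemma mem_cubES_V {e : EJ (cubSK hX) R j} {k : P} : k ∈ (cubES hG hn).V e ↔ k ∈ cbJ e :=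
  (Cub.finite hX (cbJ e)).mem_toFinset
@[simp] lemma cubES_inc (e : EJ (cubSK hX) R (j + 1)) (e' : EJ (cubSK hX) R j) :
    (cubES hG hn).inc e e' = incJ D e e' := rfl
lemma cubES_Sx (x : P) : ((cubES hG hn).Sx x).C = Lk hX x := rfl

/-- the flips commute -/
lemma cubES_comm (e : EJ (cubSK hX) R j) (t u : Npc.Hyp X) (k : P) (ht : t ∈ (cubES hG hn).T e)
    (hu : u ∈ (cubES hG hn).T e) (hk : k ∈ (cubES hG hn).V e) :
    (cubES hG hn).fl t ((cubES hG hn).fl u k) = (cubES hG hn).fl u ((cubES hG hn).fl t k) := by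
  by_cases htu : t = u
  · rw [htu]
  · exact (medSq hX).fl_comm t u k ((cubES hG hn).T_adj e t u ht hu htu) ((cubES hG hn).T_dr e t k ht hk)
      ((cubES hG hn).T_dr e u k hu hk)

end fields

/-! ### exactness -/

section ex
variable {M : Type*} [AddCommGroup M]
variable (hG : Good (cubSK hX) R D n) (hn : ∀ C : Cub X, cdim hX C < n) {j : ℕ}

lemma cub_sg_zero (g : G) (C : Cub X) (h : cdim hX C = 0) : sgc hX g C = 1 := by
  obtain ⟨y, hy⟩ : ∃ y : SCell (medSq hX) 0, cell y = C := ⟨base hX C h, cell_base h⟩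
  rw [← hy, sgc_eq, ori_zero, ori_zero, one_mul]

/-- the augmentation is invariant -/
lemma cub_wJ_smul (g : G) (e : EJ (cubSK hX) R 0) : wJ (g • e) = wJ e := wJ_smul (fun g C h => cub_sg_zero g C h) g e

include hG hn

/-- exactness in positive degrees -/
theorem allJ_succ [IsAddTorsionFree M] (f : EJ (cubSK hX) R (j + 1) →₀ M) (h0 : lin (incJ D) f = 0) :
    ∃ b : EJ (cubSK hX) R (j + 2) →₀ M, lin (incJ D) b = f := by
  obtain ⟨b, _, h1⟩ := exJ_succ (C := allCf (cubSK hX) M) hG hn (fun z hz _ hz0 => by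
    obtain ⟨y, h1, h2⟩ := cub_ex_succ (hX := hX) z hz (by
      ext x
      exact hz0 x trivial)
    exact ⟨y, h1, fun _ _ => ⟨trivial, trivial⟩, fun x _ => by rw [← h2]; rfl⟩) f
    (fun _ _ => ⟨trivial, trivial⟩) (fun e _ => by rw [h0]; rfl)
  exact ⟨b, by
    ext e
    exact h1 e trivial⟩

/-- exactness in degree zero -/
theorem allJ_zero [IsAddTorsionFree M] (f : EJ (cubSK hX) R 0 →₀ M) (h0 : (f.sum fun e m => wJ e • m) = 0) :
    ∃ b : EJ (cubSK hX) R 1 →₀ M, lin (incJ D) b = f := by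
  obtain ⟨b, _, h1⟩ := exJ_zero (C := allCf (cubSK hX) M) hG hn (AddMonoidHom.id M) (fun z hz _ hz0 => by
    obtain ⟨y, h1, h2⟩ := cub_ex_zero (hX := hX) z hz (by
      rw [eps_eq hz]
      exact hz0)
    exact ⟨y, h1, fun _ _ => ⟨trivial, trivial⟩, fun x _ => by rw [← h2]; rfl⟩) f
    (fun _ _ => ⟨trivial, trivial⟩) h0
  exact ⟨b, by
    ext e
    exact h1 e trivial⟩

/-- the augmentation of a boundary -/
theorem allJ_bd [IsAddTorsionFree M] (b : EJ (cubSK hX) R 1 →₀ M) :
    ((lin (incJ D) b).sum fun e m => wJ e • m) = 0 := by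
  refine augJ_bd (C := allCf (cubSK hX) M) hG hn (AddMonoidHom.id M) (fun z hz _ => ?_) b
    (fun _ _ => ⟨trivial, trivial⟩) (lin (incJ D) b) (fun _ _ => ⟨trivial, trivial⟩) fun e _ => rfl
  have h1 : rsK (allCf (cubSK hX : SK G (Cub X)) M) (lin (cubSK hX : SK G (Cub X)).bd z) = lin (bdK hX) z := by
    ext e
    exact rsK_mem trivial
  rw [h1, AddMonoidHom.id_apply, ← eps_eq (hX := hX) (cdim_lin hz)]
  exact eps_bd z hz

/-- surjectivity of the augmentation -/
theorem allJ_surj [IsAddTorsionFree M] (m : M) :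
    ∃ f : EJ (cubSK hX) R 0 →₀ M, (f.sum fun e m => wJ e • m) = m := by
  classical
  obtain ⟨x0⟩ := hX.conn.nonempty
  have hd : ∀ C, (Finsupp.single (cell (vx hX x0)) m : Cub X →₀ M) C ≠ 0 → cdim hX C = 0 := by
    intro C h
    rw [Finsupp.single_apply] at h
    by_cases h1 : cell (vx hX x0) = C
    · rw [← h1, cdim_cell]
    · rw [if_neg h1] at h
      exact absurd rfl h
  obtain ⟨f, _, h1⟩ := augJ_surj (C := allCf (cubSK hX) M) hG hn (Finsupp.single (cell (vx hX x0)) m)
    (fun _ _ => ⟨trivial, trivial⟩) hd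
  exact ⟨f, by rw [h1, Finsupp.sum_single_index rfl]⟩

omit hG hn

/-- the chains over the cubes which contain `x` -/
structure LocJ (x : P) (f : EJ (cubSK hX) R j →₀ (RACG (Lk hX x) →₀ M)) : Prop where
  mem : ∀ e, f e ≠ 0 → x ∈ cbJ e
  anti : ∀ e, ∀ t : dirSet X x, t.1 ∈ hy hX (cbJ e) → ∀ w, f e (w * Racg.gen (Lk hX x) t) = -f e w

variable {x : P}

lemma LocJ.on {f : EJ (cubSK hX) R j →₀ (RACG (Lk hX x) →₀ M)} (h : LocJ x f) : OnJ (locCf hX x M) f :=
  fun e he => ⟨h.mem e he, h.anti e⟩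

lemma locJ_of {f : EJ (cubSK hX) R j →₀ (RACG (Lk hX x) →₀ M)} (h : OnJ (locCf hX x M) f) : LocJ x f := by
  refine ⟨fun e he => (h e he).1, fun e => ?_⟩
  by_cases h1 : f e = 0
  · intro t _ w
    rw [h1, Finsupp.coe_zero, Pi.zero_apply, Pi.zero_apply, neg_zero]
  · exact (h e h1).2

/-- the sum of the values -/
noncomputable def sumW (W M : Type*) [AddCommGroup M] : (W →₀ M) →+ M where
  toFun u := u.sum fun _ m => m
  map_zero' := rfl
  map_add' u v := Finsupp.sum_add_index' (fun _ => rfl) fun _ _ _ => rfl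

include hG hn

/-- exactness in positive degrees -/
theorem locJ_succ [IsAddTorsionFree M] (f : EJ (cubSK hX) R (j + 1) →₀ (RACG (Lk hX x) →₀ M)) (hf : LocJ x f)
    (h0 : ∀ e, x ∈ cbJ e → lin (incJ D) f e = 0) :
    ∃ b : EJ (cubSK hX) R (j + 2) →₀ (RACG (Lk hX x) →₀ M), LocJ x b ∧ ∀ e, x ∈ cbJ e → lin (incJ D) b e = f e := by
  obtain ⟨b, h2, h1⟩ := exJ_succ (C := locCf hX x M) hG hn (fun z hz hz1 hz0 => by
    obtain ⟨y, h1, h2⟩ := loc_ex_succ (hX := hX) (x := x) (j := j) z ⟨hz, fun C hC => (hz1 C hC).1, fun C => by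
      by_cases h : z C = 0
      · rw [h]
        exact AddSubgroup.zero_mem _
      · exact (hz1 C h).2⟩ hz0
    exact ⟨y, h1.dim, fun C hC => ⟨h1.mem C hC, h1.anti C⟩, h2⟩) f hf.on h0
  exact ⟨b, locJ_of h2, h1⟩

lemma leps_eq' {z : Cub X →₀ (RACG (Lk hX x) →₀ M)} (hd : ∀ C, z C ≠ 0 → cdim hX C = 0)
    (hm : ∀ C, z C ≠ 0 → x ∈ C) : leps hX x z = sumW _ M (z.sum fun _ m => m) := by
  classical
  have h1 : ∀ C, z C ≠ 0 → C = cell (vx hX x) := by
    intro C hC
    symm
    refine (cell_eq_iff (j' := 0)).2 ⟨hm C hC, ?_⟩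
    have h3 := hd C hC
    unfold cdim at h3
    rw [Finset.card_eq_zero.1 h3]
    ext t
    constructor
    · intro ht
      obtain ⟨i, -⟩ := mem_lts.1 ht
      exact i.elim0
    · intro ht
      simp at ht
  have h2 : (z.sum fun _ m => m) = z (cell (vx hX x)) := by
    rw [Finsupp.sum, Finset.sum_eq_single (cell (vx hX x))]
    · intro C hC hne
      exact absurd (h1 C (Finsupp.mem_support_iff.1 hC)) hne
    · intro h3
      exact Finsupp.notMem_support_iff.1 h3
  rw [h2]
  rfl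

/-- exactness in degree zero -/
theorem locJ_zero [IsAddTorsionFree M] (f : EJ (cubSK hX) R 0 →₀ (RACG (Lk hX x) →₀ M)) (hf : LocJ x f)
    (h0 : sumW _ M (f.sum fun e m => wJ e • m) = 0) :
    ∃ b : EJ (cubSK hX) R 1 →₀ (RACG (Lk hX x) →₀ M), LocJ x b ∧ ∀ e, x ∈ cbJ e → lin (incJ D) b e = f e := by
  obtain ⟨b, h2, h1⟩ := exJ_zero (C := locCf hX x M) hG hn (sumW _ M) (fun z hz hz1 hz0 => by
    have hz2 : LocCh hX x 0 z := ⟨hz, fun C hC => (hz1 C hC).1, fun C => by
      by_cases h : z C = 0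
      · rw [h]
        exact AddSubgroup.zero_mem _
      · exact (hz1 C h).2⟩
    obtain ⟨y, h1, h2⟩ := loc_ex_zero (hX := hX) (x := x) z hz2 (by
      rw [leps_eq' hG hn hz hz2.mem]
      exact hz0)
    exact ⟨y, h1.dim, fun C hC => ⟨h1.mem C hC, h1.anti C⟩, h2⟩) f hf.on h0
  exact ⟨b, locJ_of h2, h1⟩

/-- the augmentation of a boundary -/
theorem locJ_bd [IsAddTorsionFree M] (b : EJ (cubSK hX) R 1 →₀ (RACG (Lk hX x) →₀ M)) (hb : LocJ x b)
    (f : EJ (cubSK hX) R 0 →₀ (RACG (Lk hX x) →₀ M)) (hf : LocJ x f)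
    (h : ∀ e, x ∈ cbJ e → lin (incJ D) b e = f e) : sumW _ M (f.sum fun e m => wJ e • m) = 0 := by
  refine augJ_bd (C := locCf hX x M) hG hn (sumW _ M) (fun z hz hz1 => ?_) b hb.on f hf.on h
  have hz2 : LocCh hX x 1 z := ⟨hz, fun C hC => (hz1 C hC).1, fun C => by
    by_cases h : z C = 0
    · rw [h]
      exact AddSubgroup.zero_mem _
    · exact (hz1 C h).2⟩
  have h1 : ∀ C, rsK (locCf (G := G) hX x M) (lin (cubSK hX : SK G (Cub X)).bd z) C ≠ 0 →
      x ∈ C ∧ lin (bdK hX) z C ≠ 0 := by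
    intro C hC
    by_cases hx : x ∈ C
    · rw [rsK_mem (C := locCf (G := G) hX x M) hx] at hC
      exact ⟨hx, hC⟩
    · exact absurd (rsK_notMem (C := locCf (G := G) hX x M) hx) hC
  rw [← leps_eq' hG hn (fun C hC => cdim_lin hz C (h1 C hC).2) fun C hC => (h1 C hC).1]
  unfold leps
  rw [rsK_mem (C := locCf (G := G) hX x M) (show x ∈ cell (vx hX x) from k_mem_cell _)]
  exact leps_bd z hz2

/-- surjectivity of the augmentation -/
theorem locJ_surj [IsAddTorsionFree M] (m : M) :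
    ∃ f : EJ (cubSK hX) R 0 →₀ (RACG (Lk hX x) →₀ M), LocJ x f ∧ sumW _ M (f.sum fun e m => wJ e • m) = m := by
  classical
  let z : Cub X →₀ (RACG (Lk hX x) →₀ M) := Finsupp.single (cell (vx hX x)) (Finsupp.single 1 m)
  have hz : ∀ C, z C ≠ 0 → C = cell (vx hX x) := by
    intro C h
    by_contra h1
    exact h (Finsupp.single_eq_of_ne h1)
  have h0 : OnK (locCf (G := G) hX x M) z := by
    intro C hC
    have h1 := hz C hC
    subst h1
    refine ⟨k_mem_cell _, ?_⟩
    intro t ht w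
    rw [hy_cell] at ht
    obtain ⟨i, -⟩ := mem_lts.1 ht
    exact i.elim0
  obtain ⟨f, h1, h2⟩ := augJ_surj (C := locCf hX x M) hG hn z h0 (fun C hC => by
    rw [hz C hC]
    exact cdim_cell _)
  refine ⟨f, locJ_of h1, ?_⟩
  rw [h2]
  have h3 : (z.sum fun _ m => m) = Finsupp.single 1 m := Finsupp.sum_single_index rfl
  rw [h3]
  exact Finsupp.sum_single_index (h := fun _ (m : M) => m) rfl

end ex

/-! ### finiteness -/

/-- representatives of the orbits with resolutions of the stabilizers -/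
theorem exists_rps {Γ K : Type*} [Group Γ] [MulAction Γ K] (hfin : Finite (Orb Γ K))
    (hR : ∀ x : K, Nonempty (FinRes (MulAction.stabilizer Γ x))) : Nonempty (Rps Γ K) := by
  classical
  obtain ⟨m, ⟨e⟩⟩ := Finite.exists_equiv_fin (Orb Γ K)
  refine ⟨⟨Fin m, inferInstance, fun a => (e.symm a).out, fun x => ?_, fun a b g h => ?_,
    fun a => (hR _).some⟩⟩
  · refine ⟨e (Quotient.mk'' x), ?_⟩
    rw [Equiv.symm_apply_apply]
    obtain ⟨g, hg⟩ : ∃ g : Γ, g • x = (Quotient.mk'' x : Orb Γ K).out :=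
      Quotient.mk_out (s := MulAction.orbitRel Γ K) x
    exact ⟨g⁻¹, by rw [← hg, inv_smul_smul]⟩
  · have h1 : (Quotient.mk'' (e.symm b).out : Orb Γ K) = Quotient.mk'' (e.symm a).out :=
      Quotient.sound' ⟨g, h⟩
    rw [Quotient.out_eq', Quotient.out_eq'] at h1
    exact (e.symm.injective h1).symm

include hX in
/-- finitely many orbits of vertices -/
theorem finite_orb (R : Rps G (Cub X)) : Finite (Orb G P) := by
  classical
  have hA' : Finite R.A := Finite.of_fintype _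
  have hv : ∀ a : R.A, ∃ k, k ∈ R.rep a := fun a => Cub.nonempty hX (R.rep a)
  choose v hv using hv
  refine Finite.of_surjective (fun a : R.A => (Quotient.mk'' (v a) : Orb G P)) ?_
  intro q
  induction q using Quotient.inductionOn' with | h k => ?_
  obtain ⟨a, g, h⟩ := R.ex (cell (vx hX k))
  refine ⟨a, Quotient.sound' ⟨g⁻¹, ?_⟩⟩
  have h1 : g • v a ∈ cell (vx hX k) := by
    rw [← h]
    exact (Cub.smul_mem g _ _).2 (hv a)
  have h2 : g • v a = k := by
    refine eq_of_not_sep hX fun t ht => ?_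
    have h4 : t ∈ lts (vx hX k) := h1 t ((sep_symm hX).1 ht)
    obtain ⟨i, -⟩ := mem_lts.1 h4
    exact i.elim0
  show g⁻¹ • k = v a
  rw [← h2, inv_smul_smul]

end Cm
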