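import Pool.Agent.Cm.Sq

/-!
# Exactness of the chains with finite support, any valence

* `SCell.Al f` : `f : SCell S j → M` is a chain with finite support and coefficients in the abelian group `M`;
* `SCell.bd f` : the boundary.

With a height function the complex is a resolution of `M`: `SCell.ex_zero`, `SCell.ex_succ`.
-/

set_option autoImplicit false
set_option linter.unusedSectionVars false
set_option linter.unusedVariables false

namespace Cm

namespace SCell

/-- extension of a permutation, fixing the first letter -/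
def pex {j : ℕ} (π : Equiv.Perm (Fin j)) : Equiv.Perm (Fin (j + 1)) := Equiv.Perm.decomposeFin.symm (0, π)

@[simp] lemma pex_zero {j : ℕ} (π : Equiv.Perm (Fin j)) : pex π 0 = 0 := Equiv.Perm.decomposeFin_symm_apply_zero _ _

@[simp] lemma pex_succ {j : ℕ} (π : Equiv.Perm (Fin j)) (i : Fin j) : pex π i.succ = (π i).succ := by
  unfold pex
  rw [Equiv.Perm.decomposeFin_symm_apply_succ]
  simp

lemma sign_pex {j : ℕ} (π : Equiv.Perm (Fin j)) : Equiv.Perm.sign (pex π) = Equiv.Perm.sign π := by
  unfold pex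
  rw [Equiv.Perm.decomposeFin.symm_sign]
  simp

variable {H P : Type*} {S : Sq H P} {j : ℕ}

lemma τ_inj (y : SCell S j) : Function.Injective y.τ := fun i i' h => by
  by_contra hne
  have h1 := y.adj i i' hne
  rw [h] at h1
  exact SimpleGraph.irrefl _ h1

lemma gl_pm (i : Fin j) (π : Equiv.Perm (Fin j)) (y : SCell S j) : gl i (pm π y) = pm π (gl (π i) y) := rfl

lemma tail_gl (i : Fin j) (y : SCell S (j + 1)) : tail (gl i.succ y) = gl i (tail y) := rfl

lemma tail_pm (π : Equiv.Perm (Fin j)) (y : SCell S (j + 1)) : tail (pm (pex π) y) = pm π (tail y) := by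
  refine SCell.ext rfl ?_
  funext i
  show y.τ (pex π i.succ) = y.τ (π i).succ
  rw [pex_succ]

lemma pm_inj (π : Equiv.Perm (Fin j)) : Function.Injective (pm π : SCell S j → SCell S j) :=
  Function.LeftInverse.injective (g := pm π⁻¹) fun y => by rw [pm_pm, mul_inv_cancel, pm_one]

lemma pm_inv_pm (π : Equiv.Perm (Fin j)) (y : SCell S j) : pm π⁻¹ (pm π y) = y := by
  rw [pm_pm, mul_inv_cancel, pm_one]

lemma pm_pm_inv (π : Equiv.Perm (Fin j)) (y : SCell S j) : pm π (pm π⁻¹ y) = y := by
  rw [pm_pm, inv_mul_cancel, pm_one]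

lemma gl_inj (i : Fin j) : Function.Injective (gl i : SCell S j → SCell S j) :=
  Function.LeftInverse.injective (g := gl i) (gl_gl i)

lemma fb_ext {z z' : SCell S (j + 1)} (h : tail z = tail z') (h0 : z.τ 0 = z'.τ 0) : z = z' := by
  have e2 : z.k = z'.k := congrArg (fun y : SCell S j => y.k) h
  have e3 : ∀ i : Fin j, z.τ i.succ = z'.τ i.succ := fun i => congrFun (congrArg (fun y : SCell S j => y.τ) h) i
  refine SCell.ext e2 (funext fun i => ?_)
  exact Fin.cases h0 e3 i

/-- the cell with one more letter in front -/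
def cons (t : H) (y : SCell S j) (h1 : t ∈ S.dir y.k) (h2 : ∀ i, S.C.Adj t (y.τ i)) : SCell S (j + 1) :=
  ⟨y.k, Fin.cons t y.τ, fun i => by
    refine Fin.cases ?_ (fun i => ?_) i
    · exact h1
    · exact y.dir i, fun i i' => by
    refine Fin.cases ?_ (fun i => ?_) i
    · refine Fin.cases ?_ (fun i' => ?_) i'
      · intro h
        exact absurd rfl h
      · intro _
        exact h2 i'
    · refine Fin.cases ?_ (fun i' => ?_) i'
      · intro _
        exact (h2 i).symm
      · intro h
        exact y.adj i i' fun h' => h (congrArg Fin.succ h')⟩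

lemma tail_cons (t : H) (y : SCell S j) (h1 : t ∈ S.dir y.k) (h2 : ∀ i, S.C.Adj t (y.τ i)) :
    tail (cons t y h1 h2) = y := rfl

lemma cons_zero (t : H) (y : SCell S j) (h1 : t ∈ S.dir y.k) (h2 : ∀ i, S.C.Adj t (y.τ i)) :
    (cons t y h1 h2).τ 0 = t := rfl

variable {M : Type*} [AddCommGroup M]

/-- the boundary -/
noncomputable def bd (f : SCell S (j + 1) → M) : SCell S j → M := fun y =>
  ∑ᶠ z ∈ {z : SCell S (j + 1) | tail z = y}, f z

/-- chains with finite support -/
structure Al (f : SCell S j → M) : Prop where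
  fin : (Function.support f).Finite
  alt : ∀ (π : Equiv.Perm (Fin j)) y, f (pm π y) = Equiv.Perm.sign π • f y
  gl : ∀ i y, f (gl i y) = -f y

lemma Al.zero : Al (0 : SCell S j → M) :=
  ⟨by simp, fun π y => by simp, fun i y => by simp⟩

lemma Al.add {f g : SCell S j → M} (hf : Al f) (hg : Al g) : Al (f + g) :=
  ⟨(hf.fin.union hg.fin).subset (Function.support_add _ _), fun π y => by
    rw [Pi.add_apply, Pi.add_apply, hf.alt, hg.alt, smul_add], fun i y => by
    rw [Pi.add_apply, Pi.add_apply, hf.gl, hg.gl, neg_add]⟩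

lemma Al.neg {f : SCell S j → M} (hf : Al f) : Al (-f) :=
  ⟨by rw [Function.support_neg]; exact hf.fin, fun π y => by
    rw [Pi.neg_apply, Pi.neg_apply, hf.alt, smul_neg], fun i y => by
    rw [Pi.neg_apply, Pi.neg_apply, hf.gl]⟩

lemma Al.sub {f g : SCell S j → M} (hf : Al f) (hg : Al g) : Al (f - g) := by
  rw [sub_eq_add_neg]
  exact hf.add hg.neg

lemma bd_eq_sum {f : SCell S (j + 1) → M} {y : SCell S j} (s : Finset (SCell S (j + 1))) (h1 : ∀ z ∈ s, tail z = y)
    (h2 : ∀ z, tail z = y → f z ≠ 0 → z ∈ s) : bd f y = ∑ z ∈ s, f z := by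
  refine finsum_mem_eq_sum_of_inter_support_eq f ?_
  ext z
  constructor
  · rintro ⟨h3, h4⟩
    exact ⟨h2 z h3 h4, h4⟩
  · rintro ⟨h3, h4⟩
    exact ⟨h1 z h3, h4⟩

open Classical in
lemma bd_eq_sum' {f : SCell S (j + 1) → M} {y : SCell S j} (s : Finset (SCell S (j + 1)))
    (h2 : ∀ z, f z ≠ 0 → z ∈ s) : bd f y = ∑ z ∈ s.filter (fun z => tail z = y), f z :=
  bd_eq_sum _ (fun z hz => (Finset.mem_filter.1 hz).2) fun z h3 h4 => Finset.mem_filter.2 ⟨h2 z h4, h3⟩

lemma bd_add {f g : SCell S (j + 1) → M} (hf : (Function.support f).Finite) (hg : (Function.support g).Finite) :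
    bd (f + g) = bd f + bd g := by
  classical
  funext y
  have h1 : ∀ z, f z ≠ 0 → z ∈ hf.toFinset ∪ hg.toFinset := fun z hz =>
    Finset.mem_union_left _ (hf.mem_toFinset.2 hz)
  have h2 : ∀ z, g z ≠ 0 → z ∈ hf.toFinset ∪ hg.toFinset := fun z hz =>
    Finset.mem_union_right _ (hg.mem_toFinset.2 hz)
  have h3 : ∀ z, (f + g) z ≠ 0 → z ∈ hf.toFinset ∪ hg.toFinset := by
    intro z hz
    by_contra h4
    refine hz ?_
    rw [Pi.add_apply, not_not.1 fun h => h4 (h1 z h), not_not.1 fun h => h4 (h2 z h), add_zero]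
  rw [Pi.add_apply, bd_eq_sum' _ h1, bd_eq_sum' _ h2, bd_eq_sum' _ h3, ← Finset.sum_add_distrib]
  rfl

lemma bd_neg (f : SCell S (j + 1) → M) : bd (-f) = -bd f := by
  funext y
  show ∑ᶠ z ∈ {z : SCell S (j + 1) | tail z = y}, -f z = -∑ᶠ z ∈ {z : SCell S (j + 1) | tail z = y}, f z
  rw [← finsum_neg_distrib]
  refine finsum_congr fun z => ?_
  rw [← finsum_neg_distrib]

lemma bd_sub {f g : SCell S (j + 1) → M} (hf : (Function.support f).Finite) (hg : (Function.support g).Finite) :
    bd (f - g) = bd f - bd g := by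
  rw [sub_eq_add_neg, bd_add hf (by rwa [Function.support_neg]), bd_neg, sub_eq_add_neg]

lemma bd_zero : bd (0 : SCell S (j + 1) → M) = 0 := by
  funext y
  rw [bd_eq_sum (f := (0 : SCell S (j + 1) → M)) ∅ (fun z hz => absurd hz (Finset.notMem_empty _))
    (fun z _ h => absurd rfl h)]
  rfl

/-- sums over fibres and bijections -/
lemma bd_comp {p p' : SCell S (j + 1) → SCell S (j + 1)} {q q' : SCell S j → SCell S j} (h1 : ∀ z, p (p' z) = z)
    (h2 : ∀ z, p' (p z) = z) (h3 : ∀ y, q' (q y) = y) (h4 : ∀ y, q (q' y) = y) (h : ∀ z, tail (p z) = q (tail z))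
    (f : SCell S (j + 1) → M) (y : SCell S j) : bd f (q y) = bd (fun z => f (p z)) y := by
  unfold bd
  symm
  refine finsum_mem_eq_of_bijOn p ⟨?_, ?_, ?_⟩ fun z _ => rfl
  · intro z hz
    have hz' : tail z = y := hz
    show tail (p z) = q y
    rw [h, hz']
  · intro z _ z' _ hzz
    rw [← h2 z, hzz, h2]
  · intro z hz
    have hz' : tail z = q y := hz
    refine ⟨p' z, ?_, h1 z⟩
    show tail (p' z) = y
    have h5 := h (p' z)
    rw [h1, hz'] at h5
    have h6 := congrArg q' h5
    rw [h3, h3] at h6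
    exact h6.symm

lemma bd_alt {f : SCell S (j + 1) → M} (hfin : (Function.support f).Finite)
    (hf : ∀ (π : Equiv.Perm (Fin (j + 1))) y, f (pm π y) = Equiv.Perm.sign π • f y)
    (π : Equiv.Perm (Fin j)) (y : SCell S j) : bd f (pm π y) = Equiv.Perm.sign π • bd f y := by
  classical
  rw [bd_comp (p := pm (pex π)) (p' := pm (pex π)⁻¹) (q := pm π) (q' := pm π⁻¹) (fun z => pm_pm_inv _ z)
    (fun z => pm_inv_pm _ z) (fun z => pm_inv_pm _ z) (fun z => pm_pm_inv _ z) (tail_pm π) f y]
  have h1 : ∀ z, f z ≠ 0 → z ∈ hfin.toFinset := fun z hz => hfin.mem_toFinset.2 hz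
  rw [bd_eq_sum' (f := f) _ h1, bd_eq_sum' (f := fun z => f (pm (pex π) z)) hfin.toFinset, Finset.smul_sum]
  · refine Finset.sum_congr rfl fun z _ => ?_
    rw [hf, sign_pex]
  · intro z hz
    refine h1 z fun h2 => hz ?_
    show f (pm (pex π) z) = 0
    rw [hf, h2, smul_zero]

lemma bd_gl {f : SCell S (j + 1) → M} (hf : ∀ i y, f (gl i y) = -f y) (i : Fin j) (y : SCell S j) :
    bd f (gl i y) = -bd f y := by
  rw [bd_comp (p := gl i.succ) (p' := gl i.succ) (q := gl i) (q' := gl i) (gl_gl _) (gl_gl _) (gl_gl _) (gl_gl _)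
    (tail_gl i) f y, ← Pi.neg_apply, ← bd_neg]
  congr 1
  funext z
  exact hf _ _

theorem bd_mem {f : SCell S (j + 1) → M} (hf : Al f) : Al (bd f) := by
  classical
  refine ⟨?_, bd_alt hf.fin hf.alt, bd_gl hf.gl⟩
  refine (hf.fin.image tail).subset ?_
  intro y hy
  have hy' : bd f y ≠ 0 := hy
  rw [bd_eq_sum' (f := f) hf.fin.toFinset fun z hz => hf.fin.mem_toFinset.2 hz] at hy'
  obtain ⟨z, hz, hne⟩ := Finset.exists_ne_zero_of_sum_ne_zero hy'
  exact ⟨z, hne, (Finset.mem_filter.1 hz).2⟩

lemma swap01_tail (w : SCell S (j + 2)) : tail (tail (pm (Equiv.swap 0 1) w)) = tail (tail w) := by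
  refine SCell.ext rfl ?_
  funext i
  show w.τ (Equiv.swap 0 1 i.succ.succ) = w.τ i.succ.succ
  rw [Equiv.swap_apply_of_ne_of_ne]
  · exact Fin.succ_ne_zero _
  · intro h
    rw [← Fin.succ_zero_eq_one] at h
    exact Fin.succ_ne_zero _ (Fin.succ_injective _ h)

theorem bd_bd' {f : SCell S (j + 2) → M} (hfin : (Function.support f).Finite)
    (hf : ∀ (π : Equiv.Perm (Fin (j + 2))) y, f (pm π y) = Equiv.Perm.sign π • f y) : bd (bd f) = 0 := by
  classical
  funext y
  have h0 : ∀ z, f z ≠ 0 → z ∈ hfin.toFinset := fun z hz => hfin.mem_toFinset.2 hz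
  have h00 : ∀ z, bd f z = ∑ w ∈ hfin.toFinset.filter (fun w => tail w = z), f w := fun z => bd_eq_sum' _ h0
  have h1 : bd (bd f) y = ∑ w ∈ hfin.toFinset.filter (fun w => tail (tail w) = y), f w := by
    rw [bd_eq_sum' (f := bd f) (hfin.toFinset.image tail)]
    · rw [Finset.sum_congr rfl fun z _ => h00 z]
      rw [← Finset.sum_fiberwise_of_maps_to (s := hfin.toFinset.filter (fun w => tail (tail w) = y))
        (t := (hfin.toFinset.image tail).filter (fun z => tail z = y)) (g := tail)]
      · refine Finset.sum_congr rfl fun z hz => ?_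
        refine Finset.sum_congr ?_ fun _ _ => rfl
        ext w
        rw [Finset.mem_filter, Finset.mem_filter, Finset.mem_filter]
        constructor
        · rintro ⟨h2, h3⟩
          refine ⟨⟨h2, ?_⟩, h3⟩
          rw [h3]
          exact (Finset.mem_filter.1 hz).2
        · rintro ⟨⟨h2, _⟩, h3⟩
          exact ⟨h2, h3⟩
      · intro w hw
        rw [Finset.mem_filter] at hw ⊢
        exact ⟨Finset.mem_image_of_mem _ hw.1, hw.2⟩
    · intro z hz
      rw [h00] at hz
      obtain ⟨w, hw, hne⟩ := Finset.exists_ne_zero_of_sum_ne_zero hz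
      rw [Finset.mem_filter] at hw
      rw [← hw.2]
      exact Finset.mem_image_of_mem _ hw.1
  rw [h1]
  refine Finset.sum_involution (fun w _ => pm (Equiv.swap 0 1) w) ?_ ?_ ?_ ?_
  · intro w _
    rw [hf, Equiv.Perm.sign_swap (by simp), Units.smul_def]
    simp
  · intro w _ _ h
    have h2 : (pm (Equiv.swap 0 1) w).τ 0 = w.τ 0 := by rw [h]
    have h3 : w.τ 1 = w.τ 0 := by
      rw [← h2]
      show w.τ 1 = w.τ (Equiv.swap 0 1 0)
      rw [Equiv.swap_apply_left]
    exact absurd (w.τ_inj h3) (by simp)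
  · intro w hw
    rw [Finset.mem_filter, hfin.mem_toFinset] at hw ⊢
    refine ⟨?_, by rw [swap01_tail, hw.2]⟩
    rw [Function.mem_support, hf]
    intro h2
    refine hw.1 ?_
    have h3 := congrArg (fun m => Equiv.Perm.sign (Equiv.swap (0 : Fin (j + 2)) 1) • m) h2
    simpa only [smul_smul, Int.units_mul_self, one_smul, smul_zero] using h3
  · intro w _
    show pm (Equiv.swap 0 1) (pm (Equiv.swap 0 1) w) = w
    rw [pm_pm, Equiv.swap_mul_self, pm_one]

theorem bd_bd {f : SCell S (j + 2) → M} (hf : Al f) : bd (bd f) = 0 := bd_bd' hf.fin hf.alt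

/-! ### top cells -/

/-- the letter `i` goes up -/
def Up (ht : P → ℕ) (i : Fin j) (y : SCell S j) : Prop := ht y.k < ht (gl i y).k

/-- all letters go down -/
def Top (ht : P → ℕ) (y : SCell S j) : Prop := ∀ i, ¬ Up ht i y

section top
variable {x0 : P} {ht : P → ℕ} (hH : Hgt S x0 ht)

include hH in
lemma not_up {i : Fin j} {y : SCell S j} : ¬ Up ht i y ↔ ht (gl i y).k < ht y.k := by
  have h := hH.step (y.τ i) y.k (y.dir i)
  show ¬ (ht y.k < ht (S.fl (y.τ i) y.k)) ↔ ht (S.fl (y.τ i) y.k) < ht y.k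
  omega

include hH in
lemma up_gl_self {i : Fin j} {y : SCell S j} : Up ht i (gl i y) ↔ ¬ Up ht i y := by
  rw [not_up hH]
  unfold Up
  rw [gl_gl]

include hH in
lemma up_gl_ne {i i' : Fin j} (h : i ≠ i') {y : SCell S j} : Up ht i (gl i' y) ↔ Up ht i y := by
  have h1 := hH.inv (y.τ i') (y.τ i) y.k (y.adj i' i (Ne.symm h)) (y.dir i') (y.dir i)
  have h2 : ¬ Up ht i (gl i' y) ↔ ¬ Up ht i y := by
    rw [not_up hH, not_up hH]
    exact h1
  exact not_iff_not.1 h2

lemma up_pm {i : Fin j} {π : Equiv.Perm (Fin j)} {y : SCell S j} : Up ht i (pm π y) ↔ Up ht (π i) y := Iff.rfl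

lemma top_pm {π : Equiv.Perm (Fin j)} {y : SCell S j} : Top ht (pm π y) ↔ Top ht y := by
  constructor
  · intro h i hi
    refine h (π⁻¹ i) ?_
    rw [up_pm]
    simpa using hi
  · intro h i hi
    exact h (π i) hi

include hH in
/-- a function which satisfies the relations is determined by the values on the top cells -/
lemma eq_zero_of_top {f : SCell S j → M} (hf : ∀ i y, f (gl i y) = -f y) (h : ∀ y, Top ht y → f y = 0) : f = 0 := by
  classical
  have key : ∀ (n : ℕ) (y : SCell S j), (Finset.univ.filter fun i => Up ht i y).card = n → f y = 0 := by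
    intro n
    induction n with
    | zero =>
      intro y hy
      refine h y fun i hi => ?_
      rw [Finset.card_eq_zero] at hy
      exact absurd (Finset.mem_filter.2 ⟨Finset.mem_univ i, hi⟩) (by rw [hy]; simp)
    | succ n ih =>
      intro y hy
      obtain ⟨i, hi⟩ := Finset.card_pos.1 (by rw [hy]; omega : 0 < (Finset.univ.filter fun i => Up ht i y).card)
      have hi' := (Finset.mem_filter.1 hi).2
      have h1 : (Finset.univ.filter fun i' => Up ht i' (gl i y)) = (Finset.univ.filter fun i => Up ht i y).erase i := by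
        ext i'
        rw [Finset.mem_erase, Finset.mem_filter, Finset.mem_filter]
        by_cases hii : i' = i
        · subst hii
          rw [up_gl_self hH]
          simp [hi']
        · rw [up_gl_ne hH hii]
          simp [hii]
      have h2 := ih (gl i y) (by rw [h1, Finset.card_erase_of_mem hi, hy]; rfl)
      rw [hf, neg_eq_zero] at h2
      exact h2
  funext y
  exact key _ y rfl

/-! ### antisymmetrisation -/

instance lc_gl : LeftCommutative fun (i : Fin j) (f : SCell S j → M) => fun y => f y - f (gl i y) :=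
  ⟨fun i i' f => by
    funext y
    show (f y - f (gl i' y)) - (f (gl i y) - f (gl i' (gl i y))) =
      (f y - f (gl i y)) - (f (gl i' y) - f (gl i (gl i' y)))
    have h : gl i' (gl i y) = gl i (gl i' y) := by
      by_cases hii : i = i'
      · rw [hii]
      · exact (gl_comm hii y).symm
    rw [h]
    abel⟩

/-- antisymmetrisation -/
def Qs (s : Multiset (Fin j)) (f : SCell S j → M) : SCell S j → M :=
  Multiset.foldr (fun i f y => f y - f (gl i y)) f s

lemma Qs_zero (f : SCell S j → M) : Qs 0 f = f := Multiset.foldr_zero _ _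

lemma Qs_cons (i : Fin j) (s : Multiset (Fin j)) (f : SCell S j → M) (y : SCell S j) :
    Qs (i ::ₘ s) f y = Qs s f y - Qs s f (gl i y) := by
  unfold Qs
  rw [Multiset.foldr_cons]

lemma Qs_gl {i : Fin j} {s : Multiset (Fin j)} (h : i ∈ s) (f : SCell S j → M) (y : SCell S j) :
    Qs s f (gl i y) = -Qs s f y := by
  obtain ⟨t, rfl⟩ := Multiset.exists_cons_of_mem h
  rw [Qs_cons, Qs_cons, gl_gl]
  abel

lemma Qs_pm (π : Equiv.Perm (Fin j)) (s : Multiset (Fin j)) (f : SCell S j → M) :
    ∀ y : SCell S j, Qs s f (pm π y) = Qs (s.map π) (fun y => f (pm π y)) y := by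
  induction s using Multiset.induction_on with
  | empty =>
    intro y
    rw [Multiset.map_zero, Qs_zero, Qs_zero]
  | cons i s ih =>
    intro y
    rw [Multiset.map_cons, Qs_cons, Qs_cons, gl_pm, ih, ih]

lemma Qs_smul (c : ℤˣ) (s : Multiset (Fin j)) (f : SCell S j → M) :
    ∀ y : SCell S j, Qs s (fun y => c • f y) y = c • Qs s f y := by
  induction s using Multiset.induction_on with
  | empty =>
    intro y
    rw [Qs_zero, Qs_zero]
  | cons i s ih =>
    intro y
    rw [Qs_cons, Qs_cons, ih, ih, smul_sub]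

lemma Qs_fin (s : Multiset (Fin j)) {f : SCell S j → M} (hf : (Function.support f).Finite) :
    (Function.support (Qs s f)).Finite := by
  induction s using Multiset.induction_on with
  | empty => rwa [Qs_zero]
  | cons i s ih =>
    refine (ih.union (ih.preimage (gl_inj i).injOn)).subset ?_
    intro y hy
    by_contra h
    simp only [Set.mem_union, Set.mem_preimage, Function.mem_support, not_or, not_not] at h
    refine hy ?_
    rw [Qs_cons, h.1, h.2, sub_zero]

include hH in
lemma Qs_up {f : SCell S j → M} (hf : ∀ y, f y ≠ 0 → Top ht y) {i : Fin j} {s : Multiset (Fin j)} (hi : i ∉ s) :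
    ∀ y : SCell S j, Up ht i y → Qs s f y = 0 := by
  induction s using Multiset.induction_on with
  | empty =>
    intro y hy
    rw [Qs_zero]
    by_contra h
    exact hf y h i hy
  | cons i' s ih =>
    intro y hy
    rw [Multiset.mem_cons, not_or] at hi
    rw [Qs_cons, ih hi.2 y hy, ih hi.2 _ ((up_gl_ne hH hi.1).2 hy), sub_zero]

include hH in
lemma Qs_top {f : SCell S j → M} (hf : ∀ y, f y ≠ 0 → Top ht y) {s : Multiset (Fin j)} (hs : s.Nodup)
    {y : SCell S j} (hy : Top ht y) : Qs s f y = f y := by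
  induction s using Multiset.induction_on with
  | empty => rw [Qs_zero]
  | cons i s ih =>
    rw [Multiset.nodup_cons] at hs
    rw [Qs_cons, ih hs.2, Qs_up hH hf hs.1 _ ((up_gl_self hH).2 (hy i)), sub_zero]

include hH in
/-- extension from the top cells -/
lemma exists_ext {f : SCell S j → M} (hf : ∀ y, f y ≠ 0 → Top ht y) (hfin : (Function.support f).Finite)
    (halt : ∀ (π : Equiv.Perm (Fin j)) y, f (pm π y) = Equiv.Perm.sign π • f y) :
    ∃ g : SCell S j → M, Al g ∧ ∀ y, Top ht y → g y = f y := by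
  classical
  refine ⟨Qs Finset.univ.val f, ⟨Qs_fin _ hfin, fun π y => ?_, fun i y => ?_⟩, fun y hy => ?_⟩
  · rw [Qs_pm, Multiset.map_univ_val_equiv, ← Qs_smul]
    congr 1
    funext y
    rw [halt]
  · exact Qs_gl (Finset.mem_univ i) f y
  · exact Qs_top hH hf Finset.univ.nodup hy

/-! ### the cone -/

open Classical in
/-- the cone with apex `a` -/
noncomputable def cone (a : H) (f : SCell S j → M) (z : SCell S (j + 1)) : M :=
  if h : ∃ π : Equiv.Perm (Fin (j + 1)), z.τ (π 0) = a then Equiv.Perm.sign h.choose • f (tail (pm h.choose z)) else 0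

lemma cone_aux {f : SCell S j → M} (halt : ∀ (π : Equiv.Perm (Fin j)) y, f (pm π y) = Equiv.Perm.sign π • f y)
    {π ρ : Equiv.Perm (Fin (j + 1))} (h : π 0 = ρ 0) (z : SCell S (j + 1)) :
    Equiv.Perm.sign π • f (tail (pm π z)) = Equiv.Perm.sign ρ • f (tail (pm ρ z)) := by
  obtain ⟨σ, hσ⟩ : ∃ σ : Equiv.Perm (Fin j), pex σ = ρ⁻¹ * π := by
    have h1 : (ρ⁻¹ * π) 0 = 0 := by
      rw [Equiv.Perm.mul_apply, h]
      simp
    refine ⟨(Equiv.Perm.decomposeFin (ρ⁻¹ * π)).2, ?_⟩
    unfold pex
    rw [Equiv.symm_apply_eq]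
    refine Prod.ext ?_ rfl
    have h2 : (Equiv.Perm.decomposeFin (ρ⁻¹ * π)).1 = (ρ⁻¹ * π) 0 := by
      obtain ⟨⟨p, e⟩, he⟩ := Equiv.Perm.decomposeFin.symm.surjective (ρ⁻¹ * π)
      rw [← he, Equiv.apply_symm_apply, Equiv.Perm.decomposeFin_symm_apply_zero]
    rw [h2, h1]
  have h3 : π = ρ * pex σ := by rw [hσ, mul_inv_cancel_left]
  rw [h3, ← pm_pm, tail_pm, halt, Equiv.Perm.sign_mul, sign_pex, smul_smul, mul_assoc, Int.units_mul_self, mul_one]

lemma cone_eq {f : SCell S j → M} (halt : ∀ (π : Equiv.Perm (Fin j)) y, f (pm π y) = Equiv.Perm.sign π • f y)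
    {a : H} {z : SCell S (j + 1)} {π : Equiv.Perm (Fin (j + 1))} (h : z.τ (π 0) = a) :
    cone a f z = Equiv.Perm.sign π • f (tail (pm π z)) := by
  have h1 : ∃ π : Equiv.Perm (Fin (j + 1)), z.τ (π 0) = a := ⟨π, h⟩
  unfold cone
  rw [dif_pos h1]
  exact cone_aux halt (z.τ_inj (h1.choose_spec.trans h.symm)) z

lemma cone_of_notMem (a : H) (f : SCell S j → M) {z : SCell S (j + 1)} (h : ∀ i, z.τ i ≠ a) : cone a f z = 0 := by
  unfold cone
  rw [dif_neg]
  rintro ⟨π, hπ⟩
  exact h _ hπ

lemma cone_alt {f : SCell S j → M} (halt : ∀ (π : Equiv.Perm (Fin j)) y, f (pm π y) = Equiv.Perm.sign π • f y)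
    (a : H) (π : Equiv.Perm (Fin (j + 1))) (z : SCell S (j + 1)) :
    cone a f (pm π z) = Equiv.Perm.sign π • cone a f z := by
  by_cases h : ∃ i, z.τ i = a
  · obtain ⟨i, hi⟩ := h
    have h1 : z.τ ((Equiv.swap 0 i) 0) = a := by rw [Equiv.swap_apply_left, hi]
    have h2 : (pm π z).τ ((π⁻¹ * Equiv.swap 0 i) 0) = a := by
      show z.τ ((π * (π⁻¹ * Equiv.swap 0 i)) 0) = a
      rw [mul_inv_cancel_left, h1]
    rw [cone_eq halt h1, cone_eq halt h2, pm_pm, mul_inv_cancel_left, Equiv.Perm.sign_mul, Equiv.Perm.sign_inv, mul_smul]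
  · have h' : ∀ i, z.τ i ≠ a := fun i hi => h ⟨i, hi⟩
    rw [cone_of_notMem a f h', cone_of_notMem a f fun i => h' (π i), smul_zero]

lemma cone_fin {f : SCell S j → M} (hfin : (Function.support f).Finite) (a : P → H) :
    (Function.support fun z : SCell S (j + 1) => cone (a z.k) f z).Finite := by
  classical
  have h1 : (⋃ π : Equiv.Perm (Fin (j + 1)), {z : SCell S (j + 1) | tail (pm π z) ∈ Function.support f ∧
      z.τ (π 0) = a z.k}).Finite := by
    refine Set.finite_iUnion fun π => ?_
    refine Set.Finite.of_finite_image (f := fun z => tail (pm π z)) (hfin.subset ?_) ?_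
    · rintro _ ⟨z, hz, rfl⟩
      exact hz.1
    · intro z hz z' hz' h
      have h' : tail (pm π z) = tail (pm π z') := h
      have hk : z.k = z'.k := congrArg (fun y : SCell S j => y.k) h'
      refine pm_inj π (fb_ext h' ?_)
      show z.τ (π 0) = z'.τ (π 0)
      rw [hz.2, hz'.2, hk]
  refine h1.subset ?_
  intro z hz
  rw [Set.mem_iUnion]
  have hz' : cone (a z.k) f z ≠ 0 := hz
  unfold cone at hz'
  by_cases h : ∃ π : Equiv.Perm (Fin (j + 1)), z.τ (π 0) = a z.k
  · rw [dif_pos h] at hz'
    refine ⟨h.choose, fun h2 => hz' ?_, h.choose_spec⟩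
    rw [h2, smul_zero]
  · exact absurd (dif_neg h) hz'

/-! ### one step of the filtration -/

/-- cycles -/
def Cl : ∀ {j : ℕ}, (SCell S j → M) → Prop
  | 0, _ => True
  | _ + 1, f => bd f = 0

/-- the letter `i0` is replaced by the first letter of `z` -/
lemma rpl_zero (i0 : Fin (j + 1)) (z : SCell S (j + 2)) :
    (pm (Equiv.swap 0 i0) (tail (pm (Equiv.swap 0 i0.succ) z))).τ 0 = z.τ 0 := by
  show z.τ (Equiv.swap 0 i0.succ (Equiv.swap 0 i0 0).succ) = z.τ 0
  rw [Equiv.swap_apply_left, Equiv.swap_apply_right]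

lemma rpl_tail (i0 : Fin (j + 1)) (z : SCell S (j + 2)) :
    tail (pm (Equiv.swap 0 i0) (tail (pm (Equiv.swap 0 i0.succ) z))) = tail (pm (Equiv.swap 0 i0) (tail z)) := by
  refine SCell.ext rfl (funext fun i => ?_)
  show z.τ (Equiv.swap 0 i0.succ (Equiv.swap 0 i0 i.succ).succ) = z.τ (Equiv.swap 0 i0 i.succ).succ
  rw [Equiv.swap_apply_of_ne_of_ne (Fin.succ_ne_zero _)]
  intro h
  have h1 := Fin.succ_injective _ h
  have h2 : Equiv.swap 0 i0 (Equiv.swap 0 i0 i.succ) = Equiv.swap 0 i0 i0 := congrArg _ h1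
  rw [Equiv.swap_apply_self, Equiv.swap_apply_right] at h2
  exact Fin.succ_ne_zero _ h2

include hH in
/-- the values of the boundary of the cone, at the top cells of height `N + 1` -/
lemma sum_cone {f : SCell S j → M} (hf : Al f) (hD : Cl f) {N : ℕ}
    (hN : ∀ y, Top ht y → f y ≠ 0 → ht y.k ≤ N + 1) {y : SCell S j} (hy : Top ht y) (hyN : ht y.k = N + 1) {a : H}
    (ha : a ∈ S.dir y.k) (hat : ht (S.fl a y.k) < ht y.k) (s : Finset (SCell S (j + 1)))
    (hs1 : ∀ z ∈ s, tail z = y ∧ ¬ Up ht 0 z)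
    (hs2 : ∀ z, tail z = y → ¬ Up ht 0 z → cone a f z ≠ 0 → z ∈ s) :
    ∑ z ∈ s, cone a f z = f y := by
  classical
  have hup0 : ∀ z : SCell S (j + 1), tail z = y → (¬ Up ht 0 z ↔ ht (S.fl (z.τ 0) y.k) < ht y.k) := by
    rintro z rfl
    exact not_up hH
  by_cases hay : ∃ i, y.τ i = a
  · obtain ⟨i0, hi0⟩ := hay
    cases j with
    | zero => exact i0.elim0
    | succ j =>
      have hbd : bd f = 0 := hD
      set σ : Equiv.Perm (Fin (j + 1)) := Equiv.swap 0 i0 with hσ
      have hσσ : ∀ i, σ (σ i) = i := fun i => Equiv.swap_apply_self _ _ _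
      set Ψ : SCell S (j + 2) → SCell S (j + 1) := fun z => pm σ (tail (pm (Equiv.swap 0 i0.succ) z)) with hΨ
      have hΨ0 : ∀ z, (Ψ z).τ 0 = z.τ 0 := rpl_zero i0
      have hΨt : ∀ z, tail (Ψ z) = tail (pm σ (tail z)) := rpl_tail i0
      -- the values of the cone
      have h1' : ∀ z : SCell S (j + 2), tail z = y → cone a f z = -(Equiv.Perm.sign σ • f (Ψ z)) := by
        intro z hz
        have h2 : z.τ ((Equiv.swap 0 i0.succ : Equiv.Perm (Fin (j + 2))) 0) = a := by
          rw [Equiv.swap_apply_left, ← hi0, ← hz]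
          rfl
        rw [cone_eq hf.alt h2, Equiv.Perm.sign_swap (Fin.succ_ne_zero i0).symm, hΨ]
        show _ = -(Equiv.Perm.sign σ • f (pm σ (tail (pm (Equiv.swap 0 i0.succ) z))))
        rw [hf.alt, smul_smul, Int.units_mul_self, one_smul, Units.smul_def]
        simp
      have h1 : ∀ z ∈ s, cone a f z = -(Equiv.Perm.sign σ • f (Ψ z)) := fun z hz => h1' z (hs1 z hz).1
      rw [Finset.sum_congr rfl h1, Finset.sum_neg_distrib, ← Finset.smul_sum]
      -- the injectivity
      have hinj : Set.InjOn Ψ (s : Finset (SCell S (j + 2))) := by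
        intro z hz z' hz' h
        rw [Finset.mem_coe] at hz hz'
        refine fb_ext ((hs1 z hz).1.trans (hs1 z' hz').1.symm) ?_
        rw [← hΨ0, h, hΨ0]
      rw [← Finset.sum_image (f := f) (g := Ψ) hinj]
      have hup : ∀ z' : SCell S (j + 1), tail z' = tail (pm σ y) → ∀ i : Fin j, ¬ Up ht i.succ z' := by
        intro z' hz' i
        have h3 : z'.k = y.k := congrArg (fun y : SCell S j => y.k) hz'
        have h4 : z'.τ i.succ = y.τ (σ i.succ) := congrFun (congrArg (fun y : SCell S j => y.τ) hz') i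
        rw [not_up hH]
        show ht (S.fl (z'.τ i.succ) z'.k) < ht z'.k
        rw [h3, h4]
        exact (not_up hH).1 (hy (σ i.succ))
      have hnot : pm σ y ∉ s.image Ψ := by
        intro h
        obtain ⟨z, hz, hzy⟩ := Finset.mem_image.1 h
        have h3 : (Ψ z).τ 0 = (pm σ y).τ 0 := by rw [hzy]
        rw [hΨ0] at h3
        have h4 : z.τ 0 = z.τ i0.succ := by
          rw [h3]
          show y.τ (σ 0) = (tail z).τ i0
          rw [(hs1 z hz).1, hσ, Equiv.swap_apply_left]
        exact Fin.succ_ne_zero i0 (z.τ_inj h4).symm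
      have h5 : bd f (tail (pm σ y)) = ∑ z' ∈ insert (pm σ y) (s.image Ψ), f z' := by
        refine bd_eq_sum _ ?_ ?_
        · intro z' hz'
          rcases Finset.mem_insert.1 hz' with rfl | hz'
          · rfl
          · obtain ⟨z, hz, rfl⟩ := Finset.mem_image.1 hz'
            rw [hΨt, (hs1 z hz).1]
        · intro z' hz' hne
          rw [Finset.mem_insert]
          by_cases hzz : z' = pm σ y
          · exact Or.inl hzz
          refine Or.inr ?_
          have hk : z'.k = y.k := congrArg (fun y : SCell S j => y.k) hz'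
          have hτ : ∀ i : Fin j, z'.τ i.succ = y.τ (σ i.succ) := fun i =>
            congrFun (congrArg (fun y : SCell S j => y.τ) hz') i
          have hta : z'.τ 0 ≠ a := by
            intro h
            refine hzz (fb_ext hz' ?_)
            rw [h, ← hi0]
            show y.τ i0 = y.τ (σ 0)
            rw [hσ, Equiv.swap_apply_left]
          by_cases hu : Up ht 0 z'
          · exfalso
            have h3 : Top ht (gl 0 z') := by
              intro i
              refine Fin.cases ?_ (fun i => ?_) i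
              · rw [up_gl_self hH]
                exact not_not.2 hu
              · rw [up_gl_ne hH (Fin.succ_ne_zero i)]
                exact hup z' hz' i
            have h4 : f (gl 0 z') = 0 := by
              by_contra h5
              have h6 := hN _ h3 h5
              have h7 : ht z'.k < ht (gl 0 z').k := hu
              rw [hk] at h7
              omega
            rw [hf.gl, neg_eq_zero] at h4
            exact hne h4
          · have ht' : ht (S.fl (z'.τ 0) y.k) < ht y.k := by
              have := (not_up hH).1 hu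
              rw [← hk]
              exact this
            have hd : z'.τ 0 ∈ S.dir y.k := by
              rw [← hk]
              exact z'.dir 0
            have hadj : ∀ i, S.C.Adj (z'.τ 0) (y.τ i) := by
              intro i
              by_cases hii : i = i0
              · rw [hii, hi0]
                exact hH.adj _ _ y.k hd ha hta ht' hat
              · have h3 : σ i ≠ 0 := by
                  intro h3
                  apply hii
                  rw [← hσσ i, h3, hσ, Equiv.swap_apply_left]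
                obtain ⟨i', hi'⟩ := Fin.exists_succ_eq.2 h3
                have h4 : y.τ i = z'.τ i'.succ := by
                  rw [hτ, hi', hσσ]
                rw [h4]
                exact z'.adj _ _ (Fin.succ_ne_zero i').symm
            have hc : Ψ (cons (z'.τ 0) y hd hadj) = z' := by
              refine fb_ext ?_ ?_
              · rw [hΨt, tail_cons]
                exact hz'.symm
              · rw [hΨ0, cons_zero]
            refine Finset.mem_image.2 ⟨cons (z'.τ 0) y hd hadj, hs2 _ rfl ?_ ?_, hc⟩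
            · rw [hup0 _ rfl]
              exact ht'
            · rw [h1' _ rfl, hc]
              intro h0
              rw [neg_eq_zero] at h0
              refine hne ?_
              have h3 := congrArg (fun m => Equiv.Perm.sign σ • m) h0
              simpa only [smul_smul, Int.units_mul_self, one_smul, smul_zero] using h3
      rw [hbd, Finset.sum_insert hnot] at h5
      have h6 := neg_eq_of_add_eq_zero_right h5.symm
      rw [← h6, hf.alt, smul_neg, smul_smul, Int.units_mul_self, one_smul, neg_neg]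
  · have hay' : ∀ i, y.τ i ≠ a := fun i hi => hay ⟨i, hi⟩
    have hadj : ∀ i, S.C.Adj a (y.τ i) := fun i =>
      hH.adj a (y.τ i) y.k ha (y.dir i) (fun h => hay' i h.symm) hat ((not_up hH).1 (hy i))
    have hval : cone a f (cons a y ha hadj) = f y := by
      have h1 : (cons a y ha hadj).τ ((1 : Equiv.Perm (Fin (j + 1))) 0) = a := rfl
      rw [cone_eq hf.alt h1, Equiv.Perm.sign_one, one_smul, pm_one, tail_cons]
    rw [Finset.sum_eq_single (cons a y ha hadj)]
    · exact hval
    · intro z hz hne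
      refine cone_of_notMem a f fun i => ?_
      refine Fin.cases ?_ (fun i => ?_) i
      · intro h
        exact hne (fb_ext (hs1 z hz).1 h)
      · intro h
        refine hay' i ?_
        rw [← (hs1 z hz).1]
        exact h
    · intro h
      by_contra h2
      refine h (hs2 _ rfl ?_ h2)
      rw [hup0 _ rfl]
      exact hat

/-- the letters of `z` after the first one go down if those of the face go down -/
lemma top_of_tail (hH : Hgt S x0 ht) {z : SCell S (j + 1)} (h : Top ht (tail z)) (h0 : ¬ Up ht 0 z) : Top ht z := by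
  intro i
  refine Fin.cases h0 (fun i => ?_) i
  rw [not_up hH]
  exact (not_up hH).1 (h i)

lemma top_gl_of_tail (hH : Hgt S x0 ht) {z : SCell S (j + 1)} (h : Top ht (tail z)) (h0 : Up ht 0 z) :
    Top ht (gl 0 z) := by
  intro i
  refine Fin.cases ?_ (fun i => ?_) i
  · rw [up_gl_self hH]
    exact not_not.2 h0
  · rw [up_gl_ne hH (Fin.succ_ne_zero i), not_up hH]
    exact (not_up hH).1 (h i)

include hH in
/-- one step of the filtration -/
lemma ex_step {f : SCell S j → M} (hf : Al f) (hD : Cl f) {N : ℕ}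
    (hN : ∀ y, Top ht y → f y ≠ 0 → ht y.k ≤ N + 1) :
    ∃ g : SCell S (j + 1) → M, Al g ∧ ∀ y, Top ht y → (f - bd g) y ≠ 0 → ht y.k ≤ N := by
  classical
  have hx0 : ∀ k : P, ht k ≠ 0 → k ≠ x0 := by
    rintro k h rfl
    exact h hH.zero
  rcases isEmpty_or_nonempty H with hE | ⟨⟨a0⟩⟩
  · refine ⟨0, Al.zero, fun y hy hne => ?_⟩
    rw [bd_zero, sub_zero] at hne
    by_contra hlt
    have h1 := hN y hy hne
    obtain ⟨t, -⟩ := hH.desc y.k (hx0 _ (by omega))
    exact hE.elim t
  have hdn : ∀ k : P, ∃ a : H, ht k ≠ 0 → a ∈ S.dir k ∧ ht (S.fl a k) < ht k := by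
    intro k
    by_cases h : ht k = 0
    · exact ⟨a0, fun h' => absurd h h'⟩
    · obtain ⟨t, ht1, ht2⟩ := hH.desc k (hx0 k h)
      exact ⟨t, fun _ => ⟨ht1, ht2⟩⟩
  choose a ha using hdn
  set g0 : SCell S (j + 1) → M := fun z => if Top ht z ∧ ht z.k = N + 1 then cone (a z.k) f z else 0 with hg0
  have hg0ne : ∀ z, g0 z ≠ 0 → Top ht z ∧ cone (a z.k) f z ≠ 0 := by
    intro z hz
    by_cases h : Top ht z ∧ ht z.k = N + 1
    · rw [hg0] at hz
      simp only [if_pos h] at hz
      exact ⟨h.1, hz⟩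
    · exact absurd (if_neg h) hz
  obtain ⟨g, hg, hgt⟩ := exists_ext hH (f := g0) (fun z hz => (hg0ne z hz).1)
    ((cone_fin hf.fin a).subset fun z hz => (hg0ne z hz).2) (fun π z => by
      show (if Top ht (pm π z) ∧ ht z.k = N + 1 then cone (a z.k) f (pm π z) else 0) =
        Equiv.Perm.sign π • (if Top ht z ∧ ht z.k = N + 1 then cone (a z.k) f z else 0)
      rw [top_pm, cone_alt hf.alt]
      split_ifs
      · rfl
      · rw [smul_zero])
  refine ⟨g, hg, fun y hy hne => ?_⟩
  by_contra hlt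
  apply hne
  have hup : ∀ z, tail z = y → Up ht 0 z → g z = 0 := by
    intro z h1 hu
    have h2 : g (gl 0 z) = g0 (gl 0 z) := hgt _ (top_gl_of_tail hH (by rw [h1]; exact hy) hu)
    have h3 : g0 (gl 0 z) = 0 := by
      refine if_neg fun h => ?_
      have h4 : ht z.k < ht (gl 0 z).k := hu
      have h5 : z.k = y.k := congrArg (fun y : SCell S j => y.k) h1
      rw [h5] at h4
      omega
    rw [h3, hg.gl, neg_eq_zero] at h2
    exact h2
  -- a finite set of cells which contains the supports
  let s : Finset (SCell S (j + 1)) := (hg.fin.toFinset ∪ (cone_fin hf.fin a).toFinset).filter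
    fun z => tail z = y ∧ ¬ Up ht 0 z
  have hs1 : ∀ z ∈ s, tail z = y ∧ ¬ Up ht 0 z := fun z hz => (Finset.mem_filter.1 hz).2
  have hsum : bd g y = ∑ z ∈ s, g z := by
    refine bd_eq_sum s (fun z hz => (hs1 z hz).1) fun z hz hne => ?_
    refine Finset.mem_filter.2 ⟨Finset.mem_union_left _ (hg.fin.mem_toFinset.2 hne), hz, fun hu => hne ?_⟩
    exact hup z hz hu
  rw [Pi.sub_apply, hsum]
  have hval : ∀ z ∈ s, g z = if ht y.k = N + 1 then cone (a y.k) f z else 0 := by
    intro z hz
    obtain ⟨hz1, hz2⟩ := hs1 z hz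
    have h1 : Top ht z := top_of_tail hH (by rw [hz1]; exact hy) hz2
    have h5 : z.k = y.k := congrArg (fun y : SCell S j => y.k) hz1
    rw [hgt z h1]
    show (if Top ht z ∧ ht z.k = N + 1 then cone (a z.k) f z else 0) = _
    rw [h5]
    by_cases h2 : ht y.k = N + 1
    · rw [if_pos ⟨h1, h2⟩, if_pos h2]
    · rw [if_neg fun h => h2 h.2, if_neg h2]
  rw [Finset.sum_congr rfl hval]
  by_cases h2 : ht y.k = N + 1
  · simp only [if_pos h2]
    have h3 := ha y.k (by omega)
    rw [sum_cone hH hf hD hN hy h2 h3.1 h3.2 s hs1, sub_self]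
    intro z hz hz' hne
    refine Finset.mem_filter.2 ⟨Finset.mem_union_right _ ((cone_fin hf.fin a).mem_toFinset.2 ?_), hz, hz'⟩
    have h5 : z.k = y.k := congrArg (fun y : SCell S j => y.k) hz
    show cone (a z.k) f z ≠ 0
    rw [h5]
    exact hne
  · simp only [if_neg h2]
    rw [Finset.sum_const_zero, sub_zero]
    by_contra h3
    have := hN y hy h3
    omega

lemma cl_bd {f : SCell S (j + 1) → M} (hf : Al f) : Cl (bd f) := by
  cases j with
  | zero => trivial
  | succ j => exact bd_bd hf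

lemma cl_sub : ∀ {j : ℕ} {f g : SCell S j → M}, Al f → Al g → Cl f → Cl g → Cl (f - g)
  | 0, _, _, _, _, _, _ => trivial
  | j + 1, f, g, hf', hg', hf, hg => by
    show bd (f - g) = 0
    rw [bd_sub hf'.fin hg'.fin, show bd f = 0 from hf, show bd g = 0 from hg, sub_zero]

include hH in
/-- the filtration -/
lemma ex_reduce {f : SCell S j → M} (hf : Al f) (hD : Cl f) :
    ∃ g : SCell S (j + 1) → M, Al g ∧ ∀ y, Top ht y → (f - bd g) y ≠ 0 → ht y.k ≤ 0 := by
  classical
  obtain ⟨N, hN⟩ : ∃ N, ∀ y, Top ht y → f y ≠ 0 → ht y.k ≤ N := by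
    refine ⟨hf.fin.toFinset.sup fun y => ht y.k, fun y _ hy => ?_⟩
    exact Finset.le_sup (f := fun y : SCell S j => ht y.k) (hf.fin.mem_toFinset.2 hy)
  induction N generalizing f with
  | zero => exact ⟨0, Al.zero, by rwa [bd_zero, sub_zero]⟩
  | succ N ih =>
    obtain ⟨g, hg, h1⟩ := ex_step hH hf hD hN
    obtain ⟨g', hg', h2⟩ := ih (hf.sub (bd_mem hg)) (cl_sub hf (bd_mem hg) hD (cl_bd hg)) h1
    refine ⟨g + g', hg.add hg', ?_⟩
    rwa [bd_add hg.fin hg'.fin, ← sub_sub]

include hH in
/-- exactness -/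
theorem ex_succ {f : SCell S (j + 1) → M} (hf : Al f) (hD : bd f = 0) :
    ∃ g : SCell S (j + 2) → M, Al g ∧ bd g = f := by
  obtain ⟨g, hg, h1⟩ := ex_reduce hH hf hD
  refine ⟨g, hg, ?_⟩
  have h2 : f - bd g = 0 := by
    refine eq_zero_of_top hH (hf.sub (bd_mem hg)).gl fun y hy => ?_
    by_contra h3
    have h4 := h1 y hy h3
    have h5 := (not_up hH).1 (hy 0)
    omega
  exact (sub_eq_zero.1 h2).symm

include hH in
lemma gl_ne (i : Fin j) (y : SCell S j) : gl i y ≠ y := by
  intro h
  have h1 := hH.step (y.τ i) y.k (y.dir i)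
  have h2 : S.fl (y.τ i) y.k = y.k := congrArg (fun y : SCell S j => y.k) h
  rw [h2] at h1
  omega

include hH in
/-- the boundary of a chain of degree one has sum zero -/
theorem finsum_bd {g : SCell S 1 → M} (hg : Al g) : ∑ᶠ y, bd g y = 0 := by
  classical
  have h3 : ∀ y, bd g y = ∑ z ∈ hg.fin.toFinset.filter (fun z => tail z = y), g z := fun y =>
    bd_eq_sum' _ fun z hz => hg.fin.mem_toFinset.2 hz
  have h1 : (Function.support (bd g)) ⊆ (hg.fin.toFinset.image tail : Finset (SCell S 0)) := by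
    intro y hy
    rw [Function.mem_support, h3] at hy
    obtain ⟨z, hz, hne⟩ := Finset.exists_ne_zero_of_sum_ne_zero hy
    rw [Finset.coe_image]
    exact ⟨z, hg.fin.mem_toFinset.2 hne, (Finset.mem_filter.1 hz).2⟩
  rw [finsum_eq_sum_of_support_subset _ h1]
  have h2 : ∑ y ∈ hg.fin.toFinset.image tail, bd g y = ∑ z ∈ hg.fin.toFinset, g z := by
    rw [Finset.sum_congr rfl fun y _ => h3 y]
    exact Finset.sum_fiberwise_of_maps_to (fun z hz => Finset.mem_image_of_mem _ hz) _
  rw [h2]
  refine Finset.sum_involution (fun z _ => gl 0 z) ?_ ?_ ?_ ?_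
  · intro z _
    rw [hg.gl, add_neg_cancel]
  · intro z _ hne h
    exact gl_ne hH 0 z h
  · intro z hz
    rw [hg.fin.mem_toFinset] at hz ⊢
    rw [Function.mem_support, hg.gl]
    exact neg_ne_zero.2 hz
  · intro z _
    exact gl_gl 0 z

include hH in
/-- exactness at the vertices -/
theorem ex_zero {f : SCell S 0 → M} (hf : Al f) : ∑ᶠ y, f y = 0 ↔ ∃ g : SCell S 1 → M, Al g ∧ bd g = f := by
  constructor
  · intro hs
    obtain ⟨g, hg, h1⟩ := ex_reduce hH hf trivial
    refine ⟨g, hg, ?_⟩
    have hal : Al (f - bd g) := hf.sub (bd_mem hg)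
    have h2 : ∀ y, (f - bd g) y ≠ 0 → y.k = x0 := by
      intro y hy
      have h3 := h1 y (fun i => i.elim0) hy
      by_contra h4
      obtain ⟨t, _, h5⟩ := hH.desc _ h4
      omega
    have h3 : ∀ y y' : SCell S 0, (f - bd g) y ≠ 0 → y' ≠ y → (f - bd g) y' = 0 := by
      intro y y' hy hne
      by_contra h4
      exact hne (SCell.ext ((h2 y' h4).trans (h2 y hy).symm) (funext fun i => i.elim0))
    have h4 : ∑ᶠ y, (f - bd g) y = 0 := by
      have h5 : ∑ᶠ y, (f - bd g) y = ∑ᶠ y, f y - ∑ᶠ y, bd g y := finsum_sub_distrib hf.fin (bd_mem hg).fin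
      rw [h5, hs, finsum_bd hH hg, sub_zero]
    have h6 : f - bd g = 0 := by
      funext y
      by_contra h5
      have h7 : ∑ᶠ y, (f - bd g) y = (f - bd g) y := finsum_eq_single _ y fun y' hy' => h3 y y' h5 hy'
      rw [h4] at h7
      exact h5 h7.symm
    exact (sub_eq_zero.1 h6).symm
  · rintro ⟨g, hg, rfl⟩
    exact finsum_bd hH hg

end top

end SCell

end Cm
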