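import Pool.Agent.Cm.Inc
import Pool.Agent.Cm.Ex

/-!
# Mirror inequality: exactness of the cellular chain complex of a median graph

* `alt z` : the function on the ordered corners with the coefficients `z`;
* `bd_alt_eq` : the boundary;
* `cub_ex_succ`, `cub_ex_zero` : exactness, coefficients in any abelian group.
-/

set_option autoImplicit false
set_option linter.unusedSectionVars false
set_option linter.unusedVariables false

open scoped Pointwise

namespace Cm

open Npc (Median hs mem_hs dirSet mk_mem_dirSet flip_mk square_of_cross cross_of_square GraphAct)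

variable {P : Type*} {X : SimpleGraph P} {hX : Median X} {j : ℕ} {M : Type*} [AddCommGroup M]

lemma corners_finite (C : Cub X) : {y : SCell (medSq hX) j | cell y = C}.Finite := by
  classical
  have h1 : Set.InjOn (fun y : SCell (medSq hX) j => (y.k, y.τ)) {y : SCell (medSq hX) j | cell y = C} := by
    intro y hy y' hy' h
    exact SCell.ext (congrArg Prod.fst h) (congrArg Prod.snd h)
  have h2 : Set.MapsTo (fun y : SCell (medSq hX) j => (y.k, y.τ)) {y : SCell (medSq hX) j | cell y = C}
      (C.1 ×ˢ Set.pi Set.univ fun _ : Fin j => (hy hX C : Set (Npc.Hyp X))) := by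
    rintro y rfl
    refine ⟨k_mem_cell y, fun i _ => ?_⟩
    show y.τ i ∈ hy hX (cell y)
    rw [hy_cell]
    exact mem_lts.2 ⟨i, rfl⟩
  exact Set.Finite.of_injOn h2 h1 ((Cub.finite hX C).prod (Set.Finite.pi fun _ => Finset.finite_toSet _))

lemma ori_smul_inj (y : SCell (medSq hX) j) {a b : M} (h : ori y • a = ori y • b) : a = b := by
  have h1 := congrArg (fun x => ori y • x) h
  simp only [smul_smul, ori_sq, one_smul] at h1
  exact h1

/-- the function on the ordered corners -/
noncomputable def alt (hX : Median X) (j : ℕ) (z : Cub X →₀ M) (y : SCell (medSq hX) j) : M := ori y • z (cell y)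

lemma alt_al (z : Cub X →₀ M) : SCell.Al (alt hX j z) where
  fin := by
    classical
    have h1 : Function.support (alt hX j z) ⊆ ⋃ C ∈ z.support, {y : SCell (medSq hX) j | cell y = C} := by
      intro y hy
      rw [Set.mem_iUnion₂]
      refine ⟨cell y, Finsupp.mem_support_iff.2 fun h => hy ?_, rfl⟩
      show ori y • z (cell y) = 0
      rw [h, smul_zero]
    exact (Set.Finite.biUnion (Finset.finite_toSet _) fun C _ => corners_finite C).subset h1
  alt π y := by
    show ori (y.pm π) • z (cell (y.pm π)) = _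
    rw [cell_pm, ori_pm, mul_smul, Units.smul_def]
    rfl
  gl i y := by
    show ori (y.gl i) • z (cell (y.gl i)) = _
    rw [cell_gl, ori_gl, neg_smul]
    rfl

/-- the boundary -/
theorem bd_alt_eq (z : Cub X →₀ M) (y : SCell (medSq hX) j) :
    SCell.bd (alt hX (j + 1) z) y = ori y • lin (bdK hX) z (cell y) := by
  classical
  have hfin := (alt_al (hX := hX) (j := j + 1) z).fin
  rw [SCell.bd_eq_sum' hfin.toFinset fun w hw => hfin.mem_toFinset.2 hw, lin_apply, Finsupp.sum, Finset.smul_sum]
  refine Finset.sum_bij_ne_zero (fun w _ _ => cell w) ?_ ?_ ?_ ?_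
  · intro w hw hne
    rw [Finsupp.mem_support_iff]
    intro h
    apply hne
    show ori w • z (cell w) = 0
    rw [h, smul_zero]
  · intro w hw hne w' hw' hne' h
    have t1 := (Finset.mem_filter.1 hw).2
    have t2 := (Finset.mem_filter.1 hw').2
    exact SCell.fb_ext (t1.trans t2.symm) (first_unique h (by rw [t1, t2]))
  · intro C hC hne
    have h1 : inc hX C (cell y) ≠ 0 := by
      intro h
      apply hne
      rw [bdK_apply, h, zero_smul, smul_zero]
    obtain ⟨h2, h3⟩ := inc_ne h1
    rw [cdim_cell] at h3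
    obtain ⟨t, c, h4⟩ := exists_scons h2 h3
    have h5 : alt hX (j + 1) z (scons t y c) ≠ 0 := by
      show ori (scons t y c) • z (cell (scons t y c)) ≠ 0
      intro h
      have h6 : z (cell (scons t y c)) = 0 := ori_smul_inj (scons t y c) (by rw [h, smul_zero])
      rw [h4] at h6
      exact (Finsupp.mem_support_iff.1 hC) h6
    exact ⟨scons t y c, Finset.mem_filter.2 ⟨hfin.mem_toFinset.2 h5, rfl⟩, h5, h4⟩
  · intro w hw hne
    have t1 := (Finset.mem_filter.1 hw).2
    subst t1
    rw [bdK_apply, inc_eq, smul_smul]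
    show ori w • z (cell w) = _
    have e1 : ori w.tail * (ori w * ori w.tail) = (ori w.tail * ori w.tail) * ori w := by ring
    rw [e1, ori_sq, one_mul]

/-- coefficients on the cubes from a function on the ordered corners -/
theorem exists_coeff {g : SCell (medSq hX) j → M} (hg : SCell.Al g) :
    ∃ z : Cub X →₀ M, (∀ C, z C ≠ 0 → cdim hX C = j) ∧ alt hX j z = g := by
  classical
  let f : Cub X → M := fun C => if h : cdim hX C = j then ori (base hX C h) • g (base hX C h) else 0
  have hf1 : ∀ y : SCell (medSq hX) j, ori y • f (cell y) = g y := by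
    intro y
    have h1 : f (cell y) = ori (base hX (cell y) (cdim_cell y)) • g (base hX (cell y) (cdim_cell y)) :=
      dif_pos (cdim_cell y)
    have h2 := ori_mul_const (f := g) y (fun i y _ => hg.gl i y) (fun π y _ => by
      rw [hg.alt, Units.smul_def]) (cell_base (cdim_cell y))
    rw [h1, h2, smul_smul, ori_sq, one_smul]
  have hf2 : ∀ C, f C ≠ 0 → cdim hX C = j := by
    intro C h
    by_contra h'
    exact h (dif_neg h')
  have hfin : (Function.support f).Finite := by
    refine (hg.fin.image cell).subset ?_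
    intro C hC
    have h1 := hf2 C hC
    refine ⟨base hX C h1, fun h => hC ?_, cell_base h1⟩
    show f C = 0
    have h2 : f C = ori (base hX C h1) • g (base hX C h1) := dif_pos h1
    rw [h2, h, smul_zero]
  exact ⟨Finsupp.ofSupportFinite f hfin, hf2, funext hf1⟩

/-- coefficients in dimension `j` are determined by the function on the ordered corners -/
lemma coeff_ext {z z' : Cub X →₀ M} (h : ∀ C, z C ≠ 0 → cdim hX C = j) (h' : ∀ C, z' C ≠ 0 → cdim hX C = j)
    (he : alt hX j z = alt hX j z') : z = z' := by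
  ext C
  by_cases hC : cdim hX C = j
  · have h1 := congrFun he (base hX C hC)
    have h2 : ori (base hX C hC) • z (cell (base hX C hC)) = ori (base hX C hC) • z' (cell (base hX C hC)) := h1
    have h3 := ori_smul_inj _ h2
    rwa [cell_base] at h3
  · have h1 : z C = 0 := by
      by_contra h2
      exact hC (h C h2)
    have h2 : z' C = 0 := by
      by_contra h2
      exact hC (h' C h2)
    rw [h1, h2]

/-- the dimension of the boundary -/
lemma cdim_lin {z : Cub X →₀ M} (h : ∀ C, z C ≠ 0 → cdim hX C = j + 1) (C : Cub X) (hC : lin (bdK hX) z C ≠ 0) :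
    cdim hX C = j := by
  obtain ⟨C', h1, h2⟩ := exists_of_lin_ne hC
  have h3 := (inc_ne (hX := hX) h2).2
  rw [h C' h1] at h3
  omega

/-- **exactness in positive degrees** -/
theorem cub_ex_succ (z : Cub X →₀ M) (h : ∀ C, z C ≠ 0 → cdim hX C = j + 1) (hz : lin (bdK hX) z = 0) :
    ∃ y : Cub X →₀ M, (∀ C, y C ≠ 0 → cdim hX C = j + 2) ∧ lin (bdK hX) y = z := by
  obtain ⟨x0⟩ := hX.conn.nonempty
  have h1 : SCell.bd (alt hX (j + 1) z) = 0 := by
    funext y
    rw [bd_alt_eq, hz, Finsupp.coe_zero, Pi.zero_apply, smul_zero, Pi.zero_apply]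
  obtain ⟨g, hg, hg2⟩ := SCell.ex_succ (medSq_hgt hX x0) (alt_al z) h1
  obtain ⟨y, hy, rfl⟩ := exists_coeff hg
  refine ⟨y, hy, coeff_ext (cdim_lin hy) h ?_⟩
  rw [← hg2]
  funext w
  exact (bd_alt_eq y w).symm

/-! ### degree zero -/

lemma ori_zero (y : SCell (medSq hX) 0) : ori y = 1 := by
  unfold ori
  have h1 : (base hX (cell y) (cdim_cell y)).k = y.k := by
    have h2 := k_mem_cell (base hX (cell y) (cdim_cell y))
    rw [cell_base] at h2
    have h3 : (base hX (cell y) (cdim_cell y)).k ∈ cub y.k (lts y) := h2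
    refine eq_of_not_sep hX fun t ht => ?_
    have h4 := h3 t ((sep_symm hX).1 ht)
    obtain ⟨i, -⟩ := mem_lts.1 h4
    exact i.elim0
  rw [h1, SimpleGraph.dist_self, pow_zero, one_mul, Subsingleton.elim (lperm _ y) 1, Equiv.Perm.sign_one,
    Units.val_one]

/-- the corner of a vertex -/
def vx (hX : Median X) (k : P) : SCell (medSq hX) 0 := ⟨k, Fin.elim0, fun i => i.elim0, fun i => i.elim0⟩

lemma vx_eq (y : SCell (medSq hX) 0) : vx hX y.k = y := SCell.ext rfl (funext fun i => i.elim0)

/-- the vertices, as cubes -/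
lemma cell_zero_inj {y y' : SCell (medSq hX) 0} (h : cell y = cell y') : y = y' := by
  have h1 : ∀ y : SCell (medSq hX) 0, ∀ x, x ∈ cell y ↔ x = y.k := by
    intro y x
    constructor
    · intro hx
      refine eq_of_not_sep hX fun t ht => ?_
      have h4 : t ∈ lts y := hx t ((sep_symm hX).1 ht)
      obtain ⟨i, -⟩ := mem_lts.1 h4
      exact i.elim0
    · rintro rfl
      exact k_mem_cell y
  have h2 : y.k = y'.k := by
    rw [← h1, ← h]
    exact k_mem_cell y
  rw [← vx_eq y, ← vx_eq y', h2]

/-- the sum of the coefficients of the vertices -/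
noncomputable def eps (hX : Median X) (z : Cub X →₀ M) : M := z.sum fun C m => if cdim hX C = 0 then m else 0

lemma eps_eq {z : Cub X →₀ M} (h : ∀ C, z C ≠ 0 → cdim hX C = 0) : eps hX z = z.sum fun _ m => m := by
  refine Finsupp.sum_congr fun C hC => ?_
  rw [if_pos (h C (Finsupp.mem_support_iff.1 hC))]

lemma finsum_alt (z : Cub X →₀ M) : ∑ᶠ y, alt hX 0 z y = eps hX z := by
  classical
  have hfin := (alt_al (hX := hX) (j := 0) z).fin
  rw [finsum_eq_sum_of_support_subset (s := hfin.toFinset) _ (by rw [Set.Finite.coe_toFinset])]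
  unfold eps
  rw [Finsupp.sum]
  refine Finset.sum_bij_ne_zero (fun w _ _ => cell w) ?_ ?_ ?_ ?_
  · intro w hw hne
    rw [Finsupp.mem_support_iff]
    intro h
    apply hne
    show ori w • z (cell w) = 0
    rw [h, smul_zero]
  · intro w hw hne w' hw' hne' h
    exact cell_zero_inj h
  · intro C hC hne
    have h1 : cdim hX C = 0 := by
      by_contra h
      exact hne (if_neg h)
    rw [if_pos h1] at hne
    have h2 : cell (base hX C h1) = C := cell_base h1
    have h5 : alt hX 0 z (base hX C h1) ≠ 0 := by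
      show ori (base hX C h1) • z (cell (base hX C h1)) ≠ 0
      rw [ori_zero, one_smul, h2]
      exact hne
    exact ⟨base hX C h1, hfin.mem_toFinset.2 h5, h5, h2⟩
  · intro w hw hne
    rw [if_pos (cdim_cell w)]
    show ori w • z (cell w) = _
    rw [ori_zero, one_smul]

/-- **exactness in degree zero** -/
theorem cub_ex_zero (z : Cub X →₀ M) (h : ∀ C, z C ≠ 0 → cdim hX C = 0) (hz : eps hX z = 0) :
    ∃ y : Cub X →₀ M, (∀ C, y C ≠ 0 → cdim hX C = 1) ∧ lin (bdK hX) y = z := by
  obtain ⟨x0⟩ := hX.conn.nonempty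
  rw [← finsum_alt] at hz
  obtain ⟨g, hg, hg2⟩ := (SCell.ex_zero (medSq_hgt hX x0) (alt_al z)).1 hz
  obtain ⟨y, hy, rfl⟩ := exists_coeff hg
  refine ⟨y, hy, coeff_ext (cdim_lin hy) h ?_⟩
  rw [← hg2]
  funext w
  exact (bd_alt_eq y w).symm

/-- the sum of the coefficients of a boundary -/
theorem eps_bd (z : Cub X →₀ M) (h : ∀ C, z C ≠ 0 → cdim hX C = 1) : eps hX (lin (bdK hX) z) = 0 := by
  obtain ⟨x0⟩ := hX.conn.nonempty
  rw [← finsum_alt]
  have h1 : alt hX 0 (lin (bdK hX) z) = SCell.bd (alt hX 1 z) := by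
    funext y
    exact (bd_alt_eq z y).symm
  rw [h1]
  exact SCell.finsum_bd (medSq_hgt hX x0) (alt_al z)

end Cm
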