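import Pool.Agent.Cm.CubEx
import Pool.Agent.Cm.Cox

/-!
# Mirror inequality: exactness at a vertex

* `Lk hX x` : the crossing graph of the hyperplanes adjacent to the vertex `x` (the link of `x`);
* `VK hX x M C` : the functions with finite support on `RACG (Lk hX x)`, antisymmetric for the letters of the cube `C`;
* `loc_ex_succ`, `loc_ex_zero` : exactness of the complex of the cubes which contain `x`, with these coefficients.
-/

set_option autoImplicit false
set_option linter.unusedSectionVars false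
set_option linter.unusedVariables false

open scoped Pointwise

namespace Cm

open Npc (Median hs mem_hs dirSet mk_mem_dirSet flip_mk square_of_cross cross_of_square GraphAct)
open Singer

variable {P : Type*} {X : SimpleGraph P}

/-- the crossing graph of the hyperplanes adjacent to the vertex `x` -/
def Lk (hX : Median X) (x : P) : SimpleGraph (dirSet X x) := hX.crossG.comap (Subtype.val : dirSet X x → Npc.Hyp X)

variable {hX : Median X} {x : P} {j : ℕ} {M : Type*} [AddCommGroup M]

/-- the ordered corner at `x` -/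
def cor (y : SCell (coxSq (Lk hX x)) j) : SCell (medSq hX) j :=
  ⟨x, fun i => (y.τ i).1, fun i => (y.τ i).2, fun i i' h => y.adj i i' h⟩

/-- another group element -/
def shf (w : RACG (Lk hX x)) (y : SCell (coxSq (Lk hX x)) j) : SCell (coxSq (Lk hX x)) j := ⟨w, y.τ, y.dir, y.adj⟩

@[simp] lemma cor_k (y : SCell (coxSq (Lk hX x)) j) : (cor y).k = x := rfl
@[simp] lemma cor_τ (y : SCell (coxSq (Lk hX x)) j) (i : Fin j) : (cor y).τ i = (y.τ i).1 := rfl
@[simp] lemma cor_pm (π : Equiv.Perm (Fin j)) (y : SCell (coxSq (Lk hX x)) j) : cor (y.pm π) = (cor y).pm π := rfl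
@[simp] lemma cor_gl (i : Fin j) (y : SCell (coxSq (Lk hX x)) j) : cor (y.gl i) = cor y := rfl
@[simp] lemma cor_tail (y : SCell (coxSq (Lk hX x)) (j + 1)) : cor y.tail = (cor y).tail := rfl
@[simp] lemma cor_shf (w : RACG (Lk hX x)) (y : SCell (coxSq (Lk hX x)) j) : cor (shf w y) = cor y := rfl
@[simp] lemma shf_self (y : SCell (coxSq (Lk hX x)) j) : shf y.k y = y := rfl
lemma shf_gl (i : Fin j) (w : RACG (Lk hX x)) (y : SCell (coxSq (Lk hX x)) j) :
    shf (w * Racg.gen (Lk hX x) (y.τ i)) y = (shf w y).gl i := rfl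
lemma shf_pm (π : Equiv.Perm (Fin j)) (w : RACG (Lk hX x)) (y : SCell (coxSq (Lk hX x)) j) :
    shf w (y.pm π) = (shf w y).pm π := rfl

lemma cor_inj {y y' : SCell (coxSq (Lk hX x)) j} (h : y.k = y'.k) (h' : cor y = cor y') : y = y' :=
  SCell.ext h (funext fun i => Subtype.ext (congrFun (congrArg (fun y : SCell (medSq hX) j => y.τ) h') i))

lemma mem_cell_cor (y : SCell (coxSq (Lk hX x)) j) : x ∈ cell (cor y) := k_mem_cell (cor y)

lemma exists_cor (C : Cub X) (hx : x ∈ C) (hj : cdim hX C = j) :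
    ∃ b : SCell (coxSq (Lk hX x)) j, cell (cor b) = C := by
  obtain ⟨y, h1, rfl⟩ := exists_cell C hx hj
  exact ⟨⟨1, fun i => ⟨y.τ i, y.dir i⟩, fun i => trivial, fun i i' h => y.adj i i' h⟩, h1⟩

lemma cor_perm {b b' : SCell (coxSq (Lk hX x)) j} (h : cell (cor b) = cell (cor b')) :
    ∃ π : Equiv.Perm (Fin j), shf b.k b' = b.pm π := by
  have h1 : lts (cor b) = lts (cor b') := by rw [← hy_cell, ← hy_cell, h]
  obtain ⟨π, hπ⟩ := exists_perm h1
  exact ⟨π, SCell.ext rfl (funext fun i => Subtype.ext (hπ i))⟩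

/-- the antisymmetric functions -/
def VK (hX : Median X) (x : P) (M : Type*) [AddCommGroup M] (C : Cub X) : AddSubgroup (RACG (Lk hX x) →₀ M) where
  carrier := {f | ∀ t : dirSet X x, t.1 ∈ hy hX C → ∀ w, f (w * Racg.gen (Lk hX x) t) = -f w}
  zero_mem' t _ w := by simp
  add_mem' := by
    intro f g hf hg t ht w
    rw [Finsupp.add_apply, Finsupp.add_apply, hf t ht w, hg t ht w, neg_add]
  neg_mem' := by
    intro f hf t ht w
    rw [Finsupp.neg_apply, Finsupp.neg_apply, hf t ht w]

lemma mem_VK {C : Cub X} {f : RACG (Lk hX x) →₀ M} :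
    f ∈ VK hX x M C ↔ ∀ t : dirSet X x, t.1 ∈ hy hX C → ∀ w, f (w * Racg.gen (Lk hX x) t) = -f w := Iff.rfl

lemma VK_mono {C C' : Cub X} (h : C'.1 ⊆ C.1) : VK hX x M C ≤ VK hX x M C' :=
  fun f hf t ht w => hf t (hy_mono hX h ht) w

/-- chains over the cubes which contain `x` -/
structure LocCh (hX : Median X) (x : P) (j : ℕ) (z : Cub X →₀ (RACG (Lk hX x) →₀ M)) : Prop where
  dim : ∀ C, z C ≠ 0 → cdim hX C = j
  mem : ∀ C, z C ≠ 0 → x ∈ C
  anti : ∀ C, z C ∈ VK hX x M C

/-- the function on the ordered corners -/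
noncomputable def lalt (j : ℕ) (z : Cub X →₀ (RACG (Lk hX x) →₀ M)) (y : SCell (coxSq (Lk hX x)) j) : M :=
  ori (cor y) • z (cell (cor y)) y.k

lemma lalt_al {z : Cub X →₀ (RACG (Lk hX x) →₀ M)} (hz : ∀ C, z C ∈ VK hX x M C) : SCell.Al (lalt j z) where
  fin := by
    classical
    have h1 : Function.support (lalt j z) ⊆
        ⋃ C ∈ z.support, ⋃ w ∈ (z C).support, {y : SCell (coxSq (Lk hX x)) j | y.k = w ∧ cell (cor y) = C} := by
      intro y hy
      have h2 : z (cell (cor y)) y.k ≠ 0 := fun h => hy (by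
        show ori (cor y) • z (cell (cor y)) y.k = 0
        rw [h, smul_zero])
      rw [Set.mem_iUnion₂]
      refine ⟨cell (cor y), Finsupp.mem_support_iff.2 fun h => h2 (by rw [h, Finsupp.coe_zero, Pi.zero_apply]), ?_⟩
      rw [Set.mem_iUnion₂]
      exact ⟨y.k, Finsupp.mem_support_iff.2 h2, rfl, rfl⟩
    refine (Set.Finite.biUnion (Finset.finite_toSet _) fun C _ => Set.Finite.biUnion (Finset.finite_toSet _)
      fun w _ => ?_).subset h1
    refine Set.Finite.of_injOn (f := cor) (t := {y : SCell (medSq hX) j | cell y = C}) ?_ ?_ (corners_finite C)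
    · intro y hy
      exact hy.2
    · intro y hy y' hy' h
      exact cor_inj (hy.1.trans hy'.1.symm) h
  alt π y := by
    show ori ((cor y).pm π) • z (cell ((cor y).pm π)) y.k = _
    rw [cell_pm, ori_pm, mul_smul, Units.smul_def]
    rfl
  gl i y := by
    show ori (cor y) • z (cell (cor y)) (y.k * Racg.gen (Lk hX x) (y.τ i)) = _
    rw [hz _ (y.τ i) (by rw [hy_cell]; exact mem_lts.2 ⟨i, rfl⟩), smul_neg]
    rfl

/-- the boundary -/
theorem bd_lalt_eq {z : Cub X →₀ (RACG (Lk hX x) →₀ M)} (hz : ∀ C, z C ∈ VK hX x M C)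
    (y : SCell (coxSq (Lk hX x)) j) :
    SCell.bd (lalt (j + 1) z) y = ori (cor y) • (lin (bdK hX) z (cell (cor y))) y.k := by
  classical
  have hfin := (lalt_al (j := j + 1) hz).fin
  rw [SCell.bd_eq_sum' hfin.toFinset fun w hw => hfin.mem_toFinset.2 hw, lin_apply, Finsupp.sum,
    Finsupp.finsetSum_apply, Finset.smul_sum]
  refine Finset.sum_bij_ne_zero (fun w _ _ => cell (cor w)) ?_ ?_ ?_ ?_
  · intro w hw hne
    rw [Finsupp.mem_support_iff]
    intro h
    apply hne
    show ori (cor w) • z (cell (cor w)) w.k = 0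
    rw [h, Finsupp.coe_zero, Pi.zero_apply, smul_zero]
  · intro w hw hne w' hw' hne' h
    have t1 := (Finset.mem_filter.1 hw).2
    have t2 := (Finset.mem_filter.1 hw').2
    refine SCell.fb_ext (t1.trans t2.symm) (Subtype.ext ?_)
    have h1 : cell (cor w).tail = cell (cor w').tail := by
      rw [← cor_tail, ← cor_tail, t1, t2]
    exact first_unique h h1
  · intro C hC hne
    have h1 : inc hX C (cell (cor y)) ≠ 0 := by
      intro h
      apply hne
      rw [bdK_apply, h, zero_smul, Finsupp.coe_zero, Pi.zero_apply, smul_zero]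
    obtain ⟨h2, h3⟩ := inc_ne h1
    rw [cdim_cell] at h3
    obtain ⟨t, c, h4⟩ := exists_scons h2 h3
    let w : SCell (coxSq (Lk hX x)) (j + 1) := SCell.cons (⟨t, c.1⟩ : dirSet X x) y trivial fun i => c.2 i
    have h6 : cor w = scons t (cor y) c := by
      refine SCell.ext rfl (funext fun i => ?_)
      refine Fin.cases rfl (fun i => rfl) i
    have h5 : lalt (j + 1) z w ≠ 0 := by
      intro h
      have h7 : z (cell (cor w)) w.k = 0 := ori_smul_inj (cor w) (by
        rw [smul_zero]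
        exact h)
      rw [h6, h4] at h7
      apply hne
      show ori (cor y) • (bdK hX C (cell (cor y)) • z C) y.k = 0
      rw [Finsupp.smul_apply]
      have h8 : z C y.k = 0 := h7
      rw [h8, smul_zero, smul_zero]
    refine ⟨w, Finset.mem_filter.2 ⟨hfin.mem_toFinset.2 h5, rfl⟩, h5, ?_⟩
    rw [h6, h4]
  · intro w hw hne
    have t1 := (Finset.mem_filter.1 hw).2
    subst t1
    rw [bdK_apply, cor_tail, inc_eq, Finsupp.smul_apply, smul_smul]
    show ori (cor w) • z (cell (cor w)) w.k = _ • z (cell (cor w)) w.k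
    have e1 : ori (cor w).tail * (ori (cor w) * ori (cor w).tail) =
        (ori (cor w).tail * ori (cor w).tail) * ori (cor w) := by ring
    rw [e1, ori_sq, one_mul]

/-- coefficients on the cubes from a function on the ordered corners -/
theorem exists_lcoeff {g : SCell (coxSq (Lk hX x)) j → M} (hg : SCell.Al g) :
    ∃ z : Cub X →₀ (RACG (Lk hX x) →₀ M), LocCh hX x j z ∧ lalt j z = g := by
  classical
  let bs : ∀ C : Cub X, (cdim hX C = j ∧ x ∈ C) → SCell (coxSq (Lk hX x)) j := fun C h => (exists_cor C h.2 h.1).choose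
  have hbs : ∀ C h, cell (cor (bs C h)) = C := fun C h => (exists_cor C h.2 h.1).choose_spec
  have hfw : ∀ b : SCell (coxSq (Lk hX x)) j, (Function.support fun w => g (shf w b)).Finite := by
    intro b
    refine Set.Finite.of_injOn (f := fun w => shf w b) (t := Function.support g) ?_ ?_ hg.fin
    · intro w hw
      exact hw
    · intro w hw w' hw' h
      exact congrArg (fun y : SCell (coxSq (Lk hX x)) j => y.k) h
  let gf : SCell (coxSq (Lk hX x)) j → (RACG (Lk hX x) →₀ M) := fun b => Finsupp.ofSupportFinite _ (hfw b)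
  have hgf : ∀ b w, gf b w = g (shf w b) := fun b w => rfl
  let f : Cub X → (RACG (Lk hX x) →₀ M) := fun C => if h : cdim hX C = j ∧ x ∈ C then
    ori (cor (bs C h)) • gf (bs C h) else 0
  have hf0 : ∀ C (h : cdim hX C = j ∧ x ∈ C), f C = ori (cor (bs C h)) • gf (bs C h) := fun C h => dif_pos h
  have hf1 : ∀ y : SCell (coxSq (Lk hX x)) j, ori (cor y) • f (cell (cor y)) y.k = g y := by
    intro y
    have hc : cdim hX (cell (cor y)) = j ∧ x ∈ cell (cor y) := ⟨cdim_cell _, mem_cell_cor y⟩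
    obtain ⟨π, hπ⟩ := cor_perm (b := y) (b' := bs _ hc) (hbs _ hc).symm
    have h2 : cor (bs _ hc) = (cor y).pm π := by
      rw [← cor_pm, ← hπ, cor_shf]
    rw [hf0 _ hc, Finsupp.smul_apply, hgf, hπ, hg.alt, h2, ori_pm, smul_smul, Units.smul_def, smul_smul]
    have e1 : ori (cor y) * ((Equiv.Perm.sign π : ℤ) * ori (cor y)) * (Equiv.Perm.sign π : ℤ) =
        (ori (cor y) * ori (cor y)) * ((Equiv.Perm.sign π : ℤ) * (Equiv.Perm.sign π : ℤ)) := by ring
    rw [e1, ori_sq, ← Units.val_mul, Int.units_mul_self, Units.val_one, one_mul, one_smul]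
  have hf2 : ∀ C, f C ≠ 0 → cdim hX C = j ∧ x ∈ C := by
    intro C h
    by_contra h'
    exact h (dif_neg h')
  have hfin : (Function.support f).Finite := by
    refine (hg.fin.image fun y => cell (cor y)).subset ?_
    intro C hC
    have h1 := hf2 C hC
    have h3 : gf (bs C h1) ≠ 0 := by
      intro h
      apply hC
      rw [hf0 C h1, h, smul_zero]
    obtain ⟨w, hw⟩ := Finsupp.ne_iff.1 h3
    refine ⟨shf w (bs C h1), hw, ?_⟩
    show cell (cor (shf w (bs C h1))) = C
    rw [cor_shf, hbs C h1]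
  refine ⟨Finsupp.ofSupportFinite f hfin, ⟨fun C h => (hf2 C h).1, fun C h => (hf2 C h).2, fun C => ?_⟩, funext hf1⟩
  intro t ht w
  show f C (w * Racg.gen (Lk hX x) t) = -f C w
  by_cases h1 : cdim hX C = j ∧ x ∈ C
  · have h2 : t.1 ∈ lts (cor (bs C h1)) := by
      rw [← hy_cell, hbs C h1]
      exact ht
    obtain ⟨i, hi⟩ := mem_lts.1 h2
    have h3 : (bs C h1).τ i = t := Subtype.ext hi
    rw [hf0 C h1, Finsupp.smul_apply, Finsupp.smul_apply, hgf, hgf, ← h3, shf_gl, hg.gl, smul_neg]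
  · have h2 : f C = 0 := dif_neg h1
    rw [h2, Finsupp.coe_zero, Pi.zero_apply, Pi.zero_apply, neg_zero]

/-- coefficients over the cubes which contain `x` are determined by the function on the ordered corners -/
lemma lcoeff_eq {z z' : Cub X →₀ (RACG (Lk hX x) →₀ M)} (he : lalt j z = lalt j z') {C : Cub X}
    (hC : cdim hX C = j) (hx : x ∈ C) : z C = z' C := by
  obtain ⟨b, rfl⟩ := exists_cor C hx hC
  ext w
  have h1 := congrFun he (shf w b)
  have h2 : ori (cor b) • z (cell (cor b)) w = ori (cor b) • z' (cell (cor b)) w := h1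
  exact ori_smul_inj _ h2

/-- **exactness in positive degrees** -/
theorem loc_ex_succ (z : Cub X →₀ (RACG (Lk hX x) →₀ M)) (h : LocCh hX x (j + 1) z)
    (hz : ∀ C, x ∈ C → lin (bdK hX) z C = 0) :
    ∃ y : Cub X →₀ (RACG (Lk hX x) →₀ M), LocCh hX x (j + 2) y ∧ ∀ C, x ∈ C → lin (bdK hX) y C = z C := by
  have h1 : SCell.bd (lalt (j + 1) z) = 0 := by
    funext y
    rw [bd_lalt_eq h.anti, hz _ (mem_cell_cor y), Finsupp.coe_zero, Pi.zero_apply, smul_zero, Pi.zero_apply]
  obtain ⟨g, hg, hg2⟩ := SCell.ex_succ (coxSq_hgt (Lk hX x)) (lalt_al h.anti) h1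
  obtain ⟨y, hy, rfl⟩ := exists_lcoeff hg
  refine ⟨y, hy, fun C hx => ?_⟩
  by_cases hC : cdim hX C = j + 1
  · refine lcoeff_eq (j := j + 1) ?_ hC hx
    rw [← hg2]
    funext w
    rw [bd_lalt_eq hy.anti]
    rfl
  · have h2 : z C = 0 := by
      by_contra h'
      exact hC (h.dim C h')
    rw [h2]
    by_contra h'
    exact hC (cdim_lin hy.dim C h')

/-- the augmentation -/
noncomputable def leps (hX : Median X) (x : P) (z : Cub X →₀ (RACG (Lk hX x) →₀ M)) : M :=
  (z (cell (vx hX x))).sum fun _ m => m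

lemma leps_eq (z : Cub X →₀ (RACG (Lk hX x) →₀ M)) : ∑ᶠ y, lalt 0 z y = leps hX x z := by
  classical
  have h0 : ∀ y : SCell (coxSq (Lk hX x)) 0, cor y = vx hX x := fun y => SCell.ext rfl (funext fun i => i.elim0)
  have h1 : ∀ y : SCell (coxSq (Lk hX x)) 0, lalt 0 z y = z (cell (vx hX x)) y.k := by
    intro y
    show ori (cor y) • z (cell (cor y)) y.k = _
    rw [ori_zero, one_smul, h0]
  rw [finsum_congr h1]
  let e : SCell (coxSq (Lk hX x)) 0 ≃ RACG (Lk hX x) :=
    { toFun := fun y => y.k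
      invFun := fun w => ⟨w, Fin.elim0, fun i => i.elim0, fun i => i.elim0⟩
      left_inv := fun y => SCell.ext rfl (funext fun i => i.elim0)
      right_inv := fun w => rfl }
  have h2 : ∑ᶠ y : SCell (coxSq (Lk hX x)) 0, z (cell (vx hX x)) y.k = ∑ᶠ w, z (cell (vx hX x)) w :=
    finsum_comp_equiv e (f := fun w => z (cell (vx hX x)) w)
  rw [h2, finsum_eq_sum_of_support_subset (s := (z (cell (vx hX x))).support) _ (by
    intro w hw
    exact Finsupp.mem_support_iff.2 hw)]
  rfl

/-- **exactness in degree zero** -/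
theorem loc_ex_zero (z : Cub X →₀ (RACG (Lk hX x) →₀ M)) (h : LocCh hX x 0 z) (hz : leps hX x z = 0) :
    ∃ y : Cub X →₀ (RACG (Lk hX x) →₀ M), LocCh hX x 1 y ∧ ∀ C, x ∈ C → lin (bdK hX) y C = z C := by
  rw [← leps_eq] at hz
  obtain ⟨g, hg, hg2⟩ := (SCell.ex_zero (coxSq_hgt (Lk hX x)) (lalt_al h.anti)).1 hz
  obtain ⟨y, hy, rfl⟩ := exists_lcoeff hg
  refine ⟨y, hy, fun C hx => ?_⟩
  by_cases hC : cdim hX C = 0
  · refine lcoeff_eq (j := 0) ?_ hC hx
    rw [← hg2]
    funext w
    rw [bd_lalt_eq hy.anti]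
    rfl
  · have h2 : z C = 0 := by
      by_contra h'
      exact hC (h.dim C h')
    rw [h2]
    by_contra h'
    exact hC (cdim_lin hy.dim C h')

/-- the augmentation of a boundary -/
theorem leps_bd (z : Cub X →₀ (RACG (Lk hX x) →₀ M)) (h : LocCh hX x 1 z) : leps hX x (lin (bdK hX) z) = 0 := by
  rw [← leps_eq]
  have h1 : lalt 0 (lin (bdK hX) z) = SCell.bd (lalt 1 z) := by
    funext y
    exact (bd_lalt_eq h.anti y).symm
  rw [h1]
  exact SCell.finsum_bd (coxSq_hgt (Lk hX x)) (lalt_al h.anti)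

end Cm
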