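import Pool.Agent.Cm.Geo

/-!
# Mirror inequality: the cubes of a median graph, orientations

* `Cub X` : the cubes, as sets of vertices; `hy hX C` : the hyperplanes which cross the cube `C`; `cdim hX C` : its dimension;
* `cell y` : the cube of an ordered corner `y : SCell (medSq hX) j`;
* `ori y` : the sign of an ordered corner; `sgc hX g C` : the sign of `g` on the cube `C`;
* `inc hX C C'` : the incidence number of the face `C'` in `C`.
-/

set_option autoImplicit false
set_option linter.unusedSectionVars false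
set_option linter.unusedVariables false

open scoped Pointwise

namespace Cm

open Npc (Median hs mem_hs dirSet mk_mem_dirSet flip_mk square_of_cross cross_of_square GraphAct)

lemma SCell.inj {H P : Type*} {S : Sq H P} {j : ℕ} (y : SCell S j) : Function.Injective y.τ := by
  intro i i' h
  by_contra hne
  have h1 := y.adj i i' hne
  rw [h] at h1
  exact S.C.irrefl h1

variable {P : Type*} {X : SimpleGraph P}

/-! ### the action -/

section act
variable {G : Type*} [Group G] [MulAction G P] [hA : GraphAct G X]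

lemma sep_smul_of {h : Npc.Hyp X} {x y : P} (g : G) (h1 : Sep h x y) : Sep (g • h) (g • x) (g • y) := by
  obtain ⟨A, hA, hx, hy⟩ := h1
  refine ⟨g • A, Set.smul_mem_smul_set hA, Set.smul_mem_smul_set hx, ?_⟩
  rwa [Set.smul_mem_smul_set_iff]

lemma sep_smul {h : Npc.Hyp X} {x y : P} (g : G) : Sep (g • h) (g • x) (g • y) ↔ Sep h x y := by
  refine ⟨fun h1 => ?_, sep_smul_of g⟩
  have h2 := sep_smul_of g⁻¹ h1
  rwa [inv_smul_smul, inv_smul_smul, inv_smul_smul] at h2

lemma sep_smul' {h : Npc.Hyp X} {x y : P} (g : G) : Sep h (g • x) y ↔ Sep (g⁻¹ • h) x (g⁻¹ • y) := by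
  rw [← sep_smul (h := g⁻¹ • h) g, smul_inv_smul, smul_inv_smul]

open Classical in
lemma smul_cub (g : G) (k : P) (T : Finset (Npc.Hyp X)) : g • cub k T = cub (g • k) (T.image (g • ·)) := by
  ext x
  rw [Set.mem_smul_set_iff_inv_smul_mem, mem_cub, mem_cub]
  constructor
  · intro h t ht
    rw [sep_smul'] at ht
    exact Finset.mem_image.2 ⟨g⁻¹ • t, h _ ht, smul_inv_smul g t⟩
  · intro h t ht
    rw [← sep_smul g, smul_inv_smul] at ht
    obtain ⟨u, hu, hu2⟩ := Finset.mem_image.1 (h _ ht)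
    rwa [← smul_left_cancel g hu2]

open Classical in
lemma Cross.smul (g : G) {k : P} {T : Finset (Npc.Hyp X)} (h : Cross X k T) : Cross X (g • k) (T.image (g • ·)) := by
  refine ⟨fun t ht => ?_, fun t ht u hu htu => ?_⟩
  · obtain ⟨t', ht', rfl⟩ := Finset.mem_image.1 ht
    exact (Npc.smul_mem_dirSet g t' k).2 (h.dir t' ht')
  · obtain ⟨t', ht', rfl⟩ := Finset.mem_image.1 ht
    obtain ⟨u', hu', rfl⟩ := Finset.mem_image.1 hu
    exact (Npc.cross_smul g t' u').2 (h.cross t' ht' u' hu' fun h' => htu (by rw [h']))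

end act

/-! ### cubes -/

/-- the cubes, as sets of vertices -/
def Cub (X : SimpleGraph P) : Type _ := {C : Set P // ∃ k T, Cross X k T ∧ C = cub k T}

namespace Cub

@[ext] lemma ext' {C C' : Cub X} (h : C.1 = C'.1) : C = C' := Subtype.ext h

instance : Membership P (Cub X) := ⟨fun C x => x ∈ C.1⟩

lemma mem_def {C : Cub X} {x : P} : x ∈ C ↔ x ∈ C.1 := Iff.rfl

end Cub

instance {G : Type*} [Group G] [MulAction G P] [hA : GraphAct G X] : MulAction G (Cub X) where
  smul g C := ⟨g • C.1, by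
    classical
    obtain ⟨C, k, T, h, rfl⟩ := C
    exact ⟨g • k, T.image (g • ·), h.smul g, smul_cub g k T⟩⟩
  one_smul C := Subtype.ext (one_smul G C.1)
  mul_smul g g' C := Subtype.ext (mul_smul g g' C.1)

lemma Cub.smul_val {G : Type*} [Group G] [MulAction G P] [hA : GraphAct G X] (g : G) (C : Cub X) :
    (g • C).1 = g • C.1 := rfl

lemma Cub.smul_mem {G : Type*} [Group G] [MulAction G P] [hA : GraphAct G X] (g : G) (C : Cub X) (x : P) :
    g • x ∈ g • C ↔ x ∈ C := Set.smul_mem_smul_set_iff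

section cub
variable (hX : Median X)

include hX in
lemma Cub.hyS_finite (C : Cub X) : {t : Npc.Hyp X | ∃ x ∈ C, ∃ y ∈ C, Sep t x y}.Finite := by
  obtain ⟨C, k, T, h, rfl⟩ := C
  refine (Finset.finite_toSet T).subset ?_
  rintro t ⟨x, hx, y, hy, ht⟩
  exact mem_of_sep hX hx hy ht

/-- the hyperplanes which cross a cube -/
noncomputable def hy (C : Cub X) : Finset (Npc.Hyp X) := (C.hyS_finite hX).toFinset

lemma mem_hy {C : Cub X} {t : Npc.Hyp X} : t ∈ hy hX C ↔ ∃ x ∈ C, ∃ y ∈ C, Sep t x y := by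
  unfold hy
  rw [Set.Finite.mem_toFinset]
  exact Iff.rfl

lemma hy_cub {k : P} {T : Finset (Npc.Hyp X)} (h : Cross X k T) (C : Cub X) (hC : C.1 = cub k T) : hy hX C = T := by
  ext t
  rw [mem_hy, mem_iff_sep hX h]
  simp only [Cub.mem_def, hC]

lemma Cub.cross {C : Cub X} {x : P} (hx : x ∈ C) : Cross X x (hy hX C) := by
  obtain ⟨C, k, T, h, rfl⟩ := C
  rw [hy_cub hX h _ rfl]
  exact h.of_mem hX hx

lemma Cub.eq_cub {C : Cub X} {x : P} (hx : x ∈ C) : C.1 = cub x (hy hX C) := by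
  obtain ⟨C, k, T, h, rfl⟩ := C
  rw [hy_cub hX h _ rfl]
  exact (cub_eq_of_mem hX hx).symm

include hX in
lemma Cub.nonempty (C : Cub X) : ∃ x, x ∈ C := by
  obtain ⟨C, k, T, h, rfl⟩ := C
  exact ⟨k, self_mem_cub hX k T⟩

include hX in
lemma Cub.finite (C : Cub X) : C.1.Finite := by
  obtain ⟨C, k, T, h, rfl⟩ := C
  exact cub_finite hX k T

/-- the dimension of a cube -/
noncomputable def cdim (C : Cub X) : ℕ := (hy hX C).card

lemma flip_mem {C : Cub X} {x : P} (hx : x ∈ C) {t : Npc.Hyp X} (ht : t ∈ hy hX C) : Npc.flip t x ∈ C := by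
  rw [Cub.mem_def, Cub.eq_cub hX hx]
  exact flip_mem_cub hX (Cub.cross hX hx) ht

lemma ncard_Cub (C : Cub X) : C.1.ncard = 2 ^ cdim hX C := by
  obtain ⟨x, hx⟩ := C.nonempty hX
  rw [Cub.eq_cub hX hx, ncard_cub hX (Cub.cross hX hx)]
  rfl

lemma hy_mono {C C' : Cub X} (h : C'.1 ⊆ C.1) : hy hX C' ⊆ hy hX C := by
  intro t ht
  rw [mem_hy] at ht ⊢
  obtain ⟨x, hx, y, hy, h1⟩ := ht
  exact ⟨x, h hx, y, h hy, h1⟩

lemma eq_of_hy_eq {C C' : Cub X} {x : P} (hx : x ∈ C) (hx' : x ∈ C') (h : hy hX C = hy hX C') : C = C' := by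
  refine Cub.ext' ?_
  rw [Cub.eq_cub hX hx, Cub.eq_cub hX hx', h]

lemma subset_of_hy {C C' : Cub X} {x : P} (hx : x ∈ C) (hx' : x ∈ C') (h : hy hX C' ⊆ hy hX C) : C'.1 ⊆ C.1 := by
  rw [Cub.eq_cub hX hx, Cub.eq_cub hX hx']
  exact (cub_subset_iff hX (Cub.cross hX hx) (Cub.cross hX hx')).2 h

lemma cdim_mono {C C' : Cub X} (h : C'.1 ⊆ C.1) : cdim hX C' ≤ cdim hX C := Finset.card_le_card (hy_mono hX h)

lemma cdim_lt {C C' : Cub X} (h : C'.1 ⊆ C.1) (hne : C' ≠ C) : cdim hX C' < cdim hX C := by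
  refine Finset.card_lt_card ⟨hy_mono hX h, fun h' => hne ?_⟩
  obtain ⟨x, hx⟩ := C'.nonempty hX
  exact eq_of_hy_eq hX hx (h hx) (Finset.Subset.antisymm (hy_mono hX h) h')

section act
variable {G : Type*} [Group G] [MulAction G P] [hA : GraphAct G X]

lemma mem_hy_smul (g : G) (C : Cub X) (t : Npc.Hyp X) : g • t ∈ hy hX (g • C) ↔ t ∈ hy hX C := by
  rw [mem_hy, mem_hy]
  constructor
  · rintro ⟨x, hx, y, hy, h⟩
    refine ⟨g⁻¹ • x, ?_, g⁻¹ • y, ?_, ?_⟩
    · rwa [← Cub.smul_mem g, smul_inv_smul]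
    · rwa [← Cub.smul_mem g, smul_inv_smul]
    · rwa [← sep_smul g, smul_inv_smul, smul_inv_smul]
  · rintro ⟨x, hx, y, hy, h⟩
    exact ⟨g • x, (Cub.smul_mem g C x).2 hx, g • y, (Cub.smul_mem g C y).2 hy, (sep_smul g).2 h⟩

open Classical in
lemma hy_smul (g : G) (C : Cub X) : hy hX (g • C) = (hy hX C).image (g • ·) := by
  ext t
  rw [Finset.mem_image]
  constructor
  · intro h
    refine ⟨g⁻¹ • t, ?_, smul_inv_smul g t⟩
    rwa [← mem_hy_smul hX g, smul_inv_smul]
  · rintro ⟨u, hu, rfl⟩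
    exact (mem_hy_smul hX g C u).2 hu

lemma cdim_smul (g : G) (C : Cub X) : cdim hX (g • C) = cdim hX C := by
  classical
  unfold cdim
  rw [hy_smul]
  exact Finset.card_image_of_injective _ (MulAction.injective g)

end act

/-! ### ordered corners -/

section cell
variable {j : ℕ}

open Classical in
/-- the letters of an ordered corner -/
noncomputable def lts {hX : Median X} (y : SCell (medSq hX) j) : Finset (Npc.Hyp X) := Finset.univ.image y.τ

variable {hX}

lemma mem_lts {y : SCell (medSq hX) j} {t : Npc.Hyp X} : t ∈ lts y ↔ ∃ i, y.τ i = t := by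
  classical
  unfold lts
  rw [Finset.mem_image]
  exact ⟨fun ⟨i, _, h⟩ => ⟨i, h⟩, fun ⟨i, h⟩ => ⟨i, Finset.mem_univ _, h⟩⟩

lemma card_lts (y : SCell (medSq hX) j) : (lts y).card = j := by
  classical
  unfold lts
  rw [Finset.card_image_of_injective _ y.inj, Finset.card_univ, Fintype.card_fin]

lemma lts_cross (y : SCell (medSq hX) j) : Cross X y.k (lts y) := by
  refine ⟨fun t ht => ?_, fun t ht u hu htu => ?_⟩
  · obtain ⟨i, rfl⟩ := mem_lts.1 ht
    exact y.dir i
  · obtain ⟨i, rfl⟩ := mem_lts.1 ht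
    obtain ⟨i', rfl⟩ := mem_lts.1 hu
    exact y.adj i i' fun h => htu (by rw [h])

/-- the cube of an ordered corner -/
noncomputable def cell (y : SCell (medSq hX) j) : Cub X := ⟨cub y.k (lts y), y.k, lts y, lts_cross y, rfl⟩

lemma cell_val (y : SCell (medSq hX) j) : (cell y).1 = cub y.k (lts y) := rfl

lemma k_mem_cell (y : SCell (medSq hX) j) : y.k ∈ cell y := self_mem_cub hX _ _

@[simp] lemma hy_cell (y : SCell (medSq hX) j) : hy hX (cell y) = lts y := hy_cub hX (lts_cross y) _ rfl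

@[simp] lemma cdim_cell (y : SCell (medSq hX) j) : cdim hX (cell y) = j := by
  unfold cdim
  rw [hy_cell, card_lts]

lemma cell_eq_iff {j' : ℕ} {y : SCell (medSq hX) j} {C : Cub X} :
    cell y = C ↔ y.k ∈ C ∧ lts y = hy hX C := by
  constructor
  · rintro rfl
    exact ⟨k_mem_cell y, (hy_cell y).symm⟩
  · rintro ⟨h1, h2⟩
    exact eq_of_hy_eq hX (k_mem_cell y) h1 (by rw [hy_cell, h2])

lemma lts_pm (π : Equiv.Perm (Fin j)) (y : SCell (medSq hX) j) : lts (y.pm π) = lts y := by
  ext t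
  rw [mem_lts, mem_lts]
  constructor
  · rintro ⟨i, h⟩
    exact ⟨π i, h⟩
  · rintro ⟨i, h⟩
    exact ⟨π.symm i, by rw [SCell.pm_τ, Equiv.apply_symm_apply, h]⟩

lemma cell_pm (π : Equiv.Perm (Fin j)) (y : SCell (medSq hX) j) : cell (y.pm π) = cell y := by
  refine Cub.ext' ?_
  rw [cell_val, cell_val, lts_pm, SCell.pm_k]

lemma cell_gl (i : Fin j) (y : SCell (medSq hX) j) : cell (y.gl i) = cell y := by
  refine Cub.ext' ?_
  rw [cell_val, cell_val]
  show cub (Npc.flip (y.τ i) y.k) (lts y) = _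
  exact cub_eq_of_mem hX (flip_mem_cub hX (lts_cross y) (mem_lts.2 ⟨i, rfl⟩))

/-- every corner of a cube can be ordered -/
lemma exists_cell (C : Cub X) {x : P} (hx : x ∈ C) (hj : cdim hX C = j) :
    ∃ y : SCell (medSq hX) j, cell y = C ∧ y.k = x := by
  classical
  have h1 := Cub.cross hX hx
  let e : Fin j ≃ hy hX C := (Fintype.equivFinOfCardEq (by rw [Fintype.card_coe]; exact hj)).symm
  let y : SCell (medSq hX) j := ⟨x, fun i => (e i : Npc.Hyp X), fun i => h1.dir _ (e i).2, fun i i' h =>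
    h1.cross _ (e i).2 _ (e i').2 fun h' => h (e.injective (Subtype.ext h'))⟩
  refine ⟨y, (cell_eq_iff (j' := 0)).2 ⟨hx, ?_⟩, rfl⟩
  ext t
  rw [mem_lts]
  constructor
  · rintro ⟨i, rfl⟩
    exact (e i).2
  · intro ht
    exact ⟨e.symm ⟨t, ht⟩, by
      show ((e (e.symm ⟨t, ht⟩) : hy hX C) : Npc.Hyp X) = t
      rw [Equiv.apply_symm_apply]⟩

/-- two orderings of one set of letters -/
lemma exists_perm {y y' : SCell (medSq hX) j} (h : lts y = lts y') :
    ∃ π : Equiv.Perm (Fin j), ∀ i, y'.τ i = y.τ (π i) := by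
  classical
  have h1 : ∀ i, ∃ i', y.τ i' = y'.τ i := fun i => by
    have : y'.τ i ∈ lts y := by
      rw [h]
      exact mem_lts.2 ⟨i, rfl⟩
    exact mem_lts.1 this
  choose f hf using h1
  have h2 : Function.Injective f := by
    intro i i' hii
    apply y'.inj
    rw [← hf, ← hf, hii]
  exact ⟨Equiv.ofBijective f (Finite.injective_iff_bijective.1 h2), fun i => (hf i).symm⟩

/-- induction over the ordered corners of a cube -/
lemma cell_induction (y0 : SCell (medSq hX) j) {p : SCell (medSq hX) j → Prop} (h0 : p y0)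
    (hgl : ∀ i y, cell y = cell y0 → p y → p (y.gl i)) (hpm : ∀ π y, cell y = cell y0 → p y → p (y.pm π))
    {y : SCell (medSq hX) j} (hy' : cell y = cell y0) : p y := by
  have h1 : y.k ∈ cub y0.k (lts y0) := by
    have := k_mem_cell y
    rw [hy'] at this
    exact this
  have h2 : ∃ y' : SCell (medSq hX) j, y'.k = y.k ∧ y'.τ = y0.τ ∧ cell y' = cell y0 ∧ p y' := by
    refine cub_induction hX (lts_cross y0)
      (p := fun x => ∃ y' : SCell (medSq hX) j, y'.k = x ∧ y'.τ = y0.τ ∧ cell y' = cell y0 ∧ p y')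
      ⟨y0, rfl, rfl, rfl, h0⟩ ?_ h1
    rintro x hx hxc ⟨y', rfl, h3, h4, h5⟩ t ht
    obtain ⟨i, rfl⟩ := mem_lts.1 ht
    refine ⟨y'.gl i, ?_, h3, ?_, hgl i y' h4 h5⟩
    · rw [SCell.gl_k, h3]
      rfl
    · rw [cell_gl, h4]
  obtain ⟨y', h3, h4, h5, h6⟩ := h2
  have h7 : lts y' = lts y := by
    rw [← hy_cell, ← hy_cell, h5, hy']
  obtain ⟨π, hπ⟩ := exists_perm h7
  have h8 : y = y'.pm π := SCell.ext h3.symm (funext fun i => hπ i)
  rw [h8]
  exact hpm π y' h5 h6

/-! ### orientations -/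

open Classical in
/-- the permutation between two orderings -/
noncomputable def lperm (y y' : SCell (medSq hX) j) : Equiv.Perm (Fin j) :=
  if h : ∃ π : Equiv.Perm (Fin j), ∀ i, y'.τ i = y.τ (π i) then h.choose else 1

lemma lperm_spec {y y' : SCell (medSq hX) j} (h : lts y = lts y') (i : Fin j) : y'.τ i = y.τ (lperm y y' i) := by
  unfold lperm
  rw [dif_pos (exists_perm h)]
  exact (exists_perm h).choose_spec i

lemma lperm_eq {y y' : SCell (medSq hX) j} (h : lts y = lts y') {π : Equiv.Perm (Fin j)}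
    (hπ : ∀ i, y'.τ i = y.τ (π i)) : lperm y y' = π :=
  Equiv.ext fun i => y.inj (by rw [← lperm_spec h, hπ])

/-- a chosen ordered corner of each cube -/
noncomputable def base (hX : Median X) {j : ℕ} (C : Cub X) (h : cdim hX C = j) : SCell (medSq hX) j :=
  (exists_cell C (C.nonempty hX).choose_spec h).choose

lemma cell_base {C : Cub X} (h : cdim hX C = j) : cell (base hX C h) = C :=
  (exists_cell C (C.nonempty hX).choose_spec h).choose_spec.1

/-- the sign of an ordered corner -/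
noncomputable def ori (y : SCell (medSq hX) j) : ℤ :=
  (-1) ^ X.dist (base hX (cell y) (cdim_cell y)).k y.k *
    (Equiv.Perm.sign (lperm (base hX (cell y) (cdim_cell y)) y) : ℤ)

lemma ori_eq {y : SCell (medSq hX) j} {C : Cub X} (h : cell y = C) (hC : cdim hX C = j) :
    ori y = (-1) ^ X.dist (base hX C hC).k y.k * (Equiv.Perm.sign (lperm (base hX C hC) y) : ℤ) := by
  subst h
  rfl

lemma lts_base (y : SCell (medSq hX) j) : lts (base hX (cell y) (cdim_cell y)) = lts y := by
  rw [← hy_cell, cell_base, hy_cell]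

lemma ori_sq (y : SCell (medSq hX) j) : ori y * ori y = 1 := by
  unfold ori
  rw [mul_mul_mul_comm, ← pow_add, ← two_mul, pow_mul]
  rw [neg_one_sq, one_pow, one_mul, ← Units.val_mul, Int.units_mul_self, Units.val_one]

lemma ori_ne (y : SCell (medSq hX) j) : ori y ≠ 0 := by
  intro h
  have := ori_sq y
  rw [h, mul_zero] at this
  exact zero_ne_one this

lemma ori_pm (π : Equiv.Perm (Fin j)) (y : SCell (medSq hX) j) :
    ori (y.pm π) = (Equiv.Perm.sign π : ℤ) * ori y := by
  rw [ori_eq (cell_pm π y) (cdim_cell y), ori]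
  have h1 : lperm (base hX (cell y) (cdim_cell y)) (y.pm π) = lperm (base hX (cell y) (cdim_cell y)) y * π := by
    refine lperm_eq ?_ fun i => ?_
    · rw [lts_base, lts_pm]
    · rw [SCell.pm_τ, Equiv.Perm.mul_apply]
      exact lperm_spec (lts_base y) _
  rw [h1, Equiv.Perm.sign_mul, Units.val_mul, SCell.pm_k]
  ring

lemma ori_gl (i : Fin j) (y : SCell (medSq hX) j) : ori (y.gl i) = -ori y := by
  rw [ori_eq (cell_gl i y) (cdim_cell y), ori]
  have h1 : lperm (base hX (cell y) (cdim_cell y)) (y.gl i) = lperm (base hX (cell y) (cdim_cell y)) y := by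
    refine lperm_eq ?_ fun i' => ?_
    · rw [lts_base]
      rfl
    · rw [SCell.gl_τ]
      exact lperm_spec (lts_base y) _
  rw [h1]
  obtain ⟨a, ha, h2⟩ := y.dir i
  have h3 : (y.gl i).k = a := by
    show Npc.flip (y.τ i) y.k = a
    rw [← h2, flip_mk hX]
  rw [h3]
  rcases hX.dist_adj ha (base hX (cell y) (cdim_cell y)).k with h4 | h4
  · rw [h4, pow_succ]
    ring
  · rw [h4, pow_succ]
    ring

/-- functions which change the sign under the moves are multiples of the orientation, on the corners of a cube -/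
lemma ori_mul_const {M : Type*} [AddCommGroup M] (y0 : SCell (medSq hX) j) {f : SCell (medSq hX) j → M}
    (hgl : ∀ i y, cell y = cell y0 → f (y.gl i) = -f y)
    (hpm : ∀ (π : Equiv.Perm (Fin j)) y, cell y = cell y0 → f (y.pm π) = (Equiv.Perm.sign π : ℤ) • f y)
    {y : SCell (medSq hX) j} (hy' : cell y = cell y0) : ori y • f y = ori y0 • f y0 := by
  refine cell_induction y0 (p := fun y => ori y • f y = ori y0 • f y0) rfl ?_ ?_ hy'
  · intro i y h1 h2
    show ori (y.gl i) • f (y.gl i) = _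
    rw [ori_gl, hgl i y h1, neg_smul, smul_neg, neg_neg, h2]
  · intro π y h1 h2
    show ori (y.pm π) • f (y.pm π) = _
    rw [ori_pm, hpm π y h1, smul_smul, mul_right_comm, ← Units.val_mul, Int.units_mul_self, Units.val_one, one_mul, h2]

lemma ori_mul_eq (y0 : SCell (medSq hX) j) {f : SCell (medSq hX) j → ℤ}
    (hgl : ∀ i y, cell y = cell y0 → f (y.gl i) = -f y)
    (hpm : ∀ (π : Equiv.Perm (Fin j)) y, cell y = cell y0 → f (y.pm π) = (Equiv.Perm.sign π : ℤ) * f y)
    {y : SCell (medSq hX) j} (hy' : cell y = cell y0) : ori y * f y = ori y0 * f y0 :=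
  ori_mul_const (M := ℤ) y0 hgl (fun π y h => by rw [hpm π y h, smul_eq_mul]) hy'

end cell
end cub

end Cm
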