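import Pool.Agent.Cm.Cof

/-!
# Mirror inequality: the dimension of the mirrored chains is at most the dimension of the glued chains

* `X.Mt t`, `X.Gt t` : the mirror move and the glue move of the letter `t`, for the cells with the letter `t`;
* `X.MU U`, `X.GU U` : the moves of all letters of `U`;
* `vd_m_le_vd_g` : the inequality, if the flips commute.
-/

set_option autoImplicit false
set_option linter.unusedSectionVars false
set_option linter.unusedVariables false

open scoped ComplexConjugate InnerProductSpace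
open Filter Topology

namespace Cm

open Singer
open Npc (Cof Orb vd St av_comm pr pr_mem pr_inner dl dl_apply_self dl_apply_ne inner_dl_left inner_dl_right re_inner_pr
  pr_eq_of_mem)

variable {H G : Type*} [Group G] [MulAction G H] {S : Hyp H G}

section par

open Classical in
/-- the parity of the number of letters `t` -/
noncomputable def par (C : SimpleGraph H) (t : H) : RACG C →* Multiplicative (ZMod 2) :=
  Racg.lift (fun v => if v = t then Multiplicative.ofAdd 1 else 1) (fun v => by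
    split_ifs
    · rfl
    · rfl) fun u v _ => mul_comm _ _

lemma par_gen_self (C : SimpleGraph H) (t : H) : par C t (Racg.gen C t) = Multiplicative.ofAdd 1 := by
  classical
  unfold par
  rw [Racg.lift_gen, if_pos rfl]

lemma par_gen_ne (C : SimpleGraph H) {t u : H} (h : u ≠ t) : par C t (Racg.gen C u) = 1 := by
  classical
  unfold par
  rw [Racg.lift_gen, if_neg h]

end par

namespace TSet
variable {A : Type*} [MulAction G A] {X : TSet H G A} {F : Type*} [AddCommGroup F]

/-! ### the moves of a letter -/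

section moves
variable (X)

open Classical in
/-- the mirror move of the letter `t` -/
noncomputable def Mt (t : H) (y : Cell S F A) : Cell S F A := if t ∈ X.T y.r then ⟨y.n * sW t, y.r⟩ else y

open Classical in
/-- the glue move of the letter `t` -/
noncomputable def Gt (t : H) (y : Cell S F A) : Cell S F A := if t ∈ X.T y.r then ⟨y.n * sW t, X.mv t y.r⟩ else y

variable {X}

lemma Mt_pos {t : H} {y : Cell S F A} (h : t ∈ X.T y.r) : X.Mt t y = ⟨y.n * sW t, y.r⟩ := if_pos h
lemma Mt_neg {t : H} {y : Cell S F A} (h : t ∉ X.T y.r) : X.Mt t y = y := if_neg h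
lemma Gt_pos {t : H} {y : Cell S F A} (h : t ∈ X.T y.r) : X.Gt t y = ⟨y.n * sW t, X.mv t y.r⟩ := if_pos h
lemma Gt_neg {t : H} {y : Cell S F A} (h : t ∉ X.T y.r) : X.Gt t y = y := if_neg h

lemma Mt_r (t : H) (y : Cell S F A) : (X.Mt t y).r = y.r := by
  by_cases h : t ∈ X.T y.r
  · rw [Mt_pos h]
  · rw [Mt_neg h]

lemma T_Gt (t : H) (y : Cell S F A) : X.T (X.Gt t y).r = X.T y.r := by
  by_cases h : t ∈ X.T y.r
  · rw [Gt_pos h]
    exact X.T_mv _ _ h
  · rw [Gt_neg h]

lemma Gt_Gt (t : H) (y : Cell S F A) : X.Gt t (X.Gt t y) = y := by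
  by_cases h : t ∈ X.T y.r
  · have h1 : t ∈ X.T (X.Gt t y).r := by
      rw [T_Gt]
      exact h
    rw [Gt_pos h1]
    refine Cell.ext ?_ ?_
    · show (X.Gt t y).n * sW t = y.n
      rw [Gt_pos h]
      show y.n * sW t * sW t = y.n
      rw [mul_assoc, sW_sW, mul_one]
    · show X.mv t (X.Gt t y).r = y.r
      rw [Gt_pos h]
      exact X.mv_mv _ _ h
  · rw [Gt_neg h, Gt_neg h]

variable (hadj : ∀ a, ∀ t ∈ X.T a, ∀ u ∈ X.T a, t ≠ u → S.C.Adj t u)
include hadj

lemma sW_comm_of {a : A} {t u : H} (ht : t ∈ X.T a) (hu : u ∈ X.T a) : (sW t : NN S F) * sW u = sW u * sW t := by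
  by_cases h : t = u
  · rw [h]
  · exact sW_comm (hadj a t ht u hu h)

lemma Mt_Mt (t u : H) (y : Cell S F A) : X.Mt t (X.Mt u y) = X.Mt u (X.Mt t y) := by
  by_cases ht : t ∈ X.T y.r
  · have ht' : t ∈ X.T (X.Mt u y).r := by rwa [Mt_r]
    by_cases hu : u ∈ X.T y.r
    · have hu' : u ∈ X.T (X.Mt t y).r := by rwa [Mt_r]
      rw [Mt_pos ht', Mt_pos hu']
      refine Cell.ext ?_ ?_
      · show (X.Mt u y).n * sW t = (X.Mt t y).n * sW u
        rw [Mt_pos ht, Mt_pos hu]
        show y.n * sW u * sW t = y.n * sW t * sW u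
        rw [mul_assoc, mul_assoc, sW_comm_of hadj hu ht]
      · show (X.Mt u y).r = (X.Mt t y).r
        rw [Mt_r, Mt_r]
    · have hu' : u ∉ X.T (X.Mt t y).r := by rwa [Mt_r]
      rw [Mt_neg hu', Mt_neg hu]
  · have ht' : t ∉ X.T (X.Mt u y).r := by rwa [Mt_r]
    rw [Mt_neg ht', Mt_neg ht]

variable (hmv : ∀ a, ∀ t ∈ X.T a, ∀ u ∈ X.T a, X.mv t (X.mv u a) = X.mv u (X.mv t a))
include hmv

lemma Gt_comm (t u : H) (y : Cell S F A) : X.Gt t (X.Gt u y) = X.Gt u (X.Gt t y) := by
  by_cases ht : t ∈ X.T y.r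
  · have ht' : t ∈ X.T (X.Gt u y).r := by rwa [T_Gt]
    by_cases hu : u ∈ X.T y.r
    · have hu' : u ∈ X.T (X.Gt t y).r := by rwa [T_Gt]
      rw [Gt_pos ht', Gt_pos hu']
      refine Cell.ext ?_ ?_
      · show (X.Gt u y).n * sW t = (X.Gt t y).n * sW u
        rw [Gt_pos ht, Gt_pos hu]
        show y.n * sW u * sW t = y.n * sW t * sW u
        rw [mul_assoc, mul_assoc, sW_comm_of hadj hu ht]
      · show X.mv t (X.Gt u y).r = X.mv u (X.Gt t y).r
        rw [Gt_pos ht, Gt_pos hu]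
        exact hmv _ _ ht _ hu
    · have hu' : u ∉ X.T (X.Gt t y).r := by rwa [T_Gt]
      rw [Gt_neg hu', Gt_neg hu]
  · have ht' : t ∉ X.T (X.Gt u y).r := by rwa [T_Gt]
    rw [Gt_neg ht', Gt_neg ht]

end moves

/-! ### membership -/

section mem
variable [Fintype F]

lemma mem_g {f : L2 (Cell S F A)} (hf : f ∈ X.Ch S F fun _ => St.g) (t : H) (y : Cell S F A) : f (X.Gt t y) = f y := by
  by_cases h : t ∈ X.T y.r
  · have h1 := mem_Ch.1 hf
    have h2 : Gl S F X.L (X.hat S F f) = X.hat S F f := by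
      have h3 : ∀ ψ, Gl S F X.L (Ep S F X.L ψ (X.hat S F f)) = Ep S F X.L ψ (X.hat S F f) := fun ψ => by
        have h4 := h1 ψ
        rw [rl_g, sub_eq_zero] at h4
        exact h4.symm
      have h5 := sum_Ep X.L (X.hat S F f)
      calc Gl S F X.L (X.hat S F f) = Gl S F X.L (∑ ψ, Ep S F X.L ψ (X.hat S F f)) := by rw [h5]
        _ = ∑ ψ, Ep S F X.L ψ (X.hat S F f) := by
          rw [map_sum]
          exact Finset.sum_congr rfl fun ψ _ => h3 ψ
        _ = X.hat S F f := h5
    have h6 := congrArg (fun v : L2 (Cell S F X.Mk) => v ⟨y.n, ⟨(y.r, t), h⟩⟩) h2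
    rw [Gt_pos h]
    exact h6
  · rw [Gt_neg h]

lemma mem_m {f : L2 (Cell S F A)} (hf : f ∈ X.Ch S F fun _ => St.m) {t : H} {y : Cell S F A} (h : t ∈ X.T y.r) :
    f (X.Mt t y) = -f y := by
  have h1 := mem_Ch.1 hf
  have h2 : Mi S F X.L (X.hat S F f) = -X.hat S F f := by
    have h3 : ∀ ψ, Mi S F X.L (Ep S F X.L ψ (X.hat S F f)) = -Ep S F X.L ψ (X.hat S F f) := fun ψ => by
      have h4 := h1 ψ
      rw [rl_m, add_comm, add_eq_zero_iff_eq_neg] at h4
      exact h4
    have h5 := sum_Ep X.L (X.hat S F f)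
    calc Mi S F X.L (X.hat S F f) = Mi S F X.L (∑ ψ, Ep S F X.L ψ (X.hat S F f)) := by rw [h5]
      _ = -∑ ψ, Ep S F X.L ψ (X.hat S F f) := by
        rw [map_sum, ← Finset.sum_neg_distrib]
        exact Finset.sum_congr rfl fun ψ _ => h3 ψ
      _ = -X.hat S F f := by rw [h5]
  have h6 := congrArg (fun v : L2 (Cell S F X.Mk) => v ⟨y.n, ⟨(y.r, t), h⟩⟩) h2
  rw [Mt_pos h]
  exact h6

lemma mem_g_of {f : L2 (Cell S F A)} (hf : ∀ (t : H) (y : Cell S F A), f (X.Gt t y) = f y) :
    f ∈ X.Ch S F fun _ => St.g := by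
  rw [mem_Ch]
  intro ψ
  rw [rl_g, sub_eq_zero]
  have h1 : Gl S F X.L (X.hat S F f) = X.hat S F f := by
    ext z
    rw [Gl_apply, hat_apply, hat_apply]
    have h2 := hf z.r.1.2 ⟨z.n, z.r.1.1⟩
    rw [Gt_pos z.r.2] at h2
    exact h2
  have h3 : Gl S F X.L (Ep S F X.L ψ (X.hat S F f)) = Ep S F X.L ψ (Gl S F X.L (X.hat S F f)) :=
    av_comm (fun x g => (Tl_Gl X.L x g).symm) ψ _
  rw [h3, h1]

end mem

/-! ### the moves of a set of letters -/

section sets
variable [Fintype F] (X)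

variable (hadj : ∀ a, ∀ t ∈ X.T a, ∀ u ∈ X.T a, t ≠ u → S.C.Adj t u)
include hadj

open Classical in
/-- the cells which are obtained by the mirror moves -/
theorem exists_MU (y : Cell S F A) : ∃ M : Finset H → Cell S F A, (∀ U, (M U).r = y.r) ∧
    (∀ U ⊆ X.T y.r, ∀ t, par S.C t (pw (M U).n) = par S.C t (pw y.n) * if t ∈ U then Multiplicative.ofAdd 1 else 1) ∧
    ∀ U ⊆ X.T y.r, ∀ f ∈ X.Ch S F (fun _ => St.m), ‖f (M U)‖ = ‖f y‖ := by
  classical
  have hlc : LeftCommutative fun (t : H) (z : Cell S F A) => X.Mt t z := ⟨fun t u z => Mt_Mt hadj t u z⟩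
  let M : Finset H → Cell S F A := fun U => U.val.foldr (fun t z => X.Mt t z) y
  have hM0 : M ∅ = y := Multiset.foldr_zero _ _
  have hMi : ∀ (t : H) (U : Finset H), t ∉ U → M (insert t U) = X.Mt t (M U) := by
    intro t U ht
    show (insert t U).val.foldr (fun t z => X.Mt t z) y = X.Mt t (U.val.foldr (fun t z => X.Mt t z) y)
    rw [Finset.insert_val_of_notMem ht, Multiset.foldr_cons]
  have hr : ∀ U, (M U).r = y.r := by
    intro U
    induction U using Finset.induction_on with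
    | empty => rw [hM0]
    | insert t U ht ih => rw [hMi t U ht, Mt_r, ih]
  refine ⟨M, hr, ?_, ?_⟩
  · intro U
    induction U using Finset.induction_on with
    | empty =>
      intro _ t
      rw [hM0, if_neg (Finset.notMem_empty t), mul_one]
    | insert u U hu ih =>
      intro hU t
      have h1 : u ∈ X.T (M U).r := by
        rw [hr]
        exact hU (Finset.mem_insert_self _ _)
      have h2 := ih (fun v hv => hU (Finset.mem_insert_of_mem hv)) t
      rw [hMi u U hu, Mt_pos h1]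
      show par S.C t (pw ((M U).n * sW u)) = _
      rw [pw_mul, map_mul, h2, pw_sW]
      by_cases h3 : u = t
      · subst h3
        rw [par_gen_self, if_neg hu, if_pos (Finset.mem_insert_self _ _), mul_one]
      · rw [par_gen_ne _ h3, mul_one]
        by_cases h4 : t ∈ U
        · rw [if_pos h4, if_pos (Finset.mem_insert_of_mem h4)]
        · rw [if_neg h4, if_neg]
          rw [Finset.mem_insert]
          rintro (h5 | h5)
          · exact h3 h5.symm
          · exact h4 h5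
  · intro U
    induction U using Finset.induction_on with
    | empty =>
      intro _ f _
      rw [hM0]
    | insert u U hu ih =>
      intro hU f hf
      have h1 : u ∈ X.T (M U).r := by
        rw [hr]
        exact hU (Finset.mem_insert_self _ _)
      rw [hMi u U hu, mem_m hf h1, norm_neg]
      exact ih (fun v hv => hU (Finset.mem_insert_of_mem hv)) f hf

/-- the upper bound for the mirrored chains -/
theorem norm_pr_m_le [Cof G A] (y : Cell S F A) :
    ‖pr (X.Ch S F fun _ => St.m) (dl y)‖ ^ 2 * 2 ^ (X.T y.r).card ≤ 1 := by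
  classical
  obtain ⟨M, hr, hp, hf⟩ := exists_MU X hadj y
  obtain ⟨V, hV⟩ : ∃ V, V = X.Ch S F fun _ => St.m := ⟨_, rfl⟩
  obtain ⟨p, hpr⟩ : ∃ p, p = pr V (dl y) := ⟨_, rfl⟩
  rw [← hV, ← hpr]
  have hVc : IsClosed (V : Set (L2 (Cell S F A))) := by
    rw [hV]
    exact mdl_Ch.cl
  have hpV : p ∈ V := by
    rw [hpr]
    exact pr_mem hVc _
  have hinj : Set.InjOn M (X.T y.r).powerset := by
    intro U hU U' hU' h
    have hU1 := Finset.mem_powerset.1 (Finset.mem_coe.1 hU)
    have hU2 := Finset.mem_powerset.1 (Finset.mem_coe.1 hU')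
    have hone : (Multiplicative.ofAdd (1 : ZMod 2)) ≠ 1 := by decide
    ext t
    have h1 := hp U hU1 t
    rw [h, hp U' hU2 t, mul_right_inj] at h1
    by_cases h2 : t ∈ U
    · rw [if_pos h2] at h1
      by_cases h3 : t ∈ U'
      · exact ⟨fun _ => h3, fun _ => h2⟩
      · rw [if_neg h3] at h1
        exact absurd h1.symm hone
    · rw [if_neg h2] at h1
      by_cases h3 : t ∈ U'
      · rw [if_pos h3] at h1
        exact absurd h1 hone
      · exact ⟨fun h4 => absurd h4 h2, fun h4 => absurd h4 h3⟩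
  -- the values of `p` on the cells
  have h1 : (2 : ℝ) ^ (X.T y.r).card * ‖p y‖ ^ 2 ≤ ‖p‖ ^ 2 := by
    have h2 : ∑ z ∈ (X.T y.r).powerset.image M, ‖p z‖ ^ 2 ≤ ‖p‖ ^ 2 := by
      have h3 := (Singer.summable_sq p).sum_le_tsum ((X.T y.r).powerset.image M) fun _ _ => by positivity
      rwa [← Singer.norm_sq_eq] at h3
    refine le_trans (le_of_eq ?_) h2
    rw [Finset.sum_image hinj]
    have h4 : ∀ U ∈ (X.T y.r).powerset, ‖p (M U)‖ ^ 2 = ‖p y‖ ^ 2 := fun U hU => by
      rw [hf U (Finset.mem_powerset.1 hU) p (hV ▸ hpV)]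
    rw [Finset.sum_congr rfl h4, Finset.sum_const, Finset.card_powerset, nsmul_eq_mul]
    push_cast
    ring
  have h2 : ‖p‖ ^ 2 ≤ ‖p y‖ := by
    rw [hpr, re_inner_pr, ← hpr, inner_dl_right]
    exact (Complex.re_le_norm _).trans (le_of_eq (RCLike.norm_conj _))
  rcases eq_or_lt_of_le (norm_nonneg (p y)) with h3 | h3
  · rw [← h3] at h2
    have h4 : ‖p‖ ^ 2 = 0 := le_antisymm h2 (by positivity)
    rw [h4, zero_mul]
    exact zero_le_one
  · have h4 : (0 : ℝ) < 2 ^ (X.T y.r).card := by positivity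
    have h5 : (2 : ℝ) ^ (X.T y.r).card * ‖p y‖ ≤ 1 := by
      have h6 : (2 : ℝ) ^ (X.T y.r).card * ‖p y‖ * ‖p y‖ ≤ 1 * ‖p y‖ := by
        calc (2 : ℝ) ^ (X.T y.r).card * ‖p y‖ * ‖p y‖ = (2 : ℝ) ^ (X.T y.r).card * ‖p y‖ ^ 2 := by ring
          _ ≤ ‖p‖ ^ 2 := h1
          _ ≤ ‖p y‖ := h2
          _ = 1 * ‖p y‖ := (one_mul _).symm
      exact le_of_mul_le_mul_right h6 h3
    calc ‖p‖ ^ 2 * 2 ^ (X.T y.r).card ≤ ‖p y‖ * 2 ^ (X.T y.r).card := mul_le_mul_of_nonneg_right h2 h4.le
      _ = 2 ^ (X.T y.r).card * ‖p y‖ := mul_comm _ _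
      _ ≤ 1 := h5

variable (hmv : ∀ a, ∀ t ∈ X.T a, ∀ u ∈ X.T a, X.mv t (X.mv u a) = X.mv u (X.mv t a))
include hmv

/-- a finite set of cells which is closed under the glue moves -/
theorem exists_GU (y : Cell S F A) : ∃ C : Finset (Cell S F A), y ∈ C ∧ C.card ≤ 2 ^ (X.T y.r).card ∧
    ∀ (t : H) (z : Cell S F A), X.Gt t z ∈ C ↔ z ∈ C := by
  classical
  have hlc : LeftCommutative fun (t : H) (z : Cell S F A) => X.Gt t z := ⟨fun t u z => Gt_comm hadj hmv t u z⟩
  let M : Finset H → Cell S F A := fun U => U.val.foldr (fun t z => X.Gt t z) y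
  have hM0 : M ∅ = y := Multiset.foldr_zero _ _
  have hMi : ∀ (t : H) (U : Finset H), t ∉ U → M (insert t U) = X.Gt t (M U) := by
    intro t U ht
    show (insert t U).val.foldr (fun t z => X.Gt t z) y = X.Gt t (U.val.foldr (fun t z => X.Gt t z) y)
    rw [Finset.insert_val_of_notMem ht, Multiset.foldr_cons]
  have hT : ∀ U, X.T (M U).r = X.T y.r := by
    intro U
    induction U using Finset.induction_on with
    | empty => rw [hM0]
    | insert t U ht ih => rw [hMi t U ht, T_Gt, ih]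
  have key : ∀ (t : H) (z : Cell S F A), z ∈ (X.T y.r).powerset.image M → X.Gt t z ∈ (X.T y.r).powerset.image M := by
    intro t z hz
    obtain ⟨U, hU, rfl⟩ := Finset.mem_image.1 hz
    by_cases h1 : t ∈ X.T y.r
    · by_cases h2 : t ∈ U
      · refine Finset.mem_image.2 ⟨U.erase t, Finset.mem_powerset.2 ((Finset.erase_subset _ _).trans
          (Finset.mem_powerset.1 hU)), ?_⟩
        have h3 := hMi t (U.erase t) (Finset.notMem_erase _ _)
        rw [Finset.insert_erase h2] at h3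
        rw [h3, Gt_Gt]
      · exact Finset.mem_image.2 ⟨insert t U, Finset.mem_powerset.2 (Finset.insert_subset h1
          (Finset.mem_powerset.1 hU)), hMi t U h2⟩
    · rw [Gt_neg (by rwa [hT])]
      exact hz
  refine ⟨(X.T y.r).powerset.image M, Finset.mem_image.2 ⟨∅, Finset.empty_mem_powerset _, hM0⟩, ?_, fun t z =>
    ⟨fun h => ?_, key t z⟩⟩
  · exact Finset.card_image_le.trans (le_of_eq (Finset.card_powerset _))
  · have h1 := key t _ h
    rwa [Gt_Gt] at h1

/-- the lower bound for the glued chains -/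
theorem le_norm_pr_g [Cof G A] (y : Cell S F A) :
    1 ≤ ‖pr (X.Ch S F fun _ => St.g) (dl y)‖ ^ 2 * 2 ^ (X.T y.r).card := by
  classical
  obtain ⟨C, hy, hC, hG⟩ := exists_GU X hadj hmv y
  obtain ⟨V, hV⟩ : ∃ V, V = X.Ch S F fun _ => St.g := ⟨_, rfl⟩
  rw [← hV]
  obtain ⟨v, hv⟩ : ∃ v : L2 (Cell S F A), v = ∑ z ∈ C, dl z := ⟨_, rfl⟩
  have hva : ∀ w, v w = if w ∈ C then 1 else 0 := by
    intro w
    rw [hv, lp.coeFn_sum, Finset.sum_apply]
    by_cases hw : w ∈ C
    · rw [if_pos hw, Finset.sum_eq_single w]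
      · exact dl_apply_self w
      · intro z _ hz
        exact dl_apply_ne (Ne.symm hz)
      · intro h
        exact absurd hw h
    · rw [if_neg hw]
      refine Finset.sum_eq_zero fun z hz => dl_apply_ne ?_
      rintro rfl
      exact hw hz
  have hvV : v ∈ V := by
    rw [hV]
    refine mem_g_of fun t z => ?_
    rw [hva, hva]
    simp only [hG]
  have hnv : ‖v‖ ^ 2 = C.card := by
    have h1 : ⟪v, v⟫_ℂ = C.card := by
      conv_lhs => rw [hv, sum_inner]
      rw [← hv]
      have h2 : ∀ z ∈ C, ⟪dl z, v⟫_ℂ = 1 := fun z hz => by rw [inner_dl_left, hva, if_pos hz]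
      rw [Finset.sum_congr rfl h2, Finset.sum_const, nsmul_eq_mul, mul_one]
    rw [inner_self_eq_norm_sq_to_K (𝕜 := ℂ)] at h1
    apply Complex.ofReal_injective
    rw [Complex.ofReal_pow, Complex.ofReal_natCast]
    exact h1
  have h1 : (1 : ℝ) ≤ ‖pr V (dl y)‖ * ‖v‖ := by
    have h2 : ⟪pr V (dl y), v⟫_ℂ = 1 := by
      rw [pr_inner, pr_eq_of_mem (V.le_topologicalClosure hvV), inner_dl_left, hva, if_pos hy]
    have h3 := norm_inner_le_norm (𝕜 := ℂ) (pr V (dl y)) v
    rwa [h2, norm_one] at h3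
  have h2 : (1 : ℝ) ≤ ‖pr V (dl y)‖ ^ 2 * ‖v‖ ^ 2 := by
    rw [← mul_pow]
    exact one_le_pow₀ h1
  refine h2.trans ?_
  rw [hnv]
  refine mul_le_mul_of_nonneg_left ?_ (by positivity)
  exact_mod_cast hC

/-- **the inequality** -/
theorem vd_m_le_vd_g [Cof G A] :
    vd (Gh S F) (X.Ch S F fun _ => St.m) ≤ vd (Gh S F) (X.Ch S F fun _ => St.g) := by
  unfold vd
  refine Finset.sum_le_sum fun q _ => ?_
  have h1 := norm_pr_m_le (S := S) (F := F) X hadj q.out
  have h2 := le_norm_pr_g (S := S) (F := F) X hadj hmv q.out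
  have h3 : (0 : ℝ) < 2 ^ (X.T q.out.r).card := by positivity
  exact le_of_mul_le_mul_right (h1.trans h2) h3

end sets

end TSet

namespace ES
variable {P : Type*} {E : ℕ → Type*} [MulAction G P] [∀ j, MulAction G (E j)] (X : ES S P E) [∀ j, Cof G (E j)]
variable (F : Type*) [AddCommGroup F] [Fintype F]

/-- the dimension of the mirrored chains is at most the dimension of the glued chains -/
theorem vd_Ch_m_le (hc : ∀ {j} (e : E j) t u k, t ∈ X.T e → u ∈ X.T e → k ∈ X.V e →
    X.fl t (X.fl u k) = X.fl u (X.fl t k)) (j : ℕ) :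
    vd (Gh S F) ((X.ts j).Ch S F mir) ≤ vd (Gh S F) ((X.ts j).Ch S F glu) := by
  refine TSet.vd_m_le_vd_g (X.ts j) (fun a t ht u hu h => X.T_adj a.e t u ht hu h) fun a t ht u hu => ?_
  have ht' : t ∈ X.T a.e := ht
  have hu' : u ∈ X.T a.e := hu
  rw [X.ts_mv hu', X.ts_mv ht', X.ts_mv (by exact ht'), X.ts_mv (by exact hu')]
  exact Cn.ext (hc a.e t u a.k ht' hu' a.h) rfl

end ES

end Cm
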