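import Pool.Agent.Cm.Mem
import Pool.Agent.Npc.Loc

/-!
# Mirror inequality: all labels glued

The glued chains of the corners are induced from the chains of the cell system: `vd_Ch_g`, `vd_Cyc_g`.
-/

set_option autoImplicit false
set_option linter.unusedSectionVars false
set_option linter.unusedVariables false

open scoped ComplexConjugate InnerProductSpace
open Filter Topology

namespace Cm

open Singer
open Npc (Cof St vd Orb Inv Mdl vd_eq_loc plf plf_apply Fibre mdl_ker Equi)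

variable {H G : Type*} [Group G] [MulAction G H]

/-- an element of the Coxeter group, with trivial labels -/
def nW (S : Hyp H G) (F : Type*) [AddCommGroup F] (x : RACG S.C) : NN S F :=
  ((x, 1) : RACG S.C × Multiplicative (H → F))

section nw
variable {S : Hyp H G} {F : Type*} [AddCommGroup F]

@[simp] lemma pw_nW (x : RACG S.C) : pw (nW S F x) = x := rfl
@[simp] lemma ch_nW (x : RACG S.C) (t : H) : ch (nW S F x) t = 0 := rfl

lemma nW_mul_sW (x : RACG S.C) (t : H) : nW S F x * sW t = nW S F (x * Racg.gen S.C t) :=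
  nn_ext rfl fun u => by rw [ch_mul, ch_nW, ch_nW, ch_sW, add_zero]

end nw

namespace ES
variable {S : Hyp H G} {P : Type*} {E : ℕ → Type*} [MulAction G P] [∀ j, MulAction G (E j)] (X : ES S P E)
variable {F : Type*} [AddCommGroup F]

/-! ### functions on the corners which do not depend on the vertex -/

lemma fib_e (j : ℕ) : Fibre (fun c : X.Cn j => c.e) X.bd := by
  have h1 : ∀ e : E j, Set.InjOn (fun c : X.Cn j => c.k) {c | c.e = e} := by
    rintro e c hc c' hc' h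
    exact Cn.ext h ((show c.e = e from hc).trans (show c'.e = e from hc').symm)
  have h2 : ∀ e : E j, Set.MapsTo (fun c : X.Cn j => c.k) {c | c.e = e} (X.V e : Set P) := by
    rintro e c rfl
    exact c.h
  refine ⟨fun e => Set.Finite.of_injOn (h2 e) (h1 e) (Finset.finite_toSet _), fun e => ?_⟩
  calc {c : X.Cn j | c.e = e}.ncard ≤ (X.V e : Set P).ncard :=
        Set.ncard_le_ncard_of_injOn _ (h2 e) (h1 e) (Finset.finite_toSet _)
    _ = (X.V e).card := Set.ncard_coe_finset _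
    _ ≤ X.bd := X.card_V _

/-- a function of the cells as a function of the corners -/
noncomputable def pe (j : ℕ) : L2 (E j) →L[ℂ] L2 (X.Cn j) := plf (X.fib_e j)

lemma pe_apply {j : ℕ} (f : L2 (E j)) (c : X.Cn j) : X.pe j f c = f c.e := rfl

/-- a corner of a cell -/
noncomputable def sc {j : ℕ} (e : E j) : X.Cn j := ⟨(X.V_ne e).choose, e, (X.V_ne e).choose_spec⟩

lemma sc_inj {j : ℕ} : Function.Injective (X.sc : E j → X.Cn j) := fun e e' h => congrArg Cn.e h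

lemma equi_pe (j : ℕ) : Equi G (X.pe j) := equi_plf _ fun g c => rfl

lemma pe_inj {j : ℕ} {f : L2 (E j)} (h : X.pe j f = 0) : f = 0 := by
  ext e
  exact congrArg (fun u : L2 (X.Cn j) => u (X.sc e)) h

/-- functions which do not depend on the vertex -/
lemma eq_pe {j : ℕ} {f : L2 (X.Cn j)} (h : ∀ c c' : X.Cn j, c.e = c'.e → f c = f c') :
    X.pe j (pull X.sc X.sc_inj f) = f := by
  ext c
  rw [pe_apply, pull_apply]
  exact h _ _ rfl

/-- the boundary operator -/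
lemma op_pe {j : ℕ} (f : L2 (E (j + 1))) : (X.kn j).op (X.pe (j + 1) f) = X.pe j ((X.kE j).op f) := by
  ext c
  rw [pe_apply, Kern.op_apply, Kern.op_apply]
  refine Finset.sum_bij' (fun (a : X.Cn (j + 1)) _ => a.e)
    (fun e he => (⟨c.k, e, X.inc_V e c.e ((X.kE j).mem_cl.1 he) c.h⟩ : X.Cn (j + 1))) ?_ ?_ ?_ ?_ ?_
  · intro a ha
    exact (X.kE j).mem_cl.2 (X.ci_ne ((X.kn j).mem_cl.1 ha)).2
  · intro e he
    refine (X.kn j).mem_cl.2 ?_
    have h1 : X.inc e c.e ≠ 0 := (X.kE j).mem_cl.1 he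
    show X.ci _ _ ≠ 0
    unfold ci
    rw [if_pos rfl]
    exact h1
  · intro a ha
    exact Cn.ext (X.ci_ne ((X.kn j).mem_cl.1 ha)).1.symm rfl
  · intro e he
    rfl
  · intro a ha
    have h1 : X.ci a c = X.inc a.e c.e := if_pos (X.ci_ne ((X.kn j).mem_cl.1 ha)).1
    show (X.ci a c : ℂ) * f a.e = (X.inc a.e c.e : ℂ) * f a.e
    rw [h1]

/-! ### the section -/

/-- the section given by a word map -/
def eG (F : Type*) [AddCommGroup F] (w : P → RACG S.C) {j : ℕ} (c : X.Cn j) : Cell S F (X.Cn j) :=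
  ⟨nW S F (w c.k), c⟩

variable {w : P → RACG S.C}

lemma eG_inj {j : ℕ} : Function.Injective (X.eG F w : X.Cn j → Cell S F (X.Cn j)) := fun _ _ h => congrArg Cell.r h

lemma mem_eG {j : ℕ} {y : Cell S F (X.Cn j)} :
    y ∈ Set.range (X.eG F w : X.Cn j → Cell S F (X.Cn j)) ↔ y.n = nW S F (w y.r.k) := by
  constructor
  · rintro ⟨c, rfl⟩
    rfl
  · intro h
    exact ⟨y.r, Cell.ext h.symm rfl⟩

lemma pull_DG {j : ℕ} (f : L2 (Cell S F (X.Cn (j + 1)))) :
    pull (X.eG F w) X.eG_inj ((X.kn j).D S F f) = (X.kn j).op (pull (X.eG F w) X.eG_inj f) := by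
  ext c
  rw [pull_apply, Kern.D_apply, Kern.op_apply]
  refine Finset.sum_congr rfl fun a ha => ?_
  rw [pull_apply]
  have h1 : a.k = c.k := (X.ci_ne ((X.kn j).mem_cl.1 ha)).1
  have h2 : (⟨(X.eG F w c).n, a⟩ : Cell S F (X.Cn (j + 1))) = X.eG F w a := by
    refine Cell.ext ?_ rfl
    show nW S F (w c.k) = nW S F (w a.k)
    rw [h1]
  rw [h2]
  rfl

lemma pull_push {j : ℕ} (f : L2 (X.Cn j)) : pull (X.eG F w) X.eG_inj (push (X.eG F w) X.eG_inj f) = f := by
  ext c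
  rw [pull_apply, push_apply]

lemma push_DG {j : ℕ} (f : L2 (X.Cn (j + 1))) :
    (X.kn j).D S F (push (X.eG F w) X.eG_inj f) = push (X.eG F w) X.eG_inj ((X.kn j).op f) := by
  ext y
  by_cases h : y ∈ Set.range (X.eG F w : X.Cn j → Cell S F (X.Cn j))
  · obtain ⟨c, rfl⟩ := h
    rw [push_apply]
    have h1 := congrArg (fun u : L2 (X.Cn j) => u c) (X.pull_DG (F := F) (w := w) (push (X.eG F w) X.eG_inj f))
    rw [pull_push] at h1
    exact h1
  · rw [push_apply_of_notMem _ _ _ h, Kern.D_apply]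
    refine Finset.sum_eq_zero fun a ha => ?_
    have h1 : a.k = y.r.k := (X.ci_ne ((X.kn j).mem_cl.1 ha)).1
    have h2 : ¬ (⟨y.n, a⟩ : Cell S F (X.Cn (j + 1))) ∈ Set.range (X.eG F w : X.Cn (j + 1) → _) := by
      intro h3
      refine h (X.mem_eG.2 ?_)
      have h4 : y.n = nW S F (w a.k) := X.mem_eG.1 h3
      rw [h4, h1]
    rw [push_apply_of_notMem _ _ _ h2, mul_zero]

section ch
variable [Fintype F] (hw : ∀ {j} (e : E j) t k, t ∈ X.T e → k ∈ X.V e → w (X.fl t k) = w k * Racg.gen S.C t)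

include hw in
/-- glued chains on the section do not depend on the vertex -/
theorem glued_const {j : ℕ} {f : L2 (Cell S F (X.Cn j))} (hf : f ∈ (X.ts j).Ch S F glu) (c c' : X.Cn j)
    (h : c.e = c'.e) : pull (X.eG F w) X.eG_inj f c = pull (X.eG F w) X.eG_inj f c' := by
  have h0 := TSet.mem_Ch_g.1 hf
  obtain ⟨k, e, hk⟩ := c
  obtain ⟨k', e', hk'⟩ := c'
  obtain rfl : e = e' := h
  have h1 := X.tr e k k' hk hk'
  have key : ∀ k', Relation.ReflTransGen (fun a b => ∃ t ∈ X.T e, b = X.fl t a) k k' → ∀ hk' : k' ∈ X.V e,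
      pull (X.eG F w) X.eG_inj f (⟨k, e, hk⟩ : X.Cn j) = pull (X.eG F w) X.eG_inj f (⟨k', e, hk'⟩ : X.Cn j) := by
    intro k' hr
    induction hr with
    | refl => intro _; rfl
    | tail hab hbc ih =>
      rename_i a b
      obtain ⟨t, ht, rfl⟩ := hbc
      intro hb
      -- the vertices on the way
      have hV : ∀ a, Relation.ReflTransGen (fun a b => ∃ t ∈ X.T e, b = X.fl t a) k a → a ∈ X.V e := by
        intro a hr
        induction hr with
        | refl => exact hk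
        | tail _ hs ih' =>
          obtain ⟨u, hu, rfl⟩ := hs
          exact X.fl_V e u _ hu ih'
      have ha := hV a hab
      rw [ih ha, pull_apply, pull_apply]
      have h2 := h0 (nW S F (w a)) (⟨a, e, ha⟩ : X.Cn j) t ht
      have h3 : (X.ts j).mv t (⟨a, e, ha⟩ : X.Cn j) = ⟨X.fl t a, e, hb⟩ := X.ts_mv ht
      rw [h3, nW_mul_sW, ← hw e t a ht ha] at h2
      exact h2.symm
  exact key k' h1 hk'

include hw in
theorem push_glued {j : ℕ} (f : L2 (E j)) : push (X.eG F w) X.eG_inj (X.pe j f) ∈ (X.ts j).Ch S F glu := by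
  refine TSet.mem_Ch_g.2 fun n a t ht => ?_
  have ht' : t ∈ X.T a.e := ht
  have h3 : (X.ts j).mv t a = ⟨X.fl t a.k, a.e, X.fl_V _ _ _ ht' a.h⟩ := X.ts_mv ht'
  rw [h3]
  have hwa := hw a.e t a.k ht' a.h
  by_cases h : n = nW S F (w a.k)
  · have e1 : (⟨n, a⟩ : Cell S F (X.Cn j)) = X.eG F w a := Cell.ext h rfl
    have e2 : (⟨n * sW t, ⟨X.fl t a.k, a.e, X.fl_V _ _ _ ht' a.h⟩⟩ : Cell S F (X.Cn j)) =
        X.eG F w ⟨X.fl t a.k, a.e, X.fl_V _ _ _ ht' a.h⟩ := by
      refine Cell.ext ?_ rfl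
      show n * sW t = nW S F (w (X.fl t a.k))
      rw [h, nW_mul_sW, hwa]
    rw [e1, e2, push_apply, push_apply]
    rfl
  · have g1 : ¬ (⟨n, a⟩ : Cell S F (X.Cn j)) ∈ Set.range (X.eG F w : X.Cn j → _) := fun h' => h (X.mem_eG.1 h')
    have g2 : ¬ (⟨n * sW t, ⟨X.fl t a.k, a.e, X.fl_V _ _ _ ht' a.h⟩⟩ : Cell S F (X.Cn j)) ∈
        Set.range (X.eG F w : X.Cn j → _) := by
      intro h'
      refine h ?_
      have h4 : n * sW t = nW S F (w (X.fl t a.k)) := X.mem_eG.1 h'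
      rw [hwa, ← nW_mul_sW] at h4
      exact mul_right_cancel h4
    rw [push_apply_of_notMem _ _ _ g1, push_apply_of_notMem _ _ _ g2]

variable [∀ j, Cof G (E j)]

theorem vd_of_eG {j : ℕ} {V : Submodule ℂ (L2 (Cell S F (X.Cn j)))} (hV : Inv (Gh S F) V)
    (V' : Submodule ℂ (L2 (X.Cn j)))
    (h1 : ∀ f ∈ V', push (X.eG F w) X.eG_inj f ∈ V) (h2 : ∀ f ∈ V, pull (X.eG F w) X.eG_inj f ∈ V') :
    vd (Gh S F) V = vd G V' := by
  refine vd_eq_loc (X.eG F w) X.eG_inj hV V' h1 h2 ?_ ?_ ?_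
  · intro y
    refine ⟨y.r, ⟨y.n * (nW S F (w y.r.k))⁻¹, 1⟩, Cell.ext ?_ (one_smul _ _)⟩
    show y.n * (nW S F (w y.r.k))⁻¹ * (1 : G) • nW S F (w y.r.k) = y.n
    rw [one_smul, inv_mul_cancel_right]
  · intro c g
    refine ⟨⟨nW S F (w (g • c.k)) * (g • nW S F (w c.k))⁻¹, g⟩, Cell.ext ?_ rfl⟩
    show nW S F (w (g • c.k)) * (g • nW S F (w c.k))⁻¹ * g • nW S F (w c.k) = nW S F (w (g • c.k))
    rw [inv_mul_cancel_right]
  · intro c c' γ h
    exact ⟨γ.right, congrArg Cell.r h⟩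

variable (F) in
include hw in
/-- **the glued chains** -/
theorem vd_Ch_g (j : ℕ) : vd (Gh S F) ((X.ts j).Ch S F glu) = X.cE j := by
  rw [X.vd_of_eG (w := w) TSet.mdl_Ch.inv ((⊤ : Submodule ℂ (L2 (E j))).map (X.pe j : L2 (E j) →ₗ[ℂ] L2 (X.Cn j))) ?_ ?_]
  · exact Npc.vd_map_of_injective (X.equi_pe j) Npc.mdl_top fun f _ h => X.pe_inj h
  · rintro _ ⟨f, -, rfl⟩
    exact X.push_glued hw f
  · intro f hf
    exact ⟨_, trivial, X.eq_pe (X.glued_const hw hf)⟩

variable (F) in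
include hw in
/-- **the glued cycles** -/
theorem vd_Cyc_g (j : ℕ) : vd (Gh S F) ((X.ts (j + 1)).Cyc (X.kn j) S F glu) = X.zE j := by
  rw [X.vd_of_eG (w := w) TSet.mdl_Cyc.inv ((LinearMap.ker ((X.kE j).op : L2 (E (j + 1)) →ₗ[ℂ] L2 (E j))).map
    (X.pe (j + 1) : L2 (E (j + 1)) →ₗ[ℂ] L2 (X.Cn (j + 1)))) ?_ ?_]
  · exact Npc.vd_map_of_injective (X.equi_pe (j + 1)) (mdl_ker (X.kE j).equi_op) fun f _ h => X.pe_inj h
  · rintro _ ⟨f, hf, rfl⟩
    have h1 : (X.kE j).op f = 0 := hf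
    refine TSet.mem_Cyc.2 ⟨X.push_glued hw f, ?_⟩
    have h2 : (X.kn j).op (X.pe (j + 1) f) = 0 := by rw [op_pe, h1, map_zero]
    show (X.kn j).D S F (push (X.eG F w) X.eG_inj (X.pe (j + 1) f)) = 0
    rw [push_DG, h2, map_zero]
  · intro f hf
    obtain ⟨hf1, hf2⟩ := TSet.mem_Cyc.1 hf
    have h1 := X.eq_pe (X.glued_const hw hf1)
    refine ⟨_, ?_, h1⟩
    refine X.pe_inj ?_
    show X.pe j ((X.kE j).op (pull X.sc X.sc_inj (pull (X.eG F w) X.eG_inj f))) = 0
    rw [← op_pe, h1, ← pull_DG, hf2, map_zero]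

end ch

end ES

end Cm
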