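import Pool.Agent.Cm.Asm
import Pool.Agent.Npc.Loc

/-!
# Mirror inequality: all labels mirrored

The mirrored chains of the corners are induced from the mirrored chains at the vertices: `vd_Ch_m`, `vd_Cyc_m`.
-/

set_option autoImplicit false
set_option linter.unusedSectionVars false
set_option linter.unusedVariables false

open scoped ComplexConjugate InnerProductSpace
open Filter Topology

namespace Cm

open Singer
open Npc (Cof St vd Orb Inv Mdl vd_eq_sum_loc)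

variable {H G : Type*} [Group G] [MulAction G H]

/-- representatives of the orbits -/
theorem out_repr {P : Type*} [MulAction G P] (k : P) : ∃! q : Orb G P, ∃ g : G, g • q.out = k := by
  refine ⟨Quotient.mk'' k, ?_, ?_⟩
  · have h : MulAction.orbitRel G P (Quotient.out (Quotient.mk'' k : Orb G P)) k := Quotient.mk_out k
    obtain ⟨g, hg⟩ := h
    refine ⟨g⁻¹, ?_⟩
    have h1 : g • k = Quotient.out (Quotient.mk'' k : Orb G P) := hg
    rw [← h1, inv_smul_smul]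
  · rintro q ⟨g, hg⟩
    rw [← hg, ← Quotient.out_eq' q]
    refine Quotient.sound' ⟨g⁻¹, ?_⟩
    show g⁻¹ • g • (Quotient.out (Quotient.mk'' q.out : Orb G P)) = q.out
    rw [inv_smul_smul, Quotient.out_eq' q]

/-! ### mirrored chains -/
section mm
variable {S : Hyp H G} {A : Type*} [MulAction G A] {X : TSet H G A} {F : Type*} [AddCommGroup F] [Fintype F]

/-- the mirrored chains -/
theorem TSet.mem_Ch_mm {f : L2 (Cell S F A)} : f ∈ X.Ch S F (fun _ => St.m) ↔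
    ∀ (n : NN S F) (a : A) (t : H), t ∈ X.T a → f ⟨n * sW t, a⟩ = -f ⟨n, a⟩ := by
  rw [TSet.mem_Ch]
  have h1 : (∀ ψ, Rl S F X.L ψ St.m (X.hat S F f) = 0) ↔ X.hat S F f + Mi S F X.L (X.hat S F f) = 0 := by
    constructor
    · intro h
      have h2 : ∀ ψ, Ep S F X.L ψ (X.hat S F f) + Mi S F X.L (Ep S F X.L ψ (X.hat S F f)) = 0 := fun ψ => h ψ
      have h3 := Finset.sum_congr rfl fun (ψ : AddChar F ℂ) (_ : ψ ∈ Finset.univ) => h2 ψ
      rw [Finset.sum_add_distrib, ← map_sum, sum_Ep, Finset.sum_const_zero] at h3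
      exact h3
    · intro h ψ
      have h2 : (1 + Mi S F X.L) (X.hat S F f) = 0 := h
      have h3 : Ep S F X.L ψ ((1 + Mi S F X.L) (X.hat S F f)) = (1 + Mi S F X.L) (Ep S F X.L ψ (X.hat S F f)) := by
        show Ep S F X.L ψ (X.hat S F f + Mi S F X.L (X.hat S F f)) =
          Ep S F X.L ψ (X.hat S F f) + Mi S F X.L (Ep S F X.L ψ (X.hat S F f))
        rw [map_add]
        congr 1
        exact Npc.av_comm (fun x f => (Tl_Mi X.L x f).symm) ψ (X.hat S F f) |>.symm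
      show (1 + Mi S F X.L) (Ep S F X.L ψ (X.hat S F f)) = 0
      rw [← h3, h2, map_zero]
  show (∀ ψ, Rl S F X.L ψ St.m (X.hat S F f) = 0) ↔ _
  rw [h1]
  constructor
  · intro h n a t ht
    have h2 := congrArg (fun u : L2 (Cell S F X.Mk) => u ⟨n, ⟨(a, t), ht⟩⟩) h
    have h3 : f ⟨n, a⟩ + f ⟨n * sW t, a⟩ = 0 := h2
    exact eq_neg_of_add_eq_zero_right h3
  · intro h
    ext y
    have h2 := h y.n y.r.1.1 y.r.1.2 y.r.2
    show f ⟨y.n, y.r.1.1⟩ + f ⟨y.n * sW y.r.1.2, y.r.1.1⟩ = 0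
    rw [h2, add_neg_cancel]

end mm

namespace ES
variable {S : Hyp H G} {P : Type*} {E : ℕ → Type*} [MulAction G P] [∀ j, MulAction G (E j)] (X : ES S P E)
variable {F : Type*} [AddCommGroup F]

/-- the inclusion of the group of the link -/
noncomputable def lW (x : P) : RACG (X.Sx x).C →* RACG S.C := Racg.map Subtype.val fun _ _ h => h

lemma lW_inj (x : P) : Function.Injective (X.lW x) :=
  Racg.map_injective Subtype.val Subtype.val_injective fun _ _ => Iff.rfl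

lemma lW_gen (x : P) (t : X.dr x) : X.lW x (Racg.gen (X.Sx x).C t) = Racg.gen S.C t.1 := Racg.map_gen _ _ _

variable (F) in
/-- the inclusion of the group of the link, trivial labels -/
noncomputable def lN (x : P) (n : NN (X.Sx x) Unit) : NN S F :=
  ((X.lW x (pw n), 1) : RACG S.C × Multiplicative (H → F))

@[simp] lemma pw_lN (x : P) (n : NN (X.Sx x) Unit) : pw (X.lN F x n) = X.lW x (pw n) := rfl
@[simp] lemma ch_lN (x : P) (n : NN (X.Sx x) Unit) (t : H) : ch (X.lN F x n) t = 0 := rfl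

lemma lN_inj (x : P) : Function.Injective (X.lN F x) := fun n m h =>
  nn_ext (X.lW_inj x (congrArg pw h)) fun t => rfl

lemma lN_mul (x : P) (n m : NN (X.Sx x) Unit) : X.lN F x (n * m) = X.lN F x n * X.lN F x m :=
  nn_ext (by rw [pw_lN, pw_mul, map_mul, pw_mul, pw_lN, pw_lN]) fun t => by
    rw [ch_mul, ch_lN, ch_lN, ch_lN, add_zero]

lemma lN_one (x : P) : X.lN F x 1 = 1 := nn_ext (by rw [pw_lN, pw_one, map_one, pw_one]) fun t => rfl

lemma lN_inv (x : P) (n : NN (X.Sx x) Unit) : X.lN F x n⁻¹ = (X.lN F x n)⁻¹ :=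
  eq_inv_of_mul_eq_one_left (by rw [← lN_mul, inv_mul_cancel, lN_one])

lemma lN_sW (x : P) (t : X.dr x) : X.lN F x (sW t) = sW (t : H) :=
  nn_ext (by rw [pw_lN, pw_sW, lW_gen, pw_sW]) fun t => rfl

lemma lN_smul (x : P) (g : MulAction.stabilizer G x) (n : NN (X.Sx x) Unit) :
    X.lN F x (g • n) = (g : G) • X.lN F x n := by
  refine nn_ext ?_ fun u => ?_
  · rw [pw_lN, pw_smul, pw_smul, pw_lN]
    have h : (X.lW x).comp (Racg.map (G := (X.Sx x).C) (G' := (X.Sx x).C) (fun t => g • t)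
        (fun u v h => ((X.Sx x).adj g u v).2 h)) =
        (Racg.map (G := S.C) (G' := S.C) (fun t => (g : G) • t) (fun u v h => (S.adj (g : G) u v).2 h)).comp
          (X.lW x) := Racg.hom_ext fun v => by
      rw [MonoidHom.comp_apply, MonoidHom.comp_apply, Racg.map_gen, lW_gen, lW_gen, Racg.map_gen]
      rfl
    exact congrArg (fun φ => φ (pw n)) h
  · obtain ⟨v, rfl⟩ : ∃ v, u = (g : G) • v := ⟨(g : G)⁻¹ • u, (smul_inv_smul (g : G) u).symm⟩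
    rw [ch_smul]
    rfl

variable (F) in
/-- the cells at the vertex `x` -/
noncomputable def eM (x : P) {j : ℕ} (y : Cell (X.Sx x) Unit (X.Ex x j)) : Cell S F (X.Cn j) :=
  ⟨X.lN F x y.n, ⟨x, y.r.e, y.r.h⟩⟩

lemma eM_inj (x : P) {j : ℕ} :
    Function.Injective (X.eM F x : Cell (X.Sx x) Unit (X.Ex x j) → Cell S F (X.Cn j)) := fun y z h =>
  Cell.ext (X.lN_inj x (congrArg Cell.n h)) (Ex.ext (congrArg (fun c => (Cell.r c).e) h))

/-- flips of the group component do not change the image of `eM` -/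
lemma sW_range (x : P) {j : ℕ} {n : NN S F} {a : X.Cn j} {t : H} (ht : t ∈ X.T a.e)
    (h : (⟨n * sW t, a⟩ : Cell S F (X.Cn j)) ∈ Set.range (X.eM F x : Cell (X.Sx x) Unit (X.Ex x j) → _)) :
    (⟨n, a⟩ : Cell S F (X.Cn j)) ∈ Set.range (X.eM F x : Cell (X.Sx x) Unit (X.Ex x j) → _) := by
  obtain ⟨z, hz⟩ := h
  have h1 : X.lN F x z.n = n * sW t := congrArg Cell.n hz
  have h2 : (⟨x, z.r.e, z.r.h⟩ : X.Cn j) = a := congrArg Cell.r hz
  subst h2
  have h3 : t ∈ X.dr x := X.T_dr _ _ _ ht z.r.h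
  refine ⟨⟨z.n * sW ⟨t, h3⟩, z.r⟩, Cell.ext ?_ rfl⟩
  show X.lN F x (z.n * sW ⟨t, h3⟩) = n
  rw [lN_mul, h1, lN_sW, mul_assoc, sW_sW, mul_one]

section ch
variable [Fintype F] {j : ℕ}

theorem pull_Ch (x : P) {f : L2 (Cell S F (X.Cn j))} (hf : f ∈ (X.ts j).Ch S F mir) :
    pull (X.eM F x) (X.eM_inj x) f ∈ (X.tx x j).Ch (X.Sx x) Unit mir := by
  refine TSet.mem_Ch_mm.2 fun n a t ht => ?_
  have ht' : (t : H) ∈ X.T a.e := X.mem_tT.1 ht
  have h1 := TSet.mem_Ch_mm.1 hf (X.lN F x n) ⟨x, a.e, a.h⟩ t ht'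
  have h2 : X.eM F x ⟨n * sW t, a⟩ = ⟨X.lN F x n * sW (t : H), ⟨x, a.e, a.h⟩⟩ := by
    refine Cell.ext ?_ rfl
    show X.lN F x (n * sW t) = _
    rw [lN_mul, lN_sW]
  rw [pull_apply, pull_apply, h2]
  exact h1

theorem push_Ch (x : P) {f : L2 (Cell (X.Sx x) Unit (X.Ex x j))} (hf : f ∈ (X.tx x j).Ch (X.Sx x) Unit mir) :
    push (X.eM F x) (X.eM_inj x) f ∈ (X.ts j).Ch S F mir := by
  refine TSet.mem_Ch_mm.2 fun n a t ht => ?_
  have ht' : t ∈ X.T a.e := ht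
  by_cases h : (⟨n, a⟩ : Cell S F (X.Cn j)) ∈ Set.range (X.eM F x : Cell (X.Sx x) Unit (X.Ex x j) → _)
  · obtain ⟨z, hz⟩ := h
    have h1 : X.lN F x z.n = n := congrArg Cell.n hz
    have h2 : (⟨x, z.r.e, z.r.h⟩ : X.Cn j) = a := congrArg Cell.r hz
    subst h1 h2
    have h3 : t ∈ X.dr x := X.T_dr _ _ _ ht' z.r.h
    have h4 : (⟨X.lN F x z.n * sW t, ⟨x, z.r.e, z.r.h⟩⟩ : Cell S F (X.Cn j)) =
        X.eM F x ⟨z.n * sW ⟨t, h3⟩, z.r⟩ := by
      refine Cell.ext ?_ rfl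
      show X.lN F x z.n * sW t = X.lN F x (z.n * sW ⟨t, h3⟩)
      rw [lN_mul, lN_sW]
    have h5 : (⟨X.lN F x z.n, ⟨x, z.r.e, z.r.h⟩⟩ : Cell S F (X.Cn j)) = X.eM F x z := rfl
    rw [h4, h5, push_apply, push_apply]
    exact TSet.mem_Ch_mm.1 hf z.n z.r ⟨t, h3⟩ (X.mem_tT.2 ht')
  · have h' : ¬ (⟨n * sW t, a⟩ : Cell S F (X.Cn j)) ∈ Set.range (X.eM F x : Cell (X.Sx x) Unit (X.Ex x j) → _) :=
      fun h1 => h (X.sW_range x ht' h1)
    rw [push_apply_of_notMem _ _ _ h, push_apply_of_notMem _ _ _ h', neg_zero]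

theorem pull_D (x : P) (f : L2 (Cell S F (X.Cn (j + 1)))) :
    pull (X.eM F x) (X.eM_inj x) ((X.kn j).D S F f) =
      (X.kx x j).D (X.Sx x) Unit (pull (X.eM F x) (X.eM_inj x) f) := by
  ext y
  rw [pull_apply, Kern.D_apply, Kern.D_apply]
  refine Finset.sum_bij' (fun (c : X.Cn (j + 1)) hc => (⟨c.e, ?_⟩ : X.Ex x (j + 1)))
    (fun e _ => (⟨x, e.e, e.h⟩ : X.Cn (j + 1))) ?_ ?_ ?_ ?_ ?_
  · have h1 := (X.ci_ne ((X.kn j).mem_cl.1 hc)).1
    have h2 : c.k = x := h1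
    exact h2 ▸ c.h
  · intro c hc
    exact (X.kx x j).mem_cl.2 (X.ci_ne ((X.kn j).mem_cl.1 hc)).2
  · intro e he
    refine (X.kn j).mem_cl.2 ?_
    have h1 : X.inc e.e y.r.e ≠ 0 := (X.kx x j).mem_cl.1 he
    have h2 : X.ci (⟨x, e.e, e.h⟩ : X.Cn (j + 1)) (X.eM F x y).r = X.inc e.e y.r.e := if_pos rfl
    show X.ci _ _ ≠ 0
    rw [h2]
    exact h1
  · intro c hc
    have h1 : c.k = x := (X.ci_ne ((X.kn j).mem_cl.1 hc)).1
    exact Cn.ext h1.symm rfl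
  · intro e he
    rfl
  · intro c hc
    have h1 : c.k = x := (X.ci_ne ((X.kn j).mem_cl.1 hc)).1
    have h2 : X.ci c (X.eM F x y).r = X.inc c.e y.r.e := if_pos h1
    have h3 : c = ⟨x, c.e, h1 ▸ c.h⟩ := Cn.ext h1 rfl
    show (X.ci c (X.eM F x y).r : ℂ) * f ⟨(X.eM F x y).n, c⟩ = (X.inc c.e y.r.e : ℂ) * _
    rw [h2, pull_apply]
    have h4 : (⟨(X.eM F x y).n, c⟩ : Cell S F (X.Cn (j + 1))) =
        X.eM F x ⟨y.n, (⟨c.e, h1 ▸ c.h⟩ : X.Ex x (j + 1))⟩ := Cell.ext rfl h3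
    rw [h4]

theorem push_D (x : P) (f : L2 (Cell (X.Sx x) Unit (X.Ex x (j + 1)))) :
    (X.kn j).D S F (push (X.eM F x) (X.eM_inj x) f) =
      push (X.eM F x) (X.eM_inj x) ((X.kx x j).D (X.Sx x) Unit f) := by
  ext y
  by_cases h : y ∈ Set.range (X.eM F x : Cell (X.Sx x) Unit (X.Ex x j) → _)
  · obtain ⟨z, rfl⟩ := h
    rw [push_apply]
    have h1 := congrArg (fun u : L2 (Cell (X.Sx x) Unit (X.Ex x j)) => u z)
      (X.pull_D x (push (X.eM F x) (X.eM_inj x) f))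
    have h2 : pull (X.eM F x) (X.eM_inj x) (push (X.eM F x) (X.eM_inj x) f) = f := by
      ext y
      rw [pull_apply, push_apply]
    rw [h2] at h1
    exact h1
  · rw [push_apply_of_notMem _ _ _ h, Kern.D_apply]
    refine Finset.sum_eq_zero fun c hc => ?_
    have h1 := X.ci_ne ((X.kn j).mem_cl.1 hc)
    have h2 : ¬ (⟨y.n, c⟩ : Cell S F (X.Cn (j + 1))) ∈
        Set.range (X.eM F x : Cell (X.Sx x) Unit (X.Ex x (j + 1)) → _) := by
      rintro ⟨z, hz⟩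
      refine h ?_
      have h3 : X.lN F x z.n = y.n := congrArg Cell.n hz
      have h4 : (⟨x, z.r.e, z.r.h⟩ : X.Cn (j + 1)) = c := congrArg Cell.r hz
      have h5 : x = y.r.k := by
        rw [← h1.1, ← h4]
      exact ⟨⟨z.n, ⟨y.r.e, h5 ▸ y.r.h⟩⟩, Cell.ext h3 (Cn.ext h5 rfl)⟩
    rw [push_apply_of_notMem _ _ _ h2, mul_zero]

theorem pull_Cyc (x : P) {f : L2 (Cell S F (X.Cn (j + 1)))} (hf : f ∈ (X.ts (j + 1)).Cyc (X.kn j) S F mir) :
    pull (X.eM F x) (X.eM_inj x) f ∈ (X.tx x (j + 1)).Cyc (X.kx x j) (X.Sx x) Unit mir := by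
  refine TSet.mem_Cyc.2 ⟨X.pull_Ch x (TSet.mem_Cyc.1 hf).1, ?_⟩
  rw [← pull_D, (TSet.mem_Cyc.1 hf).2, map_zero]

theorem push_Cyc (x : P) {f : L2 (Cell (X.Sx x) Unit (X.Ex x (j + 1)))}
    (hf : f ∈ (X.tx x (j + 1)).Cyc (X.kx x j) (X.Sx x) Unit mir) :
    push (X.eM F x) (X.eM_inj x) f ∈ (X.ts (j + 1)).Cyc (X.kn j) S F mir := by
  refine TSet.mem_Cyc.2 ⟨X.push_Ch x (TSet.mem_Cyc.1 hf).1, ?_⟩
  rw [push_D, (TSet.mem_Cyc.1 hf).2, map_zero]

variable [∀ j, Cof G (E j)] {τ : Type*} [Fintype τ] {x : τ → P}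

theorem vd_of_eM (hx : ∀ k, ∃! q, ∃ g : G, g • x q = k) {V : Submodule ℂ (L2 (Cell S F (X.Cn j)))} (hV : Inv (Gh S F) V)
    (V' : ∀ q : τ, Submodule ℂ (L2 (Cell (X.Sx (x q)) Unit (X.Ex (x q) j))))
    (h1 : ∀ q, ∀ f ∈ V' q, push (X.eM F (x q)) (X.eM_inj (x q)) f ∈ V)
    (h2 : ∀ q, ∀ f ∈ V, pull (X.eM F (x q)) (X.eM_inj (x q)) f ∈ V' q) :
    vd (Gh S F) V = ∑ q, vd (Gh (X.Sx (x q)) Unit) (V' q) := by
  refine vd_eq_sum_loc (τ := τ) (Γ' := fun q => Gh (X.Sx (x q)) Unit)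
    (Y' := fun q => Cell (X.Sx (x q)) Unit (X.Ex (x q) j)) (fun q => X.eM F (x q)) (fun q => X.eM_inj (x q)) hV V'
    h1 h2 ?_ ?_ ?_
  · intro y
    obtain ⟨q, ⟨g, hg⟩, -⟩ := hx y.r.k
    have h3 : (x q) ∈ X.V (g⁻¹ • y.r.e) := by
      have h4 : (x q) = g⁻¹ • y.r.k := by rw [← hg, inv_smul_smul]
      rw [h4]
      exact (X.V_smul _ _ _).2 y.r.h
    refine ⟨q, ⟨1, ⟨g⁻¹ • y.r.e, h3⟩⟩, ⟨y.n, g⟩, Cell.ext ?_ (Cn.ext hg (smul_inv_smul _ _))⟩
    show y.n * g • X.lN F (x q) 1 = y.n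
    rw [lN_one, smul_one, mul_one]
  · intro q y g
    refine ⟨⟨X.lN F (x q) g.left, (g.right : G)⟩, Cell.ext ?_ (Cn.ext g.right.2 rfl)⟩
    show X.lN F (x q) g.left * (g.right : G) • X.lN F (x q) y.n = X.lN F (x q) (g.left * g.right • y.n)
    rw [lN_mul, lN_smul]
  · intro a b y z γ h
    have h3 : γ.right • (x a) = (x b) := congrArg (fun c => (Cell.r c).k) h
    have h4 : a = b := (hx (x b)).unique ⟨γ.right, h3⟩ ⟨1, one_smul _ _⟩
    subst h4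
    congr 1
    have h5 : γ.left * γ.right • X.lN F (x a) y.n = X.lN F (x a) z.n := congrArg Cell.n h
    have h6 : γ.right • y.r.e = z.r.e := congrArg (fun c => (Cell.r c).e) h
    refine Quotient.sound' ⟨(⟨z.n * (((⟨γ.right, h3⟩ : MulAction.stabilizer G (x a))) • y.n)⁻¹,
      ⟨γ.right, h3⟩⟩ : Gh (X.Sx (x a)) Unit)⁻¹, ?_⟩
    refine inv_smul_eq_iff.2 ?_
    refine Cell.ext ?_ (Ex.ext h6.symm)
    show z.n = z.n * (((⟨γ.right, h3⟩ : MulAction.stabilizer G (x a))) • y.n)⁻¹ *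
      (⟨γ.right, h3⟩ : MulAction.stabilizer G (x a)) • y.n
    rw [inv_mul_cancel_right]

/-- **the mirrored chains** -/
theorem vd_Ch_m (hx : ∀ k, ∃! q, ∃ g : G, g • x q = k) (F : Type*) [AddCommGroup F] [Fintype F] (j : ℕ) :
    vd (Gh S F) ((X.ts j).Ch S F mir) = ∑ q, X.cx (x q) j :=
  X.vd_of_eM hx TSet.mdl_Ch.inv _ (fun q f hf => X.push_Ch (x q) hf) fun q f hf => X.pull_Ch (x q) hf

/-- **the mirrored cycles** -/
theorem vd_Cyc_m (hx : ∀ k, ∃! q, ∃ g : G, g • x q = k) (F : Type*) [AddCommGroup F] [Fintype F] (j : ℕ) :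
    vd (Gh S F) ((X.ts (j + 1)).Cyc (X.kn j) S F mir) = ∑ q, X.zx (x q) j :=
  X.vd_of_eM hx TSet.mdl_Cyc.inv _ (fun q f hf => X.push_Cyc (x q) hf) fun q f hf => X.pull_Cyc (x q) hf

end ch

end ES

end Cm
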