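import Pool.Agent.Cm.Chain

/-!
# Mirror inequality: cell systems

* `ES S P E` : a cell system: `G`-sets `E j` of cells, each cell `e` with a finite set `T e` of pairwise crossing
  hyperplanes and a finite set `V e` of vertices; `inc` : the incidence numbers;
* `X.Cn j` : the pairs of a cell and a vertex of it (corners), `X.ts j` : the letters and flips, `X.kn j` : the incidence
  matrix of the corners;
* `K.op` : the operator of a matrix on `L2 A`;
* `WG S` = `RACG S.C ⋊ G`, `WC S A` = pairs of an element of `RACG S.C` and an element of `A`, `K.DW` : the operator of a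
  matrix, `MCh S T` : the functions which are antisymmetric for all letters;
* `X.Sx x`, `X.Ex x j`, `X.Tx x`, `X.kx x j` : the data at the vertex `x`, with the action of the stabilizer of `x`.
-/

set_option autoImplicit false
set_option linter.unusedSectionVars false
set_option linter.unusedVariables false

open scoped ComplexConjugate InnerProductSpace
open Filter Topology

namespace Cm

open Singer
open Npc (plf plf_apply psf psf_apply psf_pull Fibre Cof act Equi equi_pull equi_mul Mdl mdl_ker Orb)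

variable {H G : Type*} [Group G] [MulAction G H]

/-! ### matrices on `L2 A` -/

namespace Kern
variable {A B : Type*} [MulAction G A] [MulAction G B] (K : Kern G A B)

/-- the operator of the matrix -/
noncomputable def op : L2 A →L[ℂ] L2 B :=
  (K.M : ℂ) • ((psf ⟨fun b => (K.fibB b).1, fun b => (K.fibB b).2⟩).comp ((mul K.wt K.wt_le).comp
    (plf ⟨fun a => (K.fibA a).1, fun a => (K.fibA a).2⟩)))

theorem op_apply (f : L2 A) (b : B) : K.op f b = ∑ a ∈ K.cl b, (K.d a b : ℂ) * f a := by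
  classical
  have h0 : K.op f b = (K.M : ℂ) * ∑ z ∈ (K.fibB b).1.toFinset, K.wt z * f z.1.1 := by
    have h1 : K.op f b = (K.M : ℂ) * (psf ⟨fun b => (K.fibB b).1, fun b => (K.fibB b).2⟩
      (mul K.wt K.wt_le (plf ⟨fun a => (K.fibA a).1, fun a => (K.fibA a).2⟩ f)) b) := rfl
    rw [h1, psf_apply]
    rfl
  rw [h0, Finset.mul_sum]
  refine Finset.sum_bij' (fun z _ => z.1.1) (fun a ha => (⟨(a, b), K.mem_cl.1 ha⟩ : K.I)) ?_ ?_ ?_ ?_ ?_
  · intro z hz
    have hz' : K.pB z = b := (K.fibB b).1.mem_toFinset.1 hz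
    rw [mem_cl, ← hz']
    exact z.2
  · intro a ha
    exact (K.fibB b).1.mem_toFinset.2 rfl
  · intro z hz
    have hz' : K.pB z = b := (K.fibB b).1.mem_toFinset.1 hz
    subst hz'
    rfl
  · intro a ha
    rfl
  · intro z hz
    have hz' : K.pB z = b := (K.fibB b).1.mem_toFinset.1 hz
    subst hz'
    show (K.M : ℂ) * (((K.M : ℂ)⁻¹ * K.d z.1.1 z.1.2) * f z.1.1) = (K.d z.1.1 z.1.2 : ℂ) * f z.1.1
    rcases Nat.eq_zero_or_pos K.M with h | h
    · exfalso
      have h1 := K.le z.1.1 z.1.2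
      rw [h, Nat.cast_zero, norm_le_zero_iff] at h1
      exact z.2 (by exact_mod_cast h1)
    · have h' : (K.M : ℂ) ≠ 0 := by exact_mod_cast h.ne'
      rw [← mul_assoc, mul_inv_cancel_left₀ h']

theorem equi_op : Equi G K.op := by
  have h1 : Equi G (plf ⟨fun a => (K.fibA a).1, fun a => (K.fibA a).2⟩ : L2 A →L[ℂ] L2 K.I) :=
    equi_plf _ fun g y => rfl
  have h2 : Equi G (psf ⟨fun b => (K.fibB b).1, fun b => (K.fibB b).2⟩ : L2 K.I →L[ℂ] L2 B) :=
    equi_psf _ fun g y => rfl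
  refine (h2.comp ((equi_mul _ fun g y => ?_).comp h1)).smul _
  show (K.M : ℂ)⁻¹ * K.d (g • y.1.1) (g • y.1.2) = _
  rw [K.smul]
  rfl

end Kern

/-! ### mirrored chains -/

/-- the semidirect product of the right-angled Coxeter group with `G` -/
abbrev WG (S : Hyp H G) : Type _ := NN S Unit ⋊[MulDistribMulAction.toMulAut G (NN S Unit)] G

/-! ### cell systems -/

/-- cell systems -/
structure ES (S : Hyp H G) (P : Type*) (E : ℕ → Type*) [MulAction G P] [∀ j, MulAction G (E j)] where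
  /-- the neighbour across a hyperplane -/
  fl : H → P → P
  /-- the hyperplanes at a vertex -/
  dr : P → Set H
  /-- the hyperplanes of a cell -/
  T : ∀ {j}, E j → Finset H
  /-- the vertices of a cell -/
  V : ∀ {j}, E j → Finset P
  /-- the incidence numbers -/
  inc : ∀ {j}, E (j + 1) → E j → ℤ
  fl_smul : ∀ (g : G) t k, fl (g • t) (g • k) = g • fl t k
  dr_smul : ∀ (g : G) t k, g • t ∈ dr (g • k) ↔ t ∈ dr k
  T_smul : ∀ {j} (g : G) t (e : E j), g • t ∈ T (g • e) ↔ t ∈ T e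
  V_smul : ∀ {j} (g : G) k (e : E j), g • k ∈ V (g • e) ↔ k ∈ V e
  V_ne : ∀ {j} (e : E j), (V e).Nonempty
  T_dr : ∀ {j} (e : E j) t k, t ∈ T e → k ∈ V e → t ∈ dr k
  T_adj : ∀ {j} (e : E j) t u, t ∈ T e → u ∈ T e → t ≠ u → S.C.Adj t u
  fl_V : ∀ {j} (e : E j) t k, t ∈ T e → k ∈ V e → fl t k ∈ V e
  fl_fl : ∀ {j} (e : E j) t k, t ∈ T e → k ∈ V e → fl t (fl t k) = k
  tr : ∀ {j} (e : E j) k k', k ∈ V e → k' ∈ V e → Relation.ReflTransGen (fun a b => ∃ t ∈ T e, b = fl t a) k k'
  inc_smul : ∀ {j} (g : G) (e : E (j + 1)) (e' : E j), inc (g • e) (g • e') = inc e e'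
  inc_T : ∀ {j} (e : E (j + 1)) (e' : E j), inc e e' ≠ 0 → T e' ⊆ T e
  inc_V : ∀ {j} (e : E (j + 1)) (e' : E j), inc e e' ≠ 0 → V e' ⊆ V e
  bd : ℕ
  card_T : ∀ {j} (e : E j), (T e).card ≤ bd
  card_V : ∀ {j} (e : E j), (V e).card ≤ bd
  M : ℕ → ℕ
  row : ∀ {j} (e : E (j + 1)), {e' : E j | inc e e' ≠ 0}.Finite ∧ {e' : E j | inc e e' ≠ 0}.ncard ≤ M j
  col : ∀ {j} (e' : E j), {e : E (j + 1) | inc e e' ≠ 0}.Finite ∧ {e : E (j + 1) | inc e e' ≠ 0}.ncard ≤ M j
  le : ∀ {j} (e : E (j + 1)) (e' : E j), ‖(inc e e' : ℂ)‖ ≤ M j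

namespace ES
variable {S : Hyp H G} {P : Type*} {E : ℕ → Type*} [MulAction G P] [∀ j, MulAction G (E j)] (X : ES S P E)

/-- the incidence matrix -/
def kE (j : ℕ) : Kern G (E (j + 1)) (E j) where
  d := X.inc
  smul := X.inc_smul
  M := X.M j
  row := X.row
  col := X.col
  le := X.le

/-- the corners -/
@[ext] structure Cn (j : ℕ) where
  k : P
  e : E j
  h : k ∈ X.V e

instance (j : ℕ) : MulAction G (X.Cn j) where
  smul g p := ⟨g • p.k, g • p.e, (X.V_smul g _ _).2 p.h⟩
  one_smul p := Cn.ext (one_smul _ _) (one_smul _ _)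
  mul_smul g h p := Cn.ext (mul_smul _ _ _) (mul_smul _ _ _)

variable {X} in
lemma smul_k {j : ℕ} (g : G) (p : X.Cn j) : (g • p).k = g • p.k := rfl
variable {X} in
lemma smul_e {j : ℕ} (g : G) (p : X.Cn j) : (g • p).e = g • p.e := rfl

open Classical in
/-- the flip of a corner -/
noncomputable def cmv {j : ℕ} (t : H) (p : X.Cn j) : X.Cn j :=
  if h : t ∈ X.T p.e then ⟨X.fl t p.k, p.e, X.fl_V _ _ _ h p.h⟩ else p

lemma cmv_pos {j : ℕ} {t : H} {p : X.Cn j} (h : t ∈ X.T p.e) :
    X.cmv t p = ⟨X.fl t p.k, p.e, X.fl_V _ _ _ h p.h⟩ := dif_pos h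

/-- the letters and flips of the corners -/
noncomputable def ts (j : ℕ) : TSet H G (X.Cn j) where
  T p := X.T p.e
  mv t p := X.cmv t p
  T_smul g t p := X.T_smul g t p.e
  mv_smul g t p h := by
    have h' : g • t ∈ X.T (g • p).e := (X.T_smul g t p.e).2 h
    rw [X.cmv_pos h, X.cmv_pos h']
    exact Cn.ext (X.fl_smul _ _ _) rfl
  T_mv t p h := by rw [X.cmv_pos h]
  mv_mv t p h := by
    rw [X.cmv_pos h, X.cmv_pos (by exact h)]
    exact Cn.ext (X.fl_fl _ _ _ h p.h) rfl
  bd := X.bd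
  card p := X.card_T p.e

lemma ts_T {j : ℕ} (p : X.Cn j) : (X.ts j).T p = X.T p.e := rfl

lemma ts_mv {j : ℕ} {t : H} {p : X.Cn j} (h : t ∈ X.T p.e) :
    (X.ts j).mv t p = ⟨X.fl t p.k, p.e, X.fl_V _ _ _ h p.h⟩ := X.cmv_pos h

open Classical in
/-- the incidence numbers of the corners -/
noncomputable def ci {j : ℕ} (p : X.Cn (j + 1)) (q : X.Cn j) : ℤ := if p.k = q.k then X.inc p.e q.e else 0

lemma ci_ne {j : ℕ} {p : X.Cn (j + 1)} {q : X.Cn j} (h : X.ci p q ≠ 0) : p.k = q.k ∧ X.inc p.e q.e ≠ 0 := by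
  unfold ci at h
  by_cases h1 : p.k = q.k
  · rw [if_pos h1] at h
    exact ⟨h1, h⟩
  · rw [if_neg h1] at h
    exact absurd rfl h

/-- the incidence matrix of the corners -/
noncomputable def kn (j : ℕ) : Kern G (X.Cn (j + 1)) (X.Cn j) where
  d := X.ci
  smul g p q := by
    classical
    have h : (g • p).k = (g • q).k ↔ p.k = q.k := smul_left_cancel_iff (g := g)
    unfold ci
    by_cases h1 : p.k = q.k
    · rw [if_pos h1, if_pos (h.2 h1)]
      exact X.inc_smul g _ _
    · rw [if_neg h1, if_neg fun h2 => h1 (h.1 h2)]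
  M := X.M j
  row p := by
    have h1 : Set.InjOn (fun q : X.Cn j => q.e) {q : X.Cn j | X.ci p q ≠ 0} := by
      intro q hq q' hq' h
      exact Cn.ext ((X.ci_ne hq).1.symm.trans (X.ci_ne hq').1) h
    have h2 : Set.MapsTo (fun q : X.Cn j => q.e) {q : X.Cn j | X.ci p q ≠ 0} {e' | X.inc p.e e' ≠ 0} :=
      fun q hq => (X.ci_ne hq).2
    exact ⟨Set.Finite.of_injOn h2 h1 (X.row p.e).1,
      (Set.ncard_le_ncard_of_injOn _ h2 h1 (X.row p.e).1).trans (X.row p.e).2⟩
  col q := by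
    have h1 : Set.InjOn (fun p : X.Cn (j + 1) => p.e) {p : X.Cn (j + 1) | X.ci p q ≠ 0} := by
      intro p hp p' hp' h
      exact Cn.ext ((X.ci_ne hp).1.trans (X.ci_ne hp').1.symm) h
    have h2 : Set.MapsTo (fun p : X.Cn (j + 1) => p.e) {p : X.Cn (j + 1) | X.ci p q ≠ 0} {e | X.inc e q.e ≠ 0} :=
      fun p hp => (X.ci_ne hp).2
    exact ⟨Set.Finite.of_injOn h2 h1 (X.col q.e).1,
      (Set.ncard_le_ncard_of_injOn _ h2 h1 (X.col q.e).1).trans (X.col q.e).2⟩
  le p q := by
    classical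
    unfold ci
    split_ifs
    · exact X.le _ _
    · simp

lemma kn_d {j : ℕ} (p : X.Cn (j + 1)) (q : X.Cn j) : (X.kn j).d p q = X.ci p q := rfl

/-! ### the data at a vertex -/

instance (x : P) : MulAction (MulAction.stabilizer G x) (X.dr x) where
  smul g t := ⟨(g : G) • (t : H), by
    have h := (X.dr_smul (g : G) t x).2 t.2
    rwa [show (g : G) • x = x from g.2] at h⟩
  one_smul t := Subtype.ext (one_smul _ _)
  mul_smul g h t := Subtype.ext (mul_smul _ _ _)

/-- the crossing graph of the hyperplanes at the vertex `x` (the link of `x`) -/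
def Sx (x : P) : Hyp (X.dr x) (MulAction.stabilizer G x) where
  C := S.C.comap (Subtype.val : X.dr x → H)
  adj g t u := S.adj (g : G) t u

/-- the cells with the vertex `x` -/
@[ext] structure Ex (x : P) (j : ℕ) where
  e : E j
  h : x ∈ X.V e

instance (x : P) (j : ℕ) : MulAction (MulAction.stabilizer G x) (X.Ex x j) where
  smul g e := ⟨(g : G) • e.e, by
    have h := (X.V_smul (g : G) x e.e).2 e.h
    rwa [show (g : G) • x = x from g.2] at h⟩
  one_smul t := Ex.ext (one_smul _ _)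
  mul_smul g h t := Ex.ext (mul_smul _ _ _)

variable {X} in
lemma Ex.smul_e {x : P} {j : ℕ} (g : MulAction.stabilizer G x) (e : X.Ex x j) : (g • e).e = (g : G) • e.e := rfl

open Classical in
/-- the letters of a cell with the vertex `x` -/
noncomputable def tT {x : P} {j : ℕ} (e : X.Ex x j) : Finset (X.dr x) := (X.T e.e).subtype (· ∈ X.dr x)

lemma mem_tT {x : P} {j : ℕ} {e : X.Ex x j} {t : X.dr x} : t ∈ X.tT e ↔ (t : H) ∈ X.T e.e := by
  classical
  exact Finset.mem_subtype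

/-- the letters of the cells with the vertex `x`, without flips -/
noncomputable def tx (x : P) (j : ℕ) : TSet (X.dr x) (MulAction.stabilizer G x) (X.Ex x j) where
  T e := X.tT e
  mv t e := e
  T_smul g t e := by
    rw [mem_tT, mem_tT]
    exact X.T_smul (g : G) t e.e
  mv_smul g t e h := rfl
  T_mv t e h := rfl
  mv_mv t e h := rfl
  bd := X.bd
  card e := by
    classical
    unfold tT
    rw [Finset.card_subtype]
    exact (Finset.card_filter_le _ _).trans (X.card_T _)

/-- the incidence matrix of the cells with the vertex `x` -/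
def kx (x : P) (j : ℕ) : Kern (MulAction.stabilizer G x) (X.Ex x (j + 1)) (X.Ex x j) where
  d e e' := X.inc e.e e'.e
  smul g e e' := X.inc_smul _ _ _
  M := X.M j
  row e := by
    have h1 : Set.InjOn (fun e' : X.Ex x j => e'.e) {e' : X.Ex x j | X.inc e.e e'.e ≠ 0} :=
      fun e' _ e'' _ h => Ex.ext h
    have h2 : Set.MapsTo (fun e' : X.Ex x j => e'.e) {e' : X.Ex x j | X.inc e.e e'.e ≠ 0}
      {e' | X.inc e.e e' ≠ 0} := fun e' h => h
    exact ⟨Set.Finite.of_injOn h2 h1 (X.row e.e).1,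
      (Set.ncard_le_ncard_of_injOn _ h2 h1 (X.row e.e).1).trans (X.row e.e).2⟩
  col e' := by
    have h1 : Set.InjOn (fun e : X.Ex x (j + 1) => e.e) {e : X.Ex x (j + 1) | X.inc e.e e'.e ≠ 0} :=
      fun e _ e'' _ h => Ex.ext h
    have h2 : Set.MapsTo (fun e : X.Ex x (j + 1) => e.e) {e : X.Ex x (j + 1) | X.inc e.e e'.e ≠ 0}
      {e | X.inc e e'.e ≠ 0} := fun e h => h
    exact ⟨Set.Finite.of_injOn h2 h1 (X.col e'.e).1,
      (Set.ncard_le_ncard_of_injOn _ h2 h1 (X.col e'.e).1).trans (X.col e'.e).2⟩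
  le e e' := X.le _ _

/-- all labels glued -/
abbrev glu {F : Type*} [AddCommGroup F] : AddChar F ℂ → Npc.St := fun _ => Npc.St.g
/-- all labels mirrored -/
abbrev mir {F : Type*} [AddCommGroup F] : AddChar F ℂ → Npc.St := fun _ => Npc.St.m

end ES

end Cm
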