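import Pool.Agent.Cm.Bet

/-!
# The Euler characteristic

* `euler` : the alternating sum of the `ℓ²`-Betti numbers of a finite free resolution;
* `hopf` : the sign of the Euler characteristic if the `ℓ²`-Betti numbers vanish outside of one degree.
-/

set_option autoImplicit false
set_option linter.unusedVariables false

namespace Cm.B

open Singer SQ

variable {Γ : Type} [Group Γ]

theorem kr_add_rg {ι κ : Type} [Fintype ι] [Fintype κ] (M : Matrix ι κ (ZG Γ)) :
    vdim (kr (hat M)) + vdim (rg (hat M)) = Fintype.card ι := by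
  have h := vdim_map_add (equi_hat M) (inv_top (Γ := Γ) (ι := ι)) isClosed_univ
  rw [top_inf_eq, vdim_top] at h
  have h1 : (⊤ : Submodule ℂ (E Γ ι)).map (hat M : E Γ ι →ₗ[ℂ] E Γ κ) = rg (hat M) := Submodule.map_top _
  rw [h1] at h
  linarith

/-- the alternating sum of the `ℓ²`-Betti numbers -/
theorem euler_aux (R : FinRes Γ) (N : ℕ) : ∑ k ∈ Finset.range (N + 1), (-1 : ℝ) ^ k * R.betti k =
    ∑ k ∈ Finset.range (N + 1), (-1 : ℝ) ^ k * Fintype.card (R.ι k) - (-1) ^ N * vdim (rg (hat (R.d N))) := by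
  induction N with
  | zero =>
    have e : ∀ f : ℕ → ℝ, ∑ k ∈ Finset.range (0 + 1), f k = f 0 := fun f => Finset.sum_range_one f
    rw [e, e, pow_zero, one_mul, one_mul, one_mul]
    exact betti_zero' R
  | succ N ih =>
    rw [Finset.sum_range_succ, ih, Finset.sum_range_succ _ (N + 1), betti_succ', pow_succ]
    have h := kr_add_rg (R.d N)
    rw [← h]
    ring

theorem euler (R : FinRes Γ) {N : ℕ} (hN : IsEmpty (R.ι (N + 1))) :
    ∑ k ∈ Finset.range (N + 1), (-1 : ℝ) ^ k * R.betti k =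
      ∑ k ∈ Finset.range (N + 1), (-1 : ℝ) ^ k * Fintype.card (R.ι k) := by
  have h := kr_add_rg (R.d N)
  have h0 : (Fintype.card (R.ι (N + 1)) : ℝ) = 0 := by
    rw [Fintype.card_eq_zero, Nat.cast_zero]
  rw [h0] at h
  have h1 : 0 ≤ vdim (kr (hat (R.d N))) := vdim_nonneg _
  have h2 : 0 ≤ vdim (rg (hat (R.d N))) := vdim_nonneg _
  have h3 : vdim (rg (hat (R.d N))) = 0 := by linarith
  rw [euler_aux, h3, mul_zero, sub_zero]

/-- the sign of the Euler characteristic -/
theorem hopf (R : FinRes Γ) {N m : ℕ} (hN : ∀ i, N < i → IsEmpty (R.ι i)) (h : ∀ i, i ≠ m → R.betti i = 0) :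
    0 ≤ (-1 : ℝ) ^ m * ∑ k ∈ Finset.range (N + 1), (-1 : ℝ) ^ k * Fintype.card (R.ι k) := by
  rw [← euler R (hN (N + 1) (Nat.lt_succ_self N))]
  by_cases hm : m ∈ Finset.range (N + 1)
  · rw [Finset.sum_eq_single m (fun k _ hk => by rw [h k hk, mul_zero]) (fun h' => absurd hm h'), ← mul_assoc,
      ← pow_add, Even.neg_one_pow ⟨m, rfl⟩, one_mul]
    exact R.betti_nonneg m
  · rw [Finset.sum_eq_zero fun k hk => by
      rw [h k (fun hkm => hm (hkm ▸ hk)), mul_zero], mul_zero]

end Cm.B
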