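import Pool.Agent.Cm.Main
import Pool.Agent.Singer.BettiStmt
import Pool.Agent.Singer.FinBetti

/-!
# The mirror inequality for resolutions over the integral group rings

* `betti_strong` : the weak and the strong inequality for representatives of the orbits of vertices;
* `betti_le` : the weak inequality for a family of vertices which meets all orbits;
* `betti_eq_sum` : equality in degree `i` if the numbers in the degrees `i - 1`, `i + 1` of all pieces vanish.
-/

set_option autoImplicit false

open scoped Pointwise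

namespace Cm

open Singer CubeComplex

section strong
variable {Γ X : Type} [Group Γ] [MulAction Γ X] {M : SimpleGraph X}

theorem betti_alt (h : CubicalAction Γ M) {τ : Type*} [Fintype τ] (x : τ → X)
    (hx : ∀ k : X, ∃! q : τ, ∃ g : Γ, g • x q = k) (R : FinRes Γ) (RM : ∀ q, FinRes (MirGroup Γ M (x q))) (i : ℕ) :
    R.betti i ≤ ∑ q, (RM q).betti i ∧ ES.alt R.betti i ≤ ∑ q, ES.alt (RM q).betti i := by
  obtain ⟨SM, h1⟩ := cm_strong h x hx
  have e0 : R.toRes.toPreRes.toHC.h = R.betti := funext fun k => (FinRes.betti_eq R k).symm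
  have e1 : ∀ q, (SM q).toPreRes.toHC.h = (RM q).betti := fun q => funext fun k =>
    (Res.h_eq (SM q) (RM q).toRes k).trans (FinRes.betti_eq (RM q) k).symm
  have h2 := h1 R.toRes i
  rw [e0] at h2
  refine ⟨h2.1.trans (le_of_eq ?_), h2.2.trans (le_of_eq ?_)⟩
  · exact Finset.sum_congr rfl fun q _ => by rw [e1 q]
  · exact Finset.sum_congr rfl fun q _ => by rw [e1 q]

/-- the weak and the strong inequality for representatives of the orbits of vertices -/
theorem betti_strong (h : CubicalAction Γ M) {τ : Type*} [Fintype τ] (x : τ → X)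
    (hx : ∀ k : X, ∃! q : τ, ∃ g : Γ, g • x q = k) (R : FinRes Γ) (RM : ∀ q, FinRes (MirGroup Γ M (x q))) (i : ℕ) :
    R.betti i ≤ ∑ q, (RM q).betti i ∧
      ∑ k ∈ Finset.range (i + 1), (-1) ^ (i + k) * R.betti k ≤
        ∑ q, ∑ k ∈ Finset.range (i + 1), (-1) ^ (i + k) * (RM q).betti k := by
  obtain ⟨h1, h2⟩ := betti_alt h x hx R RM i
  rw [ES.alt_eq_sum] at h2
  simp only [ES.alt_eq_sum] at h2
  exact ⟨h1, h2⟩

/-- the weak inequality for a family of vertices which meets all orbits -/
theorem betti_le (h : CubicalAction Γ M) {J : Type*} [Fintype J] (x : J → X)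
    (hx : ∀ v, ∃ (j : J) (g : Γ), g • x j = v) (R : FinRes Γ) (RM : ∀ j, FinRes (MirGroup Γ M (x j))) (i : ℕ) :
    R.betti i ≤ ∑ j, (RM j).betti i := by
  obtain ⟨I, hI⟩ := exists_repr x hx
  have h1 := (betti_alt h (fun q : I => x q.1) hI R (fun q => RM q.1) i).1
  refine h1.trans ?_
  rw [Finset.sum_coe_sort I fun j => (RM j).betti i]
  exact Finset.sum_le_sum_of_subset_of_nonneg (Finset.subset_univ _) fun j _ _ => FinRes.betti_nonneg (RM j) i

/-- equality if the numbers in the adjacent degrees of all pieces vanish -/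
theorem betti_eq_sum (h : CubicalAction Γ M) {τ : Type*} [Fintype τ] (x : τ → X)
    (hx : ∀ k : X, ∃! q : τ, ∃ g : Γ, g • x q = k) (R : FinRes Γ) (RM : ∀ q, FinRes (MirGroup Γ M (x q))) (i : ℕ)
    (h0 : ∀ q k, k + 1 = i → (RM q).betti k = 0) (h1 : ∀ q, (RM q).betti (i + 1) = 0) :
    R.betti i = ∑ q, (RM q).betti i := by
  have hA : ∀ k, ES.alt R.betti k ≤ ∑ q, ES.alt (RM q).betti k := fun k => (betti_alt h x hx R RM k).2
  have hup : ES.alt R.betti i = ∑ q, ES.alt (RM q).betti i := by
    refine le_antisymm (hA i) ?_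
    have h2 := hA (i + 1)
    simp only [ES.alt_succ, Finset.sum_sub_distrib, h1] at h2
    have h3 := FinRes.betti_nonneg R (i + 1)
    rw [Finset.sum_const_zero] at h2
    linarith
  obtain rfl | ⟨k, rfl⟩ : i = 0 ∨ ∃ k, i = k + 1 := by
    cases i with
    | zero => exact Or.inl rfl
    | succ k => exact Or.inr ⟨k, rfl⟩
  · simpa only [ES.alt_zero] using hup
  · have hk : ∀ q, (RM q).betti k = 0 := fun q => h0 q k rfl
    have hlow : ES.alt R.betti k = ∑ q, ES.alt (RM q).betti k := by
      refine le_antisymm (hA k) ?_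
      cases k with
      | zero =>
        simp only [ES.alt_zero, hk]
        rw [Finset.sum_const_zero]
        exact FinRes.betti_nonneg R 0
      | succ l =>
        have h2 := hA l
        have h3 := FinRes.betti_nonneg R (l + 1)
        simp only [ES.alt_succ, Finset.sum_sub_distrib, hk]
        rw [Finset.sum_const_zero]
        linarith
    simp only [ES.alt_succ, Finset.sum_sub_distrib] at hup
    linarith

end strong

end Cm
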