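import Pool.Agent.Cm.Bet
import Pool.Agent.Cm.Strong

/-!
# The mirror inequality with mixed bounds

* `exists_res_mir` : the mirrored groups have resolutions;
* `le_of_bounds` : the inequality for the cell complexes, for each vertex of the family the number `c j` is a bound from
  the class `Bet` or the `ℓ²`-Betti number of the mirrored group.
-/

set_option autoImplicit false

namespace Cm

open Npc (Median GraphAct Orb Cof)
open Singer CubeComplex

/-- the mirrored groups have resolutions by finitely generated projective modules over `ℂ[Γ]` -/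
theorem exists_res_mir {Γ X : Type} [Group Γ] [MulAction Γ X] {M : SimpleGraph X} (h : CubicalAction Γ M) (v : X) :
    Nonempty (Res.{0} (MirGroup Γ M v)) := by
  have hA : GraphAct Γ M := graphAct_of h
  have hX : Median M := median_of h.median
  obtain ⟨R⟩ := exists_rps_cub hX h
  obtain ⟨D, n, hG, hn⟩ := exists_all (cubSK hX) R
  have hn' : ∀ C : Cub M, cdim hX C < n := hn
  obtain ⟨T, -⟩ := cub_exists_resM hG hn' v
  obtain ⟨e⟩ := exists_mEquiv hG hn' v
  obtain ⟨T', -⟩ := Res.exists_iso e T
  exact ⟨T'⟩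

namespace B

theorem le_of_bounds {Γ X : Type} [Group Γ] [MulAction Γ X] {M : SimpleGraph X} (hM : CubicalAction Γ M)
    {J : Type*} [Fintype J] (x : J → X) (hx : ∀ v, ∃ (j : J) (g : Γ), g • x j = v) (i : ℕ) (c : J → ℝ)
    (hc : ∀ j, Bet i (MirGroup Γ M (x j)) (c j) ∨ ∃ R : FinRes (MirGroup Γ M (x j)), c j = R.betti i) (R : FinRes Γ) :
    R.betti i ≤ ∑ j, c j := by
  obtain ⟨I, hI⟩ := exists_repr x hx
  obtain ⟨SM, h1⟩ := cm_strong hM (fun q : I => x q.1) hI
  have e : ∀ j : J, ∀ S : Res.{0} (MirGroup Γ M (x j)), S.toPreRes.toHC.h i ≤ c j := by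
    intro j S
    rcases hc j with h | ⟨R', h⟩
    · exact h.h_le S
    · rw [h, h_eq_betti S R']
  have h2 := (h1 R.toRes i).1
  rw [h_eq_betti R.toRes R] at h2
  refine h2.trans ((Finset.sum_le_sum fun q _ => e q.1 (SM q)).trans ?_)
  rw [Finset.sum_coe_sort I c]
  refine Finset.sum_le_sum_of_subset_of_nonneg (Finset.subset_univ _) fun j _ _ => ?_
  obtain ⟨S⟩ := exists_res_mir hM (x j)
  exact (HC.h_nonneg _ _).trans (e j S)

end B

end Cm
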