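import Pool.Agent.Cm.Sq
import Pool.Agent.Cm.Es

/-!
# Mirror inequality: the word map

From a height function of a square system `Q` (any valence): `wm h : P → RACG Q.C` with `wm x0 = 1`,
`wm (fl t k) = wm k * gen t`; uniqueness up to a left multiplication; the cocycle `wm (g • x0)` of an action.
-/

set_option autoImplicit false
set_option linter.unusedSectionVars false
set_option linter.unusedVariables false

namespace Cm

open Singer

section wm
variable {H P : Type*} {Q : Sq H P} {x0 : P} {ht : P → ℕ}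

open Classical in
/-- the word map -/
noncomputable def wm (h : Hgt Q x0 ht) (k : P) : RACG Q.C :=
  if hk : k = x0 then 1 else wm h (Q.fl (h.desc k hk).choose k) * Racg.gen Q.C (h.desc k hk).choose
termination_by ht k
decreasing_by exact (h.desc k hk).choose_spec.2

lemma wm_x0 (h : Hgt Q x0 ht) : wm h x0 = 1 := by
  rw [wm]
  simp

lemma Hgt.ne_x0 (h : Hgt Q x0 ht) {t : H} {k : P} (hd : ht (Q.fl t k) < ht k) : k ≠ x0 := by
  rintro rfl
  rw [h.zero] at hd
  exact absurd hd (Nat.not_lt_zero _)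

lemma wm_desc_aux (h : Hgt Q x0 ht) : ∀ (n : ℕ) (k : P), ht k = n → ∀ t ∈ Q.dir k, ht (Q.fl t k) < ht k →
    wm h k = wm h (Q.fl t k) * Racg.gen Q.C t := by
  intro n
  induction n using Nat.strong_induction_on with
  | _ n ih =>
    intro k hn t ht1 ht2
    have hk : k ≠ x0 := h.ne_x0 ht2
    set u := (h.desc k hk).choose with hu
    have hu1 : u ∈ Q.dir k := (h.desc k hk).choose_spec.1
    have hu2 : ht (Q.fl u k) < ht k := (h.desc k hk).choose_spec.2
    have e : wm h k = wm h (Q.fl u k) * Racg.gen Q.C u := by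
      rw [wm, dif_neg hk]
    by_cases htu : t = u
    · rw [e, htu]
    · have ha : Q.C.Adj t u := h.adj t u k ht1 hu1 htu ht2 hu2
      have hb : Q.C.Adj u t := ha.symm
      have i1 : t ∈ Q.dir (Q.fl u k) := Q.dir_adj u t k hb hu1 ht1
      have i2 : u ∈ Q.dir (Q.fl t k) := Q.dir_adj t u k ha ht1 hu1
      have j1 : ht (Q.fl t (Q.fl u k)) < ht (Q.fl u k) := (h.inv u t k hb hu1 ht1).2 ht2
      have j2 : ht (Q.fl u (Q.fl t k)) < ht (Q.fl t k) := (h.inv t u k ha ht1 hu1).2 hu2
      have e1 := ih (ht (Q.fl u k)) (by omega) (Q.fl u k) rfl t i1 j1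
      have e2 := ih (ht (Q.fl t k)) (by omega) (Q.fl t k) rfl u i2 j2
      rw [e, e1, e2, Q.fl_comm t u k ha ht1 hu1, mul_assoc, mul_assoc, Racg.gen_comm ha]

lemma wm_desc (h : Hgt Q x0 ht) {k : P} {t : H} (h1 : t ∈ Q.dir k) (h2 : ht (Q.fl t k) < ht k) :
    wm h k = wm h (Q.fl t k) * Racg.gen Q.C t := wm_desc_aux h _ k rfl t h1 h2

/-- **the word map crosses a hyperplane by the generator** -/
theorem wm_fl (h : Hgt Q x0 ht) {k : P} {t : H} (h1 : t ∈ Q.dir k) :
    wm h (Q.fl t k) = wm h k * Racg.gen Q.C t := by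
  rcases h.step t k h1 with h2 | h2
  · have h3 : ht (Q.fl t (Q.fl t k)) < ht (Q.fl t k) := by
      rw [Q.fl_fl t k h1]
      omega
    have h4 := wm_desc h (Q.dir_self t k h1) h3
    rwa [Q.fl_fl t k h1] at h4
  · have h3 : ht (Q.fl t k) < ht k := by omega
    rw [wm_desc h h1 h3, mul_assoc, Racg.gen_mul_gen, mul_one]

/-- induction along the descents -/
theorem Hgt.induction (h : Hgt Q x0 ht) {p : P → Prop} (h0 : p x0)
    (h1 : ∀ t k, t ∈ Q.dir k → p k → p (Q.fl t k)) (k : P) : p k := by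
  suffices H : ∀ (n : ℕ) (k : P), ht k = n → p k from H _ k rfl
  intro n
  induction n using Nat.strong_induction_on with
  | _ n ih =>
    intro k hn
    by_cases hk : k = x0
    · rw [hk]
      exact h0
    · obtain ⟨t, ht1, ht2⟩ := h.desc k hk
      have h2 := h1 t (Q.fl t k) (Q.dir_self t k ht1) (ih _ (by omega) _ rfl)
      rwa [Q.fl_fl t k ht1] at h2

/-- two maps which cross hyperplanes by the generators differ by a left multiplication -/
theorem wm_unique (h : Hgt Q x0 ht) {w w' : P → RACG Q.C}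
    (hw : ∀ t k, t ∈ Q.dir k → w (Q.fl t k) = w k * Racg.gen Q.C t)
    (hw' : ∀ t k, t ∈ Q.dir k → w' (Q.fl t k) = w' k * Racg.gen Q.C t) (k : P) :
    w' k = w' x0 * (w x0)⁻¹ * w k := by
  refine h.induction (p := fun k => w' k = w' x0 * (w x0)⁻¹ * w k) ?_ ?_ k
  · rw [inv_mul_cancel_right]
  · intro t k ht1 ih
    rw [hw t k ht1, hw' t k ht1, ih, mul_assoc _ (w k)]

/-- the word map with values in the group of a graph which is equal to the crossing graph -/
theorem exists_wm (h : Hgt Q x0 ht) {C : SimpleGraph H} (hC : C = Q.C) :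
    ∃ w : P → RACG C, w x0 = 1 ∧ ∀ t k, t ∈ Q.dir k → w (Q.fl t k) = w k * Racg.gen C t := by
  subst hC
  exact ⟨wm h, wm_x0 h, fun t k h1 => wm_fl h h1⟩

end wm

section act
variable {H G P : Type*} [Group G] [MulAction G H] [MulAction G P] {S : Hyp H G} {F : Type*} [AddCommGroup F]

/-- the word map of a cell system -/
theorem ES.exists_w {E : ℕ → Type*} [∀ j, MulAction G (E j)] (X : ES S P E) {Q : Sq H P} {x0 : P} {ht : P → ℕ}
    (h : Hgt Q x0 ht) (hC : S.C = Q.C) (hd : ∀ k, X.dr k = Q.dir k) (hf : ∀ t k, t ∈ Q.dir k → X.fl t k = Q.fl t k) :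
    ∃ w : P → RACG S.C, w x0 = 1 ∧ ∀ {j} (e : E j) t k, t ∈ X.T e → k ∈ X.V e → w (X.fl t k) = w k * Racg.gen S.C t := by
  obtain ⟨w, h1, h2⟩ := exists_wm h hC
  refine ⟨w, h1, fun e t k ht hk => ?_⟩
  have h3 : t ∈ Q.dir k := hd k ▸ X.T_dr e t k ht hk
  rw [hf t k h3, h2 t k h3]

/-- the action of `G` on the right-angled Coxeter group -/
noncomputable def gW (S : Hyp H G) (g : G) : RACG S.C →* RACG S.C :=
  Racg.map (fun t => g • t) (fun u v h => (S.adj g u v).2 h)

@[simp] lemma gW_gen (g : G) (t : H) : gW S g (Racg.gen S.C t) = Racg.gen S.C (g • t) := Racg.map_gen _ _ _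

lemma gW_one (x : RACG S.C) : gW S (1 : G) x = x := by
  have h : gW S (1 : G) = MonoidHom.id _ := Racg.hom_ext fun v => by
    rw [gW_gen, one_smul, MonoidHom.id_apply]
  rw [h, MonoidHom.id_apply]

lemma gW_mul (g g' : G) (x : RACG S.C) : gW S (g * g') x = gW S g (gW S g' x) := by
  have h : gW S (g * g') = (gW S g).comp (gW S g') := Racg.hom_ext fun v => by
    rw [MonoidHom.comp_apply, gW_gen, gW_gen, gW_gen, mul_smul]
  rw [h, MonoidHom.comp_apply]

lemma pw_smul' (g : G) (n : NN S F) : pw (g • n) = gW S g (pw n) := rfl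

/-- **the word map is equivariant up to the cocycle** -/
theorem w_smul {Q : Sq H P} {x0 : P} {ht : P → ℕ} (h : Hgt Q x0 ht)
    (hds : ∀ (g : G) t k, g • t ∈ Q.dir (g • k) ↔ t ∈ Q.dir k)
    (hfs : ∀ (g : G) t k, t ∈ Q.dir k → Q.fl (g • t) (g • k) = g • Q.fl t k)
    {w : P → RACG S.C} (h0 : w x0 = 1) (hw : ∀ t k, t ∈ Q.dir k → w (Q.fl t k) = w k * Racg.gen S.C t) (g : G) (k : P) :
    w (g • k) = w (g • x0) * gW S g (w k) := by
  refine h.induction (p := fun k => w (g • k) = w (g • x0) * gW S g (w k)) ?_ ?_ k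
  · rw [h0, map_one, mul_one]
  · intro t k ht1 ih
    rw [← hfs g t k ht1, hw _ _ ((hds g t k).2 ht1), ih, hw _ _ ht1, map_mul, gW_gen, mul_assoc]

end act

end Cm
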