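import Pool.Agent.Cm.EndM
import Pool.Agent.Cm.EndG
import Pool.Agent.Cm.DimC
import Pool.Agent.Cm.Wm
import Pool.Agent.Cm.ResE2
import Pool.Agent.Cm.ResM2
import Pool.Agent.Cm.CubES

/-!
# Mirror inequality: the inequality for the cell systems over a median graph
-/

set_option autoImplicit false
set_option linter.unusedSectionVars false
set_option linter.unusedVariables false

open scoped ComplexConjugate InnerProductSpace
open Filter Topology

namespace Cm

open Singer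
open Npc (Cof St vd Orb Median GraphAct dirSet)

namespace ES
variable {H G : Type*} [Group G] [MulAction G H] {S : Hyp H G}
variable {P : Type*} {E : ℕ → Type*} [MulAction G P] [∀ j, MulAction G (E j)] (X : ES S P E) [∀ j, Cof G (E j)]

/-- **the mirror inequality** of a cell system -/
theorem bE_le {τ : Type*} [Fintype τ] {x : τ → P} (hx : ∀ k, ∃! q, ∃ g : G, g • x q = k) {w : P → RACG S.C}
    (hw : ∀ {j} (e : E j) t k, t ∈ X.T e → k ∈ X.V e → w (X.fl t k) = w k * Racg.gen S.C t)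
    (hc : ∀ {j} (e : E j) t u k, t ∈ X.T e → u ∈ X.T e → k ∈ X.V e → X.fl t (X.fl u k) = X.fl u (X.fl t k)) (i : ℕ) :
    X.bE i ≤ ∑ q, X.bx (x q) i :=
  X.bE_le_of x (fun N _ j => X.vd_Cyc_g (ZMod N) hw j) (fun N _ j => X.vd_Ch_g (ZMod N) hw j)
    (fun N _ j => X.vd_Cyc_m hx (ZMod N) j) (fun N _ j => X.vd_Ch_m hx (ZMod N) j)
    (fun j => X.vd_Ch_m_le (ZMod 1) hc j) i

/-- **the strong inequalities** of a cell system -/
theorem alt_bE_le {τ : Type*} [Fintype τ] {x : τ → P} (hx : ∀ k, ∃! q, ∃ g : G, g • x q = k) {w : P → RACG S.C}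
    (hw : ∀ {j} (e : E j) t k, t ∈ X.T e → k ∈ X.V e → w (X.fl t k) = w k * Racg.gen S.C t)
    (hc : ∀ {j} (e : E j) t u k, t ∈ X.T e → u ∈ X.T e → k ∈ X.V e → X.fl t (X.fl u k) = X.fl u (X.fl t k)) (i : ℕ) :
    alt X.bE i ≤ ∑ q, alt (X.bx (x q)) i :=
  X.alt_le_of x (fun N _ j => X.vd_Cyc_g (ZMod N) hw j) (fun N _ j => X.vd_Ch_g (ZMod N) hw j)
    (fun N _ j => X.vd_Cyc_m hx (ZMod N) j) (fun N _ j => X.vd_Ch_m hx (ZMod N) j)
    (fun j => X.vd_Ch_m_le (ZMod 1) hc j) i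

end ES

section med
variable {P : Type*} {M : SimpleGraph P} {G : Type*} [Group G] [MulAction G P] [hA : GraphAct G M] {hM : Median M}
variable {R : Rps G (Cub M)} {D : R.I → (R.E →₀ ℤ)} {n : ℕ}

/-- **the mirror inequality** for the cells over the cubes of a median graph -/
theorem cub_bE_le (hG : Good (cubSK hM) R D n) (hn : ∀ C : Cub M, cdim hM C < n) {τ : Type*} [Fintype τ] {x : τ → P}
    (hx : ∀ k, ∃! q, ∃ g : G, g • x q = k) (i : ℕ) : (cubES hG hn).bE i ≤ ∑ q, (cubES hG hn).bx (x q) i := by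
  obtain ⟨x0⟩ := hM.conn.nonempty
  obtain ⟨w, -, hw⟩ := (cubES hG hn).exists_w (medSq_hgt hM x0) rfl (fun _ => rfl) fun _ _ _ => rfl
  exact (cubES hG hn).bE_le hx hw (fun e t u k ht hu hk => cubES_comm hG hn e t u k ht hu hk) i

/-- the `ℓ²`-Betti numbers of the group are at most the sum of the numbers of the vertices -/
theorem h_le_bx (hG : Good (cubSK hM) R D n) (hn : ∀ C : Cub M, cdim hM C < n) {τ : Type*} [Fintype τ] {x : τ → P}
    (hx : ∀ k, ∃! q, ∃ g : G, g • x q = k) (Rs : Singer.Res.{0} G) (i : ℕ) :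
    Rs.toPreRes.toHC.h i ≤ ∑ q, (cubES hG hn).bx (x q) i := by
  rw [ES.h_eq_bE (exactOf (cubES hG hn) (fun _ _ => rfl) hG hn) Rs i]
  exact cub_bE_le hG hn hx i

/-- **the strong inequalities** for the cells over the cubes of a median graph -/
theorem cub_alt_le (hG : Good (cubSK hM) R D n) (hn : ∀ C : Cub M, cdim hM C < n) {τ : Type*} [Fintype τ] {x : τ → P}
    (hx : ∀ k, ∃! q, ∃ g : G, g • x q = k) (i : ℕ) :
    ES.alt (cubES hG hn).bE i ≤ ∑ q, ES.alt ((cubES hG hn).bx (x q)) i := by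
  obtain ⟨x0⟩ := hM.conn.nonempty
  obtain ⟨w, -, hw⟩ := (cubES hG hn).exists_w (medSq_hgt hM x0) rfl (fun _ => rfl) fun _ _ _ => rfl
  exact (cubES hG hn).alt_bE_le hx hw (fun e t u k ht hu hk => cubES_comm hG hn e t u k ht hu hk) i

/-- the strong inequalities for the `ℓ²`-Betti numbers of the group -/
theorem h_alt_le_bx (hG : Good (cubSK hM) R D n) (hn : ∀ C : Cub M, cdim hM C < n) {τ : Type*} [Fintype τ] {x : τ → P}
    (hx : ∀ k, ∃! q, ∃ g : G, g • x q = k) (Rs : Singer.Res.{0} G) (i : ℕ) :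
    ES.alt Rs.toPreRes.toHC.h i ≤ ∑ q, ES.alt ((cubES hG hn).bx (x q)) i := by
  have h : Rs.toPreRes.toHC.h = (cubES hG hn).bE := funext fun i =>
    ES.h_eq_bE (exactOf (cubES hG hn) (fun _ _ => rfl) hG hn) Rs i
  rw [h]
  exact cub_alt_le hG hn hx i

end med

end Cm
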