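import Pool.Agent.Cm.Lin
import Pool.Agent.Singer.FinStmt

/-!
# Exactness of resolutions with coefficients in a torsion-free group

For a resolution `R : FinRes S`: `rm R q : S × ι (q + 1) → (S × ι q →₀ ℤ)`, the boundary of the basis elements.
`ex_coef`, `ex_coef_zero` : the complex of the functions `S × ι q →₀ M` is exact for torsion-free `M`, and the values of the
solution are in the subgroup generated by the values of the given function.
-/

set_option autoImplicit false
set_option linter.unusedSectionVars false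
set_option linter.unusedVariables false

open scoped Matrix

namespace Cm

open Singer

section mat
variable {S : Type*} [Group S] {ι κ μ : Type*} [Fintype ι] [Fintype κ] [Fintype μ]

/-- the functions on `S × ι` as rows -/
noncomputable def toF (x : ι → MonoidAlgebra ℤ S) : S × ι →₀ ℤ := ∑ i, (x i).coeff.mapDomain fun g => (g, i)

lemma toF_add (x y : ι → MonoidAlgebra ℤ S) : toF (x + y) = toF x + toF y := by
  unfold toF
  rw [← Finset.sum_add_distrib]
  refine Finset.sum_congr rfl fun i _ => ?_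
  rw [Pi.add_apply, MonoidAlgebra.coeff_add, Finsupp.mapDomain_add]

lemma toF_zero : toF (0 : ι → MonoidAlgebra ℤ S) = 0 := by
  unfold toF
  refine Finset.sum_eq_zero fun i _ => ?_
  rw [Pi.zero_apply, MonoidAlgebra.coeff_zero, Finsupp.mapDomain_zero]

lemma toF_apply (x : ι → MonoidAlgebra ℤ S) (g : S) (i : ι) : toF x (g, i) = (x i).coeff g := by
  classical
  unfold toF
  rw [Finsupp.finsetSum_apply, Finset.sum_eq_single i]
  · exact Finsupp.mapDomain_apply (fun a b h => (Prod.ext_iff.1 h).1) _ g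
  · intro j _ hj
    refine Finsupp.mapDomain_of_notMem_range _ _ ?_
    rintro ⟨h, hh⟩
    exact hj (Prod.ext_iff.1 hh).2
  · exact fun h => absurd (Finset.mem_univ i) h

lemma toF_inj {x y : ι → MonoidAlgebra ℤ S} (h : toF x = toF y) : x = y := by
  funext i
  refine MonoidAlgebra.ext (Finsupp.ext fun g => ?_)
  exact (toF_apply x g i).symm.trans ((DFunLike.congr_fun h (g, i)).trans (toF_apply y g i))

lemma toF_single [DecidableEq ι] (g : S) (i : ι) (k : ℤ) :
    toF (Pi.single i (MonoidAlgebra.single g k)) = Finsupp.single (g, i) k := by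
  classical
  ext ⟨h, l⟩
  rw [toF_apply, Finsupp.single_apply]
  by_cases h1 : l = i
  · subst h1
    rw [Pi.single_eq_same, MonoidAlgebra.coeff_single, Finsupp.single_apply]
    by_cases h2 : g = h
    · rw [if_pos h2, if_pos (by rw [h2])]
    · rw [if_neg h2, if_neg fun h3 => h2 (Prod.ext_iff.1 h3).1]
  · rw [Pi.single_eq_of_ne h1, if_neg fun h3 => h1 (Prod.ext_iff.1 h3).2.symm]
    rfl

/-- every function is a row -/
lemma toF_surj (f : S × ι →₀ ℤ) : ∃ x : ι → MonoidAlgebra ℤ S, toF x = f := by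
  classical
  induction f using Finsupp.induction_linear with
  | zero => exact ⟨0, toF_zero⟩
  | add f g hf hg =>
    obtain ⟨x, rfl⟩ := hf
    obtain ⟨y, rfl⟩ := hg
    exact ⟨x + y, toF_add x y⟩
  | single e k => exact ⟨Pi.single e.2 (MonoidAlgebra.single e.1 k), toF_single _ _ _⟩

open Classical in
/-- induction for rows -/
lemma row_induction {p : (ι → MonoidAlgebra ℤ S) → Prop} (h0 : p 0) (ha : ∀ x y, p x → p y → p (x + y))
    (hs : ∀ i g k, p (Pi.single i (MonoidAlgebra.single g k))) (x : ι → MonoidAlgebra ℤ S) : p x := by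
  have key : ∀ f : S × ι →₀ ℤ, ∀ x : ι → MonoidAlgebra ℤ S, toF x = f → p x := by
    intro f
    induction f using Finsupp.induction_linear with
    | zero =>
      intro x hx
      rw [toF_inj (hx.trans toF_zero.symm)]
      exact h0
    | add f g hf hg =>
      intro x hx
      obtain ⟨y, hy⟩ := toF_surj f
      obtain ⟨z, hz⟩ := toF_surj g
      have h1 : x = y + z := toF_inj (by rw [hx, toF_add, hy, hz])
      rw [h1]
      exact ha y z (hf y hy) (hg z hz)
    | single e k =>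
      intro x hx
      have h1 : x = Pi.single e.2 (MonoidAlgebra.single e.1 k) := toF_inj (by rw [hx, toF_single])
      rw [h1]
      exact hs _ _ _
  exact key _ x rfl

/-- the image of a basis element -/
noncomputable def mx (A : Matrix ι κ (MonoidAlgebra ℤ S)) (x : S × ι) : S × κ →₀ ℤ :=
  ∑ l, (A x.2 l).coeff.mapDomain fun γ => (x.1 * γ, l)

lemma coeff_single_mul (g : S) (k : ℤ) (y : MonoidAlgebra ℤ S) :
    (MonoidAlgebra.single g k * y).coeff = k • y.coeff.mapDomain fun γ => g * γ := by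
  classical
  induction y using MonoidAlgebra.induction_linear with
  | zero => rw [mul_zero, MonoidAlgebra.coeff_zero, Finsupp.mapDomain_zero, smul_zero]
  | add y z hy hz =>
    rw [mul_add, MonoidAlgebra.coeff_add, hy, hz, MonoidAlgebra.coeff_add, Finsupp.mapDomain_add, smul_add]
  | single h l =>
    rw [MonoidAlgebra.single_mul_single, MonoidAlgebra.coeff_single, MonoidAlgebra.coeff_single,
      Finsupp.mapDomain_single, Finsupp.smul_single, smul_eq_mul]

lemma toF_vecMul (A : Matrix ι κ (MonoidAlgebra ℤ S)) (x : ι → MonoidAlgebra ℤ S) :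
    toF (x ᵥ* A) = lin (mx A) (toF x) := by
  classical
  induction x using row_induction with
  | h0 => rw [Matrix.zero_vecMul, toF_zero, toF_zero, map_zero]
  | ha x y hx hy => rw [Matrix.add_vecMul, toF_add, hx, hy, toF_add, map_add]
  | hs i g k =>
    rw [toF_single, lin_single]
    unfold toF mx
    ext y
    rw [ms_apply, Finsupp.finsetSum_apply, Finsupp.finsetSum_apply, smul_eq_mul, Finset.sum_mul]
    refine Finset.sum_congr rfl fun l _ => ?_
    rw [Matrix.single_vecMul, Pi.smul_apply, smul_eq_mul]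
    change ((MonoidAlgebra.single g k * A i l).coeff.mapDomain fun g => (g, l)) y = _
    rw [coeff_single_mul, Finsupp.mapDomain_smul, ← Finsupp.mapDomain_comp, Finsupp.smul_apply, smul_eq_mul, mul_comm]
    rfl

/-- the augmentation as a matrix -/
noncomputable def am (w : ι → ℤ) (x : S × ι) : Unit →₀ ℤ := Finsupp.single () (w x.2)

lemma augw_eq (w : ι → ℤ) (x : ι → MonoidAlgebra ℤ S) : Finsupp.single () (augw w x) = lin (am w) (toF x) := by
  classical
  have hsum : ∀ a : MonoidAlgebra ℤ S, ∑ g ∈ a.coeff.support, a.coeff g = a.coeff.sum fun _ k => k := fun a => rfl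
  induction x using row_induction with
  | h0 =>
    rw [toF_zero, map_zero, Finsupp.single_eq_zero]
    unfold augw
    exact Finset.sum_eq_zero fun i _ => by rw [Pi.zero_apply, MonoidAlgebra.coeff_zero]; simp
  | ha x y hx hy =>
    rw [toF_add, map_add, ← hx, ← hy, ← Finsupp.single_add]
    congr 1
    unfold augw
    rw [← Finset.sum_add_distrib]
    refine Finset.sum_congr rfl fun i _ => ?_
    rw [hsum, hsum, hsum, Pi.add_apply, MonoidAlgebra.coeff_add, Finsupp.sum_add_index' (fun _ => rfl) fun _ _ _ => rfl,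
      mul_add]
  | hs i g k =>
    rw [toF_single, lin_single]
    unfold am augw
    rw [ms_single, Finset.sum_eq_single i, Pi.single_eq_same, hsum, MonoidAlgebra.coeff_single,
      Finsupp.sum_single_index rfl]
    · rfl
    · intro j _ hj
      rw [Pi.single_eq_of_ne hj, MonoidAlgebra.coeff_zero]
      simp
    · exact fun h => absurd (Finset.mem_univ i) h

end mat

section coef
variable {M : Type*} [AddCommGroup M] [IsAddTorsionFree M]

/-- a function with finite support and values in a torsion-free group is a combination of integral functions with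
independent coefficients in the subgroup generated by the values -/
lemma exists_dec {E : Type*} (f : E →₀ M) : ∃ (n : ℕ) (b : Fin n → M) (x : Fin n → (E →₀ ℤ)), LinearIndependent ℤ b ∧
    (∀ s, b s ∈ AddSubgroup.closure (Set.range f)) ∧ f = ∑ s, ms (b s) (x s) := by
  classical
  let N : Submodule ℤ M := Submodule.span ℤ (Set.range f)
  have hfin : (Set.range f).Finite := f.finite_range
  have : Module.Finite ℤ N := Module.Finite.span_of_finite ℤ hfin
  have : Module.Free ℤ N := inferInstance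
  let B := Module.finBasis ℤ N
  let v : E → N := fun e => ⟨f e, Submodule.subset_span ⟨e, rfl⟩⟩
  refine ⟨_, fun s => (B s : M), fun s => Finsupp.onFinset f.support (fun e => B.repr (v e) s) ?_, ?_, ?_, ?_⟩
  · intro e he
    rw [Finsupp.mem_support_iff]
    intro h0
    apply he
    have : v e = 0 := Subtype.ext h0
    rw [this, map_zero, Finsupp.zero_apply]
  · exact B.linearIndependent.map' N.subtype (Submodule.ker_subtype N)
  · intro s
    have h1 := (B s).2
    have h2 : N.toAddSubgroup = AddSubgroup.closure (Set.range f) := Submodule.span_int_eq_addSubgroupClosure _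
    rw [← h2]
    exact h1
  · ext e
    rw [Finsupp.finsetSum_apply]
    have h1 := congrArg (Subtype.val) (B.sum_repr (v e))
    rw [AddSubmonoidClass.coe_finsetSum] at h1
    refine h1.symm.trans (Finset.sum_congr rfl fun s _ => ?_)
    rw [ms_apply, Finsupp.onFinset_apply]
    rfl

variable {S : Type*} [Group S] {ι κ μ : Type*} [Fintype ι] [Fintype κ] [Fintype μ]

lemma ms_sum_eq_zero {E : Type*} {n : ℕ} {b : Fin n → M} (hb : LinearIndependent ℤ b) {x : Fin n → (E →₀ ℤ)}
    (h : ∑ s, ms (b s) (x s) = 0) (s : Fin n) : x s = 0 := by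
  ext e
  have h1 := DFunLike.congr_fun h e
  rw [Finsupp.finsetSum_apply] at h1
  simp only [ms_apply] at h1
  exact Fintype.linearIndependent_iff.1 hb _ h1 s

lemma lin_sum_ms {E F : Type*} (β : E → F →₀ ℤ) {n : ℕ} (b : Fin n → M) (x : Fin n → (E →₀ ℤ)) :
    lin β (∑ s, ms (b s) (x s)) = ∑ s, ms (b s) (lin β (x s)) := by
  rw [map_sum]
  exact Finset.sum_congr rfl fun s _ => lin_ms _ _ _

lemma sum_ms_mem {E : Type*} {V : AddSubgroup M} {n : ℕ} {b : Fin n → M} (hb : ∀ s, b s ∈ V) (x : Fin n → (E →₀ ℤ))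
    (e : E) : (∑ s, ms (b s) (x s)) e ∈ V := by
  rw [Finsupp.finsetSum_apply]
  refine AddSubgroup.sum_mem _ fun s _ => ?_
  rw [ms_apply]
  exact V.zsmul_mem (hb s) _

/-- base change of exactness -/
theorem base_ex {A : Matrix ι κ (MonoidAlgebra ℤ S)} {B : Matrix μ ι (MonoidAlgebra ℤ S)}
    (hex : ∀ x : ι → MonoidAlgebra ℤ S, x ᵥ* A = 0 → ∃ y, y ᵥ* B = x) {c : S × ι →₀ M} (h0 : lin (mx A) c = 0) :
    ∃ b : S × μ →₀ M, lin (mx B) b = c ∧ ∀ x, b x ∈ AddSubgroup.closure (Set.range c) := by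
  obtain ⟨n, b, x, hb, hmem, hc⟩ := exists_dec c
  rw [hc, lin_sum_ms] at h0
  have h1 : ∀ s, ∃ y : S × μ →₀ ℤ, lin (mx B) y = x s := by
    intro s
    obtain ⟨z, hz⟩ := toF_surj (x s)
    have h2 : z ᵥ* A = 0 := by
      refine toF_inj ?_
      rw [toF_vecMul, hz, toF_zero]
      exact ms_sum_eq_zero hb h0 s
    obtain ⟨y, hy⟩ := hex z h2
    exact ⟨toF y, by rw [← toF_vecMul, hy, hz]⟩
  choose y hy using h1
  refine ⟨∑ s, ms (b s) (y s), ?_, sum_ms_mem hmem y⟩
  rw [lin_sum_ms, hc]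
  exact Finset.sum_congr rfl fun s _ => by rw [hy]

/-- base change of exactness for the augmentation -/
theorem base_ex0 {w : ι → ℤ} {B : Matrix μ ι (MonoidAlgebra ℤ S)}
    (hex : ∀ x : ι → MonoidAlgebra ℤ S, augw w x = 0 → ∃ y, y ᵥ* B = x) {c : S × ι →₀ M} (h0 : lin (am w) c = 0) :
    ∃ b : S × μ →₀ M, lin (mx B) b = c ∧ ∀ x, b x ∈ AddSubgroup.closure (Set.range c) := by
  obtain ⟨n, b, x, hb, hmem, hc⟩ := exists_dec c
  rw [hc, lin_sum_ms] at h0
  have h1 : ∀ s, ∃ y : S × μ →₀ ℤ, lin (mx B) y = x s := by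
    intro s
    obtain ⟨z, hz⟩ := toF_surj (x s)
    have h2 : augw w z = 0 := by
      have h3 := ms_sum_eq_zero hb h0 s
      rw [← hz, ← augw_eq, Finsupp.single_eq_zero] at h3
      exact h3
    obtain ⟨y, hy⟩ := hex z h2
    exact ⟨toF y, by rw [← toF_vecMul, hy, hz]⟩
  choose y hy using h1
  refine ⟨∑ s, ms (b s) (y s), ?_, sum_ms_mem hmem y⟩
  rw [lin_sum_ms, hc]
  exact Finset.sum_congr rfl fun s _ => by rw [hy]

end coef

/-! ### induction from a subgroup -/

section ind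
variable {Γ : Type*} [Group Γ] {H : Subgroup Γ} {ι κ μ : Type*} [Fintype ι] [Fintype κ] [Fintype μ]
variable {M : Type*} [AddCommGroup M]

/-- the image of a basis element, for the induced modules -/
noncomputable def mxI (A : Matrix ι κ (MonoidAlgebra ℤ H)) (x : Γ × ι) : Γ × κ →₀ ℤ :=
  ∑ l, (A x.2 l).coeff.mapDomain fun γ : H => (x.1 * γ, l)

/-- the augmentation, with values in the cosets -/
noncomputable def amI (H : Subgroup Γ) (w : ι → ℤ) (x : Γ × ι) : (Γ ⧸ H) →₀ ℤ := Finsupp.single (x.1 : Γ ⧸ H) (w x.2)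

/-- the inclusion of a coset -/
noncomputable def jc (ι : Type*) (k : Γ ⧸ H) (x : H × ι) : Γ × ι := (k.out * x.1, x.2)

lemma jc_inj (k : Γ ⧸ H) : Function.Injective (jc ι k) := by
  rintro ⟨a, i⟩ ⟨b, j⟩ h
  obtain ⟨h1, h2⟩ := Prod.ext_iff.1 h
  exact Prod.ext (Subtype.ext (mul_left_cancel h1)) h2

lemma jc_coset (k : Γ ⧸ H) (x : H × ι) : ((jc ι k x).1 : Γ ⧸ H) = k := by
  show ((k.out * x.1 : Γ) : Γ ⧸ H) = k
  rw [QuotientGroup.mk_mul_of_mem _ x.1.2, QuotientGroup.out_eq']

lemma exists_jc (x : Γ × ι) : ∃ y, jc ι (x.1 : Γ ⧸ H) y = x := by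
  have h : ((x.1 : Γ ⧸ H).out)⁻¹ * x.1 ∈ H := by
    rw [← QuotientGroup.eq, QuotientGroup.out_eq']
  exact ⟨(⟨_, h⟩, x.2), Prod.ext (mul_inv_cancel_left _ _) rfl⟩

lemma mxI_jc (A : Matrix ι κ (MonoidAlgebra ℤ H)) (k : Γ ⧸ H) (x : H × ι) :
    mxI A (jc ι k x) = (mx A x).mapDomain (jc κ k) := by
  unfold mxI mx
  rw [Finsupp.mapDomain_finsetSum]
  refine Finset.sum_congr rfl fun l _ => ?_
  rw [← Finsupp.mapDomain_comp]
  congr 1
  funext γ
  exact Prod.ext (mul_assoc _ _ _) rfl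

lemma lin_mxI_jc (A : Matrix ι κ (MonoidAlgebra ℤ H)) (k : Γ ⧸ H) (f : H × ι →₀ M) :
    lin (mxI A) (f.mapDomain (jc ι k)) = (lin (mx A) f).mapDomain (jc κ k) := by
  rw [lin_mapDomain, mapDomain_lin]
  exact lin_congr fun x _ => mxI_jc A k x

/-- the restriction to a coset -/
noncomputable def rc (k : Γ ⧸ H) (f : Γ × ι →₀ M) : H × ι →₀ M := f.comapDomain (jc ι k) (jc_inj k).injOn

lemma rc_apply (k : Γ ⧸ H) (f : Γ × ι →₀ M) (x : H × ι) : rc k f x = f (jc ι k x) := rfl

lemma mapDomain_jc_self (k : Γ ⧸ H) (f : H × ι →₀ M) (x : H × ι) : f.mapDomain (jc ι k) (jc ι k x) = f x :=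
  Finsupp.mapDomain_apply (jc_inj k) f x

lemma mapDomain_jc_ne {k k' : Γ ⧸ H} (h : k ≠ k') (f : H × ι →₀ M) (x : H × ι) :
    f.mapDomain (jc ι k) (jc ι k' x) = 0 := by
  refine Finsupp.mapDomain_of_notMem_range _ _ ?_
  rintro ⟨y, hy⟩
  apply h
  rw [← jc_coset k y, hy, jc_coset]

open Classical in
lemma sum_jc (s : Finset (Γ ⧸ H)) (f : (Γ ⧸ H) → (H × ι →₀ M)) (k : Γ ⧸ H) (x : H × ι) :
    (∑ k' ∈ s, (f k').mapDomain (jc ι k')) (jc ι k x) = if k ∈ s then f k x else 0 := by
  rw [Finsupp.finsetSum_apply]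
  split_ifs with hc
  · rw [Finset.sum_eq_single_of_mem k hc fun k' _ hk' => mapDomain_jc_ne hk' _ _, mapDomain_jc_self]
  · refine Finset.sum_eq_zero fun k' hk' => mapDomain_jc_ne (fun h => hc ?_) _ _
    rw [← h]
    exact hk'

open Classical in
/-- the cosets of the support -/
noncomputable def cs (H : Subgroup Γ) (f : Γ × ι →₀ M) : Finset (Γ ⧸ H) := f.support.image fun x => (x.1 : Γ ⧸ H)

lemma rc_eq_zero {f : Γ × ι →₀ M} {k : Γ ⧸ H} (h : k ∉ cs H f) : rc k f = 0 := by
  classical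
  ext y
  rw [rc_apply]
  by_contra h1
  exact h (Finset.mem_image.2 ⟨_, Finsupp.mem_support_iff.2 h1, jc_coset k y⟩)

lemma eq_sum_rc (f : Γ × ι →₀ M) : f = ∑ k ∈ cs H f, (rc k f).mapDomain (jc ι k) := by
  classical
  ext x
  obtain ⟨y, hy⟩ := exists_jc (H := H) x
  rw [← hy, sum_jc]
  split_ifs with hc
  · rfl
  · exact DFunLike.congr_fun (rc_eq_zero hc) y

lemma rc_lin (A : Matrix ι κ (MonoidAlgebra ℤ H)) (k : Γ ⧸ H) (f : Γ × ι →₀ M) :
    rc k (lin (mxI A) f) = lin (mx A) (rc k f) := by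
  classical
  ext x
  rw [rc_apply]
  conv_lhs => rw [eq_sum_rc (H := H) f, map_sum]
  simp only [lin_mxI_jc]
  rw [sum_jc (cs H f) (fun k => lin (mx A) (rc k f)) k x]
  split_ifs with hc
  · rfl
  · rw [rc_eq_zero hc, map_zero, Finsupp.zero_apply]

lemma lin_amI_jc (w : ι → ℤ) (k' : Γ ⧸ H) (g : H × ι →₀ M) : lin (amI H w) (g.mapDomain (jc ι k')) =
    Finsupp.single k' (lin (am w) g ()) := by
  rw [lin_mapDomain]
  induction g using Finsupp.induction_linear with
  | zero => simp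
  | add f g hf hg => rw [map_add, hf, hg, ← Finsupp.single_add, (lin (am w)).map_add f g, Finsupp.add_apply]
  | single e m =>
    rw [lin_single, lin_single]
    unfold amI am
    rw [jc_coset, ms_single, ms_single, Finsupp.single_eq_same]
    rfl

lemma rc_am (w : ι → ℤ) (k : Γ ⧸ H) (f : Γ × ι →₀ M) :
    lin (am w) (rc k f) = Finsupp.single () (lin (amI H w) f k) := by
  classical
  refine Finsupp.ext fun u => ?_
  rw [Finsupp.single_eq_same]
  conv_rhs => rw [eq_sum_rc (H := H) f, map_sum, Finsupp.finsetSum_apply]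
  simp only [lin_amI_jc]
  by_cases hc : k ∈ cs H f
  · rw [Finset.sum_eq_single_of_mem k hc fun k' _ hk' => Finsupp.single_eq_of_ne hk'.symm, Finsupp.single_eq_same]
  · rw [Finset.sum_eq_zero, rc_eq_zero hc, (lin (am w)).map_zero, Finsupp.zero_apply]
    intro k' hk'
    refine Finsupp.single_eq_of_ne fun h => hc ?_
    rw [h]
    exact hk'

/-- from the cosets to the group -/
lemma assemble {B : Matrix μ ι (MonoidAlgebra ℤ H)} {c : Γ × ι →₀ M}
    (h : ∀ k : Γ ⧸ H, ∃ b : H × μ →₀ M, lin (mx B) b = rc k c ∧ ∀ x, b x ∈ AddSubgroup.closure (Set.range (rc k c))) :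
    ∃ b : Γ × μ →₀ M, lin (mxI B) b = c ∧
      ∀ g i, b (g, i) ∈ AddSubgroup.closure {m | ∃ (γ : H) (l : ι), m = c (g * γ, l)} := by
  classical
  choose b hb hmem using h
  refine ⟨∑ k ∈ cs H c, (b k).mapDomain (jc μ k), ?_, fun g i => ?_⟩
  · rw [map_sum]
    conv_rhs => rw [eq_sum_rc (H := H) c]
    exact Finset.sum_congr rfl fun k _ => by rw [lin_mxI_jc, hb]
  · obtain ⟨y, hy⟩ := exists_jc (H := H) (g, i)
    rw [← hy, sum_jc]
    set k : Γ ⧸ H := (((g, i) : Γ × μ).1 : Γ ⧸ H) with hk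
    split_ifs with hc
    · refine AddSubgroup.closure_mono ?_ (hmem k y)
      rintro _ ⟨⟨γ, l⟩, rfl⟩
      have h2 : g⁻¹ * (k.out * γ) ∈ H := by
        rw [← QuotientGroup.eq]
        exact (jc_coset (ι := ι) k (γ, l)).symm
      refine ⟨⟨_, h2⟩, l, ?_⟩
      show c (k.out * γ, l) = c (g * (g⁻¹ * (k.out * γ)), l)
      rw [mul_inv_cancel_left]
    · exact AddSubgroup.zero_mem _

/-- the augmentation is onto -/
theorem ind_surj {w : ι → ℤ} (hs : ∃ x : ι → MonoidAlgebra ℤ H, augw w x = 1) (u : (Γ ⧸ H) →₀ M) :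
    ∃ c : Γ × ι →₀ M, lin (amI H w) c = u ∧
      ∀ (g : Γ) (i : ι), c (g, i) ∈ AddSubgroup.closure {u (QuotientGroup.mk g : Γ ⧸ H)} := by
  classical
  obtain ⟨x, hx⟩ := hs
  refine ⟨∑ k ∈ u.support, (ms (u k) (toF x)).mapDomain (jc ι k), ?_, fun g i => ?_⟩
  · rw [map_sum]
    simp only [lin_amI_jc, lin_ms, ← augw_eq, hx]
    conv_rhs => rw [← Finsupp.sum_single u]
    refine Finset.sum_congr rfl fun k _ => ?_
    rw [ms_single, Finsupp.single_eq_same, one_smul]
  · obtain ⟨y, hy⟩ := exists_jc (H := H) (g, i)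
    rw [← hy, sum_jc u.support (fun k => ms (u k) (toF x))]
    have h1 : u (QuotientGroup.mk g : Γ ⧸ H) ∈ AddSubgroup.closure {u (QuotientGroup.mk g : Γ ⧸ H)} :=
      AddSubgroup.subset_closure (Set.mem_singleton _)
    split_ifs with hc
    · rw [ms_apply]
      exact AddSubgroup.zsmul_mem _ h1 _
    · exact AddSubgroup.zero_mem _

variable [IsAddTorsionFree M]

/-- exactness of the induced complex -/
theorem ind_ex {A : Matrix ι κ (MonoidAlgebra ℤ H)} {B : Matrix μ ι (MonoidAlgebra ℤ H)}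
    (hex : ∀ x : ι → MonoidAlgebra ℤ H, x ᵥ* A = 0 → ∃ y, y ᵥ* B = x) {c : Γ × ι →₀ M} (h0 : lin (mxI A) c = 0) :
    ∃ b : Γ × μ →₀ M, lin (mxI B) b = c ∧
      ∀ g i, b (g, i) ∈ AddSubgroup.closure {m | ∃ (γ : H) (l : ι), m = c (g * γ, l)} := by
  refine assemble fun k => base_ex hex ?_
  rw [← rc_lin, h0]
  ext x
  rw [rc_apply]
  rfl

/-- exactness of the induced complex in degree `0` -/
theorem ind_ex0 {w : ι → ℤ} {B : Matrix μ ι (MonoidAlgebra ℤ H)}
    (hex : ∀ x : ι → MonoidAlgebra ℤ H, augw w x = 0 → ∃ y, y ᵥ* B = x) {c : Γ × ι →₀ M} (h0 : lin (amI H w) c = 0) :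
    ∃ b : Γ × μ →₀ M, lin (mxI B) b = c ∧
      ∀ g i, b (g, i) ∈ AddSubgroup.closure {m | ∃ (γ : H) (l : ι), m = c (g * γ, l)} := by
  refine assemble fun k => base_ex0 hex ?_
  rw [rc_am, h0, Finsupp.zero_apply, Finsupp.single_zero]

omit [IsAddTorsionFree M]

/-- translation of the image of a basis element -/
lemma mxI_mul (A : Matrix ι κ (MonoidAlgebra ℤ H)) (g : Γ) (x : Γ × ι) :
    mxI A (g * x.1, x.2) = (mxI A x).mapDomain fun y => (g * y.1, y.2) := by
  unfold mxI
  rw [Finsupp.mapDomain_finsetSum]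
  refine Finset.sum_congr rfl fun l _ => ?_
  rw [← Finsupp.mapDomain_comp]
  congr 1
  funext γ
  exact Prod.ext (mul_assoc _ _ _) rfl

lemma mxI_supp {A : Matrix ι κ (MonoidAlgebra ℤ H)} {x : Γ × ι} {y : Γ × κ} (h : mxI A x y ≠ 0) :
    ∃ γ : H, y.1 = x.1 * γ := by
  unfold mxI at h
  rw [Finsupp.finsetSum_apply] at h
  obtain ⟨l, _, h5⟩ := Finset.exists_ne_zero_of_sum_ne_zero h
  by_contra h7
  push Not at h7
  refine h5 (Finsupp.mapDomain_of_notMem_range _ _ fun ⟨γ, hγ⟩ => h7 γ ?_)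
  rw [← hγ]

/-- the composition of two boundaries -/
theorem mxI_mxI {A : Matrix ι κ (MonoidAlgebra ℤ H)} {B : Matrix μ ι (MonoidAlgebra ℤ H)}
    (h : ∀ y : μ → MonoidAlgebra ℤ H, (y ᵥ* B) ᵥ* A = 0) (c : Γ × μ →₀ M) : lin (mxI A) (lin (mxI B) c) = 0 := by
  have h1 : ∀ f : H × μ →₀ M, lin (mx A) (lin (mx B) f) = 0 := by
    intro f
    rw [lin_lin]
    refine lin_zero_of fun x _ => ?_
    obtain ⟨y, hy⟩ := toF_surj (Finsupp.single x (1 : ℤ))
    have h2 : lin (mx B) (Finsupp.single x (1 : ℤ)) = mx B x := by rw [lin_single, ms_one]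
    rw [← h2, ← hy, ← toF_vecMul, ← toF_vecMul, h, toF_zero]
  ext x
  obtain ⟨y, hy⟩ := exists_jc (H := H) x
  rw [← hy, ← rc_apply, rc_lin, rc_lin, h1]
  rfl

/-- the augmentation of a boundary -/
theorem amI_mxI {w : ι → ℤ} {B : Matrix μ ι (MonoidAlgebra ℤ H)}
    (h : ∀ y : μ → MonoidAlgebra ℤ H, augw w (y ᵥ* B) = 0) (c : Γ × μ →₀ M) : lin (amI H w) (lin (mxI B) c) = 0 := by
  have h1 : ∀ f : H × μ →₀ M, lin (am w) (lin (mx B) f) = 0 := by
    intro f
    rw [lin_lin]
    refine lin_zero_of fun x _ => ?_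
    obtain ⟨y, hy⟩ := toF_surj (Finsupp.single x (1 : ℤ))
    have h2 : lin (mx B) (Finsupp.single x (1 : ℤ)) = mx B x := by rw [lin_single, ms_one]
    rw [← h2, ← hy, ← toF_vecMul, ← augw_eq, h, Finsupp.single_zero]
  ext k
  have h2 := rc_am (H := H) w k (lin (mxI B) c)
  rw [rc_lin, h1] at h2
  exact (Finsupp.single_eq_zero.1 h2.symm)

end ind

end Cm
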