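import Pool.Agent.Singer.ToFin

/-!
# Finite groups are of type `FP_∞`
-/

set_option autoImplicit false
set_option linter.unusedSectionVars false
set_option linter.unusedVariables false

namespace Cm.FinG

open Singer

variable (G : Type) [Group G] [Finite G]

instance instNoeth : IsNoetherianRing (ZG G) := by
  have h : Module.Finite ℤ (ZG G) := inferInstance
  have h1 : IsNoetherian ℤ (ZG G) := inferInstance
  exact isNoetherian_of_tower ℤ h1

/-- submodules are ranges -/
lemma exists_range {n : ℕ} (K : Submodule (ZG G) (Fin n → ZG G)) :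
    ∃ (m : ℕ) (d : (Fin m → ZG G) →ₗ[ZG G] (Fin n → ZG G)), LinearMap.range d = K := by
  have h : Module.Finite (ZG G) K := inferInstance
  obtain ⟨m, f, hf⟩ := Module.Finite.exists_fin' (ZG G) K
  refine ⟨m, K.subtype.comp f, ?_⟩
  rw [LinearMap.range_comp, LinearMap.range_eq_top.2 hf, Submodule.map_top, Submodule.range_subtype]

/-- a map between free modules -/
structure St where
  n : ℕ
  m : ℕ
  d : (Fin m → ZG G) →ₗ[ZG G] (Fin n → ZG G)

/-- the next map of the resolution -/
noncomputable def nxt (s : St G) : St G where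
  n := s.m
  m := (exists_range G (LinearMap.ker s.d)).choose
  d := (exists_range G (LinearMap.ker s.d)).choose_spec.choose

lemma range_nxt (s : St G) : LinearMap.range (nxt G s).d = LinearMap.ker s.d :=
  (exists_range G (LinearMap.ker s.d)).choose_spec.choose_spec

/-- the augmentation -/
noncomputable def au : ZG G →ₐ[ℤ] ℤ := MonoidAlgebra.lift ℤ ℤ G 1

lemma au_single (g : G) (n : ℤ) : au G (MonoidAlgebra.single g n) = n := by
  unfold au
  rw [MonoidAlgebra.lift_single]
  simp

/-- the augmentation submodule -/
noncomputable def K0 : Submodule (ZG G) (Fin 1 → ZG G) where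
  carrier := {x | au G (x 0) = 0}
  add_mem' {a b} ha hb := by
    show au G (a 0 + b 0) = 0
    rw [map_add, show au G (a 0) = 0 from ha, show au G (b 0) = 0 from hb, add_zero]
  zero_mem' := map_zero _
  smul_mem' r a ha := by
    show au G (r * a 0) = 0
    rw [map_mul, show au G (a 0) = 0 from ha, mul_zero]

/-- the maps of the resolution -/
noncomputable def sq : ℕ → St G
  | 0 => ⟨1, (exists_range G (K0 G)).choose, (exists_range G (K0 G)).choose_spec.choose⟩
  | i + 1 => nxt G (sq i)

/-- **finite groups are of type `FP_∞`** -/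
theorem nonempty_finRes : Nonempty (FinRes G) := by
  refine Exists.nonempty (finRes_of_lin (Γ := G) (fun i => Fin (sq G i).n) (fun i => (sq G i).d)
    ((au G : ZG G →+ ℤ).comp (Pi.evalAddMonoidHom (fun _ : Fin 1 => ZG G) 0)) ?_ ?_ ?_ ?_)
  · intro g x
    show au G (MonoidAlgebra.single g 1 * x (0 : Fin 1)) = au G (x (0 : Fin 1))
    rw [map_mul, au_single, one_mul]
  · intro n
    exact ⟨fun _ => MonoidAlgebra.single 1 n, au_single G 1 n⟩
  · intro x
    have h : LinearMap.range (sq G 0).d = K0 G := (exists_range G (K0 G)).choose_spec.choose_spec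
    constructor
    · intro hx
      have h1 : x ∈ K0 G := hx
      rw [← h] at h1
      exact h1
    · rintro ⟨y, rfl⟩
      have h1 : (sq G 0).d y ∈ LinearMap.range (sq G 0).d := ⟨y, rfl⟩
      rw [h] at h1
      exact h1
  · intro i x
    have h := range_nxt G (sq G i)
    constructor
    · intro hx
      have h1 : x ∈ LinearMap.ker (sq G i).d := hx
      rw [← h] at h1
      exact h1
    · rintro ⟨y, rfl⟩
      have h1 : (nxt G (sq G i)).d y ∈ LinearMap.range (nxt G (sq G i)).d := ⟨y, rfl⟩
      rw [h] at h1
      exact h1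

end Cm.FinG
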