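import Pool.Agent.Cm.Sq

/-!
# Mirror inequality: median graphs, separation and cubes

* `Sep h x y` : the hyperplane `h` separates `x` and `y`;
* `Cross k T` : the finite set `T` consists of pairwise crossing hyperplanes adjacent to `k`;
* `cub k T` : the vertices which are separated from `k` by hyperplanes in `T` only: the cube at `k` with the directions `T`;
* `IsCub C` : `C` is one of these sets; `C.hy` : the hyperplanes which separate two points of `C`.
-/

set_option autoImplicit false
set_option linter.unusedSectionVars false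
set_option linter.unusedVariables false

open scoped Pointwise

namespace Cm

open Npc (Median hs mem_hs dirSet mk_mem_dirSet flip_mk square_of_cross cross_of_square)

variable {P : Type*} {X : SimpleGraph P}

/-! ### separation -/

/-- the hyperplane `h` separates `x` and `y` -/
def Sep (h : Npc.Hyp X) (x y : P) : Prop := ∃ A ∈ h.1, x ∈ A ∧ y ∉ A

section sep
variable (hX : Median X)
include hX

lemma sep_iff {c d : P} (h : X.Adj c d) {x y : P} :
    Sep (Npc.Hyp.mk h) x y ↔ ¬ (x ∈ hs X c d ↔ y ∈ hs X c d) := by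
  constructor
  · rintro ⟨A, hA, hx, hy⟩
    rcases hA with rfl | hA
    · exact fun h' => hy (h'.1 hx)
    · obtain rfl : A = hs X d c := hA
      intro h'
      rw [hX.not_mem_hs h.symm] at hy
      exact (hX.not_mem_hs h.symm).2 (h'.2 hy) hx
  · intro h'
    by_cases hx : x ∈ hs X c d
    · exact ⟨_, Or.inl rfl, hx, fun hy => h' ⟨fun _ => hy, fun _ => hx⟩⟩
    · by_cases hy : y ∈ hs X c d
      · refine ⟨_, Or.inr rfl, (hX.not_mem_hs h).1 hx, (hX.not_mem_hs h.symm).2 hy⟩
      · exact absurd ⟨fun h1 => absurd h1 hx, fun h1 => absurd h1 hy⟩ h'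

lemma sep_iff_of_mem {h : Npc.Hyp X} {A : Set P} (hA : A ∈ h.1) {x y : P} : Sep h x y ↔ ¬ (x ∈ A ↔ y ∈ A) := by
  obtain ⟨B, c, d, hcd, rfl⟩ := h
  have h1 := sep_iff hX hcd (x := x) (y := y)
  rcases hA with rfl | hA
  · exact h1
  · obtain rfl : A = hs X d c := hA
    have h2 := sep_iff hX hcd.symm (x := x) (y := y)
    rw [Npc.Hyp.mk_symm hcd] at h2
    exact h2

lemma not_sep_self (h : Npc.Hyp X) (x : P) : ¬ Sep h x x := by
  rintro ⟨A, -, h1, h2⟩
  exact h2 h1

lemma sep_symm {h : Npc.Hyp X} {x y : P} : Sep h x y ↔ Sep h y x := by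
  obtain ⟨B, c, d, hcd, rfl⟩ := h
  have h1 : ∀ x y, Sep (⟨{hs X c d, hs X d c}, c, d, hcd, rfl⟩ : Npc.Hyp X) x y ↔
    ¬ (x ∈ hs X c d ↔ y ∈ hs X c d) := fun x y => sep_iff hX hcd
  rw [h1, h1]
  tauto

lemma sep_trans {h : Npc.Hyp X} {x y z : P} : Sep h x z → Sep h x y ∨ Sep h y z := by
  obtain ⟨B, c, d, hcd, rfl⟩ := h
  have h1 : ∀ x y, Sep (⟨{hs X c d, hs X d c}, c, d, hcd, rfl⟩ : Npc.Hyp X) x y ↔
    ¬ (x ∈ hs X c d ↔ y ∈ hs X c d) := fun x y => sep_iff hX hcd
  rw [h1, h1, h1]
  tauto

/-- separation of `x` and `z`, through `y` -/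
lemma sep_xor {h : Npc.Hyp X} {x y z : P} : Sep h x z ↔ ¬ (Sep h x y ↔ Sep h y z) := by
  obtain ⟨B, c, d, hcd, rfl⟩ := h
  have h1 : ∀ x y, Sep (⟨{hs X c d, hs X d c}, c, d, hcd, rfl⟩ : Npc.Hyp X) x y ↔
    ¬ (x ∈ hs X c d ↔ y ∈ hs X c d) := fun x y => sep_iff hX hcd
  rw [h1, h1, h1]
  tauto

/-- the half space of a hyperplane which separates the endpoints of an edge -/
lemma hs_eq_of_edge : ∀ (n : ℕ) {k a c d : P}, X.dist k c = n → X.Adj k a → X.Adj c d → k ∈ hs X c d → a ∈ hs X d c →
    hs X k a = hs X c d := by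
  intro n
  induction n with
  | zero =>
    intro k a c d hn hka hcd hk ha
    obtain rfl : k = c := hX.conn.dist_eq_zero_iff.1 hn
    rw [mem_hs] at ha
    have h1 : X.dist a k = 1 := SimpleGraph.dist_eq_one_iff_adj.2 hka.symm
    have h2 : X.dist a d = 0 := by omega
    obtain rfl : a = d := hX.conn.dist_eq_zero_iff.1 h2
    rfl
  | succ n ih =>
    intro k a c d hn hka hcd hk ha
    rw [mem_hs] at hk ha
    have e1 : X.dist k a = 1 := SimpleGraph.dist_eq_one_iff_adj.2 hka
    have e1' : X.dist a k = 1 := SimpleGraph.dist_eq_one_iff_adj.2 hka.symm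
    have e2 : X.dist c d = 1 := SimpleGraph.dist_eq_one_iff_adj.2 hcd
    have t1 := hX.conn.dist_triangle (u := k) (v := c) (w := d)
    have t2 := hX.conn.dist_triangle (u := k) (v := a) (w := d)
    have t3 := hX.conn.dist_triangle (u := a) (v := k) (w := c)
    have t4 := hX.ne_dist hcd a
    -- the first step from `k` to `c`
    obtain ⟨w, hw⟩ := hX.conn.exists_walk_length_eq_dist k c
    cases w with
    | nil =>
      rw [SimpleGraph.dist_self] at hn
      omega
    | @cons _ k1 _ hk1 w' =>
      rw [SimpleGraph.Walk.length_cons] at hw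
      have d1 : X.dist k1 c ≤ n := by
        have := SimpleGraph.dist_le w'
        omega
      have d2 := hX.conn.dist_triangle (u := k) (v := k1) (w := c)
      have e3 : X.dist k k1 = 1 := SimpleGraph.dist_eq_one_iff_adj.2 hk1
      have e3' : X.dist k1 k = 1 := SimpleGraph.dist_eq_one_iff_adj.2 hk1.symm
      have d3 : X.dist k1 c = n := by omega
      have d4 := hX.conn.dist_triangle (u := k) (v := k1) (w := d)
      have d5 := hX.conn.dist_triangle (u := k1) (v := c) (w := d)
      have d6 : X.dist k1 d = n + 1 := by omega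
      have d7 : X.dist a d = n + 1 := by omega
      have d8 : X.dist a c = n + 2 := by omega
      have hne : a ≠ k1 := by
        rintro rfl
        omega
      have d9 := hX.conn.dist_triangle (u := a) (v := k) (w := k1)
      have d10 : 0 < X.dist a k1 := hX.conn.pos_dist_of_ne hne
      have d11 : X.dist a k1 ≠ 1 := by
        intro h
        have := hX.ne_dist (SimpleGraph.dist_eq_one_iff_adj.1 h) k
        omega
      have d12 : X.dist a k1 = 2 := by omega
      obtain ⟨m, ⟨m1, m2, m3⟩, -⟩ := hX.med a k1 d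
      have m4 : X.dist m k1 = X.dist k1 m := SimpleGraph.dist_comm
      have m5 : X.dist a m = 1 ∧ X.dist k1 m = 1 ∧ X.dist m d = n := by omega
      have hmk : m ≠ k := by
        rintro rfl
        omega
      have am : X.Adj a m := SimpleGraph.dist_eq_one_iff_adj.1 m5.1
      have km : X.Adj k1 m := SimpleGraph.dist_eq_one_iff_adj.1 m5.2.1
      have h1 : hs X k a = hs X k1 m := hX.hs_square hk1 hka hmk km am (Ne.symm hne)
      rw [h1]
      refine ih d3 km hcd ?_ ?_
      · rw [mem_hs]
        omega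
      · rw [mem_hs]
        have := hX.conn.dist_triangle (u := a) (v := m) (w := c)
        omega

/-- an edge is separated by its hyperplane only -/
lemma sep_adj {h : Npc.Hyp X} {k a : P} (hka : X.Adj k a) : Sep h k a ↔ h = Npc.Hyp.mk hka := by
  constructor
  · intro hs'
    obtain ⟨B, c, d, hcd, rfl⟩ := h
    have h1 := (sep_iff hX hcd).1 hs'
    by_cases hk : k ∈ hs X c d
    · have ha : a ∉ hs X c d := fun ha => h1 ⟨fun _ => ha, fun _ => hk⟩
      rw [hX.not_mem_hs hcd] at ha
      exact (Npc.Hyp.mk_eq hX hcd hka).2 (Or.inl (hs_eq_of_edge hX _ rfl hka hcd hk ha).symm)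
    · have ha : a ∈ hs X c d := by
        by_contra ha
        exact h1 ⟨fun h => absurd h hk, fun h => absurd h ha⟩
      rw [hX.not_mem_hs hcd] at hk
      have h2 := hs_eq_of_edge hX _ rfl hka hcd.symm hk ha
      refine (Npc.Hyp.mk_eq hX hcd hka).2 (Or.inr ?_)
      rw [← hX.hs_compl hka, h2, hX.hs_compl hcd.symm]
  · rintro rfl
    exact ⟨_, Or.inl rfl, hX.self_mem hka, hX.self_not_mem hka⟩

/-- the first edge of a geodesic -/
lemma exists_geo_step {k x : P} (h : k ≠ x) : ∃ a, ∃ hka : X.Adj k a, X.dist a x + 1 = X.dist k x ∧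
    Sep (Npc.Hyp.mk hka) k x := by
  obtain ⟨w, hw⟩ := hX.conn.exists_walk_length_eq_dist k x
  cases w with
  | nil => exact absurd rfl h
  | @cons _ a _ ha w' =>
    rw [SimpleGraph.Walk.length_cons] at hw
    have h1 := SimpleGraph.dist_le w'
    have h2 := hX.conn.dist_triangle (u := k) (v := a) (w := x)
    have e3 : X.dist k a = 1 := SimpleGraph.dist_eq_one_iff_adj.2 ha
    refine ⟨a, ha, by omega, ?_⟩
    refine ⟨_, Or.inl rfl, hX.self_mem ha, ?_⟩
    rw [hX.not_mem_hs ha, mem_hs, SimpleGraph.dist_comm (u := x) (v := a), SimpleGraph.dist_comm (u := x) (v := k)]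
    omega

/-- vertices which are not separated are equal -/
lemma eq_of_not_sep {x y : P} (h : ∀ t : Npc.Hyp X, ¬ Sep t x y) : x = y := by
  by_contra hne
  obtain ⟨a, ha, -, h1⟩ := exists_geo_step hX hne
  exact h _ h1

/-- the flip across an adjacent hyperplane -/
lemma sep_flip {t : Npc.Hyp X} {k : P} (ht : t ∈ dirSet X k) {h : Npc.Hyp X} : Sep h k (Npc.flip t k) ↔ h = t := by
  obtain ⟨a, ha, rfl⟩ := ht
  rw [flip_mk hX, sep_adj hX ha]

lemma flip_mem_dirSet {t : Npc.Hyp X} {k : P} (ht : t ∈ dirSet X k) : t ∈ dirSet X (Npc.flip t k) :=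
  (medSq hX).dir_self t k ht

lemma flip_flip {t : Npc.Hyp X} {k : P} (ht : t ∈ dirSet X k) : Npc.flip t (Npc.flip t k) = k :=
  (medSq hX).fl_fl t k ht

end sep

/-- the flip across a hyperplane which is not adjacent -/
lemma flip_of_notMem {t : Npc.Hyp X} {k : P} (ht : t ∉ dirSet X k) : Npc.flip t k = k := by
  classical
  unfold Npc.flip
  exact dif_neg ht

/-! ### cubes -/

/-- pairwise crossing hyperplanes adjacent to `k` -/
structure Cross (X : SimpleGraph P) (k : P) (T : Finset (Npc.Hyp X)) : Prop where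
  dir : ∀ t ∈ T, t ∈ dirSet X k
  cross : ∀ t ∈ T, ∀ u ∈ T, t ≠ u → Npc.Hyp.Cross t u

/-- the cube at `k` with the directions `T` -/
def cub (k : P) (T : Finset (Npc.Hyp X)) : Set P := {x | ∀ h, Sep h k x → h ∈ T}

lemma mem_cub {k x : P} {T : Finset (Npc.Hyp X)} : x ∈ cub k T ↔ ∀ h, Sep h k x → h ∈ T := Iff.rfl

lemma Cross.mono {k : P} {T T' : Finset (Npc.Hyp X)} (h : Cross X k T) (hT : T' ⊆ T) : Cross X k T' :=
  ⟨fun t ht => h.dir t (hT ht), fun t ht u hu => h.cross t (hT ht) u (hT hu)⟩

section cub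
variable (hX : Median X)
include hX

lemma self_mem_cub (k : P) (T : Finset (Npc.Hyp X)) : k ∈ cub k T := fun h h' => absurd h' (not_sep_self hX h k)

lemma Cross.flip {k : P} {T : Finset (Npc.Hyp X)} (h : Cross X k T) {t : Npc.Hyp X} (ht : t ∈ T) :
    Cross X (Npc.flip t k) T := by
  refine ⟨fun u hu => ?_, h.cross⟩
  by_cases htu : t = u
  · subst htu
    exact flip_mem_dirSet hX (h.dir t ht)
  · exact (medSq hX).dir_adj t u k (h.cross t ht u hu htu) (h.dir t ht) (h.dir u hu)

lemma cub_eq_of_mem {k x : P} {T : Finset (Npc.Hyp X)} (hx : x ∈ cub k T) : cub x T = cub k T := by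
  ext y
  constructor
  · intro hy h hh
    rcases sep_trans hX (y := x) hh with h1 | h1
    · exact hx h h1
    · exact hy h h1
  · intro hy h hh
    rcases sep_trans hX (y := k) hh with h1 | h1
    · exact hx h ((sep_symm hX).1 h1)
    · exact hy h h1

lemma flip_mem_cub {k : P} {T : Finset (Npc.Hyp X)} (h : Cross X k T) {t : Npc.Hyp X} (ht : t ∈ T) :
    Npc.flip t k ∈ cub k T := by
  intro u hu
  rw [sep_flip hX (h.dir t ht)] at hu
  rw [hu]
  exact ht

/-- induction over the vertices of a cube -/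
lemma cub_induction {k : P} {T : Finset (Npc.Hyp X)} (h : Cross X k T) {p : P → Prop} (h0 : p k)
    (h1 : ∀ x, Cross X x T → x ∈ cub k T → p x → ∀ t ∈ T, p (Npc.flip t x)) {x : P} (hx : x ∈ cub k T) : p x := by
  have key : ∀ (n : ℕ) (x y : P), X.dist y x = n → Cross X y T → y ∈ cub k T → x ∈ cub k T → p y → p x := by
    intro n
    induction n with
    | zero =>
      intro x y hn hy hyk hxk hpy
      rwa [← hX.conn.dist_eq_zero_iff.1 hn]
    | succ n ih =>
      intro x y hn hy hyk hxk hpy
      have hne : y ≠ x := by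
        rintro rfl
        rw [SimpleGraph.dist_self] at hn
        omega
      obtain ⟨a, ha, h2, h3⟩ := exists_geo_step hX hne
      have hxy : x ∈ cub y T := by
        rw [cub_eq_of_mem hX hyk]
        exact hxk
      have h4 : Npc.Hyp.mk ha ∈ T := hxy _ h3
      have h5 : Npc.flip (Npc.Hyp.mk ha) y = a := flip_mk hX ha
      have h6 : Cross X a T := by
        rw [← h5]
        exact hy.flip hX h4
      have h7 : a ∈ cub k T := by
        rw [← cub_eq_of_mem hX hyk, ← h5]
        exact flip_mem_cub hX hy h4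
      have h8 : p a := by
        rw [← h5]
        exact h1 y hy hyk hpy _ h4
      exact ih x a (by omega) h6 h7 hxk h8
  exact key _ x k rfl h (self_mem_cub hX k T) hx h0

lemma Cross.of_mem {k x : P} {T : Finset (Npc.Hyp X)} (h : Cross X k T) (hx : x ∈ cub k T) : Cross X x T :=
  cub_induction hX h (p := fun x => Cross X x T) h (fun x _ _ hx t ht => hx.flip hX ht) hx

lemma mem_cub_symm {k x : P} {T : Finset (Npc.Hyp X)} (hx : x ∈ cub k T) : k ∈ cub x T := by
  rw [cub_eq_of_mem hX hx]
  exact self_mem_cub hX k T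

/-- the directions of a cube are the hyperplanes which separate two of its points -/
lemma mem_of_sep {k x y : P} {T : Finset (Npc.Hyp X)} (hx : x ∈ cub k T) (hy : y ∈ cub k T) {h : Npc.Hyp X}
    (hh : Sep h x y) : h ∈ T := by
  rw [← cub_eq_of_mem hX hx] at hy
  exact hy h hh

lemma mem_iff_sep {k : P} {T : Finset (Npc.Hyp X)} (h : Cross X k T) {t : Npc.Hyp X} :
    t ∈ T ↔ ∃ x ∈ cub k T, ∃ y ∈ cub k T, Sep t x y := by
  constructor
  · intro ht
    exact ⟨k, self_mem_cub hX k T, _, flip_mem_cub hX h ht, (sep_flip hX (h.dir t ht)).2 rfl⟩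
  · rintro ⟨x, hx, y, hy, hh⟩
    exact mem_of_sep hX hx hy hh

lemma dirs_unique {k k' : P} {T T' : Finset (Npc.Hyp X)} (h : Cross X k T) (h' : Cross X k' T')
    (he : cub k T = cub k' T') : T = T' := by
  ext t
  rw [mem_iff_sep hX h, mem_iff_sep hX h', he]

lemma cub_subset_iff {k : P} {T T' : Finset (Npc.Hyp X)} (h : Cross X k T) (h' : Cross X k T') :
    cub k T' ⊆ cub k T ↔ T' ⊆ T := by
  constructor
  · intro hs' t ht
    have h1 := hs' (flip_mem_cub hX h' ht)
    exact h1 t ((sep_flip hX (h'.dir t ht)).2 rfl)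
  · intro hT x hx t ht
    exact hT (hx t ht)

/-- a vertex of a cube is determined by the hyperplanes which separate it from `k` -/
lemma cub_finite (k : P) (T : Finset (Npc.Hyp X)) : (cub k T).Finite := by
  classical
  have h1 : Set.InjOn (fun x : P => T.filter fun t => Sep t k x) (cub k T) := by
    intro x hx y hy hxy
    refine eq_of_not_sep hX fun t ht => ?_
    have h2 : t ∈ T := by
      rcases sep_trans hX (y := k) ht with h | h
      · exact hx t ((sep_symm hX).1 h)
      · exact hy t h
    have h3 : t ∈ T.filter (fun t => Sep t k x) ↔ t ∈ T.filter (fun t => Sep t k y) := by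
      have : (T.filter fun t => Sep t k x) = T.filter fun t => Sep t k y := hxy
      rw [this]
    rw [Finset.mem_filter, Finset.mem_filter] at h3
    rw [sep_xor hX (y := k)] at ht
    apply ht
    rw [sep_symm hX (x := x) (y := k)]
    tauto
  exact Set.Finite.of_finite_image ((Finset.finite_toSet T.powerset).subset (by
    rintro _ ⟨x, -, rfl⟩
    exact Finset.mem_coe.2 (Finset.mem_powerset.2 (Finset.filter_subset _ _)))) h1

/-- every set of directions is realised -/
lemma exists_sep_eq {k : P} {T : Finset (Npc.Hyp X)} (h : Cross X k T) (S : Finset (Npc.Hyp X)) (hS : S ⊆ T) :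
    ∃ x ∈ cub k T, ∀ t, Sep t k x ↔ t ∈ S := by
  classical
  induction S using Finset.induction_on with
  | empty => exact ⟨k, self_mem_cub hX k T, fun t => ⟨fun h' => absurd h' (not_sep_self hX t k), fun h' => by simp at h'⟩⟩
  | insert s S hs ih =>
    obtain ⟨x, hx, hx2⟩ := ih fun t ht => hS (Finset.mem_insert_of_mem ht)
    have hsT : s ∈ T := hS (Finset.mem_insert_self _ _)
    have h1 := h.of_mem hX hx
    refine ⟨Npc.flip s x, ?_, fun t => ?_⟩
    · rw [← cub_eq_of_mem hX hx]
      exact flip_mem_cub hX h1 hsT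
    · rw [sep_xor hX (y := x), hx2, sep_flip hX (h1.dir s hsT), Finset.mem_insert]
      by_cases hts : t = s
      · subst hts
        tauto
      · tauto

/-- the number of the vertices of a cube -/
lemma ncard_cub {k : P} {T : Finset (Npc.Hyp X)} (h : Cross X k T) : (cub k T).ncard = 2 ^ T.card := by
  classical
  rw [← Finset.card_powerset, ← Set.ncard_coe_finset]
  refine Set.ncard_congr (fun x _ => T.filter fun t => Sep t k x) ?_ ?_ ?_
  · intro x hx
    exact Finset.mem_coe.2 (Finset.mem_powerset.2 (Finset.filter_subset _ _))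
  · intro x y hx hy hxy
    refine eq_of_not_sep hX fun t ht => ?_
    have h2 : t ∈ T := by
      rcases sep_trans hX (y := k) ht with h | h
      · exact hx t ((sep_symm hX).1 h)
      · exact hy t h
    have h3 : t ∈ T.filter (fun t => Sep t k x) ↔ t ∈ T.filter (fun t => Sep t k y) := by rw [hxy]
    rw [Finset.mem_filter, Finset.mem_filter] at h3
    rw [sep_xor hX (y := k)] at ht
    apply ht
    rw [sep_symm hX (x := x) (y := k)]
    tauto
  · intro S hS
    have hS' : S ⊆ T := Finset.mem_powerset.1 (Finset.mem_coe.1 hS)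
    obtain ⟨x, hx, hx2⟩ := exists_sep_eq hX h S hS'
    refine ⟨x, hx, ?_⟩
    ext t
    rw [Finset.mem_filter, hx2]
    exact ⟨fun h' => h'.2, fun h' => ⟨hS' h', h'⟩⟩

end cub

end Cm
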