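import Pool.Agent.Cm.Step
import Pool.Agent.Npc.Wall

/-!
# Mirror inequality: the half-space lemma for the marked cycles

`km_le` : `vd (Km ⊓ syG) ≤ vd (Km ⊓ asM)` (half spaces of the right-angled Coxeter group of the hyperplanes);
`km_labG`, `km_labM` : the label of the marker is independent of the rest.
-/

set_option autoImplicit false
set_option linter.unusedSectionVars false
set_option linter.unusedVariables false

open scoped ComplexConjugate InnerProductSpace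

namespace Cm

open Singer
open Npc (plf plf_apply psf psf_apply psf_pull Fibre ind ind_apply ind_mem ind_notMem ind_ind ind_add ind_pull ind_psf
  Cof act act_apply Equi equi_pull equi_mul St av av_apply av_comm Mdl mdl_ker map_closure_le vd vd_mono vd_map_add
  vd_closure asy mem_asy fx mem_fx vd_ind half_key ct fb inner_pull pr pr_ct pr_mem pr_mem_closure pr_unique
  sub_pr_mem dl Orb)

section halfspaces
variable {H G : Type*} [Group G] [MulAction G H]

/-- the subgroup generated by the hyperplanes which cross `h` -/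
def lkS (S : Hyp H G) (h : H) : Subgroup (RACG S.C) := Racg.sub (G := S.C) {v | S.C.Adj h v}

/-- the half space of the wall of `h`, on the side of `1` -/
noncomputable def hsW (S : Hyp H G) (h : H) : Set (RACG S.C) := (Racg.exists_half S.C h).choose

variable {S : Hyp H G} {h : H}

lemma hsW_mul {w k : RACG S.C} (hw : w ∈ hsW S h) (hk : k ∈ Racg.sub (G := S.C) {v | v ≠ h}) : w * k ∈ hsW S h :=
  (Racg.exists_half S.C h).choose_spec.1 w hw k hk

lemma hsW_one {u : RACG S.C} (hu : u ∈ lkS S h) : u ∈ hsW S h :=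
  (Racg.exists_half S.C h).choose_spec.2.1 u hu

lemma hsW_gen {w : RACG S.C} (hw : w ∈ hsW S h) (hu : w ∉ lkS S h) :
    w * Racg.gen S.C h ∈ hsW S h ∧ w * Racg.gen S.C h ∉ lkS S h :=
  (Racg.exists_half S.C h).choose_spec.2.2 w hw hu

lemma gen_notMem_lkS : Racg.gen S.C h ∉ lkS S h :=
  Racg.gen_notMem (S.C.loopless.irrefl h)

lemma mul_gen_gen (w : RACG S.C) : w * Racg.gen S.C h * Racg.gen S.C h = w := by
  rw [mul_assoc, Racg.gen_mul_gen, mul_one]

lemma mul_gen_notMem {u : RACG S.C} (hu : u ∈ lkS S h) : u * Racg.gen S.C h ∉ lkS S h := fun h' => by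
  have h1 := (lkS S h).mul_mem ((lkS S h).inv_mem hu) h'
  rw [inv_mul_cancel_left] at h1
  exact gen_notMem_lkS h1

lemma hsW_notMem {u : RACG S.C} (hu : u * Racg.gen S.C h ∈ lkS S h) : u ∉ hsW S h := fun h' => by
  have h1 : u ∉ lkS S h := fun h2 => mul_gen_notMem h2 hu
  exact (hsW_gen h' h1).2 hu

lemma hsW_iff {w : RACG S.C} (h1 : w ∉ lkS S h) (h2 : w * Racg.gen S.C h ∉ lkS S h) :
    w ∈ hsW S h ↔ w * Racg.gen S.C h ∈ hsW S h := by
  constructor
  · exact fun h => (hsW_gen h h1).1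
  · intro h
    have := (hsW_gen h h2).1
    rwa [mul_gen_gen] at this

lemma hsW_mul_gen {t : H} (ht : t ≠ h) (w : RACG S.C) : w * Racg.gen S.C t ∈ hsW S h ↔ w ∈ hsW S h := by
  have hk : Racg.gen S.C t ∈ Racg.sub (G := S.C) {v | v ≠ h} := Racg.gen_mem_sub ht
  constructor
  · intro hw
    have := hsW_mul hw hk
    rwa [mul_gen_gen] at this
  · exact fun hw => hsW_mul hw hk

/-- the generator of `h` commutes with the group of the hyperplanes which cross `h` -/
lemma gen_comm_lkS {u : RACG S.C} (hu : u ∈ lkS S h) : Racg.gen S.C h * u = u * Racg.gen S.C h := by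
  unfold lkS Racg.sub at hu
  induction hu using Subgroup.closure_induction with
  | mem x hx =>
    obtain ⟨v, hv, rfl⟩ := hx
    exact Racg.gen_comm hv
  | one => rw [mul_one, one_mul]
  | mul x y _ _ hx hy => rw [← mul_assoc, hx, mul_assoc, hy, mul_assoc]
  | inv x _ hx =>
    have h1 : Commute (Racg.gen S.C h) x := hx
    exact h1.inv_right

lemma smul_lkS (g : G) {u : RACG S.C} (hu : u ∈ lkS S h) :
    Racg.map (fun t => g • t) (fun u v h => (S.adj g u v).2 h) u ∈ lkS S (g • h) := by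
  have h1 : u ∈ (lkS S (g • h)).comap (Racg.map (G := S.C) (G' := S.C) (fun t => g • t)
      (fun u v h => (S.adj g u v).2 h)) := by
    have h2 : lkS S h ≤ (lkS S (g • h)).comap (Racg.map (G := S.C) (G' := S.C) (fun t => g • t)
        (fun u v h => (S.adj g u v).2 h)) := by
      unfold lkS Racg.sub
      refine (Subgroup.closure_le _).2 ?_
      rintro _ ⟨v, hv, rfl⟩
      show Racg.map (G := S.C) (G' := S.C) (fun t => g • t) (fun u v h => (S.adj g u v).2 h) (Racg.gen S.C v) ∈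
        lkS S (g • h)
      rw [Racg.map_gen]
      exact Racg.gen_mem_sub (G := S.C) (A := {v | S.C.Adj (g • h) v}) ((S.adj g h v).2 hv)
    exact h2 hu
  exact h1

lemma lkS_le {h : H} : lkS S h ≤ Racg.sub (G := S.C) {v | v ≠ h} :=
  Racg.sub_mono fun v (hv : S.C.Adj h v) => hv.ne'

end halfspaces

section walls
variable {H G : Type*} [Group G] [MulAction G H]
variable (S : Hyp H G) (F : Type*) [AddCommGroup F] {R : Type*} [MulAction G R] (L : Ltr H G R)

/-- the same letter and the same wall, on the same side -/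
def orel : Setoid (Cell S F R) where
  r y z := L.ℓ y.r = L.ℓ z.r ∧ (pw y.n)⁻¹ * pw z.n ∈ lkS S (L.ℓ y.r)
  iseqv :=
    { refl := fun y => ⟨rfl, by rw [inv_mul_cancel]; exact Subgroup.one_mem _⟩
      symm := by
        rintro y z ⟨h1, h2⟩
        refine ⟨h1.symm, ?_⟩
        rw [← h1]
        have := Subgroup.inv_mem _ h2
        rwa [mul_inv_rev, inv_inv] at this
      trans := by
        rintro x y z ⟨h1, h2⟩ ⟨h3, h4⟩
        refine ⟨h1.trans h3, ?_⟩
        rw [← h1] at h4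
        have := Subgroup.mul_mem _ h2 h4
        rwa [mul_assoc, mul_inv_cancel_left] at this }

/-- oriented walls -/
def Ow : Type _ := Quotient (orel S F L)

variable {S F}

/-- the oriented wall of a cell -/
def ow (y : Cell S F R) : Ow S F L := Quotient.mk (orel S F L) y

variable {L}

lemma ow_eq {y z : Cell S F R} : ow L y = ow L z ↔ L.ℓ y.r = L.ℓ z.r ∧ (pw y.n)⁻¹ * pw z.n ∈ lkS S (L.ℓ y.r) :=
  Quotient.eq (r := orel S F L)

lemma ow_surj (c : Ow S F L) : ∃ y, ow L y = c := Quotient.exists_rep c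

noncomputable instance : MulAction (Gh S F) (Ow S F L) where
  smul g := Quotient.map (sa := orel S F L) (sb := orel S F L) (fun y => g • y) (by
    rintro y z ⟨h1, h2⟩
    refine ⟨?_, ?_⟩
    · show L.ℓ (g.right • y.r) = L.ℓ (g.right • z.r)
      rw [L.ℓ_smul, L.ℓ_smul, h1]
    · show (pw (g.left * g.right • y.n))⁻¹ * pw (g.left * g.right • z.n) ∈ lkS S (L.ℓ (g.right • y.r))
      rw [pw_mul, pw_mul, mul_inv_rev, mul_assoc, inv_mul_cancel_left, pw_smul, pw_smul, ← map_inv, ← map_mul,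
        L.ℓ_smul]
      exact smul_lkS _ h2)
  one_smul c := by
    obtain ⟨y, rfl⟩ := ow_surj c
    show ow L ((1 : Gh S F) • y) = ow L y
    rw [one_smul]
  mul_smul g g' c := by
    obtain ⟨y, rfl⟩ := ow_surj c
    show ow L ((g * g') • y) = ow L (g • g' • y)
    rw [mul_smul]

lemma ow_smul (g : Gh S F) (y : Cell S F R) : ow L (g • y) = g • ow L y := rfl

/-- the other side -/
noncomputable def oop : Ow S F L → Ow S F L :=
  Quotient.map (sa := orel S F L) (sb := orel S F L) (fun y => y.mi L) (by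
    rintro y z ⟨h1, h2⟩
    refine ⟨h1, ?_⟩
    show (pw (y.n * sW (L.ℓ y.r)))⁻¹ * pw (z.n * sW (L.ℓ z.r)) ∈ lkS S (L.ℓ y.r)
    rw [← h1, pw_mul, pw_mul, pw_sW, mul_inv_rev, Racg.gen_inv, mul_assoc, ← mul_assoc (pw y.n)⁻¹, ← mul_assoc,
      gen_comm_lkS h2, mul_gen_gen]
    exact h2)

lemma oop_ow (y : Cell S F R) : oop (ow L y) = ow L (y.mi L) := rfl

lemma oop_oop (c : Ow S F L) : oop (oop c) = c := by
  obtain ⟨y, rfl⟩ := ow_surj c
  rw [oop_ow, oop_ow, Cell.mi_mi]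

lemma ow_gl (y : Cell S F R) : ow L (y.gl L) = oop (ow L y) := by
  rw [oop_ow, ow_eq]
  refine ⟨L.ℓ_mv _, ?_⟩
  show (pw (y.n * sW (L.ℓ y.r)))⁻¹ * pw (y.n * sW (L.ℓ y.r)) ∈ _
  rw [inv_mul_cancel]
  exact Subgroup.one_mem _

lemma ow_mi (y : Cell S F R) : ow L (y.mi L) = oop (ow L y) := rfl

lemma oop_ne (y : Cell S F R) : oop (ow L y) ≠ ow L y := by
  rw [oop_ow]
  intro h
  have h1 := (ow_eq.1 h.symm).2
  have e : (y.mi L).n = y.n * sW (L.ℓ y.r) := rfl
  rw [e, pw_mul, pw_sW, inv_mul_cancel_left] at h1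
  exact gen_notMem_lkS h1

/-- a representative -/
noncomputable def rp (c : Ow S F L) : Cell S F R := (ow_surj c).choose

lemma ow_rp (c : Ow S F L) : ow L (rp c) = c := (ow_surj c).choose_spec

/-- the good set of an oriented wall -/
noncomputable def gT (c : Ow S F L) (h : H) : Set (NN S F) :=
  {n | L.ℓ (rp c).r = h ∧ (pw (rp c).n)⁻¹ * pw n ∈ hsW S h}

lemma good_gT (c : Ow S F L) : GdT (gT c) where
  w h t ht n := by
    show (L.ℓ (rp c).r = h ∧ (pw (rp c).n)⁻¹ * pw (n * sW t) ∈ hsW S h) ↔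
      (L.ℓ (rp c).r = h ∧ (pw (rp c).n)⁻¹ * pw n ∈ hsW S h)
    rw [pw_mul, pw_sW, ← mul_assoc, hsW_mul_gen ht]
  a h t ht x n := by
    show (L.ℓ (rp c).r = h ∧ (pw (rp c).n)⁻¹ * pw (n * eA t x) ∈ hsW S h) ↔
      (L.ℓ (rp c).r = h ∧ (pw (rp c).n)⁻¹ * pw n ∈ hsW S h)
    rw [pw_mul, pw_eA, mul_one]

/-- the set of the oriented walls whose cells are in the half space of `c` -/
noncomputable def gS (c : Ow S F L) : Set (Ow S F L) := ow L '' {y : Cell S F R | y.n ∈ gT c (L.ℓ y.r)}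

lemma mem_gS {c : Ow S F L} {z : Cell S F R} :
    ow L z ∈ gS c ↔ L.ℓ (rp c).r = L.ℓ z.r ∧ (pw (rp c).n)⁻¹ * pw z.n ∈ hsW S (L.ℓ z.r) := by
  constructor
  · rintro ⟨y, hy, h⟩
    obtain ⟨h1, h2⟩ := ow_eq.1 h
    have hy' : L.ℓ (rp c).r = L.ℓ y.r ∧ (pw (rp c).n)⁻¹ * pw y.n ∈ hsW S (L.ℓ y.r) := hy
    refine ⟨hy'.1.trans h1, ?_⟩
    rw [← h1]
    have h3 := hsW_mul hy'.2 (lkS_le h2)
    rwa [mul_assoc, mul_inv_cancel_left] at h3
  · exact fun h => ⟨z, h, rfl⟩

lemma gS_self (y : Cell S F R) : ow L y ∈ gS (ow L y) := by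
  rw [mem_gS]
  obtain ⟨h1, h2⟩ := ow_eq.1 (ow_rp (ow L y))
  rw [← h1]
  exact ⟨rfl, hsW_one h2⟩

lemma gS_op (y : Cell S F R) : oop (ow L y) ∉ gS (ow L y) := by
  rw [oop_ow, mem_gS]
  rintro ⟨h0, h3⟩
  obtain ⟨h1, h2⟩ := ow_eq.1 (ow_rp (ow L y))
  refine hsW_notMem ?_ h3
  have e : (y.mi L).n = y.n * sW (L.ℓ y.r) := rfl
  have e' : L.ℓ (y.mi L).r = L.ℓ y.r := rfl
  rw [e, e', pw_mul, pw_sW, ← mul_assoc, mul_gen_gen, ← h1]
  exact h2

lemma gS_iff (y z : Cell S F R) (h1 : ow L z ≠ ow L y) (h2 : ow L z ≠ oop (ow L y)) :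
    ow L z ∈ gS (ow L y) ↔ oop (ow L z) ∈ gS (ow L y) := by
  have e0 : (z.mi L).n = z.n * sW (L.ℓ z.r) := rfl
  have e0' : L.ℓ (z.mi L).r = L.ℓ z.r := rfl
  rw [oop_ow, mem_gS, mem_gS, e0', e0, pw_mul, pw_sW, ← mul_assoc]
  have e : ow L (rp (ow L y)) = ow L y := ow_rp _
  refine and_congr_right fun h0 => hsW_iff (fun h => h1 ?_) fun h => h2 ?_
  · rw [← e, eq_comm, ow_eq]
    exact ⟨h0, by rw [h0]; exact h⟩
  · rw [← oop_oop (ow L z)]
    congr 1
    rw [oop_ow, ← e, eq_comm, ow_eq]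
    refine ⟨h0, ?_⟩
    rw [h0, e0, pw_mul, pw_sW, ← mul_assoc]
    exact h

variable (L)

/-- the glue move as a permutation -/
noncomputable def wlG : Equiv.Perm (Cell S F R) := ⟨Cell.gl L, Cell.gl L, Cell.gl_gl L, Cell.gl_gl L⟩

/-- the mirror move as a permutation -/
noncomputable def wlM : Equiv.Perm (Cell S F R) := ⟨Cell.mi L, Cell.mi L, Cell.mi_mi L, Cell.mi_mi L⟩

variable {L}

/-- the mirror move is a translation on the cells with the same oriented wall -/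
lemma mi_trans (c : Ow S F L) : ∃ g : Gh S F, ∀ z : Cell S F R, ow L z = c → z.mi L = g • z := by
  obtain ⟨y, rfl⟩ := ow_surj c
  refine ⟨⟨y.n * sW (L.ℓ y.r) * y.n⁻¹, 1⟩, fun z hz => ?_⟩
  obtain ⟨h1, h2⟩ := ow_eq.1 hz
  refine Cell.ext ?_ (one_smul _ _).symm
  show z.n * sW (L.ℓ z.r) = y.n * sW (L.ℓ y.r) * y.n⁻¹ * (1 : G) • z.n
  rw [one_smul, ← h1]
  have h3 := gen_comm_lkS h2
  refine nn_ext ?_ fun t => ?_
  · rw [pw_mul, pw_mul, pw_mul, pw_mul, pw_sW, pw_inv]
    rw [h1] at h3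
    calc pw z.n * Racg.gen S.C (L.ℓ z.r)
        = pw z.n * (Racg.gen S.C (L.ℓ z.r) * ((pw z.n)⁻¹ * pw y.n)) * (pw y.n)⁻¹ * pw z.n := by group
      _ = pw z.n * ((pw z.n)⁻¹ * pw y.n * Racg.gen S.C (L.ℓ z.r)) * (pw y.n)⁻¹ * pw z.n := by rw [h1, h3]
      _ = pw y.n * Racg.gen S.C (L.ℓ z.r) * (pw y.n)⁻¹ * pw z.n := by group
  · rw [ch_mul, ch_mul, ch_mul, ch_mul, ch_inv, ch_sW]
    abel

end walls

/-! ### signs -/

section sign
variable {Γ : Type*} [Group Γ] {Y : Type*} [MulAction Γ Y] [Cof Γ Y]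

/-- multiplication by a sign function does not change the dimension -/
theorem vd_mul_sign {m : Y → ℂ} (hm : ∀ y, ‖m y‖ ≤ 1) (hmm : ∀ y, m y * m y = 1) (hr : ∀ y, conj (m y) = m y)
    {V W : Submodule ℂ (L2 Y)} (h1 : ∀ f ∈ V, mul m hm f ∈ W) (h2 : ∀ f ∈ W, mul m hm f ∈ V) : vd Γ V = vd Γ W := by
  have hs : ∀ f g : L2 Y, ⟪mul m hm f, g⟫_ℂ = ⟪f, mul m hm g⟫_ℂ := by
    intro f g
    rw [inner_eq, inner_eq]
    refine tsum_congr fun y => ?_
    rw [mul_apply, mul_apply, map_mul, hr]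
    ring
  have hii : ∀ f : L2 Y, mul m hm (mul m hm f) = f := by
    intro f
    ext y
    rw [mul_apply, mul_apply, ← mul_assoc, hmm, one_mul]
  have key : ∀ f : L2 Y, pr W (mul m hm f) = mul m hm (pr V f) := by
    intro f
    refine pr_unique ?_ ?_
    · have h3 : V.topologicalClosure ≤ W.topologicalClosure.comap (mul m hm : L2 Y →ₗ[ℂ] L2 Y) := by
        refine V.topologicalClosure_minimal (fun x hx => W.le_topologicalClosure (h1 x hx)) ?_
        exact (Submodule.isClosed_topologicalClosure W).preimage (mul m hm).continuous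
      exact h3 (pr_mem_closure V _)
    · rw [← map_sub, Submodule.mem_orthogonal']
      intro u hu
      rw [hs]
      exact (Submodule.mem_orthogonal' V _).1 (sub_pr_mem V _) _ (h2 u hu)
  have hn : ∀ f : L2 Y, ‖mul m hm f‖ = ‖f‖ := by
    intro f
    have h4 : ⟪mul m hm f, mul m hm f⟫_ℂ = ⟪f, f⟫_ℂ := by rw [hs, hii]
    rw [inner_self_eq_norm_sq_to_K, inner_self_eq_norm_sq_to_K] at h4
    have h5 : ‖mul m hm f‖ ^ 2 = ‖f‖ ^ 2 := by exact_mod_cast h4
    exact (sq_eq_sq₀ (norm_nonneg _) (norm_nonneg _)).1 h5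
  have hd : ∀ y, mul m hm (dl y) = m y • dl y := by
    intro y
    ext z
    rw [mul_apply, lp.coeFn_smul, Pi.smul_apply, smul_eq_mul]
    by_cases h : z = y
    · rw [h]
    · rw [Npc.dl_apply_ne h, mul_zero, mul_zero]
  unfold vd
  refine Finset.sum_congr rfl fun q _ => ?_
  have h6 : pr W (m q.out • dl q.out) = mul m hm (pr V (dl q.out)) := by rw [← hd, key]
  have h7 : ‖m q.out‖ = 1 := by
    have h8 : ‖m q.out‖ * ‖m q.out‖ = 1 := by rw [← norm_mul, hmm, norm_one]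
    nlinarith [norm_nonneg (m q.out)]
  rw [map_smul] at h6
  have h9 := congrArg norm h6
  rw [norm_smul, h7, one_mul, hn] at h9
  rw [h9]

end sign

namespace TSet
variable {H G : Type*} [Group G] [MulAction G H] {S : Hyp H G} {F : Type*} [AddCommGroup F] [Fintype F]
variable {A B : Type*} [MulAction G A] [MulAction G B] {X : TSet H G A} {K : Kern G A B} {s : AddChar F ℂ → St}

lemma asy_wlG : asy (wlG X.L : Equiv.Perm (Cell S F X.Mk)) = X.asG S F := rfl

lemma asy_wlM : asy (wlM X.L : Equiv.Perm (Cell S F X.Mk)) = X.asM S F := rfl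

lemma ct_eq_ind {Y : Type*} (A : Set Y) : (ct A : L2 Y →L[ℂ] L2 Y) = ind A := rfl

/-- the half-space lemma, for the antisymmetric parts -/
theorem km_le' [Cof G A] : vd (Gh S F) (X.Km K S F s ⊓ X.asG S F) ≤ vd (Gh S F) (X.Km K S F s ⊓ X.asM S F) := by
  rw [← asy_wlG, ← asy_wlM]
  refine half_key (Γ := Gh S F) (o := ow X.L) (op := oop) (S := gS) ow_smul oop_oop (Cell.gl_gl X.L) (Cell.mi_mi X.L)
    ow_gl ow_mi oop_ne (fun g y => Cell.smul_gl X.L g y) (fun g y => Cell.smul_mi X.L g y) mi_trans gS_self gS_op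
    gS_iff mdl_Km.inv mdl_Km.cl ?_
  intro y f hf
  have h1 := ind_mem_Km (good_gT (ow X.L y)) hf
  have e : {z | ow X.L z ∈ gS (ow X.L y)} = (X.mkS (gT (ow X.L y)) : Set (Cell S F X.Mk)) := by
    ext z
    show ow X.L z ∈ gS (ow X.L y) ↔ X.L.ℓ (rp (ow X.L y)).r = X.L.ℓ z.r ∧
      (pw (rp (ow X.L y)).n)⁻¹ * pw z.n ∈ hsW S (X.L.ℓ z.r)
    exact mem_gS
  rw [ct_eq_ind, e]
  exact h1

/-! ### the parity of the marker -/

open Classical in
/-- the parity of the number of the letters `t` -/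
noncomputable def prt (S : Hyp H G) (t : H) : RACG S.C →* Multiplicative (ZMod 2) :=
  Racg.lift (fun v => if v = t then Multiplicative.ofAdd 1 else 1) (fun v => by split_ifs <;> decide)
    fun u v _ => mul_comm _ _

lemma prt_self (t : H) : prt S t (Racg.gen S.C t) = Multiplicative.ofAdd 1 := by
  classical
  rw [prt, Racg.lift_gen, if_pos rfl]

lemma prt_ne {t u : H} (h : u ≠ t) : prt S t (Racg.gen S.C u) = 1 := by
  classical
  rw [prt, Racg.lift_gen, if_neg h]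

/-- the good set of the even elements -/
def eT (h : H) : Set (NN S F) := {n | prt S h (pw n) = 1}

lemma good_eT : GdT (eT (S := S) (F := F)) where
  w h t ht n := by
    show prt S h (pw (n * sW t)) = 1 ↔ prt S h (pw n) = 1
    rw [pw_mul, map_mul, pw_sW, prt_ne ht, mul_one]
  a h t ht x n := by
    show prt S h (pw (n * eA t x)) = 1 ↔ prt S h (pw n) = 1
    rw [pw_mul, pw_eA, mul_one]

lemma mz2 (a : Multiplicative (ZMod 2)) : a = 1 ∨ a = Multiplicative.ofAdd 1 := by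
  revert a
  decide

lemma mz2_mul (a : Multiplicative (ZMod 2)) : (a * Multiplicative.ofAdd 1 = 1) ↔ ¬ a = 1 := by
  revert a
  decide

open Classical in
/-- the sign of the parity of the marker -/
noncomputable def sg (y : Cell S F X.Mk) : ℂ := if prt S y.r.1.2 (pw y.n) = 1 then 1 else -1

lemma sg_le (y : Cell S F X.Mk) : ‖sg y‖ ≤ 1 := by
  unfold sg
  split_ifs <;> simp

lemma sg_mul (y : Cell S F X.Mk) : sg y * sg y = 1 := by
  unfold sg
  split_ifs <;> simp

lemma sg_conj (y : Cell S F X.Mk) : conj (sg y) = sg y := by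
  unfold sg
  split_ifs <;> simp

lemma sg_gl (y : Cell S F X.Mk) : sg (y.gl X.L) = -sg y := by
  classical
  have h1 : prt S (y.gl X.L).r.1.2 (pw (y.gl X.L).n) = prt S y.r.1.2 (pw y.n) * Multiplicative.ofAdd 1 := by
    show prt S y.r.1.2 (pw (y.n * sW y.r.1.2)) = _
    rw [pw_mul, map_mul, pw_sW, prt_self]
  unfold sg
  rw [h1]
  by_cases h2 : prt S y.r.1.2 (pw y.n) = 1
  · rw [if_pos h2, if_neg fun h3 => (mz2_mul _).1 h3 h2]
  · rw [if_neg h2, if_pos ((mz2_mul _).2 h2), neg_neg]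

lemma mul_sg (f : L2 (Cell S F X.Mk)) : mul sg sg_le f = (2 : ℂ) • ind (X.mkS eT) f - f := by
  classical
  ext y
  rw [mul_apply, lp.coeFn_sub, Pi.sub_apply, lp.coeFn_smul, Pi.smul_apply, ind_apply, smul_eq_mul]
  have h1 : y ∈ X.mkS eT ↔ prt S y.r.1.2 (pw y.n) = 1 := Iff.rfl
  unfold sg
  by_cases h2 : prt S y.r.1.2 (pw y.n) = 1
  · rw [if_pos h2, if_pos (h1.2 h2)]
    ring
  · rw [if_neg h2, if_neg fun h => h2 (h1.1 h)]
    ring

lemma sg_mem_Km {f : L2 (Cell S F X.Mk)} (hf : f ∈ X.Km K S F s) : mul sg sg_le f ∈ X.Km K S F s := by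
  rw [mul_sg]
  exact Submodule.sub_mem _ (Submodule.smul_mem _ _ (ind_mem_Km good_eT hf)) hf

lemma Gl_sg (f : L2 (Cell S F X.Mk)) : Gl S F X.L (mul sg sg_le f) = -mul sg sg_le (Gl S F X.L f) := by
  ext y
  rw [Gl_apply, mul_apply, lp.coeFn_neg, Pi.neg_apply, mul_apply, Gl_apply, sg_gl]
  ring

/-- **the half-space lemma for the marked cycles** -/
theorem km_le [Cof G A] : vd (Gh S F) (X.Km K S F s ⊓ X.syG S F) ≤ vd (Gh S F) (X.Km K S F s ⊓ X.asM S F) := by
  refine le_trans (le_of_eq ?_) km_le'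
  refine vd_mul_sign sg_le sg_mul sg_conj ?_ ?_
  · rintro f ⟨h1, h2⟩
    refine ⟨sg_mem_Km h1, mem_asG.2 ?_⟩
    rw [Gl_sg, mem_syG.1 h2]
  · rintro f ⟨h1, h2⟩
    refine ⟨sg_mem_Km h1, mem_syG.2 ?_⟩
    rw [Gl_sg, mem_asG.1 h2, map_neg, neg_neg]

/-! ### independence of the label of the marker -/

/-- the translation of the label of the letter as a permutation -/
noncomputable def eTr {R : Type*} [MulAction G R] (L : Ltr H G R) (x : F) : Equiv.Perm (Cell S F R) :=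
  ⟨Cell.tl L x, Cell.tl L (-x), fun y => by rw [Cell.tl_tl, neg_add_cancel, Cell.tl_zero],
    fun y => by rw [Cell.tl_tl, add_neg_cancel, Cell.tl_zero]⟩

lemma inner_Tl {R : Type*} [MulAction G R] (L : Ltr H G R) (x : F) (f g : L2 (Cell S F R)) :
    ⟪Tl S F L x f, g⟫_ℂ = ⟪f, Tl S F L (-x) g⟫_ℂ :=
  inner_pull (Cell.tl L x) (Cell.tl L (-x)) (fun y => by rw [Cell.tl_tl, add_neg_cancel, Cell.tl_zero])
    (fun y => by rw [Cell.tl_tl, neg_add_cancel, Cell.tl_zero]) f g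

lemma inner_Ep {R : Type*} [MulAction G R] (L : Ltr H G R) (q : AddChar F ℂ) (f g : L2 (Cell S F R)) :
    ⟪Ep S F L q f, g⟫_ℂ = ⟪f, Ep S F L q g⟫_ℂ := by
  unfold Ep
  rw [av_apply, av_apply, inner_smul_left, inner_smul_right, sum_inner, inner_sum, map_inv₀, Complex.conj_natCast]
  congr 1
  refine Fintype.sum_equiv (Equiv.neg F) _ _ fun x => ?_
  rw [inner_smul_left, inner_smul_right, inner_Tl, Equiv.neg_apply]
  congr 1
  rw [AddChar.map_neg_eq_conj]

lemma fx_Ep (q : AddChar F ℂ) : fx (Ep S F X.L q) = X.ran S F q := by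
  ext f
  rw [mem_fx, mem_ran]

/-- the label of the marker is independent of a subspace which does not depend on it -/
theorem vd_lab [Cof G A] {V : Submodule ℂ (L2 (Cell S F X.Mk))} (hc : IsClosed (V : Set (L2 (Cell S F X.Mk))))
    (hl : ∀ a : F, ∀ f ∈ V, ind {y : Cell S F X.Mk | ch y.n y.r.1.2 = a} f ∈ V)
    (hV : ∀ x, ∀ f ∈ V, Tl S F X.L x f ∈ V) (q : AddChar F ℂ) :
    vd (Gh S F) (V ⊓ X.ran S F q) = vd (Gh S F) V / Fintype.card F := by
  rw [← fx_Ep]
  have h := vd_ind (Γ := Gh S F) (U := fun x => eTr X.L x) (x₀ := (0 : F)) (χ := fun y => ch y.n y.r.1.2)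
    (c := fun x => (Fintype.card F : ℂ)⁻¹ * q x) (P := Ep S F X.L q) (V := V) (a := (Fintype.card F : ℝ)⁻¹)
    (fun y => Cell.tl_zero X.L y) ?_ ?_ (Ep_Ep X.L q) (inner_Ep X.L q) hc hl hV ?_
  · rw [h]
    ring
  · intro x hx y
    show ch (y.n * eA y.r.1.2 x) y.r.1.2 ≠ ch y.n y.r.1.2
    rw [ch_mul, ch_eA_self]
    intro h
    exact hx (by simpa using h)
  · intro f
    unfold Ep
    rw [av_apply, Finset.smul_sum]
    refine Finset.sum_congr rfl fun x _ => ?_
    rw [smul_smul]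
    rfl
  · rw [AddChar.map_zero_eq_one]
    push_cast
    ring

/-- the good set of a label -/
def lT (a : F) (h : H) : Set (NN S F) := {n | ch n h = a}

lemma good_lT (a : F) : GdT (lT (S := S) a) where
  w h t ht n := by
    show ch (n * sW t) h = a ↔ ch n h = a
    rw [ch_mul, ch_sW, add_zero]
  a h t ht x n := by
    show ch (n * eA t x) h = a ↔ ch n h = a
    rw [ch_mul, ch_eA_ne ht.symm, add_zero]

theorem km_labG [Cof G A] (q : AddChar F ℂ) :
    vd (Gh S F) (X.Km K S F s ⊓ X.syG S F ⊓ X.ran S F q) = vd (Gh S F) (X.Km K S F s ⊓ X.syG S F) / Fintype.card F := by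
  refine vd_lab (mdl_Km.inf mdl_syG).cl (fun a f hf => ⟨ind_mem_Km (good_lT a) hf.1, ?_⟩)
    (fun x f hf => ⟨Tl_mem_Km x hf.1, ?_⟩) q
  · have h2 := mem_syG.1 hf.2
    refine mem_syG.2 ?_
    have e : Gl S F X.L (ind {y : Cell S F X.Mk | ch y.n y.r.1.2 = a} f) =
        ind {y : Cell S F X.Mk | ch y.n y.r.1.2 = a} (Gl S F X.L f) := by
      unfold Gl
      rw [ind_pull]
      congr 2
      ext y
      show ch (y.n * sW y.r.1.2) y.r.1.2 = a ↔ ch y.n y.r.1.2 = a
      rw [ch_mul, ch_sW, add_zero]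
    rw [e, h2]
  · have h2 := mem_syG.1 hf.2
    refine mem_syG.2 ?_
    rw [← Tl_Gl, h2]

theorem km_labM [Cof G A] (q : AddChar F ℂ) :
    vd (Gh S F) (X.Km K S F s ⊓ X.asM S F ⊓ X.ran S F q) = vd (Gh S F) (X.Km K S F s ⊓ X.asM S F) / Fintype.card F := by
  refine vd_lab (mdl_Km.inf mdl_asM).cl (fun a f hf => ⟨ind_mem_Km (good_lT a) hf.1, ?_⟩)
    (fun x f hf => ⟨Tl_mem_Km x hf.1, ?_⟩) q
  · have h2 := mem_asM.1 hf.2
    refine mem_asM.2 ?_
    have e : Mi S F X.L (ind {y : Cell S F X.Mk | ch y.n y.r.1.2 = a} f) =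
        ind {y : Cell S F X.Mk | ch y.n y.r.1.2 = a} (Mi S F X.L f) := by
      unfold Mi
      rw [ind_pull]
      congr 2
      ext y
      show ch (y.n * sW y.r.1.2) y.r.1.2 = a ↔ ch y.n y.r.1.2 = a
      rw [ch_mul, ch_sW, add_zero]
    rw [e, h2, map_neg]
  · have h2 := mem_asM.1 hf.2
    refine mem_asM.2 ?_
    rw [← Tl_Mi, h2, map_neg]

end TSet

end Cm
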