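import Mathlib

/-!
# Integral matrices acting on functions with finite support

`lin β` : for `β : E → F →₀ ℤ` the map `(E →₀ M) →+ (F →₀ M)` given by the matrix `β`, for every abelian group `M`.
-/

set_option autoImplicit false
set_option linter.unusedSectionVars false
set_option linter.unusedVariables false

namespace Cm

section lin
variable {E F E' F' : Type*} {M : Type*} [AddCommGroup M]

/-- the product of an integral function with an element of `M` -/
noncomputable def ms (m : M) (f : F →₀ ℤ) : F →₀ M := f.mapRange (fun k => k • m) (zero_smul ℤ m)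

@[simp] lemma ms_apply (m : M) (f : F →₀ ℤ) (y : F) : ms m f y = f y • m := Finsupp.mapRange_apply ..

@[simp] lemma ms_zero_left (f : F →₀ ℤ) : ms (0 : M) f = 0 := by ext y; simp

@[simp] lemma ms_zero_right (m : M) : ms m (0 : F →₀ ℤ) = 0 := by ext y; simp

lemma ms_add_left (m m' : M) (f : F →₀ ℤ) : ms (m + m') f = ms m f + ms m' f := by ext y; simp [smul_add]

lemma ms_add_right (m : M) (f g : F →₀ ℤ) : ms m (f + g) = ms m f + ms m g := by ext y; simp [add_smul]

lemma ms_neg_right (m : M) (f : F →₀ ℤ) : ms m (-f) = -ms m f := by ext y; simp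

@[simp] lemma ms_single (m : M) (y : F) (k : ℤ) : ms m (Finsupp.single y k) = Finsupp.single y (k • m) := by
  classical
  ext z
  rw [ms_apply, Finsupp.single_apply, Finsupp.single_apply]
  split_ifs <;> simp

lemma ms_smul (m : M) (k : ℤ) (f : F →₀ ℤ) : ms m (k • f) = k • ms m f := by ext y; simp [mul_smul]

lemma ms_one (f : F →₀ ℤ) : ms (1 : ℤ) f = f := by ext y; simp

/-- the homomorphism given by an integral matrix -/
noncomputable def lin (β : E → F →₀ ℤ) : (E →₀ M) →+ (F →₀ M) :=
  Finsupp.liftAddHom fun e =>
    { toFun := fun m => ms m (β e)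
      map_zero' := ms_zero_left _
      map_add' := fun m m' => ms_add_left m m' _ }

@[simp] lemma lin_single (β : E → F →₀ ℤ) (e : E) (m : M) : lin β (Finsupp.single e m) = ms m (β e) := by
  unfold lin
  rw [Finsupp.liftAddHom_apply_single]
  rfl

lemma lin_eq_sum (β : E → F →₀ ℤ) (f : E →₀ M) : lin β f = f.sum fun e m => ms m (β e) := rfl

lemma lin_apply (β : E → F →₀ ℤ) (f : E →₀ M) (y : F) : lin β f y = f.sum fun e m => β e y • m := by
  rw [lin_eq_sum, Finsupp.sum_apply]
  simp

lemma lin_ms (β : E → F →₀ ℤ) (m : M) (f : E →₀ ℤ) : lin β (ms m f) = ms m (lin β f) := by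
  induction f using Finsupp.induction_linear with
  | zero => simp
  | add f g hf hg => rw [ms_add_right, map_add, map_add, ms_add_right, hf, hg]
  | single e k =>
    rw [ms_single, lin_single, lin_single]
    ext y
    rw [ms_apply, ms_apply, ms_apply, smul_smul, smul_eq_mul]

/-- composition of matrices -/
lemma lin_lin (β : E → F →₀ ℤ) (β' : F → F' →₀ ℤ) (f : E →₀ M) : lin β' (lin β f) = lin (fun e => lin β' (β e)) f := by
  induction f using Finsupp.induction_linear with
  | zero => simp
  | add f g hf hg => rw [map_add, map_add, map_add, hf, hg]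
  | single e m => rw [lin_single, lin_single, lin_ms]

/-- two matrices which agree on the support -/
lemma lin_congr {β β' : E → F →₀ ℤ} {f : E →₀ M} (h : ∀ e ∈ f.support, β e = β' e) : lin β f = lin β' f := by
  rw [lin_eq_sum, lin_eq_sum]
  exact Finsupp.sum_congr fun e he => by rw [h e he]

lemma lin_add (β β' : E → F →₀ ℤ) (f : E →₀ M) : lin (fun e => β e + β' e) f = lin β f + lin β' f := by
  induction f using Finsupp.induction_linear with
  | zero => simp
  | add f g hf hg =>
    rw [map_add, hf, hg, map_add, map_add]
    abel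
  | single e m => rw [lin_single, lin_single, lin_single, ms_add_right]

lemma lin_neg (β : E → F →₀ ℤ) (f : E →₀ M) : lin (fun e => -β e) f = -lin β f := by
  induction f using Finsupp.induction_linear with
  | zero => simp
  | add f g hf hg =>
    rw [map_add, hf, hg, map_add]
    abel
  | single e m => rw [lin_single, lin_single, ms_neg_right]

lemma lin_zero_of {β : E → F →₀ ℤ} {f : E →₀ M} (h : ∀ e ∈ f.support, β e = 0) : lin β f = 0 := by
  rw [lin_congr (β' := fun _ => 0) h]
  ext y
  rw [lin_apply]
  simp

/-- the identity matrix -/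
lemma lin_id (f : E →₀ M) : lin (fun e => Finsupp.single e 1) f = f := by
  induction f using Finsupp.induction_linear with
  | zero => simp
  | add f g hf hg => rw [map_add, hf, hg]
  | single e m => rw [lin_single, ms_single, one_smul]

/-- the support of the image -/
lemma exists_of_lin_ne {β : E → F →₀ ℤ} {f : E →₀ M} {y : F} (h : lin β f y ≠ 0) : ∃ e, f e ≠ 0 ∧ β e y ≠ 0 := by
  rw [lin_apply] at h
  obtain ⟨e, he, h1⟩ := Finset.exists_ne_zero_of_sum_ne_zero h
  exact ⟨e, Finsupp.mem_support_iff.1 he, fun h2 => h1 (by simp only [h2, zero_smul])⟩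

/-- the values of the image -/
lemma lin_mem {β : E → F →₀ ℤ} {f : E →₀ M} {y : F} {V : AddSubgroup M} (h : ∀ e, f e ≠ 0 → β e y ≠ 0 → f e ∈ V) :
    lin β f y ∈ V := by
  rw [lin_apply]
  refine AddSubgroup.sum_mem _ fun e he => ?_
  show β e y • f e ∈ V
  by_cases h1 : β e y = 0
  · rw [h1, zero_smul]
    exact V.zero_mem
  · exact V.zsmul_mem (h e (Finsupp.mem_support_iff.1 he) h1) _

/-- transport of the support -/
lemma lin_mapDomain (φ : E' → E) (β : E → F →₀ ℤ) (f : E' →₀ M) :
    lin β (f.mapDomain φ) = lin (fun e => β (φ e)) f := by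
  induction f using Finsupp.induction_linear with
  | zero => simp
  | add f g hf hg => rw [Finsupp.mapDomain_add, map_add, hf, hg, map_add]
  | single e m => rw [Finsupp.mapDomain_single, lin_single, lin_single]

lemma ms_mapDomain (φ : F → F') (m : M) (f : F →₀ ℤ) : ms m (f.mapDomain φ) = (ms m f).mapDomain φ := by
  induction f using Finsupp.induction_linear with
  | zero => simp
  | add f g hf hg => rw [Finsupp.mapDomain_add, ms_add_right, hf, hg, ms_add_right, Finsupp.mapDomain_add]
  | single e k => rw [Finsupp.mapDomain_single, ms_single, ms_single, Finsupp.mapDomain_single]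

lemma mapDomain_lin (φ : F → F') (β : E → F →₀ ℤ) (f : E →₀ M) :
    (lin β f).mapDomain φ = lin (fun e => (β e).mapDomain φ) f := by
  induction f using Finsupp.induction_linear with
  | zero => simp
  | add f g hf hg => rw [map_add, Finsupp.mapDomain_add, hf, hg, map_add]
  | single e m => rw [lin_single, lin_single, ms_mapDomain]

end lin

end Cm
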