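import Pool.Agent.Cm.Cube
import Pool.Agent.Cm.Lin

/-!
# Mirror inequality: the cellular chain complex of a median graph

* `scons t z` : the ordered corner with the first letter `t` and the rest `z`;
* `inc hX C C'` : the incidence number of the face `C'` in `C`; `bdK hX C` : the boundary of the cube `C`;
* `bdK_bdK` : the boundary of the boundary is zero;
* `sgc hX g C` : the sign of `g` on `C`.
-/

set_option autoImplicit false
set_option linter.unusedSectionVars false
set_option linter.unusedVariables false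

open scoped Pointwise

namespace Cm

open Npc (Median hs mem_hs dirSet mk_mem_dirSet flip_mk square_of_cross cross_of_square GraphAct)

variable {P : Type*} {X : SimpleGraph P} {hX : Median X} {j : ℕ}

/-! ### a new first letter -/

/-- a new first letter -/
def scons (t : Npc.Hyp X) (z : SCell (medSq hX) j) (h : t ∈ dirSet X z.k ∧ ∀ i, Npc.Hyp.Cross t (z.τ i)) :
    SCell (medSq hX) (j + 1) where
  k := z.k
  τ := Fin.cons t z.τ
  dir i := by
    refine Fin.cases ?_ (fun i => ?_) i
    · exact h.1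
    · exact z.dir i
  adj i i' hii := by
    revert hii
    refine Fin.cases ?_ (fun i => ?_) i
    · refine Fin.cases ?_ (fun i' => ?_) i'
      · intro hii
        exact absurd rfl hii
      · intro hii
        exact h.2 i'
    · refine Fin.cases ?_ (fun i' => ?_) i'
      · intro hii
        exact (show (medSq hX).C.Adj t (z.τ i) from h.2 i).symm
      · intro hii
        exact z.adj i i' fun h' => hii (by rw [h'])

section scons
variable (t : Npc.Hyp X) (z : SCell (medSq hX) j) (h : t ∈ dirSet X z.k ∧ ∀ i, Npc.Hyp.Cross t (z.τ i))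

@[simp] lemma scons_k : (scons t z h).k = z.k := rfl
@[simp] lemma scons_zero : (scons t z h).τ 0 = t := rfl
@[simp] lemma scons_succ (i : Fin j) : (scons t z h).τ i.succ = z.τ i := rfl
@[simp] lemma tail_scons : (scons t z h).tail = z := rfl

lemma mem_lts_scons {u : Npc.Hyp X} : u ∈ lts (scons t z h) ↔ u = t ∨ u ∈ lts z := by
  rw [mem_lts, mem_lts]
  constructor
  · rintro ⟨i, hi⟩
    revert hi
    refine Fin.cases ?_ (fun i => ?_) i
    · intro hi
      exact Or.inl hi.symm
    · intro hi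
      exact Or.inr ⟨i, hi⟩
  · rintro (rfl | ⟨i, hi⟩)
    · exact ⟨0, rfl⟩
    · exact ⟨i.succ, hi⟩

lemma notMem_lts_of (t : Npc.Hyp X) (z : SCell (medSq hX) j)
    (h : t ∈ dirSet X z.k ∧ ∀ i, Npc.Hyp.Cross t (z.τ i)) : t ∉ lts z := by
  intro h'
  obtain ⟨i, rfl⟩ := mem_lts.1 h'
  exact hX.crossG.irrefl (h.2 i)

lemma scons_gl (i : Fin j) (h' : t ∈ dirSet X (z.gl i).k ∧ ∀ i', Npc.Hyp.Cross t ((z.gl i).τ i')) :
    (scons t z h).gl i.succ = scons t (z.gl i) h' := SCell.ext rfl rfl

lemma scons_pm (π : Equiv.Perm (Fin j)) (h' : t ∈ dirSet X (z.pm π).k ∧ ∀ i', Npc.Hyp.Cross t ((z.pm π).τ i')) :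
    (scons t z h).pm (Npc.Cell.ex π) = scons t (z.pm π) h' := by
  refine SCell.ext rfl (funext fun i => ?_)
  refine Fin.cases ?_ (fun i => ?_) i
  · rw [SCell.pm_τ, Npc.Cell.ex_zero]
    rfl
  · rw [SCell.pm_τ, Npc.Cell.ex_succ]
    rfl

end scons

lemma scons_tail (y : SCell (medSq hX) (j + 1)) (h : y.τ 0 ∈ dirSet X y.tail.k ∧
    ∀ i, Npc.Hyp.Cross (y.τ 0) (y.tail.τ i)) : scons (y.τ 0) y.tail h = y := by
  refine SCell.ext rfl (funext fun i => ?_)
  refine Fin.cases rfl (fun i => rfl) i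

lemma tail_cond (y : SCell (medSq hX) (j + 1)) : y.τ 0 ∈ dirSet X y.tail.k ∧
    ∀ i, Npc.Hyp.Cross (y.τ 0) (y.tail.τ i) :=
  ⟨y.dir 0, fun i => y.adj 0 i.succ (Fin.succ_ne_zero i).symm⟩

/-- the condition depends on the cube only -/
lemma cond_of_cell {t : Npc.Hyp X} {z z' : SCell (medSq hX) j} (hc : cell z = cell z')
    (h : t ∈ dirSet X z.k ∧ ∀ i, Npc.Hyp.Cross t (z.τ i)) : t ∈ dirSet X z'.k ∧ ∀ i, Npc.Hyp.Cross t (z'.τ i) := by
  have h1 : lts z' = lts z := by rw [← hy_cell, ← hy_cell, hc]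
  constructor
  · have h2 : z'.k ∈ cub (scons t z h).k (lts (scons t z h)) := by
      have h3 := k_mem_cell z'
      rw [← hc] at h3
      intro u hu
      rw [mem_lts_scons]
      exact Or.inr (h3 u hu)
    have h4 := (lts_cross (scons t z h)).of_mem hX h2
    exact h4.dir t ((mem_lts_scons t z h).2 (Or.inl rfl))
  · intro i
    have h2 : z'.τ i ∈ lts z := by
      rw [← h1]
      exact mem_lts.2 ⟨i, rfl⟩
    obtain ⟨i', hi'⟩ := mem_lts.1 h2
    rw [← hi']
    exact h.2 i'

/-- the sign of `t, z` relative to the sign of `z` depends on the cube of `z` only -/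
lemma ori_scons {t : Npc.Hyp X} {z z' : SCell (medSq hX) j} (hc : cell z' = cell z)
    (h : t ∈ dirSet X z.k ∧ ∀ i, Npc.Hyp.Cross t (z.τ i)) (h' : t ∈ dirSet X z'.k ∧ ∀ i, Npc.Hyp.Cross t (z'.τ i)) :
    ori z' * ori (scons t z' h') = ori z * ori (scons t z h) := by
  classical
  let f : SCell (medSq hX) j → ℤ := fun z => if h : t ∈ dirSet X z.k ∧ ∀ i, Npc.Hyp.Cross t (z.τ i) then
    ori (scons t z h) else 0
  have e1 : ∀ w : SCell (medSq hX) j, ∀ hw : t ∈ dirSet X w.k ∧ ∀ i, Npc.Hyp.Cross t (w.τ i),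
      f w = ori (scons t w hw) := fun w hw => dif_pos hw
  have key := ori_mul_eq z (f := f) (y := z') ?_ ?_ hc
  · rw [e1 z' h', e1 z h] at key
    exact key
  · intro i y hy
    have hw := cond_of_cell hy.symm h
    have hw' := cond_of_cell ((cell_gl i y).trans hy).symm h
    rw [e1 _ hw, e1 _ hw', ← scons_gl t y hw i hw', ori_gl]
  · intro π y hy
    have hw := cond_of_cell hy.symm h
    have hw' := cond_of_cell ((cell_pm π y).trans hy).symm h
    rw [e1 _ hw, e1 _ hw', ← scons_pm t y hw π hw', ori_pm, Npc.Cell.sign_ex]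

/-- the first letter is determined by the cube and the face -/
lemma first_unique {y y' : SCell (medSq hX) (j + 1)} (h1 : cell y = cell y') (h2 : cell y.tail = cell y'.tail) :
    y.τ 0 = y'.τ 0 := by
  have h3 : lts y = lts y' := by rw [← hy_cell, ← hy_cell, h1]
  have h4 : lts y.tail = lts y'.tail := by rw [← hy_cell, ← hy_cell, h2]
  have h5 : y.τ 0 ∈ lts y' := by
    rw [← h3]
    exact mem_lts.2 ⟨0, rfl⟩
  rw [← scons_tail y' (tail_cond y'), mem_lts_scons] at h5
  rcases h5 with h5 | h5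
  · exact h5
  · rw [← h4] at h5
    exact absurd h5 (notMem_lts_of _ _ (tail_cond y))

lemma ori_tail_unique {y y' : SCell (medSq hX) (j + 1)} (h1 : cell y = cell y') (h2 : cell y.tail = cell y'.tail) :
    ori y * ori y.tail = ori y' * ori y'.tail := by
  have h3 := first_unique h1 h2
  have e1 : scons (y.τ 0) y.tail (tail_cond y) = y := scons_tail y _
  have c : y.τ 0 ∈ dirSet X y'.tail.k ∧ ∀ i, Npc.Hyp.Cross (y.τ 0) (y'.tail.τ i) := by
    rw [h3]
    exact tail_cond y'
  have e2 : scons (y.τ 0) y'.tail c = y' := by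
    have : ∀ t (ht : t = y'.τ 0) (c : t ∈ dirSet X y'.tail.k ∧ ∀ i, Npc.Hyp.Cross t (y'.tail.τ i)),
        scons t y'.tail c = y' := by
      rintro t rfl c
      exact scons_tail y' c
    exact this _ h3 c
  have h4 := ori_scons h2 c (tail_cond y)
  rw [e1, e2] at h4
  rw [mul_comm, h4, mul_comm]

/-! ### incidence numbers -/

open Classical in
/-- the incidence number of a face of dimension `j` -/
noncomputable def incj (hX : Median X) (j : ℕ) (C C' : Cub X) : ℤ :=
  if h : ∃ y : SCell (medSq hX) (j + 1), cell y = C ∧ cell y.tail = C' then ori h.choose * ori h.choose.tail else 0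

/-- the incidence number of the face `C'` in `C` -/
noncomputable def inc (hX : Median X) (C C' : Cub X) : ℤ := incj hX (cdim hX C') C C'

lemma incj_eq (y : SCell (medSq hX) (j + 1)) : incj hX j (cell y) (cell y.tail) = ori y * ori y.tail := by
  have h : ∃ y' : SCell (medSq hX) (j + 1), cell y' = cell y ∧ cell y'.tail = cell y.tail := ⟨y, rfl, rfl⟩
  unfold incj
  rw [dif_pos h]
  exact ori_tail_unique h.choose_spec.1 h.choose_spec.2

lemma inc_eq (y : SCell (medSq hX) (j + 1)) : inc hX (cell y) (cell y.tail) = ori y * ori y.tail := by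
  unfold inc
  rw [cdim_cell]
  exact incj_eq y

lemma inc_scons (t : Npc.Hyp X) (z : SCell (medSq hX) j) (h : t ∈ dirSet X z.k ∧ ∀ i, Npc.Hyp.Cross t (z.τ i)) :
    inc hX (cell (scons t z h)) (cell z) = ori (scons t z h) * ori z := inc_eq (scons t z h)

lemma exists_of_inc {C C' : Cub X} (h : inc hX C C' ≠ 0) :
    ∃ y : SCell (medSq hX) (cdim hX C' + 1), cell y = C ∧ cell y.tail = C' := by
  unfold inc incj at h
  by_contra h'
  rw [dif_neg h'] at h
  exact h rfl

lemma tail_subset (y : SCell (medSq hX) (j + 1)) : (cell y.tail).1 ⊆ (cell y).1 := by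
  refine subset_of_hy hX (x := y.k) (k_mem_cell y) (k_mem_cell y.tail) ?_
  rw [hy_cell, hy_cell]
  intro t ht
  obtain ⟨i, rfl⟩ := mem_lts.1 ht
  exact mem_lts.2 ⟨i.succ, rfl⟩

lemma inc_ne {C C' : Cub X} (h : inc hX C C' ≠ 0) : C'.1 ⊆ C.1 ∧ cdim hX C' + 1 = cdim hX C := by
  obtain ⟨y, h1, h2⟩ := exists_of_inc h
  constructor
  · have h3 := tail_subset y
    rw [h1, h2] at h3
    exact h3
  · rw [← h1, cdim_cell]

/-- the letters of a cube besides those of a face -/
lemma cond_of_subset {C : Cub X} {z : SCell (medSq hX) j} (h : (cell z).1 ⊆ C.1) {t : Npc.Hyp X}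
    (ht : t ∈ hy hX C) (ht' : t ∉ lts z) : t ∈ dirSet X z.k ∧ ∀ i, Npc.Hyp.Cross t (z.τ i) := by
  have h1 := Cub.cross hX (C := C) (h (k_mem_cell z))
  refine ⟨h1.dir t ht, fun i => h1.cross t ht _ ?_ ?_⟩
  · refine hy_mono hX h ?_
    rw [hy_cell]
    exact mem_lts.2 ⟨i, rfl⟩
  · rintro rfl
    exact ht' (mem_lts.2 ⟨i, rfl⟩)

lemma exists_scons {C : Cub X} {z : SCell (medSq hX) j} (h : (cell z).1 ⊆ C.1) (hd : j + 1 = cdim hX C) :
    ∃ t, ∃ c : t ∈ dirSet X z.k ∧ ∀ i, Npc.Hyp.Cross t (z.τ i), cell (scons t z c) = C := by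
  classical
  have h1 : lts z ⊆ hy hX C := by
    rw [← hy_cell]
    exact hy_mono hX h
  have h2 : (hy hX C \ lts z).Nonempty := by
    rw [← Finset.card_pos, Finset.card_sdiff_of_subset h1, card_lts]
    unfold cdim at hd
    omega
  obtain ⟨t, ht⟩ := h2
  rw [Finset.mem_sdiff] at ht
  refine ⟨t, cond_of_subset h ht.1 ht.2, (cell_eq_iff (j' := 0)).2 ⟨h (k_mem_cell z), ?_⟩⟩
  refine Finset.eq_of_subset_of_card_le ?_ ?_
  · intro u hu
    rcases (mem_lts_scons _ _ _).1 hu with rfl | hu
    · exact ht.1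
    · exact h1 hu
  · rw [card_lts, hd]
    exact le_refl _

lemma inc_sq {C C' : Cub X} (h : C'.1 ⊆ C.1) (hd : cdim hX C' + 1 = cdim hX C) : inc hX C C' * inc hX C C' = 1 := by
  have e1 : cell (base hX C' rfl) = C' := cell_base rfl
  obtain ⟨t, c, hc⟩ := exists_scons (z := base hX C' rfl) (C := C) (by rw [e1]; exact h) hd
  have h1 := inc_scons t _ c
  rw [hc, e1] at h1
  rw [h1, mul_mul_mul_comm, ori_sq, ori_sq, one_mul]

/-! ### the boundary -/

lemma faces_finite (hX : Median X) (C : Cub X) : {C' : Cub X | C'.1 ⊆ C.1}.Finite := by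
  have h1 : Set.InjOn (fun C' : Cub X => C'.1) {C' : Cub X | C'.1 ⊆ C.1} := fun C' _ C'' _ h => Subtype.ext h
  exact Set.Finite.of_injOn (t := 𝒫 C.1) (fun C' h => h) h1 (Cub.finite hX C).powerset

/-- the boundary of a cube -/
noncomputable def bdK (hX : Median X) (C : Cub X) : Cub X →₀ ℤ :=
  Finsupp.onFinset (faces_finite hX C).toFinset (inc hX C) fun C' h => by
    rw [Set.Finite.mem_toFinset]
    exact (inc_ne h).1

@[simp] lemma bdK_apply (C C' : Cub X) : bdK hX C C' = inc hX C C' := rfl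

lemma scons2_swap {t u : Npc.Hyp X} {z : SCell (medSq hX) j}
    (ht : t ∈ dirSet X z.k ∧ ∀ i, Npc.Hyp.Cross t (z.τ i)) (hu : u ∈ dirSet X z.k ∧ ∀ i, Npc.Hyp.Cross u (z.τ i))
    (h1 : t ∈ dirSet X (scons u z hu).k ∧ ∀ i, Npc.Hyp.Cross t ((scons u z hu).τ i))
    (h2 : u ∈ dirSet X (scons t z ht).k ∧ ∀ i, Npc.Hyp.Cross u ((scons t z ht).τ i)) :
    (scons t (scons u z hu) h1).pm (Equiv.swap 0 1) = scons u (scons t z ht) h2 := by
  refine SCell.ext rfl (funext fun i => ?_)
  rw [SCell.pm_τ]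
  refine Fin.cases ?_ (fun i => ?_) i
  · rw [Equiv.swap_apply_left]
    rfl
  · refine Fin.cases ?_ (fun i => ?_) i
    · have : (Fin.succ 0 : Fin (j + 2)) = 1 := rfl
      rw [this, Equiv.swap_apply_right]
      rfl
    · rw [Equiv.swap_apply_of_ne_of_ne]
      · rfl
      · exact Fin.succ_ne_zero _
      · intro h
        rw [← Fin.succ_zero_eq_one] at h
        exact Fin.succ_ne_zero _ (Fin.succ_injective _ h)

/-- **the boundary of the boundary is zero** -/
theorem bdK_bdK (C : Cub X) : lin (bdK hX) (bdK hX C) = 0 := by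
  classical
  ext C''
  rw [lin_apply, Finsupp.coe_zero, Pi.zero_apply]
  by_cases hex : ∃ C', inc hX C C' ≠ 0 ∧ inc hX C' C'' ≠ 0
  · obtain ⟨C', h1, h2⟩ := hex
    obtain ⟨h1, h3⟩ := inc_ne h1
    obtain ⟨h2, h4⟩ := inc_ne h2
    -- the two letters
    obtain ⟨z, e0⟩ : ∃ z : SCell (medSq hX) (cdim hX C''), cell z = C'' := ⟨base hX C'' rfl, cell_base rfl⟩
    generalize cdim hX C'' = j at z e0 h4
    subst e0
    obtain ⟨u, hu, hu'⟩ := exists_scons (z := z) (C := C') h2 h4
    obtain ⟨t, ht1, ht1'⟩ := exists_scons (z := scons u z hu) (C := C) (by rw [hu']; exact h1) (by omega)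
    have htz : t ∉ lts z := fun h => (notMem_lts_of t _ ht1) ((mem_lts_scons u z hu).2 (Or.inr h))
    have hzC : (cell z).1 ⊆ C.1 := h2.trans h1
    have htC : t ∈ hy hX C := by
      rw [← ht1', hy_cell]
      exact mem_lts.2 ⟨0, rfl⟩
    have huC : u ∈ hy hX C := by
      rw [← ht1', hy_cell]
      exact mem_lts.2 ⟨1, rfl⟩
    have htu : t ≠ u := by
      rintro rfl
      exact (notMem_lts_of t _ ht1) ((mem_lts_scons t z hu).2 (Or.inl rfl))
    have ht := cond_of_subset hzC htC htz
    have hu2 : u ∈ dirSet X (scons t z ht).k ∧ ∀ i, Npc.Hyp.Cross u ((scons t z ht).τ i) := by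
      refine ⟨hu.1, fun i => ?_⟩
      refine Fin.cases ?_ (fun i => ?_) i
      · exact (show (medSq hX).C.Adj t u from ht1.2 0).symm
      · exact hu.2 i
    have hsw := scons2_swap ht hu ht1 hu2
    have ht2' : cell (scons u (scons t z ht) hu2) = C := by
      rw [← hsw, cell_pm, ht1']
    -- the two terms
    have i1 : inc hX C (cell (scons u z hu)) = ori (scons t (scons u z hu) ht1) * ori (scons u z hu) := by
      rw [← ht1']
      exact inc_scons t _ ht1
    have i2 : inc hX (cell (scons u z hu)) (cell z) = ori (scons u z hu) * ori z := inc_scons u z hu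
    have i3 : inc hX C (cell (scons t z ht)) = ori (scons u (scons t z ht) hu2) * ori (scons t z ht) := by
      rw [← ht2']
      exact inc_scons u _ hu2
    have i4 : inc hX (cell (scons t z ht)) (cell z) = ori (scons t z ht) * ori z := inc_scons t z ht
    have hne : cell (scons u z hu) ≠ cell (scons t z ht) := by
      intro h
      have h5 : lts (scons u z hu) = lts (scons t z ht) := by rw [← hy_cell, ← hy_cell, h]
      have h6 : t ∈ lts (scons u z hu) := by
        rw [h5]
        exact mem_lts.2 ⟨0, rfl⟩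
      rcases (mem_lts_scons u z hu).1 h6 with h7 | h7
      · exact htu h7
      · exact htz h7
    have hsum : ((bdK hX C).sum fun C' m => bdK hX C' (cell z) • m) =
        bdK hX (cell (scons u z hu)) (cell z) • bdK hX C (cell (scons u z hu)) +
        bdK hX (cell (scons t z ht)) (cell z) • bdK hX C (cell (scons t z ht)) := by
      refine Finset.sum_eq_add_of_mem _ _ ?_ ?_ hne ?_
      · rw [Finsupp.mem_support_iff, bdK_apply, i1]
        exact mul_ne_zero (ori_ne _) (ori_ne _)
      · rw [Finsupp.mem_support_iff, bdK_apply, i3]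
        exact mul_ne_zero (ori_ne _) (ori_ne _)
      · intro c hc hc2
        rw [Finsupp.mem_support_iff, bdK_apply] at hc
        by_contra h
        have h6 : inc hX c (cell z) ≠ 0 := fun h' => h (by
          show bdK hX c (cell z) • bdK hX C c = 0
          rw [bdK_apply, h', zero_smul])
        obtain ⟨h7, h8⟩ := inc_ne hc
        obtain ⟨h9, h10⟩ := inc_ne h6
        rw [cdim_cell] at h10
        obtain ⟨s, hs, hs'⟩ := exists_scons (z := z) (C := c) h9 h10
        have h11 : s ∈ hy hX C := by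
          refine hy_mono hX h7 ?_
          rw [← hs', hy_cell]
          exact mem_lts.2 ⟨0, rfl⟩
        rw [← ht1', hy_cell, mem_lts_scons, mem_lts_scons] at h11
        rcases h11 with rfl | rfl | h11
        · exact hc2.2 hs'.symm
        · exact hc2.1 hs'.symm
        · exact notMem_lts_of s z hs h11
    rw [hsum, bdK_apply, bdK_apply, bdK_apply, bdK_apply, i1, i2, i3, i4, ← hsw, ori_pm, Equiv.Perm.sign_swap
      Fin.zero_ne_one, smul_eq_mul, smul_eq_mul]
    have e1 : ori (scons u z hu) * ori z * (ori (scons t (scons u z hu) ht1) * ori (scons u z hu)) =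
        (ori (scons u z hu) * ori (scons u z hu)) * (ori (scons t (scons u z hu) ht1) * ori z) := by ring
    have e2 : ori (scons t z ht) * ori z * (((-1 : ℤˣ) : ℤ) * ori (scons t (scons u z hu) ht1) *
        ori (scons t z ht)) = (ori (scons t z ht) * ori (scons t z ht)) *
        (-(ori (scons t (scons u z hu) ht1) * ori z)) := by
      rw [Units.val_neg, Units.val_one]
      ring
    rw [e1, e2, ori_sq, ori_sq]
    ring
  · refine Finset.sum_eq_zero fun C' hC' => ?_
    by_contra h
    refine hex ⟨C', Finsupp.mem_support_iff.1 hC', fun h' => h ?_⟩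
    show bdK hX C' C'' • bdK hX C C' = 0
    rw [bdK_apply, h', zero_smul]

/-! ### the action -/

section act
variable {G : Type*} [Group G] [MulAction G P] [hA : GraphAct G X]

instance : MulAction G (SCell (medSq hX) j) where
  smul g y := ⟨g • y.k, fun i => g • y.τ i, fun i => (Npc.smul_mem_dirSet g _ _).2 (y.dir i),
    fun i i' h => (Npc.cross_smul g _ _).2 (y.adj i i' h)⟩
  one_smul y := SCell.ext (one_smul _ _) (funext fun i => one_smul _ _)
  mul_smul g g' y := SCell.ext (mul_smul _ _ _) (funext fun i => mul_smul _ _ _)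

lemma scell_smul_k (g : G) (y : SCell (medSq hX) j) : (g • y).k = g • y.k := rfl
lemma scell_smul_τ (g : G) (y : SCell (medSq hX) j) (i : Fin j) : (g • y).τ i = g • y.τ i := rfl
lemma smul_tail (g : G) (y : SCell (medSq hX) (j + 1)) : (g • y).tail = g • y.tail := rfl
lemma smul_pm (g : G) (π : Equiv.Perm (Fin j)) (y : SCell (medSq hX) j) : (g • y).pm π = g • y.pm π := rfl

lemma flip_smul (hX : Median X) (g : G) (t : Npc.Hyp X) (k : P) : Npc.flip (g • t) (g • k) = g • Npc.flip t k := by
  by_cases h : t ∈ dirSet X k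
  · obtain ⟨a, ha, rfl⟩ := h
    rw [flip_mk hX, Npc.smul_mk, flip_mk hX]
  · rw [flip_of_notMem h, flip_of_notMem fun h' => h ((Npc.smul_mem_dirSet g t k).1 h')]

lemma smul_gl (g : G) (i : Fin j) (y : SCell (medSq hX) j) : (g • y).gl i = g • y.gl i :=
  SCell.ext (flip_smul hX g _ _) rfl

lemma mem_lts_smul (g : G) (y : SCell (medSq hX) j) (t : Npc.Hyp X) : g • t ∈ lts (g • y) ↔ t ∈ lts y := by
  rw [mem_lts, mem_lts]
  constructor
  · rintro ⟨i, hi⟩
    exact ⟨i, smul_left_cancel g hi⟩
  · rintro ⟨i, hi⟩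
    exact ⟨i, by rw [scell_smul_τ, hi]⟩

lemma cell_smul (g : G) (y : SCell (medSq hX) j) : cell (g • y) = g • cell y := by
  refine (cell_eq_iff (j' := 0)).2 ⟨(Cub.smul_mem g _ _).2 (k_mem_cell y), ?_⟩
  ext t
  obtain ⟨u, rfl⟩ : ∃ u, t = g • u := ⟨g⁻¹ • t, (smul_inv_smul g t).symm⟩
  rw [mem_lts_smul, mem_hy_smul, hy_cell]

/-- the sign of `g` on the cube `C` -/
noncomputable def sgc (hX : Median X) (g : G) (C : Cub X) : ℤ := ori (g • base hX C rfl) * ori (base hX C rfl)

lemma sgc_aux (g : G) {y y' : SCell (medSq hX) j} (h : cell y' = cell y) :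
    ori (g • y') * ori y' = ori (g • y) * ori y := by
  rw [mul_comm, mul_comm (ori (g • y))]
  refine ori_mul_eq y (f := fun y => ori (g • y)) ?_ ?_ h
  · intro i w hw
    show ori (g • w.gl i) = -ori (g • w)
    rw [← smul_gl, ori_gl]
  · intro π w hw
    show ori (g • w.pm π) = (Equiv.Perm.sign π : ℤ) * ori (g • w)
    rw [← smul_pm, ori_pm]

lemma sgc_eq (g : G) (y : SCell (medSq hX) j) : sgc hX g (cell y) = ori (g • y) * ori y := by
  have key : ∀ (i : ℕ) (C : Cub X) (hC : cdim hX C = i) (y : SCell (medSq hX) i), cell y = C →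
      sgc hX g C = ori (g • y) * ori y := by
    rintro i C rfl y h
    exact sgc_aux g ((cell_base rfl).trans h.symm)
  exact key j (cell y) (cdim_cell y) y rfl

lemma exists_scell (C : Cub X) : ∃ y : SCell (medSq hX) (cdim hX C), cell y = C := ⟨_, cell_base rfl⟩

lemma sgc_sq (g : G) (C : Cub X) : sgc hX g C * sgc hX g C = 1 := by
  unfold sgc
  rw [mul_mul_mul_comm, ori_sq, ori_sq, one_mul]

lemma sgc_mul (g g' : G) (C : Cub X) : sgc hX (g * g') C = sgc hX g (g' • C) * sgc hX g' C := by
  obtain ⟨y, hy⟩ := exists_scell (hX := hX) C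
  rw [← hy, ← cell_smul, sgc_eq, sgc_eq, sgc_eq, mul_smul]
  rw [mul_assoc, ← mul_assoc (ori (g' • y)), ori_sq, one_mul]

/-- the incidence numbers are equivariant -/
theorem inc_smul (g : G) (C C' : Cub X) :
    sgc hX g C * inc hX (g • C) (g • C') = sgc hX g C' * inc hX C C' := by
  by_cases h : inc hX C C' = 0
  · have h' : inc hX (g • C) (g • C') = 0 := by
      by_contra hne
      obtain ⟨h1, h2⟩ := inc_ne hne
      rw [cdim_smul, cdim_smul] at h2
      have h3 : C'.1 ⊆ C.1 := Set.smul_set_subset_smul_set_iff.1 h1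
      have h4 := inc_sq (hX := hX) h3 h2
      rw [h, mul_zero] at h4
      exact zero_ne_one h4
    rw [h, h', mul_zero, mul_zero]
  · obtain ⟨y, h1, h2⟩ := exists_of_inc h
    generalize cdim hX C' = i at y
    subst h1 h2
    rw [← cell_smul, ← cell_smul, ← smul_tail, inc_eq, inc_eq, sgc_eq, sgc_eq, smul_tail]
    have e1 : ori (g • y) * ori y * (ori (g • y) * ori (g • y.tail)) =
        (ori (g • y) * ori (g • y)) * (ori y * ori (g • y.tail)) := by ring
    have e2 : ori (g • y.tail) * ori y.tail * (ori y * ori y.tail) =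
        (ori y.tail * ori y.tail) * (ori y * ori (g • y.tail)) := by ring
    rw [e1, e2, ori_sq, ori_sq]

end act

end Cm
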