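import Pool.Agent.Cm.Cof
import Pool.Agent.Npc.Km

/-!
# Mirror inequality: the marked cycles `Km`

`mdl_Km` : closed and invariant; `ind_mem_Km` : invariance under indicator functions of good sets;
`Tl_mem_Km` : invariance under the translations of the label of the marker.
-/

set_option autoImplicit false
set_option linter.unusedSectionVars false
set_option linter.unusedVariables false

open scoped ComplexConjugate InnerProductSpace
open Filter Topology

namespace Cm

open Singer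
open Npc (plf plf_apply psf psf_apply psf_pull Fibre ind ind_apply ind_mem ind_notMem ind_ind ind_add ind_pull ind_psf
  Cof act Equi equi_pull equi_mul St av av_apply av_comm Mdl mdl_ker map_closure_le)

/-- `T h` is invariant under the moves of the hyperplanes different from `h` -/
structure GdT {H G : Type*} [Group G] [MulAction G H] {S : Hyp H G} {F : Type*} [AddCommGroup F]
    (T : H → Set (NN S F)) : Prop where
  w : ∀ h t, t ≠ h → ∀ n, n * sW t ∈ T h ↔ n ∈ T h
  a : ∀ h t, t ≠ h → ∀ x n, n * eA t x ∈ T h ↔ n ∈ T h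

namespace TSet
variable {H G : Type*} [Group G] [MulAction G H] {S : Hyp H G} {F : Type*} [AddCommGroup F] [Fintype F]
variable {A B : Type*} [MulAction G A] [MulAction G B] {X : TSet H G A} {K : Kern G A B} {s : AddChar F ℂ → St}

lemma act_onS (g : Gh S F) (h : H) (f : L2 (Cell S F X.Mk)) :
    ind (X.onS S F h) (act g f) = act g (ind (X.onS S F (g.right⁻¹ • h)) f) := by
  unfold act
  rw [ind_pull]
  have e : (fun y : Cell S F X.Mk => g⁻¹ • y) ⁻¹' X.onS S F (g.right⁻¹ • h) = X.onS S F h := by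
    ext y
    show (g⁻¹).right • y.r.1.2 = g.right⁻¹ • h ↔ y.r.1.2 = h
    rw [SemidirectProduct.inv_right]
    exact (MulAction.injective g.right⁻¹).eq_iff
  rw [e]

lemma act_offS (g : Gh S F) (h : H) (f : L2 (Cell S F A)) :
    ind (X.offS S F h) (act g f) = act g (ind (X.offS S F (g.right⁻¹ • h)) f) := by
  unfold act
  rw [ind_pull]
  have e : (fun y : Cell S F A => g⁻¹ • y) ⁻¹' X.offS S F (g.right⁻¹ • h) = X.offS S F h := by
    ext y
    show g.right⁻¹ • h ∉ X.T ((g⁻¹).right • y.r) ↔ h ∉ X.T y.r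
    rw [SemidirectProduct.inv_right, X.T_smul]
  rw [e]

lemma act_mem_Chh (g : Gh S F) (h : H) {f : L2 (Cell S F A)} (hf : f ∈ X.Chh S F s (g.right⁻¹ • h)) :
    act g f ∈ X.Chh S F s h := by
  rw [mem_Chh] at hf ⊢
  refine ⟨mdl_Ch.inv g f hf.1, ?_⟩
  rw [act_offS, hf.2]

lemma act_mem_Bdh (g : Gh S F) (h : H) {f : L2 (Cell S F B)} (hf : f ∈ X.Bdh K S F s (g.right⁻¹ • h)) :
    act g f ∈ X.Bdh K S F s h := by
  refine map_closure_le (act g) (Submodule.isClosed_topologicalClosure _) ?_ hf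
  rintro _ ⟨c, hc, rfl⟩
  show act g (K.D S F c) ∈ _
  rw [← K.equi_D]
  exact Submodule.le_topologicalClosure _ ⟨_, act_mem_Chh g h hc, rfl⟩

theorem mdl_Km : Mdl (Gh S F) (X.Km K S F s) := by
  constructor
  · intro g f hf
    rw [mem_Km] at hf ⊢
    refine ⟨mdl_Xm.inv g f hf.1, fun h => ?_⟩
    rw [act_onS, equi_up, K.equi_D]
    exact act_mem_Bdh g h (hf.2 _)
  · have h : (X.Km K S F s : Set (L2 (Cell S F X.Mk))) = (X.Xm S F s : Set (L2 (Cell S F X.Mk))) ∩
        ⋂ h : H, (X.Dh K S F h) ⁻¹' (X.Bdh K S F s h : Set (L2 (Cell S F B))) := by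
      ext f
      rw [SetLike.mem_coe, mem_Km]
      simp only [Set.mem_inter_iff, Set.mem_iInter]
      exact Iff.rfl
    rw [h]
    refine IsClosed.inter mdl_Xm.cl ?_
    exact isClosed_iInter fun h => (Submodule.isClosed_topologicalClosure _).preimage (ContinuousLinearMap.continuous _)

/-! ### good sets -/

variable (X) in
/-- the set of the cells with `n` in the set of the marker -/
def mkS (T : H → Set (NN S F)) : Set (Cell S F X.Mk) := {y | y.n ∈ T y.r.1.2}

lemma nT_hat {T : H → Set (NN S F)} (hT : GdT T) (h : H) (f : L2 (Cell S F A)) (hf : ind (X.offS S F h) f = f) :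
    ∀ ψ σ, Rl S F X.L ψ σ (X.hat S F (ind {y | y.n ∈ T h} f)) = ind {y : Cell S F X.Mk | y.n ∈ T h ∧ y.r.1.2 ≠ h}
      (Rl S F X.L ψ σ (X.hat S F f)) := by
  classical
  intro ψ σ
  have e : X.hat S F (ind {y | y.n ∈ T h} f) = ind {y : Cell S F X.Mk | y.n ∈ T h ∧ y.r.1.2 ≠ h} (X.hat S F f) := by
    ext y
    rw [hat_apply, ind_apply, ind_apply, hat_apply]
    by_cases h1 : y.n ∈ T h
    · by_cases h2 : y.r.1.2 = h
      · rw [if_pos (by exact h1), if_neg fun h3 => h3.2 h2, ← hf, ind_notMem]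
        exact fun h3 => h3 (h2 ▸ y.r.2)
      · rw [if_pos (by exact h1), if_pos ⟨h1, h2⟩]
    · rw [if_neg (by exact h1), if_neg fun h3 => h1 h3.1]
  have hi : Itw X.L X.L (ind {y : Cell S F X.Mk | y.n ∈ T h ∧ y.r.1.2 ≠ h}) :=
    itw_ind (fun x y => and_congr_left fun hy => hT.a h _ hy x y.n)
      (fun y => and_congr_left fun hy => hT.w h _ hy y.n) fun y => and_congr_left fun hy => hT.w h _ hy y.n
  rw [e, hi.rl]

lemma nT_mem_Chh {T : H → Set (NN S F)} (hT : GdT T) (h : H) {f : L2 (Cell S F A)} (hf : f ∈ X.Chh S F s h) :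
    ind {y | y.n ∈ T h} f ∈ X.Chh S F s h := by
  rw [mem_Chh] at hf ⊢
  refine ⟨mem_Ch.2 fun ψ => ?_, ?_⟩
  · rw [nT_hat hT h f hf.2, mem_Ch.1 hf.1, map_zero]
  · rw [ind_ind, Set.inter_comm, ← ind_ind, hf.2]

lemma nT_mem_Bdh {T : H → Set (NN S F)} (hT : GdT T) (h : H) {f : L2 (Cell S F B)} (hf : f ∈ X.Bdh K S F s h) :
    ind {y | y.n ∈ T h} f ∈ X.Bdh K S F s h := by
  refine map_closure_le (ind {y : Cell S F B | y.n ∈ T h}) (Submodule.isClosed_topologicalClosure _) ?_ hf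
  rintro _ ⟨c, hc, rfl⟩
  show ind {y : Cell S F B | y.n ∈ T h} (K.D S F c) ∈ _
  rw [← K.D_ind]
  exact Submodule.le_topologicalClosure _ ⟨_, nT_mem_Chh hT h hc, rfl⟩

/-- **invariance under the indicator functions of good sets** -/
theorem ind_mem_Km {T : H → Set (NN S F)} (hT : GdT T) {f : L2 (Cell S F X.Mk)} (hf : f ∈ X.Km K S F s) :
    ind (X.mkS T) f ∈ X.Km K S F s := by
  rw [mem_Km] at hf ⊢
  refine ⟨mem_Xm.2 fun ψ => ?_, fun h => ?_⟩
  · have e : X.hat1 S F (ind (X.mkS T) f) = ind {y : Cell S F X.Mk2 | y.n ∈ T y.r.1.2.1} (X.hat1 S F f) := by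
      classical
      ext y
      rw [hat1_apply, ind_apply, ind_apply, hat1_apply]
      rfl
    have hi : Itw X.L2' X.L2' (ind {y : Cell S F X.Mk2 | y.n ∈ T y.r.1.2.1}) :=
      itw_ind (fun x y => hT.a _ _ y.r.2.2.2.symm x y.n) (fun y => hT.w _ _ y.r.2.2.2.symm y.n)
        fun y => hT.w _ _ y.r.2.2.2.symm y.n
    rw [e, ← hi.rl, mem_Xm.1 hf.1, map_zero]
  · have e : K.D S F (X.up S F (ind (X.onS S F h) (ind (X.mkS T) f))) =
        ind {y | y.n ∈ T h} (K.D S F (X.up S F (ind (X.onS S F h) f))) := by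
      rw [← K.D_ind]
      congr 1
      have e1 : ind (X.onS S F h) (ind (X.mkS T) f) = ind {y : Cell S F X.Mk | y.n ∈ T h} (ind (X.onS S F h) f) := by
        have e2 : (X.onS S F h ∩ X.mkS T : Set (Cell S F X.Mk)) = {y | y.n ∈ T h} ∩ X.onS S F h := by
          ext y
          show (y.r.1.2 = h ∧ y.n ∈ T y.r.1.2) ↔ (y.n ∈ T h ∧ y.r.1.2 = h)
          constructor
          · rintro ⟨h1, h2⟩
            rw [h1] at h2
            exact ⟨h2, h1⟩
          · rintro ⟨h1, h2⟩
            rw [h2]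
            exact ⟨rfl, h1⟩
        rw [ind_ind, ind_ind, e2]
      rw [e1]
      unfold up
      rw [ind_psf]
      rfl
    rw [e]
    exact nT_mem_Bdh hT h (hf.2 h)

/-! ### translations of the label of the marker -/

lemma La_off (h : H) (x : F) (f : L2 (Cell S F A)) :
    ind (X.offS S F h) (La S F A h x f) = La S F A h x (ind (X.offS S F h) f) := by
  unfold La
  rw [ind_pull]
  rfl

lemma hat_La (h : H) (x : F) (f : L2 (Cell S F A)) : X.hat S F (La S F A h x f) = La S F X.Mk h x (X.hat S F f) := rfl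

lemma La_on (h : H) (x : F) (f : L2 (Cell S F X.Mk)) :
    ind (X.onS S F h) (Tl S F X.L x f) = La S F X.Mk h x (ind (X.onS S F h) f) := by
  classical
  ext y
  rw [La_apply, ind_apply, ind_apply]
  by_cases hy : y ∈ X.onS S F h
  · have hy' : y.lt h x ∈ X.onS S F h := hy
    have hy'' : X.L.ℓ y.r = h := hy
    rw [if_pos hy, if_pos hy', Tl_apply, Cell.tl_eq_lt, hy'']
  · have hy' : y.lt h x ∉ X.onS S F h := hy
    rw [if_neg hy, if_neg hy']

lemma up_La (h : H) (x : F) (f : L2 (Cell S F X.Mk)) : X.up S F (La S F X.Mk h x f) = La S F A h x (X.up S F f) := by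
  ext y
  rw [La_apply, up_apply, up_apply]
  rfl

lemma La_mem_Chh (h : H) (x : F) {f : L2 (Cell S F A)} (hf : f ∈ X.Chh S F s h) : La S F A h x f ∈ X.Chh S F s h := by
  rw [mem_Chh] at hf ⊢
  refine ⟨mem_Ch.2 fun ψ => ?_, ?_⟩
  · rw [hat_La, ← (itw_La h x).rl, mem_Ch.1 hf.1, map_zero]
  · rw [La_off, hf.2]

lemma La_mem_Bdh (h : H) (x : F) {f : L2 (Cell S F B)} (hf : f ∈ X.Bdh K S F s h) :
    La S F B h x f ∈ X.Bdh K S F s h := by
  refine map_closure_le (La S F B h x) (Submodule.isClosed_topologicalClosure _) ?_ hf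
  rintro _ ⟨c, hc, rfl⟩
  show La S F B h x (K.D S F c) ∈ _
  rw [← K.D_La]
  exact Submodule.le_topologicalClosure _ ⟨_, La_mem_Chh h x hc, rfl⟩

/-- **invariance under the translations of the label of the marker** -/
theorem Tl_mem_Km (x : F) {f : L2 (Cell S F X.Mk)} (hf : f ∈ X.Km K S F s) : Tl S F X.L x f ∈ X.Km K S F s := by
  rw [mem_Km] at hf ⊢
  refine ⟨mem_Xm.2 fun ψ => ?_, fun h => ?_⟩
  · rw [itw_hat1.tl, ← (itw_Tl (L := X.L2') (L' := X.L1) (fun _ => rfl) x).rl, mem_Xm.1 hf.1, map_zero]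
  · rw [La_on, up_La, K.D_La]
    exact La_mem_Bdh h x (hf.2 h)

end TSet

end Cm
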