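import Pool.Agent.Cm.Orbit2

/-!
# Actions on acyclic complexes

* `AcyK S` : the complex `S` of functions with finite support on the graded `Γ`-set `K` is exact, with complex coefficients;
* `h_eq_univ` : the `ℓ²`-Betti numbers of `Γ` are the numbers of the complex of the cells;
* `cells_le` : `b i Γ ≤ ∑ a, b (i - dim a) Γ_a`;
* `cell_le` : `b q Γ_a ≤ b n Γ + ∑ b (n - 1 - dim b) Γ_b + ∑ b (n + 1 - dim b) Γ_b` for `n = dim a + q`, the sums over the orbits of
  smaller and of larger dimension.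
-/

set_option autoImplicit false
set_option linter.unusedSectionVars false
set_option linter.unusedVariables false

open scoped ComplexConjugate InnerProductSpace
open Filter Topology

namespace Cm

open Singer
open Npc (Cof Orb vd Mdl)

variable {Γ K : Type*} [Group Γ] [MulAction Γ K]

/-- the complex is acyclic, with complex coefficients -/
structure AcyK (S : SK Γ K) : Prop where
  sg0 : ∀ (g : Γ) x, S.dim x = 0 → S.sg g x = 1
  ne : ∃ x, S.dim x = 0
  aug : ∀ x, S.dim x = 1 → ((S.bd x).sum fun _ m => m) = 0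
  zero : ∀ z : K →₀ ℂ, (∀ x, z x ≠ 0 → S.dim x = 0) → (z.sum fun _ m => m) = 0 →
    ∃ y : K →₀ ℂ, (∀ x, y x ≠ 0 → S.dim x = 1) ∧ lin S.bd y = z
  succ : ∀ (j : ℕ) (z : K →₀ ℂ), (∀ x, z x ≠ 0 → S.dim x = j + 1) → lin S.bd z = 0 →
    ∃ y : K →₀ ℂ, (∀ x, y x ≠ 0 → S.dim x = j + 2) ∧ lin S.bd y = z

/-- all coefficients -/
def allK (S : SK Γ K) (M : Type*) [AddCommGroup M] : Cf S M where
  O := Set.univ
  V _ := ⊤
  mono _ _ _ _ _ := le_refl _
  lc _ _ _ _ _ _ _ := trivial

variable {S : SK Γ K} {P : Rps Γ K} {D : P.I → (P.E →₀ ℤ)} {n : ℕ}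

lemma rsK_allK {M : Type*} [AddCommGroup M] (g : K →₀ M) : rsK (allK S M) g = g := by
  ext e
  exact rsK_mem trivial

lemma onJ_allK {M : Type*} [AddCommGroup M] {j : ℕ} (f : EJ S P j →₀ M) : OnJ (allK S M) f :=
  fun _ _ => ⟨trivial, trivial⟩

/-- the trivial system of hyperplanes -/
def hyp0 (Γ : Type*) [Group Γ] : Hyp Unit Γ where
  C := ⊥
  adj _ _ _ := Iff.rfl

variable (S P D) in
/-- the cells as a cell system without hyperplanes -/
noncomputable def es0 : ES (hyp0 Γ) Unit (EJ S P) where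
  fl _ k := k
  dr _ := ∅
  T _ := ∅
  V _ := {()}
  inc e e' := incJ D e e'
  fl_smul _ _ _ := rfl
  dr_smul _ _ _ := Iff.rfl
  T_smul _ _ _ := by simp
  V_smul _ _ _ := by simp
  V_ne _ := Finset.singleton_nonempty _
  T_dr _ _ _ h _ := absurd h (Finset.notMem_empty _)
  T_adj _ _ _ h _ _ := absurd h (Finset.notMem_empty _)
  fl_V _ _ _ h _ := absurd h (Finset.notMem_empty _)
  fl_fl _ _ _ h _ := absurd h (Finset.notMem_empty _)
  tr _ _ _ _ _ := Relation.ReflTransGen.refl
  inc_smul := incJ_smul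
  inc_T _ _ _ := Finset.Subset.refl _
  inc_V _ _ _ := Finset.Subset.refl _
  bd := 1
  card_T _ := by simp
  card_V _ := by simp
  M j := (exists_bound (S := S) (D := D) j).choose
  row := (exists_bound (S := S) (D := D) _).choose_spec.1
  col := (exists_bound (S := S) (D := D) _).choose_spec.2.1
  le := (exists_bound (S := S) (D := D) _).choose_spec.2.2

lemma kE_es0 (j : ℕ) : (es0 S P D).kE j = kJ S P D j := rfl

section ex
variable (hG : Good S P D n) (hn : ∀ x, S.dim x < n) (hA : AcyK S)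

include hG hn hA in
lemma aug_incK (e : EJ S P 1) : ((incJ D e).sum fun e' m => wJ e' • m) = 0 := by
  refine augJ_bd (M := ℤ) (C := allK S ℤ) hG hn (AddMonoidHom.id ℤ) (fun z hz _ => ?_)
    (Finsupp.single e 1) (onJ_allK _) (incJ D e) (onJ_allK _) fun e' _ => ?_
  · rw [rsK_allK]
    show ((lin S.bd z).sum fun _ m => m) = 0
    have h1 : ∀ z : K →₀ ℤ, (∀ x ∈ z.support, S.dim x = 1) → ((lin S.bd z).sum fun _ m => m) = 0 := by
      intro z hz
      have h2 : lin S.bd z = ∑ x ∈ z.support, ms (z x) (S.bd x) := by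
        rw [lin_eq_sum]
        rfl
      rw [h2]
      have h3 : ∀ s : Finset K, (∀ x ∈ s, S.dim x = 1) → ((∑ x ∈ s, ms (z x) (S.bd x)).sum fun _ m => m) = 0 := by
        classical
        intro s
        induction s using Finset.induction_on with
        | empty =>
          intro _
          rw [Finset.sum_empty, Finsupp.sum_zero_index]
        | insert a s ha ih =>
          intro h
          rw [Finset.sum_insert ha, Finsupp.sum_add_index' (fun _ => rfl) (fun _ _ _ => rfl),
            ih fun x hx => h x (Finset.mem_insert_of_mem hx), add_zero]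
          have h4 := hA.aug a (h a (Finset.mem_insert_self a s))
          have h5 : ∀ (k : ℤ) (u : K →₀ ℤ), ((ms k u).sum fun _ m => m) = k * (u.sum fun _ m => m) := by
            intro k u
            induction u using Finsupp.induction_linear with
            | zero => simp
            | add f g hf hg =>
              rw [ms_add_right, Finsupp.sum_add_index' (fun _ => rfl) (fun _ _ _ => rfl), hf, hg,
                Finsupp.sum_add_index' (fun _ => rfl) (fun _ _ _ => rfl), mul_add]
            | single y m =>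
              rw [ms_single, Finsupp.sum_single_index rfl, Finsupp.sum_single_index rfl, smul_eq_mul, mul_comm]
          rw [h5, h4, mul_zero]
      exact h3 _ hz
    exact h1 z fun x hx => hz x (Finsupp.mem_support_iff.1 hx)
  · rw [lin_single, ms_one]

/-- **the cell system is exact** -/
noncomputable def exact0 : (es0 S P D).Exact where
  w e := (wJ e : ℂ)
  w_smul g e := by rw [wJ_smul hA.sg0]
  inc_inc j e e'' := by
    have h1 := DFunLike.congr_fun (incJ_incJ hG hn e) e''
    rw [← lin_finsum] at h1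
    exact h1
  inc_w e := by
    have h1 := aug_incK hG hn hA e
    rw [finsum_eq_sum_of_support_subset (s := (incJ D e).support)]
    · have h2 : (((incJ D e).sum fun e' m => wJ e' • m : ℤ) : ℂ) = 0 := by rw [h1, Int.cast_zero]
      rw [← h2]
      unfold Finsupp.sum
      rw [Int.cast_sum]
      refine Finset.sum_congr rfl fun e' _ => ?_
      show (incJ D e e' : ℂ) * (wJ e' : ℂ) = ((wJ e' * incJ D e e' : ℤ) : ℂ)
      rw [Int.cast_mul, mul_comm]
    · intro e' he'
      rw [Finset.mem_coe, Finsupp.mem_support_iff]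
      intro h
      exact he' (by
        show (incJ D e e' : ℂ) * (wJ e' : ℂ) = 0
        rw [h, Int.cast_zero, zero_mul])
  surj := by
    classical
    obtain ⟨x0, hx0⟩ := hA.ne
    have hd : ∀ C, (Finsupp.single x0 (1 : ℂ) : K →₀ ℂ) C ≠ 0 → S.dim C = 0 := by
      intro C h
      rw [Finsupp.single_apply] at h
      by_cases h1 : x0 = C
      · rw [← h1]
        exact hx0
      · rw [if_neg h1] at h
        exact absurd rfl h
    obtain ⟨f, _, hf⟩ := augJ_surj (P := P) (C := allK S ℂ) hG hn (Finsupp.single x0 (1 : ℂ))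
      (fun _ _ => ⟨trivial, trivial⟩) hd
    refine ⟨f, ?_⟩
    rw [Finsupp.sum_single_index rfl] at hf
    rw [← hf]
    refine Finset.sum_congr rfl fun e _ => ?_
    exact (zsmul_eq_mul _ _).symm
  ex_zero f h0 := by
    have h1 : (f.sum fun e m => wJ e • m) = 0 := by
      rw [← h0]
      refine Finset.sum_congr rfl fun e _ => ?_
      exact zsmul_eq_mul _ _
    obtain ⟨b, _, hb⟩ := exJ_zero (C := allK S ℂ) hG hn (AddMonoidHom.id ℂ)
      (fun z hz _ h2 => by
        obtain ⟨y, hy1, hy2⟩ := hA.zero z hz h2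
        exact ⟨y, hy1, fun _ _ => ⟨trivial, trivial⟩, fun x _ => by rw [hy2]⟩) f (onJ_allK f) h1
    refine ⟨b, fun e => ?_⟩
    rw [← hb e trivial, lin_apply]
    refine Finset.sum_congr rfl fun a _ => ?_
    show (incJ D a e : ℂ) * b a = incJ D a e • b a
    rw [zsmul_eq_mul]
  ex_succ j f h0 := by
    have h1 : ∀ e, cbJ e ∈ (allK S ℂ).O → lin (incJ D) f e = 0 := by
      intro e _
      rw [← h0 e, lin_apply]
      refine Finset.sum_congr rfl fun a _ => ?_
      show incJ D a e • f a = (incJ D a e : ℂ) * f a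
      rw [zsmul_eq_mul]
    obtain ⟨b, _, hb⟩ := exJ_succ (C := allK S ℂ) hG hn
      (fun z hz _ h2 => by
        obtain ⟨y, hy1, hy2⟩ := hA.succ j z hz (Finsupp.ext fun x => h2 x trivial)
        exact ⟨y, hy1, fun _ _ => ⟨trivial, trivial⟩, fun x _ => by rw [hy2]⟩) f (onJ_allK f) h1
    refine ⟨b, fun e => ?_⟩
    rw [← hb e trivial, lin_apply]
    refine Finset.sum_congr rfl fun a _ => ?_
    show (incJ D a e : ℂ) * b a = incJ D a e • b a
    rw [zsmul_eq_mul]

include hA in
/-- **the Betti numbers of `Γ`** -/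
theorem h_eq_univ (R : Res.{0} Γ) (i : ℕ) :
    R.toPreRes.toHC.h i = (grJ hG hn).bU Set.univ (grJ hG hn).cv_univ i := by
  rw [ES.h_eq_bE (exact0 hG hn hA) R i]
  have hV : ∀ j, ((grJ hG hn).C Set.univ (grJ hG hn).cv_univ).V j = ⊤ := fun j =>
    eq_top_iff.2 fun f _ => (grJ hG hn).mem_V.2 fun e he => absurd trivial he
  have hc : ∀ j, ((grJ hG hn).C Set.univ (grJ hG hn).cv_univ).c j = (es0 S P D).cE j := fun j => by
    show vd Γ (((grJ hG hn).C Set.univ (grJ hG hn).cv_univ).V j) = _
    rw [hV]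
    rfl
  have hz : ∀ j, ((grJ hG hn).C Set.univ (grJ hG hn).cv_univ).z (j + 1) = (es0 S P D).zE j := fun j => by
    show vd Γ (((grJ hG hn).C Set.univ (grJ hG hn).cv_univ).Z (j + 1)) = vd Γ (LinearMap.ker
      (((es0 S P D).kE j).op : L2 (EJ S P (j + 1)) →ₗ[ℂ] L2 (EJ S P j)))
    congr 1
    ext f
    constructor
    · rintro ⟨_, h⟩
      have h1 : (grJ hG hn).D Set.univ j f = 0 := h
      show ((es0 S P D).kE j).op f = 0
      ext e
      have h2 := (grJ hG hn).D_mem (U := Set.univ) f (e := e) trivial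
      rw [h1] at h2
      exact h2.symm
    · intro h
      have h1 : ((es0 S P D).kE j).op f = 0 := h
      refine ⟨?_, ?_⟩
      · have h2 := hV (j + 1)
        exact h2.ge trivial
      · show (grJ hG hn).D Set.univ j f = 0
        ext e
        rw [(grJ hG hn).D_mem (U := Set.univ) f (e := e) trivial]
        show ((es0 S P D).kE j).op f e = 0
        rw [h1]
        rfl
  show _ = ((grJ hG hn).C Set.univ (grJ hG hn).cv_univ).z i + ((grJ hG hn).C Set.univ (grJ hG hn).cv_univ).z (i + 1) -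
    ((grJ hG hn).C Set.univ (grJ hG hn).cv_univ).c (i + 1)
  cases i with
  | zero =>
    show (es0 S P D).cE 0 - ((es0 S P D).cE 1 - (es0 S P D).zE 0) = _
    rw [Cx.z_zero, hc, hc, hz]
    ring
  | succ i =>
    show (es0 S P D).zE i - ((es0 S P D).cE (i + 2) - (es0 S P D).zE (i + 1)) = _
    rw [hz, hz, hc]
    ring

end ex

/-- the Betti number of the stabilizer of the representative in degree `j - dim a` -/
noncomputable def bj (S : SK Γ K) (P : Rps Γ K) (a : P.A) (j : ℕ) : ℝ :=
  if S.dim (P.rep a) ≤ j then (P.R a).betti (j - S.dim (P.rep a)) else 0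

lemma bj_nonneg (a : P.A) (j : ℕ) : 0 ≤ bj S P a j := by
  unfold bj
  split_ifs
  · exact FinRes.betti_nonneg _ _
  · exact le_refl _

lemma bU_bj (hG : Good S P D n) (hn : ∀ x, S.dim x < n) (a : P.A) (j : ℕ) :
    (grJ hG hn).bU {a} ((grJ hG hn).cv_sing a) j = bj S P a j := by
  unfold bj
  by_cases h : S.dim (P.rep a) ≤ j
  · rw [if_pos h]
    obtain ⟨q, rfl⟩ := Nat.exists_eq_add_of_le h
    rw [bU_sing, Nat.add_sub_cancel_left]
  · rw [if_neg h]
    exact bU_sing_lt hG hn a (not_le.1 h)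

/-- **actions on acyclic complexes** -/
theorem cells_le (hA : AcyK S) (P : Rps Γ K) (R : Res.{0} Γ) (i : ℕ) :
    R.toPreRes.toHC.h i ≤ ∑ a, bj S P a i := by
  obtain ⟨D, n, hG, hn⟩ := exists_all S P
  rw [h_eq_univ hG hn hA R i]
  refine ((grJ hG hn).b_le_sum i).trans (le_of_eq ?_)
  exact Finset.sum_congr rfl fun a _ => bU_bj hG hn a i

open Classical in
/-- **the stabilizer of a cell**, degree `0` -/
theorem cell_le_zero (hA : AcyK S) (P : Rps Γ K) (R : Res.{0} Γ) (a₀ : P.A) (h : S.dim (P.rep a₀) = 0) :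
    (P.R a₀).betti 0 ≤ R.toPreRes.toHC.h 0 +
      ∑ a, if S.dim (P.rep a₀) < S.dim (P.rep a) then bj S P a 1 else 0 := by
  obtain ⟨D, n, hG, hn⟩ := exists_all S P
  rw [h_eq_univ hG hn hA R 0]
  have h1 := (grJ hG hn).b_piece_zero a₀
  have h2 := bU_bj hG hn a₀ 0
  have h3 : bj S P a₀ 0 = (P.R a₀).betti 0 := by
    unfold bj
    rw [if_pos h.le, h]
  rw [h2, h3] at h1
  refine h1.trans (le_of_eq ?_)
  congr 1
  refine Finset.sum_congr rfl fun a _ => ?_
  show (if S.dim (P.rep a₀) < S.dim (P.rep a) then _ else _) = _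
  rw [bU_bj]

open Classical in
/-- **the stabilizer of a cell**, in the degrees `n + 1 = dim a₀ + q` -/
theorem cell_le_succ (hA : AcyK S) (P : Rps Γ K) (R : Res.{0} Γ) (a₀ : P.A) (q m : ℕ)
    (h : S.dim (P.rep a₀) + q = m + 1) : (P.R a₀).betti q ≤ R.toPreRes.toHC.h (m + 1) +
      (∑ a, if S.dim (P.rep a) < S.dim (P.rep a₀) then bj S P a m else 0) +
      ∑ a, if S.dim (P.rep a₀) < S.dim (P.rep a) then bj S P a (m + 2) else 0 := by
  obtain ⟨D, n, hG, hn⟩ := exists_all S P
  rw [h_eq_univ hG hn hA R (m + 1)]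
  have h1 := (grJ hG hn).b_piece_succ a₀ m
  have h2 := bU_bj hG hn a₀ (m + 1)
  have h3 : bj S P a₀ (m + 1) = (P.R a₀).betti q := by
    unfold bj
    rw [if_pos (by omega), ← h, Nat.add_sub_cancel_left]
  rw [h2, h3] at h1
  refine h1.trans (le_of_eq ?_)
  congr 1
  · congr 1
    refine Finset.sum_congr rfl fun a _ => ?_
    show (if S.dim (P.rep a) < S.dim (P.rep a₀) then _ else _) = _
    rw [bU_bj]
  · refine Finset.sum_congr rfl fun a _ => ?_
    show (if S.dim (P.rep a₀) < S.dim (P.rep a) then _ else _) = _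
    rw [bU_bj]

end Cm
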