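import Pool.Agent.Cm.Cof

/-!
# Mirror inequality: the chains when all labels have the same state
-/

set_option autoImplicit false
set_option linter.unusedSectionVars false
set_option linter.unusedVariables false

open scoped ComplexConjugate InnerProductSpace
open Filter Topology

namespace Cm

open Singer
open Npc (St)

variable {H G : Type*} [Group G] [MulAction G H]

section mem
variable {S : Hyp H G} {A : Type*} [MulAction G A] {X : TSet H G A} {F : Type*} [AddCommGroup F] [Fintype F]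

/-- all labels glued -/
theorem TSet.mem_Ch_g {f : L2 (Cell S F A)} : f ∈ X.Ch S F (fun _ => St.g) ↔
    ∀ (n : NN S F) (a : A) (t : H), t ∈ X.T a → f ⟨n * sW t, X.mv t a⟩ = f ⟨n, a⟩ := by
  rw [TSet.mem_Ch]
  have h1 : (∀ ψ, Rl S F X.L ψ St.g (X.hat S F f) = 0) ↔ X.hat S F f - Gl S F X.L (X.hat S F f) = 0 := by
    constructor
    · intro h
      have h2 : ∀ ψ, Ep S F X.L ψ (X.hat S F f) - Gl S F X.L (Ep S F X.L ψ (X.hat S F f)) = 0 := fun ψ => h ψ
      have h3 := Finset.sum_congr rfl fun (ψ : AddChar F ℂ) (_ : ψ ∈ Finset.univ) => h2 ψ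
      rw [Finset.sum_sub_distrib, ← map_sum, sum_Ep, Finset.sum_const_zero] at h3
      exact h3
    · intro h ψ
      have h3 : Ep S F X.L ψ (Gl S F X.L (X.hat S F f)) = Gl S F X.L (Ep S F X.L ψ (X.hat S F f)) :=
        Npc.av_comm (fun x f => (Tl_Gl X.L x f).symm) ψ (X.hat S F f) |>.symm
      show Ep S F X.L ψ (X.hat S F f) - Gl S F X.L (Ep S F X.L ψ (X.hat S F f)) = 0
      rw [← h3, ← map_sub, h, map_zero]
  show (∀ ψ, Rl S F X.L ψ St.g (X.hat S F f) = 0) ↔ _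
  rw [h1]
  constructor
  · intro h n a t ht
    have h2 := congrArg (fun u : L2 (Cell S F X.Mk) => u ⟨n, ⟨(a, t), ht⟩⟩) h
    have h3 : f ⟨n, a⟩ - f ⟨n * sW t, X.mv t a⟩ = 0 := h2
    exact (sub_eq_zero.1 h3).symm
  · intro h
    ext y
    have h2 := h y.n y.r.1.1 y.r.1.2 y.r.2
    show f ⟨y.n, y.r.1.1⟩ - f ⟨y.n * sW y.r.1.2, X.mv y.r.1.2 y.r.1.1⟩ = 0
    rw [h2, sub_self]

/-- all labels mirrored -/
theorem TSet.mem_Ch_m {f : L2 (Cell S F A)} : f ∈ X.Ch S F (fun _ => St.m) ↔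
    ∀ (n : NN S F) (a : A) (t : H), t ∈ X.T a → f ⟨n * sW t, a⟩ = -f ⟨n, a⟩ := by
  rw [TSet.mem_Ch]
  have h1 : (∀ ψ, Rl S F X.L ψ St.m (X.hat S F f) = 0) ↔ X.hat S F f + Mi S F X.L (X.hat S F f) = 0 := by
    constructor
    · intro h
      have h2 : ∀ ψ, Ep S F X.L ψ (X.hat S F f) + Mi S F X.L (Ep S F X.L ψ (X.hat S F f)) = 0 := fun ψ => h ψ
      have h3 := Finset.sum_congr rfl fun (ψ : AddChar F ℂ) (_ : ψ ∈ Finset.univ) => h2 ψ
      rw [Finset.sum_add_distrib, ← map_sum, sum_Ep, Finset.sum_const_zero] at h3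
      exact h3
    · intro h ψ
      have h3 : Ep S F X.L ψ (Mi S F X.L (X.hat S F f)) = Mi S F X.L (Ep S F X.L ψ (X.hat S F f)) :=
        Npc.av_comm (fun x f => (Tl_Mi X.L x f).symm) ψ (X.hat S F f) |>.symm
      show Ep S F X.L ψ (X.hat S F f) + Mi S F X.L (Ep S F X.L ψ (X.hat S F f)) = 0
      rw [← h3, ← map_add, h, map_zero]
  show (∀ ψ, Rl S F X.L ψ St.m (X.hat S F f) = 0) ↔ _
  rw [h1]
  constructor
  · intro h n a t ht
    have h2 := congrArg (fun u : L2 (Cell S F X.Mk) => u ⟨n, ⟨(a, t), ht⟩⟩) h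
    have h3 : f ⟨n, a⟩ + f ⟨n * sW t, a⟩ = 0 := h2
    exact eq_neg_of_add_eq_zero_right h3
  · intro h
    ext y
    have h2 := h y.n y.r.1.1 y.r.1.2 y.r.2
    show f ⟨y.n, y.r.1.1⟩ + f ⟨y.n * sW y.r.1.2, y.r.1.1⟩ = 0
    rw [h2, add_neg_cancel]

end mem

end Cm
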