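import Pool.Agent.Cm.BetEx
import Pool.Agent.Cm.Fam
import Pool.Agent.Cm.CD
import Pool.Agent.Cm.Euler

/-!
# The exact numbers for proper actions on cube complexes

* `h_racg`, `h_mir` : the numbers of the right-angled Coxeter groups and of the mirrored groups;
* `h_eq_sum` : equality in the mirror inequality, for resolutions of the mirrored groups by projective modules;
* `betti_eq_sum` : proper actions, if the numbers of the links vanish in the adjacent degrees;
* `middle` : proper actions with flag homology spheres of dimension `2 * m - 1` as links;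
* `euler_middle` : the same number for finite resolutions.
-/

set_option autoImplicit false
set_option linter.unusedSectionVars false
set_option linter.unusedVariables false

open scoped Pointwise

namespace Cm.Mid

open Singer CubeComplex Cm Cm.B

/-- the numbers of the right-angled Coxeter groups, for all resolutions -/
theorem h_racg {V : Type} [Fintype V] [DecidableEq V] (G : SimpleGraph V) (S : Res.{0} (RACG G)) (i : ℕ) :
    S.toPreRes.toHC.h i = bet G i := by
  have hr : Function.Injective (rk : V → ℕ) := rk_inj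
  rw [Res.h_eq S (davisResC G hr) i]
  unfold HC.h
  rw [PreRes.toHC_Z, PreRes.toHC_B]
  have h : (davisResC G hr).Z i = Cy rk G (Racg.gen G) Finset.univ i := by
    cases i with
    | zero => exact (Cy_zero rk G (Racg.gen G) Finset.univ).symm
    | succ i => rfl
  rw [h]
  rfl

/-- the numbers of the groups with a normal right-angled Coxeter group which has a finite complement -/
theorem h_gh {H G : Type} [Group G] [MulAction G H] (S : Hyp H G) [Finite G] (R : Res.{0} (Gh S Unit))
    (R' : Res.{0} (RACG S.C)) (i : ℕ) :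
    R.toPreRes.toHC.h i = R'.toPreRes.toHC.h i / Nat.card G := by
  let j : RACG S.C →* Gh S Unit := (SemidirectProduct.inl : NN S Unit →* Gh S Unit).comp (toNN S)
  have hj : Function.Injective j := injective_inl _ (toNN S) (toNN_bijective S).1
  have hi : j.range.index = Nat.card G := index_inl _ (toNN S) (toNN_bijective S).2
  obtain ⟨T, hT⟩ := exists_trv_index j hj ⟨by rw [hi]; exact Nat.card_pos.ne'⟩
  have h1 := T.h_res R i
  rw [Res.h_eq (T.res R) R' i, hT, hi] at h1
  have h2 : (Nat.card G : ℝ) ≠ 0 := by exact_mod_cast Nat.card_pos.ne'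
  rw [h1, mul_comm, mul_div_assoc, div_self h2, mul_one]

/-- the sum of the numbers `(-1/2) ^ |σ|` over the cliques `σ` of the graph, the empty one included -/
noncomputable def cliqueSum {V : Type} (L : SimpleGraph V) : ℝ :=
  ∑ᶠ S ∈ {S : Finset V | L.IsClique (S : Set V)}, (-1 / 2 : ℝ) ^ S.card

theorem cliqueSum_eq {V : Type} [Fintype V] (L : SimpleGraph V)
    (D : DecidablePred fun S : Finset V => L.IsClique (S : Set V)) : cliqueSum L =
    ∑ S ∈ Finset.univ.filter (fun S : Finset V => L.IsClique (S : Set V)), (-1 / 2 : ℝ) ^ S.card := by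
  unfold cliqueSum
  rw [← finsum_mem_coe_finset, Finset.coe_filter]
  simp only [Finset.mem_univ, true_and]

theorem bet_middle {V : Type} [Fintype V] [DecidableEq V] {L : SimpleGraph V} {m : ℕ}
    (h : SingerCube.HSphere (2 * m) L) : bet L m = (-1) ^ m * cliqueSum L := by
  rw [CD.bet_middle L h, cliqueSum_eq L]

section cub
variable {Γ X : Type} [Group Γ] [MulAction Γ X] {M : SimpleGraph X}

/-- the numbers of the mirrored group of a vertex with finite stabilizer -/
theorem h_mir (hact : ∀ (g : Γ) (x y : X), M.Adj x y → M.Adj (g • x) (g • y)) (x : X)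
    (hfin : Finite (MulAction.stabilizer Γ x)) (R : Res.{0} (MirGroup Γ M x)) (R' : Res.{0} (RACG (link M x))) (i : ℕ) :
    R.toPreRes.toHC.h i = R'.toPreRes.toHC.h i / Nat.card (MulAction.stabilizer Γ x) := by
  let _ : MulAction (MulAction.stabilizer Γ x) (M.neighborSet x) := nbAct hact x
  have hl : ∀ (g : MulAction.stabilizer Γ x) (a b : M.neighborSet x), (link M x).Adj a b →
      (link M x).Adj (g • a) (g • b) := by
    intro g a b hab
    obtain ⟨h1, m, h2, h3, h4⟩ := hab
    refine ⟨fun h5 => h1 (MulAction.injective g h5), (g : Γ) • m, fun h5 => ?_, hact g _ _ h3, hact g _ _ h4⟩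
    have h6 : (g : Γ) • x = x := g.2
    exact h2 (MulAction.injective (g : Γ) (h5.trans h6.symm))
  let S : Hyp (M.neighborSet x) (MulAction.stabilizer Γ x) :=
    ⟨link M x, fun g a b => ⟨fun h => by
      have h1 := hl g⁻¹ _ _ h
      rwa [inv_smul_smul, inv_smul_smul] at h1, hl g a b⟩⟩
  let e : MirGroup Γ M x ≃* Gh S Unit := mEquiv M x S (Equiv.refl _) (fun _ _ => Iff.rfl) fun _ _ => rfl
  obtain ⟨R₁, hR₁⟩ := Res.exists_iso e.symm R
  rw [← hR₁ i]
  exact h_gh S R₁ R' i

/-- the same for the resolutions by free modules -/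
theorem betti_mir (hact : ∀ (g : Γ) (x y : X), M.Adj x y → M.Adj (g • x) (g • y)) (x : X)
    (hfin : Finite (MulAction.stabilizer Γ x)) [Fintype (M.neighborSet x)] [DecidableEq (M.neighborSet x)]
    (R : Res.{0} (MirGroup Γ M x)) (i : ℕ) :
    R.toPreRes.toHC.h i = bet (link M x) i / Nat.card (MulAction.stabilizer Γ x) := by
  rw [h_mir hact x hfin R (davisResC (link M x) (r := rk) rk_inj) i, h_racg]

/-- equality in the mirror inequality, if the numbers in the adjacent degrees of all mirrored groups vanish -/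
theorem h_eq_sum (h : CubicalAction Γ M) {τ : Type*} [Fintype τ] (x : τ → X)
    (hx : ∀ k : X, ∃! q : τ, ∃ g : Γ, g • x q = k) (i : ℕ) (b : τ → ℕ → ℝ)
    (hb : ∀ q (S : Res.{0} (MirGroup Γ M (x q))) (k : ℕ), S.toPreRes.toHC.h k = b q k)
    (h0 : ∀ q k, k + 1 = i → b q k = 0) (h1 : ∀ q, b q (i + 1) = 0) (R : Res.{0} Γ) :
    R.toPreRes.toHC.h i = ∑ q, b q i := by
  obtain ⟨SM, h2⟩ := cm_strong h x hx
  have hS : ∀ q, (SM q).toPreRes.toHC.h = b q := fun q => funext fun k => hb q (SM q) k
  let a : ℕ → ℝ := R.toPreRes.toHC.h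
  have ha : ∀ k, 0 ≤ a k := fun k => HC.h_nonneg _ _
  have hA : ∀ k, ES.alt a k ≤ ∑ q, ES.alt (b q) k := by
    intro k
    refine (h2 R k).2.trans (le_of_eq (Finset.sum_congr rfl fun q _ => ?_))
    rw [hS q]
  show a i = ∑ q, b q i
  have hup : ES.alt a i = ∑ q, ES.alt (b q) i := by
    refine le_antisymm (hA i) ?_
    have h3 := hA (i + 1)
    simp only [ES.alt_succ, Finset.sum_sub_distrib, h1] at h3
    have h4 := ha (i + 1)
    rw [Finset.sum_const_zero] at h3
    linarith
  obtain rfl | ⟨k, rfl⟩ : i = 0 ∨ ∃ k, i = k + 1 := by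
    cases i with
    | zero => exact Or.inl rfl
    | succ k => exact Or.inr ⟨k, rfl⟩
  · simpa only [ES.alt_zero] using hup
  · have hk : ∀ q, b q k = 0 := fun q => h0 q k rfl
    have hlow : ES.alt a k = ∑ q, ES.alt (b q) k := by
      refine le_antisymm (hA k) ?_
      cases k with
      | zero =>
        simp only [ES.alt_zero, hk]
        rw [Finset.sum_const_zero]
        exact ha 0
      | succ l =>
        have h3 := hA l
        have h4 := ha (l + 1)
        simp only [ES.alt_succ, Finset.sum_sub_distrib, hk]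
        rw [Finset.sum_const_zero]
        linarith
    simp only [ES.alt_succ, Finset.sum_sub_distrib] at hup
    linarith

open Classical in
/-- proper actions, if the numbers of the links vanish in the adjacent degrees -/
theorem betti_eq_sum (h : CubicalAction Γ M) {J : Type*} [Fintype J] (x : J → X)
    (hx : ∀ v : X, ∃! j : J, ∃ g : Γ, g • x j = v) (hfin : ∀ j, Finite (MulAction.stabilizer Γ (x j)))
    [∀ j, Fintype (M.neighborSet (x j))] (i : ℕ) (h0 : ∀ j k, k + 1 = i → bet (link M (x j)) k = 0)
    (h1 : ∀ j, bet (link M (x j)) (i + 1) = 0) (R : FinRes Γ) :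
    R.betti i = ∑ j, bet (link M (x j)) i / Nat.card (MulAction.stabilizer Γ (x j)) := by
  rw [FinRes.betti_eq]
  refine h_eq_sum h x hx i (fun j k => bet (link M (x j)) k / Nat.card (MulAction.stabilizer Γ (x j)))
    (fun j S k => betti_mir h.act (x j) (hfin j) S k) (fun j k hk => ?_) (fun j => ?_) R.toRes
  · show bet (link M (x j)) k / (Nat.card (MulAction.stabilizer Γ (x j)) : ℝ) = 0
    rw [h0 j k hk, zero_div]
  · show bet (link M (x j)) (i + 1) / (Nat.card (MulAction.stabilizer Γ (x j)) : ℝ) = 0
    rw [h1 j, zero_div]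

/-- **proper actions with flag homology spheres of dimension `2 * m - 1` as links**: the `ℓ²`-Betti numbers are zero outside
of the degree `m`, and the number in degree `m` is `(-1) ^ m` times the orbifold Euler characteristic -/
theorem middle (h : CubicalAction Γ M) {J : Type*} [Fintype J] (x : J → X)
    (hx : ∀ v : X, ∃! j : J, ∃ g : Γ, g • x j = v) (hfin : ∀ j, Finite (MulAction.stabilizer Γ (x j))) {m : ℕ}
    (hL : ∀ j, SingerCube.HSphere (2 * m) (link M (x j))) (R : FinRes Γ) :
    R.betti m = (-1) ^ m * ∑ j, cliqueSum (link M (x j)) / Nat.card (MulAction.stabilizer Γ (x j)) ∧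
      ∀ k, k ≠ m → R.betti k = 0 := by
  classical
  have : ∀ j, Finite (M.neighborSet (x j)) := fun j => CD.finite_of_hsphere (hL j)
  let _ : ∀ j, Fintype (M.neighborSet (x j)) := fun j => Fintype.ofFinite _
  have hb : ∀ j k, k ≠ m → ∀ D : DecidableEq (M.neighborSet (x j)), bet (link M (x j)) k = 0 :=
    fun j k hk _ => Npc.bet_of_hsphere (hL j) (by omega)
  constructor
  · rw [betti_eq_sum h x hx hfin m (fun j k hk => hb j k (by omega) _) (fun j => hb j (m + 1) (by omega) _) R,
      Finset.mul_sum]
    exact Finset.sum_congr rfl fun j _ => by rw [bet_middle (hL j), mul_div_assoc]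
  · intro k hk
    rw [FinRes.betti_eq]
    obtain ⟨SM, h2⟩ := cm_strong h x hx
    refine le_antisymm ((h2 R.toRes k).1.trans (le_of_eq (Finset.sum_eq_zero fun j _ => ?_))) (HC.h_nonneg _ _)
    rw [betti_mir h.act (x j) (hfin j) (SM j) k, hb j k hk, zero_div]

/-- the orbifold Euler characteristic has the sign `(-1) ^ m` -/
theorem middle_sign (h : CubicalAction Γ M) {J : Type*} [Fintype J] (x : J → X)
    (hx : ∀ v : X, ∃! j : J, ∃ g : Γ, g • x j = v) (hfin : ∀ j, Finite (MulAction.stabilizer Γ (x j))) {m : ℕ}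
    (hL : ∀ j, SingerCube.HSphere (2 * m) (link M (x j))) (R : FinRes Γ) :
    0 ≤ (-1 : ℝ) ^ m * ∑ j, cliqueSum (link M (x j)) / Nat.card (MulAction.stabilizer Γ (x j)) := by
  rw [← (middle h x hx hfin hL R).1]
  exact R.betti_nonneg m

end cub

/-- finite resolutions: if the numbers vanish outside of the degree `m` then the number in degree `m` is `(-1) ^ m` times the
Euler characteristic -/
theorem euler_middle {Γ : Type} [Group Γ] (R : FinRes Γ) {N m : ℕ} (hN : IsEmpty (R.ι (N + 1))) (hm : m ≤ N)
    (h : ∀ k, k ≠ m → R.betti k = 0) :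
    R.betti m = (-1) ^ m * ∑ k ∈ Finset.range (N + 1), (-1 : ℝ) ^ k * Fintype.card (R.ι k) := by
  rw [← Cm.B.euler R hN, Finset.sum_eq_single m (fun k _ hk => by rw [h k hk, mul_zero])
    (fun h' => absurd (Finset.mem_range.2 (Nat.lt_succ_of_le hm)) h'), ← mul_assoc, ← pow_add,
    Even.neg_one_pow ⟨m, rfl⟩, one_mul]

end Cm.Mid
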