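import Pool.Agent.Cm.Grp
import Pool.Agent.Npc.Lab
import Pool.Agent.Npc.Ind

/-!
# Mirror inequality: operators

* `TSet H G A` : finite sets of letters `T a ⊆ H` of the elements of the `G`-set `A`, and flips `mv t a`;
* `X.Mk`, `X.Mk2` : elements of `A` with one marked letter, with two marked letters;
* `Tl L x`, `Mi L`, `Gl L` on `L2 (Cell S F R)`, `La t x`;
* `K.D` : the operator of an equivariant matrix `K` with finite rows and columns.
-/

set_option autoImplicit false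
set_option linter.unusedSectionVars false
set_option linter.unusedVariables false

open scoped ComplexConjugate InnerProductSpace
open Filter Topology

namespace Cm

open Singer
open Npc (plf plf_apply psf psf_apply psf_pull Fibre ind ind_apply ind_mem ind_notMem ind_ind ind_add ind_pull ind_psf
  Cof act Equi equi_pull equi_mul)

variable {H G : Type*} [Group G] [MulAction G H]

/-! ### letters -/

/-- finite sets of letters and flips -/
structure TSet (H G A : Type*) [Group G] [MulAction G H] [MulAction G A] where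
  /-- the letters -/
  T : A → Finset H
  /-- the flips -/
  mv : H → A → A
  T_smul : ∀ (g : G) t a, g • t ∈ T (g • a) ↔ t ∈ T a
  mv_smul : ∀ (g : G) t a, t ∈ T a → mv (g • t) (g • a) = g • mv t a
  T_mv : ∀ t a, t ∈ T a → T (mv t a) = T a
  mv_mv : ∀ t a, t ∈ T a → mv t (mv t a) = a
  bd : ℕ
  card : ∀ a, (T a).card ≤ bd

namespace TSet
variable {A : Type*} [MulAction G A] (X : TSet H G A)

/-- an element of `A` with a marked letter -/
def Mk : Type _ := {p : A × H // p.2 ∈ X.T p.1}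

/-- an element of `A` with two marked letters -/
def Mk2 : Type _ := {p : A × H × H // p.2.1 ∈ X.T p.1 ∧ p.2.2 ∈ X.T p.1 ∧ p.2.1 ≠ p.2.2}

instance : MulAction G X.Mk where
  smul g p := ⟨(g • p.1.1, g • p.1.2), (X.T_smul g _ _).2 p.2⟩
  one_smul p := Subtype.ext (Prod.ext (one_smul _ _) (one_smul _ _))
  mul_smul g h p := Subtype.ext (Prod.ext (mul_smul _ _ _) (mul_smul _ _ _))

instance : MulAction G X.Mk2 where
  smul g p := ⟨(g • p.1.1, g • p.1.2.1, g • p.1.2.2), (X.T_smul g _ _).2 p.2.1, (X.T_smul g _ _).2 p.2.2.1,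
    fun h => p.2.2.2 (smul_left_cancel g h)⟩
  one_smul p := Subtype.ext (Prod.ext (one_smul _ _) (Prod.ext (one_smul _ _) (one_smul _ _)))
  mul_smul g h p := Subtype.ext (Prod.ext (mul_smul _ _ _) (Prod.ext (mul_smul _ _ _) (mul_smul _ _ _)))

/-- the marked letter -/
def L : Ltr H G X.Mk where
  ℓ p := p.1.2
  mv p := ⟨(X.mv p.1.2 p.1.1, p.1.2), by
    show p.1.2 ∈ X.T (X.mv p.1.2 p.1.1)
    rw [X.T_mv _ _ p.2]
    exact p.2⟩
  ℓ_smul g p := rfl
  mv_smul g p := Subtype.ext (Prod.ext (X.mv_smul g _ _ p.2) rfl)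
  mv_mv p := Subtype.ext (Prod.ext (X.mv_mv _ _ p.2) rfl)
  ℓ_mv p := rfl

/-- the first marked letter -/
def L1 : Ltr H G X.Mk2 where
  ℓ p := p.1.2.1
  mv p := ⟨(X.mv p.1.2.1 p.1.1, p.1.2.1, p.1.2.2), by
    show p.1.2.1 ∈ X.T (X.mv p.1.2.1 p.1.1) ∧ p.1.2.2 ∈ X.T (X.mv p.1.2.1 p.1.1) ∧ p.1.2.1 ≠ p.1.2.2
    rw [X.T_mv _ _ p.2.1]
    exact p.2⟩
  ℓ_smul g p := rfl
  mv_smul g p := Subtype.ext (Prod.ext (X.mv_smul g _ _ p.2.1) rfl)
  mv_mv p := Subtype.ext (Prod.ext (X.mv_mv _ _ p.2.1) rfl)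
  ℓ_mv p := rfl

/-- the second marked letter -/
def L2' : Ltr H G X.Mk2 where
  ℓ p := p.1.2.2
  mv p := ⟨(X.mv p.1.2.2 p.1.1, p.1.2.1, p.1.2.2), by
    show p.1.2.1 ∈ X.T (X.mv p.1.2.2 p.1.1) ∧ p.1.2.2 ∈ X.T (X.mv p.1.2.2 p.1.1) ∧ p.1.2.1 ≠ p.1.2.2
    rw [X.T_mv _ _ p.2.2.1]
    exact p.2⟩
  ℓ_smul g p := rfl
  mv_smul g p := Subtype.ext (Prod.ext (X.mv_smul g _ _ p.2.2.1) rfl)
  mv_mv p := Subtype.ext (Prod.ext (X.mv_mv _ _ p.2.2.1) rfl)
  ℓ_mv p := rfl

/-- forget the marked letter -/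
def fg (p : X.Mk) : A := p.1.1

/-- forget the second marked letter -/
def f1 (p : X.Mk2) : X.Mk := ⟨(p.1.1, p.1.2.1), p.2.1⟩

/-- forget the first marked letter -/
def f2 (p : X.Mk2) : X.Mk := ⟨(p.1.1, p.1.2.2), p.2.2.1⟩

lemma fg_fib (a : A) : {p : X.Mk | X.fg p = a}.Finite ∧ {p : X.Mk | X.fg p = a}.ncard ≤ X.bd := by
  have h1 : Set.InjOn (fun p : X.Mk => p.1.2) {p | X.fg p = a} := by
    rintro p hp q hq h
    exact Subtype.ext (Prod.ext ((show p.1.1 = a from hp).trans (show q.1.1 = a from hq).symm) h)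
  have h2 : Set.MapsTo (fun p : X.Mk => p.1.2) {p | X.fg p = a} (X.T a : Set H) := by
    rintro p rfl
    exact p.2
  have h3 : {p : X.Mk | X.fg p = a}.Finite := Set.Finite.of_injOn h2 h1 (Finset.finite_toSet _)
  refine ⟨h3, ?_⟩
  calc {p : X.Mk | X.fg p = a}.ncard ≤ (X.T a : Set H).ncard :=
        Set.ncard_le_ncard_of_injOn _ h2 h1 (Finset.finite_toSet _)
    _ = (X.T a).card := Set.ncard_coe_finset _
    _ ≤ X.bd := X.card _

lemma f1_fib (q : X.Mk) : {p : X.Mk2 | X.f1 p = q}.Finite ∧ {p : X.Mk2 | X.f1 p = q}.ncard ≤ X.bd := by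
  have h1 : Set.InjOn (fun p : X.Mk2 => p.1.2.2) {p | X.f1 p = q} := by
    rintro p hp p' hp' h
    have e : X.f1 p = X.f1 p' := (show X.f1 p = q from hp).trans (show X.f1 p' = q from hp').symm
    have e1 : p.1.1 = p'.1.1 := congrArg (fun q : X.Mk => q.1.1) e
    have e2 : p.1.2.1 = p'.1.2.1 := congrArg (fun q : X.Mk => q.1.2) e
    exact Subtype.ext (Prod.ext e1 (Prod.ext e2 h))
  have h2 : Set.MapsTo (fun p : X.Mk2 => p.1.2.2) {p | X.f1 p = q} (X.T q.1.1 : Set H) := by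
    rintro p rfl
    exact p.2.2.1
  have h3 : {p : X.Mk2 | X.f1 p = q}.Finite := Set.Finite.of_injOn h2 h1 (Finset.finite_toSet _)
  refine ⟨h3, ?_⟩
  calc {p : X.Mk2 | X.f1 p = q}.ncard ≤ (X.T q.1.1 : Set H).ncard :=
        Set.ncard_le_ncard_of_injOn _ h2 h1 (Finset.finite_toSet _)
    _ = (X.T q.1.1).card := Set.ncard_coe_finset _
    _ ≤ X.bd := X.card _

lemma f2_fib (q : X.Mk) : {p : X.Mk2 | X.f2 p = q}.Finite ∧ {p : X.Mk2 | X.f2 p = q}.ncard ≤ X.bd := by
  have h1 : Set.InjOn (fun p : X.Mk2 => p.1.2.1) {p | X.f2 p = q} := by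
    rintro p hp p' hp' h
    have e : X.f2 p = X.f2 p' := (show X.f2 p = q from hp).trans (show X.f2 p' = q from hp').symm
    have e1 : p.1.1 = p'.1.1 := congrArg (fun q : X.Mk => q.1.1) e
    have e2 : p.1.2.2 = p'.1.2.2 := congrArg (fun q : X.Mk => q.1.2) e
    exact Subtype.ext (Prod.ext e1 (Prod.ext h e2))
  have h2 : Set.MapsTo (fun p : X.Mk2 => p.1.2.1) {p | X.f2 p = q} (X.T q.1.1 : Set H) := by
    rintro p rfl
    exact p.2.1
  have h3 : {p : X.Mk2 | X.f2 p = q}.Finite := Set.Finite.of_injOn h2 h1 (Finset.finite_toSet _)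
  refine ⟨h3, ?_⟩
  calc {p : X.Mk2 | X.f2 p = q}.ncard ≤ (X.T q.1.1 : Set H).ncard :=
        Set.ncard_le_ncard_of_injOn _ h2 h1 (Finset.finite_toSet _)
    _ = (X.T q.1.1).card := Set.ncard_coe_finset _
    _ ≤ X.bd := X.card _

end TSet

/-! ### maps of cells -/

section map
variable {S : Hyp H G} {F : Type*} [AddCommGroup F] {R R' : Type*} [MulAction G R] [MulAction G R']

/-- the map of cells given by a map of the second component -/
def cm (φ : R' → R) (y : Cell S F R') : Cell S F R := ⟨y.n, φ y.r⟩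

lemma fib_cm {φ : R' → R} {M : ℕ} (h : ∀ r, {p | φ p = r}.Finite ∧ {p | φ p = r}.ncard ≤ M) :
    Fibre (cm φ : Cell S F R' → Cell S F R) M := by
  have h1 : ∀ y : Cell S F R, Set.InjOn (fun z : Cell S F R' => z.r) {z | cm φ z = y} := by
    rintro y z hz z' hz' h
    have e : z.n = z'.n := (congrArg Cell.n hz).trans (congrArg Cell.n hz').symm
    exact Cell.ext e h
  have h2 : ∀ y : Cell S F R, Set.MapsTo (fun z : Cell S F R' => z.r) {z | cm φ z = y} {p | φ p = y.r} := by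
    rintro y z rfl
    rfl
  exact ⟨fun y => Set.Finite.of_injOn (h2 y) (h1 y) (h y.r).1,
    fun y => (Set.ncard_le_ncard_of_injOn _ (h2 y) (h1 y) (h y.r).1).trans (h y.r).2⟩

lemma cm_smul {φ : R' → R} (hφ : ∀ (g : G) r, φ (g • r) = g • φ r) (g : Gh S F) (y : Cell S F R') :
    cm φ (g • y) = g • (cm φ y : Cell S F R) := Cell.ext rfl (hφ _ _)

/-- composition with a map is equivariant -/
lemma equi_plf {Γ : Type*} [Group Γ] {Y Z : Type*} [MulAction Γ Y] [MulAction Γ Z] {r : Z → Y} {M : ℕ}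
    (h : Fibre r M) (hr : ∀ (g : Γ) z, r (g • z) = g • r z) : Equi Γ (plf h) := fun g f => by
  ext z
  show f (g⁻¹ • r z) = f (r (g⁻¹ • z))
  rw [hr]

lemma equi_psf {Γ : Type*} [Group Γ] {Y Z : Type*} [MulAction Γ Y] [MulAction Γ Z] {r : Z → Y} {M : ℕ}
    (h : Fibre r M) (hr : ∀ (g : Γ) z, r (g • z) = g • r z) : Equi Γ (psf h) := (equi_plf h hr).adjoint

end map

/-! ### operators of a letter -/

section ops
variable (S : Hyp H G) (F : Type*) [AddCommGroup F] {R : Type*} [MulAction G R] (L : Ltr H G R)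

/-- translation of the label of the letter -/
noncomputable def Tl (x : F) : L2 (Cell S F R) →L[ℂ] L2 (Cell S F R) :=
  pull (Cell.tl L x) (Function.LeftInverse.injective (g := Cell.tl L (-x))
    fun y => by rw [Cell.tl_tl, neg_add_cancel, Cell.tl_zero])

/-- the mirror move -/
noncomputable def Mi : L2 (Cell S F R) →L[ℂ] L2 (Cell S F R) :=
  pull (Cell.mi L) (Function.LeftInverse.injective (g := Cell.mi L) (Cell.mi_mi L))

/-- the glue move -/
noncomputable def Gl : L2 (Cell S F R) →L[ℂ] L2 (Cell S F R) :=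
  pull (Cell.gl L) (Function.LeftInverse.injective (g := Cell.gl L) (Cell.gl_gl L))

variable (R) in
/-- translation of the label of the hyperplane `t` -/
noncomputable def La (t : H) (x : F) : L2 (Cell S F R) →L[ℂ] L2 (Cell S F R) :=
  pull (Cell.lt t x) (Function.LeftInverse.injective (g := Cell.lt t (-x))
    fun y => by rw [Cell.lt_lt, neg_add_cancel, Cell.lt_zero])

variable {S F}

@[simp] lemma Tl_apply (x : F) (f : L2 (Cell S F R)) (y : Cell S F R) : Tl S F L x f y = f (y.tl L x) := rfl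
@[simp] lemma Mi_apply (f : L2 (Cell S F R)) (y : Cell S F R) : Mi S F L f y = f (y.mi L) := rfl
@[simp] lemma Gl_apply (f : L2 (Cell S F R)) (y : Cell S F R) : Gl S F L f y = f (y.gl L) := rfl
@[simp] lemma La_apply (t : H) (x : F) (f : L2 (Cell S F R)) (y : Cell S F R) : La S F R t x f y = f (y.lt t x) := rfl

lemma Tl_Tl (x x' : F) (f : L2 (Cell S F R)) : Tl S F L x (Tl S F L x' f) = Tl S F L (x + x') f := by
  ext y
  rw [Tl_apply, Tl_apply, Tl_apply, Cell.tl_tl, add_comm]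

@[simp] lemma Tl_zero (f : L2 (Cell S F R)) : Tl S F L 0 f = f := by
  ext y
  rw [Tl_apply, Cell.tl_zero]

lemma La_La (t : H) (x x' : F) (f : L2 (Cell S F R)) : La S F R t x (La S F R t x' f) = La S F R t (x + x') f := by
  ext y
  rw [La_apply, La_apply, La_apply, Cell.lt_lt, add_comm]

lemma La_zero (t : H) (f : L2 (Cell S F R)) : La S F R t 0 f = f := by
  ext y
  rw [La_apply, Cell.lt_zero]

lemma Tl_Mi (x : F) (f : L2 (Cell S F R)) : Tl S F L x (Mi S F L f) = Mi S F L (Tl S F L x f) := by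
  ext y
  rw [Tl_apply, Mi_apply, Mi_apply, Tl_apply, Cell.tl_mi]

lemma Tl_Gl (x : F) (f : L2 (Cell S F R)) : Tl S F L x (Gl S F L f) = Gl S F L (Tl S F L x f) := by
  ext y
  rw [Tl_apply, Gl_apply, Gl_apply, Tl_apply, Cell.tl_gl]

lemma equi_Tl (x : F) : Equi (Gh S F) (Tl S F L x) := equi_pull _ fun g y => Cell.smul_tl L g x y
lemma equi_Mi : Equi (Gh S F) (Mi S F L) := equi_pull _ fun g y => Cell.smul_mi L g y
lemma equi_Gl : Equi (Gh S F) (Gl S F L) := equi_pull _ fun g y => Cell.smul_gl L g y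

end ops

/-! ### operators of matrices -/

/-- an equivariant matrix with finite rows and columns -/
structure Kern (G A B : Type*) [Group G] [MulAction G A] [MulAction G B] where
  /-- the entries -/
  d : A → B → ℤ
  smul : ∀ (g : G) a b, d (g • a) (g • b) = d a b
  M : ℕ
  row : ∀ a, {b | d a b ≠ 0}.Finite ∧ {b | d a b ≠ 0}.ncard ≤ M
  col : ∀ b, {a | d a b ≠ 0}.Finite ∧ {a | d a b ≠ 0}.ncard ≤ M
  le : ∀ a b, ‖(d a b : ℂ)‖ ≤ M

namespace Kern
variable {A B : Type*} [MulAction G A] [MulAction G B] (K : Kern G A B)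

/-- the entries different from zero -/
def I : Type _ := {p : A × B // K.d p.1 p.2 ≠ 0}

instance : MulAction G K.I where
  smul g p := ⟨(g • p.1.1, g • p.1.2), by
    show K.d (g • p.1.1) (g • p.1.2) ≠ 0
    rw [K.smul]
    exact p.2⟩
  one_smul p := Subtype.ext (Prod.ext (one_smul _ _) (one_smul _ _))
  mul_smul g h p := Subtype.ext (Prod.ext (mul_smul _ _ _) (mul_smul _ _ _))

/-- the row of an entry -/
def pA (p : K.I) : A := p.1.1
/-- the column of an entry -/
def pB (p : K.I) : B := p.1.2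

lemma fibA (a : A) : {p : K.I | K.pA p = a}.Finite ∧ {p : K.I | K.pA p = a}.ncard ≤ K.M := by
  have h1 : Set.InjOn (fun p : K.I => p.1.2) {p | K.pA p = a} := by
    rintro p hp q hq h
    exact Subtype.ext (Prod.ext ((show p.1.1 = a from hp).trans (show q.1.1 = a from hq).symm) h)
  have h2 : Set.MapsTo (fun p : K.I => p.1.2) {p | K.pA p = a} {b | K.d a b ≠ 0} := by
    rintro p rfl
    exact p.2
  exact ⟨Set.Finite.of_injOn h2 h1 (K.row a).1,
    (Set.ncard_le_ncard_of_injOn _ h2 h1 (K.row a).1).trans (K.row a).2⟩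

lemma fibB (b : B) : {p : K.I | K.pB p = b}.Finite ∧ {p : K.I | K.pB p = b}.ncard ≤ K.M := by
  have h1 : Set.InjOn (fun p : K.I => p.1.1) {p | K.pB p = b} := by
    rintro p hp q hq h
    exact Subtype.ext (Prod.ext h ((show p.1.2 = b from hp).trans (show q.1.2 = b from hq).symm))
  have h2 : Set.MapsTo (fun p : K.I => p.1.1) {p | K.pB p = b} {a | K.d a b ≠ 0} := by
    rintro p rfl
    exact p.2
  exact ⟨Set.Finite.of_injOn h2 h1 (K.col b).1,
    (Set.ncard_le_ncard_of_injOn _ h2 h1 (K.col b).1).trans (K.col b).2⟩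

/-- the column -/
noncomputable def cl (b : B) : Finset A := (K.col b).1.toFinset

lemma mem_cl {b : B} {a : A} : a ∈ K.cl b ↔ K.d a b ≠ 0 := (K.col b).1.mem_toFinset

/-- the normalised entries -/
noncomputable def wt (p : K.I) : ℂ := (K.M : ℂ)⁻¹ * K.d p.1.1 p.1.2

lemma wt_le (p : K.I) : ‖K.wt p‖ ≤ 1 := by
  unfold wt
  rw [norm_mul, norm_inv, Complex.norm_natCast]
  rcases Nat.eq_zero_or_pos K.M with h | h
  · rw [h]
    simp
  · have h' : (0 : ℝ) < K.M := by exact_mod_cast h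
    rw [inv_mul_le_iff₀ h', mul_one]
    exact K.le _ _

/-- the operator of the matrix -/
noncomputable def D (S : Hyp H G) (F : Type*) [AddCommGroup F] : L2 (Cell S F A) →L[ℂ] L2 (Cell S F B) :=
  (K.M : ℂ) • ((psf (fib_cm (S := S) (F := F) K.fibB)).comp ((mul (fun y : Cell S F K.I => K.wt y.r)
    (fun y => K.wt_le y.r)).comp (plf (fib_cm (S := S) (F := F) K.fibA))))

variable {S : Hyp H G} {F : Type*} [AddCommGroup F]

theorem D_apply (f : L2 (Cell S F A)) (y : Cell S F B) :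
    K.D S F f y = ∑ a ∈ K.cl y.r, (K.d a y.r : ℂ) * f ⟨y.n, a⟩ := by
  classical
  have h0 : K.D S F f y = (K.M : ℂ) * ∑ z ∈ ((fib_cm (S := S) (F := F) K.fibB).fin y).toFinset,
      K.wt z.r * f ⟨z.n, z.r.1.1⟩ := by
    have h1 : K.D S F f y = (K.M : ℂ) * (psf (fib_cm (S := S) (F := F) K.fibB)
      (mul (fun y : Cell S F K.I => K.wt y.r) (fun y => K.wt_le y.r)
      (plf (fib_cm (S := S) (F := F) K.fibA) f)) y) := rfl
    rw [h1, psf_apply]
    rfl
  rw [h0, Finset.mul_sum]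
  refine Finset.sum_bij' (fun z _ => z.r.1.1)
    (fun a ha => (⟨y.n, ⟨(a, y.r), K.mem_cl.1 ha⟩⟩ : Cell S F K.I)) ?_ ?_ ?_ ?_ ?_
  · intro z hz
    have hz' : cm K.pB z = y := ((fib_cm (S := S) (F := F) K.fibB).fin y).mem_toFinset.1 hz
    rw [mem_cl, ← hz']
    exact z.r.2
  · intro a ha
    rw [Set.Finite.mem_toFinset]
    rfl
  · intro z hz
    have hz' : cm K.pB z = y := ((fib_cm (S := S) (F := F) K.fibB).fin y).mem_toFinset.1 hz
    subst hz'
    rfl
  · intro a ha
    rfl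
  · intro z hz
    have hz' : cm K.pB z = y := ((fib_cm (S := S) (F := F) K.fibB).fin y).mem_toFinset.1 hz
    subst hz'
    show (K.M : ℂ) * (((K.M : ℂ)⁻¹ * K.d z.r.1.1 z.r.1.2) * f ⟨z.n, z.r.1.1⟩) =
      (K.d z.r.1.1 z.r.1.2 : ℂ) * f ⟨z.n, z.r.1.1⟩
    rcases Nat.eq_zero_or_pos K.M with h | h
    · exfalso
      have h1 := K.le z.r.1.1 z.r.1.2
      rw [h, Nat.cast_zero, norm_le_zero_iff] at h1
      exact z.r.2 (by exact_mod_cast h1)
    · have h' : (K.M : ℂ) ≠ 0 := by exact_mod_cast h.ne'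
      rw [← mul_assoc, mul_inv_cancel_left₀ h']

theorem equi_D : Equi (Gh S F) (K.D S F) := by
  have h1 : Equi (Gh S F) (plf (fib_cm (S := S) (F := F) K.fibA)) := equi_plf _ fun g y => cm_smul (fun _ _ => rfl) g y
  have h2 : Equi (Gh S F) (psf (fib_cm (S := S) (F := F) K.fibB)) := equi_psf _ fun g y => cm_smul (fun _ _ => rfl) g y
  refine (h2.comp ((equi_mul _ fun g y => ?_).comp h1)).smul _
  show (K.M : ℂ)⁻¹ * K.d (g.right • y.r.1.1) (g.right • y.r.1.2) = _
  rw [K.smul]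
  rfl

theorem D_La (t : H) (x : F) (f : L2 (Cell S F A)) : K.D S F (La S F A t x f) = La S F B t x (K.D S F f) := by
  ext y
  rw [La_apply, D_apply, D_apply]
  rfl

/-- multiplication by a function of the first component -/
theorem D_ind (N : Set (NN S F)) (f : L2 (Cell S F A)) :
    K.D S F (ind {y : Cell S F A | y.n ∈ N} f) = ind {y : Cell S F B | y.n ∈ N} (K.D S F f) := by
  classical
  ext y
  rw [D_apply, ind_apply]
  by_cases hy : y.n ∈ N
  · rw [if_pos (by exact hy), D_apply]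
    refine Finset.sum_congr rfl fun a _ => ?_
    rw [ind_mem (by exact hy)]
  · rw [if_neg (by exact hy)]
    refine Finset.sum_eq_zero fun a _ => ?_
    rw [ind_notMem (by exact hy), mul_zero]

end Kern

end Cm
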