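import Pool.Agent.Cm.Piece
import Pool.Agent.Cm.Cells
import Pool.Agent.Cm.ResE2
import Pool.Agent.Cm.Iso
import Pool.Agent.Npc.Loc

/-!
# The cells over one orbit

* `vd_eq_loc_on` : a dimension, computed on one piece;
* `grJ` : the complex of the cells over a complex `K` with the orbits as types;
* `bU_sing` : the number of the piece of the orbit `a` in degree `n` is the `ℓ²`-Betti number of the stabilizer in degree
  `n - dim a`.
-/

set_option autoImplicit false
set_option linter.unusedSectionVars false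
set_option linter.unusedVariables false

open scoped ComplexConjugate InnerProductSpace
open Filter Topology

namespace Cm

open Singer
open Npc (Cof Orb vd Mdl vd_map_add mdl_ker vd_mono ind ind_apply ind_mem ind_notMem dl inner_dl_left pr pr_unique
  norm_pr_dl_push norm_pr_dl_smul)

section loc
variable {Γ Y : Type*} [Group Γ] [MulAction Γ Y] [Cof Γ Y] {Γ' Y' : Type*} [Group Γ'] [MulAction Γ' Y'] [Cof Γ' Y']

/-- the dimension, computed on one piece which need not cover everything -/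
theorem vd_eq_loc_on (p : Y' → Y) (hp : Function.Injective p) {V : Submodule ℂ (L2 Y)} (hV : Npc.Inv Γ V)
    (V' : Submodule ℂ (L2 Y')) (h1 : ∀ f ∈ V', push p hp f ∈ V) (h2 : ∀ f ∈ V, pull p hp f ∈ V')
    (hcov : ∀ y, (∀ f ∈ V, f y = 0) ∨ ∃ y' : Y', ∃ γ : Γ, γ • p y' = y)
    (heq : ∀ (y' : Y') (g : Γ'), ∃ γ : Γ, γ • p y' = p (g • y'))
    (hinj : ∀ (y' z' : Y') (γ : Γ), γ • p y' = p z' → ∃ g : Γ', g • y' = z') :
    vd Γ V = vd Γ' V' := by
  classical
  unfold vd
  symm
  refine Fintype.sum_of_injective (fun q : Orb Γ' Y' => (Quotient.mk'' (p q.out) : Orb Γ Y)) ?_ _ _ ?_ ?_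
  · intro q r hqr
    obtain ⟨γ, hγ⟩ : ∃ γ : Γ, γ • p r.out = p q.out := Quotient.exact' hqr
    obtain ⟨g, hg⟩ := hinj _ _ γ hγ
    rw [← Quotient.out_eq' q, ← Quotient.out_eq' r]
    exact Quotient.sound' ⟨g, hg⟩
  · intro r hr
    rcases hcov r.out with h | ⟨y', γ, h⟩
    · have h3 : pr V (dl r.out) = 0 := by
        refine pr_unique (Submodule.zero_mem _) ?_
        rw [sub_zero, Submodule.mem_orthogonal']
        intro u hu
        rw [inner_dl_left]
        exact h u hu
      rw [h3, norm_zero]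
      norm_num
    · exfalso
      apply hr
      refine ⟨Quotient.mk'' y', ?_⟩
      have h3 : MulAction.orbitRel Γ' Y' (Quotient.out (Quotient.mk'' y' : Orb Γ' Y')) y' := Quotient.mk_out y'
      obtain ⟨g, hg⟩ := h3
      obtain ⟨γ', hγ'⟩ := heq y' g
      rw [← Quotient.out_eq' r]
      refine Quotient.sound' ⟨γ' * γ⁻¹, ?_⟩
      show (γ' * γ⁻¹) • r.out = p (Quotient.out (Quotient.mk'' y' : Orb Γ' Y'))
      rw [← h, mul_smul, inv_smul_smul, hγ']
      congr 1
  · intro q
    have h3 : MulAction.orbitRel Γ Y (Quotient.out (Quotient.mk'' (p q.out) : Orb Γ Y)) (p q.out) := Quotient.mk_out _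
    obtain ⟨g, hg⟩ := h3
    have h4 : Quotient.out (Quotient.mk'' (p q.out) : Orb Γ Y) = g • p q.out := hg.symm
    rw [h4, norm_pr_dl_smul hV, norm_pr_dl_push hp h1 h2]

end loc

/-! ### the free action of `H` on `H × ι` -/

section bs
variable {H : Type*} [Group H] {ι : Type*}

/-- the action of `H` on `H × ι` -/
@[instance_reducible] def bsAct (H ι : Type*) [Group H] : MulAction H (H × ι) where
  smul g x := (g * x.1, x.2)
  one_smul x := Prod.ext (one_mul _) rfl
  mul_smul g h x := Prod.ext (mul_assoc _ _ _) rfl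

attribute [local instance] bsAct

lemma bs_smul (g : H) (x : H × ι) : g • x = (g * x.1, x.2) := rfl

instance bs_cof [Finite ι] : Cof H (H × ι) where
  free g x h := by
    have h1 : g * x.1 = x.1 := congrArg Prod.fst h
    exact mul_eq_right.1 h1
  fin := by
    refine Finite.of_surjective (fun i : ι => (Quotient.mk'' ((1 : H), i) : MulAction.orbitRel.Quotient H (H × ι))) ?_
    intro q
    induction q using Quotient.inductionOn' with | h e => ?_
    refine ⟨e.2, Quotient.sound' ⟨e.1⁻¹, ?_⟩⟩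
    exact Prod.ext (inv_mul_cancel _) rfl

lemma dl_eq_del (g : H) (i : ι) : (dl (g, i) : E H ι) = del g i := by
  ext x
  by_cases h : x = (g, i)
  · subst h
    rw [Npc.dl_apply_self, del_apply_self]
  · rw [Npc.dl_apply_ne h, del_apply_ne h]

theorem vd_eq_vdim [Fintype ι] {V : Submodule ℂ (E H ι)} (hV : Singer.Inv V) : vd H V = vdim V := by
  have h1 : Npc.Inv H V := fun g f hf => hV g f hf
  rw [Npc.vd_eq_sum h1 (fun i : ι => ((1 : H), i))]
  · unfold vdim
    refine Finset.sum_congr rfl fun i _ => ?_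
    rw [dl_eq_del]
    rfl
  · rintro ⟨g, i⟩
    refine ⟨i, ⟨g, Prod.ext (mul_one g) rfl⟩, ?_⟩
    rintro l ⟨h, hl⟩
    exact congrArg Prod.snd hl

variable (χ : H → ℤ) (hχ : ∀ h, χ h * χ h = 1)

lemma norm_sq_one {k : ℤ} (hk : k * k = 1) : ‖(k : ℂ)‖ = 1 := by
  rcases mul_self_eq_one_iff.1 hk with h | h <;> rw [h] <;> simp

/-- the twist by signs -/
noncomputable def twL (ι : Type*) : E H ι →L[ℂ] E H ι :=
  mul (fun x => (χ x.1 : ℂ)) fun x => (norm_sq_one (hχ x.1)).le

lemma twL_apply (u : E H ι) (x : H × ι) : twL χ hχ ι u x = (χ x.1 : ℂ) * u x := rfl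

include hχ in
lemma sq_one' (h : H) : (χ h : ℂ) * (χ h : ℂ) = 1 := by
  have h1 := hχ h
  exact_mod_cast h1

lemma twL_twL (u : E H ι) : twL χ hχ ι (twL χ hχ ι u) = u := by
  ext x
  rw [twL_apply, twL_apply, ← mul_assoc, sq_one' χ hχ, one_mul]

lemma inner_twL (u v : E H ι) : ⟪twL χ hχ ι u, v⟫_ℂ = ⟪u, twL χ hχ ι v⟫_ℂ := by
  rw [Singer.inner_eq, Singer.inner_eq]
  refine tsum_congr fun x => ?_
  rw [twL_apply, twL_apply, map_mul, map_intCast]
  ring

lemma norm_twL (u : E H ι) : ‖twL χ hχ ι u‖ = ‖u‖ := by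
  have h1 : ⟪twL χ hχ ι u, twL χ hχ ι u⟫_ℂ = ⟪u, u⟫_ℂ := by rw [inner_twL, twL_twL]
  rw [inner_self_eq_norm_sq_to_K (𝕜 := ℂ), inner_self_eq_norm_sq_to_K (𝕜 := ℂ)] at h1
  have h2 : ‖twL χ hχ ι u‖ ^ 2 = ‖u‖ ^ 2 := by exact_mod_cast h1
  exact (pow_left_inj₀ (norm_nonneg _) (norm_nonneg _) two_ne_zero).1 h2

/-- the twisted subspace -/
noncomputable def twV (V : Submodule ℂ (E H ι)) : Submodule ℂ (E H ι) :=
  V.comap (twL χ hχ ι : E H ι →ₗ[ℂ] E H ι)

lemma mem_twV {V : Submodule ℂ (E H ι)} {u : E H ι} : u ∈ twV χ hχ V ↔ twL χ hχ ι u ∈ V := Iff.rfl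

lemma prj_twV (V : Submodule ℂ (E H ι)) (u : E H ι) :
    twL χ hχ ι (prj (twV χ hχ V) u) = prj V (twL χ hχ ι u) := by
  refine (prj_unique ?_ ?_).symm
  · have h1 : (twV χ hχ V).topologicalClosure ≤ V.topologicalClosure.comap (twL χ hχ ι : E H ι →ₗ[ℂ] E H ι) := by
      refine (twV χ hχ V).topologicalClosure_minimal (fun x hx => V.le_topologicalClosure hx) ?_
      exact (Submodule.isClosed_topologicalClosure V).preimage (twL χ hχ ι).continuous
    exact h1 (prj_mem _ u)
  · rw [← map_sub, Submodule.mem_orthogonal]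
    intro w hw
    rw [← inner_twL]
    refine (Submodule.mem_orthogonal _ _).1 (sub_prj_mem (twV χ hχ V) u) _ ?_
    rw [mem_twV, twL_twL]
    exact hw

theorem vdim_twV [Fintype ι] (V : Submodule ℂ (E H ι)) : vdim (twV χ hχ V) = vdim V := by
  unfold vdim
  refine Finset.sum_congr rfl fun i _ => ?_
  have h1 : twL χ hχ ι (del 1 i) = (χ 1 : ℂ) • del 1 i := by
    ext x
    rw [twL_apply, lp.coeFn_smul, Pi.smul_apply, smul_eq_mul]
    by_cases h : x = (1, i)
    · rw [h]
    · have h2 : (del (1 : H) i : E H ι) x = 0 := del_apply_ne h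
      rw [h2, mul_zero, mul_zero]
  rw [← norm_twL χ hχ, prj_twV, h1, map_smul, norm_smul, norm_sq_one (hχ 1), one_mul]

end bs

/-! ### the numbers of a resolution -/

section res
variable {H : Type*} [Group H] (F : FinRes H)

/-- the cycles -/
noncomputable def Zr (q : ℕ) : Submodule ℂ (E H (F.ι q)) := F.toRes.Z q

/-- the dimension of the cycles -/
noncomputable def zF (q : ℕ) : ℝ := vdim (Zr F q)

/-- the Betti numbers -/
theorem betti_zF (q : ℕ) : F.betti q = zF F q + zF F (q + 1) - Fintype.card (F.ι (q + 1)) := by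
  refine (FinRes.betti_eq F q).trans ?_
  have h1 : vdim ((⊤ : Submodule ℂ (E H (F.ι (q + 1)))).map
      (hat (F.d q) : E H (F.ι (q + 1)) →ₗ[ℂ] E H (F.ι q))) + zF F (q + 1) =
      vdim (⊤ : Submodule ℂ (E H (F.ι (q + 1)))) :=
    Singer.vdim_map_add (mat_hat (F.d q)).equi Singer.inv_top isClosed_univ
  have h2 : vdim (F.toRes.B q) = vdim ((⊤ : Submodule ℂ (E H (F.ι (q + 1)))).map
      (hat (F.d q) : E H (F.ι (q + 1)) →ₗ[ℂ] E H (F.ι q))) := by
    unfold PreRes.B
    rw [vdim_closure]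
    rfl
  have h4 : vdim (⊤ : Submodule ℂ (E H (F.ι (q + 1)))) = Fintype.card (F.ι (q + 1)) := Singer.vdim_top
  rw [h4] at h1
  have h5 : F.toRes.toPreRes.toHC.h q = zF F q - vdim (F.toRes.B q) := by
    unfold HC.h
    rw [PreRes.toHC_Z, PreRes.toHC_B]
    rfl
  rw [h5, h2]
  linarith

theorem zF_zero : zF F 0 = Fintype.card (F.ι 0) := by
  exact Singer.vdim_top (Γ := H) (ι := F.ι 0)

end res

/-! ### the complex of the cells -/

/-- the product of two matrices is zero -/
theorem Kern.op_op {G A B C : Type*} [Group G] [MulAction G A] [MulAction G B] [MulAction G C] (K : Kern G A B)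
    (L : Kern G B C) (h : ∀ a c, ∑ᶠ b, K.d a b * L.d b c = 0) (f : L2 A) : L.op (K.op f) = 0 := by
  have h1 : (L.op).comp (K.op) = 0 := by
    refine eq_zero_of_dl fun a => ?_
    ext c
    rw [ContinuousLinearMap.comp_apply, L.op_apply]
    show ∑ b ∈ L.cl c, (L.d b c : ℂ) * (K.op (dl a)) b = 0
    have h2 := h a c
    rw [finsum_eq_sum_of_support_subset (s := L.cl c)] at h2
    · have h3 : ∑ b ∈ L.cl c, (L.d b c : ℂ) * (K.op (dl a)) b = ((∑ b ∈ L.cl c, K.d a b * L.d b c : ℤ) : ℂ) := by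
        rw [Int.cast_sum]
        refine Finset.sum_congr rfl fun b _ => ?_
        rw [K.op_dl, Int.cast_mul, mul_comm]
      rw [h3, h2, Int.cast_zero]
    · intro b hb
      rw [Finset.mem_coe, L.mem_cl]
      intro h4
      exact hb (by
        show K.d a b * L.d b c = 0
        rw [h4, mul_zero])
  exact DFunLike.congr_fun h1 f

section orbit
variable {Γ K : Type*} [Group Γ] [MulAction Γ K] {S : SK Γ K} {P : Rps Γ K} {D : P.I → (P.E →₀ ℤ)} {n : ℕ}

variable (S P D) in
/-- the matrix of the boundary -/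
noncomputable def kJ (j : ℕ) : Kern Γ (EJ S P (j + 1)) (EJ S P j) where
  d e e' := incJ D e e'
  smul := incJ_smul
  M := (exists_bound (S := S) (D := D) j).choose
  row := (exists_bound (S := S) (D := D) j).choose_spec.1
  col := (exists_bound (S := S) (D := D) j).choose_spec.2.1
  le := (exists_bound (S := S) (D := D) j).choose_spec.2.2

/-- the orbit of the cell of `K` below a cell -/
def ty {j : ℕ} (e : EJ S P j) : P.A := e.1.2.1

lemma dim_cbJ {j : ℕ} (e : EJ S P j) : S.dim (cbJ e) = S.dim (P.rep (ty e)) := dim_cb e.1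

/-- the complex of the cells with their orbits -/
noncomputable def grJ (hG : Good S P D n) (hn : ∀ x, S.dim x < n) : Gr Γ (EJ S P) P.A where
  k := kJ S P D
  dd j f := Kern.op_op _ _ (fun e e'' => (lin_finsum (incJ D) (incJ D e) e'').trans (by
    rw [incJ_incJ hG hn]
    rfl)) f
  τ := ty
  τ_smul g e := rfl
  dm a := S.dim (P.rep a)
  low e e' h := by
    by_cases h1 : P.ext D e.1 e'.1 - P.ext (P.top S) e.1 e'.1 = 0
    · left
      have h2 : P.ext (P.top S) e.1 e'.1 ≠ 0 := by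
        rw [← sub_eq_zero.1 h1]
        exact h
      rw [P.ext_apply] at h2
      exact (top_supp h2).2.1
    · right
      obtain ⟨h2, h3⟩ := hG.lowE (hn _) h1
      have h4 := S.dim_lt _ _ h2 h3
      rw [dim_cb, dim_cb] at h4
      exact h4

variable (hG : Good S P D n) (hn : ∀ x, S.dim x < n)

include hG hn in
/-- the incidence numbers of the cells over one orbit -/
lemma incJ_same {j : ℕ} {e : EJ S P (j + 1)} {e' : EJ S P j} (h : ty e' = ty e) :
    incJ D e e' = P.top S e.1.2 (e.1.1⁻¹ * e'.1.1, e'.1.2) := by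
  rw [incJ_apply, ← P.ext_apply]
  by_contra h1
  obtain ⟨h2, h3⟩ := hG.lowE (hn _) (sub_ne_zero.2 h1)
  have h4 := S.dim_lt _ _ h2 h3
  rw [dim_cb, dim_cb] at h4
  have h5 : e'.1.2.1 = e.1.2.1 := h
  rw [h5] at h4
  exact lt_irrefl _ h4

/-- the entries of the twisted boundary -/
lemma top_coeff (a : P.A) (q : ℕ) (i : (P.R a).ι (q + 1)) (l : (P.R a).ι q)
    (γ : MulAction.stabilizer Γ (P.rep a)) : P.top S ⟨a, q + 1, i⟩ ((γ : Γ), ⟨a, q, l⟩) =
      S.sg γ (P.rep a) * ((P.R a).d q i l).coeff γ := by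
  classical
  show (∑ l', lin (fun γ : MulAction.stabilizer Γ (P.rep a) =>
      (Finsupp.single ((γ : Γ), (⟨a, q, l'⟩ : P.I)) (S.sg γ (P.rep a)) : P.E →₀ ℤ)) ((P.R a).d q i l').coeff)
      ((γ : Γ), ⟨a, q, l⟩) = _
  rw [Finsupp.finsetSum_apply, Finset.sum_eq_single l]
  · rw [lin_apply, Finsupp.sum]
    have h1 : ∀ δ ∈ ((P.R a).d q i l).coeff.support,
        (Finsupp.single ((δ : Γ), (⟨a, q, l⟩ : P.I)) (S.sg δ (P.rep a)) : P.E →₀ ℤ) ((γ : Γ), ⟨a, q, l⟩) •
          ((P.R a).d q i l).coeff δ = if δ = γ then S.sg γ (P.rep a) * ((P.R a).d q i l).coeff γ else 0 := by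
      intro δ _
      rw [Finsupp.single_apply]
      by_cases h2 : δ = γ
      · subst h2
        rw [if_pos rfl, if_pos rfl, smul_eq_mul]
      · rw [if_neg h2, if_neg, zero_smul]
        intro h3
        exact h2 (Subtype.ext (Prod.ext_iff.1 h3).1)
    rw [Finset.sum_congr rfl h1, Finset.sum_ite_eq']
    by_cases h2 : γ ∈ ((P.R a).d q i l).coeff.support
    · rw [if_pos h2]
    · rw [if_neg h2, Finsupp.notMem_support_iff.1 h2, mul_zero]
  · intro l' _ hne
    by_contra h1
    obtain ⟨δ, _, h2⟩ := exists_of_lin_ne h1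
    rw [Finsupp.single_apply] at h2
    by_cases h3 : ((δ : Γ), (⟨a, q, l'⟩ : P.I)) = ((γ : Γ), (⟨a, q, l⟩ : P.I))
    · have h4 := (Prod.ext_iff.1 h3).2
      have h5 := eq_of_heq (Sigma.mk.inj h4).2
      exact hne (eq_of_heq (Sigma.mk.inj h5).2)
    · rw [if_neg h3] at h2
      exact h2 rfl
  · intro h
    exact absurd (Finset.mem_univ l) h

end orbit

end Cm
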