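import Pool.Agent.Cm.Orbit

/-!
# The cells over one orbit, part 2

* `z_sing`, `c_sing` : the dimensions of the cycles and of the chains of the cells over the orbit `a`;
* `bU_sing` : the number of the piece `a` in degree `dim a + q` is the `ℓ²`-Betti number of the stabilizer in degree `q`.
-/

set_option autoImplicit false
set_option linter.unusedSectionVars false
set_option linter.unusedVariables false

open scoped ComplexConjugate InnerProductSpace
open Filter Topology

namespace Cm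

open Singer
open Npc (Cof Orb vd Mdl vd_map_add mdl_ker vd_mono ind ind_apply ind_mem ind_notMem dl inner_dl_left pr pr_unique
  norm_pr_dl_push norm_pr_dl_smul)

attribute [local instance] bsAct

variable {Γ K : Type*} [Group Γ] [MulAction Γ K] {S : SK Γ K} {P : Rps Γ K} {D : P.I → (P.E →₀ ℤ)} {n : ℕ}

/-- the sign character of the stabilizer -/
def sch (S : SK Γ K) (P : Rps Γ K) (a : P.A) (h : MulAction.stabilizer Γ (P.rep a)) : ℤ := S.sg h (P.rep a)

lemma sch_sq (a : P.A) (h : MulAction.stabilizer Γ (P.rep a)) : sch S P a h * sch S P a h = 1 := S.sg_sq _ _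

lemma sch_mul (a : P.A) (g h : MulAction.stabilizer Γ (P.rep a)) : sch S P a (g * h) = sch S P a g * sch S P a h := by
  show S.sg ((g : Γ) * (h : Γ)) (P.rep a) = _
  rw [S.sg_mul, P.mem_stab h]
  rfl

/-- the cells over the representative -/
def pa (S : SK Γ K) (P : Rps Γ K) (a : P.A) (q : ℕ) (x : MulAction.stabilizer Γ (P.rep a) × (P.R a).ι q) :
    EJ S P (S.dim (P.rep a) + q) := ⟨((x.1 : Γ), ⟨a, q, x.2⟩), rfl⟩

lemma pa_inj (a : P.A) (q : ℕ) : Function.Injective (pa S P a q) := by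
  rintro ⟨g, i⟩ ⟨h, l⟩ hh
  obtain ⟨h1, h2⟩ := Prod.ext_iff.1 (congrArg Subtype.val hh)
  refine Prod.ext (Subtype.ext h1) ?_
  have h3 := eq_of_heq (Sigma.mk.inj h2).2
  exact eq_of_heq (Sigma.mk.inj h3).2

lemma ty_pa (a : P.A) (q : ℕ) (x : MulAction.stabilizer Γ (P.rep a) × (P.R a).ι q) : ty (pa S P a q x) = a := rfl

lemma cbJ_pa (a : P.A) (q : ℕ) (x : MulAction.stabilizer Γ (P.rep a) × (P.R a).ι q) :
    cbJ (pa S P a q x) = P.rep a := P.mem_stab x.1

/-- the cells over the representative, of degree `dim a + q` -/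
lemma exists_pa {a : P.A} {q : ℕ} {e : EJ S P (S.dim (P.rep a) + q)} (h1 : ty e = a) :
    ∃ (g : Γ) (x : MulAction.stabilizer Γ (P.rep a) × (P.R a).ι q), g • pa S P a q x = e := by
  obtain ⟨⟨g, b, r, i⟩, he⟩ := e
  have h3 : b = a := h1
  subst h3
  have h4 : S.dim (P.rep b) + r = S.dim (P.rep b) + q := he
  have h5 : r = q := by omega
  subst h5
  refine ⟨g, (1, i), Subtype.ext (Prod.ext ?_ rfl)⟩
  show g * ((1 : MulAction.stabilizer Γ (P.rep b)) : Γ) = g
  rw [Subgroup.coe_one, mul_one]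

lemma exists_pa' {a : P.A} {q : ℕ} {e : EJ S P (S.dim (P.rep a) + q)} (h1 : ty e = a) (h2 : cbJ e = P.rep a) :
    ∃ x : MulAction.stabilizer Γ (P.rep a) × (P.R a).ι q, pa S P a q x = e := by
  obtain ⟨⟨g, b, r, i⟩, he⟩ := e
  have h3 : b = a := h1
  subst h3
  have h4 : S.dim (P.rep b) + r = S.dim (P.rep b) + q := he
  have h5 : r = q := by omega
  subst h5
  exact ⟨(⟨g, h2⟩, i), rfl⟩

section inc
variable (hG : Good S P D n) (hn : ∀ x, S.dim x < n)

include hG hn in
lemma inc_pa (a : P.A) (q : ℕ) (h h' : MulAction.stabilizer Γ (P.rep a)) (i : (P.R a).ι (q + 1)) (l : (P.R a).ι q) :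
    incJ D (show EJ S P (S.dim (P.rep a) + q + 1) from pa S P a (q + 1) (h, i)) (pa S P a q (h', l)) =
      sch S P a (h⁻¹ * h') * ((P.R a).d q i l).coeff (h⁻¹ * h') := by
  rw [incJ_same hG hn rfl]
  exact top_coeff a q i l (h⁻¹ * h')

include hG hn in
lemma incJ_cb {j : ℕ} {e : EJ S P (j + 1)} {e' : EJ S P j} (h : incJ D e e' ≠ 0) (h1 : ty e' = ty e) :
    cbJ e' = cbJ e := by
  by_contra h2
  have h3 := S.dim_lt _ _ (incJ_le hG hn h) h2
  rw [dim_cbJ, dim_cbJ, h1] at h3
  exact lt_irrefl _ h3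

/-- the boundary over the representative -/
theorem op_pa (a : P.A) (q : ℕ) {f : L2 (EJ S P (S.dim (P.rep a) + q + 1))}
    (hf : f ∈ (grJ hG hn).V {a} (S.dim (P.rep a) + q + 1)) (y : MulAction.stabilizer Γ (P.rep a) × (P.R a).ι q) :
    (kJ S P D (S.dim (P.rep a) + q)).op f (pa S P a q y) = (sch S P a y.1 : ℂ) *
      hat ((P.R a).d q) (twL (sch S P a) (sch_sq a) _ (pull (pa S P a (q + 1)) (pa_inj a (q + 1)) f)) y := by
  classical
  obtain ⟨h', l⟩ := y
  rw [Kern.op_apply, hat_apply, Finset.mul_sum]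
  have h1 : ∀ i : (P.R a).ι (q + 1), (sch S P a h' : ℂ) * ∑ x ∈ ((P.R a).d q i l).coeff.support,
      (((P.R a).d q i l).coeff x : ℂ) * (twL (sch S P a) (sch_sq a) _
        (pull (pa S P a (q + 1)) (pa_inj a (q + 1)) f)) (h' * x⁻¹, i) =
      ∑ x ∈ ((P.R a).d q i l).coeff.support, ((sch S P a x * ((P.R a).d q i l).coeff x : ℤ) : ℂ) *
        f (pa S P a (q + 1) (h' * x⁻¹, i)) := by
    intro i
    rw [Finset.mul_sum]
    refine Finset.sum_congr rfl fun x _ => ?_
    have h2 : sch S P a h' = sch S P a (h' * x⁻¹) * sch S P a x := by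
      rw [← sch_mul, inv_mul_cancel_right]
    have h3 : (sch S P a (h' * x⁻¹) : ℂ) * (sch S P a (h' * x⁻¹) : ℂ) = 1 := sq_one' _ (sch_sq a) _
    rw [twL_apply, pull_apply, h2, Int.cast_mul, Int.cast_mul]
    calc (sch S P a (h' * x⁻¹) : ℂ) * (sch S P a x : ℂ) * ((((P.R a).d q i l).coeff x : ℂ) *
          ((sch S P a (h' * x⁻¹) : ℂ) * f (pa S P a (q + 1) (h' * x⁻¹, i)))) =
        ((sch S P a (h' * x⁻¹) : ℂ) * (sch S P a (h' * x⁻¹) : ℂ)) * ((sch S P a x : ℂ) *
          (((P.R a).d q i l).coeff x : ℂ) * f (pa S P a (q + 1) (h' * x⁻¹, i))) := by ring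
      _ = _ := by rw [h3, one_mul]
  rw [Finset.sum_congr rfl fun i _ => h1 i, Finset.sum_sigma']
  symm
  refine Finset.sum_of_injOn (fun z => pa S P a (q + 1) (h' * z.2⁻¹, z.1)) ?_ ?_ ?_ ?_
  · rintro ⟨i, x⟩ _ ⟨k, y⟩ _ h
    have h2 := pa_inj (S := S) a (q + 1) h
    obtain ⟨h3, h4⟩ := Prod.ext_iff.1 h2
    have h5 : i = k := h4
    subst h5
    have h6 : x = y := inv_injective (mul_left_cancel h3)
    rw [h6]
  · rintro ⟨i, x⟩ hx
    have hx' : x ∈ ((P.R a).d q i l).coeff.support := (Finset.mem_sigma.1 (Finset.mem_coe.1 hx)).2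
    rw [Finset.mem_coe, Kern.mem_cl]
    show incJ D (show EJ S P (S.dim (P.rep a) + q + 1) from pa S P a (q + 1) (h' * x⁻¹, i)) (pa S P a q (h', l)) ≠ 0
    rw [inc_pa hG hn, mul_inv_rev, inv_inv, inv_mul_cancel_right]
    refine mul_ne_zero ?_ (Finsupp.mem_support_iff.1 hx')
    intro h
    have h2 := sch_sq (S := S) a x
    rw [h] at h2
    exact absurd h2 (by norm_num)
  · intro e he hne
    by_cases h2 : ty e = a
    · exfalso
      have h3 : incJ D e (pa S P a q (h', l)) ≠ 0 := (Kern.mem_cl _).1 he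
      have h4 : cbJ e = P.rep a := by
        rw [← incJ_cb hG hn h3 h2.symm]
        exact cbJ_pa a q _
      obtain ⟨⟨h, i⟩, rfl⟩ := exists_pa' (q := q + 1) h2 h4
      apply hne
      have h5 := inc_pa hG hn a q h h' i l
      rw [h5] at h3
      refine ⟨⟨i, h⁻¹ * h'⟩, ?_, ?_⟩
      · rw [Finset.mem_coe, Finset.mem_sigma]
        exact ⟨Finset.mem_univ _, Finsupp.mem_support_iff.2 (right_ne_zero_of_mul h3)⟩
      · show pa S P a (q + 1) (h' * (h⁻¹ * h')⁻¹, i) = pa S P a (q + 1) (h, i)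
        rw [mul_inv_rev, inv_inv, mul_inv_cancel_left]
    · rw [(grJ hG hn).mem_V.1 hf e h2, mul_zero]
  · rintro ⟨i, x⟩ _
    have h2 := inc_pa hG hn a q (h' * x⁻¹) h' i l
    rw [mul_inv_rev, inv_inv, inv_mul_cancel_right] at h2
    show _ = ((incJ D (show EJ S P (S.dim (P.rep a) + q + 1) from pa S P a (q + 1) (h' * x⁻¹, i))
      (pa S P a q (h', l)) : ℤ) : ℂ) * _
    rw [h2]

/-! ### the dimensions -/

variable (S P) in
lemma pa_cov (a : P.A) (q : ℕ) (e : EJ S P (S.dim (P.rep a) + q)) (V : Submodule ℂ (L2 (EJ S P (S.dim (P.rep a) + q))))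
    (hV : ∀ f ∈ V, ∀ e, ty e ≠ a → f e = 0) :
    (∀ f ∈ V, f e = 0) ∨ ∃ y, ∃ γ : Γ, γ • pa S P a q y = e := by
  by_cases h : ty e = a
  · right
    obtain ⟨g, x, hx⟩ := exists_pa h
    exact ⟨x, g, hx⟩
  · left
    exact fun f hf => hV f hf e h

lemma pa_eq (a : P.A) (q : ℕ) (y : MulAction.stabilizer Γ (P.rep a) × (P.R a).ι q)
    (g : MulAction.stabilizer Γ (P.rep a)) : ∃ γ : Γ, γ • pa S P a q y = pa S P a q (g • y) :=
  ⟨g, Subtype.ext (Prod.ext rfl rfl)⟩

lemma pa_rel (a : P.A) (q : ℕ) (y z : MulAction.stabilizer Γ (P.rep a) × (P.R a).ι q) (γ : Γ)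
    (h : γ • pa S P a q y = pa S P a q z) : ∃ g : MulAction.stabilizer Γ (P.rep a), g • y = z := by
  obtain ⟨h1, h2⟩ := Prod.ext_iff.1 (congrArg Subtype.val h)
  have h3 := eq_of_heq (Sigma.mk.inj h2).2
  have h4 : y.2 = z.2 := eq_of_heq (Sigma.mk.inj h3).2
  refine ⟨z.1 * y.1⁻¹, Prod.ext ?_ h4⟩
  show z.1 * y.1⁻¹ * y.1 = z.1
  rw [inv_mul_cancel_right]

/-- the twisted cycles are invariant -/
lemma inv_twZ (a : P.A) (q : ℕ) : Singer.Inv (twV (sch S P a) (sch_sq a) (Zr (P.R a) q)) := by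
  intro g u hu
  rw [mem_twV] at hu ⊢
  have h1 : twL (sch S P a) (sch_sq a) _ (lam g u) = (sch S P a g : ℂ) • lam g (twL (sch S P a) (sch_sq a) _ u) := by
    ext x
    rw [twL_apply, lam_apply, lp.coeFn_smul, Pi.smul_apply, lam_apply, twL_apply, smul_eq_mul, ← mul_assoc]
    have h2 : sch S P a x.1 = sch S P a g * sch S P a (g⁻¹ * x.1) := by
      rw [← sch_mul, mul_inv_cancel_left]
    rw [h2, Int.cast_mul]
  rw [h1]
  exact Submodule.smul_mem _ _ ((P.R a).toRes.inv_Z q g _ hu)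

/-- the complex of the cells over the orbit `a` -/
noncomputable abbrev cxa (a : P.A) : Cx Γ (EJ S P) := (grJ hG hn).C {a} ((grJ hG hn).cv_sing a)

lemma mem_Va {a : P.A} {j : ℕ} {f : L2 (EJ S P j)} : f ∈ (cxa hG hn a).V j ↔ ∀ e, ty e ≠ a → f e = 0 :=
  (grJ hG hn).mem_V

/-- no cells over `a` of degree less than `dim a` -/
lemma V_low {a : P.A} {j : ℕ} (hj : j < S.dim (P.rep a)) : (cxa hG hn a).V j = ⊥ := by
  rw [eq_bot_iff]
  intro f hf
  rw [Submodule.mem_bot]
  ext e
  refine (mem_Va hG hn).1 hf e fun h => ?_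
  have h1 : S.dim (P.rep (ty e)) + e.1.2.2.1 = j := e.2
  rw [h] at h1
  omega

lemma Z_low {a : P.A} {j : ℕ} (hj : j = S.dim (P.rep a)) : (cxa hG hn a).Z j = (cxa hG hn a).V j := by
  cases j with
  | zero => rfl
  | succ j =>
    refine le_antisymm inf_le_left fun f hf => ⟨hf, ?_⟩
    have h1 := (cxa hG hn a).mem j f hf
    rw [V_low hG hn (by omega), Submodule.mem_bot] at h1
    exact h1

/-- the chains over the orbit `a` -/
theorem c_sing (a : P.A) (q : ℕ) : (cxa hG hn a).c (S.dim (P.rep a) + q) = Fintype.card ((P.R a).ι q) := by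
  have h1 : vd Γ ((cxa hG hn a).V (S.dim (P.rep a) + q)) =
      vd (MulAction.stabilizer Γ (P.rep a)) (⊤ : Submodule ℂ (E (MulAction.stabilizer Γ (P.rep a)) ((P.R a).ι q))) := by
    refine vd_eq_loc_on (pa S P a q) (pa_inj a q) ((cxa hG hn a).mdl _).inv ⊤ (fun f _ => ?_) (fun _ _ => trivial)
      (fun e => pa_cov S P a q e _ fun f hf => (mem_Va hG hn).1 hf) (pa_eq a q) (pa_rel a q)
    refine (mem_Va hG hn).2 fun e he => push_apply_of_notMem _ _ _ ?_
    rintro ⟨x, rfl⟩
    exact he rfl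
  show vd Γ ((cxa hG hn a).V (S.dim (P.rep a) + q)) = _
  rw [h1, vd_eq_vdim Singer.inv_top]
  exact Singer.vdim_top

/-- the cycles over the orbit `a` -/
theorem z_sing (a : P.A) (q : ℕ) : (cxa hG hn a).z (S.dim (P.rep a) + q) = zF (P.R a) q := by
  have h1 : vd Γ ((cxa hG hn a).Z (S.dim (P.rep a) + q)) =
      vd (MulAction.stabilizer Γ (P.rep a)) (twV (sch S P a) (sch_sq a) (Zr (P.R a) q)) := by
    have hZV : (cxa hG hn a).Z (S.dim (P.rep a) + q) ≤ (cxa hG hn a).V (S.dim (P.rep a) + q) := by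
      cases q with
      | zero => exact (Z_low hG hn rfl).le
      | succ q => exact inf_le_left
    have hpush : ∀ u : E (MulAction.stabilizer Γ (P.rep a)) ((P.R a).ι q),
        push (pa S P a q) (pa_inj a q) u ∈ (cxa hG hn a).V (S.dim (P.rep a) + q) := by
      intro u
      refine (mem_Va hG hn).2 fun e he => push_apply_of_notMem _ _ _ ?_
      rintro ⟨x, rfl⟩
      exact he rfl
    refine vd_eq_loc_on (pa S P a q) (pa_inj a q) ((cxa hG hn a).mdl_Z _).inv _ ?_ ?_
      (fun e => pa_cov S P a q e _ fun f hf => (mem_Va hG hn).1 (hZV hf)) (pa_eq a q) (pa_rel a q)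
    · intro u hu
      rw [mem_twV] at hu
      cases q with
      | zero => exact (Z_low hG hn (a := a) (j := S.dim (P.rep a)) rfl).ge (hpush u)
      | succ q =>
        refine ⟨hpush u, ?_⟩
        show (grJ hG hn).D {a} (S.dim (P.rep a) + q) (push (pa S P a (q + 1)) (pa_inj a (q + 1)) u) = 0
        ext e'
        by_cases h2 : ty e' = a
        · rw [(grJ hG hn).D_mem _ (show (grJ hG hn).τ e' ∈ ({a} : Set P.A) from h2)]
          by_cases h3 : cbJ e' = P.rep a
          · obtain ⟨y, rfl⟩ := exists_pa' h2 h3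
            have h4 := op_pa hG hn a q (hpush u) y
            rw [pull_push] at h4
            have h5 : hat ((P.R a).d q) (twL (sch S P a) (sch_sq a) _ u) = 0 := hu.2
            rw [h5] at h4
            refine h4.trans ?_
            show _ * (0 : ℂ) = 0
            rw [mul_zero]
          · by_contra h4
            obtain ⟨e, h5, h6⟩ := (grJ hG hn).exists_of_op_ne h4
            have h7 : e ∈ Set.range (pa S P a (q + 1)) := by
              by_contra h8
              exact h6 (push_apply_of_notMem _ _ _ h8)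
            obtain ⟨x, rfl⟩ := h7
            apply h3
            rw [incJ_cb hG hn h5 h2]
            exact cbJ_pa a (q + 1) x
        · exact (grJ hG hn).D_notMem _ h2
    · intro f hf
      rw [mem_twV]
      cases q with
      | zero => exact trivial
      | succ q =>
        refine ⟨trivial, ?_⟩
        show hat ((P.R a).d q) (twL (sch S P a) (sch_sq a) _ (pull (pa S P a (q + 1)) (pa_inj a (q + 1)) f)) = 0
        have hf1 : f ∈ (grJ hG hn).V {a} (S.dim (P.rep a) + q + 1) := hf.1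
        have hf2 : (grJ hG hn).D {a} (S.dim (P.rep a) + q) f = 0 := hf.2
        ext y
        have h4 := op_pa hG hn a q hf1 y
        have h5 : (grJ hG hn).D {a} (S.dim (P.rep a) + q) f (pa S P a q y) = 0 := by
          rw [hf2]
          rfl
        rw [(grJ hG hn).D_mem _ (show (grJ hG hn).τ (pa S P a q y) ∈ ({a} : Set P.A) from rfl)] at h5
        have h6 : (sch S P a y.1 : ℂ) * hat ((P.R a).d q) (twL (sch S P a) (sch_sq a) _
            (pull (pa S P a (q + 1)) (pa_inj a (q + 1)) f)) y = 0 := h4.symm.trans h5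
        have h7 : (sch S P a y.1 : ℂ) ≠ 0 := by
          intro h8
          have h9 := sq_one' (sch S P a) (sch_sq a) y.1
          rw [h8, mul_zero] at h9
          exact zero_ne_one h9
        exact (mul_eq_zero.1 h6).resolve_left h7
  show vd Γ ((cxa hG hn a).Z (S.dim (P.rep a) + q)) = _
  rw [h1, vd_eq_vdim (inv_twZ a q), vdim_twV]
  rfl

/-- **the piece of the orbit `a`** -/
theorem bU_sing (a : P.A) (q : ℕ) :
    (grJ hG hn).bU {a} ((grJ hG hn).cv_sing a) (S.dim (P.rep a) + q) = (P.R a).betti q := by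
  have h1 := z_sing hG hn a q
  have h2 := z_sing hG hn a (q + 1)
  have h3 := c_sing hG hn a (q + 1)
  rw [betti_zF]
  show (cxa hG hn a).z (S.dim (P.rep a) + q) + (cxa hG hn a).z (S.dim (P.rep a) + (q + 1)) -
    (cxa hG hn a).c (S.dim (P.rep a) + (q + 1)) = _
  rw [h1, h2, h3]

/-- the piece of the orbit `a` in degrees less than `dim a` -/
theorem bU_sing_lt (a : P.A) {j : ℕ} (hj : j < S.dim (P.rep a)) :
    (grJ hG hn).bU {a} ((grJ hG hn).cv_sing a) j = 0 := by
  have hz : ∀ i, i < S.dim (P.rep a) → (cxa hG hn a).z i = 0 := by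
    intro i hi
    refine le_antisymm ?_ (Npc.vd_nonneg _)
    have h1 : (cxa hG hn a).Z i ≤ (cxa hG hn a).V i := by
      cases i with
      | zero => exact le_refl _
      | succ i => exact inf_le_left
    rw [V_low hG hn hi] at h1
    exact (vd_mono h1).trans (le_of_eq Npc.vd_bot)
  show (cxa hG hn a).z j + (cxa hG hn a).z (j + 1) - (cxa hG hn a).c (j + 1) = 0
  rw [hz j hj]
  rcases Nat.lt_or_ge (j + 1) (S.dim (P.rep a)) with h | h
  · have h1 : (cxa hG hn a).c (j + 1) = 0 := by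
      show vd Γ ((cxa hG hn a).V (j + 1)) = 0
      rw [V_low hG hn h, Npc.vd_bot]
    rw [hz _ h, h1]
    ring
  · have h1 : j + 1 = S.dim (P.rep a) := by omega
    have h2 : (cxa hG hn a).z (j + 1) = (cxa hG hn a).c (j + 1) := by
      show vd Γ ((cxa hG hn a).Z (j + 1)) = vd Γ ((cxa hG hn a).V (j + 1))
      rw [Z_low hG hn h1]
    rw [h2]
    ring

end inc

end Cm
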