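import Pool.Agent.Cm.Sub
import Pool.Agent.Cm.Es

/-!
# The pieces of a complex which is filtered by the dimension

* `Gr G E A` : a complex of matrices whose cells have types in `A`; the boundary of a cell of type `a` has cells of type `a`
  and of types of smaller dimension;
* `X.C U hU` : the complex of the cells with type in `U`;
* `Gr.b_le_sum` : `b n (all) ≤ ∑ a, b n {a}`; `Gr.b_piece_le` : `b n {a} ≤ b n (all) + ∑ b (n - 1) {b} + ∑ b (n + 1) {b}`, the sums
  over the types of smaller and of larger dimension.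
-/

set_option autoImplicit false
set_option linter.unusedSectionVars false
set_option linter.unusedVariables false

open scoped ComplexConjugate InnerProductSpace
open Filter Topology

namespace Cm

open Singer (L2)
open Npc (Cof Orb vd Equi Mdl Inv vd_map_add mdl_ker vd_mono ind ind_apply ind_mem ind_notMem)

/-- a complex of matrices with types of the cells -/
structure Gr (G : Type*) [Group G] (E : ℕ → Type*) [∀ j, MulAction G (E j)] (A : Type*) where
  k : ∀ j, Kern G (E (j + 1)) (E j)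
  dd : ∀ j (f : L2 (E (j + 2))), (k j).op ((k (j + 1)).op f) = 0
  τ : ∀ {j}, E j → A
  τ_smul : ∀ {j} (g : G) (e : E j), τ (g • e) = τ e
  dm : A → ℕ
  low : ∀ {j} (e : E (j + 1)) (e' : E j), (k j).d e e' ≠ 0 → τ e' = τ e ∨ dm (τ e') < dm (τ e)

/-- convex sets of types -/
def Cv {A : Type*} (dm : A → ℕ) (U : Set A) : Prop :=
  ∀ a ∈ U, ∀ c ∈ U, ∀ b ∉ U, dm c < dm b → dm b < dm a → False

lemma equi_ind {G Y : Type*} [Group G] [MulAction G Y] {s : Set Y} (h : ∀ (g : G) y, g • y ∈ s ↔ y ∈ s) :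
    Equi G (ind s : L2 Y →L[ℂ] L2 Y) := by
  intro g f
  ext y
  by_cases hy : y ∈ s
  · have h1 : g⁻¹ • y ∈ s := (h g⁻¹ y).2 hy
    rw [ind_mem hy, Npc.act_apply, Npc.act_apply, ind_mem h1]
  · have h1 : g⁻¹ • y ∉ s := fun h2 => hy ((h g⁻¹ y).1 h2)
    rw [ind_notMem hy, Npc.act_apply, ind_notMem h1]

namespace Gr
variable {G : Type*} [Group G] {E : ℕ → Type*} [∀ j, MulAction G (E j)] {A : Type*} (X : Gr G E A)

/-- the cells with type in `U` -/
def cs (U : Set A) (j : ℕ) : Set (E j) := {e | X.τ e ∈ U}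

lemma cs_smul (U : Set A) (j : ℕ) (g : G) (e : E j) : g • e ∈ X.cs U j ↔ e ∈ X.cs U j := by
  show X.τ (g • e) ∈ U ↔ X.τ e ∈ U
  rw [X.τ_smul]

/-- the functions on the cells with type in `U` -/
noncomputable def V (U : Set A) (j : ℕ) : Submodule ℂ (L2 (E j)) :=
  LinearMap.ker (ind (X.cs Uᶜ j) : L2 (E j) →ₗ[ℂ] L2 (E j))

lemma mem_V {U : Set A} {j : ℕ} {f : L2 (E j)} : f ∈ X.V U j ↔ ∀ e, X.τ e ∉ U → f e = 0 := by
  constructor
  · intro h e he
    have h1 : ind (X.cs Uᶜ j) f = 0 := h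
    have h2 : e ∈ X.cs Uᶜ j := he
    rw [← ind_mem h2 f, h1]
    rfl
  · intro h
    show ind (X.cs Uᶜ j) f = 0
    ext e
    by_cases he : X.τ e ∈ U
    · have h2 : e ∉ X.cs Uᶜ j := fun h3 => h3 he
      rw [ind_notMem h2]
      rfl
    · have h2 : e ∈ X.cs Uᶜ j := he
      rw [ind_mem h2, h e he]
      rfl

lemma V_mono {U W : Set A} (h : U ⊆ W) (j : ℕ) : X.V U j ≤ X.V W j := fun f hf =>
  X.mem_V.2 fun e he => X.mem_V.1 hf e fun h1 => he (h h1)

/-- the boundary in the cells with type in `U` -/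
noncomputable def D (U : Set A) (j : ℕ) : L2 (E (j + 1)) →L[ℂ] L2 (E j) := (ind (X.cs U j)).comp (X.k j).op

lemma D_mem {U : Set A} {j : ℕ} (f : L2 (E (j + 1))) {e : E j} (he : X.τ e ∈ U) : X.D U j f e = (X.k j).op f e :=
  ind_mem (show e ∈ X.cs U j from he) _

lemma D_notMem {U : Set A} {j : ℕ} (f : L2 (E (j + 1))) {e : E j} (he : X.τ e ∉ U) : X.D U j f e = 0 :=
  ind_notMem (show e ∉ X.cs U j from he) _

lemma exists_of_op_ne {j : ℕ} {f : L2 (E (j + 1))} {e' : E j} (h : (X.k j).op f e' ≠ 0) :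
    ∃ e, (X.k j).d e e' ≠ 0 ∧ f e ≠ 0 := by
  rw [Kern.op_apply] at h
  obtain ⟨e, he, h1⟩ := Finset.exists_ne_zero_of_sum_ne_zero h
  exact ⟨e, (X.k j).mem_cl.1 he, fun h2 => h1 (by rw [h2, mul_zero])⟩

/-- the complex of the cells with type in `U` -/
noncomputable def C (U : Set A) (hU : Cv X.dm U) : Cx G E where
  V := X.V U
  D := X.D U
  mdl j := mdl_ker (equi_ind (X.cs_smul Uᶜ j))
  equi j := (equi_ind (X.cs_smul U j)).comp (X.k j).equi_op
  mem j f hf := X.mem_V.2 fun e he => X.D_notMem f he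
  dd j f hf := by
    ext e''
    by_cases he'' : X.τ e'' ∈ U
    · rw [X.D_mem _ he'']
      have h1 := congrArg (fun u : L2 (E j) => u e'') (X.dd j f)
      have h2 : (X.k j).op (X.D U (j + 1) f) e'' = (X.k j).op ((X.k (j + 1)).op f) e'' := by
        rw [Kern.op_apply, Kern.op_apply]
        refine Finset.sum_congr rfl fun e' he' => ?_
        by_cases h3 : X.τ e' ∈ U
        · rw [X.D_mem _ h3]
        · rw [X.D_notMem _ h3]
          congr 1
          by_contra h4
          obtain ⟨e, h5, h6⟩ := X.exists_of_op_ne (Ne.symm h4)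
          have h7 : X.τ e ∈ U := by
            by_contra h8
            exact h6 (X.mem_V.1 hf e h8)
          rcases X.low _ _ h5 with h8 | h8
          · exact h3 (by rw [h8]; exact h7)
          · rcases X.low _ _ ((X.k j).mem_cl.1 he') with h9 | h9
            · exact h3 (by rw [← h9]; exact he'')
            · exact hU _ h7 _ he'' _ h3 h9 h8
      rw [h2]
      exact h1
    · rw [X.D_notMem _ he'']
      rfl

/-- no cells of type in `B` in the boundaries of the cells with type in `L` -/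
lemma noinc {L B : Set A} (hd : Disjoint L B) (h : ∀ a ∈ L, ∀ b ∈ B, ¬ X.dm b < X.dm a) {j : ℕ} {f : L2 (E (j + 1))}
    (hf : f ∈ X.V L (j + 1)) {e' : E j} (he' : X.τ e' ∈ B) : (X.k j).op f e' = 0 := by
  by_contra h1
  obtain ⟨e, h2, h3⟩ := X.exists_of_op_ne h1
  have h4 : X.τ e ∈ L := by
    by_contra h5
    exact h3 (X.mem_V.1 hf e h5)
  rcases X.low _ _ h2 with h5 | h5
  · exact Set.disjoint_left.1 hd h4 (by rw [← h5]; exact he')
  · exact h _ h4 _ he' h5

/-- the exact sequence of a decomposition -/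
noncomputable def ses {L B U : Set A} (hU : U = L ∪ B) (hd : Disjoint L B) (h : ∀ a ∈ L, ∀ b ∈ B, ¬ X.dm b < X.dm a)
    (hcL : Cv X.dm L) (hcB : Cv X.dm B) (hcU : Cv X.dm U) : Ses (X.C L hcL) (X.C U hcU) (X.C B hcB) where
  p j := ind (X.cs B j)
  equi j := equi_ind (X.cs_smul B j)
  A_iff j f := by
    subst hU
    constructor
    · intro hf
      refine ⟨X.V_mono Set.subset_union_left j hf, ?_⟩
      ext e
      by_cases he : X.τ e ∈ B
      · rw [ind_mem (show e ∈ X.cs B j from he), X.mem_V.1 hf e fun h1 => Set.disjoint_left.1 hd h1 he]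
        rfl
      · rw [ind_notMem (show e ∉ X.cs B j from he)]
        rfl
    · rintro ⟨h1, h2⟩
      refine X.mem_V.2 fun e he => ?_
      by_cases he' : X.τ e ∈ B
      · rw [← ind_mem (show e ∈ X.cs B j from he') f, h2]
        rfl
      · exact X.mem_V.1 h1 e fun h3 => h3.elim he he'
  maps j f hf := X.mem_V.2 fun e he => ind_notMem (show e ∉ X.cs B j from he) f
  surj j f hf := by
    subst hU
    refine ⟨f, X.V_mono Set.subset_union_right j hf, ?_⟩
    ext e
    by_cases he : X.τ e ∈ B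
    · rw [ind_mem (show e ∈ X.cs B j from he)]
    · rw [ind_notMem (show e ∉ X.cs B j from he), X.mem_V.1 hf e he]
  DA j f hf := by
    subst hU
    show X.D L j f = X.D (L ∪ B) j f
    ext e'
    by_cases h1 : X.τ e' ∈ L
    · rw [X.D_mem f h1, X.D_mem f (Or.inl h1)]
    · rw [X.D_notMem f h1]
      by_cases h2 : X.τ e' ∈ B
      · rw [X.D_mem f (Or.inr h2), X.noinc hd h hf h2]
      · rw [X.D_notMem f fun h3 => h3.elim h1 h2]
  DB j f hf := by
    subst hU
    show X.D B j (ind (X.cs B (j + 1)) f) = ind (X.cs B j) (X.D (L ∪ B) j f)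
    ext e'
    by_cases h2 : X.τ e' ∈ B
    · rw [ind_mem (show e' ∈ X.cs B j from h2), X.D_mem _ h2, X.D_mem f (Or.inr h2)]
      have h3 : f - ind (X.cs B (j + 1)) f ∈ X.V L (j + 1) := by
        refine X.mem_V.2 fun e he => ?_
        rw [lp.coeFn_sub, Pi.sub_apply]
        by_cases h4 : X.τ e ∈ B
        · rw [ind_mem (show e ∈ X.cs B (j + 1) from h4), sub_self]
        · rw [ind_notMem (show e ∉ X.cs B (j + 1) from h4), sub_zero]
          exact X.mem_V.1 hf e fun h5 => h5.elim he h4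
      have h4 := X.noinc hd h h3 h2
      rw [map_sub, lp.coeFn_sub, Pi.sub_apply, sub_eq_zero] at h4
      exact h4.symm
    · rw [ind_notMem (show e' ∉ X.cs B j from h2), X.D_notMem _ h2]

/-! ### the numbers -/

variable [∀ j, Cof G (E j)]

/-- the number of the complex of the cells with type in `U` -/
noncomputable def bU (U : Set A) (hU : Cv X.dm U) (n : ℕ) : ℝ := (X.C U hU).b n

lemma bU_nonneg (U : Set A) (hU : Cv X.dm U) (n : ℕ) : 0 ≤ X.bU U hU n := (X.C U hU).b_nonneg n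

lemma bU_congr {U W : Set A} (h : U = W) (hU : Cv X.dm U) (n : ℕ) : X.bU U hU n = X.bU W (h ▸ hU) n := by
  subst h
  rfl

lemma cv_sing (a : A) : Cv X.dm {a} := by
  intro b hb c hc d hd h1 h2
  rw [Set.mem_singleton_iff] at hb hc
  subst hb hc
  exact lt_irrefl _ (h1.trans h2)

lemma cv_lev {q : ℕ} {W : Set A} (hW : ∀ a ∈ W, X.dm a = q) : Cv X.dm W := by
  intro a ha c hc b hb h1 h2
  rw [hW a ha] at h2
  rw [hW c hc] at h1
  exact lt_irrefl _ (h1.trans h2)

/-- the types of dimension in `[p, q)` -/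
def I (p q : ℕ) : Set A := {a | p ≤ X.dm a ∧ X.dm a < q}

lemma cv_I (p q : ℕ) : Cv X.dm (X.I p q) := by
  intro a ha c hc b hb h1 h2
  exact hb ⟨hc.1.trans h1.le, h2.trans ha.2⟩

/-- the empty complex -/
lemma b_empty (hU : Cv X.dm (∅ : Set A)) (n : ℕ) : X.bU ∅ hU n = 0 := by
  have h1 : ∀ j, X.V ∅ j = ⊥ := by
    intro j
    rw [eq_bot_iff]
    intro f hf
    rw [Submodule.mem_bot]
    ext e
    exact X.mem_V.1 hf e (Set.notMem_empty _)
  have h2 : ∀ j, (X.C ∅ hU).z j = 0 := by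
    intro j
    refine le_antisymm ?_ (Npc.vd_nonneg _)
    have h3 : (X.C ∅ hU).Z j ≤ X.V ∅ j := by
      cases j with
      | zero => exact le_refl _
      | succ j => exact inf_le_left
    rw [h1] at h3
    exact (vd_mono h3).trans (le_of_eq Npc.vd_bot)
  have h3 : (X.C ∅ hU).c (n + 1) = 0 := by
    show vd G (X.V ∅ (n + 1)) = 0
    rw [h1, Npc.vd_bot]
  show (X.C ∅ hU).z n + (X.C ∅ hU).z (n + 1) - (X.C ∅ hU).c (n + 1) = 0
  rw [h2, h2, h3]
  ring

/-- types of the same dimension -/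
theorem b_lev {q : ℕ} (n : ℕ) (W : Finset A) (hW : ∀ a ∈ W, X.dm a = q) :
    X.bU (W : Set A) (X.cv_lev (q := q) fun a ha => hW a ha) n = ∑ a ∈ W, X.bU {a} (X.cv_sing a) n := by
  classical
  induction W using Finset.induction_on with
  | empty =>
    rw [Finset.sum_empty]
    refine (X.bU_congr (W := ∅) Finset.coe_empty _ n).trans (X.b_empty _ n)
  | insert a W ha ih =>
    have hW' : ∀ b ∈ W, X.dm b = q := fun b hb => hW b (Finset.mem_insert_of_mem hb)
    have ha' : X.dm a = q := hW a (Finset.mem_insert_self a W)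
    rw [Finset.sum_insert ha, ← ih hW']
    have hU : ((insert a W : Finset A) : Set A) = (W : Set A) ∪ {a} := by
      rw [Finset.coe_insert, Set.insert_eq, Set.union_comm]
    have hd : Disjoint (W : Set A) {a} := by
      rw [Set.disjoint_singleton_right]
      exact ha
    have hlow : ∀ b ∈ (W : Set A), ∀ c ∈ ({a} : Set A), ¬ X.dm c < X.dm b := by
      intro b hb c hc
      rw [Set.mem_singleton_iff] at hc
      rw [hc, ha', hW' b hb]
      exact lt_irrefl _
    have hlow' : ∀ b ∈ ({a} : Set A), ∀ c ∈ (W : Set A), ¬ X.dm c < X.dm b := by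
      intro b hb c hc
      rw [Set.mem_singleton_iff] at hb
      rw [hb, ha', hW' c hc]
      exact lt_irrefl _
    have hs := X.ses hU hd hlow (X.cv_lev (q := q) fun b hb => hW' b hb) (X.cv_sing a)
      (X.cv_lev (q := q) fun b hb => hW b hb)
    have hsp : ∀ j, hs.p j = hs.p j := fun j => rfl
    have h1 := (X.ses hU hd hlow (X.cv_lev (q := q) fun b hb => hW' b hb) (X.cv_sing a)
      (X.cv_lev (q := q) fun b hb => hW b hb)).b_split (fun j f hf => ?_) (fun j f hf hf2 => ?_) n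
    · rw [add_comm]
      exact h1
    · refine ⟨X.V_mono (by rw [hU]; exact Set.subset_union_right) j hf, ?_⟩
      show ind (X.cs {a} j) f = f
      ext e
      by_cases he : X.τ e ∈ ({a} : Set A)
      · rw [ind_mem (show e ∈ X.cs {a} j from he)]
      · rw [ind_notMem (show e ∉ X.cs {a} j from he), X.mem_V.1 hf e he]
    · show X.D _ j f = 0
      have hf2' : X.D {a} j f = 0 := hf2
      ext e'
      by_cases h2 : X.τ e' ∈ ((insert a W : Finset A) : Set A)
      · rw [X.D_mem f h2]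
        rw [hU] at h2
        rcases h2 with h3 | h3
        · rw [X.noinc hd.symm hlow' hf h3]
          rfl
        · rw [← X.D_mem f h3, hf2']
      · rw [X.D_notMem f h2]
        rfl

variable [Fintype A]

open Classical in
/-- the types of dimension `q` -/
noncomputable def lev (q : ℕ) : Finset A := Finset.univ.filter fun a => X.dm a = q

lemma mem_lev {q : ℕ} {a : A} : a ∈ X.lev q ↔ X.dm a = q := by
  unfold lev
  rw [Finset.mem_filter]
  exact ⟨fun h => h.2, fun h => ⟨Finset.mem_univ _, h⟩⟩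

open Classical in
/-- the complex of the types of dimension in `[p, q)` -/
theorem b_I (n p q : ℕ) : X.bU (X.I p q) (X.cv_I p q) n ≤
    ∑ a, if p ≤ X.dm a ∧ X.dm a < q then X.bU {a} (X.cv_sing a) n else 0 := by
  induction q with
  | zero =>
    have h1 : X.I p 0 = ∅ := by
      ext a
      constructor
      · rintro ⟨_, h⟩
        exact absurd h (Nat.not_lt_zero _)
      · intro h
        exact absurd h (Set.notMem_empty _)
    rw [X.bU_congr h1, X.b_empty]
    refine Finset.sum_nonneg fun a _ => ?_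
    split_ifs
    · exact X.bU_nonneg _ _ _
    · exact le_refl _
  | succ q ih =>
    rcases Nat.lt_or_ge q p with hpq | hpq
    · have h1 : X.I p (q + 1) = ∅ := by
        ext a
        constructor
        · rintro ⟨h1, h2⟩
          exact absurd (h1.trans (Nat.lt_succ_iff.1 h2)) (not_le.2 hpq)
        · intro h
          exact absurd h (Set.notMem_empty _)
      rw [X.bU_congr h1, X.b_empty]
      refine Finset.sum_nonneg fun a _ => ?_
      split_ifs
      · exact X.bU_nonneg _ _ _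
      · exact le_refl _
    · have hU : X.I p (q + 1) = X.I p q ∪ (X.lev q : Set A) := by
        ext a
        rw [Set.mem_union, Finset.mem_coe, X.mem_lev]
        constructor
        · rintro ⟨h1, h2⟩
          rcases Nat.lt_or_ge (X.dm a) q with h3 | h3
          · exact Or.inl ⟨h1, h3⟩
          · exact Or.inr (le_antisymm (Nat.lt_succ_iff.1 h2) h3)
        · rintro (⟨h1, h2⟩ | h1)
          · exact ⟨h1, h2.trans (Nat.lt_succ_self q)⟩
          · exact ⟨h1 ▸ hpq, h1 ▸ Nat.lt_succ_self q⟩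
      have hd : Disjoint (X.I p q) (X.lev q : Set A) := by
        rw [Set.disjoint_left]
        rintro a ⟨_, h1⟩ h2
        rw [Finset.mem_coe, X.mem_lev] at h2
        exact absurd h2 h1.ne
      have hlow : ∀ a ∈ X.I p q, ∀ b ∈ (X.lev q : Set A), ¬ X.dm b < X.dm a := by
        rintro a ⟨_, h1⟩ b h2 h3
        rw [Finset.mem_coe, X.mem_lev] at h2
        rw [h2] at h3
        exact lt_irrefl _ (h1.trans h3)
      have h1 := (X.ses hU hd hlow (X.cv_I p q) (X.cv_lev (q := q) fun a ha => X.mem_lev.1 ha)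
        (X.cv_I p (q + 1))).b_le n
      have h2 := X.b_lev n (X.lev q) fun a ha => X.mem_lev.1 ha
      have h3 : ∑ a ∈ X.lev q, X.bU {a} (X.cv_sing a) n = ∑ a, if X.dm a = q then X.bU {a} (X.cv_sing a) n else 0 := by
        unfold lev
        rw [Finset.sum_filter]
      have h4 : X.bU (X.I p (q + 1)) (X.cv_I p (q + 1)) n ≤ X.bU (X.I p q) (X.cv_I p q) n +
          X.bU (X.lev q : Set A) (X.cv_lev (q := q) fun a ha => X.mem_lev.1 ha) n := h1
      refine h4.trans ?_
      rw [h2, h3]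
      refine (add_le_add_left ih _).trans ?_
      rw [← Finset.sum_add_distrib]
      refine le_of_eq (Finset.sum_congr rfl fun a _ => ?_)
      by_cases h5 : X.dm a = q
      · rw [if_pos h5, if_neg (by omega), if_pos (by omega), zero_add]
      · rw [if_neg h5, add_zero]
        by_cases h6 : p ≤ X.dm a ∧ X.dm a < q
        · rw [if_pos h6, if_pos (by omega)]
        · rw [if_neg h6, if_neg (by omega)]

lemma exists_dm : ∃ N, ∀ a, X.dm a < N :=
  ⟨(∑ a, X.dm a) + 1, fun a => Nat.lt_succ_of_le (Finset.single_le_sum (f := X.dm) (fun _ _ => Nat.zero_le _)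
    (Finset.mem_univ a))⟩

lemma cv_univ : Cv X.dm Set.univ := fun _ _ _ _ b hb _ _ => hb trivial

/-- **the number of the whole complex** -/
theorem b_le_sum (n : ℕ) : X.bU Set.univ X.cv_univ n ≤ ∑ a, X.bU {a} (X.cv_sing a) n := by
  classical
  obtain ⟨N, hN⟩ := X.exists_dm
  have h1 : X.I 0 N = Set.univ := Set.eq_univ_of_forall fun a => ⟨Nat.zero_le _, hN a⟩
  have h2 := X.b_I n 0 N
  rw [X.bU_congr h1] at h2
  refine h2.trans (le_of_eq (Finset.sum_congr rfl fun a _ => ?_))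
  rw [if_pos ⟨Nat.zero_le _, hN a⟩]

open Classical in
lemma b_piece_aux (a₀ : A) {N : ℕ} (hN : ∀ a, X.dm a < N) (n : ℕ) : X.bU {a₀} (X.cv_sing a₀) n ≤
    X.bU (X.I (X.dm a₀) N) (X.cv_I _ _) n + ∑ a, if X.dm a₀ < X.dm a then X.bU {a} (X.cv_sing a) (n + 1) else 0 := by
  set p := X.dm a₀ with hp
  have hU : X.I p N = (X.lev p : Set A) ∪ X.I (p + 1) N := by
    ext a
    rw [Set.mem_union, Finset.mem_coe, X.mem_lev]
    constructor
    · rintro ⟨h1, h2⟩
      rcases Nat.lt_or_ge p (X.dm a) with h3 | h3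
      · exact Or.inr ⟨h3, h2⟩
      · exact Or.inl (le_antisymm h3 h1)
    · rintro (h1 | ⟨h1, h2⟩)
      · exact ⟨h1.ge, hN a⟩
      · exact ⟨Nat.le_of_succ_le h1, h2⟩
  have hd : Disjoint (X.lev p : Set A) (X.I (p + 1) N) := by
    rw [Set.disjoint_left]
    rintro a h1 ⟨h2, _⟩
    rw [Finset.mem_coe, X.mem_lev] at h1
    omega
  have hlow : ∀ a ∈ (X.lev p : Set A), ∀ b ∈ X.I (p + 1) N, ¬ X.dm b < X.dm a := by
    rintro a h1 b ⟨h2, _⟩ h3
    rw [Finset.mem_coe, X.mem_lev] at h1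
    omega
  have h1 : X.bU (X.lev p : Set A) (X.cv_lev (q := p) fun a ha => X.mem_lev.1 ha) n ≤
      X.bU (X.I p N) (X.cv_I p N) n + X.bU (X.I (p + 1) N) (X.cv_I (p + 1) N) (n + 1) :=
    (X.ses hU hd hlow (X.cv_lev (q := p) fun a ha => X.mem_lev.1 ha) (X.cv_I (p + 1) N) (X.cv_I p N)).b_sub n
  rw [X.b_lev n (X.lev p) fun a ha => X.mem_lev.1 ha] at h1
  have h2 : X.bU {a₀} (X.cv_sing a₀) n ≤ ∑ a ∈ X.lev p, X.bU {a} (X.cv_sing a) n :=
    Finset.single_le_sum (f := fun a => X.bU {a} (X.cv_sing a) n) (fun a _ => X.bU_nonneg _ _ _) (X.mem_lev.2 hp.symm)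
  have h3 := X.b_I (n + 1) (p + 1) N
  have h4 : (∑ a, if p + 1 ≤ X.dm a ∧ X.dm a < N then X.bU {a} (X.cv_sing a) (n + 1) else 0) =
      ∑ a, if p < X.dm a then X.bU {a} (X.cv_sing a) (n + 1) else 0 := by
    refine Finset.sum_congr rfl fun a _ => ?_
    by_cases h5 : p < X.dm a
    · rw [if_pos h5, if_pos ⟨h5, hN a⟩]
    · rw [if_neg h5, if_neg fun h6 => h5 h6.1]
  rw [h4] at h3
  linarith

lemma b_top_ses {N : ℕ} (hN : ∀ a, X.dm a < N) (p : ℕ) :
    Nonempty (Ses (X.C (X.I 0 p) (X.cv_I 0 p)) (X.C Set.univ X.cv_univ) (X.C (X.I p N) (X.cv_I p N))) := by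
  refine ⟨X.ses ?_ ?_ ?_ _ _ _⟩
  · ext a
    rw [Set.mem_union]
    constructor
    · intro _
      rcases Nat.lt_or_ge (X.dm a) p with h3 | h3
      · exact Or.inl ⟨Nat.zero_le _, h3⟩
      · exact Or.inr ⟨h3, hN a⟩
    · intro _
      trivial
  · rw [Set.disjoint_left]
    rintro a ⟨_, h1⟩ ⟨h2, _⟩
    omega
  · rintro a ⟨_, h1⟩ b ⟨h2, _⟩ h3
    omega

open Classical in
/-- **the number of a piece**, degree zero -/
theorem b_piece_zero (a₀ : A) : X.bU {a₀} (X.cv_sing a₀) 0 ≤ X.bU Set.univ X.cv_univ 0 +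
    ∑ a, if X.dm a₀ < X.dm a then X.bU {a} (X.cv_sing a) 1 else 0 := by
  obtain ⟨N, hN⟩ := X.exists_dm
  obtain ⟨S⟩ := X.b_top_ses hN (X.dm a₀)
  have h1 := X.b_piece_aux a₀ hN 0
  have h2 : X.bU (X.I (X.dm a₀) N) (X.cv_I _ _) 0 ≤ X.bU Set.univ X.cv_univ 0 := S.b_quot_zero
  linarith

open Classical in
/-- **the number of a piece**, positive degrees -/
theorem b_piece_succ (a₀ : A) (n : ℕ) : X.bU {a₀} (X.cv_sing a₀) (n + 1) ≤ X.bU Set.univ X.cv_univ (n + 1) +
    (∑ a, if X.dm a < X.dm a₀ then X.bU {a} (X.cv_sing a) n else 0) +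
    ∑ a, if X.dm a₀ < X.dm a then X.bU {a} (X.cv_sing a) (n + 2) else 0 := by
  obtain ⟨N, hN⟩ := X.exists_dm
  obtain ⟨S⟩ := X.b_top_ses hN (X.dm a₀)
  have h1 := X.b_piece_aux a₀ hN (n + 1)
  have h2 : X.bU (X.I (X.dm a₀) N) (X.cv_I _ _) (n + 1) ≤ X.bU Set.univ X.cv_univ (n + 1) +
      X.bU (X.I 0 (X.dm a₀)) (X.cv_I _ _) n := S.b_quot n
  have h3 := X.b_I n 0 (X.dm a₀)
  have h4 : (∑ a, if 0 ≤ X.dm a ∧ X.dm a < X.dm a₀ then X.bU {a} (X.cv_sing a) n else 0) =
      ∑ a, if X.dm a < X.dm a₀ then X.bU {a} (X.cv_sing a) n else 0 := by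
    refine Finset.sum_congr rfl fun a _ => ?_
    by_cases h5 : X.dm a < X.dm a₀
    · rw [if_pos h5, if_pos ⟨Nat.zero_le _, h5⟩]
    · rw [if_neg h5, if_neg fun h6 => h5 h6.2]
  rw [h4] at h3
  linarith

end Gr

end Cm
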