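import Pool.Agent.Cm.BetEx
import Pool.Agent.Cm.CD

/-!
# Proper cocompact actions on locally finite cube complexes

* `CubicalAction.of_proper` : proper actions with finitely many orbits of vertices are cubical actions;
* `betti_sphere` : the `ℓ²`-Betti numbers vanish outside of the middle degree if the links are flag homology spheres.
-/

set_option autoImplicit false

open scoped Pointwise

namespace CubeComplex

open Singer Cm

/-- **proper cocompact actions on locally finite cube complexes are cubical actions** -/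
theorem CubicalAction.of_proper {Γ X : Type} [Group Γ] [MulAction Γ X] {M : SimpleGraph X} (median : IsMedian M)
    (fin : ∀ x, (M.neighborSet x).Finite) (act : ∀ (g : Γ) (x y : X), M.Adj x y → M.Adj (g • x) (g • y))
    (proper : ∀ x : X, Finite (MulAction.stabilizer Γ x)) {F : Set X} (hF : F.Finite)
    (vert : ∀ x, ∃ f ∈ F, ∃ g : Γ, g • f = x) : CubicalAction Γ M where
  median := median
  act := act
  cocompact := by
    refine ⟨⋃ x ∈ F, {D | D ⊆ bl M x (M.neighborSet x).ncard},
      hF.biUnion fun x _ => (bl_finite fin x _).finite_subsets, fun n C hC => ?_⟩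
    obtain ⟨x, hx⟩ : C.Nonempty := by
      obtain ⟨f, -, rfl, -⟩ := hC
      exact ⟨f fun _ => false, _, rfl⟩
    obtain ⟨y, hy, g, rfl⟩ := vert x
    refine ⟨g⁻¹ • C, Set.mem_iUnion₂.2 ⟨y, hy, cube_sub_bl fin (smul_isCube act g⁻¹ hC) ?_⟩, g, smul_inv_smul _ _⟩
    rw [Set.mem_inv_smul_set_iff]
    exact hx
  fin n C hC := by
    classical
    obtain ⟨x, hx⟩ : C.Nonempty := by
      obtain ⟨f, -, rfl, -⟩ := hC
      exact ⟨f fun _ => false, _, rfl⟩
    have hfin : C.Finite := by
      obtain ⟨f, -, rfl, -⟩ := hC
      exact Set.finite_range f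
    have : Finite C := hfin
    have hp : Finite (MulAction.stabilizer Γ x) := proper x
    let c : X → Γ := fun y => if h : ∃ g : Γ, g • x = y then h.choose else 1
    have hc : ∀ g : Γ, c (g • x) • x = g • x := by
      intro g
      have h : ∃ g' : Γ, g' • x = g • x := ⟨g, rfl⟩
      show (if h : ∃ g' : Γ, g' • x = g • x then h.choose else 1) • x = g • x
      rw [dif_pos h]
      exact h.choose_spec
    have hf : Finite (MulAction.stabilizer Γ C) := by
      refine Finite.of_injective (fun g : MulAction.stabilizer Γ C =>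
        ((⟨(g : Γ) • x, ?_⟩ : C), (⟨(c ((g : Γ) • x))⁻¹ * (g : Γ), ?_⟩ : MulAction.stabilizer Γ x))) ?_
      · have h1 : (g : Γ) • C = C := g.2
        have h2 : (g : Γ) • x ∈ (g : Γ) • C := Set.smul_mem_smul_set hx
        rwa [h1] at h2
      · rw [MulAction.mem_stabilizer_iff, mul_smul, inv_smul_eq_iff]
        exact (hc _).symm
      · intro g h hgh
        have h1 : (g : Γ) • x = (h : Γ) • x := congrArg Subtype.val (Prod.ext_iff.1 hgh).1
        have h2 : (c ((g : Γ) • x))⁻¹ * (g : Γ) = (c ((h : Γ) • x))⁻¹ * (h : Γ) :=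
          congrArg Subtype.val (Prod.ext_iff.1 hgh).2
        rw [h1] at h2
        exact Subtype.ext (mul_left_cancel h2)
    exact FinG.nonempty_finRes _

end CubeComplex

namespace Cm

open Singer CubeComplex Cm.B

/-- the `ℓ²`-Betti numbers of the groups which act properly and cocompactly on cubical homology manifolds -/
theorem betti_sphere {n : ℕ} {Γ X : Type} [Group Γ] [MulAction Γ X] {M : SimpleGraph X} (median : IsMedian M)
    (act : ∀ (g : Γ) (x y : X), M.Adj x y → M.Adj (g • x) (g • y))
    (proper : ∀ x : X, Finite (MulAction.stabilizer Γ x)) {F : Set X} (hF : F.Finite)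
    (vert : ∀ x, ∃ f ∈ F, ∃ g : Γ, g • f = x) (sphere : ∀ x, SingerCube.HSphere n (link M x))
    (R : FinRes Γ) {i : ℕ} (hi : 2 * i ≠ n) : R.betti i = 0 := by
  classical
  have hA : CubicalAction Γ M := CubicalAction.of_proper median (fun x => CD.finite_of_hsphere (sphere x)) act proper hF
    vert
  have : Fintype F := hF.fintype
  let e : F ≃ Fin (Fintype.card F) := Fintype.equivFin F
  have h := bet_proper_sphere hA (i := i) (fun j => ((e.symm j : F) : X)) (fun v => by
    obtain ⟨f, hf, g, hg⟩ := vert v
    refine ⟨e ⟨f, hf⟩, g, ?_⟩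
    rw [Equiv.symm_apply_apply]
    exact hg) (fun j => proper _) fun j => ⟨n, hi, sphere _⟩
  exact le_antisymm (h.betti_le R) (R.betti_nonneg i)

end Cm
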