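import Pool.Agent.Cm.Wall

/-!
# The Wall construction, part 2: chains with coefficients

* `Good S P D n` : `D` is a boundary operator on the cells over the cells of `K` of dimension `< n`;
* `Cf S M` : coefficients over a locally closed set `O` of cells of `K`;
* `qi` : the projection to the chains of `K` is a surjective quasi-isomorphism, for all coefficients in torsion-free groups.
-/

set_option autoImplicit false
set_option linter.unusedSectionVars false
set_option linter.unusedVariables false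

open scoped Matrix

namespace Cm

open Singer

variable {Γ K : Type*} [Group Γ] [MulAction Γ K]

/-- `D` is a boundary operator on the cells over the cells of `K` of dimension `< n` -/
structure Good (S : SK Γ K) (P : Rps Γ K) (D : P.I → (P.E →₀ ℤ)) (n : ℕ) : Prop where
  low : ∀ i : P.I, S.dim (P.rep i.1) < n → ∀ e, (D i - P.top S i) e ≠ 0 →
    S.le (P.cb e) (P.rep i.1) ∧ P.cb e ≠ P.rep i.1
  deg : ∀ i : P.I, S.dim (P.rep i.1) < n → ∀ e, D i e ≠ 0 → P.deg S e.2 + 1 = P.deg S i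
  dd : ∀ i : P.I, S.dim (P.rep i.1) < n → lin (P.ext D) (D i) = 0
  pi : ∀ i : P.I, S.dim (P.rep i.1) < n → lin (P.pr S) (D i) = lin S.bd (P.pr0 i)

/-- coefficients over a locally closed set of cells -/
structure Cf (S : SK Γ K) (M : Type*) [AddCommGroup M] where
  O : Set K
  V : K → AddSubgroup M
  mono : ∀ x y, x ∈ O → y ∈ O → S.le y x → V x ≤ V y
  lc : ∀ x y z, x ∈ O → z ∈ O → S.le z y → S.le y x → y ∈ O

section top
variable {S : SK Γ K} {P : Rps Γ K} {M : Type*} [AddCommGroup M]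

lemma top_supp {i : P.I} {e : P.E} (h : P.top S i e ≠ 0) :
    e.1 ∈ MulAction.stabilizer Γ (P.rep i.1) ∧ e.2.1 = i.1 ∧ e.2.2.1 + 1 = i.2.1 := by
  classical
  obtain ⟨a, q, i⟩ := i
  cases q with
  | zero => exact absurd rfl h
  | succ q =>
    unfold Rps.top at h
    rw [Finsupp.finsetSum_apply] at h
    obtain ⟨l, _, h1⟩ := Finset.exists_ne_zero_of_sum_ne_zero h
    obtain ⟨γ, _, h2⟩ := exists_of_lin_ne h1
    rw [Finsupp.single_apply] at h2
    by_cases h3 : ((γ : Γ), (⟨a, q, l⟩ : P.I)) = e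
    · subst h3
      exact ⟨γ.2, rfl, rfl⟩
    · rw [if_neg h3] at h2
      exact absurd rfl h2

lemma top_cb {i : P.I} {e : P.E} (h : P.top S i e ≠ 0) : P.cb e = P.rep i.1 := by
  obtain ⟨h1, h2, _⟩ := top_supp h
  unfold Rps.cb
  rw [h2]
  exact h1

lemma ext_top_supp {e : P.E} {a : P.A} {q : ℕ} {x : Γ × (P.R a).ι q} (h : P.ext (P.top S) e (P.J a q x) ≠ 0) :
    ∃ y, P.J a (q + 1) y = e := by
  rw [P.ext_apply] at h
  obtain ⟨_, h1, h2⟩ := top_supp h
  obtain ⟨g, b, r, i⟩ := e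
  have h3 : a = b := h1
  subst h3
  have h4 : q + 1 = r := h2
  subst h4
  exact ⟨(g, i), rfl⟩

/-- the boundary of the resolutions, over an orbit -/
lemma top_part (f : P.E →₀ M) (a : P.A) (q : ℕ) (x : Γ × (P.R a).ι q) :
    lin (P.ext (P.top S)) f (P.J a q x) = S.sg x.1 (P.rep a) • lin (mxI ((P.R a).d q)) (P.part S a (q + 1) f) x := by
  have h1 : lin (P.ext (P.top S)) (f - lin (P.twJ S a (q + 1)) (P.part S a (q + 1) f)) (P.J a q x) = 0 := by
    by_contra h
    obtain ⟨e, he, h2⟩ := exists_of_lin_ne h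
    obtain ⟨y, rfl⟩ := ext_top_supp h2
    apply he
    rw [Finsupp.sub_apply, P.lin_twJ_part, sub_self]
  rw [map_sub, Finsupp.sub_apply, sub_eq_zero, P.lin_top_twJ, P.lin_twJ_self] at h1
  exact h1

/-- the projection, over an orbit -/
lemma pr_part (f : P.E →₀ M) (a : P.A) (k : Γ ⧸ MulAction.stabilizer Γ (P.rep a)) :
    lin (P.pr S) f (P.qk a k) = lin (amI (MulAction.stabilizer Γ (P.rep a)) (P.R a).w) (P.part S a 0 f) k := by
  have h1 : lin (P.pr S) (f - lin (P.twJ S a 0) (P.part S a 0 f)) (P.qk a k) = 0 := by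
    by_contra h
    obtain ⟨e, he, h2⟩ := exists_of_lin_ne h
    obtain ⟨h3, h4⟩ := P.pr_ne S h2
    obtain ⟨g, b, r, i⟩ := e
    have h4' : r = 0 := h4
    subst h4'
    obtain ⟨g', rfl⟩ := QuotientGroup.mk_surjective k
    have h3' : g • P.rep b = g' • P.rep a := h3
    have h5 : b = a := by
      refine P.uniq b a (g'⁻¹ * g) ?_
      rw [mul_smul, h3', inv_smul_smul]
    subst h5
    apply he
    have h6 := P.lin_twJ_part S b 0 f (g, i)
    rw [Finsupp.sub_apply]
    exact sub_eq_zero.2 h6.symm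
  rw [map_sub, Finsupp.sub_apply, sub_eq_zero, P.lin_pr_twJ, Finsupp.mapDomain_apply (P.qk_inj a)] at h1
  exact h1

open Classical in
lemma sum_twJ (s : Finset P.A) (r : ℕ) (u : ∀ a, (Γ × (P.R a).ι r →₀ M)) (a : P.A) (x : Γ × (P.R a).ι r) :
    (∑ b ∈ s, lin (P.twJ S b r) (u b)) (P.J a r x) = if a ∈ s then S.sg x.1 (P.rep a) • u a x else 0 := by
  rw [Finsupp.finsetSum_apply]
  split_ifs with h
  · rw [Finset.sum_eq_single_of_mem a h, P.lin_twJ_self]
    intro b _ hb
    refine P.lin_twJ_ne S b r (u b) fun y hy => hb (P.J_eq hy).1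
  · refine Finset.sum_eq_zero fun b hb => P.lin_twJ_ne S b r (u b) fun y hy => h ?_
    rw [← (P.J_eq hy).1]
    exact hb

lemma sum_twJ_supp {s : Finset P.A} {r : ℕ} {u : ∀ a, (Γ × (P.R a).ι r →₀ M)} {e : P.E}
    (h : (∑ b ∈ s, lin (P.twJ S b r) (u b)) e ≠ 0) : ∃ a ∈ s, ∃ x, P.J a r x = e ∧ u a x ≠ 0 := by
  classical
  have h1 := h
  rw [Finsupp.finsetSum_apply] at h1
  obtain ⟨a, ha, h2⟩ := Finset.exists_ne_zero_of_sum_ne_zero h1
  obtain ⟨x, rfl⟩ := P.lin_twJ_supp S a r (u a) h2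
  refine ⟨a, ha, x, rfl, fun h3 => h2 ?_⟩
  rw [P.lin_twJ_self, h3, smul_zero]

end top

section good
variable {S : SK Γ K} {P : Rps Γ K} {D : P.I → (P.E →₀ ℤ)} {n : ℕ} (hG : Good S P D n)
variable {M : Type*} [AddCommGroup M]

lemma Good.mono {m : ℕ} (hG : Good S P D n) (h : m ≤ n) : Good S P D m :=
  ⟨fun i hi => hG.low i (hi.trans_le h), fun i hi => hG.deg i (hi.trans_le h), fun i hi => hG.dd i (hi.trans_le h),
    fun i hi => hG.pi i (hi.trans_le h)⟩

lemma dim_cb (e : P.E) : S.dim (P.cb e) = S.dim (P.rep e.2.1) := S.dim_smul _ _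

include hG

lemma Good.lowE {e e' : P.E} (he : S.dim (P.cb e) < n) (h : P.ext D e e' - P.ext (P.top S) e e' ≠ 0) :
    S.le (P.cb e') (P.cb e) ∧ P.cb e' ≠ P.cb e := by
  rw [dim_cb] at he
  rw [P.ext_apply, P.ext_apply, ← Finsupp.sub_apply] at h
  obtain ⟨h1, h2⟩ := hG.low e.2 he _ h
  have h3 : P.cb e' = e.1 • P.cb (e.1⁻¹ * e'.1, e'.2) := by
    unfold Rps.cb
    rw [← mul_smul, mul_inv_cancel_left]
  rw [h3]
  exact ⟨S.le_smul _ _ _ h1, fun h4 => h2 (MulAction.injective e.1 h4)⟩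

lemma Good.leE {e e' : P.E} (he : S.dim (P.cb e) < n) (h : P.ext D e e' ≠ 0) : S.le (P.cb e') (P.cb e) := by
  by_cases h1 : P.ext D e e' - P.ext (P.top S) e e' = 0
  · rw [sub_eq_zero] at h1
    rw [h1, P.ext_apply] at h
    have h2 := top_cb h
    have h3 : P.cb e' = e.1 • P.cb (e.1⁻¹ * e'.1, e'.2) := by
      unfold Rps.cb
      rw [← mul_smul, mul_inv_cancel_left]
    rw [h3, h2]
    exact S.le_refl _
  · exact (hG.lowE he h1).1

lemma Good.degE {e e' : P.E} (he : S.dim (P.cb e) < n) (h : P.ext D e e' ≠ 0) : P.deg S e'.2 + 1 = P.deg S e.2 := by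
  rw [dim_cb] at he
  rw [P.ext_apply] at h
  exact hG.deg e.2 he (e.1⁻¹ * e'.1, e'.2) h

lemma Good.ddE (f : P.E →₀ M) (hf : ∀ e, f e ≠ 0 → S.dim (P.cb e) < n) : lin (P.ext D) (lin (P.ext D) f) = 0 := by
  rw [lin_lin]
  refine lin_zero_of fun e he => ?_
  have h1 := hf e (Finsupp.mem_support_iff.1 he)
  rw [dim_cb] at h1
  show lin (P.ext D) ((D e.2).mapDomain (P.sm e.1)) = 0
  rw [P.lin_ext_sm, hG.dd _ h1, Finsupp.mapDomain_zero]

lemma Good.piE (f : P.E →₀ M) (hf : ∀ e, f e ≠ 0 → S.dim (P.cb e) < n) :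
    lin (P.pr S) (lin (P.ext D) f) = lin S.bd (lin (P.pr S) f) := by
  rw [lin_lin, lin_lin]
  refine lin_congr fun e he => ?_
  have h1 := hf e (Finsupp.mem_support_iff.1 he)
  rw [dim_cb] at h1
  show lin (P.pr S) ((D e.2).mapDomain (P.sm e.1)) = lin S.bd (lin (S.tr e.1) (P.pr0 e.2))
  rw [P.lin_pr_sm, hG.pi _ h1, S.bd_tr]

end good

section coef
variable {S : SK Γ K} {P : Rps Γ K} {D : P.I → (P.E →₀ ℤ)} {n : ℕ}
variable {M : Type*} [AddCommGroup M] (C : Cf S M)

/-- the chains with the given coefficients -/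
def OnE (P : Rps Γ K) (f : P.E →₀ M) : Prop := ∀ e, f e ≠ 0 → P.cb e ∈ C.O ∧ f e ∈ C.V (P.cb e)

/-- the chains of `K` with the given coefficients -/
def OnK (z : K →₀ M) : Prop := ∀ x, z x ≠ 0 → x ∈ C.O ∧ z x ∈ C.V x

open Classical in
/-- restriction to the cells over `O` -/
noncomputable def rsE (P : Rps Γ K) (f : P.E →₀ M) : P.E →₀ M := f.filter fun e => P.cb e ∈ C.O

open Classical in
/-- restriction to `O` -/
noncomputable def rsK (z : K →₀ M) : K →₀ M := z.filter fun x => x ∈ C.O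

variable {C}

lemma rsE_mem {f : P.E →₀ M} {e : P.E} (h : P.cb e ∈ C.O) : rsE C P f e = f e := by
  classical
  unfold rsE
  rw [Finsupp.filter_apply, if_pos h]

lemma rsE_notMem {f : P.E →₀ M} {e : P.E} (h : P.cb e ∉ C.O) : rsE C P f e = 0 := by
  classical
  unfold rsE
  rw [Finsupp.filter_apply, if_neg h]

lemma rsK_mem {z : K →₀ M} {x : K} (h : x ∈ C.O) : rsK C z x = z x := by
  classical
  unfold rsK
  rw [Finsupp.filter_apply, if_pos h]

lemma rsK_notMem {z : K →₀ M} {x : K} (h : x ∉ C.O) : rsK C z x = 0 := by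
  classical
  unfold rsK
  rw [Finsupp.filter_apply, if_neg h]

lemma rsE_ne {f : P.E →₀ M} {e : P.E} (h : rsE C P f e ≠ 0) : P.cb e ∈ C.O ∧ f e ≠ 0 := by
  by_cases h1 : P.cb e ∈ C.O
  · rw [rsE_mem h1] at h
    exact ⟨h1, h⟩
  · exact absurd (rsE_notMem h1) h

lemma rsE_add (f g : P.E →₀ M) : rsE C P (f + g) = rsE C P f + rsE C P g := by
  ext e
  rw [Finsupp.add_apply]
  by_cases h : P.cb e ∈ C.O
  · rw [rsE_mem h, rsE_mem h, rsE_mem h, Finsupp.add_apply]
  · rw [rsE_notMem h, rsE_notMem h, rsE_notMem h, add_zero]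

lemma rsE_sub (f g : P.E →₀ M) : rsE C P (f - g) = rsE C P f - rsE C P g := by
  ext e
  rw [Finsupp.sub_apply]
  by_cases h : P.cb e ∈ C.O
  · rw [rsE_mem h, rsE_mem h, rsE_mem h, Finsupp.sub_apply]
  · rw [rsE_notMem h, rsE_notMem h, rsE_notMem h, sub_zero]

lemma rsE_zero : rsE C P (0 : P.E →₀ M) = 0 := by
  ext e
  by_cases h : P.cb e ∈ C.O
  · rw [rsE_mem h]
  · rw [rsE_notMem h]
    rfl

lemma rsK_zero : rsK C (0 : K →₀ M) = 0 := by
  ext e
  by_cases h : e ∈ C.O
  · rw [rsK_mem h]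
  · rw [rsK_notMem h]
    rfl

lemma OnE.eq_zero {f : P.E →₀ M} (hf : OnE C P f) {e : P.E} (h : P.cb e ∉ C.O) : f e = 0 := by
  by_contra h1
  exact h (hf e h1).1

lemma OnE.mem {f : P.E →₀ M} (hf : OnE C P f) (e : P.E) : f e ∈ C.V (P.cb e) := by
  by_cases h : f e = 0
  · rw [h]
    exact AddSubgroup.zero_mem _
  · exact (hf e h).2

lemma OnE.add {f g : P.E →₀ M} (hf : OnE C P f) (hg : OnE C P g) : OnE C P (f + g) := by
  intro e he
  refine ⟨?_, AddSubgroup.add_mem _ (hf.mem e) (hg.mem e)⟩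
  by_contra h
  apply he
  rw [Finsupp.add_apply, hf.eq_zero h, hg.eq_zero h, add_zero]

lemma OnE.sub {f g : P.E →₀ M} (hf : OnE C P f) (hg : OnE C P g) : OnE C P (f - g) := by
  intro e he
  refine ⟨?_, AddSubgroup.sub_mem _ (hf.mem e) (hg.mem e)⟩
  by_contra h
  apply he
  rw [Finsupp.sub_apply, hf.eq_zero h, hg.eq_zero h, sub_zero]

/-- restriction and projection commute -/
lemma pr_rsE (f : P.E →₀ M) : lin (P.pr S) (rsE C P f) = rsK C (lin (P.pr S) f) := by
  ext x
  by_cases hx : x ∈ C.O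
  · rw [rsK_mem hx, ← sub_eq_zero, ← Finsupp.sub_apply, ← map_sub]
    by_contra h
    obtain ⟨e, he, h2⟩ := exists_of_lin_ne h
    obtain ⟨h3, _⟩ := P.pr_ne S h2
    apply he
    rw [Finsupp.sub_apply, rsE_mem (by rw [h3]; exact hx), sub_self]
  · rw [rsK_notMem hx]
    by_contra h
    obtain ⟨e, he, h2⟩ := exists_of_lin_ne h
    obtain ⟨h3, _⟩ := P.pr_ne S h2
    apply hx
    rw [← h3]
    exact (rsE_ne he).1

section
variable (hG : Good S P D n)
include hG

/-- the boundary preserves the coefficients -/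
lemma Good.on {f : P.E →₀ M} (hf : OnE C P f) (hn : ∀ e, f e ≠ 0 → S.dim (P.cb e) < n) :
    OnE C P (rsE C P (lin (P.ext D) f)) := by
  intro e he
  obtain ⟨h1, _⟩ := rsE_ne he
  refine ⟨h1, ?_⟩
  rw [rsE_mem h1]
  refine lin_mem fun e' he' h2 => ?_
  exact C.mono _ _ (hf e' he').1 h1 (hG.leE (hn e' he') h2) (hf e' he').2

lemma Good.rs_rs {f : P.E →₀ M} (hf : OnE C P f) (hn : ∀ e, f e ≠ 0 → S.dim (P.cb e) < n) :
    rsE C P (lin (P.ext D) (rsE C P (lin (P.ext D) f))) = 0 := by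
  ext e
  rw [Finsupp.zero_apply]
  by_cases he : P.cb e ∈ C.O
  · rw [rsE_mem he]
    have h0 : lin (P.ext D) (lin (P.ext D) f) e = 0 := by
      rw [hG.ddE f hn]
      rfl
    rw [← h0, ← sub_eq_zero, ← Finsupp.sub_apply, ← map_sub]
    by_contra h
    obtain ⟨e', he', h2⟩ := exists_of_lin_ne h
    rw [Finsupp.sub_apply] at he'
    have h3 : P.cb e' ∉ C.O := fun h3 => he' (by rw [rsE_mem h3, sub_self])
    rw [rsE_notMem h3, zero_sub, neg_ne_zero] at he'
    obtain ⟨e'', he'', h4⟩ := exists_of_lin_ne he'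
    have h5 := hG.leE (hn e'' he'') h4
    have h6 : S.dim (P.cb e') < n := by
      by_cases h7 : P.cb e' = P.cb e''
      · rw [h7]
        exact hn e'' he''
      · exact (S.dim_lt _ _ h5 h7).trans (hn e'' he'')
    exact h3 (C.lc _ _ _ (hf e'' he'').1 he (hG.leE h6 h2) h5)
  · rw [rsE_notMem he]

lemma Good.pr_rs {f : P.E →₀ M} (hn : ∀ e, f e ≠ 0 → S.dim (P.cb e) < n) :
    lin (P.pr S) (rsE C P (lin (P.ext D) f)) = rsK C (lin S.bd (lin (P.pr S) f)) := by
  rw [pr_rsE, hG.piE f hn]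

/-- the part of the boundary over the cells of the top dimension -/
lemma Good.top_eq {m : ℕ} {f : P.E →₀ M} (hn : ∀ e, f e ≠ 0 → S.dim (P.cb e) < n ∧ S.dim (P.cb e) ≤ m) {e : P.E}
    (he : m ≤ S.dim (P.cb e)) : lin (P.ext D) f e = lin (P.ext (P.top S)) f e := by
  have h1 : lin (P.ext D) f = lin (P.ext (P.top S)) f + lin (fun e => P.ext D e - P.ext (P.top S) e) f := by
    rw [← lin_add]
    exact lin_congr fun e _ => by abel
  rw [h1, Finsupp.add_apply]
  have h2 : lin (fun e => P.ext D e - P.ext (P.top S) e) f e = 0 := by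
    by_contra h
    obtain ⟨e', he', h2⟩ := exists_of_lin_ne h
    rw [Finsupp.sub_apply] at h2
    obtain ⟨h3, h4⟩ := hG.lowE (hn e' he').1 h2
    have h5 := S.dim_lt _ _ h3 h4
    have h6 := (hn e' he').2
    omega
  rw [h2, add_zero]

end

/-! ### the quasi-isomorphism -/

section qi
variable [IsAddTorsionFree M]

/-- the values of the solutions -/
lemma clo_mem {V : AddSubgroup M} {s : Set M} {m : M} (h : m ∈ AddSubgroup.closure s) (hs : ∀ x ∈ s, x ∈ V) : m ∈ V :=
  (AddSubgroup.closure_le V).2 hs h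

lemma clo_ne {s : Set M} {m : M} (h : m ∈ AddSubgroup.closure s) (h0 : m ≠ 0) : ∃ x ∈ s, x ≠ 0 := by
  by_contra h1
  push Not at h1
  have h2 : m ∈ (⊥ : AddSubgroup M) := clo_mem h fun x hx => (AddSubgroup.mem_bot).2 (h1 x hx)
  exact h0 ((AddSubgroup.mem_bot).1 h2)

/-- the step in the lowest degree -/
lemma qi_low {z : K →₀ M} (hz : OnK C z) (hzd : ∀ x, z x ≠ 0 → S.dim x = n) :
    ∃ b : P.E →₀ M, OnE C P b ∧ (∀ e, b e ≠ 0 → P.deg S e.2 = n ∧ S.dim (P.cb e) = n) ∧ lin (P.pr S) b = z ∧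
      lin (P.ext (P.top S)) b = 0 := by
  classical
  have h1 : ∀ a, ∃ c : Γ × (P.R a).ι 0 →₀ M, lin (amI (MulAction.stabilizer Γ (P.rep a)) (P.R a).w) c =
      z.comapDomain (P.qk a) (P.qk_inj a).injOn ∧ ∀ (g : Γ) i, c (g, i) ∈ AddSubgroup.closure {z (g • P.rep a)} :=
    fun a => ind_surj (P.R a).surj _
  choose c hc hmem using h1
  let s : Finset P.A := Finset.univ.filter fun a => S.dim (P.rep a) = n
  refine ⟨∑ a ∈ s, lin (P.twJ S a 0) (c a), ?_, ?_, ?_, ?_⟩
  · intro e he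
    obtain ⟨a, ha, ⟨g, i⟩, rfl, h2⟩ := sum_twJ_supp he
    obtain ⟨x, hx, h3⟩ := clo_ne (hmem a g i) h2
    rw [Set.mem_singleton_iff] at hx
    subst hx
    obtain ⟨h4, h5⟩ := hz _ h3
    refine ⟨h4, ?_⟩
    rw [sum_twJ, if_pos ha]
    refine AddSubgroup.zsmul_mem _ (clo_mem (hmem a g i) ?_) _
    rintro x hx
    rw [Set.mem_singleton_iff] at hx
    rw [hx]
    exact h5
  · intro e he
    obtain ⟨a, ha, ⟨g, i⟩, rfl, h2⟩ := sum_twJ_supp he
    have h3 : S.dim (P.rep a) = n := (Finset.mem_filter.1 ha).2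
    refine ⟨h3, ?_⟩
    rw [dim_cb]
    exact h3
  · rw [map_sum]
    ext x
    obtain ⟨a, g, rfl⟩ := P.ex x
    rw [Finsupp.finsetSum_apply]
    have h2 : ∀ b, lin (P.pr S) (lin (P.twJ S b 0) (c b)) =
        (z.comapDomain (P.qk b) (P.qk_inj b).injOn).mapDomain (P.qk b) := fun b => by rw [P.lin_pr_twJ, hc]
    have h3 : (z.comapDomain (P.qk a) (P.qk_inj a).injOn).mapDomain (P.qk a) (g • P.rep a) = z (g • P.rep a) := by
      rw [← P.qk_mk, Finsupp.mapDomain_apply (P.qk_inj a), Finsupp.comapDomain_apply]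
    have h4 : ∀ b, b ≠ a → lin (P.pr S) (lin (P.twJ S b 0) (c b)) (g • P.rep a) = 0 := by
      intro b hb
      rw [h2]
      refine Finsupp.mapDomain_of_notMem_range _ _ ?_
      rintro ⟨k, hk⟩
      obtain ⟨h, rfl⟩ := QuotientGroup.mk_surjective k
      rw [P.qk_mk] at hk
      refine hb (P.uniq b a (g⁻¹ * h) ?_)
      rw [mul_smul, hk, inv_smul_smul]
    by_cases ha : a ∈ s
    · rw [Finset.sum_eq_single_of_mem a ha fun b _ hb => h4 b hb, h2, h3]
    · rw [Finset.sum_eq_zero fun b hb => h4 b fun h => ha (by rw [← h]; exact hb)]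
      by_contra h5
      apply ha
      have h6 := hzd _ (Ne.symm h5)
      rw [S.dim_smul] at h6
      exact Finset.mem_filter.2 ⟨Finset.mem_univ _, h6⟩
  · rw [map_sum]
    exact Finset.sum_eq_zero fun a _ => P.lin_top_twJ0 S a (c a)

/-- the step in the higher degrees -/
lemma qi_high {f : P.E →₀ M} (hf : OnE C P f) {q : ℕ} (hfd : ∀ e, f e ≠ 0 → P.deg S e.2 = n + q)
    (hcl : ∀ a, S.dim (P.rep a) = n →
      ∃ b : Γ × (P.R a).ι (q + 1) →₀ M, lin (mxI ((P.R a).d q)) b = P.part S a q f ∧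
        ∀ g i, b (g, i) ∈ AddSubgroup.closure {m | ∃ (γ : MulAction.stabilizer Γ (P.rep a)) (l : (P.R a).ι q),
          m = P.part S a q f (g * γ, l)}) :
    ∃ b : P.E →₀ M, OnE C P b ∧ (∀ e, b e ≠ 0 → P.deg S e.2 = n + q + 1 ∧ S.dim (P.cb e) = n) ∧
      lin (P.pr S) b = 0 ∧ ∀ e, S.dim (P.cb e) = n → lin (P.ext (P.top S)) b e = f e := by
  classical
  have h0 : ∀ a, ∃ b : Γ × (P.R a).ι (q + 1) →₀ M, S.dim (P.rep a) = n → lin (mxI ((P.R a).d q)) b = P.part S a q f ∧
        ∀ g i, b (g, i) ∈ AddSubgroup.closure {m | ∃ (γ : MulAction.stabilizer Γ (P.rep a)) (l : (P.R a).ι q),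
          m = P.part S a q f (g * γ, l)} := by
    intro a
    by_cases ha : S.dim (P.rep a) = n
    · obtain ⟨b, hb⟩ := hcl a ha
      exact ⟨b, fun _ => hb⟩
    · exact ⟨0, fun h => absurd h ha⟩
  choose b hb using h0
  let s : Finset P.A := Finset.univ.filter fun a => S.dim (P.rep a) = n
  have hs : ∀ a, a ∈ s ↔ S.dim (P.rep a) = n := fun a => by simp [s]
  have hval : ∀ a, S.dim (P.rep a) = n → ∀ g : Γ, ∀ m ∈ {m | ∃ (γ : MulAction.stabilizer Γ (P.rep a)) (l : (P.R a).ι q),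
      m = P.part S a q f (g * γ, l)}, m ∈ C.V (g • P.rep a) ∧ (m ≠ 0 → g • P.rep a ∈ C.O) := by
    rintro a ha g m ⟨γ, l, rfl⟩
    have h1 : P.cb (P.J a q (g * γ, l)) = g • P.rep a := by
      show (g * (γ : Γ)) • P.rep a = g • P.rep a
      rw [mul_smul, P.mem_stab γ]
    rw [P.part_apply]
    refine ⟨?_, fun h2 => ?_⟩
    · rw [← h1]
      exact AddSubgroup.zsmul_mem _ (hf.mem _) _
    · rw [← h1]
      refine (hf (P.J a q (g * γ, l)) fun h3 => h2 ?_).1
      rw [h3, smul_zero]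
  refine ⟨∑ a ∈ s, lin (P.twJ S a (q + 1)) (b a), ?_, ?_, ?_, ?_⟩
  · intro e he
    obtain ⟨a, ha, ⟨g, i⟩, rfl, h2⟩ := sum_twJ_supp he
    have ha' := (hs a).1 ha
    obtain ⟨x, hx, h3⟩ := clo_ne ((hb a ha').2 g i) h2
    refine ⟨(hval a ha' g x hx).2 h3, ?_⟩
    rw [sum_twJ, if_pos ha]
    exact AddSubgroup.zsmul_mem _ (clo_mem ((hb a ha').2 g i) fun x hx => (hval a ha' g x hx).1) _
  · intro e he
    obtain ⟨a, ha, ⟨g, i⟩, rfl, h2⟩ := sum_twJ_supp he
    have h3 := (hs a).1 ha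
    refine ⟨?_, ?_⟩
    · show S.dim (P.rep a) + (q + 1) = n + q + 1
      rw [h3, add_assoc]
    · rw [dim_cb]
      exact h3
  · rw [map_sum]
    exact Finset.sum_eq_zero fun a _ => P.lin_pr_twJ_succ S a q (b a)
  · intro e he
    rw [map_sum]
    have h1 : ∀ a ∈ s, lin (P.ext (P.top S)) (lin (P.twJ S a (q + 1)) (b a)) = lin (P.twJ S a q) (P.part S a q f) :=
      fun a ha => by rw [P.lin_top_twJ, (hb a ((hs a).1 ha)).1]
    rw [Finset.sum_congr rfl h1]
    obtain ⟨g, a, r, i⟩ := e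
    rw [dim_cb] at he
    by_cases hr : r = q
    · subst hr
      have h2 := sum_twJ (S := S) s r (fun a => P.part S a r f) a (g, i)
      rw [if_pos ((hs a).2 he)] at h2
      refine h2.trans ?_
      rw [P.part_apply, smul_smul, S.sg_sq, one_smul]
      rfl
    · have h2 : f (g, ⟨a, r, i⟩) = 0 := by
        by_contra h3
        have h4 := hfd _ h3
        have h5 : S.dim (P.rep a) + r = n + q := h4
        have h6 : S.dim (P.rep a) = n := he
        omega
      rw [h2]
      by_contra h3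
      obtain ⟨a', _, x, h4, _⟩ := sum_twJ_supp h3
      exact hr (P.J_eq (b := a) (r := r) (y := (g, i)) h4).2.symm

/-- **the projection is a surjective quasi-isomorphism**, for all coefficients in torsion-free groups -/
theorem qi : ∀ {n : ℕ}, Good S P D n → ∀ (J : ℕ) (f : P.E →₀ M) (z : K →₀ M), OnE C P f →
    (∀ e, f e ≠ 0 → P.deg S e.2 + 1 = J ∧ S.dim (P.cb e) < n) → OnK C z → (∀ x, z x ≠ 0 → S.dim x = J ∧ S.dim x < n) →
    rsE C P (lin (P.ext D) f) = 0 → lin (P.pr S) f = rsK C (lin S.bd z) →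
    ∃ b : P.E →₀ M, OnE C P b ∧ (∀ e, b e ≠ 0 → P.deg S e.2 = J ∧ S.dim (P.cb e) < n) ∧
      rsE C P (lin (P.ext D) b) = f ∧ lin (P.pr S) b = z := by
  intro n
  induction n with
  | zero =>
    intro hG J f z hf hfd hz hzd _ _
    have h1 : f = 0 := by
      ext e
      by_contra h
      exact absurd (hfd e h).2 (Nat.not_lt_zero _)
    have h2 : z = 0 := by
      ext e
      by_contra h
      exact absurd (hzd e h).2 (Nat.not_lt_zero _)
    refine ⟨0, fun e he => absurd rfl he, fun e he => absurd rfl he, ?_, ?_⟩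
    · rw [map_zero, rsE_zero, h1]
    · rw [map_zero, h2]
  | succ n ih =>
    intro hG J f z hf hfd hz hzd h1 h2
    have hdeg : ∀ e : P.E, S.dim (P.cb e) ≤ P.deg S e.2 := fun e => by
      rw [dim_cb]
      exact Nat.le_add_right _ _
    -- the final step: from a correction `b₀` of the top part to the solution
    have fin : ∀ b₀ : P.E →₀ M, OnE C P b₀ → (∀ e, b₀ e ≠ 0 → P.deg S e.2 = J ∧ S.dim (P.cb e) = n) →
        lin (P.pr S) b₀ = z → (∀ e, S.dim (P.cb e) = n → P.cb e ∈ C.O → lin (P.ext (P.top S)) b₀ e = f e) →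
        ∃ b : P.E →₀ M, OnE C P b ∧ (∀ e, b e ≠ 0 → P.deg S e.2 = J ∧ S.dim (P.cb e) < n + 1) ∧
          rsE C P (lin (P.ext D) b) = f ∧ lin (P.pr S) b = z := by
      intro b₀ hb1 hb2 hb3 hb4
      have hn : ∀ e, b₀ e ≠ 0 → S.dim (P.cb e) < n + 1 := fun e he => by
        rw [(hb2 e he).2]
        exact Nat.lt_succ_self n
      have hn' : ∀ e, b₀ e ≠ 0 → S.dim (P.cb e) < n + 1 ∧ S.dim (P.cb e) ≤ n := fun e he =>
        ⟨hn e he, (hb2 e he).2.le⟩
      have d1 : ∀ e, (f - rsE C P (lin (P.ext D) b₀)) e ≠ 0 → P.deg S e.2 + 1 = J ∧ S.dim (P.cb e) < n := by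
        intro e he
        have h3 : f e ≠ 0 ∨ rsE C P (lin (P.ext D) b₀) e ≠ 0 := by
          by_contra h4
          push Not at h4
          apply he
          rw [Finsupp.sub_apply, h4.1, h4.2, sub_zero]
        have h4 : P.deg S e.2 + 1 = J ∧ S.dim (P.cb e) < n + 1 := by
          rcases h3 with h3 | h3
          · exact hfd e h3
          · obtain ⟨e', he', h5⟩ := exists_of_lin_ne (rsE_ne h3).2
            refine ⟨by rw [hG.degE (hn e' he') h5]; exact (hb2 e' he').1, ?_⟩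
            have h6 := hG.leE (hn e' he') h5
            by_cases h7 : P.cb e = P.cb e'
            · rw [h7]
              exact hn e' he'
            · exact (S.dim_lt _ _ h6 h7).trans (hn e' he')
        refine ⟨h4.1, ?_⟩
        by_contra h5
        have h6 : S.dim (P.cb e) = n := by omega
        apply he
        rw [Finsupp.sub_apply]
        by_cases h7 : P.cb e ∈ C.O
        · rw [rsE_mem h7, hG.top_eq hn' h6.ge, hb4 e h6 h7, sub_self]
        · rw [rsE_notMem h7, hf.eq_zero h7, sub_zero]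
      have d2 : rsE C P (lin (P.ext D) (f - rsE C P (lin (P.ext D) b₀))) = 0 := by
        rw [map_sub, rsE_sub, h1, hG.rs_rs hb1 hn, sub_zero]
      have d3 : lin (P.pr S) (f - rsE C P (lin (P.ext D) b₀)) = rsK C (lin S.bd (0 : K →₀ M)) := by
        rw [map_sub, hG.pr_rs hn, hb3, h2, sub_self, map_zero, rsK_zero]
      obtain ⟨b, c1, c2, c3, c4⟩ := ih (hG.mono (Nat.le_succ n)) J (f - rsE C P (lin (P.ext D) b₀)) 0
        (hf.sub (hG.on hb1 hn)) d1 (fun x hx => absurd rfl hx) (fun x hx => absurd rfl hx) d2 d3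
      refine ⟨b₀ + b, hb1.add c1, fun e he => ?_, ?_, ?_⟩
      · by_cases h3 : b₀ e = 0
        · rw [Finsupp.add_apply, h3, zero_add] at he
          exact ⟨(c2 e he).1, (c2 e he).2.trans (Nat.lt_succ_self n)⟩
        · exact ⟨(hb2 e h3).1, hn e h3⟩
      · rw [map_add, rsE_add, c3, add_sub_cancel]
      · rw [map_add, hb3, c4, add_zero]
    have hz0 : n < J → z = 0 := by
      intro h
      ext x
      by_contra h3
      have := hzd x h3
      omega
    rcases Nat.lt_trichotomy J n with hJ | hJ | hJ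
    · -- no cells of dimension `n`
      obtain ⟨b, c1, c2, c3, c4⟩ := ih (hG.mono (Nat.le_succ n)) J f z hf
        (fun e he => ⟨(hfd e he).1, by have := hdeg e; have := (hfd e he).1; omega⟩) hz
        (fun x hx => ⟨(hzd x hx).1, by have := (hzd x hx).1; omega⟩) h1 h2
      exact ⟨b, c1, fun e he => ⟨(c2 e he).1, (c2 e he).2.trans (Nat.lt_succ_self n)⟩, c3, c4⟩
    · subst hJ
      obtain ⟨b₀, hb1, hb2, hb3, hb4⟩ := qi_low (P := P) hz fun x hx => (hzd x hx).1
      refine fin b₀ hb1 hb2 hb3 fun e he _ => ?_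
      rw [hb4, Finsupp.zero_apply]
      by_contra h3
      have := hfd e (Ne.symm h3)
      have := hdeg e
      omega
    · obtain ⟨q, hq⟩ : ∃ q, J = n + q + 1 := ⟨J - n - 1, by omega⟩
      subst hq
      have hz' := hz0 hJ
      have key : ∀ a, S.dim (P.rep a) = n →
          ∃ b : Γ × (P.R a).ι (q + 1) →₀ M, lin (mxI ((P.R a).d q)) b = P.part S a q f ∧
            ∀ g i, b (g, i) ∈ AddSubgroup.closure {m | ∃ (γ : MulAction.stabilizer Γ (P.rep a)) (l : (P.R a).ι q),
              m = P.part S a q f (g * γ, l)} := by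
        intro a ha
        have hpr : lin (P.pr S) f = 0 := by rw [h2, hz', map_zero, rsK_zero]
        cases q with
        | zero =>
          refine ind_ex0 (fun x hx => ((P.R a).exact_zero x).1 hx) ?_
          ext k
          rw [← pr_part, hpr]
          rfl
        | succ q =>
          refine ind_ex (fun x hx => ((P.R a).exact_succ q x).1 hx) ?_
          ext x
          rw [Finsupp.zero_apply]
          by_cases hx : x.1 • P.rep a ∈ C.O
          · have h3 : rsE C P (lin (P.ext D) f) (P.J a q x) = 0 := by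
              rw [h1]
              rfl
            have h4 : P.cb (P.J a q x) = x.1 • P.rep a := rfl
            rw [rsE_mem (by rw [h4]; exact hx), hG.top_eq (m := n) (fun e he => ⟨(hfd e he).2, by
              have := (hfd e he).2; omega⟩) (by rw [h4, S.dim_smul, ha]), top_part] at h3
            have h5 := congrArg (fun m => S.sg x.1 (P.rep a) • m) h3
            simp only [smul_zero, smul_smul, S.sg_sq, one_smul] at h5
            exact h5
          · by_contra h3
            obtain ⟨y, hy, h4⟩ := exists_of_lin_ne h3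
            unfold mxI at h4
            rw [Finsupp.finsetSum_apply] at h4
            obtain ⟨l, _, h5⟩ := Finset.exists_ne_zero_of_sum_ne_zero h4
            have h6 : ∃ γ : MulAction.stabilizer Γ (P.rep a), (y.1 * γ, l) = x := by
              by_contra h7
              push Not at h7
              exact h5 (Finsupp.mapDomain_of_notMem_range _ _ fun ⟨γ, hγ⟩ => h7 γ hγ)
            obtain ⟨γ, rfl⟩ := h6
            apply hx
            show (y.1 * (γ : Γ)) • P.rep a ∈ C.O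
            rw [mul_smul, P.mem_stab γ]
            rw [P.part_apply] at hy
            exact (hf (P.J a (q + 1) y) fun h7 => hy (by rw [h7, smul_zero])).1
      obtain ⟨b₀, hb1, hb2, hb3, hb4⟩ := qi_high (P := P) (S := S) (n := n) (q := q) hf
        (fun e he => by have := (hfd e he).1; omega) key
      exact fin b₀ hb1 hb2 (by rw [hb3, hz']) fun e he _ => hb4 e he

end qi

end coef

end Cm
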