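import Pool.Agent.Cm.ResGen

/-!
# Mirror inequality: the resolution given by an exact cell system

* `ES.Exact X` : the cell system `X` with an augmentation is exact, for functions with finite support;
* `ES.h_eq_bE` : the `ℓ²`-Betti numbers of `G` are the numbers `X.bE i`.
-/

set_option autoImplicit false
set_option linter.unusedSectionVars false
set_option linter.unusedVariables false

open scoped ComplexConjugate InnerProductSpace
open Filter Topology

namespace Cm

open Singer (L2)
open Npc (Cof Orb vd Equi dl dl_apply_self dl_apply_ne equi_one)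

/-! ### functions with finite support -/

section fs
variable {Y Z : Type*}

/-- a function with finite support as an element of `ℓ²` -/
noncomputable def ofF (f : Y →₀ ℂ) : L2 Y := f.sum fun y c => c • dl y

lemma ofF_apply (f : Y →₀ ℂ) (y : Y) : ofF f y = f y := by
  classical
  unfold ofF Finsupp.sum
  rw [lp.coeFn_sum, Finset.sum_apply]
  have h1 : ∀ z ∈ f.support, (f z • (dl z : L2 Y)) y = if y = z then f z else 0 := by
    intro z _
    rw [lp.coeFn_smul, Pi.smul_apply, smul_eq_mul]
    by_cases h : y = z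
    · subst h
      rw [dl_apply_self, mul_one, if_pos rfl]
    · rw [dl_apply_ne h, mul_zero, if_neg h]
  rw [Finset.sum_congr rfl h1, Finset.sum_ite_eq]
  by_cases h : y ∈ f.support
  · rw [if_pos h]
  · rw [if_neg h, Finsupp.notMem_support_iff.1 h]

lemma supp_ofF (f : Y →₀ ℂ) : (Function.support (ofF f)).Finite := by
  refine f.hasFiniteSupport.subset fun y hy => ?_
  rw [Function.mem_support, ofF_apply] at hy
  exact hy

/-- an element of `ℓ²` with finite support as a function with finite support -/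
noncomputable def tfs (f : L2 Y) (hf : (Function.support f).Finite) : Y →₀ ℂ := Finsupp.ofSupportFinite f hf

lemma tfs_apply (f : L2 Y) (hf : (Function.support f).Finite) (y : Y) : tfs f hf y = f y := rfl

lemma ofF_tfs (f : L2 Y) (hf : (Function.support f).Finite) : ofF (tfs f hf) = f := by
  ext y
  rw [ofF_apply, tfs_apply]

end fs

variable {H G : Type*} [Group G] [MulAction G H] {S : Hyp H G}

namespace Kern
variable {A B : Type*} [MulAction G A] [MulAction G B] (K : Kern G A B)

lemma op_fs (f : L2 A) (hf : (Function.support f).Finite) (b : B) :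
    K.op f b = (tfs f hf).sum fun a c => (K.d a b : ℂ) * c := by
  classical
  rw [K.op_apply]
  unfold Finsupp.sum
  have h1 : ∑ a ∈ K.cl b, (K.d a b : ℂ) * f a = ∑ a ∈ K.cl b ∪ (tfs f hf).support, (K.d a b : ℂ) * f a := by
    refine Finset.sum_subset Finset.subset_union_left fun a _ ha => ?_
    rw [K.mem_cl, not_not] at ha
    rw [ha, Int.cast_zero, zero_mul]
  have h2 : ∑ a ∈ (tfs f hf).support, (K.d a b : ℂ) * tfs f hf a =
      ∑ a ∈ K.cl b ∪ (tfs f hf).support, (K.d a b : ℂ) * f a := by
    refine Finset.sum_subset Finset.subset_union_right fun a _ ha => ?_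
    have h3 : tfs f hf a = 0 := Finsupp.notMem_support_iff.1 ha
    rw [h3, mul_zero]
  rw [h1, h2]

lemma op_ofF (f : A →₀ ℂ) (b : B) : K.op (ofF f) b = f.sum fun a c => (K.d a b : ℂ) * c := by
  have h : tfs (ofF f) (supp_ofF f) = f := by
    ext a
    rw [tfs_apply, ofF_apply]
  rw [K.op_fs _ (supp_ofF f), h]

lemma op_dl (a : A) (b : B) : K.op (dl a) b = K.d a b := by
  classical
  rw [K.op_apply]
  by_cases h : K.d a b = 0
  · rw [h, Int.cast_zero]
    refine Finset.sum_eq_zero fun a' ha' => ?_
    have h1 : a' ≠ a := by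
      rintro rfl
      exact K.mem_cl.1 ha' h
    rw [dl_apply_ne h1, mul_zero]
  · rw [Finset.sum_eq_single a]
    · rw [dl_apply_self, mul_one]
    · intro a' _ h1
      rw [dl_apply_ne h1, mul_zero]
    · intro h1
      exact absurd (K.mem_cl.2 h) h1

lemma supp_op_dl (a : A) : (Function.support (K.op (dl a))).Finite := by
  refine (K.row a).1.subset fun b hb => ?_
  rw [Function.mem_support, op_dl] at hb
  exact fun h => hb (by rw [h, Int.cast_zero])

lemma op_eq_sum (f : L2 A) (hf : (Function.support f).Finite) :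
    K.op f = (tfs f hf).sum fun a c => c • K.op (dl a) := by
  conv_lhs => rw [← ofF_tfs f hf]
  unfold ofF Finsupp.sum
  rw [map_sum]
  exact Finset.sum_congr rfl fun a _ => map_smul _ _ _

lemma supp_op (f : L2 A) (hf : (Function.support f).Finite) : (Function.support (K.op f)).Finite := by
  classical
  have h1 : (⋃ a ∈ (tfs f hf).support, {b | K.d a b ≠ 0}).Finite :=
    Set.Finite.biUnion (Finset.finite_toSet _) fun a _ => (K.row a).1
  refine h1.subset fun b hb => ?_
  rw [Function.mem_support, K.op_fs f hf] at hb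
  obtain ⟨a, ha, hab⟩ := Finset.exists_ne_zero_of_sum_ne_zero hb
  refine Set.mem_biUnion ha ?_
  show K.d a b ≠ 0
  intro h
  exact hab (by
    show (K.d a b : ℂ) * _ = 0
    rw [h, Int.cast_zero, zero_mul])

end Kern

namespace ES
variable {P : Type*} {E : ℕ → Type*} [MulAction G P] [∀ j, MulAction G (E j)] (X : ES S P E)

/-- the cell system is exact -/
structure Exact where
  /-- the augmentation -/
  w : E 0 → ℂ
  w_smul : ∀ (g : G) e, w (g • e) = w e
  inc_inc : ∀ j (e : E (j + 2)) (e'' : E j), ∑ᶠ e' : E (j + 1), X.inc e e' * X.inc e' e'' = 0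
  inc_w : ∀ e : E 1, ∑ᶠ e' : E 0, (X.inc e e' : ℂ) * w e' = 0
  surj : ∃ f : E 0 →₀ ℂ, (f.sum fun e c => w e * c) = 1
  ex_zero : ∀ f : E 0 →₀ ℂ, (f.sum fun e c => w e * c) = 0 →
    ∃ g : E 1 →₀ ℂ, ∀ e, (g.sum fun a c => (X.inc a e : ℂ) * c) = f e
  ex_succ : ∀ j (f : E (j + 1) →₀ ℂ), (∀ e' : E j, (f.sum fun e c => (X.inc e e' : ℂ) * c) = 0) →
    ∃ g : E (j + 2) →₀ ℂ, ∀ e, (g.sum fun a c => (X.inc a e : ℂ) * c) = f e

variable {X} [∀ j, Cof G (E j)]

lemma finsum_w {w : E 0 → ℂ} (f : L2 (E 0)) (hf : (Function.support f).Finite) :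
    ∑ᶠ y, w y * f y = (tfs f hf).sum fun e c => w e * c := by
  rw [finsum_eq_sum_of_support_subset (s := (tfs f hf).support)]
  · rfl
  · intro y hy
    rw [Finset.mem_coe, Finsupp.mem_support_iff, tfs_apply]
    intro h
    exact hy (by
      show w y * f y = 0
      rw [h, mul_zero])

/-- the data of the resolution -/
noncomputable def Exact.data (h : X.Exact) : RData G E where
  V _ := ⊤
  p _ := 1
  D j := (X.kE j).op
  w := h.w
  w_smul := h.w_smul
  p_equi _ := equi_one
  p_fin j y := by
    refine (Set.finite_singleton y).subset fun z hz => ?_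
    by_contra hne
    exact hz (dl_apply_ne hne)
  p_mem _ _ := trivial
  p_eq _ _ _ := rfl
  D_equi j := (X.kE j).equi_op
  D_fin j y := (X.kE j).supp_op_dl y
  D_mem _ _ _ := trivial
  D_D j f _ := by
    have h1 : ((X.kE j).op).comp ((X.kE (j + 1)).op) = 0 := by
      refine eq_zero_of_dl fun e => ?_
      ext e''
      rw [ContinuousLinearMap.comp_apply, (X.kE j).op_apply]
      show ∑ e' ∈ (X.kE j).cl e'', (X.inc e' e'' : ℂ) * ((X.kE (j + 1)).op (dl e)) e' = 0
      have h2 := h.inc_inc j e e''
      rw [finsum_eq_sum_of_support_subset (s := (X.kE j).cl e'')] at h2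
      · have h3 : ∑ e' ∈ (X.kE j).cl e'', (X.inc e' e'' : ℂ) * ((X.kE (j + 1)).op (dl e)) e' =
            ((∑ e' ∈ (X.kE j).cl e'', X.inc e e' * X.inc e' e'' : ℤ) : ℂ) := by
          rw [Int.cast_sum]
          refine Finset.sum_congr rfl fun e' _ => ?_
          rw [(X.kE (j + 1)).op_dl, Int.cast_mul, mul_comm]
          rfl
        rw [h3, h2, Int.cast_zero]
      · intro e' he'
        rw [Finset.mem_coe, (X.kE j).mem_cl]
        intro h4
        have h4' : X.inc e' e'' = 0 := h4
        exact he' (by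
          show X.inc e e' * X.inc e' e'' = 0
          rw [h4', mul_zero])
    exact DFunLike.congr_fun h1 f
  w_D f _ hf := by
    have h1 : ∀ e : E 1, ∑ᶠ y, h.w y * (X.kE 0).op (dl e) y = 0 := by
      intro e
      refine Eq.trans (finsum_congr fun y => ?_) (h.inc_w e)
      rw [(X.kE 0).op_dl, mul_comm]
      rfl
    rw [(X.kE 0).op_eq_sum f hf]
    unfold Finsupp.sum
    have h2 : ∀ y, h.w y * (∑ a ∈ (tfs f hf).support, (tfs f hf) a • (X.kE 0).op (dl a) : L2 (E 0)) y =
        ∑ a ∈ (tfs f hf).support, (tfs f hf) a * (h.w y * (X.kE 0).op (dl a) y) := by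
      intro y
      rw [lp.coeFn_sum, Finset.sum_apply, Finset.mul_sum]
      refine Finset.sum_congr rfl fun a _ => ?_
      rw [lp.coeFn_smul, Pi.smul_apply, smul_eq_mul]
      ring
    rw [finsum_congr h2, finsum_sum_comm]
    · refine Finset.sum_eq_zero fun a _ => ?_
      have h4 := mul_finsum (fun y => h.w y * (X.kE 0).op (dl a) y) ((tfs f hf) a)
      rw [h1 a, mul_zero] at h4
      exact h4.symm
    · intro a _
      refine ((X.kE 0).supp_op_dl a).subset fun y hy hne => ?_
      exact hy (by
        show (tfs f hf) a * (h.w y * (X.kE 0).op (dl a) y) = 0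
        rw [hne, mul_zero, mul_zero])
  surj := by
    obtain ⟨f, hf⟩ := h.surj
    refine ⟨ofF f, trivial, supp_ofF f, ?_⟩
    have h1 : tfs (ofF f) (supp_ofF f) = f := by
      ext a
      rw [tfs_apply, ofF_apply]
    rw [finsum_w _ (supp_ofF f), h1, hf]
  ex_zero f _ hf h0 := by
    rw [finsum_w f hf] at h0
    obtain ⟨g, hg⟩ := h.ex_zero _ h0
    refine ⟨ofF g, trivial, supp_ofF g, ?_⟩
    ext e
    rw [(X.kE 0).op_ofF]
    exact hg e
  ex_succ j f _ hf h0 := by
    have h1 : ∀ e' : E j, ((tfs f hf).sum fun e c => (X.inc e e' : ℂ) * c) = 0 := by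
      intro e'
      have h2 := (X.kE j).op_fs f hf e'
      rw [h0] at h2
      exact h2.symm
    obtain ⟨g, hg⟩ := h.ex_succ j _ h1
    refine ⟨ofF g, trivial, supp_ofF g, ?_⟩
    ext e
    rw [(X.kE (j + 1)).op_ofF]
    exact hg e

/-- **the `ℓ²`-Betti numbers of `G`** are the numbers of the cell system -/
theorem h_eq_bE (h : X.Exact) (R : Singer.Res.{0} G) (i : ℕ) : R.toPreRes.toHC.h i = X.bE i := by
  rw [Singer.Res.h_eq R h.data.res]
  have hV0 : ∀ j, h.data.V j = ⊤ := fun j => rfl
  have hD0 : ∀ j, h.data.D j = (X.kE j).op := fun j => rfl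
  have hZ : ∀ j, vd G (h.data.Z j) = X.zE j := by
    intro j
    unfold RData.Z zE
    rw [hV0, hD0, top_inf_eq]
  have hV : ∀ j, vd G (h.data.V j) = X.cE j := fun j => by
    unfold cE
    rw [hV0]
  cases i with
  | zero =>
    rw [h.data.h_zero, hZ, hV, hV]
    rfl
  | succ i =>
    rw [h.data.h_succ, hZ, hZ, hV]
    rfl

end ES

end Cm
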