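import Pool.Agent.Npc.Res
import Pool.Agent.Npc.HalfY

/-!
# Resolutions from complexes of functions on free `Γ`-sets

`exists_res` : closed invariant subspaces `V j` of `L2 (Y j)`, `Y j` a free `Γ`-set with finitely many orbits, equivariant
operators `D j`, exactness for the elements with finite support.  Then there is a resolution `R` of the trivial module with
the Betti numbers computed by the dimensions of `V j` and of the kernels of `D j`.
-/

set_option autoImplicit false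
set_option linter.unusedSectionVars false
set_option linter.unusedVariables false

open scoped ComplexConjugate InnerProductSpace
open Filter Topology

namespace Cm

open Singer (L2)
open Npc (Cof Orb vd Equi Mdl dl dl_apply_self dl_apply_ne pr no fe VV VV' mt tq mem_tq VV_mem_tq VV'_mt VV_VV' VV'_VV
  fs_iff' mat_mt vdim_tq vd_map_add vd_closure pr_mem pr_eq_of_mem equi_pr ct ct_dl_mem pr_ct mdl_ker)

section resg
variable {Γ : Type*} [Group Γ]

lemma VV'_inj {Y : Type*} [MulAction Γ Y] [Cof Γ Y] {f g : Singer.E Γ (Fin (no Γ Y))}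
    (h : VV' Γ Y f = VV' Γ Y g) : f = g := by
  rw [← VV_VV' f, h, VV_VV']

/-- the augmentation -/
lemma eps_eq_finsum {Y : Type*} [MulAction Γ Y] [Cof Γ Y] {w : Y → ℂ} (hw : ∀ (g : Γ) y, w (g • y) = w y)
    (f : Singer.E Γ (Fin (no Γ Y))) :
    Singer.eps (fun i => w (fe Γ Y (1, i))) f = ∑ᶠ y, w y * (VV' Γ Y f) y := by
  unfold Singer.eps
  rw [← finsum_comp_equiv (fe Γ Y) (f := fun y => w y * (VV' Γ Y f) y)]
  refine finsum_congr fun x => ?_
  have h1 : w (fe Γ Y x) = w (fe Γ Y (1, x.2)) := by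
    rw [Npc.fe_apply, Npc.fe_apply, one_smul, hw]
  rw [h1]
  show _ = _ * f ((fe Γ Y).symm (fe Γ Y x))
  rw [Equiv.symm_apply_apply]

/-- a resolution from a complex of functions on free `Γ`-sets -/
theorem exists_res {Y : ℕ → Type*} [∀ j, MulAction Γ (Y j)] [∀ j, Cof Γ (Y j)]
    (V : ∀ j, Submodule ℂ (L2 (Y j))) (hV : ∀ j, Mdl Γ (V j))
    (D : ∀ j, L2 (Y (j + 1)) →L[ℂ] L2 (Y j)) (hD : ∀ j, Equi Γ (D j))
    (hfin : ∀ j y, (Function.support (D j (dl y))).Finite)
    (hpr : ∀ j y, (Function.support (pr (V j) (dl y))).Finite)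
    (hmem : ∀ j, ∀ f ∈ V (j + 1), D j f ∈ V j)
    (hDD : ∀ j, ∀ f ∈ V (j + 2), D j (D (j + 1) f) = 0)
    (w : Y 0 → ℂ) (hw : ∀ (g : Γ) y, w (g • y) = w y)
    (haug : ∀ f ∈ V 1, (Function.support f).Finite → ∑ᶠ y, w y * D 0 f y = 0)
    (hsurj : ∃ f ∈ V 0, (Function.support f).Finite ∧ ∑ᶠ y, w y * f y = 1)
    (h0 : ∀ f ∈ V 0, (Function.support f).Finite → ∑ᶠ y, w y * f y = 0 →
      ∃ g ∈ V 1, (Function.support g).Finite ∧ D 0 g = f)
    (h1 : ∀ j, ∀ f ∈ V (j + 1), (Function.support f).Finite → D j f = 0 →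
      ∃ g ∈ V (j + 2), (Function.support g).Finite ∧ D (j + 1) g = f) :
    ∃ R : Singer.Res.{0} Γ,
      R.toPreRes.toHC.h 0 = vd Γ (V 0) - (vd Γ (V 1) -
        vd Γ (V 1 ⊓ LinearMap.ker (D 0 : L2 (Y 1) →ₗ[ℂ] L2 (Y 0)))) ∧
      ∀ i, R.toPreRes.toHC.h (i + 1) = vd Γ (V (i + 1) ⊓ LinearMap.ker (D i : L2 (Y (i + 1)) →ₗ[ℂ] L2 (Y i))) -
        (vd Γ (V (i + 2)) - vd Γ (V (i + 2) ⊓ LinearMap.ker (D (i + 1) : L2 (Y (i + 2)) →ₗ[ℂ] L2 (Y (i + 1))))) := by
  classical
  let R : Singer.Res.{0} Γ :=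
    { ι := fun j => Fin (no Γ (Y j))
      ft := fun _ => inferInstance
      P := fun j => tq (V j)
      e := fun j => mt (pr (V j))
      d := fun j => mt (D j)
      w := fun i => w (fe Γ (Y 0) (1, i))
      mat_e := fun j => mat_mt (equi_pr (hV j).1) (hpr j)
      mat_d := fun j => mat_mt (hD j) (hfin j)
      e_mem := fun j f => by
        rw [mem_tq, VV'_mt]
        exact pr_mem (hV j).2 _
      e_eq := fun j f hf => by
        refine VV'_inj ?_
        rw [VV'_mt]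
        exact pr_eq_of_mem ((V j).le_topologicalClosure hf)
      d_mem := fun j f hf => by
        rw [mem_tq, VV'_mt]
        exact hmem j _ hf
      d_d := fun j f hf => by
        refine VV'_inj ?_
        rw [VV'_mt, VV'_mt]
        exact (hDD j _ (mem_tq.1 hf)).trans (map_zero _).symm
      eps_d := fun f hf hfs => by
        rw [eps_eq_finsum hw, VV'_mt]
        exact haug _ hf ((fs_iff' f).1 hfs)
      surj := by
        obtain ⟨f, hf, hfs, hf1⟩ := hsurj
        refine ⟨VV Γ (Y 0) f, VV_mem_tq.2 hf, ?_, ?_⟩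
        · rw [fs_iff', VV'_VV]
          exact hfs
        · rw [eps_eq_finsum hw, VV'_VV]
          exact hf1
      ex_zero := fun f hf hfs h => by
        rw [eps_eq_finsum hw] at h
        obtain ⟨g, hg, hgs, hgf⟩ := h0 _ hf ((fs_iff' f).1 hfs) h
        refine ⟨VV Γ (Y 1) g, VV_mem_tq.2 hg, ?_, VV'_inj ?_⟩
        · rw [fs_iff', VV'_VV]
          exact hgs
        · rw [VV'_mt, VV'_VV]
          exact hgf
      ex_succ := fun j f hf hfs h => by
        have h2 : D j (VV' Γ (Y (j + 1)) f) = 0 := by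
          rw [← VV'_mt, h, map_zero]
        obtain ⟨g, hg, hgs, hgf⟩ := h1 j _ hf ((fs_iff' f).1 hfs) h2
        refine ⟨VV Γ (Y (j + 2)) g, VV_mem_tq.2 hg, ?_, VV'_inj ?_⟩
        · rw [fs_iff', VV'_VV]
          exact hgs
        · rw [VV'_mt, VV'_VV]
          exact hgf }
  have hB : ∀ j, Singer.vdim (R.B j) = vd Γ (V (j + 1)) -
      vd Γ (V (j + 1) ⊓ LinearMap.ker (D j : L2 (Y (j + 1)) →ₗ[ℂ] L2 (Y j))) := by
    intro j
    have e1 : Singer.vdim (R.B j) = vd Γ ((V (j + 1)).map (D j : L2 (Y (j + 1)) →ₗ[ℂ] L2 (Y j))) := by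
      unfold Singer.PreRes.B
      rw [Singer.vdim_closure, ← vdim_tq]
      congr 1
      ext f
      constructor
      · rintro ⟨v, hv, rfl⟩
        exact ⟨VV' Γ _ v, hv, (VV'_mt _ _).symm⟩
      · rintro ⟨v, hv, h⟩
        refine ⟨VV Γ _ v, VV_mem_tq.2 hv, VV'_inj ?_⟩
        show VV' Γ (Y j) (mt (D j) (VV Γ _ v)) = _
        rw [VV'_mt, VV'_VV]
        exact h
    have e2 := vd_map_add (hD j) (hV (j + 1))
    rw [e1]
    linarith
  have hZ : ∀ j, Singer.vdim (R.Z (j + 1)) =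
      vd Γ (V (j + 1) ⊓ LinearMap.ker (D j : L2 (Y (j + 1)) →ₗ[ℂ] L2 (Y j))) := by
    intro j
    rw [← vdim_tq]
    congr 1
    ext f
    show f ∈ tq (V (j + 1)) ∧ mt (D j) f = 0 ↔ VV' Γ (Y (j + 1)) f ∈ V (j + 1) ∧ D j (VV' Γ (Y (j + 1)) f) = 0
    refine and_congr_right fun _ => ?_
    have h2 := VV'_mt (Γ := Γ) (D j) f
    constructor
    · intro h
      rw [h] at h2
      exact h2.symm.trans (map_zero _)
    · intro h
      refine VV'_inj ?_
      rw [h2]
      exact h.trans (map_zero _).symm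
  refine ⟨R, ?_, fun i => ?_⟩
  · show Singer.vdim (R.toPreRes.toHC.Z 0) - Singer.vdim (R.toPreRes.toHC.B 0) = _
    have e1 : Singer.vdim (R.toPreRes.toHC.Z 0) = vd Γ (V 0) := vdim_tq _
    have e2 : Singer.vdim (R.toPreRes.toHC.B 0) = _ := hB 0
    rw [e1, e2]
  · show Singer.vdim (R.toPreRes.toHC.Z (i + 1)) - Singer.vdim (R.toPreRes.toHC.B (i + 1)) = _
    have e1 : Singer.vdim (R.toPreRes.toHC.Z (i + 1)) = _ := hZ i
    have e2 : Singer.vdim (R.toPreRes.toHC.B (i + 1)) = _ := hB (i + 1)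
    rw [e1, e2]

/-- the projection to a subspace defined by relations inside finite blocks is local -/
theorem pr_dl_fin {Y : Type*} {V : Submodule ℂ (L2 Y)} (hV : IsClosed (V : Set (L2 Y))) {y : Y} (B : Set Y) (hy : y ∈ B)
    (hB : B.Finite) (h : ∀ f ∈ V, ct B f ∈ V) : (Function.support (pr V (dl y))).Finite := by
  refine hB.subset fun z hz => ?_
  by_contra h1
  refine hz ?_
  rw [← ct_dl_mem hy, pr_ct hV h, Npc.ct_notMem h1]

end resg

end Cm
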