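import Pool.Agent.Npc.Res
import Pool.Agent.Cm.Cof

/-!
# Resolutions from complexes of functions on free `Γ`-sets

* `RData Γ Y` : submodules `V j` of `ℓ²(Y j)` (the ranges of idempotents with finite columns), boundary operators, an
  augmentation, exact on the functions with finite support;
* `RData.res` : the resolution; `RData.h_zero`, `RData.h_succ` : its `ℓ²`-Betti numbers.
-/

set_option autoImplicit false
set_option linter.unusedSectionVars false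
set_option linter.unusedVariables false

open scoped ComplexConjugate InnerProductSpace
open Filter Topology

namespace Cm

open Singer (L2 pull pull_apply)
open Npc (Cof Orb vd vd_closure vd_map_add Equi Mdl mdl_ker Inv act dl inner_dl_left no VV VV' VV_VV' VV'_VV fe
  fe_apply tq mem_tq VV_mem_tq vdim_tq mt mt_apply VV'_mt fs_iff' mat_mt)

/-- an operator which vanishes on the basis vectors is zero -/
theorem eq_zero_of_dl {Y Z : Type*} {T : L2 Y →L[ℂ] L2 Z} (h : ∀ y, T (dl y) = 0) : T = 0 := by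
  have h1 : ContinuousLinearMap.adjoint T = 0 := by
    ext f y
    rw [← inner_dl_left y, ContinuousLinearMap.adjoint_inner_right, h, inner_zero_left]
    rfl
  have h2 : ContinuousLinearMap.adjoint (ContinuousLinearMap.adjoint T) = 0 := by rw [h1, map_zero]
  rwa [ContinuousLinearMap.adjoint_adjoint] at h2

section data
variable (Γ : Type*) [Group Γ] (Y : ℕ → Type*) [∀ j, MulAction Γ (Y j)] [∀ j, Cof Γ (Y j)]

/-- an exact complex of functions on free `Γ`-sets -/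
structure RData where
  /-- the chains -/
  V : ∀ j, Submodule ℂ (L2 (Y j))
  /-- the idempotent -/
  p : ∀ j, L2 (Y j) →L[ℂ] L2 (Y j)
  /-- the boundary -/
  D : ∀ j, L2 (Y (j + 1)) →L[ℂ] L2 (Y j)
  /-- the augmentation -/
  w : Y 0 → ℂ
  w_smul : ∀ (g : Γ) y, w (g • y) = w y
  p_equi : ∀ j, Equi Γ (p j)
  p_fin : ∀ j y, (Function.support (p j (dl y))).Finite
  p_mem : ∀ j f, p j f ∈ V j
  p_eq : ∀ j, ∀ f ∈ V j, p j f = f
  D_equi : ∀ j, Equi Γ (D j)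
  D_fin : ∀ j y, (Function.support (D j (dl y))).Finite
  D_mem : ∀ j, ∀ f ∈ V (j + 1), D j f ∈ V j
  D_D : ∀ j, ∀ f ∈ V (j + 2), D j (D (j + 1) f) = 0
  w_D : ∀ f ∈ V 1, (Function.support f).Finite → ∑ᶠ y, w y * D 0 f y = 0
  surj : ∃ f ∈ V 0, (Function.support f).Finite ∧ ∑ᶠ y, w y * f y = 1
  ex_zero : ∀ f ∈ V 0, (Function.support f).Finite → ∑ᶠ y, w y * f y = 0 →
    ∃ g ∈ V 1, (Function.support g).Finite ∧ D 0 g = f
  ex_succ : ∀ j, ∀ f ∈ V (j + 1), (Function.support f).Finite → D j f = 0 →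
    ∃ g ∈ V (j + 2), (Function.support g).Finite ∧ D (j + 1) g = f

end data

namespace RData
variable {Γ : Type*} [Group Γ] {Y : ℕ → Type*} [∀ j, MulAction Γ (Y j)] [∀ j, Cof Γ (Y j)] (X : RData Γ Y)

lemma VV'_inj {j : ℕ} {f g : Singer.E Γ (Fin (no Γ (Y j)))} (h : VV' Γ (Y j) f = VV' Γ (Y j) g) : f = g := by
  rw [← VV_VV' f, h, VV_VV']

/-- the augmentation on the orbits -/
noncomputable def w' (i : Fin (no Γ (Y 0))) : ℂ := X.w ((Fintype.equivFin (Orb Γ (Y 0))).symm i).out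

lemma eps_eq (f : Singer.E Γ (Fin (no Γ (Y 0)))) : Singer.eps X.w' f = ∑ᶠ y, X.w y * (VV' Γ (Y 0) f) y := by
  unfold Singer.eps
  rw [← finsum_comp_equiv (fe Γ (Y 0)) (f := fun y => X.w y * (VV' Γ (Y 0) f) y)]
  refine finsum_congr fun x => ?_
  have h1 : (VV' Γ (Y 0) f) (fe Γ (Y 0) x) = f x := by
    show f ((fe Γ (Y 0)).symm (fe Γ (Y 0) x)) = f x
    rw [Equiv.symm_apply_apply]
  have h2 : X.w (fe Γ (Y 0) x) = X.w' x.2 := by
    rw [fe_apply, X.w_smul]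
    rfl
  rw [h1, h2]

/-- the resolution -/
noncomputable def res : Singer.Res.{0} Γ where
  ι j := Fin (no Γ (Y j))
  ft _ := inferInstance
  P j := tq (X.V j)
  e j := mt (X.p j)
  d j := mt (X.D j)
  w := X.w'
  mat_e j := mat_mt (X.p_equi j) (X.p_fin j)
  mat_d j := mat_mt (X.D_equi j) (X.D_fin j)
  e_mem j f := by
    rw [mem_tq, VV'_mt]
    exact X.p_mem j _
  e_eq j f hf := by
    refine VV'_inj ?_
    rw [VV'_mt]
    exact X.p_eq j _ hf
  d_mem j f hf := by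
    rw [mem_tq, VV'_mt]
    exact X.D_mem j _ hf
  d_d j f hf := by
    refine VV'_inj ?_
    rw [VV'_mt, VV'_mt]
    exact (X.D_D j _ (mem_tq.1 hf)).trans (map_zero _).symm
  eps_d f hf hfs := by
    rw [eps_eq, VV'_mt]
    exact X.w_D _ hf ((fs_iff' f).1 hfs)
  surj := by
    obtain ⟨f, hf, hfs, h1⟩ := X.surj
    refine ⟨VV Γ (Y 0) f, VV_mem_tq.2 hf, ?_, ?_⟩
    · rw [fs_iff', VV'_VV]
      exact hfs
    · rw [eps_eq, VV'_VV]
      exact h1
  ex_zero f hf hfs h0 := by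
    rw [eps_eq] at h0
    obtain ⟨g, hg, hgs, hgf⟩ := X.ex_zero _ hf ((fs_iff' f).1 hfs) h0
    refine ⟨VV Γ (Y 1) g, VV_mem_tq.2 hg, ?_, VV'_inj ?_⟩
    · rw [fs_iff', VV'_VV]
      exact hgs
    · rw [VV'_mt, VV'_VV]
      exact hgf
  ex_succ j f hf hfs h0 := by
    have h1 : X.D j (VV' Γ (Y (j + 1)) f) = 0 := by
      rw [← VV'_mt, h0, map_zero]
    obtain ⟨g, hg, hgs, hgf⟩ := X.ex_succ j _ hf ((fs_iff' f).1 hfs) h1
    refine ⟨VV Γ (Y (j + 2)) g, VV_mem_tq.2 hg, ?_, VV'_inj ?_⟩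
    · rw [fs_iff', VV'_VV]
      exact hgs
    · rw [VV'_mt, VV'_VV]
      exact hgf

/-- the cycles of degree `j + 1` -/
noncomputable def Z (j : ℕ) : Submodule ℂ (L2 (Y (j + 1))) :=
  X.V (j + 1) ⊓ LinearMap.ker (X.D j : L2 (Y (j + 1)) →ₗ[ℂ] L2 (Y j))

lemma mdl_V (j : ℕ) : Mdl Γ (X.V j) := by
  have h1 : X.V j = LinearMap.ker ((1 - X.p j : L2 (Y j) →L[ℂ] L2 (Y j)) : L2 (Y j) →ₗ[ℂ] L2 (Y j)) := by
    ext f
    rw [LinearMap.mem_ker]
    show f ∈ X.V j ↔ f - X.p j f = 0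
    rw [sub_eq_zero]
    constructor
    · intro hf
      exact (X.p_eq j f hf).symm
    · intro hf
      rw [hf]
      exact X.p_mem j f
  rw [h1]
  exact mdl_ker (Npc.equi_one.sub (X.p_equi j))

lemma vdim_Z_zero : Singer.vdim (X.res.Z 0) = vd Γ (X.V 0) := vdim_tq _

lemma vdim_Z_succ (j : ℕ) : Singer.vdim (X.res.Z (j + 1)) = vd Γ (X.Z j) := by
  rw [← vdim_tq]
  congr 1
  ext f
  show f ∈ tq (X.V (j + 1)) ∧ mt (X.D j) f = 0 ↔ VV' Γ (Y (j + 1)) f ∈ X.V (j + 1) ∧ X.D j (VV' Γ (Y (j + 1)) f) = 0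
  refine and_congr_right fun _ => ?_
  have h1 := VV'_mt (Γ := Γ) (X.D j) f
  constructor
  · intro h
    rw [h] at h1
    exact h1.symm.trans (map_zero _)
  · intro h
    refine VV'_inj ?_
    rw [h1]
    exact h.trans (map_zero _).symm

lemma vdim_B (j : ℕ) : Singer.vdim (X.res.B j) = vd Γ (X.V (j + 1)) - vd Γ (X.Z j) := by
  have h1 := vd_map_add (X.D_equi j) (X.mdl_V (j + 1))
  have h2 : Singer.vdim (X.res.B j) = vd Γ ((X.V (j + 1)).map (X.D j : L2 (Y (j + 1)) →ₗ[ℂ] L2 (Y j))) := by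
    unfold Singer.PreRes.B
    rw [Singer.vdim_closure, ← vdim_tq]
    congr 1
    ext f
    constructor
    · rintro ⟨v, hv, rfl⟩
      exact ⟨VV' Γ _ v, hv, (VV'_mt _ _).symm⟩
    · rintro ⟨v, hv, h⟩
      refine ⟨VV Γ _ v, VV_mem_tq.2 hv, VV'_inj ?_⟩
      show VV' Γ (Y j) (mt (X.D j) (VV Γ _ v)) = _
      rw [VV'_mt, VV'_VV]
      exact h
  rw [h2, ← h1]
  show _ = _ + vd Γ (X.Z j) - vd Γ (X.Z j)
  rw [add_sub_cancel_right]

theorem h_zero : X.res.toPreRes.toHC.h 0 = vd Γ (X.V 0) - (vd Γ (X.V 1) - vd Γ (X.Z 0)) := by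
  show Singer.vdim (X.res.toPreRes.toHC.Z 0) - Singer.vdim (X.res.toPreRes.toHC.B 0) = _
  have hB : Singer.vdim (X.res.toPreRes.toHC.B 0) = vd Γ (X.V 1) - vd Γ (X.Z 0) := X.vdim_B 0
  have hZ : Singer.vdim (X.res.toPreRes.toHC.Z 0) = vd Γ (X.V 0) := X.vdim_Z_zero
  rw [hZ, hB]

theorem h_succ (i : ℕ) :
    X.res.toPreRes.toHC.h (i + 1) = vd Γ (X.Z i) - (vd Γ (X.V (i + 2)) - vd Γ (X.Z (i + 1))) := by
  show Singer.vdim (X.res.toPreRes.toHC.Z (i + 1)) - Singer.vdim (X.res.toPreRes.toHC.B (i + 1)) = _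
  have hB : Singer.vdim (X.res.toPreRes.toHC.B (i + 1)) = vd Γ (X.V (i + 2)) - vd Γ (X.Z (i + 1)) := X.vdim_B (i + 1)
  have hZ : Singer.vdim (X.res.toPreRes.toHC.Z (i + 1)) = vd Γ (X.Z i) := X.vdim_Z_succ i
  rw [hZ, hB]

end RData

end Cm
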