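import Pool.Agent.Cm.EndM
import Pool.Agent.Cm.ResG
import Pool.Agent.Singer.Hc

/-!
# Mirror inequality: the resolution of the mirrored group of a vertex

`X.AS f` : `f : Cell (X.Sx x) Unit (X.Ex x j) → ℂ` has finite support and is antisymmetric for the letters of the cells;
`X.dM f` : the boundary; `ES.exists_resM` : if the antisymmetric chains with finite support are exact, they give a
resolution for the mirrored group of the vertex `x` with the Betti numbers `X.bx x`.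
-/

set_option autoImplicit false
set_option linter.unusedSectionVars false
set_option linter.unusedVariables false

open scoped ComplexConjugate InnerProductSpace
open Filter Topology

namespace Cm

open Singer (L2 RACG memL2)
open Npc (Cof Orb vd Equi Mdl dl dl_apply_self dl_apply_ne pr ct ct_mem ct_notMem)

variable {H G : Type*} [Group G] [MulAction G H] {S : Hyp H G} {P : Type*} {E : ℕ → Type*} [MulAction G P]
  [∀ j, MulAction G (E j)] (X : ES S P E)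

namespace ES

variable {x : P} {j : ℕ}

/-- chains with finite support, antisymmetric for the letters of the cells -/
structure AS (f : Cell (X.Sx x) Unit (X.Ex x j) → ℂ) : Prop where
  fin : (Function.support f).Finite
  asy : ∀ (n : NN (X.Sx x) Unit) (e : X.Ex x j) (t : X.dr x), t ∈ X.tT e → f ⟨n * sW t, e⟩ = -f ⟨n, e⟩

/-- the boundary -/
noncomputable def dM (f : Cell (X.Sx x) Unit (X.Ex x (j + 1)) → ℂ) : Cell (X.Sx x) Unit (X.Ex x j) → ℂ := fun y =>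
  ∑ e ∈ (X.kx x j).cl y.r, (X.inc e.e y.r.e : ℂ) * f ⟨y.n, e⟩

lemma D_eq_dM (f : L2 (Cell (X.Sx x) Unit (X.Ex x (j + 1)))) (y : Cell (X.Sx x) Unit (X.Ex x j)) :
    (X.kx x j).D (X.Sx x) Unit f y = X.dM (fun z => f z) y := (X.kx x j).D_apply f y

lemma mem_Chx {f : L2 (Cell (X.Sx x) Unit (X.Ex x j))} : f ∈ (X.tx x j).Ch (X.Sx x) Unit mir ↔
    ∀ (n : NN (X.Sx x) Unit) (e : X.Ex x j) (t : X.dr x), t ∈ X.tT e → f ⟨n * sW t, e⟩ = -f ⟨n, e⟩ :=
  TSet.mem_Ch_mm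

lemma as_of_mem {f : L2 (Cell (X.Sx x) Unit (X.Ex x j))} (hf : f ∈ (X.tx x j).Ch (X.Sx x) Unit mir)
    (hfs : (Function.support f).Finite) : X.AS (fun y => f y) := ⟨hfs, X.mem_Chx.1 hf⟩

lemma exists_of_as {g : Cell (X.Sx x) Unit (X.Ex x j) → ℂ} (hg : X.AS g) :
    ∃ f : L2 (Cell (X.Sx x) Unit (X.Ex x j)), f ∈ (X.tx x j).Ch (X.Sx x) Unit mir ∧ (fun y => f y) = g := by
  have h1 : Summable fun y => ‖g y‖ ^ 2 := by
    refine summable_of_hasFiniteSupport (hg.fin.subset fun y hy h0 => hy ?_)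
    show ‖g y‖ ^ 2 = 0
    rw [h0]
    simp
  exact ⟨⟨g, memL2 h1⟩, X.mem_Chx.2 hg.asy, rfl⟩

lemma inc_tT {e : X.Ex x (j + 1)} {e' : X.Ex x j} (h : X.inc e.e e'.e ≠ 0) : X.tT e' ⊆ X.tT e := by
  intro t ht
  rw [X.mem_tT] at ht ⊢
  exact X.inc_T _ _ h ht

lemma dM_asy {f : Cell (X.Sx x) Unit (X.Ex x (j + 1)) → ℂ}
    (hf : ∀ (n : NN (X.Sx x) Unit) (e : X.Ex x (j + 1)) (t : X.dr x), t ∈ X.tT e → f ⟨n * sW t, e⟩ = -f ⟨n, e⟩)
    (n : NN (X.Sx x) Unit) (e : X.Ex x j) (t : X.dr x) (ht : t ∈ X.tT e) :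
    X.dM f ⟨n * sW t, e⟩ = -X.dM f ⟨n, e⟩ := by
  unfold dM
  rw [← Finset.sum_neg_distrib]
  refine Finset.sum_congr rfl fun e' he' => ?_
  have h1 : X.inc e'.e e.e ≠ 0 := (X.kx x j).mem_cl.1 he'
  rw [hf n e' t (X.inc_tT h1 ht), mul_neg]

/-- the composition of two boundaries is zero -/
lemma dM_dM (hdd : ∀ j (e : E (j + 2)) (e'' : E j), ∑ᶠ e' : E (j + 1), X.inc e e' * X.inc e' e'' = 0)
    (f : Cell (X.Sx x) Unit (X.Ex x (j + 2)) → ℂ) : X.dM (X.dM f) = 0 := by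
  classical
  funext y
  obtain ⟨n, e0⟩ := y
  show ∑ e1 ∈ (X.kx x j).cl e0, (X.inc e1.e e0.e : ℂ) *
    ∑ e2 ∈ (X.kx x (j + 1)).cl e1, (X.inc e2.e e1.e : ℂ) * f ⟨n, e2⟩ = 0
  have h1 : ∀ e1 ∈ (X.kx x j).cl e0, (X.inc e1.e e0.e : ℂ) *
      ∑ e2 ∈ (X.kx x (j + 1)).cl e1, (X.inc e2.e e1.e : ℂ) * f ⟨n, e2⟩ =
      ∑ e2 ∈ ((X.kx x j).cl e0).biUnion (X.kx x (j + 1)).cl,
        (X.inc e1.e e0.e : ℂ) * ((X.inc e2.e e1.e : ℂ) * f ⟨n, e2⟩) := by
    intro e1 he1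
    rw [← Finset.mul_sum]
    congr 1
    refine Finset.sum_subset (Finset.subset_biUnion_of_mem (X.kx x (j + 1)).cl he1) fun e2 _ h2 => ?_
    have h3 : X.inc e2.e e1.e = 0 := by
      by_contra h
      exact h2 ((X.kx x (j + 1)).mem_cl.2 h)
    rw [h3, Int.cast_zero, zero_mul]
  rw [Finset.sum_congr rfl h1, Finset.sum_comm]
  refine Finset.sum_eq_zero fun e2 _ => ?_
  have h2 : ∑ e1 ∈ (X.kx x j).cl e0, X.inc e2.e e1.e * X.inc e1.e e0.e = 0 := by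
    have h3 := hdd j e2.e e0.e
    have h4 : Function.support (fun e1 : E (j + 1) => X.inc e2.e e1 * X.inc e1 e0.e) ⊆
        (((X.kx x j).cl e0).image (fun e1 : X.Ex x (j + 1) => e1.e) : Finset (E (j + 1))) := by
      intro e1 he1
      have h5 : X.inc e1 e0.e ≠ 0 := right_ne_zero_of_mul he1
      rw [Finset.coe_image]
      exact ⟨⟨e1, X.inc_V _ _ h5 e0.h⟩, (X.kx x j).mem_cl.2 h5, rfl⟩
    rw [finsum_eq_sum_of_support_subset _ h4, Finset.sum_image fun a _ b _ h => Ex.ext h] at h3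
    exact h3
  have h3 : ∑ e1 ∈ (X.kx x j).cl e0, (X.inc e1.e e0.e : ℂ) * ((X.inc e2.e e1.e : ℂ) * f ⟨n, e2⟩) =
      ((∑ e1 ∈ (X.kx x j).cl e0, X.inc e2.e e1.e * X.inc e1.e e0.e : ℤ) : ℂ) * f ⟨n, e2⟩ := by
    rw [Int.cast_sum, Finset.sum_mul]
    refine Finset.sum_congr rfl fun e1 _ => ?_
    push_cast
    ring
  rw [h3, h2, Int.cast_zero, zero_mul]

/-- the block of a cell -/
def blk (y : Cell (X.Sx x) Unit (X.Ex x j)) : Set (Cell (X.Sx x) Unit (X.Ex x j)) :=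
  {z | z.r = y.r ∧ (pw y.n)⁻¹ * pw z.n ∈ Singer.Racg.sub (G := (X.Sx x).C) (X.tT y.r : Set (X.dr x))}

lemma clique_tT (e : X.Ex x j) : (X.Sx x).C.IsClique (X.tT e : Set (X.dr x)) := by
  intro t ht u hu hne
  show S.C.Adj (t : H) (u : H)
  exact X.T_adj e.e _ _ (X.mem_tT.1 ht) (X.mem_tT.1 hu) fun h => hne (Subtype.ext h)

lemma blk_fin (y : Cell (X.Sx x) Unit (X.Ex x j)) : (X.blk y).Finite := by
  classical
  have h1 := Singer.Hc.finite_sub' (G := (X.Sx x).C) (S := X.tT y.r) (X.clique_tT y.r)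
  refine Set.Finite.of_finite_image (f := fun z : Cell (X.Sx x) Unit (X.Ex x j) => (pw y.n)⁻¹ * pw z.n)
    (h1.subset ?_) ?_
  · rintro _ ⟨z, hz, rfl⟩
    exact hz.2
  · intro z hz z' hz' h
    refine Cell.ext (nn_ext (mul_left_cancel h) fun t => Subsingleton.elim _ _) (hz.1.trans hz'.1.symm)

lemma blk_sW {y : Cell (X.Sx x) Unit (X.Ex x j)} {n : NN (X.Sx x) Unit} {e : X.Ex x j} {t : X.dr x}
    (ht : t ∈ X.tT e) : (⟨n * sW t, e⟩ : Cell (X.Sx x) Unit (X.Ex x j)) ∈ X.blk y ↔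
      (⟨n, e⟩ : Cell (X.Sx x) Unit (X.Ex x j)) ∈ X.blk y := by
  have key : ∀ n : NN (X.Sx x) Unit, (⟨n, e⟩ : Cell (X.Sx x) Unit (X.Ex x j)) ∈ X.blk y →
      (⟨n * sW t, e⟩ : Cell (X.Sx x) Unit (X.Ex x j)) ∈ X.blk y := by
    rintro n ⟨h1, h2⟩
    refine ⟨h1, ?_⟩
    have h3 : e = y.r := h1
    show (pw y.n)⁻¹ * pw (n * sW t) ∈ _
    rw [pw_mul, pw_sW, ← mul_assoc]
    refine mul_mem h2 (Singer.Racg.gen_mem_sub ?_)
    rw [← h3]
    exact ht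
  refine ⟨fun h => ?_, key n⟩
  have h1 := key _ h
  rwa [mul_assoc, sW_sW, mul_one] at h1

lemma pr_fin (y : Cell (X.Sx x) Unit (X.Ex x j)) (hc : IsClosed ((X.tx x j).Ch (X.Sx x) Unit mir :
    Set (L2 (Cell (X.Sx x) Unit (X.Ex x j))))) :
    (Function.support (pr ((X.tx x j).Ch (X.Sx x) Unit mir) (dl y))).Finite := by
  classical
  refine pr_dl_fin hc (X.blk y) ⟨rfl, ?_⟩ (X.blk_fin y) fun f hf => ?_
  · rw [inv_mul_cancel]
    exact one_mem _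
  · rw [X.mem_Chx] at hf ⊢
    intro n e t ht
    by_cases h : (⟨n, e⟩ : Cell (X.Sx x) Unit (X.Ex x j)) ∈ X.blk y
    · rw [ct_mem h, ct_mem ((X.blk_sW ht).2 h), hf n e t ht]
    · rw [ct_notMem h, ct_notMem fun h' => h ((X.blk_sW ht).1 h'), neg_zero]

variable [∀ j, Cof G (E j)]

/-- the resolution of the mirrored group of a vertex -/
theorem exists_resM (x : P)
    (hdd : ∀ j (e : E (j + 2)) (e'' : E j), ∑ᶠ e' : E (j + 1), X.inc e e' * X.inc e' e'' = 0)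
    (w : E 0 → ℂ) (hw : ∀ (g : G) e, w (g • e) = w e)
    (haug : ∀ f : Cell (X.Sx x) Unit (X.Ex x 1) → ℂ, X.AS f → ∑ᶠ y, w y.r.e * X.dM f y = 0)
    (hsurj : ∃ f : Cell (X.Sx x) Unit (X.Ex x 0) → ℂ, X.AS f ∧ ∑ᶠ y, w y.r.e * f y = 1)
    (h0 : ∀ f : Cell (X.Sx x) Unit (X.Ex x 0) → ℂ, X.AS f → ∑ᶠ y, w y.r.e * f y = 0 →
      ∃ g : Cell (X.Sx x) Unit (X.Ex x 1) → ℂ, X.AS g ∧ X.dM g = f)
    (h1 : ∀ (j : ℕ) (f : Cell (X.Sx x) Unit (X.Ex x (j + 1)) → ℂ), X.AS f → X.dM f = 0 →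
      ∃ g : Cell (X.Sx x) Unit (X.Ex x (j + 2)) → ℂ, X.AS g ∧ X.dM g = f) :
    ∃ R : Singer.Res.{0} (Gh (X.Sx x) Unit), ∀ i, R.toPreRes.toHC.h i = X.bx x i := by
  classical
  obtain ⟨R, hR0, hR1⟩ := exists_res (Γ := Gh (X.Sx x) Unit) (Y := fun j => Cell (X.Sx x) Unit (X.Ex x j))
    (fun j => (X.tx x j).Ch (X.Sx x) Unit mir) (fun j => TSet.mdl_Ch)
    (fun j => (X.kx x j).D (X.Sx x) Unit) (fun j => (X.kx x j).equi_D)
    (fun j y => by
      -- the column of a cell is finite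
      refine (((X.kx x j).row y.r).1.image fun e => (⟨y.n, e⟩ : Cell (X.Sx x) Unit (X.Ex x j))).subset ?_
      intro z hz
      have hz' : (X.kx x j).D (X.Sx x) Unit (dl y) z ≠ 0 := hz
      rw [X.D_eq_dM] at hz'
      obtain ⟨e, he, hne⟩ := Finset.exists_ne_zero_of_sum_ne_zero hz'
      have h2 : (dl y : L2 (Cell (X.Sx x) Unit (X.Ex x (j + 1)))) ⟨z.n, e⟩ ≠ 0 := right_ne_zero_of_mul hne
      have h3 : (⟨z.n, e⟩ : Cell (X.Sx x) Unit (X.Ex x (j + 1))) = y := by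
        by_contra h
        exact h2 (dl_apply_ne h)
      subst h3
      exact ⟨z.r, (X.kx x j).mem_cl.1 he, rfl⟩)
    (fun j y => X.pr_fin y TSet.mdl_Ch.2)
    (fun j f hf => by
      rw [X.mem_Chx] at hf ⊢
      intro n e t ht
      rw [X.D_eq_dM, X.D_eq_dM]
      exact X.dM_asy hf n e t ht)
    (fun j f hf => by
      ext y
      rw [X.D_eq_dM]
      have h2 : (fun z => (X.kx x (j + 1)).D (X.Sx x) Unit f z) = X.dM (fun z => f z) := funext fun z => X.D_eq_dM f z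
      rw [h2, X.dM_dM hdd]
      rfl)
    (fun y => w y.r.e) (fun g y => hw _ _)
    (fun f hf hfs => by
      rw [← haug _ (X.as_of_mem hf hfs)]
      exact finsum_congr fun y => by rw [X.D_eq_dM])
    (by
      obtain ⟨f, hf, hf1⟩ := hsurj
      obtain ⟨f', hf', rfl⟩ := X.exists_of_as hf
      exact ⟨f', hf', hf.fin, hf1⟩)
    (fun f hf hfs hs => by
      obtain ⟨g, hg, hgf⟩ := h0 _ (X.as_of_mem hf hfs) hs
      obtain ⟨g', hg', rfl⟩ := X.exists_of_as hg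
      refine ⟨g', hg', hg.fin, ?_⟩
      ext y
      rw [X.D_eq_dM, hgf])
    (fun j f hf hfs hs => by
      obtain ⟨g, hg, hgf⟩ := h1 j _ (X.as_of_mem hf hfs) (by
        funext y
        rw [← X.D_eq_dM, hs]
        rfl)
      obtain ⟨g', hg', rfl⟩ := X.exists_of_as hg
      refine ⟨g', hg', hg.fin, ?_⟩
      ext y
      rw [X.D_eq_dM, hgf])
  refine ⟨R, fun i => ?_⟩
  cases i with
  | zero => exact hR0
  | succ i => exact hR1 i

end ES

end Cm
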