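import Pool.Agent.Cm.Stmt
import Pool.Agent.SQ.V.Stmt

/-!
# The classes `Van i` of groups without `ℓ²`-homology in degree `i`

The classes of `Pool.Agent.SQ.V.Stmt`, with arbitrary cocompact actions on `CAT(0)` cube complexes instead of the actions on
trees (`mirror`, `tree`) and the free actions on cube complexes (`cube`).
-/

set_option autoImplicit false

open scoped Pointwise

namespace Cm.V

open Singer CubeComplex
open SQ.V (InClass Amenable TreeAction)

/-- The classes of groups; `Van i` consists of groups without `ℓ²`-homology in degree `i`.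
* `sub`: subgroups `K` of type `FP_∞` of `n`-dimensional Poincare duality groups, `n < 2 * i`, if `K` is in `InClass`.
* `dim`: `Γ` has a resolution by finitely generated free modules which is zero in degree `i`.
* `zero`: infinite groups are in `Van 0`.
* `amen`: amenable groups of type `FP_∞` are in `Van i` for `i > 0`.
* `supergroup`, `subgroup`: `Γ` contains a group of the class as a subgroup of finite index, or is a subgroup of finite index
  of a group of the class.
* `dual`: Poincare duality groups of dimension `i + j` in `Van i` are in `Van j`.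
* `mirror`: `Γ` acts cocompactly on a `CAT(0)` cube complex and the mirrored groups `MirGroup Γ M x` of all vertices are in
  the class.
* `cells`: `Γ` acts cocompactly on a `CAT(0)` cube complex and the stabilizers of the cubes of dimension `n` are in
  `Van (i - n)`, for all `n ≤ i`.
* `vertex`: `Γ` acts on a tree, `Γ` and the stabilizers of the edges are in the class, then so are the stabilizers of the
  vertices.
* `edge`: `Γ` acts on a tree, `Γ` is in `Van (i + 1)` and the stabilizers of the vertices are in `Van i`, then the
  stabilizers of the edges are in `Van i`. -/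
inductive Van : ℕ → ∀ (Γ : Type) [Group Γ], Prop
  | sub {n i : ℕ} {P : Type} [Group P] (K : Subgroup P) (R : FinRes K) : IsPD n P → InClass K → n < 2 * i → Van i K
  | dim {i : ℕ} {Γ : Type} [Group Γ] (R : FinRes Γ) : IsEmpty (R.ι i) → Van i Γ
  | zero {Γ : Type} [Group Γ] : Infinite Γ → Van 0 Γ
  | amen {i : ℕ} {Γ : Type} [Group Γ] (R : FinRes Γ) : Amenable Γ → Van (i + 1) Γ
  | supergroup {i : ℕ} {Γ H : Type} [Group Γ] [Group H] (j : H →* Γ) :
      Function.Injective j → j.range.FiniteIndex → Van i H → Van i Γ
  | subgroup {i : ℕ} {Γ H : Type} [Group Γ] [Group H] (j : Γ →* H) (R : FinRes H) :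
      Function.Injective j → j.range.FiniteIndex → Van i H → Van i Γ
  | dual {i j : ℕ} {Γ : Type} [Group Γ] : IsPD (i + j) Γ → Van i Γ → Van j Γ
  | mirror {i : ℕ} {Γ X : Type} [Group Γ] [MulAction Γ X] (M : SimpleGraph X) : CubicalAction Γ M →
      (∀ x, Van i (MirGroup Γ M x)) → Van i Γ
  | cells {i : ℕ} {Γ X : Type} [Group Γ] [MulAction Γ X] (M : SimpleGraph X) : CubicalAction Γ M →
      (∀ j n, j + n = i → ∀ C, IsCube M n C → Van j (MulAction.stabilizer Γ C)) → Van i Γ
  | vertex {i : ℕ} {Γ V : Type} [Group Γ] [MulAction Γ V] (T : SimpleGraph V) (F : Finset V) (v : V) :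
      TreeAction Γ T F → Van i Γ →
      (∀ v w, T.Adj v w → Van i (MulAction.stabilizer Γ v ⊓ MulAction.stabilizer Γ w : Subgroup Γ)) →
      Van i (MulAction.stabilizer Γ v)
  | edge {i : ℕ} {Γ V : Type} [Group Γ] [MulAction Γ V] (T : SimpleGraph V) (F : Finset V) (v w : V) :
      TreeAction Γ T F → Van (i + 1) Γ → (∀ x ∈ F, Van i (MulAction.stabilizer Γ x)) → T.Adj v w →
      Van i (MulAction.stabilizer Γ v ⊓ MulAction.stabilizer Γ w : Subgroup Γ)

end Cm.V
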