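import Pool.Agent.Cm.Tree
import Pool.Agent.Cm.FinG
import Pool.Agent.Cm.Pres
import Pool.Agent.Cm.VStmt

/-!
# Actions on trees and free actions on cube complexes are cubical actions

* `CubicalAction.of_tree`, `CubicalAction.of_cube` : cubical actions;
* `mirRel_tree` : the mirrored groups of a tree;
* `racgEquiv` : the mirrored groups of free actions are the right-angled Coxeter groups of the links;
* `mirConj` : the mirrored groups of the vertices of an orbit are isomorphic;
* `Cm.V.van_of` : the classes `SQ.V.Van i` are contained in the classes `Cm.V.Van i`.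
-/

set_option autoImplicit false
set_option linter.unusedSectionVars false
set_option linter.unusedVariables false

open scoped Pointwise

namespace Cm

open Singer CubeComplex

section conj
variable {Γ X : Type} [Group Γ] [MulAction Γ X] (M : SimpleGraph X)
variable (hact : ∀ (g : Γ) (x y : X), M.Adj x y → M.Adj (g • x) (g • y))

/-- the images of the generators -/
def mirCf (g : Γ) {x y : X} (h : g • x = y) : MulAction.stabilizer Γ x ⊕ M.neighborSet x → MirGroup Γ M y
  | Sum.inl k => mEl M y ⟨g * k * g⁻¹, by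
      have hk : (k : Γ) • x = x := k.2
      rw [MulAction.mem_stabilizer_iff, mul_smul, mul_smul, ← h, inv_smul_smul, hk]⟩
  | Sum.inr a => mRf M y ⟨g • (a : X), by
      rw [← h]
      exact hact g _ _ a.2⟩

/-- the mirrored groups of the vertices of an orbit -/
def mirCnj (g : Γ) {x y : X} (h : g • x = y) : MirGroup Γ M x →* MirGroup Γ M y :=
  PresentedGroup.toGroup (f := mirCf M hact g h) (by
    rintro w (⟨k, l, rfl⟩ | ⟨a, rfl⟩ | ⟨a, b, hab, rfl⟩ | ⟨k, a, b, hab, rfl⟩)
    · rw [map_mul, map_mul, map_inv, FreeGroup.lift_apply_of, FreeGroup.lift_apply_of, FreeGroup.lift_apply_of,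
        mul_inv_eq_one]
      unfold mirCf
      rw [← map_mul]
      congr 1
      apply Subtype.ext
      show g * (k : Γ) * g⁻¹ * (g * (l : Γ) * g⁻¹) = g * ((k : Γ) * (l : Γ)) * g⁻¹
      group
    · rw [map_mul, FreeGroup.lift_apply_of]
      exact mRf_mul M y _
    · rw [map_mul, map_mul, map_mul, map_inv, map_inv, FreeGroup.lift_apply_of, FreeGroup.lift_apply_of,
        mul_inv_eq_one, mul_inv_eq_iff_eq_mul]
      refine mRf_comm M y ?_
      obtain ⟨h1, m, h2, h3, h4⟩ := hab
      refine ⟨fun h5 => h1 (Subtype.ext (MulAction.injective g (congrArg Subtype.val h5))), g • m, ?_,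
        hact g _ _ h3, hact g _ _ h4⟩
      rw [← h]
      exact fun h5 => h2 (MulAction.injective g h5)
    · rw [map_mul, map_mul, map_mul, map_inv, map_inv, FreeGroup.lift_apply_of, FreeGroup.lift_apply_of,
        FreeGroup.lift_apply_of, mul_inv_eq_one]
      refine m_conj M y _ _ _ ?_
      show (g * (k : Γ) * g⁻¹) • g • (a : X) = g • (b : X)
      rw [← hab, mul_smul, mul_smul, inv_smul_smul]
      rfl)

lemma mirCnj_el (g : Γ) {x y : X} (h : g • x = y) (k : MulAction.stabilizer Γ x)
    (h' : g * (k : Γ) * g⁻¹ ∈ MulAction.stabilizer Γ y) :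
    mirCnj M hact g h (mEl M x k) = mEl M y ⟨g * k * g⁻¹, h'⟩ := PresentedGroup.toGroup.of _

lemma mirCnj_rf (g : Γ) {x y : X} (h : g • x = y) (a : M.neighborSet x) (h' : g • (a : X) ∈ M.neighborSet y) :
    mirCnj M hact g h (mRf M x a) = mRf M y ⟨g • (a : X), h'⟩ := PresentedGroup.toGroup.of _

lemma mirCnj_cnj (g : Γ) {x y : X} (h : g • x = y) (h' : g⁻¹ • y = x) (w : MirGroup Γ M x) :
    mirCnj M hact g⁻¹ h' (mirCnj M hact g h w) = w := by
  have h1 : (mirCnj M hact g⁻¹ h').comp (mirCnj M hact g h) = MonoidHom.id _ := by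
    refine PresentedGroup.ext fun s => ?_
    rcases s with k | a
    · have hk : (k : Γ) • x = x := k.2
      show mirCnj M hact g⁻¹ h' (mirCnj M hact g h (mEl M x k)) = mEl M x k
      rw [mirCnj_el M hact g h k (by rw [MulAction.mem_stabilizer_iff, mul_smul, mul_smul, ← h, inv_smul_smul, hk]),
        mirCnj_el M hact g⁻¹ h' _ (by
          show (g⁻¹ * (g * (k : Γ) * g⁻¹) * g⁻¹⁻¹) • x = x
          rw [show g⁻¹ * (g * (k : Γ) * g⁻¹) * g⁻¹⁻¹ = (k : Γ) by group, hk])]
      congr 1
      apply Subtype.ext
      show g⁻¹ * (g * (k : Γ) * g⁻¹) * g⁻¹⁻¹ = k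
      group
    · show mirCnj M hact g⁻¹ h' (mirCnj M hact g h (mRf M x a)) = mRf M x a
      rw [mirCnj_rf M hact g h a (by
          rw [← h]
          exact hact g _ _ a.2), mirCnj_rf M hact g⁻¹ h' _ (by
          show g⁻¹ • g • (a : X) ∈ M.neighborSet x
          rw [inv_smul_smul]
          exact a.2)]
      congr 1
      apply Subtype.ext
      exact inv_smul_smul _ _
  exact DFunLike.congr_fun h1 w

/-- **the mirrored groups of the vertices of an orbit are isomorphic** -/
def mirConj (g : Γ) {x y : X} (h : g • x = y) : MirGroup Γ M x ≃* MirGroup Γ M y where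
  toFun := mirCnj M hact g h
  invFun := mirCnj M hact g⁻¹ (by rw [← h, inv_smul_smul])
  left_inv w := mirCnj_cnj M hact g h _ w
  right_inv w := by
    have h1 := mirCnj_cnj M hact g⁻¹ (x := y) (y := x) (by rw [← h, inv_smul_smul]) (by rw [inv_inv, h]) w
    simpa only [inv_inv] using h1
  map_mul' := map_mul _

end conj

section tree
variable {Γ V : Type} [Group Γ] [MulAction Γ V] {T : SimpleGraph V}

/-- **the mirrored groups of a tree** -/
theorem mirRel_tree (hT : T.IsTree) (v : V) : mirRel (Γ := Γ) T v = mirrorRel (Γ := Γ) T v := by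
  ext w
  constructor
  · rintro (h | h | ⟨a, b, hab, -⟩ | h)
    · exact Or.inl h
    · exact Or.inr (Or.inl h)
    · exact absurd hab (not_link_adj hT a b)
    · exact Or.inr (Or.inr h)
  · rintro (h | h | h)
    · exact Or.inl h
    · exact Or.inr (Or.inl h)
    · exact Or.inr (Or.inr (Or.inr h))

/-- equal relations give isomorphic groups -/
def relEquiv {α : Type} {r r' : Set (FreeGroup α)} (h : r = r') : PresentedGroup r ≃* PresentedGroup r' := by
  subst h
  exact MulEquiv.refl _

/-- **the mirrored groups of a tree** -/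
def treeEquiv (hT : T.IsTree) (v : V) : MirrorGroup Γ T v ≃* MirGroup Γ T v := relEquiv (mirRel_tree hT v).symm

/-- the setwise stabilizer of an edge -/
theorem stab_edge (hinv : ∀ (g : Γ) (v w : V), T.Adj v w → g • v = w → g • w ≠ v) {v w : V} (h : T.Adj v w) :
    MulAction.stabilizer Γ ({v, w} : Set V) = MulAction.stabilizer Γ v ⊓ MulAction.stabilizer Γ w := by
  ext g
  rw [Subgroup.mem_inf, MulAction.mem_stabilizer_iff, MulAction.mem_stabilizer_iff, MulAction.mem_stabilizer_iff,
    Set.smul_set_insert, Set.smul_set_singleton]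
  constructor
  · intro h1
    rcases Set.pair_eq_pair_iff.1 h1 with h2 | h2
    · exact h2
    · exact absurd h2.2 (hinv g v w h h2.1)
  · rintro ⟨h1, h2⟩
    rw [h1, h2]

/-- the setwise stabilizer of a vertex -/
theorem stab_vertex (v : V) : MulAction.stabilizer Γ ({v} : Set V) = MulAction.stabilizer Γ v := by
  ext g
  rw [MulAction.mem_stabilizer_iff, MulAction.mem_stabilizer_iff, Set.smul_set_singleton,
    Set.singleton_eq_singleton_iff]

end tree

end Cm

namespace CubeComplex

open Singer Cm

/-- **actions on trees are cubical actions** -/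
theorem CubicalAction.of_tree {Γ V : Type} [Group Γ] [MulAction Γ V] {T : SimpleGraph V} (tree : T.IsTree)
    (act : ∀ (g : Γ) (v w : V), T.Adj v w → T.Adj (g • v) (g • w))
    (inv : ∀ (g : Γ) (v w : V), T.Adj v w → g • v = w → g • w ≠ v) {F : Finset V}
    (vert : ∀ v, ∃ x ∈ F, ∃ g : Γ, g • x = v)
    (edge : ∃ K : Finset V, ∀ v w, T.Adj v w → ∃ g : Γ, g • v ∈ K ∧ g • w ∈ K)
    (finV : ∀ v : V, Nonempty (FinRes (MulAction.stabilizer Γ v)))
    (finE : ∀ v w, T.Adj v w → Nonempty (FinRes (MulAction.stabilizer Γ v ⊓ MulAction.stabilizer Γ w : Subgroup Γ))) :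
    CubicalAction Γ T where
  median := isMedian_of_tree tree
  act := act
  cocompact := by
    classical
    obtain ⟨K, hK⟩ := edge
    refine ⟨(fun x => ({x} : Set V)) '' (F : Set V) ∪ (fun p : V × V => ({p.1, p.2} : Set V)) '' ((K ×ˢ K : Finset (V × V)) : Set (V × V)),
      ((Finset.finite_toSet F).image _).union ((Finset.finite_toSet (K ×ˢ K)).image _), fun n C hC => ?_⟩
    rcases tree_cube tree hC with ⟨-, v, rfl⟩ | ⟨-, v, w, hvw, rfl⟩
    · obtain ⟨x, hx, g, rfl⟩ := vert v
      exact ⟨{x}, Or.inl ⟨x, hx, rfl⟩, g, Set.smul_set_singleton⟩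
    · obtain ⟨g, h1, h2⟩ := hK v w hvw
      refine ⟨{g • v, g • w}, Or.inr ⟨(g • v, g • w), ?_, rfl⟩, g⁻¹, ?_⟩
      · rw [Finset.mem_coe, Finset.mem_product]
        exact ⟨h1, h2⟩
      · rw [Set.smul_set_insert, Set.smul_set_singleton, inv_smul_smul, inv_smul_smul]
  fin n C hC := by
    rcases tree_cube tree hC with ⟨-, v, rfl⟩ | ⟨-, v, w, hvw, rfl⟩
    · rw [stab_vertex]
      exact finV v
    · rw [stab_edge inv hvw]
      exact finE v w hvw

end CubeComplex

namespace Cm

open Singer CubeComplex

section ball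
variable {X : Type} {M : SimpleGraph X}

/-- balls -/
def bl (M : SimpleGraph X) (x : X) : ℕ → Set X
  | 0 => {x}
  | n + 1 => bl M x n ∪ ⋃ y ∈ bl M x n, M.neighborSet y

lemma bl_finite (h : ∀ x, (M.neighborSet x).Finite) (x : X) (n : ℕ) : (bl M x n).Finite := by
  induction n with
  | zero => exact Set.finite_singleton x
  | succ n ih => exact ih.union (ih.biUnion fun y _ => h y)

lemma bl_mono (x : X) {m n : ℕ} (h : m ≤ n) : bl M x m ⊆ bl M x n := by
  induction h with
  | refl => exact subset_rfl
  | step _ ih => exact ih.trans Set.subset_union_left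

lemma adj_update {n : ℕ} {f : (Fin n → Bool) → X} (hadj : ∀ a b, M.Adj (f a) (f b) ↔ ∃ k, ∀ l, a l ≠ b l ↔ l = k)
    (a : Fin n → Bool) (i : Fin n) (c : Bool) (hc : a i ≠ c) : M.Adj (f a) (f (Function.update a i c)) := by
  classical
  rw [hadj]
  refine ⟨i, fun l => ?_⟩
  by_cases hl : l = i
  · subst hl
    rw [Function.update_self]
    exact ⟨fun _ => rfl, fun _ => hc⟩
  · rw [Function.update_of_ne hl]
    exact ⟨fun h => absurd rfl h, fun h => absurd h hl⟩

/-- the cubes at a vertex are in a ball -/
lemma cube_sub_bl (hf : ∀ x, (M.neighborSet x).Finite) {n : ℕ} {C : Set X} (hC : IsCube M n C) {x : X} (hx : x ∈ C) :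
    C ⊆ bl M x (M.neighborSet x).ncard := by
  classical
  obtain ⟨f, hinj, rfl, hadj⟩ := hC
  obtain ⟨a, rfl⟩ := hx
  have hn : n ≤ (M.neighborSet (f a)).ncard := by
    have h1 : Function.Injective fun i => f (Function.update a i (!a i)) := by
      intro i j hij
      by_contra h
      have h2 := congrFun (hinj hij) i
      rw [Function.update_self, Function.update_of_ne h] at h2
      cases h3 : a i <;> simp [h3] at h2
    have h2 : Set.range (fun i => f (Function.update a i (!a i))) ⊆ M.neighborSet (f a) := by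
      rintro - ⟨i, rfl⟩
      exact adj_update hadj a i _ (by cases a i <;> simp)
    have h3 := Set.ncard_le_ncard h2 (hf _)
    have h4 : (Set.range (fun i => f (Function.update a i (!a i)))).ncard = n := by
      rw [← Set.image_univ, Set.ncard_image_of_injective _ h1, Set.ncard_univ, Nat.card_eq_fintype_card,
        Fintype.card_fin]
    omega
  have key : ∀ (k : ℕ) (b : Fin n → Bool), (Finset.univ.filter fun i => b i ≠ a i).card = k → f b ∈ bl M (f a) k := by
    intro k
    induction k with
    | zero =>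
      intro b hb
      have h1 : b = a := by
        funext i
        by_contra h
        have h2 : i ∈ (Finset.univ.filter fun i => b i ≠ a i) := Finset.mem_filter.2 ⟨Finset.mem_univ _, h⟩
        rw [Finset.card_eq_zero.1 hb] at h2
        exact absurd h2 (Finset.notMem_empty _)
      rw [h1]
      rfl
    | succ k ih =>
      intro b hb
      obtain ⟨i, hi⟩ : (Finset.univ.filter fun i => b i ≠ a i).Nonempty := by
        rw [← Finset.card_pos, hb]
        omega
      have hi' := (Finset.mem_filter.1 hi).2
      have h1 : (Finset.univ.filter fun l => Function.update b i (a i) l ≠ a l) =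
          (Finset.univ.filter fun l => b l ≠ a l).erase i := by
        ext l
        rw [Finset.mem_erase, Finset.mem_filter, Finset.mem_filter]
        by_cases hl : l = i
        · subst hl
          rw [Function.update_self]
          simp
        · rw [Function.update_of_ne hl]
          simp [hl]
      have h2 := ih (Function.update b i (a i)) (by
        rw [h1, Finset.card_erase_of_mem hi, hb]
        rfl)
      refine Or.inr (Set.mem_iUnion₂.2 ⟨_, h2, ?_⟩)
      exact (adj_update hadj b i _ hi').symm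
  rintro - ⟨b, rfl⟩
  refine bl_mono _ hn (bl_mono _ ?_ (key _ b rfl))
  exact (Finset.card_filter_le _ _).trans (by rw [Finset.card_univ, Fintype.card_fin])

/-- the translates of cubes are cubes -/
lemma smul_isCube {Γ : Type} [Group Γ] [MulAction Γ X] (hact : ∀ (g : Γ) (x y : X), M.Adj x y → M.Adj (g • x) (g • y))
    (g : Γ) {n : ℕ} {C : Set X} (hC : IsCube M n C) : IsCube M n (g • C) := by
  obtain ⟨f, hinj, rfl, hadj⟩ := hC
  refine ⟨fun a => g • f a, fun a b h => hinj (MulAction.injective g h), ?_, fun a b => ?_⟩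
  · ext x
    constructor
    · rintro ⟨a, rfl⟩
      exact Set.smul_mem_smul_set ⟨a, rfl⟩
    · rintro ⟨-, ⟨a, rfl⟩, rfl⟩
      exact ⟨a, rfl⟩
  · rw [← hadj]
    refine ⟨fun h => ?_, hact g _ _⟩
    have h1 := hact g⁻¹ _ _ h
    rwa [inv_smul_smul, inv_smul_smul] at h1

end ball

section free
variable {Γ X : Type} [Group Γ] [MulAction Γ X] (M : SimpleGraph X)

/-- the images of the generators -/
def raf (x : X) : MulAction.stabilizer Γ x ⊕ M.neighborSet x → RACG (link M x)
  | Sum.inl _ => 1
  | Sum.inr a => Racg.gen (link M x) a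

/-- the mirrored groups of free actions -/
def raTo (hfree : ∀ (g : Γ) (x : X), g • x = x → g = 1) (x : X) : MirGroup Γ M x →* RACG (link M x) :=
  PresentedGroup.toGroup (f := raf M x) (by
    rintro w (⟨k, l, rfl⟩ | ⟨a, rfl⟩ | ⟨a, b, hab, rfl⟩ | ⟨k, a, b, hab, rfl⟩)
    · rw [map_mul, map_mul, map_inv, FreeGroup.lift_apply_of, FreeGroup.lift_apply_of, FreeGroup.lift_apply_of]
      show (1 : RACG (link M x)) * 1 * 1⁻¹ = 1
      group
    · rw [map_mul, FreeGroup.lift_apply_of]
      exact Racg.gen_mul_gen _ _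
    · rw [map_mul, map_mul, map_mul, map_inv, map_inv, FreeGroup.lift_apply_of, FreeGroup.lift_apply_of,
        mul_inv_eq_one, mul_inv_eq_iff_eq_mul]
      exact Racg.gen_comm hab
    · rw [map_mul, map_mul, map_mul, map_inv, map_inv, FreeGroup.lift_apply_of, FreeGroup.lift_apply_of,
        FreeGroup.lift_apply_of, mul_inv_eq_one]
      have h1 : k = 1 := Subtype.ext (hfree _ _ k.2)
      have h2 : a = b := by
        apply Subtype.ext
        rw [← hab, h1, one_smul]
      rw [h2]
      show (1 : RACG (link M x)) * Racg.gen (link M x) b * 1⁻¹ = Racg.gen (link M x) b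
      group)

/-- **the mirrored groups of free actions are the right-angled Coxeter groups of the links** -/
def racgEquiv (hfree : ∀ (g : Γ) (x : X), g • x = x → g = 1) (x : X) : RACG (link M x) ≃* MirGroup Γ M x :=
  MonoidHom.toMulEquiv (Racg.lift (mRf M x) (mRf_mul M x) fun a b h => mRf_comm M x h) (raTo M hfree x)
    (Racg.hom_ext fun a => by
      rw [MonoidHom.comp_apply, Racg.lift_gen]
      exact PresentedGroup.toGroup.of _)
    (PresentedGroup.ext fun s => by
      rcases s with k | a
      · have h1 : k = 1 := Subtype.ext (hfree _ _ k.2)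
        have h2 : raTo M hfree x (mEl M x k) = 1 := PresentedGroup.toGroup.of _
        show Racg.lift (mRf M x) (mRf_mul M x) (fun a b h => mRf_comm M x h) (raTo M hfree x (mEl M x k)) = mEl M x k
        rw [h2, h1, map_one, map_one]
      · have h2 : raTo M hfree x (mRf M x a) = Racg.gen (link M x) a := PresentedGroup.toGroup.of _
        show Racg.lift (mRf M x) (mRf_mul M x) (fun a b h => mRf_comm M x h) (raTo M hfree x (mRf M x a)) = mRf M x a
        rw [h2, Racg.lift_gen])

end free

end Cm

namespace CubeComplex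

open Singer Cm

/-- **free cocompact actions on cube complexes are cubical actions** -/
theorem CubicalAction.of_cube {Γ X : Type} [Group Γ] [MulAction Γ X] {M : SimpleGraph X} (median : IsMedian M)
    (fin : ∀ x, (M.neighborSet x).Finite) (act : ∀ (g : Γ) (x y : X), M.Adj x y → M.Adj (g • x) (g • y))
    (free : ∀ (g : Γ) (x : X), g • x = x → g = 1) {F : Finset X} (vert : ∀ x, ∃ f ∈ F, ∃ g : Γ, g • f = x) :
    CubicalAction Γ M where
  median := median
  act := act
  cocompact := by
    refine ⟨⋃ x ∈ (F : Set X), {D | D ⊆ bl M x (M.neighborSet x).ncard},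
      (Finset.finite_toSet F).biUnion fun x _ => (bl_finite fin x _).finite_subsets, fun n C hC => ?_⟩
    obtain ⟨x, hx⟩ : C.Nonempty := by
      obtain ⟨f, -, rfl, -⟩ := hC
      exact ⟨f fun _ => false, _, rfl⟩
    obtain ⟨y, hy, g, rfl⟩ := vert x
    refine ⟨g⁻¹ • C, Set.mem_iUnion₂.2 ⟨y, hy, cube_sub_bl fin (smul_isCube act g⁻¹ hC) ?_⟩, g, smul_inv_smul _ _⟩
    rw [Set.mem_inv_smul_set_iff]
    exact hx
  fin n C hC := by
    obtain ⟨x, hx⟩ : C.Nonempty := by
      obtain ⟨f, -, rfl, -⟩ := hC
      exact ⟨f fun _ => false, _, rfl⟩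
    have hfin : C.Finite := by
      obtain ⟨f, -, rfl, -⟩ := hC
      exact Set.finite_range f
    have : Finite C := hfin
    have hf : Finite (MulAction.stabilizer Γ C) := by
      refine Finite.of_injective (fun g : MulAction.stabilizer Γ C => (⟨(g : Γ) • x, ?_⟩ : C)) ?_
      · have h1 : (g : Γ) • C = C := g.2
        have h2 : (g : Γ) • x ∈ (g : Γ) • C := Set.smul_mem_smul_set hx
        rwa [h1] at h2
      · intro g h hgh
        have h1 : (g : Γ) • x = (h : Γ) • x := congrArg Subtype.val hgh
        have h2 : ((h : Γ)⁻¹ * (g : Γ)) • x = x := by rw [mul_smul, h1, inv_smul_smul]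
        exact Subtype.ext (inv_mul_eq_one.1 (free _ _ h2)).symm
    exact FinG.nonempty_finRes _

end CubeComplex

namespace Cm.V

open Singer CubeComplex Cm

/-- the classes are closed under isomorphisms -/
theorem Van.iso {i : ℕ} {Γ H : Type} [Group Γ] [Group H] (e : H ≃* Γ) (h : Van i H) : Van i Γ := by
  refine Van.supergroup e.toMonoidHom e.injective ?_ h
  rw [show e.toMonoidHom.range = ⊤ from MonoidHom.range_eq_top.2 e.surjective]
  infer_instance

/-- **the classes of `SQ.V` are contained in the classes of `Cm.V`** -/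
theorem van_of {i : ℕ} {Γ : Type} [Group Γ] (h : SQ.V.Van i Γ) : Van i Γ := by
  induction h with
  | sub K R h1 h2 h3 => exact Van.sub K R h1 h2 h3
  | dim R h => exact Van.dim R h
  | zero h => exact Van.zero h
  | amen R h => exact Van.amen R h
  | supergroup j h1 h2 h3 ih => exact Van.supergroup j h1 h2 ih
  | subgroup j R h1 h2 h3 ih => exact Van.subgroup j R h1 h2 ih
  | dual h1 h2 ih => exact Van.dual h1 ih
  | mirror T F hA h ih =>
    refine Van.mirror T (CubicalAction.of_tree hA.tree hA.act hA.inv hA.vert hA.edge hA.finV hA.finE) fun x => ?_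
    obtain ⟨y, hy, g, rfl⟩ := hA.vert x
    exact ((ih y hy).iso (treeEquiv hA.tree y)).iso (mirConj T hA.act g rfl)
  | tree T F hA h1 h2 ih1 ih2 =>
    refine Van.cells T (CubicalAction.of_tree hA.tree hA.act hA.inv hA.vert hA.edge hA.finV hA.finE)
      fun j n hjn C hC => ?_
    rcases tree_cube hA.tree hC with ⟨rfl, v, rfl⟩ | ⟨rfl, v, w, hvw, rfl⟩
    · rw [stab_vertex]
      rw [add_zero] at hjn
      subst hjn
      obtain ⟨y, hy, g, rfl⟩ := hA.vert v
      exact (ih1 y hy).iso (MulAction.stabilizerEquivStabilizer rfl)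
    · rw [stab_edge hA.inv hvw]
      exact ih2 j hjn v w hvw
  | vertex T F v hA h1 h2 ih1 ih2 => exact Van.vertex T F v hA ih1 ih2
  | edge T F v w hA h1 h2 h3 ih1 ih2 => exact Van.edge T F v w hA ih1 ih2 h3
  | cube M F hA h ih =>
    refine Van.mirror M (CubicalAction.of_cube hA.median hA.fin hA.act hA.free hA.vert) fun x => ?_
    obtain ⟨y, hy, g, rfl⟩ := hA.vert x
    exact ((ih y hy).iso (racgEquiv M hA.free y)).iso (mirConj M hA.act g rfl)

end Cm.V
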