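import Pool.Agent.Npc.Med

/-!
# Mirror inequality: square systems

* `Sq H P` : vertices `P`, hyperplanes `H`, `dir k` = the hyperplanes adjacent to the vertex `k` (any number), `fl t k` = the
  neighbour of `k` across `t`, `C` = the crossing graph;
* `Hgt S x0 ht` : `ht` is a height function (the distance from `x0` in a median graph);
* `SCell S j` : ordered corners `(k, τ)` of the cubes of dimension `j`, with the moves `gl`, `pm`, `tail`;
* `medSq hX` : the system of a median graph (any valence); `medSq_hgt` : the distance from a vertex is a height function.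
-/

set_option autoImplicit false
set_option linter.unusedSectionVars false
set_option linter.unusedVariables false

namespace Cm

/-- square systems -/
structure Sq (H P : Type*) where
  /-- the crossing graph -/
  C : SimpleGraph H
  /-- the hyperplanes adjacent to a vertex -/
  dir : P → Set H
  /-- the neighbour across a hyperplane -/
  fl : H → P → P
  dir_self : ∀ t k, t ∈ dir k → t ∈ dir (fl t k)
  fl_fl : ∀ t k, t ∈ dir k → fl t (fl t k) = k
  dir_adj : ∀ t u k, C.Adj t u → t ∈ dir k → u ∈ dir k → u ∈ dir (fl t k)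
  fl_comm : ∀ t u k, C.Adj t u → t ∈ dir k → u ∈ dir k → fl t (fl u k) = fl u (fl t k)

/-- a height function -/
structure Hgt {H P : Type*} (S : Sq H P) (x0 : P) (ht : P → ℕ) : Prop where
  zero : ht x0 = 0
  step : ∀ t k, t ∈ S.dir k → ht (S.fl t k) = ht k + 1 ∨ ht k = ht (S.fl t k) + 1
  desc : ∀ k, k ≠ x0 → ∃ t ∈ S.dir k, ht (S.fl t k) < ht k
  adj : ∀ t u k, t ∈ S.dir k → u ∈ S.dir k → t ≠ u → ht (S.fl t k) < ht k → ht (S.fl u k) < ht k → S.C.Adj t u
  inv : ∀ t u k, S.C.Adj t u → t ∈ S.dir k → u ∈ S.dir k →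
    (ht (S.fl u (S.fl t k)) < ht (S.fl t k) ↔ ht (S.fl u k) < ht k)

/-- ordered corners of the cubes of dimension `j` -/
@[ext] structure SCell {H P : Type*} (S : Sq H P) (j : ℕ) where
  k : P
  τ : Fin j → H
  dir : ∀ i, τ i ∈ S.dir k
  adj : ∀ i i', i ≠ i' → S.C.Adj (τ i) (τ i')

section sq
variable {H P : Type*}

lemma Sq.dir_adj' (S : Sq H P) {t u : H} {k : P} (h : S.C.Adj t u) (ht : t ∈ S.dir k) :
    u ∈ S.dir (S.fl t k) ↔ u ∈ S.dir k := by
  constructor
  · intro hu
    have := S.dir_adj t u (S.fl t k) h (S.dir_self t k ht) hu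
    rwa [S.fl_fl t k ht] at this
  · exact S.dir_adj t u k h ht

namespace SCell
variable {S : Sq H P} {j : ℕ}

/-- the glue move -/
def gl (i : Fin j) (y : SCell S j) : SCell S j :=
  ⟨S.fl (y.τ i) y.k, y.τ, fun i' => by
    by_cases h : i' = i
    · subst h
      exact S.dir_self _ _ (y.dir _)
    · exact S.dir_adj _ _ _ (y.adj i i' (Ne.symm h)) (y.dir i) (y.dir i'), y.adj⟩

/-- permutation of the letters -/
def pm (π : Equiv.Perm (Fin j)) (y : SCell S j) : SCell S j :=
  ⟨y.k, fun i => y.τ (π i), fun i => y.dir _, fun i i' h => y.adj _ _ fun h' => h (π.injective h')⟩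

/-- the face: the first letter is removed -/
def tail (y : SCell S (j + 1)) : SCell S j :=
  ⟨y.k, fun i => y.τ i.succ, fun i => y.dir _, fun i i' h => y.adj _ _ fun h' => h (Fin.succ_injective _ h')⟩

section simp
variable (i : Fin j) (y : SCell S j) (π : Equiv.Perm (Fin j))
@[simp] lemma gl_k : (gl i y).k = S.fl (y.τ i) y.k := rfl
@[simp] lemma gl_τ : (gl i y).τ = y.τ := rfl
@[simp] lemma pm_k : (pm π y).k = y.k := rfl
@[simp] lemma pm_τ : (pm π y).τ i = y.τ (π i) := rfl
@[simp] lemma tail_k (y : SCell S (j + 1)) : (tail y).k = y.k := rfl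
@[simp] lemma tail_τ (y : SCell S (j + 1)) : (tail y).τ i = y.τ i.succ := rfl
end simp

lemma gl_gl (i : Fin j) (y : SCell S j) : gl i (gl i y) = y := SCell.ext (S.fl_fl _ _ (y.dir i)) rfl

lemma gl_comm {i i' : Fin j} (h : i ≠ i') (y : SCell S j) : gl i (gl i' y) = gl i' (gl i y) :=
  SCell.ext (S.fl_comm _ _ _ (y.adj i i' h) (y.dir i) (y.dir i')) rfl

lemma pm_pm (π ρ : Equiv.Perm (Fin j)) (y : SCell S j) : pm ρ (pm π y) = pm (π * ρ) y := rfl

@[simp] lemma pm_one (y : SCell S j) : pm 1 y = y := rfl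

end SCell
end sq

/-! ### median graphs -/

section med
open Npc (Median hs mem_hs dirSet mk_mem_dirSet flip_mk square_of_cross cross_of_square)

variable {P : Type*} {X : SimpleGraph P}

/-- the system of a median graph -/
noncomputable def medSq (hX : Median X) : Sq (Npc.Hyp X) P where
  C := hX.crossG
  dir k := dirSet X k
  fl := Npc.flip
  dir_self t k h := by
    obtain ⟨a, h, rfl⟩ := h
    rw [flip_mk hX, ← Npc.Hyp.mk_symm h]
    exact mk_mem_dirSet _
  fl_fl t k h := by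
    obtain ⟨a, h, rfl⟩ := h
    rw [flip_mk hX, ← Npc.Hyp.mk_symm h, flip_mk hX]
  dir_adj t u k hc ht hu := by
    obtain ⟨a, ha, rfl⟩ := ht
    obtain ⟨b, hb, rfl⟩ := hu
    obtain ⟨hab, m, hm, ham, hbm⟩ := square_of_cross hX ha hb hc
    rw [flip_mk hX]
    exact ⟨m, ham, (Npc.Hyp.mk_eq hX ham hb).2 (Or.inl (hX.hs_square ha hb hm ham hbm hab).symm)⟩
  fl_comm t u k hc ht hu := by
    obtain ⟨a, ha, rfl⟩ := ht
    obtain ⟨b, hb, rfl⟩ := hu
    obtain ⟨hab, m, hm, ham, hbm⟩ := square_of_cross hX ha hb hc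
    have h1 : Npc.Hyp.mk hb = Npc.Hyp.mk ham :=
      (Npc.Hyp.mk_eq hX hb ham).2 (Or.inl (hX.hs_square ha hb hm ham hbm hab))
    have h2 : Npc.Hyp.mk ha = Npc.Hyp.mk hbm :=
      (Npc.Hyp.mk_eq hX ha hbm).2 (Or.inl (hX.hs_square hb ha hm hbm ham hab.symm))
    rw [flip_mk hX hb, flip_mk hX ha, h1, flip_mk hX ham, h2, flip_mk hX hbm]

variable (hX : Median X)

@[simp] lemma medSq_dir (k : P) : (medSq hX).dir k = dirSet X k := rfl
@[simp] lemma medSq_fl (t : Npc.Hyp X) (k : P) : (medSq hX).fl t k = Npc.flip t k := rfl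
@[simp] lemma medSq_C : (medSq hX).C = hX.crossG := rfl

/-- the distance from a vertex is a height function -/
theorem medSq_hgt (x0 : P) : Hgt (medSq hX) x0 (fun k => X.dist x0 k) where
  zero := SimpleGraph.dist_self
  step t k h := by
    obtain ⟨a, ha, rfl⟩ := h
    show X.dist x0 (Npc.flip (Npc.Hyp.mk ha) k) = X.dist x0 k + 1 ∨
      X.dist x0 k = X.dist x0 (Npc.flip (Npc.Hyp.mk ha) k) + 1
    rw [flip_mk hX]
    exact (hX.dist_adj ha x0).symm
  desc k hk := by
    obtain ⟨w, hw⟩ := hX.conn.exists_walk_length_eq_dist k x0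
    cases w with
    | nil => exact absurd rfl hk
    | @cons _ a _ ha w' =>
      refine ⟨Npc.Hyp.mk ha, mk_mem_dirSet ha, ?_⟩
      show X.dist x0 (Npc.flip (Npc.Hyp.mk ha) k) < X.dist x0 k
      rw [flip_mk hX, SimpleGraph.dist_comm (u := x0) (v := a), SimpleGraph.dist_comm (u := x0) (v := k), ← hw,
        SimpleGraph.Walk.length_cons]
      exact Nat.lt_succ_of_le (SimpleGraph.dist_le w')
  adj t u k ht hu htu h1 h2 := by
    obtain ⟨a, ha, rfl⟩ := ht
    obtain ⟨b, hb, rfl⟩ := hu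
    change X.dist x0 (Npc.flip (Npc.Hyp.mk ha) k) < X.dist x0 k at h1
    change X.dist x0 (Npc.flip (Npc.Hyp.mk hb) k) < X.dist x0 k at h2
    rw [flip_mk hX] at h1 h2
    have hab : a ≠ b := by
      rintro rfl
      exact htu rfl
    obtain ⟨m, hm, ham, hbm⟩ := hX.square ha hb hab h1 h2
    exact cross_of_square hX ha hb hab hm ham hbm
  inv t u k hc ht hu := by
    obtain ⟨a, ha, rfl⟩ := ht
    obtain ⟨b, hb, rfl⟩ := hu
    obtain ⟨hab, m, hm, ham, hbm⟩ := square_of_cross hX ha hb hc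
    have h0 := hX.hs_square ha hb hm ham hbm hab
    have h1 : Npc.Hyp.mk hb = Npc.Hyp.mk ham := (Npc.Hyp.mk_eq hX hb ham).2 (Or.inl h0)
    show X.dist x0 (Npc.flip (Npc.Hyp.mk hb) (Npc.flip (Npc.Hyp.mk ha) k)) <
        X.dist x0 (Npc.flip (Npc.Hyp.mk ha) k) ↔
      X.dist x0 (Npc.flip (Npc.Hyp.mk hb) k) < X.dist x0 k
    rw [flip_mk hX ha, flip_mk hX hb, h1, flip_mk hX ham, ← mem_hs, ← mem_hs, ← hX.hs_compl ham, ← hX.hs_compl hb,
      h0]

end med

end Cm
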