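import Pool.Agent.Cm.Km
import Pool.Agent.Npc.Step

/-!
# Mirror inequality: changing the state of one label

`cut_step` : glued to cut; `mir_step` : cut to mirrored.
-/

set_option autoImplicit false
set_option linter.unusedSectionVars false
set_option linter.unusedVariables false

open scoped ComplexConjugate InnerProductSpace
open Filter Topology

namespace Cm

open Singer
open Npc (plf plf_apply psf psf_apply psf_pull Fibre ind ind_apply ind_mem ind_notMem ind_ind ind_add ind_pull ind_psf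
  Cof act Equi equi_pull equi_mul St av av_apply av_comm Mdl mdl_ker map_closure_le vd vd_mono vd_map_add vd_closure
  mem_of_fibres equi_one)

namespace TSet
variable {H G : Type*} [Group G] [MulAction G H] {S : Hyp H G} {F : Type*} [AddCommGroup F] [Fintype F]
variable {A B : Type*} [MulAction G A] [MulAction G B] {X : TSet H G A} {K : Kern G A B} {s : AddChar F ℂ → St}

lemma hat_El (h : H) (ψ : AddChar F ℂ) (f : L2 (Cell S F A)) :
    X.hat S F (El S F A h ψ f) = El S F X.Mk h ψ (X.hat S F f) :=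
  av_comm (B := X.hat S F) (hat_La h) ψ f

lemma D_El (h : H) (ψ : AddChar F ℂ) (f : L2 (Cell S F A)) : K.D S F (El S F A h ψ f) = El S F B h ψ (K.D S F f) :=
  av_comm (B := K.D S F) (K.D_La h) ψ f

lemma El_mem (h : H) (ψ : AddChar F ℂ) {f : L2 (Cell S F A)} (hf : f ∈ X.Ch S F s) : El S F A h ψ f ∈ X.Ch S F s :=
  mem_Ch.2 fun ψ' => by rw [hat_El, ← (itw_El h ψ).rl, mem_Ch.1 hf, map_zero]

lemma off_mem (h : H) {f : L2 (Cell S F A)} (hf : f ∈ X.Ch S F s) : ind (X.offS S F h) f ∈ X.Chh S F s h := by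
  rw [mem_Chh]
  refine ⟨mem_Ch.2 fun ψ => ?_, ?_⟩
  · have e : X.hat S F (ind (X.offS S F h) f) = ind {y : Cell S F X.Mk | h ∉ X.T y.r.1.1} (X.hat S F f) := by
      classical
      ext y
      rw [hat_apply, ind_apply, ind_apply, hat_apply]
      rfl
    have hi : Itw X.L X.L (ind {y : Cell S F X.Mk | h ∉ X.T y.r.1.1}) :=
      itw_ind (fun _ _ => Iff.rfl) (fun _ => Iff.rfl) fun y => by
        show h ∉ X.T (X.mv y.r.1.2 y.r.1.1) ↔ h ∉ X.T y.r.1.1
        rw [X.T_mv _ _ y.r.2]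
    rw [e, ← hi.rl, mem_Ch.1 hf, map_zero]
  · rw [ind_ind, Set.inter_self]

lemma on_Ep (h : H) (ψ : AddChar F ℂ) (f : L2 (Cell S F X.Mk)) :
    ind (X.onS S F h) (Ep S F X.L ψ f) = ind (X.onS S F h) (El S F X.Mk h ψ f) := by
  classical
  ext y
  rw [ind_apply, ind_apply]
  by_cases hy : y ∈ X.onS S F h
  · have hy' : X.L.ℓ y.r = h := hy
    rw [if_pos hy, if_pos hy, Ep_eq_El, hy']
  · rw [if_neg hy, if_neg hy]

/-- the part of a cycle with the label `q` at the marker is a marked cycle -/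
theorem Ep_mem_Km {q : AddChar F ℂ} {f : L2 (Cell S F A)} (hf : f ∈ X.Cyc K S F s) :
    Ep S F X.L q (X.hat S F f) ∈ X.Km K S F s := by
  have hf0 : K.D S F f = 0 := hf.2
  rw [mem_Km]
  refine ⟨mem_Xm.2 fun ψ => ?_, fun h => ?_⟩
  · rw [itw_hat1.ep, ← (itw_Ep (L := X.L2') (L' := X.L1) (fun _ => rfl) q).rl, hat1_hat, ← itw_hat2.rl,
      mem_Ch.1 hf.1, map_zero, map_zero]
  · rw [on_Ep, ← hat_El, up_on_hat]
    have h1 : El S F A h q f ∈ X.Ch S F s := El_mem h q hf.1
    have h2 : K.D S F (El S F A h q f) = 0 := by rw [D_El, hf0, map_zero]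
    have h3 : K.D S F (El S F A h q f - ind (X.offS S F h) (El S F A h q f)) =
        K.D S F (-ind (X.offS S F h) (El S F A h q f)) := by
      rw [map_sub, h2, map_neg, zero_sub]
    rw [h3]
    exact Submodule.le_topologicalClosure _ ⟨_, Submodule.neg_mem _ (off_mem h h1), rfl⟩

lemma Ep_mem_ran (q : AddChar F ℂ) (f : L2 (Cell S F X.Mk)) : Ep S F X.L q f ∈ X.ran S F q := by
  rw [mem_ran, Ep_Ep]

lemma Ep_mem_syG {q : AddChar F ℂ} (hq : s q = St.g) {f : L2 (Cell S F A)} (hf : f ∈ X.Ch S F s) :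
    Ep S F X.L q (X.hat S F f) ∈ X.syG S F := by
  have h := mem_Ch.1 hf q
  rw [hq] at h
  exact h

variable (X) in
/-- the part with the label `q` at the marker -/
noncomputable def Eh (q : AddChar F ℂ) : L2 (Cell S F A) →L[ℂ] L2 (Cell S F X.Mk) := (Ep S F X.L q).comp (X.hat S F)

lemma Eh_apply (q : AddChar F ℂ) (f : L2 (Cell S F A)) : X.Eh (S := S) q f = Ep S F X.L q (X.hat S F f) := rfl

lemma equi_Eh (q : AddChar F ℂ) : Equi (Gh S F) (X.Eh (S := S) q) := (equi_Ep X.L q).comp equi_hat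

open Classical in
/-- cutting the label `q` -/
lemma Ch_cut (q : AddChar F ℂ) : X.Ch S F s ⊓ LinearMap.ker (X.Eh (S := S) q).toLinearMap =
    X.Ch S F (Function.update s q St.c) := by
  ext f
  constructor
  · rintro ⟨h1, h2⟩
    have h2' : Ep S F X.L q (X.hat S F f) = 0 := h2
    refine mem_Ch.2 fun ψ => ?_
    by_cases h : ψ = q
    · subst h
      rw [Function.update_self]
      exact h2'
    · rw [Function.update_of_ne h]
      exact mem_Ch.1 h1 ψ
  · intro hf
    have h2' : Ep S F X.L q (X.hat S F f) = 0 := by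
      have := mem_Ch.1 hf q
      rwa [Function.update_self] at this
    refine ⟨mem_Ch.2 fun ψ => ?_, h2'⟩
    by_cases h : ψ = q
    · subst h
      exact rl_of_ep _ h2' _
    · have := mem_Ch.1 hf ψ
      rwa [Function.update_of_ne h] at this

open Classical in
/-- **glued to cut** -/
theorem cut_step [Cof G A] {q : AddChar F ℂ} (hq : s q = St.g) :
    vd (Gh S F) (X.Cyc K S F s) - vd (Gh S F) (X.Cyc K S F (Function.update s q St.c)) ≤
      vd (Gh S F) (X.Km K S F s ⊓ X.syG S F ⊓ X.ran S F q) := by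
  have h1 := vd_map_add (Γ := Gh S F) (equi_Eh (X := X) (S := S) q) (mdl_Cyc (X := X) (K := K) (s := s))
  have h2 : X.Cyc K S F s ⊓ LinearMap.ker (X.Eh (S := S) q).toLinearMap =
      X.Cyc K S F (Function.update s q St.c) := by
    unfold Cyc
    rw [← Ch_cut, inf_right_comm]
  rw [h2] at h1
  have h3 : vd (Gh S F) ((X.Cyc K S F s).map (X.Eh (S := S) q).toLinearMap) ≤
      vd (Gh S F) (X.Km K S F s ⊓ X.syG S F ⊓ X.ran S F q) := by
    refine vd_mono ?_
    rintro _ ⟨f, hf, rfl⟩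
    exact ⟨⟨Ep_mem_Km hf, Ep_mem_syG hq hf.1⟩, Ep_mem_ran q _⟩
  linarith

/-! ### the marked chains as chains -/

/-- the boundary of the sum over the markers -/
lemma D_up_mem_of_Km {y : L2 (Cell S F X.Mk)} (hy : y ∈ X.Km K S F s) :
    K.D S F (X.up S F y) ∈ ((X.Ch S F s).map (K.D S F : L2 (Cell S F A) →ₗ[ℂ] L2 (Cell S F B))).topologicalClosure := by
  refine mem_of_fibres (fun y : Cell S F X.Mk => y.r.1.2) (Submodule.isClosed_topologicalClosure _)
    ((K.D S F).comp (X.up S F)) fun h => ?_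
  have h1 := (mem_Km.1 hy).2 h
  exact Submodule.topologicalClosure_mono (Submodule.map_mono inf_le_left) h1

/-- the relations of the sum over the markers -/
lemma Rl_up {u : L2 (Cell S F X.Mk)} {ψ : AddChar F ℂ} {σ : St} (h1 : Rl S F X.L ψ σ u = 0)
    (h2 : Rl S F X.L2' ψ σ (X.hat1 S F u) = 0) : Rl S F X.L ψ σ (X.hat S F (X.up S F u)) = 0 := by
  rw [hat_up, map_add, h1, zero_add, ← itw_up2.rl, h2, map_zero]

variable (X S) in
/-- the chains in the state `s'` whose part with the label `p` is in `W` -/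
noncomputable def M1 (s s' : AddChar F ℂ → St) (p : AddChar F ℂ) (W : Submodule ℂ (L2 (Cell S F X.Mk))) :
    Submodule ℂ (L2 (Cell S F A)) :=
  (X.Ch S F s' ⊓ W.comap (X.Eh (S := S) p).toLinearMap) ⊓
    (X.Ch S F s).comap ((1 - (X.up S F).comp (X.Eh (S := S) p) : L2 (Cell S F A) →L[ℂ] L2 (Cell S F A)) :
      L2 (Cell S F A) →ₗ[ℂ] L2 (Cell S F A))

lemma mem_M1 {s s' : AddChar F ℂ → St} {p : AddChar F ℂ} {W : Submodule ℂ (L2 (Cell S F X.Mk))}
    {f : L2 (Cell S F A)} : f ∈ X.M1 S s s' p W ↔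
      (f ∈ X.Ch S F s' ∧ X.Eh (S := S) p f ∈ W) ∧ f - X.up S F (X.Eh (S := S) p f) ∈ X.Ch S F s := Iff.rfl

open Classical in
/-- **cut to mirrored** -/
theorem mir_step [Cof G A] [Cof G B] {p : AddChar F ℂ} (hp : s p = St.c) :
    vd (Gh S F) (X.Km K S F s ⊓ X.asM S F ⊓ X.ran S F p) ≤
      vd (Gh S F) (X.Cyc K S F (Function.update s p St.m)) - vd (Gh S F) (X.Cyc K S F s) := by
  set W : Submodule ℂ (L2 (Cell S F X.Mk)) := X.Km K S F s ⊓ X.asM S F ⊓ X.ran S F p with hWdef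
  have hW : Mdl (Gh S F) W := (mdl_Km.inf mdl_asM).inf (mdl_ran p)
  set s' := Function.update s p St.m with hs'
  -- elements of `W`
  have w0 : ∀ y ∈ W, Ep S F X.L p y = y := fun y hy => mem_ran.1 hy.2
  have w1 : ∀ y ∈ W, Ep S F X.L2' p (X.hat1 S F y) = 0 := fun y hy => by
    have := mem_Xm.1 (mem_Km.1 hy.1.1).1 p
    rwa [hp] at this
  have w2 : ∀ y ∈ W, ∀ ψ, Rl S F X.L ψ (s' ψ) y = 0 := by
    intro y hy ψ
    by_cases h : ψ = p
    · subst h
      rw [hs', Function.update_self, rl_m, w0 y hy, mem_asM.1 hy.1.2, add_neg_cancel]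
    · refine rl_of_ep _ ?_ _
      rw [← w0 y hy, Ep_Ep_ne _ h]
  have w3 : ∀ y ∈ W, ∀ ψ, Rl S F X.L2' ψ (s' ψ) (X.hat1 S F y) = 0 := by
    intro y hy ψ
    by_cases h : ψ = p
    · subst h
      exact rl_of_ep _ (w1 y hy) _
    · rw [hs', Function.update_of_ne h]
      exact mem_Xm.1 (mem_Km.1 hy.1.1).1 ψ
  have u1 : ∀ y ∈ W, X.up S F y ∈ X.Ch S F s' := fun y hy => mem_Ch.2 fun ψ => Rl_up (w2 y hy ψ) (w3 y hy ψ)
  have u2 : ∀ y ∈ W, X.Eh (S := S) p (X.up S F y) = y := fun y hy => by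
    rw [Eh_apply, hat_up, map_add, w0 y hy, ← itw_up2.ep, w1 y hy, map_zero, add_zero]
  -- the module `M1`
  have hM : Mdl (Gh S F) (X.M1 S s s' p W) :=
    (mdl_Ch.inf (hW.comap (equi_Eh p))).inf (mdl_Ch.comap (equi_one.sub (equi_up.comp (equi_Eh p))))
  have m1 : (X.M1 S s s' p W).map (X.Eh (S := S) p).toLinearMap = W := by
    ext y
    constructor
    · rintro ⟨f, hf, rfl⟩
      exact (mem_M1.1 hf).1.2
    · intro hy
      refine ⟨X.up S F y, mem_M1.2 ⟨⟨u1 y hy, ?_⟩, ?_⟩, u2 y hy⟩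
      · rw [u2 y hy]
        exact hy
      · rw [u2 y hy, sub_self]
        exact Submodule.zero_mem _
  have m2 : X.M1 S s s' p W ⊓ LinearMap.ker (X.Eh (S := S) p).toLinearMap = X.Ch S F s := by
    ext f
    constructor
    · rintro ⟨h1, h2⟩
      have h2' : X.Eh (S := S) p f = 0 := h2
      have h3 := (mem_M1.1 h1).2
      rwa [h2', map_zero, sub_zero] at h3
    · intro hf
      have h0 : Ep S F X.L p (X.hat S F f) = 0 := by
        have := mem_Ch.1 hf p
        rw [hp] at this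
        exact this
      have h1 : X.Eh (S := S) p f = 0 := by rw [Eh_apply, h0]
      refine ⟨mem_M1.2 ⟨⟨mem_Ch.2 fun ψ => ?_, ?_⟩, ?_⟩, h1⟩
      · by_cases h : ψ = p
        · subst h
          exact rl_of_ep _ h0 _
        · rw [hs', Function.update_of_ne h]
          exact mem_Ch.1 hf ψ
      · rw [h1]
        exact Submodule.zero_mem _
      · rw [h1, map_zero, sub_zero]
        exact hf
  have e1 := vd_map_add (Γ := Gh S F) (equi_Eh (X := X) (S := S) p) hM
  rw [m1, m2] at e1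
  have e2 := vd_map_add (Γ := Gh S F) (K.equi_D (S := S) (F := F)) hM
  have e3 := vd_map_add (Γ := Gh S F) (K.equi_D (S := S) (F := F)) (mdl_Ch (X := X) (S := S) (s := s))
  have e4 : vd (Gh S F) ((X.M1 S s s' p W).map (K.D S F : L2 (Cell S F A) →ₗ[ℂ] L2 (Cell S F B))) ≤
      vd (Gh S F) ((X.Ch S F s).map (K.D S F : L2 (Cell S F A) →ₗ[ℂ] L2 (Cell S F B))) := by
    rw [← vd_closure ((X.Ch S F s).map _)]
    refine vd_mono ?_
    rintro _ ⟨f, hf, rfl⟩
    obtain ⟨⟨h1, h2⟩, h3⟩ := mem_M1.1 hf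
    have h4 : f = (f - X.up S F (X.Eh (S := S) p f)) + X.up S F (X.Eh (S := S) p f) := by abel
    show K.D S F f ∈ _
    rw [h4, map_add]
    exact Submodule.add_mem _ (Submodule.le_topologicalClosure _ ⟨_, h3, rfl⟩) (D_up_mem_of_Km h2.1.1)
  have e5 : vd (Gh S F) (X.M1 S s s' p W ⊓ LinearMap.ker (K.D S F : L2 (Cell S F A) →ₗ[ℂ] L2 (Cell S F B))) ≤
      vd (Gh S F) (X.Cyc K S F s') :=
    vd_mono (inf_le_inf_right _ (inf_le_left.trans inf_le_left))
  have e6 : vd (Gh S F) (X.Ch S F s ⊓ LinearMap.ker (K.D S F : L2 (Cell S F A) →ₗ[ℂ] L2 (Cell S F B))) =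
      vd (Gh S F) (X.Cyc K S F s) := rfl
  linarith

end TSet

end Cm
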