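import Pool.Agent.Npc.Stmt
import Pool.Agent.Singer.FinStmt

/-!
# Cubical actions and mirrored groups

* `IsCube M n C` : `C` is the set of vertices of a cube of dimension `n` of the graph `M`;
* `CubicalAction Γ M` : cocompact actions on `CAT(0)` cube complexes such that the stabilizers of the cubes are of type
  `FP_∞`;
* `MirGroup Γ M x` : the mirrored group of the vertex `x`, the semidirect product of the right-angled Coxeter group of the
  link of `x` with the stabilizer of `x`, by generators and relations.
-/

set_option autoImplicit false

open scoped Pointwise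

namespace CubeComplex

open Singer

/-- `C` is the set of vertices of a cube of dimension `n`: the vertices are labelled by the sequences of `n` bits, and two
of them are adjacent if and only if their labels differ in exactly one place -/
def IsCube {X : Type} (M : SimpleGraph X) (n : ℕ) (C : Set X) : Prop :=
  ∃ f : (Fin n → Bool) → X, Function.Injective f ∧ Set.range f = C ∧
    ∀ a b, M.Adj (f a) (f b) ↔ ∃ k, ∀ l, a l ≠ b l ↔ l = k

/-- `M` is a median graph, i.e. the one-skeleton of a `CAT(0)` cube complex, on which `Γ` acts with finitely many orbits of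
cubes, such that the setwise stabilizers of the cubes are of type `FP_∞` -/
structure CubicalAction (Γ : Type) [Group Γ] {X : Type} [MulAction Γ X] (M : SimpleGraph X) : Prop where
  median : IsMedian M
  act : ∀ (g : Γ) (x y : X), M.Adj x y → M.Adj (g • x) (g • y)
  cocompact : ∃ F : Set (Set X), F.Finite ∧ ∀ n C, IsCube M n C → ∃ D ∈ F, ∃ g : Γ, g • D = C
  fin : ∀ n C, IsCube M n C → Nonempty (FinRes (MulAction.stabilizer Γ C))

/-- the relations of the mirrored group of the vertex `x`: the multiplication table of the stabilizer of `x`; the
generators of the neighbours (the edges at `x`) have order two, and those of two neighbours which are adjacent in the link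
commute; the stabilizer permutes the generators of the neighbours -/
def mirRel {Γ X : Type} [Group Γ] [MulAction Γ X] (M : SimpleGraph X) (x : X) :
    Set (FreeGroup (MulAction.stabilizer Γ x ⊕ M.neighborSet x)) :=
  {w | (∃ g h, w = FreeGroup.of (Sum.inl g) * FreeGroup.of (Sum.inl h) * (FreeGroup.of (Sum.inl (g * h)))⁻¹) ∨
    (∃ a, w = FreeGroup.of (Sum.inr a) * FreeGroup.of (Sum.inr a)) ∨
    (∃ a b, (link M x).Adj a b ∧ w = FreeGroup.of (Sum.inr a) * FreeGroup.of (Sum.inr b) *
      (FreeGroup.of (Sum.inr a))⁻¹ * (FreeGroup.of (Sum.inr b))⁻¹) ∨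
    ∃ (g : MulAction.stabilizer Γ x) (a b : M.neighborSet x), g • (a : X) = b ∧
      w = FreeGroup.of (Sum.inl g) * FreeGroup.of (Sum.inr a) * (FreeGroup.of (Sum.inl g))⁻¹ *
        (FreeGroup.of (Sum.inr b))⁻¹}

/-- the mirrored group of the vertex `x` -/
abbrev MirGroup (Γ : Type) {X : Type} [Group Γ] [MulAction Γ X] (M : SimpleGraph X) (x : X) : Type :=
  PresentedGroup (mirRel (Γ := Γ) M x)

end CubeComplex
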