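import Pool.Agent.Npc.Dim

/-!
# Exact sequences of complexes of functions on free `G`-sets

* `Cx G E` : complexes of closed invariant subspaces `V j` of `ℓ²(E j)`; `X.z j`, `X.c j`, `X.b j` : the dimensions of the
  cycles, of the chains, of the reduced homology;
* `Ses A C B` : exact sequences `0 → A → C → B → 0`;
* `Ses.b_le` : `b n C ≤ b n A + b n B`; `Ses.b_sub` : `b n A ≤ b n C + b (n + 1) B`; `Ses.b_quot` : `b n B ≤ b n C + b (n - 1) A`;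
  `Ses.b_split` : equality for direct sums.
-/

set_option autoImplicit false
set_option linter.unusedSectionVars false
set_option linter.unusedVariables false

open scoped ComplexConjugate InnerProductSpace
open Filter Topology

namespace Cm

open Singer (L2)
open Npc (Cof Orb vd Equi Mdl Inv vd_map_add mdl_ker vd_mono)

/-- complexes of closed invariant subspaces -/
structure Cx (G : Type*) [Group G] (E : ℕ → Type*) [∀ j, MulAction G (E j)] where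
  V : ∀ j, Submodule ℂ (L2 (E j))
  D : ∀ j, L2 (E (j + 1)) →L[ℂ] L2 (E j)
  mdl : ∀ j, Mdl G (V j)
  equi : ∀ j, Equi G (D j)
  mem : ∀ j, ∀ f ∈ V (j + 1), D j f ∈ V j
  dd : ∀ j, ∀ f ∈ V (j + 2), D j (D (j + 1) f) = 0

variable {G : Type*} [Group G] {E : ℕ → Type*} [∀ j, MulAction G (E j)]

namespace Cx
variable (X : Cx G E)

/-- the cycles -/
noncomputable def Z : ∀ j, Submodule ℂ (L2 (E j))
  | 0 => X.V 0
  | j + 1 => X.V (j + 1) ⊓ LinearMap.ker (X.D j : L2 (E (j + 1)) →ₗ[ℂ] L2 (E j))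

lemma mem_Z_succ {j : ℕ} {f : L2 (E (j + 1))} : f ∈ X.Z (j + 1) ↔ f ∈ X.V (j + 1) ∧ X.D j f = 0 := Iff.rfl

lemma mdl_Z (j : ℕ) : Mdl G (X.Z j) := by
  cases j with
  | zero => exact X.mdl 0
  | succ j => exact (X.mdl (j + 1)).inf (mdl_ker (X.equi j))

/-- the boundary of a chain is a cycle -/
lemma D_mem_Z {j : ℕ} {f : L2 (E (j + 1))} (hf : f ∈ X.V (j + 1)) : X.D j f ∈ X.Z j := by
  cases j with
  | zero => exact X.mem 0 f hf
  | succ j => exact ⟨X.mem _ f hf, X.dd j f hf⟩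

variable [∀ j, Cof G (E j)]

/-- the dimension of the cycles -/
noncomputable def z (j : ℕ) : ℝ := vd G (X.Z j)

/-- the dimension of the chains -/
noncomputable def c (j : ℕ) : ℝ := vd G (X.V j)

/-- the dimension of the reduced homology -/
noncomputable def b (j : ℕ) : ℝ := X.z j + X.z (j + 1) - X.c (j + 1)

lemma z_zero : X.z 0 = X.c 0 := rfl

lemma vd_bd (j : ℕ) : vd G ((X.V (j + 1)).map (X.D j : L2 (E (j + 1)) →ₗ[ℂ] L2 (E j))) = X.c (j + 1) - X.z (j + 1) := by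
  have h := vd_map_add (X.equi j) (X.mdl (j + 1))
  exact eq_sub_of_add_eq h

lemma b_nonneg (j : ℕ) : 0 ≤ X.b j := by
  have h1 := X.vd_bd j
  have h2 : vd G ((X.V (j + 1)).map (X.D j : L2 (E (j + 1)) →ₗ[ℂ] L2 (E j))) ≤ X.z j := by
    refine vd_mono ?_
    rintro _ ⟨f, hf, rfl⟩
    exact X.D_mem_Z hf
  unfold b
  linarith

end Cx

/-- exact sequences of complexes -/
structure Ses (A C B : Cx G E) where
  p : ∀ j, L2 (E j) →L[ℂ] L2 (E j)
  equi : ∀ j, Equi G (p j)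
  A_iff : ∀ j f, f ∈ A.V j ↔ f ∈ C.V j ∧ p j f = 0
  maps : ∀ j, ∀ f ∈ C.V j, p j f ∈ B.V j
  surj : ∀ j, ∀ f ∈ B.V j, ∃ g ∈ C.V j, p j g = f
  DA : ∀ j, ∀ f ∈ A.V (j + 1), A.D j f = C.D j f
  DB : ∀ j, ∀ f ∈ C.V (j + 1), B.D j (p (j + 1) f) = p j (C.D j f)

namespace Ses
variable {A C B : Cx G E} (S : Ses A C B)

lemma AV (j : ℕ) : A.V j = C.V j ⊓ LinearMap.ker (S.p j : L2 (E j) →ₗ[ℂ] L2 (E j)) := by
  ext f
  exact S.A_iff j f

lemma BV (j : ℕ) : B.V j = (C.V j).map (S.p j : L2 (E j) →ₗ[ℂ] L2 (E j)) := by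
  ext f
  constructor
  · intro hf
    obtain ⟨g, hg, h⟩ := S.surj j f hf
    exact ⟨g, hg, h⟩
  · rintro ⟨g, hg, rfl⟩
    exact S.maps j g hg

lemma ZA (j : ℕ) : A.Z j = C.Z j ⊓ LinearMap.ker (S.p j : L2 (E j) →ₗ[ℂ] L2 (E j)) := by
  cases j with
  | zero => exact S.AV 0
  | succ j =>
    ext f
    constructor
    · rintro ⟨h1, h2⟩
      have h3 := (S.A_iff _ _).1 h1
      refine ⟨⟨h3.1, ?_⟩, h3.2⟩
      show C.D j f = 0
      rw [← S.DA j f h1]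
      exact h2
    · rintro ⟨⟨h1, h2⟩, h3⟩
      have h4 := (S.A_iff _ _).2 ⟨h1, h3⟩
      refine ⟨h4, ?_⟩
      show A.D j f = 0
      rw [S.DA j f h4]
      exact h2

lemma map_Z (j : ℕ) : (C.Z j).map (S.p j : L2 (E j) →ₗ[ℂ] L2 (E j)) ≤ B.Z j := by
  cases j with
  | zero =>
    rintro _ ⟨f, hf, rfl⟩
    exact S.maps 0 f hf
  | succ j =>
    rintro _ ⟨f, ⟨h1, h2⟩, rfl⟩
    refine ⟨S.maps _ f h1, ?_⟩
    show B.D j (S.p (j + 1) f) = 0
    have h3 : C.D j f = 0 := h2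
    rw [S.DB j f h1, h3, map_zero]

variable [∀ j, Cof G (E j)]

include S in
theorem c_add (j : ℕ) : C.c j = A.c j + B.c j := by
  have h := vd_map_add (S.equi j) (C.mdl j)
  rw [← S.AV, ← S.BV] at h
  show vd G (C.V j) = vd G (A.V j) + vd G (B.V j)
  rw [← h, add_comm]

include S in
theorem z_le (j : ℕ) : C.z j ≤ A.z j + B.z j := by
  have h := vd_map_add (S.equi j) (C.mdl_Z j)
  rw [← S.ZA] at h
  have h2 := vd_mono (Γ := G) (S.map_Z j)
  show vd G (C.Z j) ≤ vd G (A.Z j) + vd G (B.Z j)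
  linarith

include S in
/-- the image of the cycles contains the boundaries -/
theorem z_sub (j : ℕ) : A.z j + B.c (j + 1) ≤ C.z j + B.z (j + 1) := by
  have h := vd_map_add (S.equi j) (C.mdl_Z j)
  rw [← S.ZA] at h
  have h1 := B.vd_bd j
  have h2 : vd G ((B.V (j + 1)).map (B.D j : L2 (E (j + 1)) →ₗ[ℂ] L2 (E j))) ≤
      vd G ((C.Z j).map (S.p j : L2 (E j) →ₗ[ℂ] L2 (E j))) := by
    refine vd_mono ?_
    rintro _ ⟨f, hf, rfl⟩
    obtain ⟨g, hg, rfl⟩ := S.surj _ f hf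
    exact ⟨C.D j g, C.D_mem_Z hg, (S.DB j g hg).symm⟩
  show vd G (A.Z j) + B.c (j + 1) ≤ vd G (C.Z j) + B.z (j + 1)
  linarith

include S in
/-- the preimages of the cycles -/
theorem z_quot (j : ℕ) : A.c (j + 1) + B.z (j + 1) ≤ C.z (j + 1) + A.z j := by
  let T : L2 (E (j + 1)) →L[ℂ] L2 (E j) := (B.D j).comp (S.p (j + 1))
  have hT : Equi G T := (B.equi j).comp (S.equi (j + 1))
  let Y : Submodule ℂ (L2 (E (j + 1))) := C.V (j + 1) ⊓ LinearMap.ker (T : L2 (E (j + 1)) →ₗ[ℂ] L2 (E j))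
  have hY : Mdl G Y := (C.mdl (j + 1)).inf (mdl_ker hT)
  have h1 := vd_map_add (S.equi (j + 1)) hY
  have h2 : Y.map (S.p (j + 1) : L2 (E (j + 1)) →ₗ[ℂ] L2 (E (j + 1))) = B.Z (j + 1) := by
    ext f
    constructor
    · rintro ⟨g, ⟨hg, hg2⟩, rfl⟩
      exact ⟨S.maps _ g hg, hg2⟩
    · rintro ⟨hf, hf2⟩
      obtain ⟨g, hg, rfl⟩ := S.surj _ f hf
      exact ⟨g, ⟨hg, hf2⟩, rfl⟩
  have h3 : Y ⊓ LinearMap.ker (S.p (j + 1) : L2 (E (j + 1)) →ₗ[ℂ] L2 (E (j + 1))) = A.V (j + 1) := by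
    rw [S.AV]
    ext f
    constructor
    · rintro ⟨⟨hf, _⟩, hf3⟩
      exact ⟨hf, hf3⟩
    · rintro ⟨hf, hf3⟩
      refine ⟨⟨hf, ?_⟩, hf3⟩
      show B.D j (S.p (j + 1) f) = 0
      have h4 : S.p (j + 1) f = 0 := hf3
      rw [h4, map_zero]
  rw [h2, h3] at h1
  have h4 := vd_map_add (C.equi j) hY
  have h5 : Y.map (C.D j : L2 (E (j + 1)) →ₗ[ℂ] L2 (E j)) ≤ A.Z j := by
    rintro _ ⟨f, ⟨hf, hf2⟩, rfl⟩
    rw [S.ZA]
    refine ⟨C.D_mem_Z hf, ?_⟩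
    show S.p j (C.D j f) = 0
    rw [← S.DB j f hf]
    exact hf2
  have h6 : Y ⊓ LinearMap.ker (C.D j : L2 (E (j + 1)) →ₗ[ℂ] L2 (E j)) ≤ C.Z (j + 1) := by
    rintro f ⟨⟨hf, _⟩, hf2⟩
    exact ⟨hf, hf2⟩
  have h7 := vd_mono (Γ := G) h5
  have h8 := vd_mono (Γ := G) h6
  show vd G (A.V (j + 1)) + vd G (B.Z (j + 1)) ≤ vd G (C.Z (j + 1)) + vd G (A.Z j)
  linarith

include S in
theorem b_le (n : ℕ) : C.b n ≤ A.b n + B.b n := by
  have h1 := S.z_le n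
  have h2 := S.z_le (n + 1)
  have h3 := S.c_add (n + 1)
  unfold Cx.b
  linarith

include S in
theorem b_sub (n : ℕ) : A.b n ≤ C.b n + B.b (n + 1) := by
  have h1 := S.z_sub n
  have h2 := S.z_sub (n + 1)
  have h3 := S.c_add (n + 1)
  unfold Cx.b
  linarith

include S in
theorem b_quot (n : ℕ) : B.b (n + 1) ≤ C.b (n + 1) + A.b n := by
  have h1 := S.z_quot n
  have h2 := S.z_quot (n + 1)
  have h3 := S.c_add (n + 1)
  have h4 := S.c_add (n + 2)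
  unfold Cx.b
  linarith

include S in
theorem b_quot_zero : B.b 0 ≤ C.b 0 := by
  have h1 := S.z_quot 0
  have h3 := S.c_add 0
  have h4 := S.c_add 1
  have h5 := A.z_zero
  have h6 := B.z_zero
  have h7 := C.z_zero
  unfold Cx.b
  linarith

include S in
/-- direct sums -/
theorem z_split (hV : ∀ j, ∀ f ∈ B.V j, f ∈ C.V j ∧ S.p j f = f)
    (hD : ∀ j, ∀ f ∈ B.V (j + 1), B.D j f = 0 → C.D j f = 0) (j : ℕ) : C.z j = A.z j + B.z j := by
  refine le_antisymm (S.z_le j) ?_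
  have h := vd_map_add (S.equi j) (C.mdl_Z j)
  rw [← S.ZA] at h
  have h2 : vd G (B.Z j) ≤ vd G ((C.Z j).map (S.p j : L2 (E j) →ₗ[ℂ] L2 (E j))) := by
    refine vd_mono fun f hf => ?_
    cases j with
    | zero => exact ⟨f, (hV 0 f hf).1, (hV 0 f hf).2⟩
    | succ j => exact ⟨f, ⟨(hV _ f hf.1).1, hD j f hf.1 hf.2⟩, (hV _ f hf.1).2⟩
  show vd G (A.Z j) + vd G (B.Z j) ≤ vd G (C.Z j)
  linarith

include S in
theorem b_split (hV : ∀ j, ∀ f ∈ B.V j, f ∈ C.V j ∧ S.p j f = f)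
    (hD : ∀ j, ∀ f ∈ B.V (j + 1), B.D j f = 0 → C.D j f = 0) (n : ℕ) : C.b n = A.b n + B.b n := by
  have h1 := S.z_split hV hD n
  have h2 := S.z_split hV hD (n + 1)
  have h3 := S.c_add (n + 1)
  unfold Cx.b
  linarith

end Ses

end Cm
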