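import Pool.Agent.Cm.Stmt

/-!
# Trees are median graphs

* `isMedian_of_tree` : trees are median graphs;
* `no_square` : trees have no squares;
* `tree_cube` : the cubes of a tree are the vertices and the edges.
-/

set_option autoImplicit false
set_option linter.unusedSectionVars false
set_option linter.unusedVariables false

namespace Cm.Tree

open CubeComplex SimpleGraph

variable {X : Type*} {T : SimpleGraph X}

/-- the neighbour which is closer to the base point is unique -/
lemma uniq (hT : T.IsTree) {x v a b : X} (ha : T.Adj a v) (hb : T.Adj b v) (ha2 : T.dist x v = T.dist x a + 1)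
    (hb2 : T.dist x v = T.dist x b + 1) : a = b := by
  obtain ⟨p, hp⟩ := hT.connected.exists_walk_length_eq_dist x a
  obtain ⟨q, hq⟩ := hT.connected.exists_walk_length_eq_dist x b
  have h1 : (p.concat ha).IsPath := Walk.isPath_of_length_eq_dist _ (by rw [Walk.length_concat, hp, ha2])
  have h2 : (q.concat hb).IsPath := Walk.isPath_of_length_eq_dist _ (by rw [Walk.length_concat, hq, hb2])
  have h3 : p.concat ha = q.concat hb := (hT.existsUnique_path x v).unique h1 h2
  have h4 := congrArg Walk.penultimate h3
  rwa [Walk.penultimate_concat, Walk.penultimate_concat] at h4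

/-- a neighbour which is closer to a given vertex -/
lemma exists_closer (hT : T.IsTree) {m y : X} (h : m ≠ y) : ∃ n, T.Adj m n ∧ T.dist m y = T.dist n y + 1 := by
  obtain ⟨p, hp⟩ := hT.connected.exists_walk_length_eq_dist m y
  cases p with
  | nil => exact absurd rfl h
  | @cons _ n _ hmn p =>
    refine ⟨n, hmn, ?_⟩
    rw [Walk.length_cons] at hp
    have h1 := dist_le p
    have h2 := hT.connected.dist_triangle (u := m) (v := n) (w := y)
    have h3 : T.dist m n = 1 := dist_eq_one_iff_adj.2 hmn
    omega

/-- local geodesics are geodesics -/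
lemma dist_add (hT : T.IsTree) {x y : X} (k : ℕ) : ∀ {m n : X}, T.dist m y = k → T.Adj m n →
    T.dist m y = T.dist n y + 1 → T.dist x n = T.dist x m + 1 → T.dist x y = T.dist x m + T.dist m y := by
  induction k with
  | zero =>
    intro m n h1 h2 h3 h4
    omega
  | succ k ih =>
    intro m n h1 h2 h3 h4
    by_cases h5 : n = y
    · subst h5
      rw [h4, h3, dist_self]
    · obtain ⟨n', h6, h7⟩ := exists_closer hT h5
      have h8 : T.dist x n' = T.dist x n + 1 := by
        rcases hT.dist_eq_dist_add_one_of_adj x h6 with h9 | h9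
        · exfalso
          have h10 : n' = m := uniq hT h6.symm h2 h9 h4
          subst h10
          omega
        · exact h9
      have h9 := ih (by omega) h6 h7 h8
      omega

/-- a vertex where no neighbour is closer to two of the points lies between them -/
lemma between (hT : T.IsTree) {x y m : X} (h : ∀ n, T.Adj m n → T.dist m y = T.dist n y + 1 →
    T.dist x m ≠ T.dist x n + 1) : T.dist x m + T.dist m y = T.dist x y := by
  by_cases h1 : m = y
  · subst h1
    rw [dist_self, add_zero]
  · obtain ⟨n, h2, h3⟩ := exists_closer hT h1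
    refine (dist_add hT _ rfl h2 h3 ?_).symm
    rcases hT.dist_eq_dist_add_one_of_adj x h2 with h4 | h4
    · exact absurd h4 (h n h2 h3)
    · exact h4

/-- the medians are unique -/
lemma med_unique (hT : T.IsTree) {x y z m m' : X} (h1 : T.dist x m + T.dist m y = T.dist x y)
    (h2 : T.dist y m + T.dist m z = T.dist y z) (h3 : T.dist x m + T.dist m z = T.dist x z)
    (h1' : T.dist x m' + T.dist m' y = T.dist x y) (h2' : T.dist y m' + T.dist m' z = T.dist y z)
    (h3' : T.dist x m' + T.dist m' z = T.dist x z) : m = m' := by
  by_contra h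
  obtain ⟨n, h4, h5⟩ := exists_closer hT h
  have key : ∀ u, T.dist u m = T.dist u n + 1 ∨ T.dist u m' = T.dist u m + T.dist m m' := by
    intro u
    rcases hT.dist_eq_dist_add_one_of_adj u h4 with h6 | h6
    · exact Or.inl h6
    · exact Or.inr (dist_add hT _ rfl h4 h5 h6)
  have h6 : 0 < T.dist m m' := hT.connected.pos_dist_of_ne h
  have hx := key x
  have hy := key y
  have hz := key z
  have c1 := dist_comm (G := T) (u := m) (v := y)
  have c2 := dist_comm (G := T) (u := m) (v := z)
  have c3 := dist_comm (G := T) (u := m') (v := y)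
  have c4 := dist_comm (G := T) (u := m') (v := z)
  have t1 := hT.connected.dist_triangle (u := x) (v := n) (w := y)
  have t2 := hT.connected.dist_triangle (u := y) (v := n) (w := z)
  have t3 := hT.connected.dist_triangle (u := x) (v := n) (w := z)
  have c5 := dist_comm (G := T) (u := n) (v := y)
  have c6 := dist_comm (G := T) (u := n) (v := z)
  omega

/-- the medians exist -/
lemma exists_med (hT : T.IsTree) (x y z : X) : ∃ m, T.dist x m + T.dist m y = T.dist x y ∧
    T.dist y m + T.dist m z = T.dist y z ∧ T.dist x m + T.dist m z = T.dist x z := by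
  obtain ⟨m, -, hm⟩ := WellFounded.has_min (measure fun m => T.dist x m + T.dist y m + T.dist z m).wf Set.univ
    ⟨x, trivial⟩
  have key : ∀ n, ¬ (T.dist x n + T.dist y n + T.dist z n < T.dist x m + T.dist y m + T.dist z m) :=
    fun n h => hm n trivial h
  have hstep : ∀ u n, T.Adj m n → T.dist u n ≤ T.dist u m + 1 := by
    intro u n h
    rcases hT.dist_eq_dist_add_one_of_adj u h with h6 | h6 <;> omega
  refine ⟨m, between hT fun n h1 h2 h3 => key n ?_, between hT fun n h1 h2 h3 => key n ?_,
    between hT fun n h1 h2 h3 => key n ?_⟩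
  · rw [dist_comm (u := m), dist_comm (u := n)] at h2
    have := hstep z n h1
    omega
  · rw [dist_comm (u := m), dist_comm (u := n)] at h2
    have := hstep x n h1
    omega
  · rw [dist_comm (u := m), dist_comm (u := n)] at h2
    have := hstep y n h1
    omega

/-- trees have no squares -/
theorem no_square (hT : T.IsTree) {x a b y : X} (h1 : T.Adj x a) (h2 : T.Adj x b) (h3 : T.Adj a y) (h4 : T.Adj b y)
    (h5 : x ≠ y) : a = b := by
  have e1 : T.dist x a = 1 := dist_eq_one_iff_adj.2 h1
  have e2 : T.dist x b = 1 := dist_eq_one_iff_adj.2 h2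
  have e3 : 0 < T.dist x y := hT.connected.pos_dist_of_ne h5
  have e4 : T.dist x y = 2 := by
    rcases hT.dist_eq_dist_add_one_of_adj x h3 with h6 | h6 <;> omega
  exact uniq (x := x) hT h3 h4 (by omega) (by omega)

end Cm.Tree

namespace CubeComplex

open Cm SimpleGraph

variable {X : Type} {T : SimpleGraph X}

/-- **trees are median graphs** -/
theorem isMedian_of_tree (hT : T.IsTree) : IsMedian T where
  conn := hT.connected
  med x y z := by
    obtain ⟨m, h1, h2, h3⟩ := Tree.exists_med hT x y z
    exact ⟨m, ⟨h1, h2, h3⟩, fun m' h => Tree.med_unique hT h.1 h.2.1 h.2.2 h1 h2 h3⟩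

/-- the links of a tree have no edges -/
theorem not_link_adj (hT : T.IsTree) {x : X} (a b : T.neighborSet x) : ¬ (link T x).Adj a b := by
  rintro ⟨h1, m, h2, h3, h4⟩
  exact h1 (Subtype.ext (Tree.no_square hT a.2 b.2 h3 h4 h2.symm))

/-- **the cubes of a tree** are the vertices and the edges -/
theorem tree_cube (hT : T.IsTree) {n : ℕ} {C : Set X} (h : IsCube T n C) :
    (n = 0 ∧ ∃ v, C = {v}) ∨ (n = 1 ∧ ∃ v w, T.Adj v w ∧ C = {v, w}) := by
  classical
  obtain ⟨f, hf, hC, hadj⟩ := h
  match n, f, hf, hC, hadj with
  | 0, f, hf, hC, hadj =>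
    refine Or.inl ⟨rfl, f (fun i => i.elim0), ?_⟩
    rw [← hC]
    ext x
    constructor
    · rintro ⟨a, rfl⟩
      exact congrArg f (Subsingleton.elim _ _)
    · rintro rfl
      exact ⟨_, rfl⟩
  | 1, f, hf, hC, hadj =>
    refine Or.inr ⟨rfl, f (fun _ => false), f (fun _ => true), ?_, ?_⟩
    · rw [hadj]
      exact ⟨0, fun l => by simp [Subsingleton.elim l 0]⟩
    · rw [← hC]
      ext x
      constructor
      · rintro ⟨a, rfl⟩
        have h1 : a = fun _ => a 0 := funext fun i => congrArg a (Subsingleton.elim _ _)
        rw [h1]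
        cases a 0
        · exact Or.inl rfl
        · exact Or.inr rfl
      · rintro (rfl | rfl)
        · exact ⟨_, rfl⟩
        · exact ⟨_, rfl⟩
  | n + 2, f, hf, hC, hadj =>
    exfalso
    let z : Fin (n + 2) → Bool := fun _ => false
    have h01 : (0 : Fin (n + 2)) ≠ 1 := by
      intro h
      have h1 := congrArg Fin.val h
      simp at h1
    have hsw : ∀ (a : Fin (n + 2) → Bool) (i : Fin (n + 2)), a i = false → T.Adj (f a) (f (Function.update a i true)) := by
      intro a i hi
      rw [hadj]
      refine ⟨i, fun l => ?_⟩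
      by_cases hl : l = i
      · subst hl
        simp [hi]
      · simp [hl]
    have h1 := hsw z 0 rfl
    have h2 := hsw z 1 rfl
    have h3 := hsw (Function.update z 0 true) 1 (by rw [Function.update_of_ne h01.symm])
    have h4 := hsw (Function.update z 1 true) 0 (by rw [Function.update_of_ne h01])
    rw [Function.update_comm h01.symm] at h4
    have h5 := Tree.no_square hT h1 h2 h3 h4 (by
      intro h
      have h6 := congrFun (hf h) 1
      rw [Function.update_self] at h6
      exact absurd h6 (by simp [z]))
    have h6 := congrFun (hf h5) 0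
    rw [Function.update_self, Function.update_of_ne h01] at h6
    exact absurd h6 (by simp [z])

end CubeComplex
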