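import Pool.Agent.Cm.FinEx

/-!
# The Wall construction, part 1: cells over the cells of a complex

* `SK Γ K` : a graded `Γ`-set `K` with faces, integral boundary `bd` and signs `sg` of the action;
* `Rps Γ K` : representatives of the orbits with resolutions `R a` of their stabilizers;
* `P.E = Γ × P.I` : the cells `(g, a, q, i)` over `g • rep a`, of degree `dim (rep a) + q`;
* `P.top` : the boundary of `R a`, twisted by the signs; `P.pr` : the map to the chains of `K`;
* `twJ`, `lin_top_twJ`, `lin_pr_twJ` : the part of a chain over an orbit.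
-/

set_option autoImplicit false
set_option linter.unusedSectionVars false
set_option linter.unusedVariables false

open scoped Matrix

namespace Cm

open Singer

/-- a graded `Γ`-set with faces, an integral boundary and signs of the action -/
structure SK (Γ K : Type*) [Group Γ] [MulAction Γ K] where
  dim : K → ℕ
  dim_smul : ∀ (g : Γ) x, dim (g • x) = dim x
  /-- `le y x` : `y` is a face of `x` -/
  le : K → K → Prop
  le_refl : ∀ x, le x x
  le_trans : ∀ x y z, le x y → le y z → le x z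
  le_smul : ∀ (g : Γ) x y, le y x → le (g • y) (g • x)
  dim_lt : ∀ x y, le y x → y ≠ x → dim y < dim x
  /-- the boundary -/
  bd : K → K →₀ ℤ
  bd_le : ∀ x y, bd x y ≠ 0 → le y x ∧ dim y + 1 = dim x
  bd_bd : ∀ x, lin bd (bd x) = 0
  /-- the sign of the action -/
  sg : Γ → K → ℤ
  sg_sq : ∀ g x, sg g x * sg g x = 1
  sg_mul : ∀ g h x, sg (g * h) x = sg g (h • x) * sg h x
  bd_smul : ∀ g x, sg g x • bd (g • x) = lin (fun y => Finsupp.single (g • y) (sg g y)) (bd x)

/-- representatives of the orbits with resolutions of the stabilizers -/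
structure Rps (Γ K : Type*) [Group Γ] [MulAction Γ K] where
  A : Type
  fA : Fintype A
  rep : A → K
  ex : ∀ x, ∃ (a : A) (g : Γ), g • rep a = x
  uniq : ∀ (a b : A) (g : Γ), g • rep a = rep b → a = b
  R : ∀ a, FinRes (MulAction.stabilizer Γ (rep a))

attribute [instance] Rps.fA

namespace SK
variable {Γ K : Type*} [Group Γ] [MulAction Γ K] (S : SK Γ K)

lemma sg_one (x : K) : S.sg 1 x = 1 := by
  have h1 := S.sg_mul 1 1 x
  rw [one_mul, one_smul] at h1
  rw [h1]
  exact S.sg_sq 1 x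

/-- the action on the chains -/
noncomputable def tr (g : Γ) (y : K) : K →₀ ℤ := Finsupp.single (g • y) (S.sg g y)

variable {M : Type*} [AddCommGroup M]

lemma tr_mul (g h : Γ) (z : K →₀ M) : lin (S.tr (g * h)) z = lin (S.tr g) (lin (S.tr h) z) := by
  rw [lin_lin]
  refine lin_congr fun y _ => ?_
  show S.tr (g * h) y = lin (S.tr g) (Finsupp.single (h • y) (S.sg h y))
  rw [lin_single]
  unfold tr
  rw [ms_single, mul_smul, S.sg_mul, smul_eq_mul]

lemma tr_one (z : K →₀ M) : lin (S.tr 1) z = z := by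
  conv_rhs => rw [← lin_id z]
  refine lin_congr fun y _ => ?_
  unfold tr
  rw [one_smul, S.sg_one]

/-- the boundary is equivariant -/
lemma bd_tr (g : Γ) (z : K →₀ M) : lin S.bd (lin (S.tr g) z) = lin (S.tr g) (lin S.bd z) := by
  rw [lin_lin, lin_lin]
  refine lin_congr fun y _ => ?_
  show lin S.bd (Finsupp.single (g • y) (S.sg g y)) = _
  rw [lin_single]
  refine Eq.trans ?_ (S.bd_smul g y)
  ext x
  rw [ms_apply, Finsupp.smul_apply, smul_eq_mul, smul_eq_mul, mul_comm]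

lemma bd_bd' (z : K →₀ M) : lin S.bd (lin S.bd z) = 0 := by
  rw [lin_lin]
  exact lin_zero_of fun x _ => S.bd_bd x

end SK

namespace Rps
variable {Γ K : Type*} [Group Γ] [MulAction Γ K] (P : Rps Γ K)

/-- the index set of the orbits of the cells -/
abbrev I : Type := Σ a : P.A, Σ q : ℕ, (P.R a).ι q

/-- the cells -/
abbrev E : Type _ := Γ × P.I

/-- the cell of `K` below a cell -/
def cb (e : P.E) : K := e.1 • P.rep e.2.1

/-- the degree -/
def deg (S : SK Γ K) (i : P.I) : ℕ := S.dim (P.rep i.1) + i.2.1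

/-- translation of the cells -/
def sm (g : Γ) (e : P.E) : P.E := (g * e.1, e.2)

lemma sm_inj (g : Γ) : Function.Injective (P.sm g) := by
  rintro ⟨a, i⟩ ⟨b, j⟩ h
  obtain ⟨h1, h2⟩ := Prod.ext_iff.1 h
  exact Prod.ext (mul_left_cancel h1) h2

lemma cb_sm (g : Γ) (e : P.E) : P.cb (P.sm g e) = g • P.cb e := mul_smul _ _ _

lemma cb_one (i : P.I) : P.cb (1, i) = P.rep i.1 := one_smul _ _

/-- the equivariant extension -/
noncomputable def ext (D : P.I → (P.E →₀ ℤ)) (e : P.E) : P.E →₀ ℤ := (D e.2).mapDomain (P.sm e.1)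

lemma ext_one (D : P.I → (P.E →₀ ℤ)) (i : P.I) : P.ext D (1, i) = D i := by
  unfold ext
  have h : P.sm (1 : Γ) = id := funext fun e => Prod.ext (one_mul _) rfl
  rw [h, Finsupp.mapDomain_id]

lemma ext_sm (D : P.I → (P.E →₀ ℤ)) (g : Γ) (e : P.E) : P.ext D (P.sm g e) = (P.ext D e).mapDomain (P.sm g) := by
  unfold ext
  rw [← Finsupp.mapDomain_comp]
  congr 1
  funext x
  exact Prod.ext (mul_assoc _ _ _) rfl

lemma ext_apply (D : P.I → (P.E →₀ ℤ)) (e e' : P.E) : P.ext D e e' = D e.2 (e.1⁻¹ * e'.1, e'.2) := by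
  unfold ext
  have h : e' = P.sm e.1 (e.1⁻¹ * e'.1, e'.2) := Prod.ext (mul_inv_cancel_left _ _).symm rfl
  conv_lhs => rw [h]
  exact Finsupp.mapDomain_apply (P.sm_inj e.1) _ _

variable {M : Type*} [AddCommGroup M]

lemma lin_ext_sm (D : P.I → (P.E →₀ ℤ)) (g : Γ) (f : P.E →₀ M) :
    lin (P.ext D) (f.mapDomain (P.sm g)) = (lin (P.ext D) f).mapDomain (P.sm g) := by
  rw [lin_mapDomain, mapDomain_lin]
  exact lin_congr fun e _ => P.ext_sm D g e

variable (S : SK Γ K)

/-- the boundary of the resolution, twisted by the signs -/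
noncomputable def top : P.I → (P.E →₀ ℤ)
  | ⟨_, 0, _⟩ => 0
  | ⟨a, q + 1, i⟩ => ∑ l, lin (fun γ : MulAction.stabilizer Γ (P.rep a) =>
      (Finsupp.single ((γ : Γ), (⟨a, q, l⟩ : P.I)) (S.sg γ (P.rep a)) : P.E →₀ ℤ)) ((P.R a).d q i l).coeff

/-- the map to the chains of `K`, on the representatives -/
noncomputable def pr0 : P.I → (K →₀ ℤ)
  | ⟨a, 0, i⟩ => Finsupp.single (P.rep a) ((P.R a).w i)
  | ⟨_, _ + 1, _⟩ => 0

/-- the map to the chains of `K` -/
noncomputable def pr (e : P.E) : K →₀ ℤ := lin (S.tr e.1) (P.pr0 e.2)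

lemma pr_one (i : P.I) : P.pr S (1, i) = P.pr0 i := S.tr_one _

lemma pr_sm (g : Γ) (e : P.E) : P.pr S (P.sm g e) = lin (S.tr g) (P.pr S e) := S.tr_mul _ _ _

lemma lin_pr_sm (g : Γ) (f : P.E →₀ M) : lin (P.pr S) (f.mapDomain (P.sm g)) = lin (S.tr g) (lin (P.pr S) f) := by
  rw [lin_mapDomain, lin_lin]
  exact lin_congr fun e _ => P.pr_sm S g e

lemma pr_zero (g : Γ) (a : P.A) (i : (P.R a).ι 0) :
    P.pr S (g, ⟨a, 0, i⟩) = Finsupp.single (g • P.rep a) ((P.R a).w i * S.sg g (P.rep a)) := by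
  show lin (S.tr g) (Finsupp.single (P.rep a) ((P.R a).w i)) = _
  rw [lin_single]
  unfold SK.tr
  rw [ms_single, smul_eq_mul, mul_comm]

lemma pr_succ (g : Γ) (a : P.A) (q : ℕ) (i : (P.R a).ι (q + 1)) : P.pr S (g, ⟨a, q + 1, i⟩) = 0 := map_zero _

lemma pr_ne {e : P.E} {x : K} (h : P.pr S e x ≠ 0) : P.cb e = x ∧ e.2.2.1 = 0 := by
  classical
  obtain ⟨g, a, q, i⟩ := e
  cases q with
  | zero =>
    rw [pr_zero, Finsupp.single_apply] at h
    by_cases h1 : g • P.rep a = x
    · exact ⟨h1, rfl⟩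
    · rw [if_neg h1] at h
      exact absurd rfl h
  | succ q =>
    rw [pr_succ] at h
    exact absurd rfl h

/-! ### the part over an orbit -/

/-- the cells over the orbit `a`, twisted by the signs -/
noncomputable def twJ (a : P.A) (q : ℕ) (x : Γ × (P.R a).ι q) : P.E →₀ ℤ :=
  Finsupp.single (x.1, ⟨a, q, x.2⟩) (S.sg x.1 (P.rep a))

/-- the inclusion of the cells over an orbit -/
def J (a : P.A) (q : ℕ) (x : Γ × (P.R a).ι q) : P.E := (x.1, ⟨a, q, x.2⟩)

lemma J_inj (a : P.A) (q : ℕ) : Function.Injective (P.J a q) := by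
  rintro ⟨g, i⟩ ⟨h, j⟩ hh
  obtain ⟨h1, h2⟩ := Prod.ext_iff.1 hh
  refine Prod.ext h1 ?_
  have h3 := eq_of_heq (Sigma.mk.inj h2).2
  exact eq_of_heq (Sigma.mk.inj h3).2

lemma J_eq {a b : P.A} {q r : ℕ} {x : Γ × (P.R a).ι q} {y : Γ × (P.R b).ι r} (h : P.J a q x = P.J b r y) :
    a = b ∧ q = r := by
  obtain ⟨_, h2⟩ := Prod.ext_iff.1 h
  have h3 := Sigma.mk.inj h2
  obtain ⟨rfl, h4⟩ := h3
  exact ⟨rfl, (Sigma.mk.inj (eq_of_heq h4)).1⟩

lemma twJ_eq (a : P.A) (q : ℕ) (x : Γ × (P.R a).ι q) : P.twJ S a q x = Finsupp.single (P.J a q x) (S.sg x.1 (P.rep a)) :=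
  rfl

lemma lin_twJ_self (a : P.A) (q : ℕ) (c : Γ × (P.R a).ι q →₀ M) (x : Γ × (P.R a).ι q) :
    lin (P.twJ S a q) c (P.J a q x) = S.sg x.1 (P.rep a) • c x := by
  classical
  induction c using Finsupp.induction_linear with
  | zero => simp
  | add f g hf hg => rw [map_add, Finsupp.add_apply, hf, hg, Finsupp.add_apply, smul_add]
  | single y m =>
    rw [lin_single, twJ_eq, ms_single, Finsupp.single_apply, Finsupp.single_apply]
    by_cases h : y = x
    · subst h
      rw [if_pos rfl, if_pos rfl]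
    · rw [if_neg h, if_neg fun h1 => h (P.J_inj a q h1), smul_zero]

lemma lin_twJ_ne (a : P.A) (q : ℕ) (c : Γ × (P.R a).ι q →₀ M) {e : P.E} (h : ∀ x, P.J a q x ≠ e) :
    lin (P.twJ S a q) c e = 0 := by
  classical
  by_contra h0
  obtain ⟨x, _, hx⟩ := exists_of_lin_ne h0
  rw [twJ_eq, Finsupp.single_apply, if_neg (h x)] at hx
  exact hx rfl

lemma lin_twJ_supp (a : P.A) (q : ℕ) (c : Γ × (P.R a).ι q →₀ M) {e : P.E} (h : lin (P.twJ S a q) c e ≠ 0) :
    ∃ x, P.J a q x = e := by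
  by_contra h0
  push Not at h0
  exact h (P.lin_twJ_ne S a q c h0)

lemma mem_stab {a : P.A} (γ : MulAction.stabilizer Γ (P.rep a)) : (γ : Γ) • P.rep a = P.rep a := γ.2

/-- the boundary over an orbit -/
lemma lin_top_twJ (a : P.A) (q : ℕ) (c : Γ × (P.R a).ι (q + 1) →₀ M) :
    lin (P.ext (P.top S)) (lin (P.twJ S a (q + 1)) c) = lin (P.twJ S a q) (lin (mxI ((P.R a).d q)) c) := by
  rw [lin_lin, lin_lin]
  refine lin_congr fun x _ => ?_
  obtain ⟨g, i⟩ := x
  rw [twJ_eq, lin_single]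
  unfold mxI ext
  rw [map_sum]
  show ms _ (Finsupp.mapDomain _ (∑ l, _)) = _
  rw [Finsupp.mapDomain_finsetSum]
  have hsum : ∀ (s : ℤ) (u : (P.R a).ι q → (P.E →₀ ℤ)), ms s (∑ l, u l) = ∑ l, ms s (u l) := by
    intro s u
    ext y
    rw [ms_apply, Finsupp.finsetSum_apply, Finsupp.finsetSum_apply, Finset.sum_smul]
    rfl
  rw [hsum]
  refine Finset.sum_congr rfl fun l _ => ?_
  rw [lin_mapDomain, mapDomain_lin, ← lin_ms]
  rw [show ms (S.sg g (P.rep a)) ((P.R a).d q i l).coeff = S.sg g (P.rep a) • ((P.R a).d q i l).coeff from by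
    ext y
    rw [ms_apply, Finsupp.smul_apply, smul_eq_mul, smul_eq_mul, mul_comm]]
  rw [map_zsmul]
  have h2 : ∀ (k : ℤ) (u : MulAction.stabilizer Γ (P.rep a) →₀ ℤ) (β : MulAction.stabilizer Γ (P.rep a) → (P.E →₀ ℤ)),
      k • lin β u = lin (fun γ => k • β γ) u := by
    intro k u β
    induction u using Finsupp.induction_linear with
    | zero => simp
    | add f g hf hg => rw [map_add, smul_add, hf, hg, map_add]
    | single e m => rw [lin_single, lin_single, ms_smul]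
  rw [h2]
  refine lin_congr fun γ _ => ?_
  show S.sg g (P.rep a) • Finsupp.mapDomain (P.sm g) (Finsupp.single ((γ : Γ), (⟨a, q, l⟩ : P.I)) _) = _
  rw [Finsupp.mapDomain_single, Finsupp.smul_single, twJ_eq, S.sg_mul, P.mem_stab γ]
  rfl

/-- the boundary over an orbit, lowest degree -/
lemma lin_top_twJ0 (a : P.A) (c : Γ × (P.R a).ι 0 →₀ M) : lin (P.ext (P.top S)) (lin (P.twJ S a 0) c) = 0 := by
  rw [lin_lin]
  refine lin_zero_of fun x _ => ?_
  rw [twJ_eq, lin_single]
  have h : P.ext (P.top S) (P.J a 0 x) = 0 := by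
    unfold ext
    show Finsupp.mapDomain _ 0 = 0
    exact Finsupp.mapDomain_zero
  rw [h, ms_zero_right]

/-- the cosets of the stabilizer as cells of `K` -/
def qk (a : P.A) : Γ ⧸ MulAction.stabilizer Γ (P.rep a) → K := MulAction.ofQuotientStabilizer Γ (P.rep a)

lemma qk_mk (a : P.A) (g : Γ) : P.qk a (QuotientGroup.mk g) = g • P.rep a := rfl

lemma qk_inj (a : P.A) : Function.Injective (P.qk a) := MulAction.injective_ofQuotientStabilizer Γ (P.rep a)

/-- the projection over an orbit -/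
lemma lin_pr_twJ (a : P.A) (c : Γ × (P.R a).ι 0 →₀ M) :
    lin (P.pr S) (lin (P.twJ S a 0) c) =
      (lin (amI (MulAction.stabilizer Γ (P.rep a)) (P.R a).w) c).mapDomain (P.qk a) := by
  rw [lin_lin, mapDomain_lin]
  refine lin_congr fun x _ => ?_
  obtain ⟨g, i⟩ := x
  rw [twJ_eq, lin_single]
  unfold J amI
  rw [pr_zero, ms_single, Finsupp.mapDomain_single, qk_mk, smul_eq_mul, mul_assoc, S.sg_sq, mul_one]

/-- the projection over an orbit, higher degrees -/
lemma lin_pr_twJ_succ (a : P.A) (q : ℕ) (c : Γ × (P.R a).ι (q + 1) →₀ M) :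
    lin (P.pr S) (lin (P.twJ S a (q + 1)) c) = 0 := by
  rw [lin_lin]
  refine lin_zero_of fun x _ => ?_
  rw [twJ_eq, lin_single]
  unfold J
  rw [pr_succ, ms_zero_right]

/-- the part of a chain over an orbit -/
noncomputable def part (a : P.A) (q : ℕ) (f : P.E →₀ M) : Γ × (P.R a).ι q →₀ M :=
  Finsupp.onFinset (f.comapDomain (P.J a q) (P.J_inj a q).injOn).support
    (fun x => S.sg x.1 (P.rep a) • f (P.J a q x)) fun x hx => by
      rw [Finsupp.mem_support_iff]
      intro h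
      apply hx
      have h1 : f (P.J a q x) = 0 := h
      rw [h1, smul_zero]

lemma part_apply (a : P.A) (q : ℕ) (f : P.E →₀ M) (x : Γ × (P.R a).ι q) :
    P.part S a q f x = S.sg x.1 (P.rep a) • f (P.J a q x) := rfl

lemma lin_twJ_part (a : P.A) (q : ℕ) (f : P.E →₀ M) (x : Γ × (P.R a).ι q) :
    lin (P.twJ S a q) (P.part S a q f) (P.J a q x) = f (P.J a q x) := by
  rw [lin_twJ_self, part_apply, smul_smul, S.sg_sq, one_smul]

end Rps

end Cm
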